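import Pool.Agent.Work.MP_e17eac_co.HS.StG2

/-!
# HS, block G: comparison of two profiles
-/

namespace Pool.Agent.Work.MP_e17eac_co.HS

theorem I_Cmp : StCmp := by
  intro I J lq w w' g hI h h' h4
  have key : ∀ w w' : ℕ → ℝ, Pr I J lq w g → Pr I J lq w' g →
      (∀ i, i ≤ 4 → w i ≤ w' (i + 1)) → ∀ i, i ≤ J → w i ≤ w' (i + 3) := by
    intro w w' h h' h4 i hi
    rcases le_or_gt i 4 with h5 | h5
    · have a := h4 i h5
      have b := h'.gr (i + 1) (by omega)
      have c := h'.gr (i + 2) (by omega)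
      have e1 : i + 1 + 1 = i + 2 := by omega
      have e2 : i + 2 + 1 = i + 3 := by omega
      rw [e1] at b
      rw [e2] at c
      linarith
    · have a1 := h.lo 3 (i - 3) (by omega) (by omega)
      have a2 := h'.hi 3 (i - 3) (by omega) (by omega)
      have a3 := h4 3 (by omega)
      have a4 := h'.lo 3 1 (by omega) (by omega)
      have a5 := h'.hi (i + 1) 1 (by omega) (by omega)
      have e1 : 3 + (i - 3) = i := by omega
      have e2 : i + 1 + 1 + 1 = i + 3 := by omega
      rw [e1] at a1 a2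
      rw [e2] at a5
      have e3 : (3 : ℕ) + 1 = 4 := rfl
      rw [e3] at a3 a4
      linarith
  intro i hi
  exact ⟨key w w' h h' (fun k hk => (h4 k hk).1) i hi, key w' w h' h (fun k hk => (h4 k hk).2) i hi⟩

end Pool.Agent.Work.MP_e17eac_co.HS
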