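import Pool.Agent.Work.MP_e17eac_co.HS.G_Fin

/-! HS, block G: the theorem `I_G`. -/

namespace Pool.Agent.Work.MP_e17eac_co.HS

open Finset
open Pool.Agent.Work.MP_e17eac_co.DH
open Pool.Agent.Work.MP_e17eac_co.B1

section

variable {ι α : Type} [Fintype ι] [DecidableEq ι] [DecidableEq α] {K : KSys ι}
  {b M R F d : ℕ} {ec : ℕ → ℕ} {D D' ρ A : ℝ} {L : Lb α} {E E4 X4 E5 : Finset ℕ}
  {U : ℕ → ι → ℕ → ℕ × ℕ} {c f u u' : ℕ} {rm rp : ℕ → ι → ℝ}

/-- Number of windows. -/
theorem win_card (h : PF K b M (gm d) R F ec D D' ρ A L E E4 X4 E5 U c f u u' rm rp)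
    (hAρ : A ^ 10 ≤ ρ) {i1 : ℕ} (C : Finset ℕ) (hC : C ⊆ E5) (ha : ∀ v ∈ C, K.a v = K.a i1)
    (h1 : (K.N : ℝ) ≤ 2 * ρ * A ^ 3 * Fintype.card ι * (C.card : ℝ)) :
    ((b : ℝ) ^ (8 * R)) ^ (d + 1) ≤
      ((C.image (rep K b (R * (8 * (d + 1) + 4)) E5 (K.a i1))).card : ℝ) := by
  have hgI := gI_ge d
  have hb := h.b2
  have hb1 : (1 : ℝ) ≤ b := by linarith
  have hb0 : (0 : ℝ) < b := by linarith
  have hA := h.Abig
  have hA0 : 0 < A := by linarith
  have hD0 : 0 < D := lt_of_lt_of_le (by positivity) h.D64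
  have hDA := h.DA'
  have hρ1 := h.rho1
  have hNr : (0 : ℝ) < K.N := by exact_mod_cast h.s4.ls.npos
  obtain ⟨hl1, hl2⟩ := loss h hAρ
  have h2 := rep_card h (x := 8 * (d + 1) + 4) (h.M_ge (by unfold gm; omega)) (i1 := i1) C hC ha
  generalize ((C.image (rep K b (R * (8 * (d + 1) + 4)) E5 (K.a i1))).card : ℝ) = W at h2 ⊢
  generalize (C.card : ℝ) = CC at h1 h2
  have hbx : 0 < (b : ℝ) ^ (R * (8 * (d + 1) + 4)) := by positivity
  have hbx2 : (b : ℝ) ^ R * ((b : ℝ) ^ (8 * R)) ^ (d + 1) ≤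
      (b : ℝ) ^ (R * (8 * (d + 1) + 4)) := by
    rw [← pow_mul, ← pow_add]
    apply pow_le_pow_right₀ hb1
    nlinarith
  generalize (b : ℝ) ^ (R * (8 * (d + 1) + 4)) = BX at h2 hbx hbx2
  generalize ((b : ℝ) ^ (8 * R)) ^ (d + 1) = Q1 at hbx2 ⊢
  have h3 : (K.N : ℝ) * BX ≤ (2 * ρ * A ^ 3) * (W * (D * K.N)) := by
    calc (K.N : ℝ) * BX ≤ (2 * ρ * A ^ 3 * Fintype.card ι * CC) * BX :=
          mul_le_mul_of_nonneg_right h1 hbx.le
      _ = (2 * ρ * A ^ 3) * (CC * (Fintype.card ι * BX)) := by ring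
      _ ≤ _ := mul_le_mul_of_nonneg_left h2 (by positivity)
  have h4 : BX ≤ (2 * ρ * A ^ 3 * D) * W := by
    have h5 : (K.N : ℝ) * BX ≤ (K.N : ℝ) * ((2 * ρ * A ^ 3 * D) * W) := by
      refine h3.trans (le_of_eq ?_)
      ring
    exact le_of_mul_le_mul_left h5 hNr
  have hW : 0 ≤ W := by
    by_contra hcon
    push Not at hcon
    have : (2 * ρ * A ^ 3 * D) * W < 0 := mul_neg_of_pos_of_neg (by positivity) hcon
    linarith
  have h5 : 2 * ρ * A ^ 3 * D ≤ (b : ℝ) ^ R := by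
    calc 2 * ρ * A ^ 3 * D ≤ A * ρ * A ^ 3 * A := by
          apply mul_le_mul _ hDA hD0.le (by positivity)
          apply mul_le_mul_of_nonneg_right _ (by positivity)
          apply mul_le_mul_of_nonneg_right (by linarith) (by linarith)
      _ = A ^ 5 * ρ := by ring
      _ ≤ A ^ 10 * ρ ^ 2 := by
          apply mul_le_mul (pow_le_pow_right₀ (by linarith) (by norm_num))
            (le_self_pow₀ hρ1 (by norm_num)) (by linarith) (by positivity)
      _ ≤ _ := hl1
  have h6 : (b : ℝ) ^ R * Q1 ≤ (b : ℝ) ^ R * W :=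
    (hbx2.trans h4).trans (mul_le_mul_of_nonneg_right h5 hW)
  exact le_of_mul_le_mul_left h6 (by positivity)

/-- Number of incidences. -/
theorem inc_fin (h : PF K b M (gm d) R F ec D D' ρ A L E E4 X4 E5 U c f u u' rm rp)
    (hAρ : A ^ 10 ≤ ρ) {BB : Finset ι} {β : Type} {Aw : ι → Finset β}
    (hBBc : (Fintype.card ι : ℝ) ≤ 4 * A ^ 7 * (b : ℝ) ^ (4 * (R * gY d 5)) * BB.card)
    (hcp : ∀ p ∈ BB, ((b : ℝ) ^ (8 * R)) ^ (d + 1) ≤ ((Aw p).card : ℝ)) :
    (Fintype.card ι : ℝ) / (b : ℝ) ^ (4 * (R * gY d 3)) * ((b : ℝ) ^ (8 * R)) ^ d ≤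
      ((b : ℝ) ^ (8 * R)) ^ 12 * ∑ p ∈ BB, ((Aw p).card : ℝ) := by
  have hb := h.b2
  have hb1 : (1 : ℝ) ≤ b := by linarith
  have hb0 : (0 : ℝ) < b := by linarith
  have hA := h.Abig
  have hρ1 := h.rho1
  obtain ⟨hl1, hl2⟩ := loss h hAρ
  have hsum : (BB.card : ℝ) * ((b : ℝ) ^ (8 * R)) ^ (d + 1) ≤ ∑ p ∈ BB, ((Aw p).card : ℝ) := by
    calc (BB.card : ℝ) * ((b : ℝ) ^ (8 * R)) ^ (d + 1)
        = ∑ p ∈ BB, ((b : ℝ) ^ (8 * R)) ^ (d + 1) := by rw [sum_const, nsmul_eq_mul]
      _ ≤ _ := sum_le_sum hcp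
  have h7 : 4 * A ^ 7 ≤ (b : ℝ) ^ R := by
    calc 4 * A ^ 7 ≤ A * A ^ 7 := mul_le_mul_of_nonneg_right (by linarith) (by positivity)
      _ = A ^ 8 := by ring
      _ ≤ A ^ 10 := pow_le_pow_right₀ (by linarith) (by norm_num)
      _ ≤ A ^ 10 * ρ ^ 2 := le_mul_of_one_le_right (by positivity) (one_le_pow₀ hρ1)
      _ ≤ _ := hl1
  have h8 : (Fintype.card ι : ℝ) / (b : ℝ) ^ (4 * (R * gY d 3)) ≤
      ((b : ℝ) ^ (8 * R)) ^ 5 * BB.card := by
    rw [div_le_iff₀ (by positivity)]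
    calc (Fintype.card ι : ℝ) ≤ 4 * A ^ 7 * (b : ℝ) ^ (4 * (R * gY d 5)) * BB.card := hBBc
      _ ≤ (b : ℝ) ^ R * (b : ℝ) ^ (4 * (R * gY d 5)) * BB.card := by
          apply mul_le_mul_of_nonneg_right _ (Nat.cast_nonneg _)
          exact mul_le_mul_of_nonneg_right h7 (by positivity)
      _ ≤ (b : ℝ) ^ (8 * R * 5 + 4 * (R * gY d 3)) * BB.card := by
          apply mul_le_mul_of_nonneg_right _ (Nat.cast_nonneg _)
          rw [← pow_add]
          apply pow_le_pow_right₀ hb1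
          unfold gY
          nlinarith
      _ = _ := by rw [pow_add, pow_mul (b : ℝ) (8 * R) 5]; ring
  have hq1 : (1 : ℝ) ≤ (b : ℝ) ^ (8 * R) := one_le_pow₀ hb1
  generalize (b : ℝ) ^ (8 * R) = q at hsum h8 hq1 ⊢
  have hq0 : 0 < q := by linarith
  calc (Fintype.card ι : ℝ) / (b : ℝ) ^ (4 * (R * gY d 3)) * q ^ d
      ≤ (q ^ 5 * BB.card) * q ^ d := mul_le_mul_of_nonneg_right h8 (by positivity)
    _ ≤ (q ^ 12 * BB.card) * q ^ (d + 1) := by
        apply mul_le_mul _ (pow_le_pow_right₀ hq1 (by omega)) (by positivity) (by positivity)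
        exact mul_le_mul_of_nonneg_right (pow_le_pow_right₀ hq1 (by norm_num))
          (Nat.cast_nonneg _)
    _ = q ^ 12 * (BB.card * q ^ (d + 1)) := by ring
    _ ≤ _ := mul_le_mul_of_nonneg_left hsum (by positivity)

end

theorem I_G (hC : CFG.StCfg) (hLin : StLin) (hCmp : StCmp) (hPr : StPr) (hTwo : StTwoH)
    (hRadC : StRadC) (hPick : StPick) (hReg : StRegA) : StG := by
  classical
  obtain ⟨dmin, hdm⟩ := hC 12
  refine ⟨gm (dmin + 3), 10, by unfold gm; omega, ?_⟩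
  intro ι α _ _ _ K b M R F ec D D' ρ A L E E4 X4 E5 U c f u u' rm rp hAρ h
  obtain ⟨d, hdd⟩ : ∃ d, d = dmin + 3 := ⟨_, rfl⟩
  rw [← hdd] at h
  obtain ⟨i1, hi1, BB, hBB, hBBc⟩ := hPick ι α K b M R F d ec D D' ρ A L E E4 X4 E5 U c f u u'
    rm rp h
  have hgI := gI_ge d
  have hb := h.b2
  have hb1 : (1 : ℝ) ≤ b := by linarith
  have hb0 : (0 : ℝ) < b := by linarith
  have hA := h.Abig
  have hA0 : 0 < A := by linarith
  obtain ⟨hl1, hl2⟩ := loss h hAρ
  have hR : 0 < R := by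
    rcases Nat.eq_zero_or_pos R with h0 | h0
    · rw [h0] at hl2; norm_num at hl2
    · exact h0
  have hρ1 := h.rho1
  have hAR : A ≤ (b : ℝ) ^ R := by
    calc A ≤ A ^ 10 := le_self_pow₀ (by linarith) (by norm_num)
      _ ≤ A ^ 10 * ρ ^ 2 := le_mul_of_one_le_right (by positivity) (one_le_pow₀ hρ1)
      _ ≤ _ := hl1
  have hD0 : 0 < D := lt_of_lt_of_le (by positivity) h.D64
  have hDA := h.DA'
  have hρR : D' * ρ ^ 2 < (b : ℝ) ^ (4 * R) := by
    calc D' * ρ ^ 2 ≤ A * ρ ^ 2 := mul_le_mul_of_nonneg_right h.DA (by positivity)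
      _ ≤ A ^ 10 * ρ ^ 2 :=
        mul_le_mul_of_nonneg_right (le_self_pow₀ (by linarith) (by norm_num)) (by positivity)
      _ ≤ (b : ℝ) ^ R := hl1
      _ < (b : ℝ) ^ (4 * R) := pow_lt_pow_right₀ (by linarith) (by omega)
  have hil := h.il hi1
  have hNpos : 0 < K.N := h.s4.ls.npos
  have hNr : (0 : ℝ) < K.N := by exact_mod_cast hNpos
  have hcard : 0 < Fintype.card ι := Fintype.card_pos_iff.2 ⟨K.a i1⟩
  have hn : (0 : ℝ) < Fintype.card ι := by exact_mod_cast hcard
  have hlogb : 0 < Real.log b := Real.log_pos (by linarith)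
  have hRr : (0 : ℝ) < R := by exact_mod_cast hR
  set x := 8 * (d + 1) + 4 with hx
  have hxm : x ≤ gm d := by rw [hx]; unfold gm; omega
  have hxM : R * x ≤ M := h.M_ge hxm
  -- the line `p1`
  have hP1 := hPr ι α K b M R F d ec D D' ρ A L E E4 X4 E5 U c f u u' rm rp h hAR i1 hi1
  obtain ⟨θ, hθ, hlin⟩ := hLin (gI d) (d + 8) (8 * R * Real.log b) _ _ (by omega)
    (by unfold gI; exact le_rfl) (by positivity) hP1
  have hpos : ∀ k, k ≤ gI d → ∀ j ∈ E5, 0 < rm (gY d k) (K.a j) := fun k hk j hj =>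
    h.rpos (by unfold gY; omega) (by unfold gY gm; omega) hj
  -- data of the lines of `BB`
  have hBBd : ∀ p ∈ BB, ∃ v ∈ E5, ∃ i ∈ E5, K.a v = K.a i1 ∧ K.a i = p ∧
      gl K b R d L U i = gl K b R d L U v := by
    intro p hp
    have h3 := (hBB p hp).2.2
    have hne : (com K b R d L U E5 i1 p).Nonempty := by
      rw [← card_pos]
      by_contra hcon
      have : (com K b R d L U E5 i1 p).card = 0 := by omega
      rw [this] at h3
      simp at h3
      linarith
    obtain ⟨v, hv⟩ := hne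
    unfold com at hv
    rw [mem_filter] at hv
    obtain ⟨i, hi, hai, hg⟩ := hv.2.2
    exact ⟨v, hv.1, i, hi, hv.2.1, hai, hg⟩
  have hrc : ∀ i ∈ E5, K.a i ∈ BB → RC K d rm i1 i := by
    intro i hi hp
    obtain ⟨v, hv, i', hi', hav, hai', hg⟩ := hBBd _ hp
    have h1 := (hBB _ hp).1
    have h2 := (hBB _ hp).2.1
    rw [← hai'] at h1 h2
    have h3 := rc_of hCmp hPr hRadC h hAR hρR hi' hi1 hv hav hg h1 h2
    unfold RC at h3 ⊢
    rw [hai'] at h3
    exact h3
  have hPSB : BB ⊆ PS K b M D := by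
    intro p hp
    obtain ⟨v, hv, i, hi, hav, hai, hg⟩ := hBBd p hp
    rw [← hai]
    exact (h.s4.hyg (h.mem4 hi)).ps false
  -- windows
  set Rep := rep K b (R * x) E5 (K.a i1) with hRep
  set Al := (E5.filter (fun v => K.a v = K.a i1)).image Rep with hAl
  have hAlp : ∀ w ∈ Al, w ∈ E5 ∧ K.a w = K.a i1 := by
    intro w hw
    obtain ⟨v, hv, rfl⟩ := mem_image.1 hw
    rw [mem_filter] at hv
    have := rep_spec K b (R * x) E5 hv.1 hv.2
    exact ⟨this.1, this.2.1⟩
  have hAli : ∀ w ∈ Al, ∀ w' ∈ Al, cell K b (R * x) w = cell K b (R * x) w' → w = w' := by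
    intro w hw w' hw' he
    obtain ⟨v, hv, rfl⟩ := mem_image.1 hw
    obtain ⟨v', hv', rfl⟩ := mem_image.1 hw'
    rw [mem_filter] at hv hv'
    have e1 := (rep_spec K b (R * x) E5 hv.1 hv.2).2.2
    have e2 := (rep_spec K b (R * x) E5 hv'.1 hv'.2).2.2
    exact rep_eq K b (R * x) E5 (K.a i1) (by rw [← e1, ← e2]; exact he)
  set Aw := fun p => (com K b R d L U E5 i1 p).image Rep with hAw
  -- certificates
  have hS : ∀ p ∈ BB, ∀ w ∈ Aw p, ∃ S : Finset ι,
      S ⊆ bal K (PS K b M D) (ta K b f u) (tb K b f u') (K.a i1)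
        ((b : ℝ) ^ 16 * rp (gY d 2) (K.a i1)) ∧
      (Fintype.card ι : ℝ) ≤ A * (b : ℝ) ^ (2 * (R * (gY d 5 + 1)) +
        2 * (R * (gY d (d + 7) + 1))) * (S.card : ℝ) ∧
      ∀ q ∈ S, 2 * |K.ht q (K.t w) - K.ht p (K.t w)| ≤ rm (gY d (d + 3)) (K.a i1) := by
    intro p hp w hw
    obtain ⟨v, hv, rfl⟩ := mem_image.1 hw
    unfold com at hv
    rw [mem_filter] at hv
    obtain ⟨hvE, hav, i, hi, hai, hg⟩ := hv
    obtain ⟨hw1, hw2, hw3⟩ := rep_spec K b (R * x) E5 hvE hav
    have hBp := hBB p hp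
    rw [← hai] at hBp
    have hri : RC K d rm i1 i := hrc i hi (by rw [hai]; exact hp)
    have hU1 : U x (K.a i) (cell K b (R * x) i) = U x (K.a v) (cell K b (R * x) v) := by
      have h2 := congrFun (congrArg Prod.snd hg) (⟨d + 1, by omega⟩ : Fin (d + 9))
      simpa [gl, hx] using h2
    have hU2 : U x (K.a (Rep v)) (cell K b (R * x) (Rep v)) =
        U x (K.a v) (cell K b (R * x) v) := by
      rw [hRep, hw2, hw3, hav]
    have hin := in_hull h (x := x) (by omega) hxm hw1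
    have hg0 : g0 K b (R * x) (R * x + c) (U x) i =
        g0 K b (R * x) (R * x + c) (U x) (Rep v) := by
      unfold g0; rw [hU1, hU2]
    have hg1 : g1 K b (R * x) (R * x + c) (U x) i =
        g1 K b (R * x) (R * x + c) (U x) (Rep v) := by
      unfold g1; rw [hU1, hU2]
    have hc := cert hTwo hPr h hAR hi hi1 hBp.1 hBp.2.1 hri (K.t (Rep v))
      (by rw [← hx, hg0]; exact hin.1) (by rw [← hx, hg1]; exact hin.2)
    rw [hai] at hc
    exact hc
  choose! S hS1 hS2 hS3 using hS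
  -- the configuration
  have hexp : ∀ k, k ≤ gI d → Real.exp (- (- Real.log (rm (gY d k) (K.a i1)))) =
      rm (gY d k) (K.a i1) := fun k hk => by
    rw [neg_neg, Real.exp_log (hpos k hk i1 hi1)]
  have hlogq : Real.log ((b : ℝ) ^ (8 * R)) = 8 * R * Real.log b := by
    rw [Real.log_pow]
    push_cast
    ring
  have hqR : (b : ℝ) ^ R ≤ (b : ℝ) ^ (8 * R) := pow_le_pow_right₀ hb1 (by omega)
  have hq10 : (10 : ℝ) ≤ (b : ℝ) ^ (8 * R) := by linarith
  refine hdm ι ι ℕ d (by omega) ((b : ℝ) ^ (8 * R)) θ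
    (Fintype.card ι / (b : ℝ) ^ (4 * (R * gY d 3)))
    (Fintype.card ι / (A * (b : ℝ) ^ (2 * (R * (gY d 5 + 1)) +
        2 * (R * (gY d (d + 7) + 1)))))
    (fun k => - Real.log (rm (gY d (k + 3)) (K.a i1))) (PS K b M D) BB
    (fun p => K.ht p (ta K b f u)) (fun p => K.ht p (tb K b f u')) (K.a i1) Al
    (fun w => (K.t w - ta K b f u) / (tb K b f u' - ta K b f u)) Aw S
    (fun _ => bal K (PS K b M D) (ta K b f u) (tb K b f u') (K.a i1)
        ((b : ℝ) ^ 16 * rp (gY d 2) (K.a i1))) ?_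
  refine
    { hq := hq10
      hθ := by rw [hlogq]; exact hθ
      hM := by positivity
      hF := by positivity
      lin_lo := ?_
      lin_hi := ?_
      box := ?_
      mass_hi := ?_
      mass_lo := ?_
      sub := hPSB
      tm_mem := ?_
      tm_inj := ?_
      regA := ?_
      A_sub := ?_
      S_sub := ?_
      S_card := ?_
      Un_card := ?_
      S_near := ?_
      inc := ?_ }
  · intro i j hij
    have h1 := (hlin (i + 3) j (by omega) (by omega)).1
    have e1 : i + 3 + j = i + j + 3 := by omega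
    rw [e1] at h1
    exact h1
  · intro i j hij
    have h1 := (hlin (i + 3) j (by omega) (by omega)).2
    have e1 : i + 3 + j = i + j + 3 := by omega
    rw [e1] at h1
    exact h1
  · intro p hp
    have h1 := hBB p hp
    have h2 : CFG.d0 (fun p => K.ht p (ta K b f u)) (fun p => K.ht p (tb K b f u')) p (K.a i1) ≤
        (b : ℝ) ^ 3 * rp (gY d 5) (K.a i1) := max_le h1.1 h1.2.1
    have h3 := h.rpmono (z := gY d 3) (z' := gY d 5) (by unfold gY; omega) (by unfold gY; omega)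
      (by unfold gY gm; omega) hi1
    have h4 := h.rppos (z := gY d 5) (by unfold gY; omega) (by unfold gY gm; omega) hi1
    have h5 : 4 * ((b : ℝ) ^ 3 * rp (gY d 5) (K.a i1)) ≤ (b : ℝ) ^ 16 * rp (gY d 5) (K.a i1) := by
      rw [← mul_assoc]
      apply mul_le_mul_of_nonneg_right _ h4.le
      calc 4 * (b : ℝ) ^ 3 ≤ (2 : ℝ) ^ 13 * (b : ℝ) ^ 3 := by
            apply mul_le_mul_of_nonneg_right (by norm_num) (by positivity)
        _ ≤ (b : ℝ) ^ 13 * (b : ℝ) ^ 3 :=
          mul_le_mul_of_nonneg_right (pow_le_pow_left₀ (by norm_num) hb 13) (by positivity)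
        _ = (b : ℝ) ^ 16 := by ring
    have h6 : Real.exp (-(fun k => - Real.log (rm (gY d (k + 3)) (K.a i1))) 0) =
        rm (gY d 3) (K.a i1) := hexp 3 (by omega)
    rw [h6]
    linarith
  · intro p hp k hk
    obtain ⟨v, hv, i, hi, hav, hai, hg⟩ := hBBd p hp
    have h6 : Real.exp (-(fun k => - Real.log (rm (gY d (k + 3)) (K.a i1))) k) =
        rm (gY d (k + 3)) (K.a i1) := hexp (k + 3) (by omega)
    rw [h6]
    have h7 := mass_hi' h hAρ hi hi1 (hrc i hi (by rw [hai]; exact hp)) k hk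
    rw [hai] at h7
    exact h7
  · intro p hp
    obtain ⟨v, hv, i, hi, hav, hai, hg⟩ := hBBd p hp
    have h6 : Real.exp (-(fun k => - Real.log (rm (gY d (k + 3)) (K.a i1))) d) =
        rm (gY d (d + 3)) (K.a i1) := hexp (d + 3) (by omega)
    rw [h6]
    have h7 := mass_lo' h hAρ hi hi1 (hrc i hi (by rw [hai]; exact hp))
    rw [hai] at h7
    exact h7
  · intro w hw
    have h1 := h.tm (hAlp w hw).1
    constructor
    · exact div_nonneg (by linarith [h1.1]) hil.le
    · rw [div_le_one hil]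
      linarith [h1.2]
  · intro w hw w' hw' he
    have h1 := (hAlp w hw).1
    have h2 := (hAlp w' hw').1
    have h3 : K.t w = K.t w' := by
      have h4 := (div_left_inj' hil.ne').1 he
      linarith
    have hl1 := (h.s4.hyg (h.mem4 h1)).lt
    have hl2 := (h.s4.hyg (h.mem4 h2)).lt
    rcases lt_trichotomy w w' with h5 | h5 | h5
    · have := K.t_lt w w' h5 hl2
      linarith
    · exact h5
    · have := K.t_lt w' w h5 hl1
      linarith
  · intro i hid y δ hδ
    have hT4 : Al ⊆ E4 := fun w hw => h.mem4 (hAlp w hw).1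
    have hTa : ∀ v ∈ Al, ∀ v' ∈ Al, K.a v = K.a v' := fun v hv v' hv' => by
      rw [(hAlp v hv).2, (hAlp v' hv').2]
    rcases Nat.eq_zero_or_pos i with h0 | h0
    · subst h0
      obtain ⟨h1, -⟩ := hReg ι α K b M (gm d) R F ec D D' ρ L E E4 X4 U c f u u' rm rp h.s4 Al hT4
        hTa 1 x le_rfl (by omega) hxm hAli
      calc ((Al.filter _).card : ℝ) ≤ (Al.card : ℝ) := by
            exact_mod_cast card_le_card (filter_subset _ _)
        _ ≤ D * (b : ℝ) ^ (R * x) := h1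
        _ ≤ (b : ℝ) ^ R * (b : ℝ) ^ (R * x) :=
            mul_le_mul_of_nonneg_right (hDA.trans hAR) (by positivity)
        _ ≤ ((b : ℝ) ^ (8 * R)) ^ (d - 0 + 12) := by
            rw [← pow_add, ← pow_mul]
            apply pow_le_pow_right₀ hb1
            rw [hx]
            simp only [Nat.sub_zero]
            nlinarith
    · obtain ⟨j, rfl⟩ : ∃ j, i = j + 1 := ⟨i - 1, by omega⟩
      obtain ⟨-, h2⟩ := hReg ι α K b M (gm d) R F ec D D' ρ L E E4 X4 U c f u u' rm rp h.s4 Al hT4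
        hTa (8 * j + 4) x (by omega) (by omega) hxm hAli
      have h3 : ∀ v ∈ Al, δ ≤ hln K b R c f u u' U (8 * j + 4) v := by
        intro v hv
        have hP := hPr ι α K b M R F d ec D D' ρ A L E E4 X4 E5 U c f u u' rm rp h hAR v
          (hAlp v hv).1
        have h4 := hP.hi 3 j (by omega) (by omega)
        rw [(hAlp v hv).2] at h4
        have h5 := hP.sh j (by omega)
        have hhp : 0 < hln K b R c f u u' U (8 * j + 4) v := by
          have hlo2 := h.lo (8 * j + 4) (gY d 5) (gY d (d + 7) + 1) (by omega)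
            (by unfold gY; omega) (by unfold gY; omega) (by unfold gY; omega)
            (by unfold gY gm; omega) (by unfold gY; omega) (by unfold gY; omega) v (hAlp v hv).1
          have w7 := h.rpos (z := gY d (d + 7) + 1) (by omega) (by unfold gY gm; omega)
            (hAlp v hv).1
          have w8 := h.rppos (z := gY d 5) (by unfold gY; omega) (by unfold gY gm; omega)
            (hAlp v hv).1
          have h9 := pos_of_mul_pos_left (lt_of_lt_of_le (by positivity) hlo2) w8.le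
          unfold hln
          exact div_pos h9 hil
        refine hδ.trans ?_
        have e1 : 3 + j + 1 = j + 1 + 3 := by omega
        rw [e1] at h4
        rw [← Real.exp_log hhp]
        apply Real.exp_le_exp.2
        linarith
      have h4 := h2 y δ h3
      calc ((Al.filter _).card : ℝ) ≤ 4 * D * (b : ℝ) ^ (R * (x - (8 * j + 4))) := h4
        _ ≤ (b : ℝ) ^ (2 * R) * (b : ℝ) ^ (R * (x - (8 * j + 4))) := by
            apply mul_le_mul_of_nonneg_right _ (by positivity)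
            calc 4 * D ≤ (b : ℝ) ^ R * (b : ℝ) ^ R := by
                  apply mul_le_mul (by linarith) (hDA.trans hAR) hD0.le (by positivity)
              _ = _ := by rw [← pow_add]; congr 1; omega
        _ ≤ ((b : ℝ) ^ (8 * R)) ^ (d - (j + 1) + 12) := by
            rw [← pow_add, ← pow_mul]
            apply pow_le_pow_right₀ hb1
            have e1 : x - (8 * j + 4) = 8 * (d + 1 - j) := by omega
            have e2 : d - (j + 1) + 12 = (d + 1 - j) + 10 := by omega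
            rw [e1, e2]
            nlinarith
  · intro p hp w hw
    obtain ⟨v, hv, rfl⟩ := mem_image.1 hw
    unfold com at hv
    rw [mem_filter] at hv
    exact mem_image_of_mem _ (mem_filter.2 ⟨hv.1, hv.2.1⟩)
  · intro p hp w hw
    exact hS1 p hp w hw
  · intro p hp w hw
    have h1 := hS2 p hp w hw
    rw [div_le_iff₀ (by positivity)]
    linarith
  · intro w hw
    exact un_card h hAρ hi1
  · intro p hp p' hp' w hw hw' z hz hz'
    have h6 : Real.exp (-(fun k => - Real.log (rm (gY d (k + 3)) (K.a i1))) d) =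
        rm (gY d (d + 3)) (K.a i1) := hexp (d + 3) (by omega)
    rw [h6, val_ht K _ _ _ hil, val_ht K _ _ _ hil]
    have h1 := hS3 p hp w hw z hz
    have h2 := hS3 p' hp' w hw' z hz'
    have h3 := abs_sub_le (K.ht p (K.t w)) (K.ht z (K.t w)) (K.ht p' (K.t w))
    rw [abs_sub_comm (K.ht p (K.t w)) (K.ht z (K.t w))] at h3
    linarith
  · -- incidences
    refine inc_fin h hAρ hBBc (fun p hp => ?_)
    exact win_card h hAρ (com K b R d L U E5 i1 p)
      (by unfold com; exact filter_subset _ _) (by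
        intro v hv
        unfold com at hv
        exact (mem_filter.1 hv).2.1) (hBB p hp).2.2

end Pool.Agent.Work.MP_e17eac_co.HS
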