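import Pool.Agent.Work.MP_e17eac_co.HS.StG2

/-!
# HS, block G, item LIN: the linear profile
-/

set_option autoImplicit false

namespace Pool.Agent.Work.MP_e17eac_co.HS

theorem lin_mono {I J : ℕ} {lq : ℝ} {w g : ℕ → ℝ} (h : Pr I J lq w g) :
    ∀ k i : ℕ, i + k ≤ I → w i ≤ w (i + k) := by
  intro k
  induction k with
  | zero => intro i _; simp
  | succ k ih =>
    intro i hi
    have h1 := ih i (by omega)
    have h2 := h.gr (i + k) (by omega)
    have e : i + (k + 1) = i + k + 1 := by omega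
    rw [e]
    linarith

theorem lin_blockUp {I J : ℕ} {lq : ℝ} {w g : ℕ → ℝ} (h : Pr I J lq w g) {j : ℕ} (hj : j ≤ J) :
    ∀ n : ℕ, n * (j + 1) ≤ I → (n : ℝ) * g j ≤ w (n * (j + 1)) - w 0 := by
  intro n
  induction n with
  | zero => intro _; simp
  | succ n ih =>
    intro hn
    have e : (n + 1) * (j + 1) = n * (j + 1) + j + 1 := by ring
    rw [e] at hn ⊢
    have h1 := ih (by omega)
    have h2 := h.hi (n * (j + 1)) j hj hn
    push_cast
    linarith

theorem lin_blockLo {I J : ℕ} {lq : ℝ} {w g : ℕ → ℝ} (h : Pr I J lq w g) {j : ℕ} (hj : j ≤ J) :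
    ∀ n : ℕ, n * j ≤ I → w (n * j) - w 0 ≤ (n : ℝ) * g j := by
  intro n
  induction n with
  | zero => intro _; simp
  | succ n ih =>
    intro hn
    have e : (n + 1) * j = n * j + j := by ring
    rw [e] at hn ⊢
    have h1 := ih (by omega)
    have h2 := h.lo (n * j) j hj hn
    push_cast
    linarith

theorem lin_upper {I J : ℕ} {lq : ℝ} {w g : ℕ → ℝ} (hI : (J + 2) ^ 2 ≤ I)
    (h : Pr I J lq w g) {j : ℕ} (hj : j ≤ J) :
    g j ≤ (w I - w 0) / (I : ℝ) * ((j : ℝ) + 2) := by
  have hI0 : 0 < I := by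
    have : 0 < (J + 2) ^ 2 := by positivity
    omega
  have hIr : (0 : ℝ) < (I : ℝ) := by exact_mod_cast hI0
  set n := I / (j + 1) with hn
  have hdm : (j + 1) * n + I % (j + 1) = I := Nat.div_add_mod I (j + 1)
  have hr : I % (j + 1) < j + 1 := Nat.mod_lt _ (Nat.succ_pos j)
  have hnj : J + 1 ≤ n := by
    rw [hn, Nat.le_div_iff_mul_le (Nat.succ_pos j)]
    nlinarith
  have hle : n * (j + 1) ≤ I := by
    have : n * (j + 1) = (j + 1) * n := Nat.mul_comm _ _
    omega
  have h1 := lin_blockUp h hj n hle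
  have h2 : w (n * (j + 1)) ≤ w I := by
    have := lin_mono h (I - n * (j + 1)) (n * (j + 1)) (by omega)
    have e : n * (j + 1) + (I - n * (j + 1)) = I := by omega
    rw [e] at this
    exact this
  have h0 : w 0 ≤ w I := by
    have := lin_mono h I 0 (by omega)
    simpa using this
  have h3 : (I : ℝ) ≤ ((j : ℝ) + 2) * n := by
    have : I ≤ (j + 2) * n := by
      have e : (j + 2) * n = (j + 1) * n + n := by ring
      omega
    exact_mod_cast this
  have hnr : (0 : ℝ) < (n : ℝ) := by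
    have : 0 < n := by omega
    exact_mod_cast this
  have h4 : (n : ℝ) * g j ≤ w I - w 0 := by linarith
  have h5 : g j ≤ (w I - w 0) / n := by
    rw [le_div_iff₀ hnr]
    linarith
  have h6 : (w I - w 0) / n ≤ (w I - w 0) / (I : ℝ) * ((j : ℝ) + 2) := by
    rw [div_mul_eq_mul_div, div_le_div_iff₀ hnr hIr]
    have := mul_le_mul_of_nonneg_left h3 (sub_nonneg.2 h0)
    nlinarith
  linarith

theorem lin_lower {I J : ℕ} {lq : ℝ} {w g : ℕ → ℝ} (hI : (J + 2) ^ 2 ≤ I)
    (h : Pr I J lq w g) {j : ℕ} (hj : j + 1 ≤ J) (hj1 : 1 ≤ j) :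
    (w I - w 0) / (I : ℝ) * ((j : ℝ) - 1) ≤ g j := by
  have hI0 : 0 < I := by
    have : 0 < (J + 2) ^ 2 := by positivity
    omega
  have hIr : (0 : ℝ) < (I : ℝ) := by exact_mod_cast hI0
  set n := I / j with hn
  have hdm : j * n + I % j = I := Nat.div_add_mod I j
  have hr : I % j < j := Nat.mod_lt _ hj1
  have hnj : J + 1 ≤ n := by
    rw [hn, Nat.le_div_iff_mul_le hj1]
    nlinarith
  have hle : n * j ≤ I := by
    have : n * j = j * n := Nat.mul_comm _ _
    omega
  have hJI : J ≤ I := by nlinarith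
  have h1 := lin_blockLo h (by omega : j ≤ J) n hle
  have h2 : w I - w (n * j) ≤ g j := by
    have ha : w (I - j) ≤ w (n * j) := by
      have := lin_mono h (n * j - (I - j)) (I - j) (by
        have : n * j = j * n := Nat.mul_comm _ _
        omega)
      have e : I - j + (n * j - (I - j)) = n * j := by
        have : n * j = j * n := Nat.mul_comm _ _
        omega
      rw [e] at this
      exact this
    have hb := h.lo (I - j) j (by omega) (by omega)
    have e : I - j + j = I := by omega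
    rw [e] at hb
    linarith
  have h0 : w 0 ≤ w I := by
    have := lin_mono h I 0 (by omega)
    simpa using this
  have h3 : ((n : ℝ) + 1) * ((j : ℝ) - 1) ≤ (I : ℝ) := by
    have e1 : ((n : ℝ) + 1) * ((j : ℝ) - 1) = (n : ℝ) * j - n + j - 1 := by ring
    have e2 : (n : ℝ) * j ≤ (I : ℝ) := by exact_mod_cast hle
    have e3 : (j : ℝ) ≤ (n : ℝ) := by
      have : j ≤ n := by omega
      exact_mod_cast this
    rw [e1]
    linarith
  have hnr : (0 : ℝ) < (n : ℝ) + 1 := by positivity
  have h4 : w I - w 0 ≤ ((n : ℝ) + 1) * g j := by linarith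
  have h5 : (w I - w 0) / ((n : ℝ) + 1) ≤ g j := by
    rw [div_le_iff₀ hnr]
    linarith
  have h6 : (w I - w 0) / (I : ℝ) * ((j : ℝ) - 1) ≤ (w I - w 0) / ((n : ℝ) + 1) := by
    rw [div_mul_eq_mul_div, div_le_div_iff₀ hIr hnr]
    have := mul_le_mul_of_nonneg_left h3 (sub_nonneg.2 h0)
    nlinarith
  linarith

theorem I_Lin : StLin := by
  intro I J lq w g hJ hI hlq h
  have hI0 : 0 < I := by
    have : 0 < (J + 2) ^ 2 := by positivity
    omega
  have hIr : (0 : ℝ) < (I : ℝ) := by exact_mod_cast hI0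
  have h0 : w 0 ≤ w I := by
    have := lin_mono h I 0 (by omega)
    simpa using this
  have hth : 0 ≤ (w I - w 0) / (I : ℝ) := div_nonneg (sub_nonneg.2 h0) hIr.le
  refine ⟨(w I - w 0) / (I : ℝ), ?_, ?_⟩
  · have h1 := h.sh J le_rfl
    have h2 := lin_upper hI h (le_refl J)
    have hJr : (3 : ℝ) ≤ (J : ℝ) := by exact_mod_cast hJ
    have h3 : (2 * lq) * ((J : ℝ) + 2) ≤ (w I - w 0) / (I : ℝ) * ((J : ℝ) + 2) := by
      nlinarith
    exact le_of_mul_le_mul_right h3 (by linarith)
  · intro i j hj hij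
    constructor
    · by_cases h3 : j ≤ 2
      · have hm := lin_mono h j i hij
        have hjr : (j : ℝ) ≤ 2 := by exact_mod_cast h3
        have : (w I - w 0) / (I : ℝ) * ((j : ℝ) - 2) ≤ 0 :=
          mul_nonpos_of_nonneg_of_nonpos hth (by linarith)
        linarith
      · obtain ⟨k, rfl⟩ : ∃ k, j = k + 1 := ⟨j - 1, by omega⟩
        have ha := lin_lower hI h (by omega : k + 1 ≤ J) (by omega : 1 ≤ k)
        have hb := h.hi i k (by omega) (by omega)
        have e : i + (k + 1) = i + k + 1 := by omega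
        rw [e]
        push_cast
        have e2 : ((k : ℝ) + 1 - 2) = (k : ℝ) - 1 := by ring
        rw [e2]
        linarith
    · have ha := lin_upper hI h hj
      have hb := h.lo i j hj hij
      linarith

end Pool.Agent.Work.MP_e17eac_co.HS
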