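import Pool.Agent.Work.MP_e17eac_co.HS.StG2
import Pool.Agent.Work.MP_e17eac_co.Bd.B31

/-!
# HS, block G: choice of the line `p1` and of the lines `BB` around it (item PICK)
-/

set_option autoImplicit false

namespace Pool.Agent.Work.MP_e17eac_co.HS

open Finset
open Pool.Agent.Work.MP_e17eac_co.DH
open Pool.Agent.Work.MP_e17eac_co.B1

namespace XPick

section

variable {ι : Type} [Fintype ι] [DecidableEq ι]

/-- The pairs of edges of `X` on one line, one in each base cell. -/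
def PQ (K : KSys ι) (b f u u' : ℕ) (X : Finset ℕ) : Finset (ℕ × ℕ) :=
  (X ×ˢ X).filter (fun v : ℕ × ℕ => K.a v.1 = K.a v.2 ∧ cell K b f v.1 = u ∧ cell K b f v.2 = u')

theorem mem_PQ {K : KSys ι} {b f u u' : ℕ} {X : Finset ℕ} {v : ℕ × ℕ} :
    v ∈ PQ K b f u u' X ↔ (v.1 ∈ X ∧ v.2 ∈ X) ∧ K.a v.1 = K.a v.2 ∧ cell K b f v.1 = u ∧
      cell K b f v.2 = u' := by
  rw [PQ, mem_filter, mem_product]

/-- Many pairs. -/
theorem pq_low (K : KSys ι) {b f u u' : ℕ} {X : Finset ℕ} {D n N : ℝ} (hD : 0 ≤ D) (hn : 0 ≤ n)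
    (hmem : ∀ i ∈ X, cell K b f i = u ∨ cell K b f i = u') (hne : u ≠ u') (hN : 0 ≤ N)
    (ql : ∀ i ∈ X, N ≤ D * n * ((X.filter (fun i' => K.a i' = K.a i ∧ cell K b f i' = u)).card : ℝ))
    (qr : ∀ i ∈ X, N ≤ D * n *
      ((X.filter (fun i' => K.a i' = K.a i ∧ cell K b f i' = u')).card : ℝ)) :
    N * (X.card : ℝ) ≤ 2 * (D * n * ((PQ K b f u u' X).card : ℝ)) := by
  have h1 : N * ((X.filter (fun i => cell K b f i = u)).card : ℝ) ≤
      D * n * ((PQ K b f u u' X).card : ℝ) := by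
    have c1 : ((X.filter (fun i => cell K b f i = u)).sigma (fun v => X.filter
        (fun i' => K.a i' = K.a v ∧ cell K b f i' = u'))).card ≤ (PQ K b f u u' X).card := by
      refine card_le_card_of_injOn (fun s => (s.1, s.2)) ?_ ?_
      · rintro ⟨v, w⟩ hs
        rw [Finset.mem_coe, mem_sigma, mem_filter, mem_filter] at hs
        rw [Finset.mem_coe, mem_PQ]
        exact ⟨⟨hs.1.1, hs.2.1⟩, hs.2.2.1.symm, hs.1.2, hs.2.2.2⟩
      · rintro ⟨v, w⟩ - ⟨v', w'⟩ - h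
        simp only [Prod.mk.injEq] at h
        obtain ⟨rfl, rfl⟩ := h
        rfl
    rw [card_sigma] at c1
    have c2 : ((∑ v ∈ X.filter (fun i => cell K b f i = u), (X.filter
        (fun i' => K.a i' = K.a v ∧ cell K b f i' = u')).card : ℕ) : ℝ) ≤
        ((PQ K b f u u' X).card : ℝ) := by exact_mod_cast c1
    push_cast at c2
    calc N * ((X.filter (fun i => cell K b f i = u)).card : ℝ) =
        ∑ v ∈ X.filter (fun i => cell K b f i = u), N := by
          rw [sum_const, nsmul_eq_mul]; ring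
      _ ≤ ∑ v ∈ X.filter (fun i => cell K b f i = u), D * n *
          ((X.filter (fun i' => K.a i' = K.a v ∧ cell K b f i' = u')).card : ℝ) :=
          sum_le_sum (fun v hv => qr v (mem_filter.1 hv).1)
      _ = D * n * ∑ v ∈ X.filter (fun i => cell K b f i = u),
          ((X.filter (fun i' => K.a i' = K.a v ∧ cell K b f i' = u')).card : ℝ) := by
          rw [mul_sum]
      _ ≤ D * n * ((PQ K b f u u' X).card : ℝ) := mul_le_mul_of_nonneg_left c2 (by positivity)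
  have h2 : N * ((X.filter (fun i => cell K b f i = u')).card : ℝ) ≤
      D * n * ((PQ K b f u u' X).card : ℝ) := by
    have c1 : ((X.filter (fun i => cell K b f i = u')).sigma (fun v => X.filter
        (fun i' => K.a i' = K.a v ∧ cell K b f i' = u))).card ≤ (PQ K b f u u' X).card := by
      refine card_le_card_of_injOn (fun s => (s.2, s.1)) ?_ ?_
      · rintro ⟨v, w⟩ hs
        rw [Finset.mem_coe, mem_sigma, mem_filter, mem_filter] at hs
        rw [Finset.mem_coe, mem_PQ]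
        exact ⟨⟨hs.2.1, hs.1.1⟩, hs.2.2.1, hs.2.2.2, hs.1.2⟩
      · rintro ⟨v, w⟩ - ⟨v', w'⟩ - h
        simp only [Prod.mk.injEq] at h
        obtain ⟨rfl, rfl⟩ := h
        rfl
    rw [card_sigma] at c1
    have c2 : ((∑ v ∈ X.filter (fun i => cell K b f i = u'), (X.filter
        (fun i' => K.a i' = K.a v ∧ cell K b f i' = u)).card : ℕ) : ℝ) ≤
        ((PQ K b f u u' X).card : ℝ) := by exact_mod_cast c1
    push_cast at c2
    calc N * ((X.filter (fun i => cell K b f i = u')).card : ℝ) =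
        ∑ v ∈ X.filter (fun i => cell K b f i = u'), N := by
          rw [sum_const, nsmul_eq_mul]; ring
      _ ≤ ∑ v ∈ X.filter (fun i => cell K b f i = u'), D * n *
          ((X.filter (fun i' => K.a i' = K.a v ∧ cell K b f i' = u)).card : ℝ) :=
          sum_le_sum (fun v hv => ql v (mem_filter.1 hv).1)
      _ = D * n * ∑ v ∈ X.filter (fun i => cell K b f i = u'),
          ((X.filter (fun i' => K.a i' = K.a v ∧ cell K b f i' = u)).card : ℝ) := by
          rw [mul_sum]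
      _ ≤ D * n * ((PQ K b f u u' X).card : ℝ) := mul_le_mul_of_nonneg_left c2 (by positivity)
  have h3 : (X.card : ℝ) ≤ ((X.filter (fun i => cell K b f i = u)).card : ℝ) +
      ((X.filter (fun i => cell K b f i = u')).card : ℝ) := by
    have : X ⊆ X.filter (fun i => cell K b f i = u) ∪ X.filter (fun i => cell K b f i = u') := by
      intro i hi
      rw [mem_union, mem_filter, mem_filter]
      rcases hmem i hi with h | h
      · exact Or.inl ⟨hi, h⟩
      · exact Or.inr ⟨hi, h⟩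
    exact_mod_cast (card_le_card this).trans (card_union_le _ _)
  nlinarith [mul_le_mul_of_nonneg_left h3 hN]

/-- Few pairs are lost. -/
theorem pq_diff (K : KSys ι) {b f u u' : ℕ} {X Y : Finset ℕ} {n B : ℝ} (hn : 0 ≤ n)
    (hB : ∀ v ∈ X, n * ((X.filter (fun w => K.a w = K.a v)).card : ℝ) ≤ B) :
    n * ((PQ K b f u u' X).card : ℝ) ≤ n * ((PQ K b f u u' Y).card : ℝ) +
      2 * (((X \ Y).card : ℝ) * B) := by
  have key : ∀ U : Finset (ℕ × ℕ), ∀ σ : ℕ × ℕ → ℕ × ℕ, Function.Injective σ →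
      (∀ v ∈ U, (σ v).1 ∈ X \ Y ∧ (σ v).2 ∈ X ∧ K.a (σ v).2 = K.a (σ v).1) →
      n * (U.card : ℝ) ≤ ((X \ Y).card : ℝ) * B := by
    intro U σ hσ hU
    have c1 : U.card ≤ ((X \ Y).sigma (fun v => X.filter (fun w => K.a w = K.a v))).card := by
      refine card_le_card_of_injOn (fun v => (⟨(σ v).1, (σ v).2⟩ : (_ : ℕ) × ℕ)) ?_ ?_
      · intro v hv
        rw [Finset.mem_coe, mem_sigma, mem_filter]
        exact hU v hv
      · intro v _ v' _ h
        simp only [Sigma.mk.injEq, heq_eq_eq] at h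
        exact hσ (Prod.ext h.1 h.2)
    rw [card_sigma] at c1
    have c2 : (U.card : ℝ) ≤ ∑ v ∈ X \ Y, ((X.filter (fun w => K.a w = K.a v)).card : ℝ) := by
      exact_mod_cast c1
    calc n * (U.card : ℝ) ≤ n * ∑ v ∈ X \ Y, ((X.filter (fun w => K.a w = K.a v)).card : ℝ) :=
        mul_le_mul_of_nonneg_left c2 hn
      _ = ∑ v ∈ X \ Y, n * ((X.filter (fun w => K.a w = K.a v)).card : ℝ) := mul_sum _ _ _
      _ ≤ ∑ v ∈ X \ Y, B := sum_le_sum (fun v hv => hB v (mem_sdiff.1 hv).1)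
      _ = ((X \ Y).card : ℝ) * B := by rw [sum_const, nsmul_eq_mul]
  have k1 := key ((PQ K b f u u' X).filter (fun v => v.1 ∉ Y)) id Function.injective_id (by
    intro v hv
    rw [mem_filter, mem_PQ] at hv
    exact ⟨mem_sdiff.2 ⟨hv.1.1.1, hv.2⟩, hv.1.1.2, hv.1.2.1.symm⟩)
  have k2 := key ((PQ K b f u u' X).filter (fun v => v.2 ∉ Y)) Prod.swap Prod.swap_injective (by
    intro v hv
    rw [mem_filter, mem_PQ] at hv
    exact ⟨mem_sdiff.2 ⟨hv.1.1.2, hv.2⟩, hv.1.1.1, hv.1.2.1⟩)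
  have c3 : (PQ K b f u u' X).card ≤ (PQ K b f u u' Y).card +
      ((PQ K b f u u' X).filter (fun v => v.1 ∉ Y)).card +
      ((PQ K b f u u' X).filter (fun v => v.2 ∉ Y)).card := by
    refine le_trans (card_le_card (t := (PQ K b f u u' Y ∪
      (PQ K b f u u' X).filter (fun v => v.1 ∉ Y)) ∪
      (PQ K b f u u' X).filter (fun v => v.2 ∉ Y)) ?_)
      ((card_union_le _ _).trans (Nat.add_le_add_right (card_union_le _ _) _))
    intro v hv
    rw [mem_union, mem_union, mem_filter, mem_filter]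
    by_cases h1 : v.1 ∈ Y
    · by_cases h2 : v.2 ∈ Y
      · left; left
        rw [mem_PQ] at hv ⊢
        exact ⟨⟨h1, h2⟩, hv.2⟩
      · exact Or.inr ⟨hv, h2⟩
    · exact Or.inl (Or.inr ⟨hv, h1⟩)
  have c4 : ((PQ K b f u u' X).card : ℝ) ≤ (PQ K b f u u' Y).card +
      ((PQ K b f u u' X).filter (fun v => v.1 ∉ Y)).card +
      ((PQ K b f u u' X).filter (fun v => v.2 ∉ Y)).card := by exact_mod_cast c3
  have c5 := mul_le_mul_of_nonneg_left c4 hn
  nlinarith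

end

/-- Counting triples (pair of edges, line). -/
theorem trip {ι : Type} (G : Finset (ℕ × ℕ)) (I : ℕ × ℕ → Finset ι)
    (Bl : Finset ι) (cm : ι → Finset ℕ)
    (h : ∀ v ∈ G, ∀ q ∈ I v, q ∈ Bl ∧ v.1 ∈ cm q ∧ v.2 ∈ cm q) :
    ∑ v ∈ G, (I v).card ≤ ∑ q ∈ Bl, (cm q).card ^ 2 := by
  have h1 : ∀ q, (cm q).card ^ 2 = (cm q ×ˢ cm q).card := by
    intro q; rw [card_product, pow_two]
  simp only [h1]
  rw [← card_sigma, ← card_sigma]
  refine card_le_card_of_injOn (fun s => (⟨s.2, s.1⟩ : (_ : ι) × (ℕ × ℕ))) ?_ ?_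
  · rintro ⟨v, q⟩ hs
    rw [Finset.mem_coe, mem_sigma] at hs
    rw [Finset.mem_coe, mem_sigma, mem_product]
    exact h v hs.1 q hs.2
  · rintro ⟨v, q⟩ - ⟨v', q'⟩ - hh
    simp only [Sigma.mk.injEq, heq_eq_eq] at hh
    obtain ⟨rfl, rfl⟩ := hh
    rfl

/-- Arithmetic: many good pairs. -/
theorem num1 {N n D D' e P4 P5 G Bd X : ℝ} (hN : 0 < N) (hn : 0 < n) (hD : 0 ≤ D) (hDD : D ≤ D')
    (hD1 : 1 ≤ D') (hX : 0 ≤ X) (hB0 : 0 ≤ Bd)
    (hbig : N ≤ D' * e) (h1 : N * e ≤ 2 * (D' * n * P4)) (h2 : n * P4 ≤ n * P5 + 2 * (X * (D * N)))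
    (hmost : 1000 * D' ^ 4 * X ≤ N) (h3 : 1000 * D' ^ 4 * Bd * n ≤ N ^ 2) (h4 : P5 ≤ G + Bd) :
    N ^ 2 ≤ 4 * D' ^ 2 * (n * G) := by
  have a1 : N ^ 2 ≤ 2 * D' ^ 2 * (n * P4) := by
    have := mul_le_mul_of_nonneg_left hbig hN.le
    have h5 := mul_le_mul_of_nonneg_left h1 (by linarith : (0 : ℝ) ≤ D')
    nlinarith
  have a2 : D' ^ 2 * X * D ≤ D' ^ 4 * X := by
    have p1 : D' ^ 2 * X * D ≤ D' ^ 2 * X * D' := mul_le_mul_of_nonneg_left hDD (by positivity)
    have p2 : D' ^ 3 ≤ D' ^ 4 := pow_le_pow_right₀ hD1 (by norm_num)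
    have p3 := mul_le_mul_of_nonneg_right p2 hX
    nlinarith
  have a3 : D' ^ 2 * (X * (D * N)) ≤ N ^ 2 / 1000 := by
    have p1 : D' ^ 2 * X * D ≤ N / 1000 := by linarith
    have p2 := mul_le_mul_of_nonneg_right p1 hN.le
    nlinarith
  have a4 : D' ^ 2 * (n * Bd) ≤ N ^ 2 / 1000 := by
    have p2 : D' ^ 2 ≤ D' ^ 4 := pow_le_pow_right₀ hD1 (by norm_num)
    have p3 := mul_le_mul_of_nonneg_right p2 (by positivity : (0 : ℝ) ≤ n * Bd)
    nlinarith
  have a5 : D' ^ 2 * (n * P4) ≤ D' ^ 2 * (n * G) + D' ^ 2 * (n * Bd) +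
      2 * (D' ^ 2 * (X * (D * N))) := by
    have p1 : n * P4 ≤ n * (G + Bd) + 2 * (X * (D * N)) := by
      have := mul_le_mul_of_nonneg_left h4 hn.le
      linarith
    have p2 := mul_le_mul_of_nonneg_left p1 (by positivity : (0 : ℝ) ≤ D' ^ 2)
    nlinarith
  nlinarith

/-- Arithmetic: many lines. -/
theorem num2 {N n D D' A B G SB SO c : ℝ} (hN : 0 < N) (hn : 0 < n) (hD : 0 ≤ D) (hDD : D ≤ D')
    (hDA : D' ≤ A) (hA : 2 ≤ A) (hB : 0 ≤ B) (hSO : 0 ≤ SO) (hSB : 0 ≤ SB) (hc : 0 ≤ c)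
    (a1 : N ^ 2 ≤ 4 * D' ^ 2 * (n * (n * G))) (a2 : G * n ≤ A * B * (SB + SO))
    (a3 : 4 * A ^ 6 * B * n * SO ≤ N ^ 2) (a4 : n ^ 2 * SB ≤ c * (D * N) ^ 2) :
    n ≤ 4 * A ^ 7 * B * c := by
  have hA0 : 0 ≤ A := by linarith
  have hD'0 : 0 ≤ D' := hD.trans hDD
  have hDA2 : D' ^ 2 ≤ A ^ 2 := pow_le_pow_left₀ hD'0 hDA 2
  have hDA3 : D ^ 2 ≤ A ^ 2 := pow_le_pow_left₀ hD (hDD.trans hDA) 2
  -- first
  have b1 : n * N ^ 2 ≤ 4 * A ^ 2 * (n ^ 2 * (A * B * (SB + SO))) := by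
    have p1 := mul_le_mul_of_nonneg_left a1 hn.le
    have p2 : n ^ 2 * (G * n) ≤ n ^ 2 * (A * B * (SB + SO)) :=
      mul_le_mul_of_nonneg_left a2 (by positivity)
    have p3 : 4 * D' ^ 2 * (n ^ 2 * (A * B * (SB + SO))) ≤
        4 * A ^ 2 * (n ^ 2 * (A * B * (SB + SO))) :=
      mul_le_mul_of_nonneg_right (by linarith) (by positivity)
    have p4 := mul_le_mul_of_nonneg_left p2 (by positivity : (0 : ℝ) ≤ 4 * D' ^ 2)
    nlinarith
  have b2 : A ^ 3 * B * (n ^ 2 * SB) ≤ A ^ 5 * B * c * N ^ 2 := by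
    have p1 : n ^ 2 * SB ≤ c * (A ^ 2 * N ^ 2) := by
      refine a4.trans ?_
      rw [mul_pow]
      gcongr
    have p2 := mul_le_mul_of_nonneg_left p1 (by positivity : (0 : ℝ) ≤ A ^ 3 * B)
    nlinarith
  have b3 : 8 * (4 * A ^ 3 * (B * n ^ 2 * SO)) ≤ n * N ^ 2 := by
    have p1 := mul_le_mul_of_nonneg_left a3 hn.le
    have p2 : (8 : ℝ) ≤ A ^ 3 := by
      calc (8 : ℝ) = 2 ^ 3 := by norm_num
        _ ≤ A ^ 3 := pow_le_pow_left₀ (by norm_num) hA 3
    have p3 := mul_le_mul_of_nonneg_right p2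
      (by positivity : (0 : ℝ) ≤ 4 * A ^ 3 * (B * n ^ 2 * SO))
    nlinarith
  have b4 : n * N ^ 2 ≤ 8 * (A ^ 5 * B * c) * N ^ 2 := by nlinarith
  have b5 : n ≤ 8 * (A ^ 5 * B * c) := le_of_mul_le_mul_right b4 (by positivity)
  have b6 : (4 : ℝ) ≤ A ^ 2 := by nlinarith
  have b7 := mul_le_mul_of_nonneg_right b6 (by positivity : (0 : ℝ) ≤ A ^ 5 * B * c)
  nlinarith

section

variable {ι α : Type} [Fintype ι] [DecidableEq ι] [DecidableEq α]

theorem ex_even (R F y : ℕ) : ex R F (2 * y) = R * y := by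
  unfold ex
  have h1 : 2 * y / 2 = y := by omega
  have h2 : 2 * y % 2 = 0 := by omega
  rw [h1, h2]; ring

/-- The children of the pair of an edge lie in its cell. -/
theorem child_mem (K : KSys ι) {b e c : ℕ} {D : ℝ} {E : Finset ℕ} {U : ι → ℕ → ℕ × ℕ}
    (hb : 1 ≤ b) (h : TwoP K b e (e + c) D E U) (hN : 0 < K.N) {i : ℕ} (hi : i ∈ E) :
    U (K.a i) (cell K b e i) ∈
      Ico (cell K b e i * b ^ (4 * c)) (cell K b e i * b ^ (4 * c) + b ^ (4 * c)) ×ˢ
      Ico (cell K b e i * b ^ (4 * c)) (cell K b e i * b ^ (4 * c) + b ^ (4 * c)) := by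
  have hNR : (0 : ℝ) < K.N := by exact_mod_cast hN
  have key : ∀ v : ℕ, (K.N : ℝ) ≤ D * (Fintype.card ι * (b : ℝ) ^ e) *
      (((EE K b e E i).filter (fun i' => cell K b (e + c) i' = v)).card : ℝ) →
      v ∈ Ico (cell K b e i * b ^ (4 * c)) (cell K b e i * b ^ (4 * c) + b ^ (4 * c)) := by
    intro v hv
    have hne : ((EE K b e E i).filter (fun i' => cell K b (e + c) i' = v)).Nonempty := by
      rw [← card_pos]
      by_contra h0
      have h1 : ((EE K b e E i).filter (fun i' => cell K b (e + c) i' = v)).card = 0 := by omega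
      rw [h1] at hv
      simp at hv
      omega
    obtain ⟨j, hj⟩ := hne
    rw [mem_filter, EE, mem_filter] at hj
    obtain ⟨-, -, hnest, -⟩ := I_CELL ι K b (e + c) hb
    have h1 := hnest e (by omega) j
    rw [hj.1.2.2, hj.2] at h1
    have h2 : 4 * (e + c - e) = 4 * c := by omega
    rw [h2] at h1
    have hpos : 0 < b ^ (4 * c) := Nat.pow_pos (by omega)
    rw [mem_Ico, h1]
    constructor
    · exact Nat.div_mul_le_self v _
    · exact Nat.lt_div_mul_add hpos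
  rw [mem_product]
  exact ⟨key _ (h.ql i hi), key _ (h.qr i hi)⟩

/-- Few values of the refined label in one cell. -/
theorem few_vals {K : KSys ι} {b M m R F d : ℕ} {ec : ℕ → ℕ} {D D' ρ : ℝ} {L : Lb α}
    {E E4 X4 E5 : Finset ℕ} {U : ℕ → ι → ℕ → ℕ × ℕ} {c f u u' : ℕ} {rm rp : ℕ → ι → ℝ}
    (h : S4 K b M m R F ec D D' ρ L E E4 X4 U c f u u' rm rp) (hE5 : E5 ⊆ E4)
    (hY : gY d 5 ≤ m) (hd : ∀ j, j < d + 9 → 8 * j + 4 ≤ gY d 5) (hdm : d + 9 ≤ m) (w : ℕ) :
    (((E5.filter (fun i => cell K b (R * gY d 5) i = w)).image (gl K b R d L U)).card : ℝ) ≤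
      (b : ℝ) ^ (8 * c * m) * D := by
  have hb2 : 2 ≤ b := h.ls.lev.two
  have hb1 : 1 ≤ b := by omega
  have hN := h.ls.npos
  set T := E5.filter (fun i => cell K b (R * gY d 5) i = w) with hT
  -- the values of the label
  have hl : ((T.image (L.lab (2 * gY d 5))).card : ℝ) ≤ D := by
    refine le_trans ?_ (h.ls.few (2 * gY d 5) (by omega) w)
    rw [ex_even]
    exact_mod_cast card_le_card (image_subset_image
      (filter_subset_filter _ (hE5.trans h.sub)))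
  -- the cells
  let cc : ℕ → ℕ := fun x => w / b ^ (4 * (R * gY d 5 - R * x))
  let Ic : ℕ → Finset (ℕ × ℕ) := fun x =>
    Ico (cc x * b ^ (4 * c)) (cc x * b ^ (4 * c) + b ^ (4 * c)) ×ˢ
      Ico (cc x * b ^ (4 * c)) (cc x * b ^ (4 * c) + b ^ (4 * c))
  have hIc : ∀ x, (Ic x).card = b ^ (8 * c) := by
    intro x
    simp only [Ic, card_product, Nat.card_Ico]
    rw [Nat.add_sub_cancel_left, ← pow_add]
    congr 1; ring
  have hsub : T.image (gl K b R d L U) ⊆ (T.image (L.lab (2 * gY d 5))) ×ˢ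
      Fintype.piFinset (fun j : Fin (d + 9) => Ic (8 * (j : ℕ) + 4)) := by
    intro v hv
    obtain ⟨i, hi, rfl⟩ := mem_image.1 hv
    rw [mem_product, Fintype.mem_piFinset]
    refine ⟨mem_image_of_mem _ hi, ?_⟩
    intro j
    have hi' := mem_filter.1 hi
    have hx1 : 1 ≤ 8 * (j : ℕ) + 4 := by omega
    have hxY := hd j j.2
    have hcell : cell K b (R * (8 * (j : ℕ) + 4)) i = cc (8 * (j : ℕ) + 4) := by
      obtain ⟨-, -, hnest, -⟩ := I_CELL ι K b (R * gY d 5) hb1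
      rw [hnest _ (Nat.mul_le_mul_left _ hxY) i, hi'.2]
    have h1 := child_mem K hb1 (h.tw (8 * (j : ℕ) + 4) hx1 (hxY.trans hY)) hN (hE5 hi'.1)
    rw [hcell] at h1
    show U (8 * (j : ℕ) + 4) (K.a i) (cell K b (R * (8 * (j : ℕ) + 4)) i) ∈ Ic (8 * (j : ℕ) + 4)
    rw [hcell]
    exact h1
  have hcard := card_le_card hsub
  rw [card_product, Fintype.card_piFinset] at hcard
  simp only [hIc, prod_const, card_univ, Fintype.card_fin] at hcard
  have h2 : ((T.image (gl K b R d L U)).card : ℝ) ≤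
      ((T.image (L.lab (2 * gY d 5))).card : ℝ) * ((b : ℝ) ^ (8 * c)) ^ (d + 9) := by
    exact_mod_cast hcard
  have hbR : (1 : ℝ) ≤ b := by exact_mod_cast hb1
  have hD0 : 0 ≤ D := le_trans (by positivity) hl
  calc ((T.image (gl K b R d L U)).card : ℝ) ≤
      ((T.image (L.lab (2 * gY d 5))).card : ℝ) * ((b : ℝ) ^ (8 * c)) ^ (d + 9) := h2
    _ ≤ D * (b : ℝ) ^ (8 * c * m) := by
        refine mul_le_mul hl ?_ (by positivity) hD0
        rw [← pow_mul]
        exact pow_le_pow_right₀ hbR (Nat.mul_le_mul_left _ hdm)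
    _ = (b : ℝ) ^ (8 * c * m) * D := mul_comm _ _

end

end XPick

open XPick in
/-- **PICK.** -/
theorem I_Pick (h : StTwoH) : StPick := by
  classical
  intro ι α _ _ _ K b M R F d ec D D' ρ A L E E4 X4 E5 U c f u u' rm rp pf
  have s4 := pf.s4
  have hE5X : ∀ i ∈ E5, i ∈ E4 ∧ i ∉ X4 := fun i hi => mem_sdiff.1 (pf.sub hi)
  have hE5 : E5 ⊆ E4 := fun i hi => (hE5X i hi).1
  have hb2 : 2 ≤ b := s4.ls.lev.two
  have hb1 : 1 ≤ b := by omega
  have hbR : (2 : ℝ) ≤ b := by exact_mod_cast hb2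
  have hb0 : (0 : ℝ) < b := by linarith
  have hNn := s4.ls.npos
  have hN : (0 : ℝ) < K.N := by exact_mod_cast hNn
  have hD2 : (2 : ℝ) ≤ D := by
    refine le_trans ?_ s4.ls.bD
    unfold Th
    calc (2 : ℝ) ≤ b := hbR
      _ = (b : ℝ) ^ 1 := (pow_one _).symm
      _ ≤ (b : ℝ) ^ 64 := pow_le_pow_right₀ (by linarith) (by norm_num)
  have hDD := s4.DD
  have hDA := pf.DA
  have hI : gI d = d * d + 20 * d + 100 := by unfold gI; ring
  have hgY : gY d 5 = 4 * gI d + 24 := by unfold gY; ring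
  have hgm : gm d = 8 * gI d + 8 := rfl
  have hdd : 0 ≤ d * d := Nat.zero_le _
  have hY1 : 1 ≤ gY d 5 := by omega
  have hYm : gY d 5 ≤ gm d := by omega
  have hyg : ∀ i ∈ E4, Hyg K b M D i := fun i hi => s4.ls.hyg i (s4.sub hi)
  have hlt : ∀ i ∈ E4, i < K.N := fun i hi => (hyg i hi).lt
  -- `n > 0`
  have hE4ne : E4.Nonempty := by
    rw [← card_pos]
    by_contra h0
    have h1 : E4.card = 0 := by omega
    have h2 := s4.rt.big
    rw [h1] at h2
    simp at h2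
    omega
  obtain ⟨i0, hi0⟩ := hE4ne
  have hne : Nonempty ι := ⟨K.a i0⟩
  have hn : (0 : ℝ) < (Fintype.card ι : ℝ) := by exact_mod_cast Fintype.card_pos
  set n : ℝ := (Fintype.card ι : ℝ) with hndef
  -- few edges on one line
  have c0 := (I_CELL ι K b 0 hb1).2.2.2.1
  have light : ∀ i ∈ E4, n * ((E4.filter (fun w => K.a w = K.a i)).card : ℝ) ≤ D * K.N := by
    intro i hi
    have h1 := (hyg i hi).light false 0 (Nat.zero_le _)
    rw [pow_zero, mul_one] at h1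
    have h2 : E4.filter (fun w => K.a w = K.a i) ⊆ (range K.N).filter
        (fun j => K.ln false j = K.ln false i ∧ cell K b 0 j = cell K b 0 i) := by
      intro w hw
      rw [mem_filter] at hw
      rw [mem_filter, mem_range]
      exact ⟨hlt w hw.1, hw.2, by rw [c0 w (hlt w hw.1), c0 i (hlt i hi)]⟩
    have h3 : ((E4.filter (fun w => K.a w = K.a i)).card : ℝ) ≤ (((range K.N).filter
        (fun j => K.ln false j = K.ln false i ∧ cell K b 0 j = cell K b 0 i)).card : ℝ) := by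
      exact_mod_cast card_le_card h2
    refine (mul_le_mul_of_nonneg_left h3 hn.le).trans ?_
    rw [mul_comm]
    exact h1
  -- pairs
  have low := pq_low K (D := D') (n := n) (N := (K.N : ℝ)) (by linarith) hn.le s4.rt.mem
    (ne_of_lt s4.rt.lt) hN.le s4.rt.ql s4.rt.qr
  have dif := pq_diff K (b := b) (f := f) (u := u) (u' := u') (X := E4) (Y := E5) hn.le light
  set g := gl K b R d L U with hg
  have hglab : ∀ i i', g i = g i' → L.lab (2 * gY d 5) i = L.lab (2 * gY d 5) i' := by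
    intro i i' hh
    exact congrArg Prod.fst hh
  have rlb := pf.rlb (α × (Fin (d + 9) → ℕ × ℕ)) (gY d 5) hY1 hYm g
    (fun i _ i' _ hh => hglab i i' hh)
    (few_vals s4 hE5 hYm (fun j hj => by omega) (by omega))
  set B : ℝ := (b : ℝ) ^ (4 * (R * gY d 5)) with hB
  have hB0 : 0 < B := by positivity
  set Bad := (E5 ×ˢ E5).filter (fun v : ℕ × ℕ => K.a v.1 = K.a v.2 ∧
      cell K b f v.1 = u ∧ cell K b f v.2 = u' ∧ A * B *
        ((NN K E5 g v.1 ∩ NN K E5 g v.2).card : ℝ) < Fintype.card ι) with hBad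
  set Good := (PQ K b f u u' E5).filter (fun v : ℕ × ℕ => n ≤ A * B *
        ((NN K E5 g v.1 ∩ NN K E5 g v.2).card : ℝ)) with hGood
  have hGB : ((PQ K b f u u' E5).card : ℝ) ≤ Good.card + Bad.card := by
    have h1 : PQ K b f u u' E5 ⊆ Good ∪ Bad := by
      intro v hv
      rw [mem_union]
      by_cases hh : n ≤ A * B * ((NN K E5 g v.1 ∩ NN K E5 g v.2).card : ℝ)
      · left
        rw [hGood, mem_filter]
        exact ⟨hv, hh⟩
      · right
        rw [mem_PQ] at hv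
        rw [hBad, mem_filter, mem_product]
        exact ⟨hv.1, hv.2.1, hv.2.2.1, hv.2.2.2, not_le.1 hh⟩
    exact_mod_cast (card_le_card h1).trans (card_union_le _ _)
  have e1 : (K.N : ℝ) ^ 2 ≤ 4 * D' ^ 2 * (n * (Good.card : ℝ)) :=
    num1 (e := (E4.card : ℝ)) (P4 := ((PQ K b f u u' E4).card : ℝ))
      (P5 := ((PQ K b f u u' E5).card : ℝ)) (Bd := (Bad.card : ℝ))
      (X := ((E4 \ E5).card : ℝ)) hN hn (by linarith) hDD (by linarith) (by positivity)
      (by positivity) s4.rt.big low dif pf.most rlb hGB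
  -- the line
  obtain ⟨p1, -, hp1⟩ : ∃ p1 ∈ (univ : Finset ι), (Good.card : ℝ) ≤
      n * ((Good.filter (fun v => K.a v.1 = p1)).card : ℝ) := by
    refine exists_le_of_sum_le univ_nonempty ?_
    rw [sum_const, card_univ, nsmul_eq_mul, ← mul_sum]
    refine mul_le_mul_of_nonneg_left (le_of_eq ?_) hn.le
    have h1 := card_eq_sum_card_fiberwise (f := fun v : ℕ × ℕ => K.a v.1) (s := Good)
      (t := (univ : Finset ι)) (fun v _ => by simp)
    exact_mod_cast h1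
  set G1 := Good.filter (fun v => K.a v.1 = p1) with hG1
  have e2 : (K.N : ℝ) ^ 2 ≤ 4 * D' ^ 2 * (n * (n * (G1.card : ℝ))) :=
    e1.trans (mul_le_mul_of_nonneg_left (mul_le_mul_of_nonneg_left hp1 hn.le) (by positivity))
  have hG1ne : G1.Nonempty := by
    rw [← card_pos]
    by_contra h0
    have h1 : G1.card = 0 := by omega
    rw [h1] at e2
    have : 0 < (K.N : ℝ) ^ 2 := by positivity
    simp at e2
    linarith
  obtain ⟨v0, hv0⟩ := hG1ne
  have hG1mem : ∀ v ∈ G1, (v.1 ∈ E5 ∧ v.2 ∈ E5) ∧ K.a v.1 = p1 ∧ K.a v.2 = p1 ∧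
      cell K b f v.1 = u ∧ cell K b f v.2 = u' ∧
      n ≤ A * B * ((NN K E5 g v.1 ∩ NN K E5 g v.2).card : ℝ) := by
    intro v hv
    rw [hG1, mem_filter, hGood, mem_filter, mem_PQ] at hv
    obtain ⟨⟨⟨h1, h2, h3, h4⟩, h5⟩, h6⟩ := hv
    exact ⟨h1, h6, h2 ▸ h6, h3, h4, h5⟩
  obtain ⟨⟨hi1, -⟩, hai1, -⟩ := hG1mem v0 hv0
  set i1 := v0.1 with hi1def
  set sa := ta K b f u with hsa
  set sb := tb K b f u' with hsb
  set rr := rp (gY d 5) (K.a i1) with hrr
  have hrr0 : 0 < rr := by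
    have h1 := s4.ls.pos (2 * gY d 5) (by omega) i1 (s4.sub (hE5 hi1))
    exact h1.trans_le (s4.r1' (gY d 5) hY1 hYm i1 (pf.sub hi1))
  set Bl := (PS K b M D).filter (fun q => |K.ht q sa - K.ht (K.a i1) sa| ≤ (b : ℝ) ^ 3 * rr ∧
    |K.ht q sb - K.ht (K.a i1) sb| ≤ (b : ℝ) ^ 3 * rr) with hBl
  have hBlc : B * (Bl.card : ℝ) ≤ ρ ^ 2 * n := by
    refine le_trans (mul_le_mul_of_nonneg_left ?_ hB0.le)
      (s4.r2' (gY d 5) hY1 hYm i1 (pf.sub hi1))
    have h1 : Bl ⊆ bal K (PS K b M D) sa sb (K.a i1) ((b : ℝ) ^ 16 * rr) := by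
      intro q hq
      rw [hBl, mem_filter] at hq
      have h2 : (b : ℝ) ^ 3 * rr ≤ (b : ℝ) ^ 16 * rr :=
        mul_le_mul_of_nonneg_right (pow_le_pow_right₀ (by linarith) (by norm_num)) hrr0.le
      rw [bal, mem_filter]
      exact ⟨hq.1, hq.2.1.trans h2, hq.2.2.trans h2⟩
    exact_mod_cast card_le_card h1
  have hb3 : rr + b * (rr + rr) ≤ (b : ℝ) ^ 3 * rr := by
    have h1 : 1 + 2 * (b : ℝ) ≤ (b : ℝ) ^ 3 := by nlinarith [mul_self_nonneg ((b : ℝ) - 2)]
    have h2 := mul_le_mul_of_nonneg_right h1 hrr0.le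
    nlinarith
  -- triples
  have tr := trip G1 (fun v => NN K E5 g v.1 ∩ NN K E5 g v.2) Bl
    (fun q => com K b R d L U E5 i1 q) (by
    intro v hv q hq
    obtain ⟨⟨hv1, hv2⟩, ha1, ha2, hc1, hc2, -⟩ := hG1mem v hv
    rw [mem_inter] at hq
    obtain ⟨hq1, hq2⟩ := hq
    unfold NN at hq1 hq2
    obtain ⟨j1, hj1, hj1q⟩ := mem_image.1 hq1
    obtain ⟨j2, hj2, hj2q⟩ := mem_image.1 hq2
    rw [mem_filter] at hj1 hj2
    have a1 : K.a v.1 = K.a i1 := ha1.trans hai1.symm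
    have a2 : K.a v.2 = K.a i1 := ha2.trans hai1.symm
    refine ⟨?_, ?_, ?_⟩
    · have hPS : q ∈ PS K b M D := by
        have := (hyg j1 (hE5 hj1.1)).ps false
        rw [← hj1q]
        exact this
      have n1 : q ∈ NN K E4 (L.lab (2 * gY d 5)) v.1 := by
        unfold NN
        rw [← hj1q]
        exact mem_image_of_mem _ (mem_filter.2 ⟨hE5 hj1.1, hglab _ _ hj1.2⟩)
      have n2 : q ∈ NN K E4 (L.lab (2 * gY d 5)) v.2 := by
        unfold NN
        rw [← hj2q]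
        exact mem_image_of_mem _ (mem_filter.2 ⟨hE5 hj2.1, hglab _ _ hj2.2⟩)
      have r1 : L.rho (L.lab (2 * gY d 5) v.1) ≤ rr := by
        have := s4.r1' (gY d 5) hY1 hYm v.1 (pf.sub hv1)
        rwa [a1] at this
      have r2 : L.rho (L.lab (2 * gY d 5) v.2) ≤ rr := by
        have := s4.r1' (gY d 5) hY1 hYm v.2 (pf.sub hv2)
        rwa [a2] at this
      obtain ⟨t1, t2, -⟩ := h ι α K b M (gm d) R F ec D D' ρ L E E4 X4 U c f u u' rm rp s4 v.1
        (hE5 hv1) v.2 (hE5 hv2) (a1.trans a2.symm) (by rw [hc1, hc2]; exact ne_of_lt s4.rt.lt)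
        (gY d 5) (gY d 5) hY1 hYm hY1 hYm q n1 n2 rr rr r1 r2
      rw [a1] at t1 t2
      rw [hBl, mem_filter]
      exact ⟨hPS, t1.trans hb3, t2.trans hb3⟩
    · show v.1 ∈ com K b R d L U E5 i1 q
      unfold com
      rw [mem_filter]
      exact ⟨hv1, a1, j1, hj1.1, hj1q, hj1.2⟩
    · show v.2 ∈ com K b R d L U E5 i1 q
      unfold com
      rw [mem_filter]
      exact ⟨hv2, a2, j2, hj2.1, hj2q, hj2.2⟩)
  have e3 : (G1.card : ℝ) * n ≤ A * B * ∑ q ∈ Bl, ((com K b R d L U E5 i1 q).card : ℝ) ^ 2 := by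
    have h1 : (∑ v ∈ G1, ((NN K E5 g v.1 ∩ NN K E5 g v.2).card : ℝ)) ≤
        ∑ q ∈ Bl, ((com K b R d L U E5 i1 q).card : ℝ) ^ 2 := by exact_mod_cast tr
    calc (G1.card : ℝ) * n = ∑ v ∈ G1, n := by rw [sum_const, nsmul_eq_mul]
      _ ≤ ∑ v ∈ G1, A * B * ((NN K E5 g v.1 ∩ NN K E5 g v.2).card : ℝ) :=
          sum_le_sum (fun v hv => (hG1mem v hv).2.2.2.2.2)
      _ = A * B * ∑ v ∈ G1, ((NN K E5 g v.1 ∩ NN K E5 g v.2).card : ℝ) := by rw [mul_sum]
      _ ≤ _ := mul_le_mul_of_nonneg_left h1 (by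
          have : 0 ≤ A := by linarith
          positivity)
  set Q : ι → Prop := fun q => (K.N : ℝ) ≤ 2 * ρ * A ^ 3 * n *
    ((com K b R d L U E5 i1 q).card : ℝ) with hQ
  rw [← sum_filter_add_sum_filter_not Bl Q] at e3
  have hρ : (1 : ℝ) ≤ ρ := s4.one
  have hA2 : 2 ≤ A := by linarith
  -- the lines with few common labels
  have e4 : 4 * A ^ 6 * B * n * (∑ q ∈ Bl.filter (fun q => ¬ Q q),
      ((com K b R d L U E5 i1 q).card : ℝ) ^ 2) ≤ (K.N : ℝ) ^ 2 := by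
    have h1 : (2 * ρ * A ^ 3 * n) ^ 2 * (∑ q ∈ Bl.filter (fun q => ¬ Q q),
        ((com K b R d L U E5 i1 q).card : ℝ) ^ 2) ≤ (Bl.card : ℝ) * (K.N : ℝ) ^ 2 := by
      rw [mul_sum]
      calc ∑ q ∈ Bl.filter (fun q => ¬ Q q), (2 * ρ * A ^ 3 * n) ^ 2 *
            ((com K b R d L U E5 i1 q).card : ℝ) ^ 2 ≤
          ∑ q ∈ Bl.filter (fun q => ¬ Q q), (K.N : ℝ) ^ 2 := by
            refine sum_le_sum (fun q hq => ?_)
            have h2 := (mem_filter.1 hq).2
            simp only [hQ, not_le] at h2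
            rw [← mul_pow]
            exact pow_le_pow_left₀ (by positivity) h2.le 2
        _ = ((Bl.filter (fun q => ¬ Q q)).card : ℝ) * (K.N : ℝ) ^ 2 := by
            rw [sum_const, nsmul_eq_mul]
        _ ≤ (Bl.card : ℝ) * (K.N : ℝ) ^ 2 := by
            refine mul_le_mul_of_nonneg_right ?_ (by positivity)
            exact_mod_cast card_le_card (filter_subset _ _)
    have h2 := mul_le_mul_of_nonneg_left h1 hB0.le
    have h3 : B * ((Bl.card : ℝ) * (K.N : ℝ) ^ 2) ≤ ρ ^ 2 * n * (K.N : ℝ) ^ 2 := by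
      rw [← mul_assoc]
      exact mul_le_mul_of_nonneg_right hBlc (by positivity)
    have h4 : (ρ ^ 2 * n) * (4 * A ^ 6 * B * n * (∑ q ∈ Bl.filter (fun q => ¬ Q q),
        ((com K b R d L U E5 i1 q).card : ℝ) ^ 2)) ≤ (ρ ^ 2 * n) * (K.N : ℝ) ^ 2 := by
      refine le_trans (le_of_eq ?_) (h2.trans h3)
      ring
    exact le_of_mul_le_mul_left h4 (by positivity)
  have e5 : n ^ 2 * (∑ q ∈ Bl.filter Q, ((com K b R d L U E5 i1 q).card : ℝ) ^ 2) ≤
      ((Bl.filter Q).card : ℝ) * (D * K.N) ^ 2 := by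
    rw [mul_sum]
    calc ∑ q ∈ Bl.filter Q, n ^ 2 * ((com K b R d L U E5 i1 q).card : ℝ) ^ 2 ≤
        ∑ q ∈ Bl.filter Q, (D * K.N) ^ 2 := by
          refine sum_le_sum (fun q _ => ?_)
          rw [← mul_pow]
          refine pow_le_pow_left₀ (by positivity) ?_ 2
          refine le_trans (mul_le_mul_of_nonneg_left ?_ hn.le) (light i1 (hE5 hi1))
          have h1 : com K b R d L U E5 i1 q ⊆ E4.filter (fun w => K.a w = K.a i1) := by
            intro v hv
            unfold com at hv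
            rw [mem_filter] at hv ⊢
            exact ⟨hE5 hv.1, hv.2.1⟩
          exact_mod_cast card_le_card h1
      _ = _ := by rw [sum_const, nsmul_eq_mul]
  refine ⟨i1, hi1, Bl.filter Q, ?_, ?_⟩
  · intro p hp
    rw [mem_filter, hBl, mem_filter] at hp
    exact ⟨hp.1.2.1, hp.1.2.2, hp.2⟩
  · exact num2 (N := (K.N : ℝ)) (n := n) (D := D) (D' := D') (A := A) (B := B)
      (G := (G1.card : ℝ)) (c := ((Bl.filter Q).card : ℝ)) hN hn (by linarith) hDD hDA hA2 hB0.le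
      (sum_nonneg fun _ _ => by positivity) (sum_nonneg fun _ _ => by positivity) (by positivity)
      e2 e3 e4 e5

end Pool.Agent.Work.MP_e17eac_co.HS
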