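import Pool.Agent.Work.MP_e17eac_co.HS.StC
import Pool.Agent.Work.MP_e17eac_co.HSR.Radii

/-!
# HS, RADII: auxiliary facts on cells, hygiene, monotonicity
-/

set_option linter.unusedSectionVars false

namespace Pool.Agent.Work.MP_e17eac_co.HS.RAD

open Finset
open Pool.Agent.Work.MP_e17eac_co.DH
open Pool.Agent.Work.MP_e17eac_co.B1
open Pool.Agent.Work.MP_e17eac_co.HS

variable {ι : Type} [Fintype ι] [DecidableEq ι]

theorem cmono (K : KSys ι) (b x : ℕ) {i j : ℕ} (h : i ≤ j) : cell K b x i ≤ cell K b x j := by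
  unfold cell
  exact Nat.div_le_div_right (Nat.mul_le_mul_right _ h)

theorem cdiv (K : KSys ι) {b z x : ℕ} (hb : 1 ≤ b) (h : z ≤ x) (i : ℕ) :
    cell K b z i = cell K b x i / b ^ (4 * (x - z)) := by
  unfold cell
  have h1 : b ^ (4 * x) = b ^ (4 * z) * b ^ (4 * (x - z)) := by
    rw [← pow_add]
    congr 1
    omega
  rw [h1, Nat.div_div_eq_div_mul, ← mul_assoc,
    Nat.mul_div_mul_right _ _ (Nat.pow_pos (by omega))]

theorem ccoarse (K : KSys ι) {b z x : ℕ} (hb : 1 ≤ b) (h : z ≤ x) {i j : ℕ}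
    (hij : cell K b x i = cell K b x j) : cell K b z i = cell K b z j := by
  rw [cdiv K hb h, cdiv K hb h, hij]

theorem czero (K : KSys ι) (b : ℕ) {i : ℕ} (hi : i < K.N) : cell K b 0 i = 0 := by
  unfold cell
  rw [mul_zero, pow_zero, mul_one]
  exact Nat.div_eq_of_lt hi

theorem tmono (K : KSys ι) {i j : ℕ} (h : i ≤ j) (hj : j < K.N) : K.t i ≤ K.t j := by
  rcases Nat.lt_or_ge i j with h' | h'
  · exact (K.t_lt i j h' hj).le
  · rw [le_antisymm h h']

/-- First index of the cell of `i`. -/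
theorem inf_mem (K : KSys ι) (b x i : ℕ) :
    cell K b x (sInf {j | cell K b x j = cell K b x i}) = cell K b x i ∧
      sInf {j | cell K b x j = cell K b x i} ≤ i := by
  have hne : {j | cell K b x j = cell K b x i}.Nonempty := ⟨i, rfl⟩
  exact ⟨Nat.sInf_mem hne, Nat.sInf_le rfl⟩

/-- Last index of the cell of `i`. -/
theorem sup_mem (K : KSys ι) (b x : ℕ) {i : ℕ} (hi : i < K.N) :
    (ce K b x (cell K b x i)).sup id < K.N ∧
      cell K b x ((ce K b x (cell K b x i)).sup id) = cell K b x i ∧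
      i ≤ (ce K b x (cell K b x i)).sup id := by
  have hi' : i ∈ ce K b x (cell K b x i) := mem_filter.2 ⟨mem_range.2 hi, rfl⟩
  obtain ⟨j, hj, hj'⟩ := exists_mem_eq_sup (ce K b x (cell K b x i)) ⟨i, hi'⟩ id
  rw [hj']
  have hj2 := mem_filter.1 hj
  refine ⟨mem_range.1 hj2.1, hj2.2, ?_⟩
  rw [← hj']
  exact le_sup (f := id) hi'

theorem ta_le (K : KSys ι) (b x : ℕ) {i : ℕ} (hi : i < K.N) :
    ta K b x (cell K b x i) ≤ K.t i := by
  unfold ta
  exact tmono K (inf_mem K b x i).2 hi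

theorem le_tb (K : KSys ι) (b x : ℕ) {i : ℕ} (hi : i < K.N) :
    K.t i ≤ tb K b x (cell K b x i) := by
  unfold tb
  obtain ⟨h1, _, h3⟩ := sup_mem K b x hi
  exact tmono K h3 h1

theorem ta_nest (K : KSys ι) {b f x : ℕ} (hb : 1 ≤ b) (h : f ≤ x) {i : ℕ} (hi : i < K.N) :
    ta K b f (cell K b f i) ≤ ta K b x (cell K b x i) := by
  obtain ⟨h1, h2⟩ := inf_mem K b x i
  have h3 := ccoarse K hb h h1
  have h4 := ta_le K b f (lt_of_le_of_lt h2 hi)
  rw [h3] at h4
  exact h4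

theorem tb_nest (K : KSys ι) {b f x : ℕ} (hb : 1 ≤ b) (h : f ≤ x) {i : ℕ} (hi : i < K.N) :
    tb K b x (cell K b x i) ≤ tb K b f (cell K b f i) := by
  obtain ⟨h1, h2, _⟩ := sup_mem K b x hi
  have h3 := ccoarse K hb h h2
  have h4 := le_tb K b f h1
  rw [h3] at h4
  exact h4

theorem tb_lt_ta (K : KSys ι) (b x : ℕ) {i j : ℕ} (hi : i < K.N) (hj : j < K.N)
    (h : cell K b x i < cell K b x j) :
    tb K b x (cell K b x i) < ta K b x (cell K b x j) := by
  obtain ⟨h1, h2, _⟩ := sup_mem K b x hi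
  obtain ⟨h3, h4⟩ := inf_mem K b x j
  unfold ta tb
  apply K.t_lt _ _ _ (lt_of_le_of_lt h4 hj)
  by_contra hcon
  push Not at hcon
  have := cmono K b x hcon
  rw [h2, h3] at this
  omega

theorem ta_le_tb (K : KSys ι) (b x : ℕ) {i : ℕ} (hi : i < K.N) :
    ta K b x (cell K b x i) ≤ tb K b x (cell K b x i) :=
  (ta_le K b x hi).trans (le_tb K b x hi)

/-! ### Hygiene -/

theorem PS_mono (K : KSys ι) (r m : ℕ) {H H' : ℝ} (h : H ≤ H') : PS K r m H ⊆ PS K r m H' := by
  intro p hp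
  unfold PS at *
  rw [mem_filter] at hp ⊢
  exact ⟨hp.1, fun x hx => (hp.2 x hx).trans (mul_le_mul_of_nonneg_right h (by positivity))⟩

theorem PSr_mono (K : KSys ι) (r m : ℕ) {H H' : ℝ} (h : H ≤ H') (z c : ℕ) :
    PSr K r m H z c ⊆ PSr K r m H' z c := by
  intro p hp
  unfold PSr at *
  rw [mem_filter] at hp ⊢
  exact ⟨hp.1, fun x hz hx => (hp.2 x hz hx).trans
    (mul_le_mul_of_nonneg_right h (by positivity))⟩

theorem Hyg_mono {K : KSys ι} {r m : ℕ} {H H' : ℝ} (h : H ≤ H') {i : ℕ} (hi : Hyg K r m H i) :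
    Hyg K r m H' i where
  lt := hi.lt
  ps := fun s => PS_mono K r m h (hi.ps s)
  crowd := fun x hx => (hi.crowd x hx).trans (mul_le_mul_of_nonneg_right h (Nat.cast_nonneg _))
  light := fun s x hx => (hi.light s x hx).trans
    (mul_le_mul_of_nonneg_right h (Nat.cast_nonneg _))
  rel := fun s z hz => PSr_mono K r m h z _ (hi.rel s z hz)

theorem PS_sub_PSr (K : KSys ι) {r : ℕ} (hr : 1 ≤ r) (m : ℕ) (H : ℝ) :
    PS K r m H ⊆ PSr K r m H 0 0 := by
  intro p hp
  unfold PS at hp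
  unfold PSr
  rw [mem_filter] at hp ⊢
  refine ⟨?_, fun x _ hx => ?_⟩
  · unfold vis
    have : range K.N ⊆ ce K r 0 0 := by
      intro i hi
      exact mem_filter.2 ⟨hi, czero K r (mem_range.1 hi)⟩
    unfold KSys.lines at hp ⊢
    rcases mem_union.1 hp.1 with h | h
    · exact mem_union_left _ (image_subset_image this h)
    · exact mem_union_right _ (image_subset_image this h)
  · refine le_trans ?_ (hp.2 x hx)
    have : Wr K r 0 0 x p ≤ W K r x p := by
      unfold Wr W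
      apply card_le_card
      intro w hw
      rw [mem_filter] at hw ⊢
      exact ⟨hw.1, hw.2.2⟩
    exact_mod_cast this

/-! ### Monotonicity in the loss -/

theorem Rt_mono {K : KSys ι} {b f u u' : ℕ} {D D' : ℝ} (h : D ≤ D') {E : Finset ℕ}
    (hR : Rt K b f u u' D E) : Rt K b f u u' D' E where
  big := hR.big.trans (mul_le_mul_of_nonneg_right h (Nat.cast_nonneg _))
  lt := hR.lt
  mem := hR.mem
  gap := hR.gap
  ql := fun i hi => (hR.ql i hi).trans (mul_le_mul_of_nonneg_right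
    (mul_le_mul_of_nonneg_right h (Nat.cast_nonneg _)) (Nat.cast_nonneg _))
  qr := fun i hi => (hR.qr i hi).trans (mul_le_mul_of_nonneg_right
    (mul_le_mul_of_nonneg_right h (Nat.cast_nonneg _)) (Nat.cast_nonneg _))

theorem TwoP_mono {K : KSys ι} {b e ec : ℕ} {D D' : ℝ} (h : D ≤ D') {E : Finset ℕ}
    {U : ι → ℕ → ℕ × ℕ} (hT : TwoP K b e ec D E U) : TwoP K b e ec D' E U where
  lt := hT.lt
  mem := hT.mem
  gap := hT.gap
  ql := fun i hi => (hT.ql i hi).trans (mul_le_mul_of_nonneg_right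
    (mul_le_mul_of_nonneg_right h (by positivity)) (Nat.cast_nonneg _))
  qr := fun i hi => (hT.qr i hi).trans (mul_le_mul_of_nonneg_right
    (mul_le_mul_of_nonneg_right h (by positivity)) (Nat.cast_nonneg _))

/-- Heights are affine and the closeness at the ends of an interval passes to the inside. -/
theorem ht_bd (K : KSys ι) {p q : ι} {s0 e0 s M : ℝ} (h0 : |K.ht q s0 - K.ht p s0| ≤ M)
    (h1 : |K.ht q e0 - K.ht p e0| ≤ M) (hs0 : s0 ≤ s) (hs1 : s ≤ e0) :
    |K.ht q s - K.ht p s| ≤ M := by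
  have e : ∀ s, K.ht q s - K.ht p s = (K.y q - K.y p) + (K.x q - K.x p) * s := by
    intro s
    unfold KSys.ht
    ring
  rw [e] at h0 h1 ⊢
  exact HSR.conv_bd h0 h1 hs0 hs1

end Pool.Agent.Work.MP_e17eac_co.HS.RAD
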