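import Pool.Agent.Work.MP_e17eac_co.HS.StG2
import Pool.Agent.Work.MP_e17eac_co.HS.RadA

/-!
# HS, block G, item PR: the profile inequalities at the edges of `E5`
-/

namespace Pool.Agent.Work.MP_e17eac_co.HS

open Finset
open Pool.Agent.Work.MP_e17eac_co.DH
open Pool.Agent.Work.MP_e17eac_co.B1

namespace XGPr

variable {ι α : Type} [Fintype ι] [DecidableEq ι] [DecidableEq α]

/-- Two nonempty cells `c < c'`: the hull is nondegenerate. -/
theorem hull_pos (K : KSys ι) (b x : ℕ) {c c' j j' : ℕ} (hj : j < K.N) (hj' : j' < K.N)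
    (hc : cell K b x j = c) (hc' : cell K b x j' = c') (h : c < c') :
    ta K b x c < tb K b x c' := by
  subst hc
  subst hc'
  have h1 := RAD.ta_le_tb K b x hj
  have h2 := RAD.tb_lt_ta K b x hj hj' h
  have h3 := RAD.ta_le_tb K b x hj'
  linarith

theorem lt_N {K : KSys ι} {b M m R F : ℕ} {ec : ℕ → ℕ} {D D' ρ : ℝ} {L : Lb α}
    {E E4 X4 : Finset ℕ} {U : ℕ → ι → ℕ → ℕ × ℕ} {c f u u' : ℕ} {rm rp : ℕ → ι → ℝ}
    (h : S4 K b M m R F ec D D' ρ L E E4 X4 U c f u u' rm rp) {i : ℕ} (hi : i ∈ E4) :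
    i < K.N := (h.ls.hyg i (h.sub hi)).lt

/-- The length of the base interval is positive. -/
theorem base_pos {K : KSys ι} {b M m R F : ℕ} {ec : ℕ → ℕ} {D D' ρ : ℝ} {L : Lb α}
    {E E4 X4 : Finset ℕ} {U : ℕ → ι → ℕ → ℕ × ℕ} {c f u u' : ℕ} {rm rp : ℕ → ι → ℝ}
    (h : S4 K b M m R F ec D D' ρ L E E4 X4 U c f u u' rm rp) {i : ℕ} (hi : i ∈ E4) :
    0 < tb K b f u' - ta K b f u := by
  have hN : (0 : ℝ) < K.N := by exact_mod_cast h.ls.npos
  have hl := h.rt.ql i hi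
  have hr := h.rt.qr i hi
  obtain ⟨j, hj⟩ : (E4.filter (fun i' => K.a i' = K.a i ∧ cell K b f i' = u)).Nonempty := by
    rw [nonempty_iff_ne_empty]
    intro he
    rw [he, card_empty] at hl
    rw [Nat.cast_zero, mul_zero] at hl
    linarith
  obtain ⟨j', hj'⟩ : (E4.filter (fun i' => K.a i' = K.a i ∧ cell K b f i' = u')).Nonempty := by
    rw [nonempty_iff_ne_empty]
    intro he
    rw [he, card_empty] at hr
    rw [Nat.cast_zero, mul_zero] at hr
    linarith
  rw [mem_filter] at hj hj'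
  have := hull_pos K b f (lt_N h hj.1) (lt_N h hj'.1) hj.2.2 hj'.2.2 h.rt.lt
  linarith

/-- The length of a hull is positive. -/
theorem len_pos {K : KSys ι} {b M m R F : ℕ} {ec : ℕ → ℕ} {D D' ρ : ℝ} {L : Lb α}
    {E E4 X4 : Finset ℕ} {U : ℕ → ι → ℕ → ℕ × ℕ} {c f u u' : ℕ} {rm rp : ℕ → ι → ℝ}
    (h : S4 K b M m R F ec D D' ρ L E E4 X4 U c f u u' rm rp) {i : ℕ} (hi : i ∈ E4) {x : ℕ}
    (hx : 1 ≤ x) (hxm : x ≤ m) :
    0 < g1 K b (R * x) (R * x + c) (U x) i - g0 K b (R * x) (R * x + c) (U x) i := by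
  have hN : (0 : ℝ) < K.N := by exact_mod_cast h.ls.npos
  have ht := h.tw x hx hxm
  have hl := ht.ql i hi
  have hr := ht.qr i hi
  obtain ⟨j, hj⟩ : ((EE K b (R * x) E4 i).filter (fun i' => cell K b (R * x + c) i' =
      (U x (K.a i) (cell K b (R * x) i)).1)).Nonempty := by
    rw [nonempty_iff_ne_empty]
    intro he
    rw [he, card_empty] at hl
    rw [Nat.cast_zero, mul_zero] at hl
    linarith
  obtain ⟨j', hj'⟩ : ((EE K b (R * x) E4 i).filter (fun i' => cell K b (R * x + c) i' =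
      (U x (K.a i) (cell K b (R * x) i)).2)).Nonempty := by
    rw [nonempty_iff_ne_empty]
    intro he
    rw [he, card_empty] at hr
    rw [Nat.cast_zero, mul_zero] at hr
    linarith
  unfold EE at hj hj'
  rw [mem_filter, mem_filter] at hj hj'
  have := hull_pos K b (R * x + c) (lt_N h hj.1.1) (lt_N h hj'.1.1) hj.2 hj'.2 (ht.lt i hi)
  unfold g0 g1
  linarith

/-- One step of the growth. -/
theorem grow_one {K : KSys ι} {b M m R F : ℕ} {ec : ℕ → ℕ} {D D' ρ A : ℝ} {L : Lb α}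
    {E E4 X4 E5 : Finset ℕ} {U : ℕ → ι → ℕ → ℕ × ℕ} {c f u u' : ℕ} {rm rp : ℕ → ι → ℝ}
    (h : PF K b M m R F ec D D' ρ A L E E4 X4 E5 U c f u u' rm rp) {i : ℕ} (hi : i ∈ E5) {z : ℕ}
    (hz : 1 ≤ z) (hzm : z + 1 ≤ m) : 8 * rm (z + 1) (K.a i) ≤ rm z (K.a i) := by
  have hi4 := h.sub hi
  have hi4' := (mem_sdiff.1 hi4).1
  have h1 := h.s4.r1 (z + 1) (by omega) hzm i hi4'
  have h2 := h.s4.r1' (z + 1) (by omega) hzm i hi4
  have h3 := h.r3 z hz hzm i hi
  have hb : (2 : ℝ) ≤ b := by exact_mod_cast h.s4.ls.lev.two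
  have hp := h.s4.rmp (z + 1) (by omega) hzm i hi4'
  have h4 : rm (z + 1) (K.a i) ≤ 3 * b * rp (z + 1) (K.a i) :=
    h1.trans (mul_le_mul_of_nonneg_left h2 (by positivity))
  have hrp : 0 < rp (z + 1) (K.a i) := by
    by_contra hc
    push Not at hc
    have : 3 * (b : ℝ) * rp (z + 1) (K.a i) ≤ 0 := mul_nonpos_of_nonneg_of_nonpos (by positivity) hc
    linarith
  have h5 : 24 * (b : ℝ) * rp (z + 1) (K.a i) ≤ (b : ℝ) ^ 16 * rp (z + 1) (K.a i) := by
    refine mul_le_mul_of_nonneg_right ?_ hrp.le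
    have h6 : (24 : ℝ) ≤ (b : ℝ) ^ 15 := by
      calc (24 : ℝ) ≤ 2 ^ 15 := by norm_num
        _ ≤ (b : ℝ) ^ 15 := pow_le_pow_left₀ (by norm_num) hb 15
    calc 24 * (b : ℝ) ≤ (b : ℝ) ^ 15 * b := mul_le_mul_of_nonneg_right h6 (by positivity)
      _ = (b : ℝ) ^ 16 := by ring
  linarith

end XGPr

open XGPr in
theorem I_Pr : StPr := by
  intro ι α _ _ _ K b M R F d ec D D' ρ A L E E4 X4 E5 U c f u u' rm rp hPF hA i hi
  have hi4 := hPF.sub hi
  have hi4' := (mem_sdiff.1 hi4).1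
  have hb : (2 : ℝ) ≤ b := by exact_mod_cast hPF.s4.ls.lev.two
  have hil := base_pos hPF.s4 hi4'
  have hrm : ∀ z, 1 ≤ z → z ≤ gm d → 0 < rm z (K.a i) := fun z h1 h2 =>
    hPF.s4.rmp z h1 h2 i hi4'
  have hlen : ∀ x, 1 ≤ x → x ≤ gm d →
      0 < g1 K b (R * x) (R * x + c) (U x) i - g0 K b (R * x) (R * x + c) (U x) i :=
    fun x h1 h2 => len_pos hPF.s4 hi4' h1 h2
  have hI : 100 + 20 * d ≤ gI d := by unfold gI; nlinarith
  set g := gI d with hg
  have hgm : gm d = 8 * g + 8 := rfl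
  have hgY : ∀ k, gY d k = 4 * g + 4 + 4 * k := fun k => rfl
  have hr3 : ∀ z, 1 ≤ z → z + 1 ≤ gm d → rp (z + 1) (K.a i) ≤ rm z (K.a i) := by
    intro z h1 h2
    have h3 := hPF.r3 z h1 h2 i hi
    have h4 := hrm z h1 (by omega)
    have h5 : (1 : ℝ) ≤ (b : ℝ) ^ 16 := one_le_pow₀ (by linarith)
    by_contra hc
    push Not at hc
    have h6 : rp (z + 1) (K.a i) ≤ (b : ℝ) ^ 16 * rp (z + 1) (K.a i) :=
      le_mul_of_one_le_left (by linarith) h5
    linarith
  constructor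
  · -- lo
    intro i' j hj hij
    have hy1 := hrm (gY d i') (by rw [hgY]; omega) (by rw [hgY, hgm]; omega)
    have hy2 := hrm (gY d (i' + j)) (by rw [hgY]; omega) (by rw [hgY, hgm]; omega)
    have hl := hlen (8 * j + 4) (by omega) (by rw [hgm]; omega)
    have h1 := hPF.up (8 * j + 4) (gY d i') (gY d (i' + j) + 1) (by omega)
      (by rw [hgY]; omega) (by rw [hgY]; omega) (by rw [hgY, hgY]; omega)
      (by rw [hgY, hgm]; omega) (by rw [hgY, hgY]; omega) i hi
    have h2 := hr3 (gY d (i' + j)) (by rw [hgY]; omega) (by rw [hgY, hgm]; omega)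
    have h3 : hln K b R c f u u' U (8 * j + 4) i * rm (gY d i') (K.a i) ≤
        rm (gY d (i' + j)) (K.a i) := by
      unfold hln
      rw [div_mul_eq_mul_div, div_le_iff₀ hil]
      exact h1.trans (mul_le_mul_of_nonneg_right h2 hil.le)
    have hh : 0 < hln K b R c f u u' U (8 * j + 4) i := div_pos hl hil
    have h4 := Real.log_le_log (mul_pos hh hy1) h3
    rw [Real.log_mul hh.ne' hy1.ne'] at h4
    show - Real.log _ - - Real.log _ ≤ - Real.log _
    linarith
  · -- hi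
    intro i' j hj hij
    have hy1 := hrm (gY d i') (by rw [hgY]; omega) (by rw [hgY, hgm]; omega)
    have hy2 := hrm (gY d (i' + j + 1)) (by rw [hgY]; omega) (by rw [hgY, hgm]; omega)
    have hl := hlen (8 * j + 4) (by omega) (by rw [hgm]; omega)
    have h1 := hPF.lo (8 * j + 4) (gY d i' + 1) (gY d (i' + j + 1)) (by omega)
      (by rw [hgY]; omega) (by rw [hgY]; omega) (by rw [hgY, hgY]; omega)
      (by rw [hgY, hgm]; omega) (by rw [hgY, hgY]; omega) (by rw [hgY, hgY]; omega) i hi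
    have h2 := hr3 (gY d i') (by rw [hgY]; omega) (by rw [hgY, hgm]; omega)
    have h3 : rm (gY d (i' + j + 1)) (K.a i) ≤
        hln K b R c f u u' U (8 * j + 4) i * rm (gY d i') (K.a i) := by
      unfold hln
      rw [div_mul_eq_mul_div, le_div_iff₀ hil]
      exact h1.trans (mul_le_mul_of_nonneg_left h2 hl.le)
    have hh : 0 < hln K b R c f u u' U (8 * j + 4) i := div_pos hl hil
    have h4 := Real.log_le_log hy2 h3
    rw [Real.log_mul hh.ne' hy1.ne'] at h4
    show - Real.log _ ≤ - Real.log _ - - Real.log _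
    linarith
  · -- sh
    intro j hj
    have hl := hlen (8 * j + 4) (by omega) (by rw [hgm]; omega)
    have h1 := hPF.short (8 * j + 4) (by omega) (by rw [hgm]; omega) i hi
    have hh : 0 < hln K b R c f u u' U (8 * j + 4) i := div_pos hl hil
    have hb0 : (0 : ℝ) < b := by linarith
    have h3 : hln K b R c f u u' U (8 * j + 4) i * (b : ℝ) ^ (4 * (R * (8 * j + 4))) ≤
        (b : ℝ) ^ R := by
      unfold hln
      rw [div_mul_eq_mul_div, div_le_iff₀ hil]
      exact h1.trans (mul_le_mul_of_nonneg_right hA hil.le)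
    have h4 := Real.log_le_log (mul_pos hh (pow_pos hb0 _)) h3
    rw [Real.log_mul hh.ne' (pow_pos hb0 _).ne', Real.log_pow, Real.log_pow] at h4
    push_cast at h4
    have hlb : 0 ≤ Real.log b := Real.log_nonneg (by linarith)
    have hR : 0 ≤ (R : ℝ) * Real.log b := mul_nonneg (Nat.cast_nonneg _) hlb
    show (4 * (j : ℝ) + 1) * (8 * R * Real.log b) ≤ - Real.log _
    nlinarith
  · -- gr
    intro k hk
    have hz : ∀ z, 1 ≤ z → z + 1 ≤ gm d → 8 * rm (z + 1) (K.a i) ≤ rm z (K.a i) :=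
      fun z h1 h2 => grow_one hPF hi h1 h2
    have e1 : gY d (k + 1) = gY d k + 1 + 1 + 1 + 1 := by rw [hgY, hgY]; omega
    have h1 := hz (gY d k) (by rw [hgY]; omega) (by rw [hgY, hgm]; omega)
    have h2 := hz (gY d k + 1) (by rw [hgY]; omega) (by rw [hgY, hgm]; omega)
    have h3 := hz (gY d k + 1 + 1) (by rw [hgY]; omega) (by rw [hgY, hgm]; omega)
    have h4 := hz (gY d k + 1 + 1 + 1) (by rw [hgY]; omega) (by rw [hgY, hgm]; omega)
    have hp := hrm (gY d (k + 1)) (by rw [hgY]; omega) (by rw [hgY, hgm]; omega)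
    rw [e1] at hp
    have h5 : (2 : ℝ) ^ 12 * rm (gY d k + 1 + 1 + 1 + 1) (K.a i) ≤ rm (gY d k) (K.a i) := by
      linarith
    have h6 := Real.log_le_log (mul_pos (by norm_num) hp) h5
    rw [Real.log_mul (by norm_num) hp.ne', Real.log_pow] at h6
    have h7 := Real.log_two_gt_d9
    rw [e1]
    show - Real.log _ + 2 ≤ - Real.log _
    push_cast at h6
    linarith

end Pool.Agent.Work.MP_e17eac_co.HS
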