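import Pool.Agent.Work.MP_e17eac_co.HS.StG2

/-!
# HS, block G: comparison of the radii of two close lines
-/

namespace Pool.Agent.Work.MP_e17eac_co.HS

open Finset
open Pool.Agent.Work.MP_e17eac_co.DH
open Pool.Agent.Work.MP_e17eac_co.B1

namespace GRADC

/-- The mass contradiction. -/
theorem mass {ι α : Type} [Fintype ι] [DecidableEq ι] [DecidableEq α] {K : KSys ι}
    {b M m R F : ℕ} {ec : ℕ → ℕ} {D D' ρ : ℝ} {L : Lb α} {E E4 X4 : Finset ℕ}
    {U : ℕ → ι → ℕ → ℕ × ℕ} {c f u u' : ℕ} {rm rp : ℕ → ι → ℝ}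
    (h : S4 K b M m R F ec D D' ρ L E E4 X4 U c f u u' rm rp)
    (hs : D' * ρ ^ 2 < (b : ℝ) ^ (4 * R)) {z : ℕ} (hz : 1 ≤ z) (hzm : z + 1 ≤ m) {i i' : ℕ}
    (hi4 : i ∈ E4) (hi' : i' ∈ E4 \ X4) {δ : ℝ}
    (d1 : |K.ht (K.a i) (ta K b f u) - K.ht (K.a i') (ta K b f u)| ≤ δ)
    (d2 : |K.ht (K.a i) (tb K b f u') - K.ht (K.a i') (tb K b f u')| ≤ δ)
    (hcon : rm z (K.a i) + δ ≤ (b : ℝ) ^ 16 * rp (z + 1) (K.a i')) : False := by
  have e1 := h.r2 z hz (by omega) i hi4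
  have e2 := h.r2' (z + 1) (by omega) hzm i' hi'
  have hb2 : 2 ≤ b := h.ls.lev.two
  have hb : (0 : ℝ) < b := by positivity
  have hn : (0 : ℝ) < Fintype.card ι := by
    have : 0 < Fintype.card ι := Fintype.card_pos_iff.mpr ⟨K.a i⟩
    exact_mod_cast this
  have hD : 0 < D' := by
    have h1 : 0 < Th b := by unfold Th; positivity
    exact h1.trans_le (h.ls.bD.trans h.DD)
  have hmono : (bal K (PS K b M D) (ta K b f u) (tb K b f u') (K.a i) (rm z (K.a i))).card ≤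
      (bal K (PS K b M D) (ta K b f u) (tb K b f u') (K.a i')
        ((b : ℝ) ^ 16 * rp (z + 1) (K.a i'))).card := by
    apply card_le_card
    intro q hq
    simp only [bal, mem_filter] at hq ⊢
    refine ⟨hq.1, ?_, ?_⟩
    · calc |K.ht q (ta K b f u) - K.ht (K.a i') (ta K b f u)|
          ≤ |K.ht q (ta K b f u) - K.ht (K.a i) (ta K b f u)| +
            |K.ht (K.a i) (ta K b f u) - K.ht (K.a i') (ta K b f u)| := abs_sub_le _ _ _
        _ ≤ rm z (K.a i) + δ := add_le_add hq.2.1 d1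
        _ ≤ _ := hcon
    · calc |K.ht q (tb K b f u') - K.ht (K.a i') (tb K b f u')|
          ≤ |K.ht q (tb K b f u') - K.ht (K.a i) (tb K b f u')| +
            |K.ht (K.a i) (tb K b f u') - K.ht (K.a i') (tb K b f u')| := abs_sub_le _ _ _
        _ ≤ rm z (K.a i) + δ := add_le_add hq.2.2 d2
        _ ≤ _ := hcon
  have hmono' : ((bal K (PS K b M D) (ta K b f u) (tb K b f u') (K.a i)
      (rm z (K.a i))).card : ℝ) ≤ ((bal K (PS K b M D) (ta K b f u) (tb K b f u') (K.a i')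
        ((b : ℝ) ^ 16 * rp (z + 1) (K.a i'))).card : ℝ) := by exact_mod_cast hmono
  set B1' : ℝ := ((bal K (PS K b M D) (ta K b f u) (tb K b f u') (K.a i)
      (rm z (K.a i))).card : ℝ)
  set B2 : ℝ := ((bal K (PS K b M D) (ta K b f u) (tb K b f u') (K.a i')
        ((b : ℝ) ^ 16 * rp (z + 1) (K.a i'))).card : ℝ)
  set n : ℝ := (Fintype.card ι : ℝ)
  have hsplit : (b : ℝ) ^ (4 * (R * (z + 1))) = (b : ℝ) ^ (4 * (R * z)) * (b : ℝ) ^ (4 * R) := by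
    rw [← pow_add]; congr 1; ring
  rw [hsplit] at e2
  have hQ : 0 < (b : ℝ) ^ (4 * R) := by positivity
  have h3 : n * (b : ℝ) ^ (4 * R) ≤ D' * ρ ^ 2 * n := by
    calc n * (b : ℝ) ^ (4 * R)
        ≤ (D' * (b : ℝ) ^ (4 * (R * z)) * B1') * (b : ℝ) ^ (4 * R) :=
          mul_le_mul_of_nonneg_right e1 hQ.le
      _ ≤ (D' * (b : ℝ) ^ (4 * (R * z)) * B2) * (b : ℝ) ^ (4 * R) := by
          apply mul_le_mul_of_nonneg_right _ hQ.le
          exact mul_le_mul_of_nonneg_left hmono' (by positivity)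
      _ = D' * ((b : ℝ) ^ (4 * (R * z)) * (b : ℝ) ^ (4 * R) * B2) := by ring
      _ ≤ D' * (ρ ^ 2 * n) := mul_le_mul_of_nonneg_left e2 hD.le
      _ = _ := by ring
  have h4 : D' * ρ ^ 2 * n < n * (b : ℝ) ^ (4 * R) := by
    rw [mul_comm n]
    exact mul_lt_mul_of_pos_right hs hn
  exact absurd h3 (not_le.mpr h4)

end GRADC

open GRADC in
/-- **Comparison of the radii of two close lines.** -/
theorem I_RadC : StRadC := by
  intro ι α _ _ _ K b M m R F ec D D' ρ A L E E4 X4 E5 U c f u u' rm rp P hs i hi i1 hi1 y hy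
    d1 d2 z hz hzy
  have S := P.s4
  have hb2 : 2 ≤ b := S.ls.lev.two
  have hbR : (2 : ℝ) ≤ b := by exact_mod_cast hb2
  have hb0 : (0 : ℝ) < b := by linarith
  have hb1 : (1 : ℝ) ≤ b := by linarith
  have h3b : 3 * (b : ℝ) ≤ (b : ℝ) ^ 3 := by nlinarith [mul_self_nonneg ((b : ℝ) - 2)]
  -- positivity of the radii
  have hpos : ∀ w, 1 ≤ w → w ≤ m → ∀ k ∈ E5, 0 < rp w (K.a k) := by
    intro w hw hwm k hk
    have hk' := P.sub hk
    exact (S.ls.pos (2 * w) (by omega) k (S.sub (mem_sdiff.1 hk').1)).trans_le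
      (S.r1' w hw hwm k hk')
  have hrm : ∀ w, 1 ≤ w → w ≤ m → ∀ k ∈ E5, rm w (K.a k) ≤ 3 * b * rp w (K.a k) := by
    intro w hw hwm k hk
    have hk' := P.sub hk
    exact (S.r1 w hw hwm k (mem_sdiff.1 hk').1).trans
      (mul_le_mul_of_nonneg_left (S.r1' w hw hwm k hk') (by positivity))
  have hmon1 : ∀ w, 1 ≤ w → w + 1 ≤ m → ∀ k ∈ E5, rp (w + 1) (K.a k) ≤ rp w (K.a k) := by
    intro w hw hwm k hk
    have h1 := P.r3 w hw hwm k hk
    have h2 := hrm w hw (by omega) k hk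
    have h3 := hpos w hw (by omega) k hk
    have h4 : 3 * (b : ℝ) ≤ (b : ℝ) ^ 16 :=
      h3b.trans (pow_le_pow_right₀ hb1 (by norm_num))
    have h5 : (b : ℝ) ^ 16 * rp (w + 1) (K.a k) ≤ (b : ℝ) ^ 16 * rp w (K.a k) :=
      (h1.le.trans h2).trans (mul_le_mul_of_nonneg_right h4 h3.le)
    exact le_of_mul_le_mul_left h5 (by positivity)
  have hmon : ∀ k ∈ E5, ∀ w w', 1 ≤ w → w ≤ w' → w' ≤ m → rp w' (K.a k) ≤ rp w (K.a k) := by
    intro k hk w w' hw hww'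
    induction w', hww' using Nat.le_induction with
    | base => intro _; exact le_rfl
    | succ v hv ih => intro hm; exact (hmon1 v (by omega) hm k hk).trans (ih (by omega))
  have hi' := P.sub hi
  have hi1' := P.sub hi1
  have hi4 := (mem_sdiff.1 hi').1
  have hi14 := (mem_sdiff.1 hi1').1
  have hb3 : (0 : ℝ) < (b : ℝ) ^ 3 := by positivity
  -- distances
  have hd : ∀ w, 1 ≤ w → w ≤ y →
      |K.ht (K.a i) (ta K b f u) - K.ht (K.a i1) (ta K b f u)| ≤ (b : ℝ) ^ 3 * rp w (K.a i1) ∧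
      |K.ht (K.a i) (tb K b f u') - K.ht (K.a i1) (tb K b f u')| ≤
        (b : ℝ) ^ 3 * rp w (K.a i1) := by
    intro w hw hwy
    have h1 := mul_le_mul_of_nonneg_left (hmon i1 hi1 w y hw hwy hy) hb3.le
    exact ⟨d1.trans h1, d2.trans h1⟩
  have hb13 : (b : ℝ) ^ 16 = (b : ℝ) ^ 13 * (b : ℝ) ^ 3 := by ring
  have hb4 : 2 * (b : ℝ) ^ 3 ≤ (b : ℝ) ^ 4 := by
    have : (b : ℝ) ^ 4 = b * (b : ℝ) ^ 3 := by ring
    rw [this]; exact mul_le_mul_of_nonneg_right hbR hb3.le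
  have hb4' : (b : ℝ) ^ 4 ≤ (b : ℝ) ^ 16 := pow_le_pow_right₀ hb1 (by norm_num)
  constructor
  · by_contra hcon
    rw [not_le] at hcon
    obtain ⟨e1, e2⟩ := hd (z + 1) (by omega) (by omega)
    refine mass S hs hz (by omega) hi4 hi1' e1 e2 ?_
    have h1 := hrm (z + 1) (by omega) (by omega) i1 hi1
    have h2 := hpos (z + 1) (by omega) (by omega) i1 hi1
    have h3 : 3 * (b : ℝ) * rp (z + 1) (K.a i1) ≤ (b : ℝ) ^ 3 * rp (z + 1) (K.a i1) :=
      mul_le_mul_of_nonneg_right h3b h2.le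
    have h4 : 2 * (b : ℝ) ^ 3 * rp (z + 1) (K.a i1) ≤ (b : ℝ) ^ 16 * rp (z + 1) (K.a i1) :=
      mul_le_mul_of_nonneg_right (hb4.trans hb4') h2.le
    linarith
  · -- step (2)
    obtain ⟨e1, e2⟩ := hd (z + 2) (by omega) hzy
    set δ : ℝ := (b : ℝ) ^ 3 * rp (z + 2) (K.a i1) with hδ
    have hδ0 : 0 < δ := mul_pos hb3 (hpos (z + 2) (by omega) (by omega) i1 hi1)
    have s2 : (b : ℝ) ^ 16 * rp (z + 2) (K.a i1) < rm (z + 1) (K.a i) + δ := by
      by_contra hcon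
      rw [not_lt] at hcon
      exact mass S hs (by omega : 1 ≤ z + 1) (by omega) hi4 hi1' e1 e2 hcon
    have s2' : (b : ℝ) ^ 13 * δ < rm (z + 1) (K.a i) + δ := by
      have : (b : ℝ) ^ 13 * δ = (b : ℝ) ^ 16 * rp (z + 2) (K.a i1) := by rw [hδ, hb13]; ring
      rw [this]; exact s2
    have h13 : 2 * (b : ℝ) ^ 3 ≤ (b : ℝ) ^ 13 := hb4.trans (pow_le_pow_right₀ hb1 (by norm_num))
    have h1b : (1 : ℝ) ≤ (b : ℝ) ^ 3 := one_le_pow₀ hb1
    have s3 : (b : ℝ) ^ 3 * δ ≤ rm (z + 1) (K.a i) := by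
      have h1 : 2 * (b : ℝ) ^ 3 * δ ≤ (b : ℝ) ^ 13 * δ := mul_le_mul_of_nonneg_right h13 hδ0.le
      have h2 : 1 * δ ≤ (b : ℝ) ^ 3 * δ := mul_le_mul_of_nonneg_right h1b hδ0.le
      linarith
    have h1 := hrm (z + 1) (by omega) (by omega) i hi
    have h2 := hpos (z + 1) (by omega) (by omega) i hi
    have s4 : δ ≤ rp (z + 1) (K.a i) := by
      have h3 : (b : ℝ) ^ 3 * δ ≤ (b : ℝ) ^ 3 * rp (z + 1) (K.a i) :=
        (s3.trans h1).trans (mul_le_mul_of_nonneg_right h3b h2.le)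
      exact le_of_mul_le_mul_left h3 hb3
    by_contra hcon
    rw [not_le] at hcon
    rw [abs_sub_comm] at e1 e2
    refine mass S hs hz (by omega) hi14 hi' e1 e2 ?_
    have h3 : 3 * (b : ℝ) * rp (z + 1) (K.a i) ≤ (b : ℝ) ^ 3 * rp (z + 1) (K.a i) :=
      mul_le_mul_of_nonneg_right h3b h2.le
    have h4 : 2 * (b : ℝ) ^ 3 * rp (z + 1) (K.a i) ≤ (b : ℝ) ^ 16 * rp (z + 1) (K.a i) :=
      mul_le_mul_of_nonneg_right (hb4.trans hb4') h2.le
    have h5 : 1 * rp (z + 1) (K.a i) ≤ (b : ℝ) ^ 3 * rp (z + 1) (K.a i) :=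
      mul_le_mul_of_nonneg_right h1b h2.le
    linarith

end Pool.Agent.Work.MP_e17eac_co.HS
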