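import Pool.Agent.Work.MP_e17eac_co.HS.StC
import Pool.Agent.Work.MP_e17eac_co.Bd.B19

/-!
# HS: few hulls are long
-/

namespace Pool.Agent.Work.MP_e17eac_co.HS

open Finset
open Pool.Agent.Work.MP_e17eac_co.DH
open Pool.Agent.Work.MP_e17eac_co.B1

namespace XShort

/-- Sum of the lengths of ordered intervals in `[A, B]`. -/
theorem sum_len (al be : ℕ → ℝ) (A : ℝ) : ∀ (V : Finset ℕ) (B : ℝ), A ≤ B →
    (∀ w ∈ V, A ≤ al w ∧ be w ≤ B) → (∀ w ∈ V, ∀ w' ∈ V, w < w' → be w ≤ al w') →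
    ∑ w ∈ V, (be w - al w) ≤ B - A := by
  intro V
  induction V using Finset.induction_on_max with
  | empty =>
    intro B hB _ _
    simpa using hB
  | insert a V hmax ih =>
    intro B hB hin hord
    have ha : a ∉ V := fun h => lt_irrefl _ (hmax a h)
    rw [sum_insert ha]
    have h1 := ih (al a) (hin a (mem_insert_self _ _)).1
      (fun w hw => ⟨(hin w (mem_insert_of_mem hw)).1,
        hord w (mem_insert_of_mem hw) a (mem_insert_self _ _) (hmax w hw)⟩)
      (fun w hw w' hw' h => hord w (mem_insert_of_mem hw) w' (mem_insert_of_mem hw') h)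
    have h2 := (hin a (mem_insert_self _ _)).2
    linarith

variable {ι : Type} [Fintype ι] [DecidableEq ι]

/-- The first edge of a nonempty cell. -/
theorem ta_spec (K : KSys ι) (b x v i : ℕ) (hN : i < K.N) (hi : cell K b x i = v) :
    ∃ k, ta K b x v = K.t k ∧ k < K.N ∧ cell K b x k = v ∧ ∀ j, cell K b x j = v → k ≤ j := by
  have hne : {j | cell K b x j = v}.Nonempty := ⟨i, hi⟩
  exact ⟨sInf {j | cell K b x j = v}, rfl, lt_of_le_of_lt (Nat.sInf_le hi) hN,
    Nat.sInf_mem hne, fun j hj => Nat.sInf_le hj⟩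

/-- The last edge of a nonempty cell. -/
theorem tb_spec (K : KSys ι) (b x v i : ℕ) (hN : i < K.N) (hi : cell K b x i = v) :
    ∃ k, tb K b x v = K.t k ∧ k < K.N ∧ cell K b x k = v ∧
      ∀ j, j < K.N → cell K b x j = v → j ≤ k := by
  have hmem : i ∈ ce K b x v := by
    unfold ce
    rw [mem_filter, mem_range]
    exact ⟨hN, hi⟩
  obtain ⟨k, hk, hk2⟩ := exists_mem_eq_sup (ce K b x v) ⟨i, hmem⟩ id
  have hk3 : k < K.N ∧ cell K b x k = v := by
    unfold ce at hk
    rw [mem_filter, mem_range] at hk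
    exact hk
  refine ⟨k, by unfold tb; rw [hk2]; rfl, hk3.1, hk3.2, ?_⟩
  intro j hj hjv
  have hj2 : j ∈ ce K b x v := by
    unfold ce
    rw [mem_filter, mem_range]
    exact ⟨hj, hjv⟩
  have := le_sup (f := id) hj2
  rw [hk2] at this
  exact this

theorem t_le (K : KSys ι) {n k : ℕ} (h : n ≤ k) (hk : k < K.N) : K.t n ≤ K.t k := by
  rcases Nat.eq_or_lt_of_le h with h | h
  · rw [h]
  · exact (K.t_lt n k h hk).le

/-- The edges of the hull. -/
theorem hull (hc : B1.StCell) {α : Type} [DecidableEq α] (K : KSys ι)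
    (b M m R F : ℕ) (ec : ℕ → ℕ) (D D' ρ : ℝ) (L : Lb α) (E E4 X4 : Finset ℕ)
    (U : ℕ → ι → ℕ → ℕ × ℕ) (c f u u' : ℕ) (rm rp : ℕ → ι → ℝ)
    (S : S4 K b M m R F ec D D' ρ L E E4 X4 U c f u u' rm rp) (x : ℕ) (h1 : 1 ≤ x) (hx : x ≤ m)
    (i : ℕ) (hi : i ∈ E4) :
    ∃ k0 k1, g0 K b (R * x) (R * x + c) (U x) i = K.t k0 ∧
      g1 K b (R * x) (R * x + c) (U x) i = K.t k1 ∧ k0 < k1 ∧ k1 < K.N ∧
      cell K b (R * x) k0 = cell K b (R * x) i ∧ cell K b (R * x) k1 = cell K b (R * x) i ∧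
      ta K b f u ≤ K.t k0 ∧ K.t k1 ≤ tb K b f u' := by
  have hNpos : (0 : ℝ) < K.N := by exact_mod_cast S.ls.npos
  have hb : 1 ≤ b := le_trans (by norm_num) S.ls.lev.two
  have hlt : ∀ j ∈ E4, j < K.N := fun j hj => (S.ls.hyg j (S.sub hj)).lt
  obtain ⟨-, mono, nest, -, -, -⟩ := hc ι K b (R * x + c) hb
  obtain ⟨-, monof, -, -, -, -⟩ := hc ι K b f hb
  obtain ⟨-, -, nestR, -, -, -⟩ := hc ι K b (R * x) hb
  have T := S.tw x h1 hx
  have hql := T.ql i hi
  have hqr := T.qr i hi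
  obtain ⟨i0, hi0⟩ : ((EE K b (R * x) E4 i).filter (fun i' => cell K b (R * x + c) i' =
      (U x (K.a i) (cell K b (R * x) i)).1)).Nonempty := by
    rw [nonempty_iff_ne_empty]
    intro h0
    rw [h0, card_empty, Nat.cast_zero, mul_zero] at hql
    linarith
  obtain ⟨i1, hi1⟩ : ((EE K b (R * x) E4 i).filter (fun i' => cell K b (R * x + c) i' =
      (U x (K.a i) (cell K b (R * x) i)).2)).Nonempty := by
    rw [nonempty_iff_ne_empty]
    intro h0
    rw [h0, card_empty, Nat.cast_zero, mul_zero] at hqr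
    linarith
  unfold EE at hi0 hi1
  simp only [mem_filter] at hi0 hi1
  obtain ⟨⟨hi0E, -, hi0c⟩, hi0v⟩ := hi0
  obtain ⟨⟨hi1E, -, hi1c⟩, hi1v⟩ := hi1
  obtain ⟨k0, hk0t, hk0N, hk0c, -⟩ := ta_spec K b (R * x + c) _ i0 (hlt i0 hi0E) hi0v
  obtain ⟨k1, hk1t, hk1N, hk1c, -⟩ := tb_spec K b (R * x + c) _ i1 (hlt i1 hi1E) hi1v
  have hk0e : cell K b (R * x) k0 = cell K b (R * x) i := by
    rw [nest (R * x) (Nat.le_add_right _ _) k0, hk0c, ← hi0v,
      ← nest (R * x) (Nat.le_add_right _ _) i0, hi0c]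
  have hk1e : cell K b (R * x) k1 = cell K b (R * x) i := by
    rw [nest (R * x) (Nat.le_add_right _ _) k1, hk1c, ← hi1v,
      ← nest (R * x) (Nat.le_add_right _ _) i1, hi1c]
  have hk01 : k0 < k1 := by
    by_contra hcon
    have := mono k1 k0 (not_lt.mp hcon)
    rw [hk0c, hk1c] at this
    exact absurd (T.lt i hi) (not_lt.mpr this)
  have hfx : f ≤ R * x := S.fR.1.trans (Nat.le_mul_of_pos_right _ h1)
  have hf : ∀ k, cell K b (R * x) k = cell K b (R * x) i → cell K b f k = u ∨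
      cell K b f k = u' := by
    intro k hk
    have : cell K b f k = cell K b f i := by
      rw [nestR f hfx k, nestR f hfx i, hk]
    rw [this]
    exact S.rt.mem i hi
  have hRl := S.rt.ql i hi
  have hRr := S.rt.qr i hi
  obtain ⟨j0, hj0⟩ : (E4.filter (fun i' => K.a i' = K.a i ∧ cell K b f i' = u)).Nonempty := by
    rw [nonempty_iff_ne_empty]
    intro h0
    rw [h0, card_empty, Nat.cast_zero, mul_zero] at hRl
    linarith
  obtain ⟨j1, hj1⟩ : (E4.filter (fun i' => K.a i' = K.a i ∧ cell K b f i' = u')).Nonempty := by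
    rw [nonempty_iff_ne_empty]
    intro h0
    rw [h0, card_empty, Nat.cast_zero, mul_zero] at hRr
    linarith
  simp only [mem_filter] at hj0 hj1
  obtain ⟨l0, hl0t, hl0N, hl0c, hl0m⟩ := ta_spec K b f _ j0 (hlt j0 hj0.1) hj0.2.2
  obtain ⟨l1, hl1t, hl1N, hl1c, hl1m⟩ := tb_spec K b f _ j1 (hlt j1 hj1.1) hj1.2.2
  refine ⟨k0, k1, hk0t, hk1t, hk01, hk1N, hk0e, hk1e, ?_, ?_⟩
  · rw [hl0t]
    refine t_le K ?_ hk0N
    rcases hf k0 hk0e with h | h
    · exact hl0m k0 h
    · by_contra hcon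
      have := monof k0 l0 (not_le.mp hcon).le
      rw [h, hl0c] at this
      exact absurd S.rt.lt (not_lt.mpr this)
  · rw [hl1t]
    refine t_le K ?_ hl1N
    rcases hf k1 hk1e with h | h
    · by_contra hcon
      have := monof l1 k1 (not_le.mp hcon).le
      rw [h, hl1c] at this
      exact absurd S.rt.lt (not_lt.mpr this)
    · exact hl1m k1 hk1N h

/-- The number of edges of a set in one cell. -/
theorem percell {K : KSys ι} {b M e : ℕ} {D : ℝ} (he : e ≤ M) (hb : 1 ≤ b) (hD : 0 ≤ D)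
    (F : Finset ℕ) (hF : ∀ i ∈ F, Hyg K b M D i) (w : ℕ) :
    ((F.filter (fun i => cell K b e i = w)).card : ℝ) * (b : ℝ) ^ (4 * e) ≤ D ^ 2 * K.N := by
  classical
  have hbp : (0 : ℝ) < (b : ℝ) := by exact_mod_cast hb
  rcases (F.filter (fun i => cell K b e i = w)).eq_empty_or_nonempty with h0 | ⟨i0, hi0⟩
  · rw [h0, card_empty, Nat.cast_zero, zero_mul]
    positivity
  have hi0' := hi0
  rw [mem_filter] at hi0
  obtain ⟨hi0F, hi0w⟩ := hi0
  set G := F.filter (fun i => cell K b e i = w) with hG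
  have hcrowd := (hF i0 hi0F).crowd e he
  rw [hi0w] at hcrowd
  have : Nonempty ι := ⟨K.a i0⟩
  have hn : (0 : ℝ) < Fintype.card ι := by exact_mod_cast Fintype.card_pos
  -- the image of the lines
  have himg : G.image K.a ⊆ vis K b e w := by
    intro p hp
    rw [mem_image] at hp
    obtain ⟨i, hi, rfl⟩ := hp
    rw [hG, mem_filter] at hi
    unfold vis KSys.lines
    rw [mem_union]
    left
    refine mem_image_of_mem _ ?_
    unfold ce
    rw [mem_filter, mem_range]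
    exact ⟨(hF i hi.1).lt, hi.2⟩
  have hmaps : (G.card : ℝ) * (Fintype.card ι * (b : ℝ) ^ e) ≤ (G.image K.a).card * (D * K.N) := by
    have hsum : (G.card : ℝ) = ∑ p ∈ G.image K.a, ((G.filter (fun i => K.a i = p)).card : ℝ) := by
      have := card_eq_sum_card_image K.a G
      exact_mod_cast this
    rw [hsum, sum_mul]
    refine le_trans (sum_le_sum (g := fun _ => D * (K.N : ℝ)) ?_) (le_of_eq (by
      rw [sum_const, nsmul_eq_mul]))
    intro p hp
    rw [mem_image] at hp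
    obtain ⟨i, hi, rfl⟩ := hp
    rw [hG, mem_filter] at hi
    refine le_trans ?_ ((hF i hi.1).light false e he)
    refine mul_le_mul_of_nonneg_right ?_ (by positivity)
    have : G.filter (fun j => K.a j = K.a i) ⊆ (range K.N).filter (fun j =>
        K.ln false j = K.ln false i ∧ cell K b e j = cell K b e i) := by
      intro j hj
      rw [mem_filter, hG, mem_filter] at hj
      rw [mem_filter, mem_range]
      exact ⟨(hF j hj.1.1).lt, hj.2, by rw [hj.1.2, hi.2]⟩
    exact_mod_cast card_le_card this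
  have hvis : ((G.image K.a).card : ℝ) ≤ ((vis K b e w).card : ℝ) := by
    exact_mod_cast card_le_card himg
  have hpos : (0 : ℝ) < Fintype.card ι * (b : ℝ) ^ e := by positivity
  have hDN : (0 : ℝ) ≤ D * K.N := by positivity
  have h3 : (G.card : ℝ) * (b : ℝ) ^ (4 * e) * Fintype.card ι ≤ D ^ 2 * K.N * Fintype.card ι := by
    have e4 : (b : ℝ) ^ (4 * e) = (b : ℝ) ^ e * (b : ℝ) ^ (3 * e) := by
      rw [← pow_add]
      congr 1
      ring
    calc (G.card : ℝ) * (b : ℝ) ^ (4 * e) * Fintype.card ι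
        = (G.card : ℝ) * (Fintype.card ι * (b : ℝ) ^ e) * (b : ℝ) ^ (3 * e) := by
          rw [e4]; ring
      _ ≤ ((G.image K.a).card * (D * K.N)) * (b : ℝ) ^ (3 * e) :=
          mul_le_mul_of_nonneg_right hmaps (by positivity)
      _ ≤ (((vis K b e w).card : ℝ) * (D * K.N)) * (b : ℝ) ^ (3 * e) :=
          mul_le_mul_of_nonneg_right (mul_le_mul_of_nonneg_right hvis hDN) (by positivity)
      _ = (((vis K b e w).card : ℝ) * (b : ℝ) ^ (3 * e)) * (D * K.N) := by ring
      _ ≤ (D * Fintype.card ι) * (D * K.N) := mul_le_mul_of_nonneg_right hcrowd hDN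
      _ = D ^ 2 * K.N * Fintype.card ι := by ring
  exact le_of_mul_le_mul_right h3 hn

end XShort

open XShort in
theorem I_Short (hc : B1.StCell) : StShort := by
  classical
  refine ⟨2, ?_⟩
  intro ι α _ _ _ K _ b M m R F ec D D' ρ L E E4 X4 U c f u u' rm rp S ε hε hε1 x h1 hx
  have hNpos : (0 : ℝ) < K.N := by exact_mod_cast S.ls.npos
  have hb : 1 ≤ b := le_trans (by norm_num) S.ls.lev.two
  have hbp : (0 : ℝ) < (b : ℝ) := by exact_mod_cast hb
  have hD : 0 < D := lt_of_lt_of_le (by unfold Th; positivity) S.ls.bD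
  have hD' : 0 < D' := lt_of_lt_of_le hD S.DD
  have hRM : R * x ≤ M := by
    have h := S.ls.lev.child (2 * x) (by omega)
    have h2 : ex R F (2 * x) = R * x := by
      unfold ex
      rw [Nat.mul_div_cancel_left x (by norm_num), Nat.mul_mod_right, Nat.mul_zero, Nat.add_zero]
    rw [h2] at h
    omega
  set I : ℝ := tb K b f u' - ta K b f u with hI
  set len : ℕ → ℝ := fun i => g1 K b (R * x) (R * x + c) (U x) i -
    g0 K b (R * x) (R * x + c) (U x) i with hlen
  set X : Finset ℕ := E4.filter (fun i => D' ^ 2 * I < len i * (b : ℝ) ^ (4 * (R * x)) * ε ^ 2)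
    with hX
  refine ⟨X, filter_subset _ _, ?_, ?_⟩
  swap
  · intro i hi
    rw [mem_sdiff, hX, mem_filter, not_and] at hi
    exact not_lt.mp (hi.2 hi.1)
  have hXE : ∀ i ∈ X, i ∈ E4 := fun i hi => (mem_filter.mp hi).1
  rcases X.eq_empty_or_nonempty with h0 | ⟨j0, hj0⟩
  · rw [h0, card_empty, Nat.cast_zero]
    positivity
  have Hull := fun i (hi : i ∈ E4) => hull hc K b M m R F ec D D' ρ L E E4 X4 U c f u u' rm rp S
    x h1 hx i hi
  have hIpos : 0 < I := by
    obtain ⟨k0, k1, -, -, hk, hkN, -, -, ha, hb'⟩ := Hull j0 (hXE j0 hj0)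
    have := K.t_lt k0 k1 hk hkN
    rw [hI]
    linarith
  -- the cells
  set V := X.image (cell K b (R * x)) with hV
  have hch : ∀ w : ℕ, ∃ i, w ∈ V → (i ∈ X ∧ cell K b (R * x) i = w) := by
    intro w
    by_cases hw : w ∈ V
    · rw [hV, mem_image] at hw
      obtain ⟨i, hi, hiw⟩ := hw
      exact ⟨i, fun _ => ⟨hi, hiw⟩⟩
    · exact ⟨0, fun h => absurd h hw⟩
  choose ch hch using hch
  obtain ⟨-, mono, -, -, -, -⟩ := hc ι K b (R * x) hb
  have hs : ∑ w ∈ V, len (ch w) ≤ I := by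
    have := sum_len (fun w => g0 K b (R * x) (R * x + c) (U x) (ch w))
      (fun w => g1 K b (R * x) (R * x + c) (U x) (ch w)) (ta K b f u) V (tb K b f u')
      (by linarith) ?_ ?_
    · exact this
    · intro w hw
      obtain ⟨k0, k1, hg0, hg1, hk, hkN, -, -, ha, hb'⟩ := Hull (ch w) (hXE _ (hch w hw).1)
      simp only [hg0, hg1]
      exact ⟨ha, hb'⟩
    · intro w hw w' hw' hww
      obtain ⟨k0, k1, hg0, hg1, hk, hkN, -, hk1, -, -⟩ := Hull (ch w) (hXE _ (hch w hw).1)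
      obtain ⟨l0, l1, hl0, hl1, hl, hlN, hl0c, -, -, -⟩ := Hull (ch w') (hXE _ (hch w' hw').1)
      simp only [hg1, hl0]
      refine t_le K ?_ (lt_trans hl hlN)
      by_contra hcon
      have h := mono l0 k1 (not_le.mp hcon).le
      rw [hl0c, hk1, (hch w hw).2, (hch w' hw').2] at h
      omega
  have hV1 : (V.card : ℝ) * (D' ^ 2) ≤ (b : ℝ) ^ (4 * (R * x)) * ε ^ 2 := by
    have h2 : (V.card : ℝ) * (D' ^ 2 * I) ≤ (∑ w ∈ V, len (ch w)) *
        ((b : ℝ) ^ (4 * (R * x)) * ε ^ 2) := by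
      rw [sum_mul, ← nsmul_eq_mul]
      refine card_nsmul_le_sum _ _ _ ?_
      intro w hw
      have h3 := (hch w hw).1
      rw [hX, mem_filter] at h3
      have h4 := h3.2
      rw [mul_assoc] at h4
      exact h4.le
    have h5 : (∑ w ∈ V, len (ch w)) * ((b : ℝ) ^ (4 * (R * x)) * ε ^ 2) ≤
        I * ((b : ℝ) ^ (4 * (R * x)) * ε ^ 2) := mul_le_mul_of_nonneg_right hs (by positivity)
    have h6 : (V.card : ℝ) * (D' ^ 2) * I ≤ (b : ℝ) ^ (4 * (R * x)) * ε ^ 2 * I := by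
      calc (V.card : ℝ) * (D' ^ 2) * I = (V.card : ℝ) * (D' ^ 2 * I) := by ring
        _ ≤ I * ((b : ℝ) ^ (4 * (R * x)) * ε ^ 2) := h2.trans h5
        _ = _ := by ring
    exact le_of_mul_le_mul_right h6 hIpos
  have hcard : (X.card : ℝ) * (b : ℝ) ^ (4 * (R * x)) ≤ V.card * (D ^ 2 * K.N) := by
    have hsum : (X.card : ℝ) = ∑ w ∈ V,
        ((X.filter (fun i => cell K b (R * x) i = w)).card : ℝ) := by
      have := card_eq_sum_card_image (cell K b (R * x)) X
      exact_mod_cast this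
    rw [hsum, sum_mul]
    refine le_trans (sum_le_sum (g := fun _ => D ^ 2 * (K.N : ℝ)) ?_) (le_of_eq (by
      rw [sum_const, nsmul_eq_mul]))
    intro w _
    exact percell hRM hb hD.le X (fun i hi => S.ls.hyg i (S.sub (hXE i hi))) w
  have hP : (0 : ℝ) < (b : ℝ) ^ (4 * (R * x)) := by positivity
  have hDD : D ^ 2 ≤ D' ^ 2 := pow_le_pow_left₀ hD.le S.DD 2
  have h7 : (X.card : ℝ) * (b : ℝ) ^ (4 * (R * x)) ≤ ε * K.N * (b : ℝ) ^ (4 * (R * x)) := by
    calc (X.card : ℝ) * (b : ℝ) ^ (4 * (R * x)) ≤ V.card * (D ^ 2 * K.N) := hcard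
      _ ≤ V.card * (D' ^ 2 * K.N) := by
          refine mul_le_mul_of_nonneg_left (mul_le_mul_of_nonneg_right hDD hNpos.le) (by positivity)
      _ = V.card * D' ^ 2 * K.N := by ring
      _ ≤ (b : ℝ) ^ (4 * (R * x)) * ε ^ 2 * K.N := mul_le_mul_of_nonneg_right hV1 hNpos.le
      _ ≤ (b : ℝ) ^ (4 * (R * x)) * ε * K.N := by
          refine mul_le_mul_of_nonneg_right (mul_le_mul_of_nonneg_left ?_ hP.le) hNpos.le
          nlinarith
      _ = _ := by ring
  exact le_of_mul_le_mul_right h7 hP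

end Pool.Agent.Work.MP_e17eac_co.HS
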