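import Pool.Agent.Work.MP_e17eac_co.HS.StG2
import Pool.Agent.Work.MP_e17eac_co.HS.P_Short
import Pool.Agent.Work.MP_e17eac_co.Bd.B31

/-!
# HS, block G, item REGA: few windows of one line meet a short interval
-/

set_option autoImplicit false

namespace Pool.Agent.Work.MP_e17eac_co.HS

open Finset
open Pool.Agent.Work.MP_e17eac_co.DH
open Pool.Agent.Work.MP_e17eac_co.B1

namespace XRegA

variable {ι : Type} [Fintype ι] [DecidableEq ι]

/-- Edges in an earlier cell come first. -/
theorem t_cell (K : KSys ι) {b x : ℕ} (hb : 1 ≤ b) {i j : ℕ} (hj : j < K.N)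
    (h : cell K b x i < cell K b x j) : K.t i < K.t j := by
  obtain ⟨-, hmono, -⟩ := I_CELL ι K b x hb
  have h1 : i < j := by
    by_contra hh
    push Not at hh
    have := hmono j i hh
    omega
  exact K.t_lt i j h1 hj

/-- A finite set of naturals with more than four elements contains an increasing quintuple. -/
theorem five {s : Finset ℕ} (h : 5 ≤ s.card) : ∃ f : Fin 5 → ℕ, StrictMono f ∧ ∀ i, f i ∈ s := by
  obtain ⟨t, ht, hc⟩ := exists_subset_card_eq h
  exact ⟨t.orderEmbOfFin hc, (t.orderEmbOfFin hc).strictMono, fun i => ht (orderEmbOfFin_mem t hc i)⟩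

end XRegA

open XRegA in
theorem I_RegA : StRegA := by
  classical
  intro ι α _ _ _ K b M m R F ec D D' ρ L E E4 X4 U c f u u' rm rp S T hT hTa x x' hx hxx' hx'm
    hinj
  have hb : 1 ≤ b := le_trans (by norm_num) S.ls.lev.two
  have hbR : (0 : ℝ) < b := by exact_mod_cast hb
  have hD : 0 ≤ D := le_trans (by unfold Th; positivity) S.ls.bD
  have hRM : R * x' ≤ M := by
    have h1 := S.ls.lev.child (2 * x') (by omega)
    have h2 : ex R F (2 * x') = R * x' := by
      unfold ex
      have e1 : 2 * x' / 2 = x' := by omega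
      have e2 : 2 * x' % 2 = 0 := by omega
      rw [e1, e2]
      simp
    omega
  have hRx : R * x ≤ R * x' := Nat.mul_le_mul_left _ hxx'
  have hlt : ∀ v ∈ T, v < K.N := fun v hv => (S.ls.hyg v (S.sub (hT hv))).lt
  obtain ⟨hcl, -, hnest, -⟩ := I_CELL ι K b (R * x') hb
  -- membership in the visited cells
  have hvis : ∀ v ∈ T, K.a v ∈ vis K b (R * x') (cell K b (R * x') v) := by
    intro v hv
    unfold vis KSys.lines ce
    rw [mem_union]
    left
    exact mem_image.2 ⟨v, mem_filter.2 ⟨mem_range.2 (hlt v hv), rfl⟩, rfl⟩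
  constructor
  · rcases T.eq_empty_or_nonempty with h0 | ⟨v0, hv0⟩
    · rw [h0]; simp; positivity
    · have hps : K.a v0 ∈ PS K b M D := (S.ls.hyg v0 (S.sub (hT hv0))).ps false
      have hW : (W K b (R * x') (K.a v0) : ℝ) ≤ D * (b : ℝ) ^ (R * x') := by
        unfold PS at hps
        exact (mem_filter.1 hps).2 _ hRM
      refine le_trans ?_ hW
      have hc1 : T.card = (T.image (cell K b (R * x'))).card :=
        (card_image_of_injOn (fun v hv v' hv' e => hinj v hv v' hv' e)).symm
      rw [hc1]
      have hsub : T.image (cell K b (R * x')) ⊆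
          (range (b ^ (4 * (R * x')))).filter (fun w => K.a v0 ∈ vis K b (R * x') w) := by
        intro w hw
        obtain ⟨v, hv, rfl⟩ := mem_image.1 hw
        rw [mem_filter, mem_range]
        refine ⟨hcl v (hlt v hv), ?_⟩
        rw [hTa v0 hv0 v hv]
        exact hvis v hv
      exact_mod_cast card_le_card hsub
  · intro s δ hδ
    set T' := T.filter (fun v => |(K.t v - ta K b f u) / (tb K b f u' - ta K b f u) - s| ≤ δ)
      with hT'
    have hT'T : T' ⊆ T := filter_subset _ _
    rcases T'.eq_empty_or_nonempty with h0 | ⟨v0, hv0⟩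
    · rw [h0]; simp; positivity
    have hv0T := hT'T hv0
    have hδ0 : 0 ≤ δ := (abs_nonneg _).trans (mem_filter.1 hv0).2
    -- one cell
    have hone : ∀ w ∈ T'.image (cell K b (R * x)),
        ((T'.filter (fun v => cell K b (R * x) v = w)).card : ℝ) ≤
          D * (b : ℝ) ^ (R * (x' - x)) := by
      intro w hw
      obtain ⟨v1, hv1, rfl⟩ := mem_image.1 hw
      have hv1T := hT'T hv1
      have hrel := (S.ls.hyg v1 (S.sub (hT hv1T))).rel false (R * x) (hRx.trans hRM)
      have hWr : (Wr K b (R * x) (cell K b (R * x) v1) (R * x') (K.a v1) : ℝ) ≤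
          D * (b : ℝ) ^ (R * x' - R * x) := by
        unfold PSr at hrel
        exact (mem_filter.1 hrel).2 _ hRx hRM
      have e : R * (x' - x) = R * x' - R * x := Nat.mul_sub _ _ _
      rw [e]
      refine le_trans ?_ hWr
      set T1 := T'.filter (fun v => cell K b (R * x) v = cell K b (R * x) v1) with hT1
      have hT1T : T1 ⊆ T := (filter_subset _ _).trans hT'T
      have hc1 : T1.card = (T1.image (cell K b (R * x'))).card :=
        (card_image_of_injOn
          (fun v hv v' hv' e => hinj v (hT1T hv) v' (hT1T hv') e)).symm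
      rw [hc1]
      have hsub : T1.image (cell K b (R * x')) ⊆
          (range (b ^ (4 * (R * x')))).filter (fun w => w / b ^ (4 * (R * x' - R * x)) =
            cell K b (R * x) v1 ∧ K.a v1 ∈ vis K b (R * x') w) := by
        intro w hw
        obtain ⟨v, hv, rfl⟩ := mem_image.1 hw
        rw [mem_filter, mem_range]
        refine ⟨hcl v (hlt v (hT1T hv)), ?_, ?_⟩
        · rw [← hnest (R * x) hRx v]
          exact (mem_filter.1 hv).2
        · rw [hTa v1 hv1T v (hT1T hv)]
          exact hvis v (hT1T hv)
      exact_mod_cast card_le_card hsub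
    -- few cells
    have hfew : (T'.image (cell K b (R * x))).card ≤ 4 := by
      by_contra hcon
      obtain ⟨φ, hφ, hφm⟩ := five (s := T'.image (cell K b (R * x))) (by omega)
      choose v hv hvc using fun i => mem_image.1 (hφm i)
      have hvT : ∀ i, v i ∈ T := fun i => hT'T (hv i)
      have hvE : ∀ i, v i ∈ E4 := fun i => hT (hvT i)
      -- the base interval
      have hlen : ∀ i j k : Fin 5, i < j → j < k →
          δ * (tb K b f u' - ta K b f u) < K.t (v k) - K.t (v i) := by
        intro i j k hij hjk
        obtain ⟨k0, k1, e0, e1, hk01, hk1N, hc0, hc1, hl0, hl1⟩ :=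
          XShort.hull I_CELL K b M m R F ec D D' ρ L E E4 X4 U c f u u' rm rp S x hx
            (hxx'.trans hx'm) (v j) (hvE j)
        have hpos : 0 < tb K b f u' - ta K b f u := by
          have := K.t_lt k0 k1 hk01 hk1N
          linarith
        have h1 := hδ (v j) (hvT j)
        unfold hln at h1
        rw [le_div_iff₀ hpos, e0, e1] at h1
        have h2 : K.t (v i) < K.t k0 := by
          apply t_cell K hb (hk01.trans hk1N) (x := R * x)
          rw [hc0, hvc i, hvc j]
          exact hφ hij
        have h3 : K.t k1 < K.t (v k) := by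
          apply t_cell K hb (hlt _ (hvT k)) (x := R * x)
          rw [hc1, hvc j, hvc k]
          exact hφ hjk
        linarith
      have a1 := hlen 0 1 2 (by decide) (by decide)
      have a2 := hlen 2 3 4 (by decide) (by decide)
      obtain ⟨k0, k1, e0, e1, hk01, hk1N, hc0, hc1, hl0, hl1⟩ :=
        XShort.hull I_CELL K b M m R F ec D D' ρ L E E4 X4 U c f u u' rm rp S x hx
          (hxx'.trans hx'm) (v 0) (hvE 0)
      have hpos : 0 < tb K b f u' - ta K b f u := by
        have := K.t_lt k0 k1 hk01 hk1N
        linarith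
      have b1 := (abs_le.1 (mem_filter.1 (hv 0)).2).1
      have b2 := (abs_le.1 (mem_filter.1 (hv 4)).2).2
      have c1 : (K.t (v 4) - ta K b f u) / (tb K b f u' - ta K b f u) -
          (K.t (v 0) - ta K b f u) / (tb K b f u' - ta K b f u) =
          (K.t (v 4) - K.t (v 0)) / (tb K b f u' - ta K b f u) := by ring
      have c2 : (K.t (v 4) - K.t (v 0)) / (tb K b f u' - ta K b f u) ≤ 2 * δ := by linarith
      rw [div_le_iff₀ hpos] at c2
      linarith
    have hsum : (T'.card : ℝ) = ∑ w ∈ T'.image (cell K b (R * x)),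
        ((T'.filter (fun v => cell K b (R * x) v = w)).card : ℝ) := by
      have := card_eq_sum_card_image (cell K b (R * x)) T'
      exact_mod_cast this
    rw [hsum]
    calc ∑ w ∈ T'.image (cell K b (R * x)),
        ((T'.filter (fun v => cell K b (R * x) v = w)).card : ℝ)
        ≤ ∑ w ∈ T'.image (cell K b (R * x)), D * (b : ℝ) ^ (R * (x' - x)) := sum_le_sum hone
      _ = (T'.image (cell K b (R * x))).card * (D * (b : ℝ) ^ (R * (x' - x))) := by
          rw [sum_const, nsmul_eq_mul]
      _ ≤ 4 * (D * (b : ℝ) ^ (R * (x' - x))) := by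
          apply mul_le_mul_of_nonneg_right _ (by positivity)
          exact_mod_cast hfew
      _ = 4 * D * (b : ℝ) ^ (R * (x' - x)) := by ring

end Pool.Agent.Work.MP_e17eac_co.HS
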