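import Pool.Agent.Work.MP_e17eac_co.HS.StG2
import Pool.Agent.Work.MP_e17eac_co.Bd.B31

/-!
# HS, block G: a line with the labels of two edges, one in each base cell (item TWOH)
-/

set_option autoImplicit false

namespace Pool.Agent.Work.MP_e17eac_co.HS

open Finset
open Pool.Agent.Work.MP_e17eac_co.DH
open Pool.Agent.Work.MP_e17eac_co.B1

namespace XTwoH

section

variable {ι : Type} [Fintype ι] [DecidableEq ι]

theorem t_mono (K : KSys ι) {i j : ℕ} (hij : i ≤ j) (hj : j < K.N) : K.t i ≤ K.t j := by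
  rcases hij.lt_or_eq with h | h
  · exact (K.t_lt i j h hj).le
  · rw [h]

theorem ta_le (K : KSys ι) (b x c : ℕ) {i : ℕ} (hi : i < K.N) (hc : cell K b x i = c) :
    ta K b x c ≤ K.t i := by
  unfold ta
  exact t_mono K (Nat.sInf_le hc) hi

theorem le_tb (K : KSys ι) (b x c : ℕ) {i : ℕ} (hi : i < K.N) (hc : cell K b x i = c) :
    K.t i ≤ tb K b x c := by
  have hmem : i ∈ ce K b x c := mem_filter.mpr ⟨mem_range.mpr hi, hc⟩
  obtain ⟨s, hs, hsup⟩ := exists_mem_eq_sup (ce K b x c) ⟨i, hmem⟩ id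
  unfold tb
  rw [hsup]
  have h1 : i ≤ (ce K b x c).sup id := le_sup (f := id) hmem
  rw [hsup] at h1
  exact t_mono K h1 (mem_range.mp (mem_filter.mp hs).1)

/-- Edges in an earlier cell come first. -/
theorem t_cell (K : KSys ι) {b x : ℕ} (hb : 1 ≤ b) {i j : ℕ} (hj : j < K.N)
    (h : cell K b x i < cell K b x j) : i < j ∧ K.t i < K.t j := by
  obtain ⟨-, hmono, -⟩ := I_CELL ι K b x hb
  have h1 : i < j := by
    by_contra hh
    push Not at hh
    have := hmono j i hh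
    omega
  exact ⟨h1, K.t_lt i j h1 hj⟩

theorem cell_coarse (K : KSys ι) {b z x : ℕ} (hb : 1 ≤ b) (hz : z ≤ x) {i j : ℕ}
    (h : cell K b x i = cell K b x j) : cell K b z i = cell K b z j := by
  obtain ⟨-, -, hnest, -⟩ := I_CELL ι K b x hb
  rw [hnest z hz i, hnest z hz j, h]

/-- Edges in the child cell of `i` lie in the hull of `i`. -/
theorem in_hull (K : KSys ι) {b e ec : ℕ} {D : ℝ} {E : Finset ℕ} {U : ι → ℕ → ℕ × ℕ}
    (hb : 1 ≤ b) (h : TwoP K b e ec D E U) (hN : 0 < K.N) (hlt : ∀ i ∈ E, i < K.N) {i : ℕ}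
    (hi : i ∈ E) {k : ℕ} (hk : k < K.N) (hc : cell K b ec k = cell K b ec i) :
    g0 K b e ec U i ≤ K.t k ∧ K.t k ≤ g1 K b e ec U i := by
  have hNR : (0 : ℝ) < K.N := by exact_mod_cast hN
  have key : ∀ v : ℕ, (K.N : ℝ) ≤ D * (Fintype.card ι * (b : ℝ) ^ e) *
      (((EE K b e E i).filter (fun i' => cell K b ec i' = v)).card : ℝ) →
      ∃ j, j ∈ E ∧ cell K b ec j = v := by
    intro v hv
    have hne : ((EE K b e E i).filter (fun i' => cell K b ec i' = v)).Nonempty := by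
      rw [← card_pos]
      by_contra h0
      have h1 : ((EE K b e E i).filter (fun i' => cell K b ec i' = v)).card = 0 := by omega
      rw [h1] at hv
      simp at hv
      omega
    obtain ⟨j, hj⟩ := hne
    rw [mem_filter, EE, mem_filter] at hj
    exact ⟨j, hj.1.1, hj.2⟩
  obtain ⟨j1, hj1, hj1c⟩ := key _ (h.ql i hi)
  obtain ⟨j2, hj2, hj2c⟩ := key _ (h.qr i hi)
  have hlt12 := h.lt i hi
  unfold g0 g1
  rcases h.mem i hi with hm | hm
  · have hkc : cell K b ec k = (U (K.a i) (cell K b e i)).1 := hc.trans hm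
    refine ⟨ta_le K b ec _ hk hkc, ?_⟩
    have h1 : K.t k < K.t j2 := (t_cell K hb (hlt j2 hj2) (by rw [hkc, hj2c]; exact hlt12)).2
    exact h1.le.trans (le_tb K b ec _ (hlt j2 hj2) hj2c)
  · have hkc : cell K b ec k = (U (K.a i) (cell K b e i)).2 := hc.trans hm
    refine ⟨?_, le_tb K b ec _ hk hkc⟩
    have h1 : K.t j1 < K.t k := (t_cell K hb hk (by rw [hkc, hj1c]; exact hlt12)).2
    exact (ta_le K b ec _ (hlt j1 hj1) hj1c).trans h1.le

end

/-- The affine estimate. -/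
theorem aff {A B τ1 τ2 t ρ1 ρ2 il lam b : ℝ} (hb : 0 < b) (hil : 0 < il)
    (h1 : |A + B * τ1| ≤ ρ1) (h2 : |A + B * τ2| ≤ ρ2) (h12 : il ≤ b * |τ1 - τ2|)
    (ht : |t - τ1| ≤ lam * il) : |A + B * t| ≤ ρ1 + b * (ρ1 + ρ2) * lam := by
  have h3 : |B| * |τ1 - τ2| ≤ ρ1 + ρ2 := by
    rw [← abs_mul]
    have e : B * (τ1 - τ2) = (A + B * τ1) - (A + B * τ2) := by ring
    rw [e]
    exact (abs_sub _ _).trans (add_le_add h1 h2)
  have h4 : |B| * il ≤ b * (ρ1 + ρ2) := by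
    calc |B| * il ≤ |B| * (b * |τ1 - τ2|) := by gcongr
      _ = b * (|B| * |τ1 - τ2|) := by ring
      _ ≤ b * (ρ1 + ρ2) := by gcongr
  have hlam : 0 ≤ lam := by
    by_contra hh
    push Not at hh
    have : lam * il < 0 := mul_neg_of_neg_of_pos hh hil
    have := abs_nonneg (t - τ1)
    linarith
  have e : A + B * t = (A + B * τ1) + B * (t - τ1) := by ring
  rw [e]
  calc |(A + B * τ1) + B * (t - τ1)| ≤ |A + B * τ1| + |B * (t - τ1)| := abs_add_le _ _
    _ = |A + B * τ1| + |B| * |t - τ1| := by rw [abs_mul]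
    _ ≤ ρ1 + |B| * (lam * il) := by gcongr
    _ = ρ1 + |B| * il * lam := by ring
    _ ≤ ρ1 + b * (ρ1 + ρ2) * lam := by gcongr

end XTwoH

open XTwoH in
theorem I_TwoH : StTwoH := by
  intro ι α _ _ _ K b M m R F ec D D' ρ L E E4 X4 U c f u u' rm rp h i1 hi1 i2 hi2 ha hne z1 z2
    hz1 hz1m hz2 hz2m q hq1 hq2 ρ1 ρ2 hρ1 hρ2
  have hb2 : 2 ≤ b := h.ls.lev.two
  have hb1 : 1 ≤ b := by omega
  have hb0 : (0 : ℝ) < b := by exact_mod_cast (by omega : 0 < b)
  have hN := h.ls.npos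
  have hlt : ∀ i ∈ E4, i < K.N := fun i hi => (h.ls.hyg i (h.sub hi)).lt
  have hex : ∀ y, ex R F (2 * y) = R * y := by
    intro y
    unfold ex
    have h1 : 2 * y / 2 = y := by omega
    have h2 : 2 * y % 2 = 0 := by omega
    rw [h1, h2]; ring
  -- the two labels
  have lb : ∀ z, 1 ≤ z → z ≤ m → ∀ i ∈ E4, ∀ q ∈ NN K E4 (L.lab (2 * z)) i,
      |K.ht q (L.h0 (L.lab (2 * z) i)) - K.ht (K.a i) (L.h0 (L.lab (2 * z) i))| ≤
        L.rho (L.lab (2 * z) i) ∧
      ∃ k l, k < K.N ∧ l < K.N ∧ cell K b (R * z) k = cell K b (R * z) i ∧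
        cell K b (R * z) l = cell K b (R * z) i ∧ K.t k ≤ L.h0 (L.lab (2 * z) i) ∧
        L.h0 (L.lab (2 * z) i) ≤ K.t l := by
    intro z hz hzm i hi q hq
    have hle : 2 * z ≤ 2 * m + 1 := by omega
    unfold NN at hq
    rw [mem_image] at hq
    obtain ⟨j, hj, rfl⟩ := hq
    rw [mem_filter] at hj
    constructor
    · have c1 := (h.ls.cls (2 * z) hle j (h.sub hj.1)).1
      have c2 := (h.ls.cls (2 * z) hle i (h.sub hi)).1
      rw [hj.2] at c1
      have e : K.ht (K.a j) (L.h0 (L.lab (2 * z) i)) - K.ht (K.a i) (L.h0 (L.lab (2 * z) i)) =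
          (K.ht (K.a j) (L.h0 (L.lab (2 * z) i)) - L.c0 (L.lab (2 * z) i)) -
          (K.ht (K.a i) (L.h0 (L.lab (2 * z) i)) - L.c0 (L.lab (2 * z) i)) := by ring
      rw [e]
      have := abs_sub (K.ht (K.a j) (L.h0 (L.lab (2 * z) i)) - L.c0 (L.lab (2 * z) i))
        (K.ht (K.a i) (L.h0 (L.lab (2 * z) i)) - L.c0 (L.lab (2 * z) i))
      linarith
    · obtain ⟨k, l, hk, hl, hkc, hlc, hkt, hlt'⟩ := h.ls.span (2 * z) hle i (h.sub hi)
      rw [hex] at hkc hlc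
      have := h.ls.lt (2 * z) hle i (h.sub hi)
      exact ⟨k, l, hk, hl, hkc, hlc, hkt, by linarith⟩
  obtain ⟨f1, k1, l1, hk1, hl1, hk1c, hl1c, hk1t, hl1t⟩ := lb z1 hz1 hz1m i1 hi1 q hq1
  obtain ⟨f2, k2, l2, hk2, hl2, hk2c, hl2c, hk2t, hl2t⟩ := lb z2 hz2 hz2m i2 hi2 q hq2
  set τ1 := L.h0 (L.lab (2 * z1) i1) with hτ1
  set τ2 := L.h0 (L.lab (2 * z2) i2) with hτ2
  have hfR1 : f ≤ R * z1 := h.fR.1.trans (Nat.le_mul_of_pos_right _ hz1)
  have hfR2 : f ≤ R * z2 := h.fR.1.trans (Nat.le_mul_of_pos_right _ hz2)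
  have ck1 := cell_coarse K hb1 hfR1 hk1c
  have cl1 := cell_coarse K hb1 hfR1 hl1c
  have ck2 := cell_coarse K hb1 hfR2 hk2c
  have cl2 := cell_coarse K hb1 hfR2 hl2c
  -- the base interval
  set T0 := ta K b f u with hT0
  set T1 := tb K b f u' with hT1
  have hgap := h.rt.gap
  have hbase : ∀ j1 j2, j1 < K.N → j2 < K.N → cell K b f j1 = u → cell K b f j2 = u' →
      T0 ≤ K.t j1 ∧ K.t j1 ≤ tb K b f u ∧ ta K b f u' ≤ K.t j2 ∧ K.t j2 ≤ T1 ∧ K.t j1 < K.t j2 :=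
    fun j1 j2 hj1 hj2 hc1 hc2 => ⟨ta_le K b f u hj1 hc1, le_tb K b f u hj1 hc1,
      ta_le K b f u' hj2 hc2, le_tb K b f u' hj2 hc2,
      (t_cell K hb1 hj2 (by rw [hc1, hc2]; exact h.rt.lt)).2⟩
  have main : 0 < T1 - T0 ∧ T1 - T0 ≤ b * |τ1 - τ2| ∧ T0 ≤ τ1 ∧ τ1 ≤ T1 := by
    rcases h.rt.mem i1 hi1 with hu1 | hu1
    · have hu2 : cell K b f i2 = u' := by
        rcases h.rt.mem i2 hi2 with hu2 | hu2
        · exact absurd (hu1.trans hu2.symm) hne
        · exact hu2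
      obtain ⟨a1, a2, a3, a4, a5⟩ := hbase k1 k2 hk1 hk2 (ck1.trans hu1) (ck2.trans hu2)
      obtain ⟨b1, b2, b3, b4, b5⟩ := hbase l1 l2 hl1 hl2 (cl1.trans hu1) (cl2.trans hu2)
      have c1 : 0 < T1 - T0 := by linarith
      have c2 : 0 < ta K b f u' - tb K b f u := by
        by_contra hh
        push Not at hh
        have : (b : ℝ) * (ta K b f u' - tb K b f u) ≤ 0 :=
          mul_nonpos_of_nonneg_of_nonpos hb0.le hh
        linarith
      refine ⟨c1, ?_, by linarith, by linarith⟩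
      refine hgap.trans (mul_le_mul_of_nonneg_left ?_ hb0.le)
      rw [abs_sub_comm]
      refine le_trans ?_ (le_abs_self _)
      linarith
    · have hu2 : cell K b f i2 = u := by
        rcases h.rt.mem i2 hi2 with hu2 | hu2
        · exact hu2
        · exact absurd (hu1.trans hu2.symm) hne
      obtain ⟨a1, a2, a3, a4, a5⟩ := hbase k2 k1 hk2 hk1 (ck2.trans hu2) (ck1.trans hu1)
      obtain ⟨b1, b2, b3, b4, b5⟩ := hbase l2 l1 hl2 hl1 (cl2.trans hu2) (cl1.trans hu1)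
      have c1 : 0 < T1 - T0 := by linarith
      have c2 : 0 < ta K b f u' - tb K b f u := by
        by_contra hh
        push Not at hh
        have : (b : ℝ) * (ta K b f u' - tb K b f u) ≤ 0 :=
          mul_nonpos_of_nonneg_of_nonpos hb0.le hh
        linarith
      refine ⟨c1, ?_, by linarith, by linarith⟩
      refine hgap.trans (mul_le_mul_of_nonneg_left ?_ hb0.le)
      refine le_trans ?_ (le_abs_self _)
      linarith
  obtain ⟨hil, h12, hT0τ, hτT1⟩ := main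
  have F : ∀ t, K.ht q t - K.ht (K.a i1) t =
      (K.y q - K.y (K.a i1)) + (K.x q - K.x (K.a i1)) * t := by
    intro t
    unfold KSys.ht
    ring
  have g1' : |(K.y q - K.y (K.a i1)) + (K.x q - K.x (K.a i1)) * τ1| ≤ ρ1 := by
    rw [← F]
    exact f1.trans hρ1
  have g2' : |(K.y q - K.y (K.a i1)) + (K.x q - K.x (K.a i1)) * τ2| ≤ ρ2 := by
    rw [← F, ha]
    exact f2.trans hρ2
  have G : ∀ t lam : ℝ, |t - τ1| ≤ lam * (T1 - T0) →
      |K.ht q t - K.ht (K.a i1) t| ≤ ρ1 + b * (ρ1 + ρ2) * lam := by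
    intro t lam ht
    rw [F]
    exact aff hb0 hil g1' g2' h12 ht
  refine ⟨?_, ?_, ?_⟩
  · have := G T0 1 (by rw [one_mul, abs_sub_comm, abs_of_nonneg (by linarith)]; linarith)
    rwa [mul_one] at this
  · have := G T1 1 (by rw [one_mul, abs_of_nonneg (by linarith)]; linarith)
    rwa [mul_one] at this
  · intro x hx hxz t ht0 ht1
    have hxm : x ≤ m := by omega
    have hcR : R * x + c ≤ R * z1 := by
      have h1 := h.fR.2.1
      calc R * x + c ≤ R * x + R := by omega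
        _ = R * (x + 1) := by ring
        _ ≤ R * z1 := Nat.mul_le_mul_left _ hxz
    have d1 := in_hull K hb1 (h.tw x hx hxm) hN hlt hi1 hk1 (cell_coarse K hb1 hcR hk1c)
    have d2 := in_hull K hb1 (h.tw x hx hxm) hN hlt hi1 hl1 (cell_coarse K hb1 hcR hl1c)
    refine G t _ ?_
    unfold hln
    rw [div_mul_cancel₀ _ hil.ne', abs_le]
    constructor <;> linarith [d1.1, d2.2]

end Pool.Agent.Work.MP_e17eac_co.HS
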