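import Pool.Agent.Work.MP_e17eac_co.HS.AllA
import Pool.Agent.Work.MP_e17eac_co.HS.G_End
import Pool.Agent.Work.MP_e17eac_co.HS.G_Lin
import Pool.Agent.Work.MP_e17eac_co.HS.G_Cmp
import Pool.Agent.Work.MP_e17eac_co.HS.G_Pr
import Pool.Agent.Work.MP_e17eac_co.HS.G_TwoH
import Pool.Agent.Work.MP_e17eac_co.HS.G_RadC
import Pool.Agent.Work.MP_e17eac_co.HS.G_Pick
import Pool.Agent.Work.MP_e17eac_co.HS.G_RegA
import Pool.Agent.Work.MP_e17eac_co.Bd.B37

/-!
# HS: the bound for sweeps without hypotheses (second proof)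
-/

namespace Pool.Agent.Work.MP_e17eac_co.HS

theorem TG : StG :=
  I_G CFG.stCfg I_Lin I_Cmp I_Pr I_TwoH I_RadC (I_Pick I_TwoH) I_RegA

theorem tK : FINAL.StK := stK_of TG

end Pool.Agent.Work.MP_e17eac_co.HS
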