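import Pool.Agent.Work.MP_e17eac_co.Bd.B06

/-!
# Common tangents (note 2872, HS-3)

`HCross K n n'`: the line through the vertices of the edges `n < n'` supports the path of the
bottom token of `n` (half-open convention) and the path of the top token of `n'`.
-/

namespace Pool.Agent.Work.MP_e17eac_co.HS

open Finset
open Pool.Agent.Work.MP_e17eac_co.DH

/-- Half-open crossing pairs = common separating tangents. -/
def HCross {ι : Type} [Fintype ι] [DecidableEq ι] (K : KSys ι) (n n' : ℕ) : Prop :=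
  K.x (K.b n) ≤ (K.h n' - K.h n) / (K.t n' - K.t n) ∧
  (K.h n' - K.h n) / (K.t n' - K.t n) < K.x (K.a n) ∧
  K.x (K.b n') ≤ (K.h n' - K.h n) / (K.t n' - K.t n) ∧
  (K.h n' - K.h n) / (K.t n' - K.t n) < K.x (K.a n')

/-- **Uniqueness** of the common tangent. -/
def StHinj : Prop := ∀ (ι : Type) [Fintype ι] [DecidableEq ι] (K : KSys ι) (n n' k k' : ℕ),
  n < n' → n' < K.N → k < k' → k' < K.N → HCross K n n' → HCross K k k' →
  K.tokB n = K.tokB k → K.tokT n' = K.tokT k' → n = k ∧ n' = k'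

open Classical in
/-- The half-open crossing pairs in `E × F`. -/
noncomputable def hPairs {ι : Type} [Fintype ι] [DecidableEq ι] (K : KSys ι) (E F : Finset ℕ) :
    Finset (ℕ × ℕ) := (E ×ˢ F).filter (fun z => z.1 < z.2 ∧ HCross K z.1 z.2)

def StHcnt : Prop := ∀ (ι : Type) [Fintype ι] [DecidableEq ι] (K : KSys ι) (E F : Finset ℕ),
  (∀ n ∈ F, n < K.N) → ∀ X ⊆ hPairs K E F,
  X.card ≤ (X.image (fun z => K.tokB z.1)).card * (X.image (fun z => K.tokT z.2)).card

/-- **Common tangents**: `Ψ` are lines below the level at `t2` and above it by `A` at `t1`, `t3`;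
`Ψ'` are lines above the level at `t2'` and below it by `A'` at `t1'`, `t3'`; all are close to the
linear function `y0 + x0 t`. Then there are `|Ψ| |Ψ'|` common tangents. -/
def StCTg : Prop := ∀ (ι : Type) [Fintype ι] [DecidableEq ι] (K : KSys ι) (Ψ Ψ' : Finset ι)
  (x0 y0 t1 t2 t3 t1' t2' t3' A A' b b' : ℝ), t1 < t2 → t2 < t3 → t3 < t1' → t1' < t2' →
  t2' < t3' → 0 ≤ b → 0 ≤ b' →
  (∀ r ∈ Ψ, K.L t1 + A ≤ K.ht r t1 ∧ K.ht r t2 < K.L t2 ∧ K.L t3 + A ≤ K.ht r t3 ∧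
    |K.ht r t1 - (y0 + x0 * t1)| ≤ b ∧ |K.ht r t3 - (y0 + x0 * t3)| ≤ b) →
  (∀ r ∈ Ψ', K.ht r t1' + A' ≤ K.L t1' ∧ K.L t2' < K.ht r t2' ∧ K.ht r t3' + A' ≤ K.L t3' ∧
    |K.ht r t1' - (y0 + x0 * t1')| ≤ b' ∧ |K.ht r t3' - (y0 + x0 * t3')| ≤ b') →
  (b + b') * (t3 - t1) < (A - 2 * b) * (t1' - t3) →
  (b + b') * (t3' - t1') < (A' - 2 * b') * (t1' - t3) →
  ∀ E F : Finset ℕ, (∀ n, n < K.N → t1 ≤ K.t n → K.t n ≤ t3 → n ∈ E) →
  (∀ n, n < K.N → t1' ≤ K.t n → K.t n ≤ t3' → n ∈ F) →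
  Ψ.card * Ψ'.card ≤ (hPairs K E F).card

namespace XCT

variable {ι : Type} [Fintype ι] [DecidableEq ι]

theorem ht_a (K : KSys ι) (n : ℕ) (s : ℝ) :
    K.ht (K.a n) s = K.h n + K.x (K.a n) * (s - K.t n) := by
  unfold KSys.h KSys.ht
  ring

theorem ht_b (K : KSys ι) {n : ℕ} (hn : n < K.N) (s : ℝ) :
    K.ht (K.b n) s = K.h n + K.x (K.b n) * (s - K.t n) := by
  have := K.meet n hn
  unfold KSys.h KSys.ht
  linarith

theorem t_ne (K : KSys ι) {n k : ℕ} (hn : n < K.N) (hk : k < K.N) (h : k ≠ n) :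
    K.t k < K.t n ∨ K.t n < K.t k := by
  rcases lt_or_gt_of_ne h with h | h
  · exact Or.inl (K.t_lt k n h hn)
  · exact Or.inr (K.t_lt n k h hk)

theorem low (hTouch : StTouch) (K : KSys ι) {n k : ℕ} {X : ℝ} (hn : n < K.N) (hk : k < K.N)
    (hB : K.tokB n = K.tokB k) (h1 : K.x (K.b n) ≤ X) (h2 : X < K.x (K.a n)) :
    K.h k ≤ K.h n + X * (K.t k - K.t n) ∧
      (K.t k < K.t n → K.h k < K.h n + X * (K.t k - K.t n)) := by
  have ha := (hTouch ι K n k false hn hk).1 hB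
  have hb := (hTouch ι K n k true hn hk).1 hB
  change K.h k ≤ K.ht (K.a n) (K.t k) at ha
  change K.h k ≤ K.ht (K.b n) (K.t k) at hb
  rw [ht_a] at ha
  rw [ht_b K hn] at hb
  have key : K.t k < K.t n → K.h k < K.h n + X * (K.t k - K.t n) := by
    intro h
    have : 0 < (K.x (K.a n) - X) * (K.t n - K.t k) := mul_pos (by linarith) (by linarith)
    nlinarith
  refine ⟨?_, key⟩
  rcases lt_or_ge (K.t k) (K.t n) with h | h
  · exact (key h).le
  · have : 0 ≤ (X - K.x (K.b n)) * (K.t k - K.t n) := mul_nonneg (by linarith) (by linarith)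
    nlinarith

theorem high (hTouch : StTouch) (K : KSys ι) {n k : ℕ} {X : ℝ} (hn : n < K.N) (hk : k < K.N)
    (hB : K.tokT n = K.tokT k) (h1 : K.x (K.b n) ≤ X) (h2 : X < K.x (K.a n)) :
    K.h n + X * (K.t k - K.t n) ≤ K.h k ∧
      (K.t n < K.t k → K.h n + X * (K.t k - K.t n) < K.h k) := by
  have ha := (hTouch ι K n k false hn hk).2 hB
  have hb := (hTouch ι K n k true hn hk).2 hB
  change K.ht (K.a n) (K.t k) ≤ K.h k at ha
  change K.ht (K.b n) (K.t k) ≤ K.h k at hb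
  rw [ht_a] at ha
  rw [ht_b K hn] at hb
  have key : K.t n < K.t k → K.h n + X * (K.t k - K.t n) < K.h k := by
    intro h
    have : 0 < (K.x (K.a n) - X) * (K.t k - K.t n) := mul_pos (by linarith) (by linarith)
    nlinarith
  refine ⟨?_, key⟩
  rcases lt_or_ge (K.t n) (K.t k) with h | h
  · exact (key h).le
  · have : 0 ≤ (X - K.x (K.b n)) * (K.t n - K.t k) := mul_nonneg (by linarith) (by linarith)
    nlinarith

end XCT

theorem I_Hinj (hTouch : StTouch) : StHinj := by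
  intro ι _ _ K n n' k k' hnn hn' hkk hk' hc1 hc2 hB hT
  have hn : n < K.N := hnn.trans hn'
  have hk : k < K.N := hkk.trans hk'
  obtain ⟨a1, a2, a3, a4⟩ := hc1
  obtain ⟨b1, b2, b3, b4⟩ := hc2
  have ht1 : 0 < K.t n' - K.t n := by have := K.t_lt n n' hnn hn'; linarith
  have ht2 : 0 < K.t k' - K.t k := by have := K.t_lt k k' hkk hk'; linarith
  obtain ⟨X1, hX1⟩ : ∃ X, X = (K.h n' - K.h n) / (K.t n' - K.t n) := ⟨_, rfl⟩
  obtain ⟨X2, hX2⟩ : ∃ X, X = (K.h k' - K.h k) / (K.t k' - K.t k) := ⟨_, rfl⟩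
  rw [← hX1] at a1 a2 a3 a4
  rw [← hX2] at b1 b2 b3 b4
  have e1 : K.h n' = K.h n + X1 * (K.t n' - K.t n) := by
    rw [hX1, div_mul_cancel₀ _ ht1.ne']; ring
  have e2 : K.h k' = K.h k + X2 * (K.t k' - K.t k) := by
    rw [hX2, div_mul_cancel₀ _ ht2.ne']; ring
  obtain ⟨c1, c1'⟩ := XCT.low hTouch K hn hk hB a1 a2
  obtain ⟨c2, c2'⟩ := XCT.low hTouch K hk hn hB.symm b1 b2
  obtain ⟨c3, c3'⟩ := XCT.high hTouch K hn' hk' hT a3 a4
  obtain ⟨c4, c4'⟩ := XCT.high hTouch K hk' hn' hT.symm b3 b4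
  have s1 : X2 ≤ X1 := by
    by_contra h
    push Not at h
    have := mul_pos (sub_pos.2 h) ht1
    nlinarith
  have s2 : X1 ≤ X2 := by
    by_contra h
    push Not at h
    have := mul_pos (sub_pos.2 h) ht2
    nlinarith
  have s3 : X1 = X2 := le_antisymm s2 s1
  subst s3
  have e3 : K.h k = K.h n + X1 * (K.t k - K.t n) := by
    apply le_antisymm c1
    linarith
  constructor
  · by_contra h
    rcases XCT.t_ne K hn hk (fun h' => h h'.symm) with h' | h'
    · have := c1' h'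
      linarith
    · have := c2' h'
      linarith
  · by_contra h
    rcases XCT.t_ne K hn' hk' (fun h' => h h'.symm) with h' | h'
    · have := c4' h'
      rw [e1, e2] at this
      nlinarith
    · have := c3' h'
      rw [e1, e2] at this
      nlinarith

theorem I_Hcnt (h : StHinj) : StHcnt := by
  classical
  intro ι _ _ K E F hF X hX
  rw [← card_product]
  apply card_le_card_of_injOn (fun z => (K.tokB z.1, K.tokT z.2))
  · intro z hz
    simp only [coe_product, Set.mem_prod, mem_coe]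
    exact ⟨mem_image_of_mem _ hz, mem_image_of_mem _ hz⟩
  · intro z hz w hw hzw
    simp only [Prod.mk.injEq] at hzw
    have h1 := hX hz
    have h2 := hX hw
    rw [hPairs, mem_filter, mem_product] at h1 h2
    have := h ι K z.1 z.2 w.1 w.2 h1.2.1 (hF _ h1.1.2) h2.2.1 (hF _ h2.1.2) h1.2.2 h2.2.2
      hzw.1 hzw.2
    exact Prod.ext this.1 this.2

namespace XCT

/-- Output of the analysis of one bottom path. -/
structure Arc (h t xa xb : ℕ → ℝ) (V : Finset ℕ) (lo hi xr yr t2 : ℝ) : Prop where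
  up : ∀ n ∈ V, h n ≤ yr + xr * t n
  top : ∀ ξ, lo < ξ → ξ < hi → ∃ n ∈ V, yr + (xr - ξ) * t2 ≤ h n - ξ * t n
  prev : ∀ n ∈ V, xa n < hi → ∃ m ∈ V, m < n ∧ h m = h n - xa n * (t n - t m)
  next : ∀ n ∈ V, lo < xb n → ∃ m ∈ V, n < m ∧ h m = h n + xb n * (t m - t n)

theorem exists_next {α : Type} (f : ℕ → α) (i : ℕ) : ∀ j, i ≤ j → f j ≠ f i →
    ∃ m, i ≤ m ∧ m < j ∧ f m = f i ∧ f (m + 1) ≠ f i := by
  classical
  intro j hij
  induction j, hij using Nat.le_induction with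
  | base => intro h; exact absurd rfl h
  | succ j hij ih =>
    intro h
    by_cases h' : f j = f i
    · exact ⟨j, hij, Nat.lt_succ_self j, h', h⟩
    · obtain ⟨m, h1, h2, h3, h4⟩ := ih h'
      exact ⟨m, h1, by omega, h3, h4⟩

theorem exists_prev {α : Type} (f : ℕ → α) (i : ℕ) : ∀ j, i ≤ j → f i ≠ f j →
    ∃ m, i ≤ m ∧ m < j ∧ f m ≠ f j ∧ f (m + 1) = f j := by
  classical
  intro j hij
  induction j, hij using Nat.le_induction with
  | base => intro h; exact absurd rfl h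
  | succ j hij ih =>
    intro h
    by_cases h' : f j = f (j + 1)
    · rw [← h'] at h ⊢
      obtain ⟨m, h1, h2, h3, h4⟩ := ih h
      exact ⟨m, h1, by omega, h3, h4⟩
    · exact ⟨j, hij, Nat.lt_succ_self j, h', rfl⟩

variable {ι : Type} [Fintype ι] [DecidableEq ι]

theorem step (hTok : StTok) (K : KSys ι) {m : ℕ} (hm : m < K.N) {β : ι} (hβ : β ∈ K.S 0)
    (h : K.pos (m + 1) β ≠ K.pos m β) :
    K.tokB m = β ∧ K.a m = K.pos m β ∧ K.b m = K.pos (m + 1) β := by
  obtain ⟨h1, h2, h3, h4, h5, h6, h7⟩ := hTok ι K m hm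
  have hT : β ≠ K.tokT m := by rintro rfl; exact h2 hβ
  have hB : β = K.tokB m := by
    by_contra hB
    exact h (h7 β hB hT)
  subst hB
  exact ⟨rfl, h3.symm, h4.symm⟩

/-- analysis of one bottom path -/
theorem arc (hPos : StPos) (hTok : StTok) (hPath : StPath) (hLeq : StLeq) (K : KSys ι)
    {n1 n2 n3 : ℕ} {t1 t2 t3 A : ℝ} {β : ι} (hβ : β ∈ K.S 0) (h12 : n1 ≤ n2) (h23 : n2 ≤ n3)
    (v1 : K.Valid n1 t1) (v2 : K.Valid n2 t2) (v3 : K.Valid n3 t3) (ht12 : t1 < t2)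
    (ht23 : t2 < t3) (hL1 : K.L t1 + A ≤ K.ht (K.pos n2 β) t1)
    (hL3 : K.L t3 + A ≤ K.ht (K.pos n2 β) t3) :
    Arc K.h K.t (fun n => K.x (K.a n)) (fun n => K.x (K.b n))
      ((range K.N).filter (fun n => n1 ≤ n ∧ n < n3 ∧ K.tokB n = β))
      (K.x (K.pos n3 β)) (K.x (K.pos n1 β)) (K.x (K.pos n2 β)) (K.y (K.pos n2 β)) t2 ∧
    ∀ ξ, |ξ - K.x (K.pos n2 β)| * (t3 - t1) < A →
      K.x (K.pos n3 β) < ξ ∧ ξ < K.x (K.pos n1 β) := by
  have hN : n3 ≤ K.N := v3.1
  have hlow : ∀ n s, n ≤ K.N → K.Valid n s → K.ht (K.pos n β) s ≤ K.L s := by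
    intro n s hn hv
    have h1 : K.pos n β ∈ K.S n := by
      rw [hPos ι K n hn]
      simpa using hβ
    exact K.below n hn s hv.2.1 hv.2.2 _ h1
  have e1 := hlow n1 t1 (by omega) v1
  have e3 := hlow n3 t3 hN v3
  have p1 := (hPath ι K n1 n2 t1 t2 β hβ h12 v1 v2 ht12.le).1
  have p3 := (hPath ι K n2 n3 t2 t3 β hβ h23 v2 v3 ht23.le).2.2.1
  have q1 : K.x (K.pos n2 β) * (t2 - t1) + A ≤ K.x (K.pos n1 β) * (t2 - t1) := by
    unfold KSys.ht at *
    linarith
  have q3 : K.x (K.pos n3 β) * (t3 - t2) ≤ K.x (K.pos n2 β) * (t3 - t2) - A := by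
    unfold KSys.ht at *
    linarith
  refine ⟨⟨?_, ?_, ?_, ?_⟩, ?_⟩
  · -- up
    intro n hn
    rw [mem_filter, mem_range] at hn
    obtain ⟨hnN, hn1, hn3, hB⟩ := hn
    obtain ⟨l1, l2, l3, l4, l5⟩ := hLeq ι K n hnN
    have ha : K.pos n β = K.a n := by rw [← hB]; exact (hTok ι K n hnN).2.2.1
    have goal : K.ht (K.pos n β) (K.t n) ≤ K.ht (K.pos n2 β) (K.t n) := by
      rcases Nat.lt_or_ge n n2 with h | h
      · exact (hPath ι K n n2 (K.t n) t2 β hβ h.le l4 v2 (v2.2.1 n h)).2.2.1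
      · exact (hPath ι K n2 n t2 (K.t n) β hβ h v2 l4 (v2.2.2 n h hnN)).1
    rw [ha, l2] at goal
    unfold KSys.ht at goal
    exact goal
  · -- top
    intro ξ hlo hhi
    rcases le_or_gt ξ (K.x (K.pos n2 β)) with h | h
    · have hne : K.pos n3 β ≠ K.pos n2 β := by
        intro h'
        rw [h'] at hlo
        linarith
      obtain ⟨m, m1, m2, m3, m4⟩ := exists_next (fun n => K.pos n β) n2 n3 h23 hne
      have hmN : m < K.N := by omega
      have m5 : K.pos (m + 1) β ≠ K.pos m β := by rw [m3]; exact m4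
      obtain ⟨s1, s2, s3⟩ := step hTok K hmN hβ m5
      refine ⟨m, ?_, ?_⟩
      · rw [mem_filter, mem_range]
        exact ⟨hmN, by omega, m2, s1⟩
      · have ht : t2 ≤ K.t m := v2.2.2 m m1 hmN
        have hh : K.h m = K.y (K.pos n2 β) + K.x (K.pos n2 β) * K.t m := by
          have := (hLeq ι K m hmN).2.1
          rw [← this, s2, m3]
          rfl
        rw [hh]
        have := mul_le_mul_of_nonneg_left ht (sub_nonneg.2 h)
        linarith
    · have hne : K.pos n1 β ≠ K.pos n2 β := by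
        intro h'
        rw [h'] at hhi
        linarith
      obtain ⟨m, m1, m2, m3, m4⟩ := exists_prev (fun n => K.pos n β) n1 n2 h12 hne
      have hmN : m < K.N := by omega
      have m5 : K.pos (m + 1) β ≠ K.pos m β := by rw [m4]; exact m3.symm
      obtain ⟨s1, s2, s3⟩ := step hTok K hmN hβ m5
      refine ⟨m, ?_, ?_⟩
      · rw [mem_filter, mem_range]
        exact ⟨hmN, by omega, by omega, s1⟩
      · have ht : K.t m ≤ t2 := v2.2.1 m m2
        have hh : K.h m = K.y (K.pos n2 β) + K.x (K.pos n2 β) * K.t m := by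
          have := (hLeq ι K m hmN).2.2.1
          rw [← this, s3, m4]
          rfl
        rw [hh]
        have := mul_le_mul_of_nonneg_left ht (sub_nonneg.2 h.le)
        linarith
  · -- prev
    intro n hn hlt
    rw [mem_filter, mem_range] at hn
    obtain ⟨hnN, hn1, hn3, hB⟩ := hn
    have ha : K.pos n β = K.a n := by rw [← hB]; exact (hTok ι K n hnN).2.2.1
    have hne : K.pos n1 β ≠ K.pos n β := by
      intro h'
      rw [h', ha] at hlt
      exact lt_irrefl _ hlt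
    obtain ⟨m, m1, m2, m3, m4⟩ := exists_prev (fun n => K.pos n β) n1 n hn1 hne
    have hmN : m < K.N := by omega
    have m5 : K.pos (m + 1) β ≠ K.pos m β := by rw [m4]; exact m3.symm
    obtain ⟨s1, s2, s3⟩ := step hTok K hmN hβ m5
    refine ⟨m, ?_, m2, ?_⟩
    · rw [mem_filter, mem_range]
      exact ⟨hmN, m1, by omega, s1⟩
    · have := (hLeq ι K m hmN).2.2.1
      rw [← this, s3, m4]
      change K.ht (K.pos n β) (K.t m) = _
      rw [ha, ht_a]
      ring
  · -- next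
    intro n hn hlt
    rw [mem_filter, mem_range] at hn
    obtain ⟨hnN, hn1, hn3, hB⟩ := hn
    have hb : K.pos (n + 1) β = K.b n := by rw [← hB]; exact (hTok ι K n hnN).2.2.2.1
    have hne : K.pos n3 β ≠ K.pos (n + 1) β := by
      intro h'
      rw [h', hb] at hlt
      exact lt_irrefl _ hlt
    obtain ⟨m, m1, m2, m3, m4⟩ := exists_next (fun n => K.pos n β) (n + 1) n3 (by omega) hne
    have hmN : m < K.N := by omega
    have m5 : K.pos (m + 1) β ≠ K.pos m β := by rw [m3]; exact m4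
    obtain ⟨s1, s2, s3⟩ := step hTok K hmN hβ m5
    refine ⟨m, ?_, by omega, ?_⟩
    · rw [mem_filter, mem_range]
      exact ⟨hmN, by omega, m2, s1⟩
    · have := (hLeq ι K m hmN).2.1
      rw [← this, s2, m3]
      change K.ht (K.pos (n + 1) β) (K.t m) = _
      rw [hb, ht_b K hnN]
  · intro ξ hξ
    have hA : 0 ≤ |ξ - K.x (K.pos n2 β)| * (t3 - t1) :=
      mul_nonneg (abs_nonneg _) (by linarith)
    constructor
    · by_contra hc
      push Not at hc
      -- ξ ≤ x(pos n3) : (x2 - ξ)(t3-t2) ≥ (x2 - x3)(t3-t2) ≥ A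
      have a1 : A ≤ (K.x (K.pos n2 β) - ξ) * (t3 - t2) := by
        have := mul_le_mul_of_nonneg_right hc (show (0:ℝ) ≤ t3 - t2 by linarith)
        linarith
      have a2 : (K.x (K.pos n2 β) - ξ) * (t3 - t2) ≤ |ξ - K.x (K.pos n2 β)| * (t3 - t2) :=
        mul_le_mul_of_nonneg_right (by rw [abs_sub_comm]; exact le_abs_self _) (by linarith)
      have a3 : |ξ - K.x (K.pos n2 β)| * (t3 - t2) ≤ |ξ - K.x (K.pos n2 β)| * (t3 - t1) :=
        mul_le_mul_of_nonneg_left (by linarith) (abs_nonneg _)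
      linarith
    · by_contra hc
      push Not at hc
      have a1 : A ≤ (ξ - K.x (K.pos n2 β)) * (t2 - t1) := by
        have := mul_le_mul_of_nonneg_right hc (show (0:ℝ) ≤ t2 - t1 by linarith)
        linarith
      have a2 : (ξ - K.x (K.pos n2 β)) * (t2 - t1) ≤ |ξ - K.x (K.pos n2 β)| * (t2 - t1) :=
        mul_le_mul_of_nonneg_right (le_abs_self _) (by linarith)
      have a3 : |ξ - K.x (K.pos n2 β)| * (t2 - t1) ≤ |ξ - K.x (K.pos n2 β)| * (t3 - t1) :=
        mul_le_mul_of_nonneg_left (by linarith) (abs_nonneg _)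
      linarith

/-- The discrete common tangent of a bottom arc and a later top arc. -/
theorem tangent {h t xa xb : ℕ → ℝ} {V V' : Finset ℕ} {lo hi xr yr t2 lo' hi' xr' yr' t2' : ℝ}
    (hA : Arc h t xa xb V lo hi xr yr t2)
    (hup : ∀ n ∈ V', yr' + xr' * t n ≤ h n)
    (htop : ∀ ξ, lo' < ξ → ξ < hi' → ∃ n ∈ V', h n - ξ * t n ≤ yr' + (xr' - ξ) * t2')
    (hprev : ∀ n ∈ V', lo' < xb n → ∃ m ∈ V', m < n ∧ h m = h n - xb n * (t n - t m))
    (hnext : ∀ n ∈ V', xa n < hi' → ∃ m ∈ V', n < m ∧ h m = h n + xa n * (t m - t n))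
    {x0 y0 b b' R t1 t3 t1' t3' : ℝ} (hR : 0 < R) (hb : 0 ≤ b) (hb' : 0 ≤ b')
    (hV : ∀ n ∈ V, t1 ≤ t n ∧ t n ≤ t3) (hV' : ∀ n ∈ V', t1' ≤ t n ∧ t n ≤ t3')
    (hgap : R ≤ t1' - t3)
    (hcl : ∀ s, t1 ≤ s → s ≤ t3 → |yr + xr * s - (y0 + x0 * s)| ≤ b)
    (hcl' : ∀ s, t1' ≤ s → s ≤ t3' → |yr' + xr' * s - (y0 + x0 * s)| ≤ b')
    (h2 : t1 ≤ t2 ∧ t2 ≤ t3) (h2' : t1' ≤ t2' ∧ t2' ≤ t3')
    (hlo : lo < x0 - (b + b') / R) (hhi : x0 + (b + b') / R < hi)
    (hlo' : lo' < x0 - (b + b') / R) (hhi' : x0 + (b + b') / R < hi')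
    (hmono : ∀ n ∈ V, ∀ m ∈ V, n < m → t n < t m)
    (hmono' : ∀ n ∈ V', ∀ m ∈ V', n < m → t n < t m) :
    ∃ n ∈ V, ∃ n' ∈ V', xb n ≤ (h n' - h n) / (t n' - t n) ∧
      (h n' - h n) / (t n' - t n) < xa n ∧ xb n' ≤ (h n' - h n) / (t n' - t n) ∧
      (h n' - h n) / (t n' - t n) < xa n' := by
  have hbR : 0 ≤ (b + b') / R := div_nonneg (by linarith) hR.le
  obtain ⟨n0, hn0, e0⟩ := hA.top x0 (by linarith) (by linarith)
  obtain ⟨n0', hn0', e0'⟩ := htop x0 (by linarith) (by linarith)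
  have hpos : ∀ n ∈ V, ∀ n' ∈ V', R ≤ t n' - t n := by
    intro n hn n' hn'
    have := hV n hn
    have := hV' n' hn'
    linarith
  let S : ℕ × ℕ → ℝ := fun z => (h z.2 - h z.1) / (t z.2 - t z.1)
  have hS : ∀ n ∈ V, ∀ n' ∈ V', ∀ ξ : ℝ, S (n, n') ≤ ξ ↔ h n' - ξ * t n' ≤ h n - ξ * t n := by
    intro n hn n' hn' ξ
    have := hpos n hn n' hn'
    change (h n' - h n) / (t n' - t n) ≤ ξ ↔ _
    rw [div_le_iff₀ (by linarith)]
    constructor <;> intro h' <;> nlinarith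
  have hS' : ∀ n ∈ V, ∀ n' ∈ V', ∀ ξ : ℝ, ξ ≤ S (n, n') ↔ h n - ξ * t n ≤ h n' - ξ * t n' := by
    intro n hn n' hn' ξ
    have := hpos n hn n' hn'
    change ξ ≤ (h n' - h n) / (t n' - t n) ↔ _
    rw [le_div_iff₀ (by linarith)]
    constructor <;> intro h' <;> nlinarith
  have hS'' : ∀ n ∈ V, ∀ n' ∈ V', h n' - S (n, n') * t n' = h n - S (n, n') * t n := by
    intro n hn n' hn'
    exact le_antisymm ((hS n hn n' hn' _).1 le_rfl) ((hS' n hn n' hn' _).1 le_rfl)
  -- minimal slope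
  have hne : (V ×ˢ V').Nonempty := ⟨(n0, n0'), mem_product.2 ⟨hn0, hn0'⟩⟩
  obtain ⟨z0, hz0, hz0min⟩ := exists_min_image (V ×ˢ V') S hne
  have hne2 : ((V ×ˢ V').filter (fun z => S z = S z0)).Nonempty := ⟨z0, by simp [hz0]⟩
  obtain ⟨z, hz, hzmax⟩ := exists_max_image ((V ×ˢ V').filter (fun z => S z = S z0))
    (fun z => (z.2 : ℤ) - z.1) hne2
  rw [mem_filter, mem_product] at hz
  obtain ⟨⟨hz1, hz2⟩, hzS⟩ := hz
  have hmin : ∀ m ∈ V, ∀ m' ∈ V', S z ≤ S (m, m') := by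
    intro m hm m' hm'
    rw [hzS]
    exact hz0min _ (mem_product.2 ⟨hm, hm'⟩)
  have hmax : ∀ m ∈ V, ∀ m' ∈ V', S (m, m') ≤ S z → (m' : ℤ) - m ≤ z.2 - z.1 := by
    intro m hm m' hm' hle
    apply hzmax (m, m')
    rw [mem_filter, mem_product]
    exact ⟨⟨hm, hm'⟩, le_antisymm (by rw [← hzS]; exact hle) (hz0min _ (mem_product.2 ⟨hm, hm'⟩))⟩
  -- upper bound of the slope
  have hub : S z ≤ x0 + (b + b') / R := by
    refine (hmin n0 hn0 n0' hn0').trans ?_
    have c1 := abs_le.1 (hcl t2 h2.1 h2.2)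
    have c2 := abs_le.1 (hcl' t2' h2'.1 h2'.2)
    rw [hS n0 hn0 n0' hn0']
    have c3 := hpos n0 hn0 n0' hn0'
    have c4 : b + b' ≤ (b + b') / R * (t n0' - t n0) := by
      calc b + b' = (b + b') / R * R := by rw [div_mul_cancel₀ _ hR.ne']
        _ ≤ _ := mul_le_mul_of_nonneg_left c3 hbR
    nlinarith
  have hlb : x0 - (b + b') / R ≤ S z := by
    have c1 := abs_le.1 (hcl (t z.1) (hV _ hz1).1 (hV _ hz1).2)
    have c2 := abs_le.1 (hcl' (t z.2) (hV' _ hz2).1 (hV' _ hz2).2)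
    have c5 := hA.up _ hz1
    have c6 := hup _ hz2
    have := (hS' z.1 hz1 z.2 hz2 (x0 - (b + b') / R)).2 (by
      have c3 := hpos z.1 hz1 z.2 hz2
      have c4 : b + b' ≤ (b + b') / R * (t z.2 - t z.1) := by
        calc b + b' = (b + b') / R * R := by rw [div_mul_cancel₀ _ hR.ne']
          _ ≤ _ := mul_le_mul_of_nonneg_left c3 hbR
      nlinarith)
    exact this
  have hzz : h z.2 - S z * t z.2 = h z.1 - S z * t z.1 := hS'' z.1 hz1 z.2 hz2
  refine ⟨z.1, hz1, z.2, hz2, ?_, ?_, ?_, ?_⟩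
  · -- xb n ≤ ξ
    by_contra hc
    push Not at hc
    change S z < xb z.1 at hc
    obtain ⟨m, hm, hnm, hh⟩ := hA.next z.1 hz1 (by linarith)
    have h3 := hmono z.1 hz1 m hm hnm
    have h4 := hmin m hm z.2 hz2
    rw [hS' m hm z.2 hz2, hzz, hh] at h4
    have := mul_pos (sub_pos.2 hc) (sub_pos.2 h3)
    nlinarith
  · -- ξ < xa n
    by_contra hc
    push Not at hc
    change xa z.1 ≤ S z at hc
    obtain ⟨m, hm, hnm, hh⟩ := hA.prev z.1 hz1 (by linarith)
    have h3 := hmono m hm z.1 hz1 hnm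
    have h4 := hmax m hm z.2 hz2 (by
      rw [hS m hm z.2 hz2, hzz, hh]
      have := mul_nonneg (sub_nonneg.2 hc) (sub_nonneg.2 h3.le)
      nlinarith)
    have : (m : ℤ) < z.1 := by exact_mod_cast hnm
    linarith
  · -- xb n' ≤ ξ
    by_contra hc
    push Not at hc
    change S z < xb z.2 at hc
    obtain ⟨m, hm, hnm, hh⟩ := hprev z.2 hz2 (by linarith)
    have h3 := hmono' m hm z.2 hz2 hnm
    have h4 := hmin z.1 hz1 m hm
    rw [hS' z.1 hz1 m hm, ← hzz, hh] at h4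
    have := mul_pos (sub_pos.2 hc) (sub_pos.2 h3)
    nlinarith
  · -- ξ < xa n'
    by_contra hc
    push Not at hc
    change xa z.2 ≤ S z at hc
    obtain ⟨m, hm, hnm, hh⟩ := hnext z.2 hz2 (by linarith)
    have h3 := hmono' z.2 hz2 m hm hnm
    have h4 := hmax z.1 hz1 m hm (by
      rw [hS z.1 hz1 m hm, ← hzz, hh]
      have := mul_nonneg (sub_nonneg.2 hc) (sub_nonneg.2 h3.le)
      nlinarith)
    have : (z.2 : ℤ) < m := by exact_mod_cast hnm
    linarith

theorem interp {y x y0 x0 t1 t3 b s : ℝ} (h13 : t1 < t3)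
    (h1 : |y + x * t1 - (y0 + x0 * t1)| ≤ b) (h3 : |y + x * t3 - (y0 + x0 * t3)| ≤ b)
    (hs1 : t1 ≤ s) (hs3 : s ≤ t3) : |y + x * s - (y0 + x0 * s)| ≤ b := by
  have e : (y + x * s - (y0 + x0 * s)) * (t3 - t1) =
      (y + x * t1 - (y0 + x0 * t1)) * (t3 - s) + (y + x * t3 - (y0 + x0 * t3)) * (s - t1) := by
    ring
  have h5 : |y + x * s - (y0 + x0 * s)| * (t3 - t1) ≤ b * (t3 - t1) := by
    calc |y + x * s - (y0 + x0 * s)| * (t3 - t1)
        = |(y + x * s - (y0 + x0 * s)) * (t3 - t1)| := by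
          rw [abs_mul, abs_of_pos (show (0:ℝ) < t3 - t1 by linarith)]
      _ ≤ |(y + x * t1 - (y0 + x0 * t1)) * (t3 - s)| +
          |(y + x * t3 - (y0 + x0 * t3)) * (s - t1)| := by rw [e]; exact abs_add_le _ _
      _ = |y + x * t1 - (y0 + x0 * t1)| * (t3 - s) +
          |y + x * t3 - (y0 + x0 * t3)| * (s - t1) := by
          rw [abs_mul, abs_mul, abs_of_nonneg (show (0:ℝ) ≤ t3 - s by linarith),
            abs_of_nonneg (show (0:ℝ) ≤ s - t1 by linarith)]
      _ ≤ b * (t3 - s) + b * (s - t1) :=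
          add_le_add (mul_le_mul_of_nonneg_right h1 (by linarith))
            (mul_le_mul_of_nonneg_right h3 (by linarith))
      _ = b * (t3 - t1) := by ring
  exact le_of_mul_le_mul_right h5 (by linarith)

theorem slope {y x y0 x0 t1 t3 b c R A ξ : ℝ} (h13 : t1 < t3) (hR : 0 < R)
    (h1 : |y + x * t1 - (y0 + x0 * t1)| ≤ b) (h3 : |y + x * t3 - (y0 + x0 * t3)| ≤ b)
    (hc : c * (t3 - t1) < (A - 2 * b) * R) (hξ : |ξ - x0| ≤ c / R) :
    |ξ - x| * (t3 - t1) < A := by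
  have e1 : (x - x0) * (t3 - t1) = (y + x * t3 - (y0 + x0 * t3)) -
      (y + x * t1 - (y0 + x0 * t1)) := by ring
  have a1 : |x - x0| * (t3 - t1) ≤ 2 * b := by
    calc |x - x0| * (t3 - t1) = |(x - x0) * (t3 - t1)| := by
          rw [abs_mul, abs_of_pos (show (0:ℝ) < t3 - t1 by linarith)]
      _ ≤ |y + x * t3 - (y0 + x0 * t3)| + |y + x * t1 - (y0 + x0 * t1)| := by
          rw [e1]; exact abs_sub _ _
      _ ≤ 2 * b := by linarith
  have a2 : |ξ - x| ≤ |ξ - x0| + |x - x0| := by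
    have : ξ - x = (ξ - x0) - (x - x0) := by ring
    rw [this]
    exact abs_sub _ _
  have a3 : c / R * (t3 - t1) < A - 2 * b := by
    rw [div_mul_eq_mul_div, div_lt_iff₀ hR]
    exact hc
  have a4 : |ξ - x| * (t3 - t1) ≤ (|ξ - x0| + |x - x0|) * (t3 - t1) :=
    mul_le_mul_of_nonneg_right a2 (by linarith)
  have a5 : |ξ - x0| * (t3 - t1) ≤ c / R * (t3 - t1) :=
    mul_le_mul_of_nonneg_right hξ (by linarith)
  nlinarith

end XCT

theorem I_CTg (hPos : StPos) (hTok : StTok) (hPath : StPath) (hLeq : StLeq) (hIdx : StIdx)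
    (hMir : StMir) : StCTg := by
  classical
  intro ι _ _ K Ψ Ψ' x0 y0 t1 t2 t3 t1' t2' t3' A A' b b' h12 h23 h31 h12' h23' hb hb' hΨ hΨ'
    hc hc' E F hE hF
  obtain ⟨hv, -, hmn, -⟩ := hIdx ι K
  obtain ⟨m1, m2, m3, m4, m5, m6, m7, -⟩ := hMir ι K
  have hR : 0 < t1' - t3 := by linarith
  have key : ∀ z ∈ Ψ ×ˢ Ψ', ∃ w ∈ hPairs K E F, K.tokB w.1 = (K.pos (K.idx t2)).symm z.1 ∧
      K.tokT w.2 = (K.pos (K.idx t2')).symm z.2 := by
    rintro ⟨r, r'⟩ hz
    rw [mem_product] at hz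
    obtain ⟨a1, a2, a3, a4, a5⟩ := hΨ r hz.1
    obtain ⟨b1, b2, b3, b4, b5⟩ := hΨ' r' hz.2
    set β := (K.pos (K.idx t2)).symm r with hβdef
    set τ := (K.pos (K.idx t2')).symm r' with hτdef
    have hβr : K.pos (K.idx t2) β = r := by simp [hβdef]
    have hτr : K.pos (K.idx t2') τ = r' := by simp [hτdef]
    have hβ : β ∈ K.S 0 := by
      rw [hβdef, ← hPos ι K _ (hv t2).1]
      by_contra h
      have := K.above _ (hv t2).1 t2 (hv t2).2.1 (hv t2).2.2 r h
      unfold KSys.ht at a2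
      linarith
    have hτ : τ ∉ K.S 0 := by
      rw [hτdef, ← hPos ι K _ (hv t2').1]
      intro h
      have := K.below _ (hv t2').1 t2' (hv t2').2.1 (hv t2').2.2 r' h
      unfold KSys.ht at b2
      linarith
    -- bottom arc
    have arcB := XCT.arc hPos hTok hPath hLeq K hβ (hmn t1 t2 h12.le) (hmn t2 t3 h23.le) (hv t1)
      (hv t2) (hv t3) h12 h23 (A := A) (by rw [hβr]; exact a1) (by rw [hβr]; exact a3)
    -- top arc
    have hτ' : τ ∈ K.mirror.S 0 := by
      change τ ∈ (K.S 0)ᶜ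
      simpa using hτ
    have e2' : K.mirror.pos (K.idx t2') τ = r' := by rw [m1]; exact hτr
    have arcT := XCT.arc hPos hTok hPath hLeq K.mirror hτ' (hmn t1' t2' h12'.le)
      (hmn t2' t3' h23'.le) ((m7 _ _).2 (hv t1')) ((m7 _ _).2 (hv t2')) ((m7 _ _).2 (hv t3'))
      h12' h23' (A := A')
      (by rw [e2', m5]; change t1' - K.L t1' + A' ≤ _; linarith)
      (by rw [e2', m5]; change t3' - K.L t3' + A' ≤ _; linarith)
    rw [hβr] at arcB
    rw [e2'] at arcT
    obtain ⟨arcB, rB⟩ := arcB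
    obtain ⟨⟨Tup, Ttop, Tprev, Tnext⟩, rT⟩ := arcT
    change ∀ ξ, |ξ - (1 - K.x r')| * (t3' - t1') < A' →
      (1 - K.x (K.mirror.pos (K.idx t3') τ)) < ξ ∧ ξ < (1 - K.x (K.mirror.pos (K.idx t1') τ))
      at rT
    rw [m1, m1] at rT
    set V := (range K.N).filter (fun n => K.idx t1 ≤ n ∧ n < K.idx t3 ∧ K.tokB n = β) with hV
    set V' := (range K.N).filter (fun n => K.idx t1' ≤ n ∧ n < K.idx t3' ∧ K.tokT n = τ) with hV'
    have hVV : ((range K.mirror.N).filter (fun n => K.idx t1' ≤ n ∧ n < K.idx t3' ∧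
        K.mirror.tokB n = τ)) = V' := by
      rw [hV']
      apply filter_congr
      intro n _
      rw [m2]
    rw [hVV] at Tup Ttop Tprev Tnext
    have hmem : ∀ n ∈ V', n < K.N ∧ K.mirror.h n = K.t n - K.h n := by
      intro n hn
      rw [hV', mem_filter, mem_range] at hn
      exact ⟨hn.1, m6 n hn.1⟩
    have cc : |(x0 - (b + b') / (t1' - t3)) - x0| ≤ (b + b') / (t1' - t3) := by
      have : 0 ≤ (b + b') / (t1' - t3) := div_nonneg (by linarith) hR.le
      rw [show x0 - (b + b') / (t1' - t3) - x0 = -((b + b') / (t1' - t3)) by ring, abs_neg,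
        abs_of_nonneg this]
    have cc' : |(x0 + (b + b') / (t1' - t3)) - x0| ≤ (b + b') / (t1' - t3) := by
      have : 0 ≤ (b + b') / (t1' - t3) := div_nonneg (by linarith) hR.le
      rw [show x0 + (b + b') / (t1' - t3) - x0 = ((b + b') / (t1' - t3)) by ring,
        abs_of_nonneg this]
    obtain ⟨n, hn, n', hn', g1, g2, g3, g4⟩ := XCT.tangent (V' := V') (lo' := K.x (K.pos (K.idx t1') τ))
      (hi' := K.x (K.pos (K.idx t3') τ)) (xr' := K.x r') (yr' := K.y r') (t2' := t2')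
      (x0 := x0) (y0 := y0) (b := b) (b' := b') (R := t1' - t3) (t1 := t1) (t3 := t3)
      (t1' := t1') (t3' := t3') arcB
      (by
        intro n hn
        have h1 := Tup n hn
        rw [(hmem n hn).2] at h1
        change K.t n - K.h n ≤ -K.y r' + (1 - K.x r') * K.t n at h1
        linarith)
      (by
        intro ξ hlo hhi
        obtain ⟨n, hn, h1⟩ := Ttop (1 - ξ)
          (by change 1 - K.x (K.mirror.pos (K.idx t3') τ) < 1 - ξ; rw [m1]; linarith)
          (by change 1 - ξ < 1 - K.x (K.mirror.pos (K.idx t1') τ); rw [m1]; linarith)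
        refine ⟨n, hn, ?_⟩
        rw [(hmem n hn).2] at h1
        change -K.y r' + ((1 - K.x r') - (1 - ξ)) * t2' ≤ K.t n - K.h n - (1 - ξ) * K.t n at h1
        linarith)
      (by
        intro n hn hlt
        obtain ⟨m, hm, hmn', h1⟩ := Tprev n hn
          (by change 1 - K.x (K.b n) < 1 - K.x (K.mirror.pos (K.idx t1') τ); rw [m1]; linarith)
        refine ⟨m, hm, hmn', ?_⟩
        rw [(hmem n hn).2, (hmem m hm).2] at h1
        change K.t m - K.h m = K.t n - K.h n - (1 - K.x (K.b n)) * (K.t n - K.t m) at h1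
        linarith)
      (by
        intro n hn hlt
        obtain ⟨m, hm, hmn', h1⟩ := Tnext n hn
          (by change 1 - K.x (K.mirror.pos (K.idx t3') τ) < 1 - K.x (K.a n); rw [m1]; linarith)
        refine ⟨m, hm, hmn', ?_⟩
        rw [(hmem n hn).2, (hmem m hm).2] at h1
        change K.t m - K.h m = K.t n - K.h n + (1 - K.x (K.a n)) * (K.t m - K.t n) at h1
        linarith)
      hR hb hb'
      (by
        intro n hn
        rw [hV, mem_filter, mem_range] at hn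
        exact ⟨(hv t1).2.2 n hn.2.1 hn.1, (hv t3).2.1 n hn.2.2.1⟩)
      (by
        intro n hn
        rw [hV', mem_filter, mem_range] at hn
        exact ⟨(hv t1').2.2 n hn.2.1 hn.1, (hv t3').2.1 n hn.2.2.1⟩)
      le_rfl
      (fun s hs1 hs3 => XCT.interp (by linarith) a4 a5 hs1 hs3)
      (fun s hs1 hs3 => XCT.interp (by linarith) b4 b5 hs1 hs3)
      ⟨h12.le, h23.le⟩ ⟨h12'.le, h23'.le⟩
      (rB _ (XCT.slope (by linarith) hR a4 a5 hc cc)).1
      (rB _ (XCT.slope (by linarith) hR a4 a5 hc cc')).2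
      (by
        have := (rT (1 - (x0 - (b + b') / (t1' - t3))) (by
          rw [show 1 - (x0 - (b + b') / (t1' - t3)) - (1 - K.x r') =
            -((x0 - (b + b') / (t1' - t3)) - K.x r') by ring, abs_neg]
          exact XCT.slope (by linarith) hR b4 b5 hc' cc)).2
        linarith)
      (by
        have := (rT (1 - (x0 + (b + b') / (t1' - t3))) (by
          rw [show 1 - (x0 + (b + b') / (t1' - t3)) - (1 - K.x r') =
            -((x0 + (b + b') / (t1' - t3)) - K.x r') by ring, abs_neg]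
          exact XCT.slope (by linarith) hR b4 b5 hc' cc')).1
        linarith)
      (by
        intro n hn m hm hnm
        rw [hV, mem_filter, mem_range] at hn hm
        exact K.t_lt n m hnm hm.1)
      (by
        intro n hn m hm hnm
        rw [hV', mem_filter, mem_range] at hn hm
        exact K.t_lt n m hnm hm.1)
    rw [hV, mem_filter, mem_range] at hn
    rw [hV', mem_filter, mem_range] at hn'
    have hn3 : K.t n ≤ t3 := (hv t3).2.1 n hn.2.2.1
    have hn1 : t1 ≤ K.t n := (hv t1).2.2 n hn.2.1 hn.1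
    have hn3' : K.t n' ≤ t3' := (hv t3').2.1 n' hn'.2.2.1
    have hn1' : t1' ≤ K.t n' := (hv t1').2.2 n' hn'.2.1 hn'.1
    refine ⟨(n, n'), ?_, hn.2.2.2, hn'.2.2.2⟩
    rw [hPairs, mem_filter, mem_product]
    refine ⟨⟨hE n hn.1 hn1 hn3, hF n' hn'.1 hn1' hn3'⟩, ?_, g1, g2, g3, g4⟩
    by_contra hle
    push Not at hle
    change n' ≤ n at hle
    rcases hle.lt_or_eq with h | h
    · have := K.t_lt n' n h hn.1
      linarith
    · rw [h] at hn1'
      linarith
  choose! f hf1 hf2 hf3 using key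
  rw [← card_product]
  apply card_le_card_of_injOn f (fun z hz => hf1 z hz)
  intro z hz w hw h
  have e1 := hf2 z hz
  have e2 := hf2 w hw
  have e3 := hf3 z hz
  have e4 := hf3 w hw
  rw [h] at e1 e3
  rw [e1] at e2
  rw [e3] at e4
  exact Prod.ext ((K.pos (K.idx t2)).symm.injective e2)
    ((K.pos (K.idx t2')).symm.injective e4)

end Pool.Agent.Work.MP_e17eac_co.HS
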