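import Pool.Agent.Work.MP_e17eac_co.HS.StB
import Pool.Agent.Work.MP_e17eac_co.HS.CT
import Pool.Agent.Work.MP_e17eac_co.Bd.B19

/-!
# HS: uniqueness of common tangents, common tangents of bodies
-/

namespace Pool.Agent.Work.MP_e17eac_co.HS

open Finset
open Pool.Agent.Work.MP_e17eac_co.DH
open Pool.Agent.Work.MP_e17eac_co.B1

theorem I_Uniq (h : StHinj) : StUniq := by
  intro ι _ _ K n n' k k' h1 h2 hB hT
  obtain ⟨a1, a2, a3, a4, a5, a6⟩ := h1
  obtain ⟨b1, b2, b3, b4, b5, b6⟩ := h2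
  exact h ι K n n' k k' a1 a2 b1 b2 ⟨a3, a4, a5, a6⟩ ⟨b3, b4, b5, b6⟩ hB hT

theorem I_CPsum (h : StUniq) (hT : StCellTok) : StCPsum := by
  classical
  intro ι _ _ K b x w hb
  have t1 := (hT ι K b x w hb (ce K b x w) Subset.rfl).2.2 false
  have t2 := (hT ι K b x w hb (ce K b x w) Subset.rfl).2.2 true
  change ((ce K b x w).image K.tokB).card ≤ _ at t1
  change ((ce K b x w).image K.tokT).card ≤ _ at t2
  calc (CP K (ce K b x w) (ce K b x w)).card
      ≤ ((ce K b x w).image K.tokB ×ˢ (ce K b x w).image K.tokT).card := by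
        apply card_le_card_of_injOn (fun z => (K.tokB z.1, K.tokT z.2))
        · intro z hz
          rw [CP, mem_coe, mem_filter, mem_product] at hz
          simp only [coe_product, Set.mem_prod, mem_coe]
          exact ⟨mem_image_of_mem _ hz.1.1, mem_image_of_mem _ hz.1.2⟩
        · intro z hz z' hz' hzz
          rw [CP, mem_coe, mem_filter, mem_product] at hz hz'
          simp only [Prod.mk.injEq] at hzz
          have := h ι K z.1 z.2 z'.1 z'.2 hz.2 hz'.2 hzz.1 hzz.2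
          exact Prod.ext this.1 this.2
    _ = _ := card_product _ _
    _ ≤ _ := by rw [sq]; exact Nat.mul_le_mul t1 t2

namespace XPCT

/-- arithmetic of the nested case -/
theorem arith {b T μ μ' h R d F : ℝ} (hb : 2 ≤ b) (hT : 100 * b ^ 3 ≤ T) (hμ : 0 < μ)
    (hμ' : 0 < μ') (hh : 0 < h) (hR : 0 < R) (h1 : h ≤ b * R) (hd : d ≤ (1 + b) * R)
    (hc : (12 * T - 9 * b) * μ * R ≤ (3 * b * μ + 3 * b * μ') * h)
    (hF : F * h ≤ 3 * b * μ * h + 2 * (3 * b * μ) * d) : F ≤ (3 * b + 1) * μ' := by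
  have hb2 : 4 ≤ b ^ 2 := by nlinarith
  have hb3 : 2 * b ^ 2 ≤ b ^ 3 := by nlinarith
  have hb4 : 2 * b ≤ b ^ 2 := by nlinarith
  set c := 12 * T - 9 * b with hcdef
  have hc1 : 6 * b ^ 2 ≤ c := by nlinarith
  have hc2 : 36 * b ^ 2 * (1 + b) ≤ c := by nlinarith
  have hc0 : 0 < c := by nlinarith
  -- μ ≤ μ'
  have e1 : c * μ * h ≤ (3 * b ^ 2 * μ + 3 * b ^ 2 * μ') * h := by
    calc c * μ * h ≤ c * μ * (b * R) := mul_le_mul_of_nonneg_left h1 (by positivity)
      _ = b * (c * μ * R) := by ring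
      _ ≤ b * ((3 * b * μ + 3 * b * μ') * h) := mul_le_mul_of_nonneg_left hc (by linarith)
      _ = _ := by ring
  have e2 : c * μ ≤ 3 * b ^ 2 * μ + 3 * b ^ 2 * μ' := le_of_mul_le_mul_right e1 hh
  have e3 : 6 * b ^ 2 * μ ≤ c * μ := mul_le_mul_of_nonneg_right hc1 hμ.le
  have e4 : μ ≤ μ' := by
    have : 3 * b ^ 2 * μ ≤ 3 * b ^ 2 * μ' := by linarith
    exact le_of_mul_le_mul_left this (by positivity)
  -- bound of F
  have e5 : c * F * h ≤ (c * (3 * b * μ) + 6 * b * (1 + b) * (3 * b * μ + 3 * b * μ')) * h := by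
    calc c * F * h = c * (F * h) := by ring
      _ ≤ c * (3 * b * μ * h + 2 * (3 * b * μ) * d) := mul_le_mul_of_nonneg_left hF hc0.le
      _ ≤ c * (3 * b * μ * h + 2 * (3 * b * μ) * ((1 + b) * R)) := by
          apply mul_le_mul_of_nonneg_left _ hc0.le
          have := mul_le_mul_of_nonneg_left hd (show (0:ℝ) ≤ 2 * (3 * b * μ) by positivity)
          linarith
      _ = c * (3 * b * μ) * h + 6 * b * (1 + b) * (c * μ * R) := by ring
      _ ≤ c * (3 * b * μ) * h + 6 * b * (1 + b) * ((3 * b * μ + 3 * b * μ') * h) := by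
          have := mul_le_mul_of_nonneg_left hc (show (0:ℝ) ≤ 6 * b * (1 + b) by positivity)
          linarith
      _ = _ := by ring
  have e6 : c * F ≤ c * (3 * b * μ) + 6 * b * (1 + b) * (3 * b * μ + 3 * b * μ') :=
    le_of_mul_le_mul_right e5 hh
  have e7 : c * (3 * b * μ) ≤ c * (3 * b * μ') :=
    mul_le_mul_of_nonneg_left (mul_le_mul_of_nonneg_left e4 (by positivity)) hc0.le
  have e8 : 6 * b * (1 + b) * (3 * b * μ + 3 * b * μ') ≤ c * μ' := by
    calc 6 * b * (1 + b) * (3 * b * μ + 3 * b * μ')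
        ≤ 6 * b * (1 + b) * (3 * b * μ' + 3 * b * μ') := by
          apply mul_le_mul_of_nonneg_left _ (by positivity)
          have := mul_le_mul_of_nonneg_left e4 (show (0:ℝ) ≤ 3 * b by positivity)
          linarith
      _ = 36 * b ^ 2 * (1 + b) * μ' := by ring
      _ ≤ c * μ' := mul_le_mul_of_nonneg_right hc2 hμ'.le
  have e9 : c * F ≤ c * ((3 * b + 1) * μ') := by
    calc c * F ≤ c * (3 * b * μ') + c * μ' := by linarith
      _ = _ := by ring
  exact le_of_mul_le_mul_left e9 hc0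

/-- extrapolation of a linear function to the right -/
theorem extraR {y x y0 x0 s0 s1 B t : ℝ} (h01 : s0 < s1) (h0 : |y + x * s0 - (y0 + x0 * s0)| ≤ B)
    (h1 : |y + x * s1 - (y0 + x0 * s1)| ≤ B) (ht : s1 ≤ t) :
    |y + x * t - (y0 + x0 * t)| * (s1 - s0) ≤ B * (s1 - s0) + 2 * B * (t - s1) := by
  have e : (y + x * t - (y0 + x0 * t)) * (s1 - s0) =
      (y + x * s1 - (y0 + x0 * s1)) * (s1 - s0) +
      ((y + x * s1 - (y0 + x0 * s1)) - (y + x * s0 - (y0 + x0 * s0))) * (t - s1) := by ring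
  have a0 := abs_le.1 h0
  have a1 := abs_le.1 h1
  have : |(y + x * t - (y0 + x0 * t)) * (s1 - s0)| ≤ B * (s1 - s0) + 2 * B * (t - s1) := by
    rw [e, abs_le]
    have p1 : 0 ≤ s1 - s0 := by linarith
    have p2 : 0 ≤ t - s1 := by linarith
    constructor
    · have q1 := mul_le_mul_of_nonneg_right a1.1 p1
      have q2 := mul_le_mul_of_nonneg_right
        (show -(2 * B) ≤ (y + x * s1 - (y0 + x0 * s1)) - (y + x * s0 - (y0 + x0 * s0)) by
          linarith [a0.2]) p2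
      linarith
    · have q1 := mul_le_mul_of_nonneg_right a1.2 p1
      have q2 := mul_le_mul_of_nonneg_right
        (show (y + x * s1 - (y0 + x0 * s1)) - (y + x * s0 - (y0 + x0 * s0)) ≤ 2 * B by
          linarith [a0.1]) p2
      linarith
  rwa [abs_mul, abs_of_pos (show (0:ℝ) < s1 - s0 by linarith)] at this

/-- extrapolation of a linear function to the left -/
theorem extraL {y x y0 x0 s0 s1 B t : ℝ} (h01 : s0 < s1) (h0 : |y + x * s0 - (y0 + x0 * s0)| ≤ B)
    (h1 : |y + x * s1 - (y0 + x0 * s1)| ≤ B) (ht : t ≤ s0) :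
    |y + x * t - (y0 + x0 * t)| * (s1 - s0) ≤ B * (s1 - s0) + 2 * B * (s0 - t) := by
  have e : (y + x * t - (y0 + x0 * t)) * (s1 - s0) =
      (y + x * s0 - (y0 + x0 * s0)) * (s1 - s0) -
      ((y + x * s1 - (y0 + x0 * s1)) - (y + x * s0 - (y0 + x0 * s0))) * (s0 - t) := by ring
  have a0 := abs_le.1 h0
  have a1 := abs_le.1 h1
  have : |(y + x * t - (y0 + x0 * t)) * (s1 - s0)| ≤ B * (s1 - s0) + 2 * B * (s0 - t) := by
    rw [e, abs_le]
    have p1 : 0 ≤ s1 - s0 := by linarith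
    have p2 : 0 ≤ s0 - t := by linarith
    constructor
    · have q1 := mul_le_mul_of_nonneg_right a0.1 p1
      have q2 := mul_le_mul_of_nonneg_right
        (show (y + x * s1 - (y0 + x0 * s1)) - (y + x * s0 - (y0 + x0 * s0)) ≤ 2 * B by
          linarith [a0.1, a1.2]) p2
      linarith
    · have q1 := mul_le_mul_of_nonneg_right a0.2 p1
      have q2 := mul_le_mul_of_nonneg_right
        (show -(2 * B) ≤ (y + x * s1 - (y0 + x0 * s1)) - (y + x * s0 - (y0 + x0 * s0)) by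
          linarith [a0.2, a1.1]) p2
      linarith
  rwa [abs_mul, abs_of_pos (show (0:ℝ) < s1 - s0 by linarith)] at this

variable {ι α : Type} [Fintype ι] [DecidableEq ι] [DecidableEq α]

theorem cell_mono (K : KSys ι) (b x : ℕ) {i j : ℕ} (h : i ≤ j) : cell K b x i ≤ cell K b x j :=
  Nat.div_le_div_right (Nat.mul_le_mul_right _ h)

/-- the sign pattern of a body -/
theorem times {K : KSys ι} {b M J : ℕ} {e ec : ℕ → ℕ} {D : ℝ} {L : Lb α} {E : Finset ℕ}
    (h : LS K b M J e ec D L E) {z i : ℕ} (hz : z + 1 ≤ J) (hi : i ∈ E) {μ : ℝ} {k : Fin 3 → ℕ}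
    (hk : ∀ u, k u ∈ EE K b (e z) E i) (hμ : ∀ u, μ ≤ L.rho (L.lab (z + 1) (k u)))
    (c01 : cell K b (e (z + 1)) (k 0) < cell K b (e (z + 1)) (k 1))
    (c12 : cell K b (e (z + 1)) (k 1) < cell K b (e (z + 1)) (k 2)) :
    (∃ t1 t2 t3, L.h0 (L.lab z i) ≤ t1 ∧ t1 < t2 ∧ t2 < t3 ∧ t3 ≤ L.h1 (L.lab z i) ∧
      K.L t1 + 12 * Th b * μ ≤ K.ht (K.a i) t1 ∧ K.ht (K.a i) t2 + 12 * Th b * μ ≤ K.L t2 ∧
      K.L t3 + 12 * Th b * μ ≤ K.ht (K.a i) t3) ∧
    (∃ t1 t2 t3, L.h0 (L.lab z i) ≤ t1 ∧ t1 < t2 ∧ t2 < t3 ∧ t3 ≤ L.h1 (L.lab z i) ∧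
      K.ht (K.a i) t1 + 12 * Th b * μ ≤ K.L t1 ∧ K.L t2 + 12 * Th b * μ ≤ K.ht (K.a i) t2 ∧
      K.ht (K.a i) t3 + 12 * Th b * μ ≤ K.L t3) := by
  have hE : ∀ u, k u ∈ E ∧ K.a (k u) = K.a i ∧ cell K b (e z) (k u) = cell K b (e z) i := by
    intro u
    have := hk u
    rw [EE, mem_filter] at this
    exact this
  have hlab : ∀ u, L.lab z (k u) = L.lab z i := fun u =>
    h.ldet z (by omega) _ (hE u).1 _ hi (hE u).2.1 (hE u).2.2
  have hin : ∀ u, L.h0 (L.lab z i) ≤ L.h0 (L.lab (z + 1) (k u)) ∧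
      L.h1 (L.lab (z + 1) (k u)) ≤ L.h1 (L.lab z i) := by
    intro u
    have := h.nest z (z + 1) (by omega) hz (k u) (hE u).1
    rw [hlab u] at this
    exact this
  have hTh : 0 ≤ 12 * Th b := by unfold Th; positivity
  have hsg : ∀ u, ∃ s s', L.h0 (L.lab (z + 1) (k u)) ≤ s ∧ s ≤ L.h1 (L.lab (z + 1) (k u)) ∧
      L.h0 (L.lab (z + 1) (k u)) ≤ s' ∧ s' ≤ L.h1 (L.lab (z + 1) (k u)) ∧
      K.ht (K.a i) s + 12 * Th b * μ ≤ K.L s ∧ K.L s' + 12 * Th b * μ ≤ K.ht (K.a i) s' := by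
    intro u
    obtain ⟨s, s', a1, a2, a3, a4, a5, a6⟩ := h.sgn (z + 1) hz (k u) (hE u).1
    rw [(hE u).2.1] at a5 a6
    have := mul_le_mul_of_nonneg_left (hμ u) hTh
    exact ⟨s, s', a1, a2, a3, a4, by linarith, by linarith⟩
  have hord : ∀ u v, cell K b (e (z + 1)) (k u) < cell K b (e (z + 1)) (k v) →
      L.h1 (L.lab (z + 1) (k u)) < L.h0 (L.lab (z + 1) (k v)) := by
    intro u v huv
    obtain ⟨_, l, _, hl, _, hlc, _, hlt⟩ := h.span (z + 1) hz (k u) (hE u).1
    obtain ⟨k', _, hk', _, hkc, _, hkt, _⟩ := h.span (z + 1) hz (k v) (hE v).1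
    have hlk : l < k' := by
      by_contra hc
      push Not at hc
      have := cell_mono K b (e (z + 1)) hc
      omega
    have := K.t_lt l k' hlk hk'
    linarith
  obtain ⟨s0, s0', a1, a2, a3, a4, a5, a6⟩ := hsg 0
  obtain ⟨s1, s1', b1, b2, b3, b4, b5, b6⟩ := hsg 1
  obtain ⟨s2, s2', d1, d2, d3, d4, d5, d6⟩ := hsg 2
  have o1 := hord 0 1 c01
  have o2 := hord 1 2 c12
  refine ⟨⟨s0', s1, s2', by linarith [(hin 0).1], by linarith, by linarith,
    by linarith [(hin 2).2], a6, b5, d6⟩, ⟨s0, s1', s2, by linarith [(hin 0).1], by linarith,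
    by linarith, by linarith [(hin 2).2], a5, b6, d5⟩⟩

/-- lines close to `a i` are in `RR` -/
theorem in_RR {K : KSys ι} {b M J : ℕ} {e ec : ℕ → ℕ} {D : ℝ} {L : Lb α} {E : Finset ℕ}
    (h : LS K b M J e ec D L E) {z i l : ℕ} (hz : z + 1 ≤ J) (hi : i ∈ E)
    (hl : l ∈ EE K b (e z) E i) {q : ι}
    (hq : ∀ t, L.h0 (L.lab z i) ≤ t → t ≤ L.h1 (L.lab z i) →
      |K.ht q t - K.ht (K.a i) t| ≤ (Th b - 1 / 2) * L.rho (L.lab (z + 1) l)) :
    q ∈ RR K b L (z + 1) l := by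
  rw [EE, mem_filter] at hl
  obtain ⟨hlE, ha, hc⟩ := hl
  have hlab : L.lab z l = L.lab z i := h.ldet z (by omega) _ hlE _ hi ha hc
  obtain ⟨n1, n2⟩ := h.nest z (z + 1) (by omega) hz l hlE
  rw [hlab] at n1 n2
  obtain ⟨c1, c2⟩ := h.cls (z + 1) hz l hlE
  have hlt := h.lt (z + 1) hz l hlE
  rw [ha] at c1 c2
  have q1 := hq (L.h0 (L.lab (z + 1) l)) n1 (by linarith)
  have q2 := hq (L.h1 (L.lab (z + 1) l)) (by linarith) n2
  simp only [RR, mem_filter, mem_univ, true_and]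
  constructor
  · have := abs_sub_le (K.ht q (L.h0 (L.lab (z + 1) l))) (K.ht (K.a i) (L.h0 (L.lab (z + 1) l)))
      (L.c0 (L.lab (z + 1) l))
    linarith
  · have := abs_sub_le (K.ht q (L.h1 (L.lab (z + 1) l))) (K.ht (K.a i) (L.h1 (L.lab (z + 1) l)))
      (L.c1 (L.lab (z + 1) l))
    linarith

/-- all edges between the hull ends are in the cell -/
theorem in_ce {K : KSys ι} {b M J : ℕ} {e ec : ℕ → ℕ} {D : ℝ} {L : Lb α} {E : Finset ℕ}
    (h : LS K b M J e ec D L E) {z i n : ℕ} (hz : z ≤ J) (hi : i ∈ E) (hn : n < K.N)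
    (h0 : L.h0 (L.lab z i) ≤ K.t n) (h1 : K.t n ≤ L.h1 (L.lab z i)) :
    n ∈ ce K b (e z) (cell K b (e z) i) := by
  obtain ⟨k, l, hk, hl, hkc, hlc, hkt, hlt⟩ := h.span z hz i hi
  have hkn : k ≤ n := by
    by_contra hc
    push Not at hc
    have := K.t_lt n k hc hk
    linarith
  have hnl : n ≤ l := by
    by_contra hc
    push Not at hc
    have := K.t_lt l n hc hn
    linarith
  have m1 := cell_mono K b (e z) hkn
  have m2 := cell_mono K b (e z) hnl
  rw [ce, mem_filter, mem_range]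
  exact ⟨hn, by omega⟩

theorem Th_ge {b : ℕ} (hb : 2 ≤ b) : 100 * (b : ℝ) ^ 3 ≤ Th b := by
  have h2 : (2 : ℝ) ≤ b := by exact_mod_cast hb
  unfold Th
  have h3 : (100 : ℝ) ≤ (b : ℝ) ^ 61 := by
    calc (100 : ℝ) ≤ 2 ^ 61 := by norm_num
      _ ≤ (b : ℝ) ^ 61 := pow_le_pow_left₀ (by norm_num) h2 61
  calc 100 * (b : ℝ) ^ 3 ≤ (b : ℝ) ^ 61 * (b : ℝ) ^ 3 :=
        mul_le_mul_of_nonneg_right h3 (by positivity)
    _ = (b : ℝ) ^ 64 := by ring

theorem main (hg : StCTg) {K : KSys ι} {b M J : ℕ} {e ec : ℕ → ℕ} {D : ℝ} {L : Lb α}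
    {E : Finset ℕ} (h : LS K b M J e ec D L E) {y z : ℕ} (hy : y + 1 ≤ J) (hz : z + 1 ≤ J)
    {i i' : ℕ} (hi : i ∈ E) (hi' : i' ∈ E) (ha : K.a i = K.a i') {δ : ℝ} {Ψ Ψ' : Finset ι}
    {μ μ' : ℝ} (B1 : Body K b e L E y δ i Ψ μ) (B2 : Body K b e L E z δ i' Ψ' μ')
    (s1 : L.h1 (L.lab y i) < L.h0 (L.lab z i'))
    (s2 : L.h1 (L.lab y i) - L.h0 (L.lab y i) ≤ b * (L.h0 (L.lab z i') - L.h1 (L.lab y i)))
    (s3 : L.h1 (L.lab z i') - L.h0 (L.lab z i') ≤
      b * (L.h0 (L.lab z i') - L.h1 (L.lab y i))) :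
    (Ψ.card * Ψ'.card ≤ (CP K (ce K b (e y) (cell K b (e y) i))
      (ce K b (e z) (cell K b (e z) i'))).card) ∨
    (∃ l ∈ EE K b (e z) E i', Ψ ⊆ RR K b L (z + 1) l) ∨
    (∃ l ∈ EE K b (e y) E i, Ψ' ⊆ RR K b L (y + 1) l) := by
  obtain ⟨-, -, hμ, hΨ, k, hk, hkμ, hk01, hk12⟩ := B1
  obtain ⟨-, -, hμ', hΨ', k', hk', hkμ', hk01', hk12'⟩ := B2
  have hb2 : (2 : ℝ) ≤ b := by exact_mod_cast h.lev.two
  have hT := Th_ge h.lev.two
  have hlt := h.lt y (by omega) i hi
  have hlt' := h.lt z (by omega) i' hi'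
  obtain ⟨⟨t1, t2, t3, w1, w2, w3, w4, w5, w6, w7⟩, -⟩ := times h hy hi hk hkμ hk01 hk12
  obtain ⟨-, ⟨t1', t2', t3', v1, v2, v3, v4, v5, v6, v7⟩⟩ :=
    times h hz hi' hk' hkμ' hk01' hk12'
  rw [← ha] at v5 v6 v7 hΨ'
  set H0 := L.h0 (L.lab y i)
  set H1 := L.h1 (L.lab y i)
  set G0 := L.h0 (L.lab z i')
  set G1 := L.h1 (L.lab z i')
  set p := K.a i with hp
  have hR : 0 < G0 - H1 := by linarith
  have bb : (b : ℝ) * 2 ≤ b ^ 2 := by nlinarith
  have bbb : 2 * (b : ℝ) ^ 2 ≤ b ^ 3 := by nlinarith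
  have hTb : 3 * (b : ℝ) + 2 ≤ Th b := by nlinarith
  by_cases hA : (3 * b * μ + 3 * b * μ') * (t3 - t1) <
      ((12 * Th b * μ - 3 * b * μ) - 2 * (3 * b * μ)) * (t1' - t3)
  · by_cases hB : (3 * b * μ + 3 * b * μ') * (t3' - t1') <
      ((12 * Th b * μ' - 3 * b * μ') - 2 * (3 * b * μ')) * (t1' - t3)
    · left
      have key := hg ι K Ψ Ψ' (K.x p) (K.y p) t1 t2 t3 t1' t2' t3'
        (12 * Th b * μ - 3 * b * μ) (12 * Th b * μ' - 3 * b * μ') (3 * b * μ) (3 * b * μ')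
        w2 w3 (by linarith) v2 v3 (by positivity) (by positivity)
        (by
          intro r hr
          obtain ⟨r1, r2⟩ := hΨ r hr
          have g : ∀ t, H0 ≤ t → t ≤ H1 → |K.ht r t - K.ht p t| ≤ 3 * b * μ := fun t ha hb =>
            XCT.interp hlt r1 r2 ha hb
          have g1 := g t1 w1 (by linarith)
          have g2 := g t2 (by linarith) (by linarith)
          have g3 := g t3 (by linarith) w4
          have g1' := abs_le.1 g1
          have g2' := abs_le.1 g2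
          have g3' := abs_le.1 g3
          refine ⟨by linarith, ?_, by linarith, g1, g3⟩
          have : 3 * (b : ℝ) * μ < 12 * Th b * μ :=
            mul_lt_mul_of_pos_right (by nlinarith) hμ
          linarith)
        (by
          intro r hr
          obtain ⟨r1, r2⟩ := hΨ' r hr
          have g : ∀ t, G0 ≤ t → t ≤ G1 → |K.ht r t - K.ht p t| ≤ 3 * b * μ' := fun t ha hb =>
            XCT.interp hlt' r1 r2 ha hb
          have g1 := g t1' v1 (by linarith)
          have g2 := g t2' (by linarith) (by linarith)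
          have g3 := g t3' (by linarith) v4
          have g1' := abs_le.1 g1
          have g2' := abs_le.1 g2
          have g3' := abs_le.1 g3
          refine ⟨by linarith, ?_, by linarith, g1, g3⟩
          have : 3 * (b : ℝ) * μ' < 12 * Th b * μ' :=
            mul_lt_mul_of_pos_right (by nlinarith) hμ'
          linarith)
        hA hB (ce K b (e y) (cell K b (e y) i)) (ce K b (e z) (cell K b (e z) i'))
        (by
          intro n hn h1 h2
          exact in_ce h (by omega) hi hn (by linarith) (by linarith))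
        (by
          intro n hn h1 h2
          exact in_ce h (by omega) hi' hn (by linarith) (by linarith))
      refine key.trans (card_le_card ?_)
      classical
      intro u hu
      rw [hPairs, mem_filter] at hu
      rw [CP, mem_filter]
      obtain ⟨u1, u2, u3, u4, u5, u6⟩ := hu
      refine ⟨u1, u2, ?_, u3, u4, u5, u6⟩
      rw [mem_product] at u1
      have := u1.2
      rw [ce, mem_filter, mem_range] at this
      exact this.1
    · right; right
      push Not at hB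
      refine ⟨k 0, hk 0, ?_⟩
      intro q hq
      apply in_RR h hy hi (hk 0)
      obtain ⟨r1, r2⟩ := hΨ' q hq
      intro t ht0 ht1
      have hex := extraL (t := t) hlt' r1 r2 (by linarith)
      have hF := arith (b := b) (T := Th b) (μ := μ') (μ' := μ) (h := G1 - G0) (R := G0 - H1)
        (d := G0 - t) (F := |K.ht q t - K.ht p t|) hb2 hT hμ' hμ (by linarith) hR s3
        (by
          have : H1 - H0 ≤ b * (G0 - H1) := s2
          linarith)
        (by
          have m1 : (12 * Th b - 9 * b) * μ' * (G0 - H1) ≤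
              ((12 * Th b * μ' - 3 * b * μ') - 2 * (3 * b * μ')) * (t1' - t3) := by
            have : (0 : ℝ) ≤ (12 * Th b - 9 * b) * μ' := mul_nonneg (by nlinarith) hμ'.le
            have := mul_le_mul_of_nonneg_left (show G0 - H1 ≤ t1' - t3 by linarith) this
            linarith
          have m2 : (3 * b * μ + 3 * b * μ') * (t3' - t1') ≤
              (3 * b * μ' + 3 * b * μ) * (G1 - G0) := by
            have : (0 : ℝ) ≤ 3 * b * μ + 3 * b * μ' := by positivity
            have := mul_le_mul_of_nonneg_left (show t3' - t1' ≤ G1 - G0 by linarith) this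
            linarith
          linarith)
        hex
      have := hkμ 0
      calc |K.ht q t - K.ht p t| ≤ (3 * b + 1) * μ := hF
        _ ≤ (Th b - 1 / 2) * μ := mul_le_mul_of_nonneg_right (by linarith) hμ.le
        _ ≤ _ := mul_le_mul_of_nonneg_left (hkμ 0) (by linarith)
  · right; left
    push Not at hA
    refine ⟨k' 0, hk' 0, ?_⟩
    intro q hq
    apply in_RR h hz hi' (hk' 0)
    rw [← ha]
    obtain ⟨r1, r2⟩ := hΨ q hq
    intro t ht0 ht1
    have hex := extraR (t := t) hlt r1 r2 (by linarith)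
    have hF := arith (b := b) (T := Th b) (μ := μ) (μ' := μ') (h := H1 - H0) (R := G0 - H1)
      (d := t - H1) (F := |K.ht q t - K.ht p t|) hb2 hT hμ hμ' (by linarith) hR s2
      (by
        have : G1 - G0 ≤ b * (G0 - H1) := s3
        linarith)
      (by
        have m1 : (12 * Th b - 9 * b) * μ * (G0 - H1) ≤
            ((12 * Th b * μ - 3 * b * μ) - 2 * (3 * b * μ)) * (t1' - t3) := by
          have : (0 : ℝ) ≤ (12 * Th b - 9 * b) * μ := mul_nonneg (by nlinarith) hμ.le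
          have := mul_le_mul_of_nonneg_left (show G0 - H1 ≤ t1' - t3 by linarith) this
          linarith
        have m2 : (3 * b * μ + 3 * b * μ') * (t3 - t1) ≤
            (3 * b * μ + 3 * b * μ') * (H1 - H0) := by
          have : (0 : ℝ) ≤ 3 * b * μ + 3 * b * μ' := by positivity
          exact mul_le_mul_of_nonneg_left (show t3 - t1 ≤ H1 - H0 by linarith) this
        linarith)
      hex
    calc |K.ht q t - K.ht p t| ≤ (3 * b + 1) * μ' := hF
      _ ≤ (Th b - 1 / 2) * μ' := mul_le_mul_of_nonneg_right (by linarith) hμ'.le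
      _ ≤ _ := mul_le_mul_of_nonneg_left (hkμ' 0) (by linarith)

end XPCT

theorem I_CT (hg : StCTg) : StCT := by
  intro ι α _ _ _ K hx b M J e ec D L E h y z hy hz i hi i' hi' ha δ Ψ Ψ' μ μ' B1 B2 hS
  rcases hS with ⟨s1, s2, s3⟩ | ⟨s1, s2, s3⟩
  · rcases XPCT.main hg h hy hz hi hi' ha B1 B2 s1 s2 s3 with h1 | h1 | h1
    · exact Or.inl h1
    · exact Or.inr (Or.inr (Or.inl h1))
    · exact Or.inr (Or.inr (Or.inr h1))
  · rcases XPCT.main hg h hz hy hi' hi ha.symm B2 B1 s1 s2 s3 with h1 | h1 | h1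
    · right; left
      rw [mul_comm]
      exact h1
    · exact Or.inr (Or.inr (Or.inr h1))
    · exact Or.inr (Or.inr (Or.inl h1))

end Pool.Agent.Work.MP_e17eac_co.HS
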