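import Pool.Agent.Work.MP_e17eac_co.Bd.B06

/-!
# Thresholds (note 2872, (S3)): few edges are cut by a square

The height at a fixed time `s` of the line of a bottom token first decreases and then increases,
so every token crosses every threshold at most twice.
-/

namespace Pool.Agent.Work.MP_e17eac_co.HS

open Finset
open Pool.Agent.Work.MP_e17eac_co.DH

open Classical in
/-- Few edges are cut by one threshold (`P` = a lower set of heights at the time `s`). -/
def StThr : Prop := ∀ (ι : Type) [Fintype ι] [DecidableEq ι] (K : KSys ι) (s : ℝ) (P : ℝ → Prop),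
  (∀ x y, y ≤ x → P x → P y) →
  ((range K.N).filter (fun n => ¬ (P (K.ht (K.a n) s) ↔ P (K.ht (K.b n) s)))).card ≤
    2 * Fintype.card ι

/-- The lines in the square `z = (h0, h1, c0, c1, ρ)`. -/
def InSq {ι : Type} [Fintype ι] [DecidableEq ι] (K : KSys ι) (z : ℝ × ℝ × ℝ × ℝ × ℝ)
    (r : ι) : Prop :=
  |K.ht r z.1 - z.2.2.1| ≤ z.2.2.2.2 ∧ |K.ht r z.2.1 - z.2.2.2.1| ≤ z.2.2.2.2

open Classical in
/-- **(S3)**: few edges are cut by a family of squares. -/
def StSq : Prop := ∀ (ι : Type) [Fintype ι] [DecidableEq ι] (K : KSys ι)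
  (Z : Finset (ℝ × ℝ × ℝ × ℝ × ℝ)),
  ((range K.N).filter (fun n => ∃ z ∈ Z, ¬ (InSq K z (K.a n) ↔ InSq K z (K.b n)))).card ≤
    8 * Fintype.card ι * Z.card

namespace XTHR

variable {ι : Type} [Fintype ι] [DecidableEq ι]

theorem after (hTok : StTok) (hMono : StMono) (hPath : StPath) (hLeq : StLeq) (K : KSys ι)
    {n m : ℕ} (hnm : n < m) (hm : m < K.N) (hB : K.tokB n = K.tokB m) {s : ℝ} (hs : K.t m ≤ s) :
    K.ht (K.a m) s ≤ K.ht (K.b n) s := by
  have hn : n < K.N := hnm.trans hm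
  obtain ⟨b1, b2, b3, b4, b5, b6, b7⟩ := hTok ι K n hn
  obtain ⟨c1, c2, c3, c4, c5, c6, c7⟩ := hTok ι K m hm
  have v1 := (hLeq ι K n hn).2.2.2.2
  have v2 := (hLeq ι K m hm).2.2.2.1
  have htn : K.t n ≤ K.t m := (K.t_lt n m hnm hm).le
  have p1 := (hPath ι K (n + 1) m (K.t n) (K.t m) (K.tokB n) b1 hnm v1 v2 htn).1
  have p2 := (hMono ι K (n + 1) m hnm hm.le).1 (K.tokB n) b1
  rw [b4] at p1 p2
  rw [hB, c3] at p1 p2
  have := mul_le_mul_of_nonneg_right p2 (sub_nonneg.2 hs)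
  unfold KSys.ht at *
  linarith

theorem before (hTok : StTok) (hMono : StMono) (hPath : StPath) (hLeq : StLeq) (K : KSys ι)
    {n m : ℕ} (hnm : n < m) (hm : m < K.N) (hB : K.tokB n = K.tokB m) {s : ℝ} (hs : s ≤ K.t n) :
    K.ht (K.b n) s ≤ K.ht (K.a m) s := by
  have hn : n < K.N := hnm.trans hm
  obtain ⟨b1, b2, b3, b4, b5, b6, b7⟩ := hTok ι K n hn
  obtain ⟨c1, c2, c3, c4, c5, c6, c7⟩ := hTok ι K m hm
  have v1 := (hLeq ι K n hn).2.2.2.2
  have v2 := (hLeq ι K m hm).2.2.2.1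
  have htn : K.t n ≤ K.t m := (K.t_lt n m hnm hm).le
  have p1 := (hPath ι K (n + 1) m (K.t n) (K.t m) (K.tokB n) b1 hnm v1 v2 htn).2.2.1
  have p2 := (hMono ι K (n + 1) m hnm hm.le).1 (K.tokB n) b1
  rw [b4] at p1 p2
  rw [hB, c3] at p1 p2
  have := mul_le_mul_of_nonneg_right p2 (sub_nonneg.2 hs)
  unfold KSys.ht at *
  linarith

end XTHR

theorem I_Thr (hTok : StTok) (hMono : StMono) (hPath : StPath) (hLeq : StLeq) : StThr := by
  classical
  intro ι _ _ K s P hP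
  set F := (range K.N).filter (fun n => ¬ (P (K.ht (K.a n) s) ↔ P (K.ht (K.b n) s))) with hF
  have hle : ∀ n, n < K.N → K.t n ≤ s → K.ht (K.b n) s ≤ K.ht (K.a n) s := by
    intro n hn hs
    have h1 := K.meet n hn
    have h2 := K.x_lt n hn
    have := mul_le_mul_of_nonneg_right h2.le (sub_nonneg.2 hs)
    unfold KSys.ht
    linarith
  have hge : ∀ n, n < K.N → s ≤ K.t n → K.ht (K.a n) s ≤ K.ht (K.b n) s := by
    intro n hn hs
    have h1 := K.meet n hn
    have h2 := K.x_lt n hn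
    have := mul_le_mul_of_nonneg_right h2.le (sub_nonneg.2 hs)
    unfold KSys.ht
    linarith
  have h1 : (F.filter (fun n => K.t n ≤ s)).card ≤ Fintype.card ι := by
    rw [← card_univ]
    apply card_le_card_of_injOn K.tokB (fun _ _ => mem_univ _)
    have key : ∀ n m, n ∈ F.filter (fun n => K.t n ≤ s) → m ∈ F.filter (fun n => K.t n ≤ s) →
        K.tokB n = K.tokB m → n < m → False := by
      intro n m hn hm hB hnm
      rw [mem_filter, hF, mem_filter, mem_range] at hn hm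
      obtain ⟨⟨hnN, hn1⟩, hn2⟩ := hn
      obtain ⟨⟨hmN, hm1⟩, hm2⟩ := hm
      have e1 := XTHR.after hTok hMono hPath hLeq K hnm hmN hB hm2
      have e2 := hle n hnN hn2
      have e3 := hle m hmN hm2
      have g1 : P (K.ht (K.b n) s) := by
        by_contra h
        exact hn1 ⟨fun h' => (h (hP _ _ e2 h')).elim, fun h' => (h h').elim⟩
      have g2 : P (K.ht (K.a m) s) := hP _ _ e1 g1
      exact hm1 ⟨fun _ => hP _ _ e3 g2, fun _ => g2⟩
    intro n hn m hm hB
    rcases lt_trichotomy n m with h | h | h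
    · exact (key n m hn hm hB h).elim
    · exact h
    · exact (key m n hm hn hB.symm h).elim
  have h2 : (F.filter (fun n => ¬ K.t n ≤ s)).card ≤ Fintype.card ι := by
    rw [← card_univ]
    apply card_le_card_of_injOn K.tokB (fun _ _ => mem_univ _)
    have key : ∀ n m, n ∈ F.filter (fun n => ¬ K.t n ≤ s) →
        m ∈ F.filter (fun n => ¬ K.t n ≤ s) → K.tokB n = K.tokB m → n < m → False := by
      intro n m hn hm hB hnm
      rw [mem_filter, hF, mem_filter, mem_range] at hn hm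
      obtain ⟨⟨hnN, hn1⟩, hn2⟩ := hn
      obtain ⟨⟨hmN, hm1⟩, hm2⟩ := hm
      push Not at hn2 hm2
      have e1 := XTHR.before hTok hMono hPath hLeq K hnm hmN hB hn2.le
      have e2 := hge n hnN hn2.le
      have e3 := hge m hmN hm2.le
      have g1 : ¬ P (K.ht (K.b n) s) := by
        intro h
        exact hn1 ⟨fun _ => h, fun _ => hP _ _ e2 h⟩
      have g2 : ¬ P (K.ht (K.a m) s) := fun h => g1 (hP _ _ e1 h)
      exact hm1 ⟨fun h => (g2 h).elim, fun h => (g2 (hP _ _ e3 h)).elim⟩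
    intro n hn m hm hB
    rcases lt_trichotomy n m with h | h | h
    · exact (key n m hn hm hB h).elim
    · exact h
    · exact (key m n hm hn hB.symm h).elim
  have h3 := card_filter_add_card_filter_not (s := F) (fun n => K.t n ≤ s)
  omega

theorem I_Sq (h : StThr) : StSq := by
  classical
  intro ι _ _ K Z
  have hone : ∀ z : ℝ × ℝ × ℝ × ℝ × ℝ,
      ((range K.N).filter (fun n => ¬ (InSq K z (K.a n) ↔ InSq K z (K.b n)))).card ≤
        8 * Fintype.card ι := by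
    intro z
    obtain ⟨h0, h1, c0, c1, ρ⟩ := z
    have a1 := h ι K h0 (fun x => x ≤ c0 + ρ) (fun x y hy hx => hy.trans hx)
    have a2 := h ι K h0 (fun x => x < c0 - ρ) (fun x y hy hx => lt_of_le_of_lt hy hx)
    have a3 := h ι K h1 (fun x => x ≤ c1 + ρ) (fun x y hy hx => hy.trans hx)
    have a4 := h ι K h1 (fun x => x < c1 - ρ) (fun x y hy hx => lt_of_le_of_lt hy hx)
    have hsub : (range K.N).filter (fun n => ¬ (InSq K (h0, h1, c0, c1, ρ) (K.a n) ↔
        InSq K (h0, h1, c0, c1, ρ) (K.b n))) ⊆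
        ((range K.N).filter (fun n => ¬ (K.ht (K.a n) h0 ≤ c0 + ρ ↔ K.ht (K.b n) h0 ≤ c0 + ρ)) ∪
        (range K.N).filter (fun n => ¬ (K.ht (K.a n) h0 < c0 - ρ ↔ K.ht (K.b n) h0 < c0 - ρ))) ∪
        ((range K.N).filter (fun n => ¬ (K.ht (K.a n) h1 ≤ c1 + ρ ↔ K.ht (K.b n) h1 ≤ c1 + ρ)) ∪
        (range K.N).filter (fun n => ¬ (K.ht (K.a n) h1 < c1 - ρ ↔ K.ht (K.b n) h1 < c1 - ρ))) := by
      intro n hn
      rw [mem_filter] at hn
      simp only [mem_union, mem_filter]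
      by_contra hc
      simp only [not_or, not_and, not_not] at hc
      obtain ⟨⟨c1', c2'⟩, c3', c4'⟩ := hc
      apply hn.2
      have e1 := c1' hn.1
      have e2 := c2' hn.1
      have e3 := c3' hn.1
      have e4 := c4' hn.1
      have f2 : (c0 - ρ ≤ K.ht (K.a n) h0) ↔ (c0 - ρ ≤ K.ht (K.b n) h0) := by
        rw [← not_lt, ← not_lt, e2]
      have f4 : (c1 - ρ ≤ K.ht (K.a n) h1) ↔ (c1 - ρ ≤ K.ht (K.b n) h1) := by
        rw [← not_lt, ← not_lt, e4]
      have g : ∀ r : ι, InSq K (h0, h1, c0, c1, ρ) r ↔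
          ((c0 - ρ ≤ K.ht r h0 ∧ K.ht r h0 ≤ c0 + ρ) ∧
            (c1 - ρ ≤ K.ht r h1 ∧ K.ht r h1 ≤ c1 + ρ)) := by
        intro r
        unfold InSq
        simp only [abs_le]
        constructor
        · rintro ⟨⟨k1, k2⟩, k3, k4⟩
          refine ⟨⟨by linarith, by linarith⟩, by linarith, by linarith⟩
        · rintro ⟨⟨k1, k2⟩, k3, k4⟩
          refine ⟨⟨by linarith, by linarith⟩, by linarith, by linarith⟩
      rw [g, g, f2, e1, f4, e3]
    have := card_le_card hsub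
    have u1 := card_union_le
      ((range K.N).filter (fun n => ¬ (K.ht (K.a n) h0 ≤ c0 + ρ ↔ K.ht (K.b n) h0 ≤ c0 + ρ)) ∪
        (range K.N).filter (fun n => ¬ (K.ht (K.a n) h0 < c0 - ρ ↔ K.ht (K.b n) h0 < c0 - ρ)))
      ((range K.N).filter (fun n => ¬ (K.ht (K.a n) h1 ≤ c1 + ρ ↔ K.ht (K.b n) h1 ≤ c1 + ρ)) ∪
        (range K.N).filter (fun n => ¬ (K.ht (K.a n) h1 < c1 - ρ ↔ K.ht (K.b n) h1 < c1 - ρ)))
    have u2 := card_union_le
      ((range K.N).filter (fun n => ¬ (K.ht (K.a n) h0 ≤ c0 + ρ ↔ K.ht (K.b n) h0 ≤ c0 + ρ)))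
      ((range K.N).filter (fun n => ¬ (K.ht (K.a n) h0 < c0 - ρ ↔ K.ht (K.b n) h0 < c0 - ρ)))
    have u3 := card_union_le
      ((range K.N).filter (fun n => ¬ (K.ht (K.a n) h1 ≤ c1 + ρ ↔ K.ht (K.b n) h1 ≤ c1 + ρ)))
      ((range K.N).filter (fun n => ¬ (K.ht (K.a n) h1 < c1 - ρ ↔ K.ht (K.b n) h1 < c1 - ρ)))
    omega
  have hsub : (range K.N).filter (fun n => ∃ z ∈ Z, ¬ (InSq K z (K.a n) ↔ InSq K z (K.b n))) ⊆
      Z.biUnion (fun z => (range K.N).filter (fun n => ¬ (InSq K z (K.a n) ↔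
        InSq K z (K.b n)))) := by
    intro n hn
    rw [mem_filter] at hn
    obtain ⟨hn1, z, hz, hn2⟩ := hn
    rw [mem_biUnion]
    exact ⟨z, hz, by rw [mem_filter]; exact ⟨hn1, hn2⟩⟩
  refine (card_le_card hsub).trans ?_
  refine (card_biUnion_le_card_mul _ _ _ (fun z _ => hone z)).trans ?_
  rw [mul_comm]

end Pool.Agent.Work.MP_e17eac_co.HS
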