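import Pool.Agent.Work.MP_e17eac_co.HS.StB
import Pool.Agent.Work.MP_e17eac_co.HS.Thr

/-!
# HS: few edges are cut by a set `RR`
-/

namespace Pool.Agent.Work.MP_e17eac_co.HS

open Finset
open Pool.Agent.Work.MP_e17eac_co.DH
open Pool.Agent.Work.MP_e17eac_co.B1

theorem I_Cut (h : StSq) : StCut := by
  classical
  intro ι α _ _ _ K b L j i
  have key := h ι K {(L.h0 (L.lab j i), L.h1 (L.lab j i), L.c0 (L.lab j i), L.c1 (L.lab j i),
    Th b * L.rho (L.lab j i))}
  rw [card_singleton] at key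
  have hmem : ∀ q : ι, q ∈ RR K b L j i ↔ InSq K (L.h0 (L.lab j i), L.h1 (L.lab j i),
      L.c0 (L.lab j i), L.c1 (L.lab j i), Th b * L.rho (L.lab j i)) q := by
    intro q
    simp only [RR, mem_filter, mem_univ, true_and, InSq]
  refine le_trans (card_le_card ?_) (key.trans (by omega))
  intro n hn
  rw [mem_filter] at hn ⊢
  refine ⟨hn.1, _, mem_singleton_self _, ?_⟩
  rw [← hmem, ← hmem]
  exact hn.2

end Pool.Agent.Work.MP_e17eac_co.HS
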