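import Pool.Agent.Work.MP_e17eac_co.Bd.B35
import Pool.Agent.Work.MP_e17eac_co.HS.P_CT
import Pool.Agent.Work.MP_e17eac_co.HS.P_Cut

/-!
# HS: common tangents and cuts are theorems
-/

namespace Pool.Agent.Work.MP_e17eac_co.HS

open Pool.Agent.Work.MP_e17eac_co.DH

theorem THinj : StHinj := I_Hinj B1.bTouch

theorem THcnt : StHcnt := I_Hcnt THinj

theorem TCTg : StCTg := I_CTg B1.bPos B1.bTok B1.bPath B1.bLeq B1.bIdx B1.bMir

theorem TUniq : StUniq := I_Uniq THinj

theorem TCPsum : StCPsum := I_CPsum TUniq B1.TCellTok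

theorem TCT : StCT := I_CT TCTg

theorem TThr : StThr := I_Thr B1.bTok B1.bMono B1.bPath B1.bLeq

theorem TSq : StSq := I_Sq TThr

theorem TCut : StCut := I_Cut TSq

end Pool.Agent.Work.MP_e17eac_co.HS
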