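import Pool.Agent.Work.MP_e17eac_co.HS.P_Nest
import Pool.Agent.Work.MP_e17eac_co.HS.FinA
import Pool.Agent.Work.MP_e17eac_co.Bd.B23
import Pool.Agent.Work.MP_e17eac_co.Bd.B29

/-!
# HS, block B: unconditional theorems
-/

namespace Pool.Agent.Work.MP_e17eac_co.HS

theorem TClo : StClo := I_Clo

theorem TCov : StCov := I_Cov

theorem TPM : StPM := I_PM B1.bDey (B1.I_CTOK B1.I_CELL)

theorem TP2 : StP2 := I_P2 B1.bDey (B1.I_CTOK B1.I_CELL) TCut

theorem TPlank : StPlank := I_Plank B1.bDey (B1.I_CTOK B1.I_CELL) TCut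

theorem TNest : StNest := I_Nest B1.bDey (B1.I_CTOK B1.I_CELL) TCut

end Pool.Agent.Work.MP_e17eac_co.HS
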