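import Pool.Agent.Work.MP_e17eac_co.HS.StG
import Pool.Agent.Work.MP_e17eac_co.FINAL.Pts

/-!
# HS, final assembly: the constants
-/

namespace Pool.Agent.Work.MP_e17eac_co.HS

open Finset
open Pool.Agent.Work.MP_e17eac_co.DH
open Pool.Agent.Work.MP_e17eac_co.B1
open Pool.Agent.Work.MP_e17eac_co.DH.XSWEEP (GP)

namespace XFinal

lemma ex_even (R F z : ℕ) : ex R F (2 * z) = R * z := by
  unfold ex
  rw [Nat.mul_div_cancel_left z (by norm_num), Nat.mul_mod_right]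
  ring

lemma ex_odd (R F z : ℕ) : ex R F (2 * z + 1) = R * z + F := by
  unfold ex
  rw [show (2 * z + 1) / 2 = z by omega, show (2 * z + 1) % 2 = 1 by omega]
  ring

/-- A union of few small exceptional sets. -/
lemma exc_union {T : Type} [DecidableEq T] (S : Finset T) (E : Finset ℕ) (N ε : ℝ)
    (P : T → ℕ → Prop)
    (h : ∀ t ∈ S, ∃ X ⊆ E, (X.card : ℝ) ≤ ε * N ∧ ∀ i ∈ E \ X, P t i) :
    ∃ X ⊆ E, (X.card : ℝ) ≤ S.card * (ε * N) ∧ ∀ t ∈ S, ∀ i ∈ E \ X, P t i := by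
  induction S using Finset.induction_on with
  | empty => exact ⟨∅, by simp, by simp, by simp⟩
  | insert a S ha ih =>
    obtain ⟨X, hX, hc, hP⟩ := ih (fun t ht => h t (mem_insert_of_mem ht))
    obtain ⟨Y, hY, hcY, hPY⟩ := h a (mem_insert_self _ _)
    refine ⟨X ∪ Y, union_subset hX hY, ?_, ?_⟩
    · rw [card_insert_of_notMem ha]
      have : ((X ∪ Y).card : ℝ) ≤ X.card + Y.card := by exact_mod_cast card_union_le _ _
      push_cast
      linarith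
    · intro t ht i hi
      rw [mem_sdiff, mem_union, not_or] at hi
      rcases mem_insert.1 ht with rfl | ht
      · exact hPY i (mem_sdiff.2 ⟨hi.1, hi.2.2⟩)
      · exact hP t ht i (mem_sdiff.2 ⟨hi.1, hi.2.1⟩)

variable {ι : Type} [Fintype ι] [DecidableEq ι]

lemma cell_mono (K : KSys ι) (b x : ℕ) {i j : ℕ} (h : i ≤ j) : cell K b x i ≤ cell K b x j := by
  unfold cell
  exact Nat.div_le_div_right (Nat.mul_le_mul_right _ h)

lemma t_mono (K : KSys ι) {i j : ℕ} (h : i ≤ j) (hj : j < K.N) : K.t i ≤ K.t j := by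
  rcases h.lt_or_eq with h | h
  · exact (K.t_lt i j h hj).le
  · rw [h]

lemma base_nonneg {K : KSys ι} {b f u u' : ℕ} {D : ℝ} {E : Finset ℕ} (hN : 0 < K.N)
    (hb : 1 ≤ b) (h : Rt K b f u u' D E) (hE : ∀ i ∈ E, i < K.N) {i : ℕ} (hi : i ∈ E) :
    ta K b f u ≤ tb K b f u' := by
  have hN' : (0 : ℝ) < K.N := by exact_mod_cast hN
  have h1 : (E.filter (fun i' => K.a i' = K.a i ∧ cell K b f i' = u)).Nonempty := by
    by_contra hne
    rw [not_nonempty_iff_eq_empty] at hne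
    have := h.ql i hi
    rw [hne] at this
    simp at this
    linarith
  have h2 : (E.filter (fun i' => K.a i' = K.a i ∧ cell K b f i' = u')).Nonempty := by
    by_contra hne
    rw [not_nonempty_iff_eq_empty] at hne
    have := h.qr i hi
    rw [hne] at this
    simp at this
    linarith
  obtain ⟨j, hj⟩ := h1
  obtain ⟨l, hl⟩ := h2
  rw [mem_filter] at hj hl
  have hjl : j ≤ l := by
    by_contra hlt
    rw [not_le] at hlt
    have := cell_mono K b f hlt.le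
    rw [hj.2.2, hl.2.2] at this
    exact absurd h.lt (not_lt.2 this)
  have hlN := hE l hl.1
  have hjN := hE j hj.1
  have e1 : ta K b f u ≤ K.t j := by
    unfold ta
    exact t_mono K (Nat.sInf_le hj.2.2) hjN
  have e2 : K.t l ≤ tb K b f u' := by
    unfold tb
    have hmem : l ∈ ce K b f u' := by
      rw [ce, mem_filter, mem_range]
      exact ⟨hlN, hl.2.2⟩
    refine t_mono K (le_sup (f := id) hmem) ?_
    obtain ⟨w, hw, hw2⟩ := exists_mem_eq_sup (ce K b f u') ⟨l, hmem⟩ id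
    rw [hw2]
    rw [ce, mem_filter, mem_range] at hw
    exact hw.1
  exact e1.trans ((t_mono K hjl hlN).trans e2)

end XFinal

open XFinal

/-- **Core**: no dense level, for suitable constants. -/
theorem core (hLS : StLS) (hGR : StGR) (hLB : StLB) (hP2 : StP2) (hPl : StPlank) (hRad : StRad)
    (hU : StU) (hLo : StLo) (hST : StST) (hSh : StShort) (hR3 : StR3) (hRLB : StRLB)
    (hG : StG) : ∃ (X : ℕ), ∀ η : ℝ, 0 < η → ∃ n0 : ℕ, ∀ (ι : Type) [Fintype ι]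
    [DecidableEq ι] (K : KSys ι), Function.Injective K.x → GP K.x K.y → n0 ≤ Fintype.card ι →
    ∀ b : ℕ, (Fintype.card ι : ℝ) ^ η ≤ b → (Fintype.card ι : ℝ) ^ ((4 : ℝ) / 3) ≤ b * K.N →
    X ≤ b → (b : ℝ) ^ X ≤ Fintype.card ι → (b : ℝ) ^ X * Fintype.card ι ≤ K.N → False := by
  obtain ⟨m, CG, hm, hG⟩ := hG
  obtain ⟨dp, GG, hGG, hdp, hLS⟩ := hLS
  obtain ⟨c, f, G', hGG', hRad⟩ := hRad hLB hP2 hGR m (GG (2 * m + 1)) hm (hGG _)
  obtain ⟨CU, hU⟩ := hU hLB hPl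
  obtain ⟨CL, hLo⟩ := hLo hLB hP2
  obtain ⟨CS, hST⟩ := hST hLB
  obtain ⟨CH, hSh⟩ := hSh
  obtain ⟨CR, hRLB⟩ := hRLB hLB
  set G := GG (2 * m + 1) with hGdef
  have hG64 : 64 ≤ G := hGG _
  -- constants
  set k := m + 6 with hk
  set a := 4 * G' + 1 with ha        -- `ε = b ^ (-a)`
  set g1' := 8 * c * m + G + G' with hg1   -- `D1 = b ^ g1'`
  set Cm := CU + CL + CS + CH + CR + 1 with hCm
  set gA := (g1' + a) * Cm with hgA   -- `A = b ^ gA`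
  set C4 := (G' + a) * Cm + a with hC4
  obtain ⟨CB, hRad⟩ := hRad k C4
  set P := CB + gA * CG + (g1' + a) * (Cm * (k + 1)) + c + f + 4 * G with hP
  set R := 8 * P with hR
  set F := 3 * G with hF
  set M := R * (m + 2) with hM
  have hk32 : 32 * (m + 1) ≤ 2 ^ k := by
    have : m + 1 ≤ 2 ^ (m + 1) := Nat.lt_two_pow_self.le
    calc 32 * (m + 1) ≤ 32 * 2 ^ (m + 1) := Nat.mul_le_mul_left _ this
      _ = 2 ^ k := by rw [hk]; ring
  refine ⟨8 * M + (P + 5 * M) + 1000 * (4 * (m + 1) ^ 3 + 2) + 2, ?_⟩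
  set XX := 8 * M + (P + 5 * M) + 1000 * (4 * (m + 1) ^ 3 + 2) + 2 with hXX
  have hRM : R * m + R ≤ M := by
    have : R * (m + 2) = R * m + R + R := by ring
    omega
  have hXX1 : 8 * M ≤ XX := by omega
  have hXX2 : P + 5 * M ≤ XX := by omega
  have hXX3 : 1000 * (4 * (m + 1) ^ 3 + 2) ≤ XX := by omega
  have hXX4 : 2 ≤ XX := by omega
  have hPR : P ≤ R := by omega
  have hGP4 : 4 * G ≤ P := by omega
  have hcP : c + f + CB ≤ P := by omega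
  have hAP : gA * CG ≤ P := by omega
  have hgP : (g1' + a) * (Cm * (k + 1)) ≤ P := by omega
  have hC4a : a ≤ C4 := by omega
  have hC4b : (G' + a) * Cm ≤ C4 := by omega
  have hCUm : CU ≤ Cm := by omega
  have hCLm : CL ≤ Cm := by omega
  have hCSm : CS ≤ Cm := by omega
  have hCHm : CH ≤ Cm := by omega
  have hCRm : CR ≤ Cm := by omega
  have hCm1 : 1 ≤ Cm := by omega
  have hG'g : G' ≤ g1' := by omega
  have hgcG : 8 * c * m + G ≤ g1' := by omega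
  have hgAm : g1' + a ≤ gA := by
    rw [hgA]
    exact Nat.le_mul_of_pos_right _ hCm1
  have hG'P : G' ≤ P := by
    have h5 : (g1' + a) * 1 ≤ (g1' + a) * (Cm * (k + 1)) := Nat.mul_le_mul_left _
      (Nat.mul_pos hCm1 (Nat.succ_pos k))
    omega
  clear_value XX
  intro η hη
  obtain ⟨n1, hLS⟩ := hLS (2 * m + 1) η hη
  obtain ⟨n2, hRad⟩ := hRad η hη
  refine ⟨max n1 n2, ?_⟩
  intro ι _ _ K hinj hgp hn b hb hN hXb hbn hbN
  have hb1 : 1 ≤ b := by omega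
  have hb1R : (1 : ℝ) ≤ b := by exact_mod_cast hb1
  have hb2R : (2 : ℝ) ≤ b := by
    have : 2 ≤ b := by omega
    exact_mod_cast this
  have hb0 : (0 : ℝ) < b := by linarith
  have pw : ∀ {u v : ℕ}, u ≤ v → (b : ℝ) ^ u ≤ (b : ℝ) ^ v := fun h => pow_le_pow_right₀ hb1R h
  have h8M : (b : ℝ) ^ (8 * M) ≤ Fintype.card ι := (pw (by omega)).trans hbn
  have hcard0 : (0 : ℝ) ≤ Fintype.card ι := Nat.cast_nonneg _
  have hcard1 : (1 : ℝ) ≤ Fintype.card ι :=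
    (one_le_pow₀ hb1R).trans h8M
  have hexJ : ex R F (2 * m + 1) = R * m + F := ex_odd R F m
  -- label system
  obtain ⟨α, dα, L, E, hls⟩ := hLS ι K hinj hgp ((le_max_left _ _).trans hn) b hb hN (ex R F) M
    (by have := ex_even R F 0; simpa using this)
    (by
      intro j hj
      rcases Nat.even_or_odd' j with ⟨z, rfl | rfl⟩
      · rw [ex_even, ex_odd]
        have := (hdp (2 * m + 1) (2 * m + 1 - 2 * z) (by omega)).2
        omega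
      · rw [ex_odd, show 2 * z + 1 + 1 = 2 * (z + 1) by ring, ex_even]
        have := (hdp (2 * m + 1) (2 * m + 1 - (2 * z + 1)) (by omega)).2
        have e1 : R * (z + 1) = R * z + R := by ring
        omega)
    (by rw [hexJ]; omega) h8M
  have hfine : ∀ z, z ≤ m → Fine b (2 * m + 1) (ex R F) ((b : ℝ) ^ G) (2 * z) := by
    intro z hz
    refine ⟨by omega, ?_, ?_⟩
    · rw [ex_even, ex_odd, ← pow_mul, pow_add, mul_comm ((b : ℝ) ^ (R * z))]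
      refine mul_le_mul_of_nonneg_right ?_ (by positivity)
      have h12 : (12 : ℝ) ≤ (b : ℝ) ^ G := by
        calc (12 : ℝ) ≤ 2 ^ 64 := by norm_num
          _ ≤ (b : ℝ) ^ 64 := by gcongr
          _ ≤ (b : ℝ) ^ G := pw hG64
      calc 12 * (b : ℝ) ^ (G * 2) ≤ (b : ℝ) ^ G * (b : ℝ) ^ (G * 2) :=
            mul_le_mul_of_nonneg_right h12 (by positivity)
        _ = (b : ℝ) ^ F := by rw [← pow_add, hF]; congr 1; ring
    · rw [ex_even, ex_odd, ← pow_mul, ← pow_add]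
      exact pw (by omega)
  -- `ρ`
  set ρ : ℝ := (b : ℝ) ^ P with hρ
  have hρ8 : ρ ^ 8 ≤ (b : ℝ) ^ R := by rw [hρ, ← pow_mul, hR, mul_comm]
  have hit : (b : ℝ) ^ (4 * ex R F (2 * m + 1)) ≤ ρ ^ (2 ^ k) := by
    rw [hρ, ← pow_mul, hexJ]
    apply pw
    have h1 : F ≤ R := by omega
    have h2 : 4 * (R * m + F) ≤ 4 * (R * m + R) := by omega
    have h3 : 4 * (R * m + R) = P * (32 * (m + 1)) := by rw [hR]; ring
    have h4 : P * (32 * (m + 1)) ≤ P * 2 ^ k := Nat.mul_le_mul_left _ hk32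
    omega
  have hnnP : ∀ t : ℕ, t ≤ P → (b : ℝ) ^ t * (Fintype.card ι * (b : ℝ) ^ (5 * M)) ≤ K.N := by
    intro t ht
    calc (b : ℝ) ^ t * (Fintype.card ι * (b : ℝ) ^ (5 * M))
        = (b : ℝ) ^ (t + 5 * M) * Fintype.card ι := by rw [pow_add]; ring
      _ ≤ (b : ℝ) ^ XX * Fintype.card ι := mul_le_mul_of_nonneg_right (pw (by omega)) hcard0
      _ ≤ K.N := hbN
  obtain ⟨E4, X4, U, u, u', rm, rp, hs4, hX4⟩ := hRad ι α K hinj hgp
    ((le_max_right _ _).trans hn) b hb hN R M F (fun j => ex R F j + dp (2 * m + 1 - j)) L E ρ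
    (by omega) (by omega) (by omega) hRM h8M hls hfine (pw (by omega)) hρ8 hit
    (hnnP CB (by omega))
  -- `ε`
  set ε : ℝ := ((b : ℝ) ^ a)⁻¹ with hε
  have hε0 : 0 < ε := by rw [hε]; positivity
  have hε1 : ε ≤ 1 := by
    rw [hε]
    exact inv_le_one_of_one_le₀ (one_le_pow₀ hb1R)
  have hDε : ∀ g : ℕ, (b : ℝ) ^ g / ε = (b : ℝ) ^ (g + a) := by
    intro g
    rw [hε, div_inv_eq_mul, pow_add (b : ℝ) g a]
  have hBg : ∀ g C : ℕ, g ≤ g1' → C ≤ Cm →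
      Bg K b M (2 * m + 1) (ex R F) ((b : ℝ) ^ g) ε ρ k C := by
    intro g C hg hC
    have hexp : (g + a) * (C * (k + 1)) ≤ (g1' + a) * (Cm * (k + 1)) :=
      Nat.mul_le_mul (by omega) (Nat.mul_le_mul_right _ hC)
    refine ⟨hε0, hε1, ?_, hit, ?_⟩
    · rw [hDε, ← pow_mul, hρ]
      exact pw (by omega)
    · rw [hDε, ← pow_mul]
      exact hnnP _ (by omega)
  have hX4' : ∀ C : ℕ, C ≤ Cm → ((b : ℝ) ^ G') ^ C * (X4.card : ℝ) ≤ ε ^ C * K.N := by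
    intro C hC
    have e1 : ε ^ C = ((b : ℝ) ^ (a * C))⁻¹ := by rw [hε, inv_pow, ← pow_mul]
    rw [e1, inv_mul_eq_div, le_div_iff₀ (by positivity), ← pow_mul]
    calc (b : ℝ) ^ (G' * C) * (X4.card : ℝ) * (b : ℝ) ^ (a * C)
        = (b : ℝ) ^ (G' * C + a * C) * X4.card := by rw [pow_add]; ring
      _ ≤ (b : ℝ) ^ C4 * X4.card := by
          refine mul_le_mul_of_nonneg_right (pw ?_) (Nat.cast_nonneg _)
          have : (G' + a) * C ≤ (G' + a) * Cm := Nat.mul_le_mul_left _ hC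
          have e2 : G' * C + a * C = (G' + a) * C := by ring
          omega
      _ ≤ K.N := hX4
  have hX4e : (X4.card : ℝ) ≤ ε * K.N := by
    rw [hε, inv_mul_eq_div, le_div_iff₀ (by positivity)]
    calc (X4.card : ℝ) * (b : ℝ) ^ a = (b : ℝ) ^ a * X4.card := by ring
      _ ≤ (b : ℝ) ^ C4 * X4.card := mul_le_mul_of_nonneg_right (pw (by omega)) (Nat.cast_nonneg _)
      _ ≤ K.N := hX4
  -- the exceptional sets
  set I : Finset (ℕ × ℕ × ℕ) := range (m + 1) ×ˢ range (m + 1) ×ˢ range (m + 1) with hI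
  have hIc : (I.card : ℝ) = ((m : ℝ) + 1) ^ 3 := by
    rw [hI]
    simp only [card_product, card_range]
    push_cast
    ring
  have hIm : ∀ x y z, x ≤ m → y ≤ m → z ≤ m → (x, y, z) ∈ I := by
    intro x y z hx hy hz
    simp only [hI, mem_product, mem_range]
    omega
  have hempty : ∀ Q : ℕ → Prop, (∀ i ∈ E4, Q i) → ∃ X ⊆ E4, (X.card : ℝ) ≤ ε * K.N ∧
      ∀ i ∈ E4 \ X, Q i := fun Q hQ => ⟨∅, by simp, by simp; positivity, fun i hi =>
        hQ i (mem_sdiff.1 hi).1⟩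
  obtain ⟨XU, hXU, hcU, hPU⟩ := exc_union I E4 K.N ε
    (fun t i => 1 ≤ t.1 → t.1 < t.2.2 → 1 ≤ t.2.1 → t.2.1 ≤ t.2.2 → t.2.2 ≤ m →
      2 * t.2.2 + 1 ≤ t.1 + 2 * t.2.1 →
      (g1 K b (R * t.1) (R * t.1 + c) (U t.1) i - g0 K b (R * t.1) (R * t.1 + c) (U t.1) i) *
      rm t.2.1 (K.a i) ≤ rp t.2.2 (K.a i) * (tb K b f u' - ta K b f u)) (by
    rintro ⟨x, y, z⟩ -
    by_cases hc : 1 ≤ x ∧ x < z ∧ 1 ≤ y ∧ y ≤ z ∧ z ≤ m ∧ 2 * z + 1 ≤ x + 2 * y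
    · obtain ⟨h1, h2, h3, h4, h5, h6⟩ := hc
      obtain ⟨X, hX, hXc, hXP⟩ := hU ι α K hinj b M m R F _ _ _ ρ L E E4 X4 U c f u u' rm rp hs4 ε k
        (hBg G' CU (by omega) (by omega)) hρ8 (hX4' CU (by omega)) x y z h1 h2 h3 h4 h5 h6
      exact ⟨X, hX, hXc, fun i hi _ _ _ _ _ _ => hXP i hi⟩
    · exact hempty _ fun i _ h1 h2 h3 h4 h5 h6 => absurd ⟨h1, h2, h3, h4, h5, h6⟩ hc)
  obtain ⟨XL, hXL, hcL, hPL⟩ := exc_union I E4 K.N ε
    (fun t i => 1 ≤ t.1 → t.1 < t.2.2 → 1 ≤ t.2.1 → t.2.1 ≤ t.2.2 → t.2.2 ≤ m →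
      t.1 + 2 * t.2.1 + 1 ≤ 2 * t.2.2 → t.2.2 + 1 ≤ 2 * t.2.1 →
      rm t.2.2 (K.a i) * (tb K b f u' - ta K b f u) ≤
      (g1 K b (R * t.1) (R * t.1 + c) (U t.1) i - g0 K b (R * t.1) (R * t.1 + c) (U t.1) i) *
        rp t.2.1 (K.a i)) (by
    rintro ⟨x, y, z⟩ -
    by_cases hc : 1 ≤ x ∧ x < z ∧ 1 ≤ y ∧ y ≤ z ∧ z ≤ m ∧ x + 2 * y + 1 ≤ 2 * z ∧ z + 1 ≤ 2 * y
    · obtain ⟨h1, h2, h3, h4, h5, h6, h7⟩ := hc
      obtain ⟨X, hX, hXc, hXP⟩ := hLo ι α K hinj b M m R F _ _ _ ρ L E E4 X4 U c f u u' rm rp hs4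
        ε k (hBg G' CL (by omega) (by omega)) hρ8 (hX4' CL (by omega)) x y z h1 h2 h3 h4 h5 h6 h7
      exact ⟨X, hX, hXc, fun i hi _ _ _ _ _ _ _ => hXP i hi⟩
    · exact hempty _ fun i _ h1 h2 h3 h4 h5 h6 h7 => absurd ⟨h1, h2, h3, h4, h5, h6, h7⟩ hc)
  set A : ℝ := (b : ℝ) ^ gA with hA
  have hlossN : ∀ (g C : ℕ) (v w : ℝ), g ≤ g1' → C ≤ Cm → 0 ≤ w → 0 ≤ v →
      ε ^ C * v ≤ ((b : ℝ) ^ g) ^ C * w → v ≤ A * w := by
    intro g C v w hg hC hw hv h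
    have e1 : ε ^ C = ((b : ℝ) ^ (a * C))⁻¹ := by rw [hε, inv_pow, ← pow_mul]
    rw [e1, inv_mul_eq_div, div_le_iff₀ (by positivity), ← pow_mul] at h
    calc v ≤ (b : ℝ) ^ (g * C) * w * (b : ℝ) ^ (a * C) := h
      _ = (b : ℝ) ^ (g * C + a * C) * w := by rw [pow_add]; ring
      _ ≤ A * w := by
          refine mul_le_mul_of_nonneg_right (pw ?_) hw
          have : (g + a) * C ≤ (g1' + a) * Cm := Nat.mul_le_mul (by omega) hC
          have e2 : g * C + a * C = (g + a) * C := by ring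
          omega
  obtain ⟨XS, hXS, hcS, hPS⟩ := exc_union I E4 K.N ε
    (fun t i => 1 ≤ t.1 → t.1 ≤ t.2.2 → 1 ≤ t.2.1 → t.2.1 ≤ t.2.2 → t.2.2 ≤ m →
      t.2.2 + 1 ≤ 2 * t.2.1 →
      ∃ i1 ∈ EE K b (R * t.1) E4 i \ X4, ∃ i2 ∈ E4 \ X4, K.a i2 = K.a i ∧
      cell K b f i2 ≠ cell K b f i ∧ (Fintype.card ι : ℝ) ≤
      A * (b : ℝ) ^ (2 * (R * t.2.1) + 2 * (R * t.2.2)) *
        ((NN K E4 (L.lab (2 * t.2.2)) i1 ∩ NN K E4 (L.lab (2 * t.2.1)) i2).card : ℝ)) (by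
    rintro ⟨x, y, z⟩ -
    by_cases hc : 1 ≤ x ∧ x ≤ z ∧ 1 ≤ y ∧ y ≤ z ∧ z ≤ m ∧ z + 1 ≤ 2 * y
    · obtain ⟨h1, h2, h3, h4, h5, h6⟩ := hc
      obtain ⟨X, hX, hXc, hXP⟩ := hST ι α K hinj b M m R F _ _ _ ρ L E E4 X4 U c f u u' rm rp hs4
        ε k (hBg G' CS (by omega) (by omega)) hρ8 (hX4' CS (by omega)) x y z h1 h2 h3 h4 h5 h6
      refine ⟨X, hX, hXc, fun i hi _ _ _ _ _ _ => ?_⟩
      obtain ⟨i1, hi1, i2, hi2, h7, h8, h9⟩ := hXP i hi
      refine ⟨i1, hi1, i2, hi2, h7, h8, ?_⟩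
      have := hlossN G' CS (Fintype.card ι) ((b : ℝ) ^ (2 * (R * y) + 2 * (R * z)) *
        ((NN K E4 (L.lab (2 * z)) i1 ∩ NN K E4 (L.lab (2 * y)) i2).card : ℝ)) (by omega)
        (by omega) (by positivity) hcard0 (by rw [← mul_assoc]; exact h9)
      rw [← mul_assoc] at this
      exact this
    · exact hempty _ fun i _ h1 h2 h3 h4 h5 h6 => absurd ⟨h1, h2, h3, h4, h5, h6⟩ hc)
  obtain ⟨XH, hXH, hcH, hPH⟩ := exc_union I E4 K.N ε
    (fun t i => 1 ≤ t.1 → t.1 ≤ m →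
      (g1 K b (R * t.1) (R * t.1 + c) (U t.1) i - g0 K b (R * t.1) (R * t.1 + c) (U t.1) i) *
      (b : ℝ) ^ (4 * (R * t.1)) * ε ^ CH ≤ ((b : ℝ) ^ G') ^ CH * (tb K b f u' - ta K b f u)) (by
    rintro ⟨x, y, z⟩ -
    by_cases hc : 1 ≤ x ∧ x ≤ m
    · obtain ⟨X, hX, hXc, hXP⟩ := hSh ι α K hinj b M m R F _ _ _ ρ L E E4 X4 U c f u u' rm rp hs4
        ε hε0 hε1 x hc.1 hc.2
      exact ⟨X, hX, hXc, fun i hi _ _ => hXP i hi⟩
    · exact hempty _ fun i _ h1 h2 => absurd ⟨h1, h2⟩ hc)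
  set X5 := X4 ∪ (XU ∪ (XL ∪ (XS ∪ XH))) with hX5
  have hX5E : X5 ⊆ E4 := union_subset hs4.X4s (union_subset hXU (union_subset hXL
    (union_subset hXS hXH)))
  have hN0 : (0 : ℝ) ≤ K.N := Nat.cast_nonneg _
  have hX5c : (X5.card : ℝ) ≤ (4 * ((m : ℝ) + 1) ^ 3 + 1) * (ε * K.N) := by
    have h1 : (X5.card : ℝ) ≤ X4.card + (XU.card + (XL.card + (XS.card + XH.card))) := by
      exact_mod_cast (card_union_le _ _).trans (Nat.add_le_add_left ((card_union_le _ _).trans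
        (Nat.add_le_add_left ((card_union_le _ _).trans (Nat.add_le_add_left
          (card_union_le _ _) _)) _)) _)
    rw [hIc] at hcU hcL hcS hcH
    have e : (4 * ((m : ℝ) + 1) ^ 3 + 1) * (ε * K.N) =
      4 * (((m : ℝ) + 1) ^ 3 * (ε * K.N)) + ε * K.N := by ring
    rw [e]
    linarith
  have hbbig : 1000 * (4 * ((m : ℝ) + 1) ^ 3 + 2) ≤ b := by
    have : 1000 * (4 * (m + 1) ^ 3 + 2) ≤ b := hXX3.trans hXb
    exact_mod_cast this
  have hεD : 1000 * ((b : ℝ) ^ G') ^ 4 * (4 * ((m : ℝ) + 1) ^ 3 + 2) * ε ≤ 1 := by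
    rw [hε, ← div_eq_mul_inv, div_le_one (by positivity), ha, pow_succ (b : ℝ) (4 * G'),
      ← pow_mul]
    calc 1000 * (b : ℝ) ^ (G' * 4) * (4 * ((m : ℝ) + 1) ^ 3 + 2)
        = (b : ℝ) ^ (4 * G') * (1000 * (4 * ((m : ℝ) + 1) ^ 3 + 2)) := by
          rw [mul_comm G' 4]; ring
      _ ≤ (b : ℝ) ^ (4 * G') * b := mul_le_mul_of_nonneg_left hbbig (by positivity)
  have hG'A : G' ≤ gA := by omega
  refine hG ι α K b M R F _ ((b : ℝ) ^ G) ((b : ℝ) ^ G') ρ A L E E4 X4 (E4 \ X5) U c f u u' rm rp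
    (by rw [hA, hρ, ← pow_mul]; exact pw (by omega)) ⟨hs4, hinj, pw hG'A, ?_, hρ8, ?_, ?_, ?_, ?_,
      ?_, ?_, ?_, ?_⟩
  · rw [← pow_add]
    exact pw (by omega)
  · exact sdiff_subset_sdiff subset_rfl (subset_union_left)
  · rw [Finset.sdiff_sdiff_eq_self hX5E]
    calc 1000 * ((b : ℝ) ^ G') ^ 4 * (X5.card : ℝ)
        ≤ 1000 * ((b : ℝ) ^ G') ^ 4 * ((4 * ((m : ℝ) + 1) ^ 3 + 1) * (ε * K.N)) :=
          mul_le_mul_of_nonneg_left hX5c (by positivity)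
      _ ≤ 1000 * ((b : ℝ) ^ G') ^ 4 * ((4 * ((m : ℝ) + 1) ^ 3 + 2) * (ε * K.N)) := by
          refine mul_le_mul_of_nonneg_left (mul_le_mul_of_nonneg_right (by linarith)
            (by positivity)) (by positivity)
      _ = (1000 * ((b : ℝ) ^ G') ^ 4 * (4 * ((m : ℝ) + 1) ^ 3 + 2) * ε) * K.N := by ring
      _ ≤ 1 * K.N := mul_le_mul_of_nonneg_right hεD hN0
      _ = K.N := one_mul _
  · intro x y z h1 h2 h3 h4 h5 h6 i hi
    rw [mem_sdiff, hX5, mem_union, mem_union, not_or, not_or] at hi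
    exact hPU (x, y, z) (hIm x y z (by omega) (by omega) h5) i
      (mem_sdiff.2 ⟨hi.1, hi.2.2.1⟩) h1 h2 h3 h4 h5 h6
  · intro x y z h1 h2 h3 h4 h5 h6 h7 i hi
    rw [mem_sdiff, hX5, mem_union, mem_union, mem_union, not_or, not_or, not_or] at hi
    exact hPL (x, y, z) (hIm x y z (by omega) (by omega) h5) i
      (mem_sdiff.2 ⟨hi.1, hi.2.2.2.1⟩) h1 h2 h3 h4 h5 h6 h7
  · intro x y z h1 h2 h3 h4 h5 h6 i hi
    rw [mem_sdiff, hX5, mem_union, mem_union, mem_union, mem_union, not_or, not_or, not_or,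
      not_or] at hi
    exact hPS (x, y, z) (hIm x y z (by omega) (by omega) h5) i
      (mem_sdiff.2 ⟨hi.1, hi.2.2.2.2.1⟩) h1 h2 h3 h4 h5 h6
  · intro x h1 h2 i hi
    rw [mem_sdiff, hX5, mem_union, mem_union, mem_union, mem_union, not_or, not_or, not_or,
      not_or] at hi
    have h3 := hPH (x, 0, 0) (hIm x 0 0 h2 (by omega) (by omega)) i
      (mem_sdiff.2 ⟨hi.1, hi.2.2.2.2.2⟩) h1 h2
    simp only at h3
    have hI0 : 0 ≤ tb K b f u' - ta K b f u :=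
      sub_nonneg.2 (base_nonneg hls.npos hb1 hs4.rt (fun i hi => (hls.hyg i (hs4.sub hi)).lt) hi.1)
    by_cases hv : 0 ≤ (g1 K b (R * x) (R * x + c) (U x) i - g0 K b (R * x) (R * x + c) (U x) i) *
      (b : ℝ) ^ (4 * (R * x))
    · exact hlossN G' CH _ _ (by omega) (by omega) hI0 hv (by rw [mul_comm]; exact h3)
    · rw [not_le] at hv
      exact hv.le.trans (by positivity)
  · intro z h1 h2 i hi
    rw [mem_sdiff, hX5, mem_union, not_or] at hi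
    refine hR3 ι α K b M m R F _ _ _ ρ L E E4 X4 U c f u u' rm rp hs4 ?_ z h1 h2 i
      (mem_sdiff.2 ⟨hi.1, hi.2.1⟩)
    rw [hρ, ← pow_mul, ← pow_add]
    refine pow_lt_pow_right₀ (by linarith) ?_
    omega
  · intro γ _ y hy1 hy2 g hg1' hg2
    have h1 := hRLB ι α γ K hinj b M m R F _ _ _ ρ L E E4 X4 U c f u u' rm rp hs4
      ((b : ℝ) ^ g1') ε k (pw (by omega)) (hBg g1' CR le_rfl (by omega)) hρ8 y hy1 hy2
      (E4 \ X5) sdiff_subset g hg1' (fun w => (hg2 w).trans (by rw [← pow_add]; exact pw (by omega)))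
    have h2 : ((((E4 \ X5) ×ˢ (E4 \ X5)).filter (fun v : ℕ × ℕ => K.a v.1 = K.a v.2 ∧
        cell K b f v.1 = u ∧ cell K b f v.2 = u' ∧ A * (b : ℝ) ^ (4 * (R * y)) *
        ((NN K (E4 \ X5) g v.1 ∩ NN K (E4 \ X5) g v.2).card : ℝ) < Fintype.card ι)).card : ℝ) ≤
        ((((E4 \ X5) ×ˢ (E4 \ X5)).filter (fun v : ℕ × ℕ => K.a v.1 = K.a v.2 ∧
        cell K b f v.1 = u ∧ cell K b f v.2 = u' ∧ ((b : ℝ) ^ g1') ^ CR *
        (b : ℝ) ^ (4 * (R * y)) * ((NN K (E4 \ X5) g v.1 ∩ NN K (E4 \ X5) g v.2).card : ℝ) <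
          ε ^ CR * Fintype.card ι)).card : ℝ) := by
      refine Nat.cast_le.2 (card_le_card fun v hv => ?_)
      rw [mem_filter] at hv ⊢
      refine ⟨hv.1, hv.2.1, hv.2.2.1, hv.2.2.2.1, ?_⟩
      by_contra hcon
      rw [not_lt] at hcon
      have h3 := hlossN g1' CR (Fintype.card ι) ((b : ℝ) ^ (4 * (R * y)) *
        ((NN K (E4 \ X5) g v.1 ∩ NN K (E4 \ X5) g v.2).card : ℝ)) le_rfl hCRm (by positivity)
        hcard0 (by rw [← mul_assoc]; exact hcon)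
      rw [← mul_assoc] at h3
      exact absurd hv.2.2.2.2 (not_lt.2 h3)
    have h4 : 1000 * ((b : ℝ) ^ G') ^ 4 * ε ≤ 1 := by
      refine le_trans ?_ hεD
      refine mul_le_mul_of_nonneg_right ?_ hε0.le
      have h6 : (0 : ℝ) ≤ 1000 * ((b : ℝ) ^ G') ^ 4 := by positivity
      have h7 : (0 : ℝ) ≤ ((m : ℝ) + 1) ^ 3 := by positivity
      nlinarith
    have h8 : 1000 * ((b : ℝ) ^ G') ^ 4 * (ε * (K.N : ℝ) ^ 2) ≤ (K.N : ℝ) ^ 2 := by
      calc 1000 * ((b : ℝ) ^ G') ^ 4 * (ε * (K.N : ℝ) ^ 2)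
          = 1000 * ((b : ℝ) ^ G') ^ 4 * ε * (K.N : ℝ) ^ 2 := by ring
        _ ≤ 1 * (K.N : ℝ) ^ 2 := mul_le_mul_of_nonneg_right h4 (by positivity)
        _ = (K.N : ℝ) ^ 2 := one_mul _
    refine le_trans ?_ h8
    rw [mul_assoc]
    refine mul_le_mul_of_nonneg_left ?_ (by positivity)
    exact (mul_le_mul_of_nonneg_right h2 hcard0).trans h1

/-- Choice of the base. -/
theorem stK_of_core (hcore : ∃ (X : ℕ), ∀ η : ℝ, 0 < η → ∃ n0 : ℕ, ∀ (ι : Type) [Fintype ι]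
    [DecidableEq ι] (K : KSys ι), Function.Injective K.x → GP K.x K.y → n0 ≤ Fintype.card ι →
    ∀ b : ℕ, (Fintype.card ι : ℝ) ^ η ≤ b → (Fintype.card ι : ℝ) ^ ((4 : ℝ) / 3) ≤ b * K.N →
    X ≤ b → (b : ℝ) ^ X ≤ Fintype.card ι → (b : ℝ) ^ X * Fintype.card ι ≤ K.N → False)
    (hDey : StDeyI) : FINAL.StK := by
  obtain ⟨X, hcore⟩ := hcore
  set η : ℝ := 1 / (12 * (X + 2)) with hη
  have hX0 : (0 : ℝ) ≤ X := Nat.cast_nonneg _
  have hη0 : 0 < η := by rw [hη]; positivity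
  have hηX : 12 * (η * (X + 2)) = 1 := by rw [hη]; field_simp
  have hη24 : η ≤ 1 / 24 := by
    rw [hη]
    apply one_div_le_one_div_of_le (by norm_num)
    linarith
  obtain ⟨n0, hn0⟩ := hcore η hη0
  -- a threshold
  obtain ⟨n1, hn1⟩ : ∃ n1 : ℕ, ∀ n : ℕ, n1 ≤ n → (X : ℝ) + 2 ≤ (n : ℝ) ^ η := by
    have h := (tendsto_rpow_atTop hη0).comp tendsto_natCast_atTop_atTop
    obtain ⟨n1, h1⟩ := (h.eventually_ge_atTop ((X : ℝ) + 2)).exists_forall_of_atTop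
    exact ⟨n1, fun n hn => h1 n hn⟩
  set n2 := max n0 n1 + 1 with hn2
  refine ⟨η, hη0, 16 * (n2 : ℝ) ^ 2 + 1, by positivity, ?_⟩
  intro ι _ _ K hinj hgp
  set n := Fintype.card ι with hn
  have hn1' : 1 ≤ n := Fintype.card_pos_iff.2 ⟨K.a 0⟩
  have hnR : (1 : ℝ) ≤ n := by exact_mod_cast hn1'
  have hnR0 : (0 : ℝ) < n := by linarith
  by_cases hbig : n2 ≤ n
  · by_contra hcon
    rw [not_le] at hcon
    have hpow1 : (n : ℝ) ^ ((4 : ℝ) / 3 - η) ≤ K.N := by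
      refine le_trans ?_ hcon.le
      have h0 : (0 : ℝ) ≤ (n : ℝ) ^ ((4 : ℝ) / 3 - η) := by positivity
      have h1 : (1 : ℝ) ≤ 16 * (n2 : ℝ) ^ 2 + 1 := by
        have : (0 : ℝ) ≤ (n2 : ℝ) ^ 2 := by positivity
        linarith
      nlinarith
    have hX2 := hn1 n (by omega)
    set b := ⌈(n : ℝ) ^ η⌉₊ with hb
    have hb1 : (n : ℝ) ^ η ≤ b := Nat.le_ceil _
    have hb2 : (b : ℝ) ≤ (n : ℝ) ^ (2 * η) := by
      have h1 : (b : ℝ) < (n : ℝ) ^ η + 1 := Nat.ceil_lt_add_one (by positivity)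
      have e1 : (n : ℝ) ^ (2 * η) = (n : ℝ) ^ η * (n : ℝ) ^ η := by
        rw [two_mul, Real.rpow_add hnR0]
      have h2 : (2 : ℝ) ≤ (n : ℝ) ^ η := by linarith
      rw [e1]
      nlinarith
    have hbX : (b : ℝ) ^ X ≤ (n : ℝ) ^ ((1 : ℝ) / 6) := by
      calc (b : ℝ) ^ X ≤ ((n : ℝ) ^ (2 * η)) ^ X := pow_le_pow_left₀ (Nat.cast_nonneg _) hb2 _
        _ = (n : ℝ) ^ (2 * η * X) := by rw [← Real.rpow_natCast, ← Real.rpow_mul hnR0.le]
        _ ≤ (n : ℝ) ^ ((1 : ℝ) / 6) := by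
            apply Real.rpow_le_rpow_of_exponent_le hnR
            nlinarith
    refine hn0 ι K hinj hgp (by omega) b hb1 ?_ ?_ ?_ ?_
    · calc (n : ℝ) ^ ((4 : ℝ) / 3) = (n : ℝ) ^ η * (n : ℝ) ^ ((4 : ℝ) / 3 - η) := by
            rw [← Real.rpow_add hnR0]; congr 1; ring
        _ ≤ b * K.N := mul_le_mul hb1 hpow1 (by positivity) (Nat.cast_nonneg _)
    · have : (X : ℝ) ≤ b := by linarith
      exact_mod_cast this
    · refine hbX.trans ?_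
      calc (n : ℝ) ^ ((1 : ℝ) / 6) ≤ (n : ℝ) ^ (1 : ℝ) :=
            Real.rpow_le_rpow_of_exponent_le hnR (by norm_num)
        _ = n := Real.rpow_one _
    · calc (b : ℝ) ^ X * n ≤ (n : ℝ) ^ ((1 : ℝ) / 6) * n :=
            mul_le_mul_of_nonneg_right hbX hnR0.le
        _ = (n : ℝ) ^ ((1 : ℝ) / 6 + 1) := by rw [Real.rpow_add hnR0, Real.rpow_one]
        _ ≤ (n : ℝ) ^ ((4 : ℝ) / 3 - η) := Real.rpow_le_rpow_of_exponent_le hnR (by linarith)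
        _ ≤ K.N := hpow1
  · rw [not_le] at hbig
    have h1 := hDey ι K hinj 0 K.N le_rfl
    have h2 : (Ico 0 K.N).card = K.N := by simp
    have h3 : (K.lines (Ico 0 K.N)).card ≤ n := card_le_univ _
    rw [h2] at h1
    have h4 : K.N ^ 3 ≤ (16 * n2 ^ 2) ^ 3 := by
      calc K.N ^ 3 ≤ 4096 * (K.lines (Ico 0 K.N)).card ^ 4 := h1
        _ ≤ 4096 * n2 ^ 4 := Nat.mul_le_mul_left _ (Nat.pow_le_pow_left (h3.trans hbig.le) 4)
        _ ≤ 4096 * n2 ^ 6 := Nat.mul_le_mul_left _ (Nat.pow_le_pow_right (by omega) (by norm_num))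
        _ = (16 * n2 ^ 2) ^ 3 := by ring
    have h5 : K.N ≤ 16 * n2 ^ 2 := by
      by_contra hlt
      rw [not_le] at hlt
      exact absurd h4 (not_le.2 (Nat.pow_lt_pow_left hlt (by norm_num)))
    have h6 : (K.N : ℝ) ≤ 16 * (n2 : ℝ) ^ 2 := by exact_mod_cast h5
    have h7 : (1 : ℝ) ≤ (n : ℝ) ^ ((4 : ℝ) / 3 - η) := Real.one_le_rpow hnR (by linarith)
    have h8 : (0 : ℝ) ≤ 16 * (n2 : ℝ) ^ 2 + 1 := by positivity
    nlinarith

/-- **Power saving for the sweep of a level.** -/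
theorem stK (hLS : StLS) (hGR : StGR) (hLB : StLB) (hP2 : StP2) (hPl : StPlank) (hRad : StRad)
    (hU : StU) (hLo : StLo) (hST : StST) (hSh : StShort) (hR3 : StR3) (hRLB : StRLB)
    (hG : StG) (hDey : StDeyI) : FINAL.StK :=
  stK_of_core (core hLS hGR hLB hP2 hPl hRad hU hLo hST hSh hR3 hRLB hG) hDey

end Pool.Agent.Work.MP_e17eac_co.HS
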