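import Pool.Agent.Work.MP_e17eac_co.HS.LStep

/-!
# Arbitrary sets, short chain HS, block HS-D: iteration of the level step (helper40)
-/

namespace Pool.Agent.Work.MP_e17eac_co.HS

open Finset
open Pool.Agent.Work.MP_e17eac_co.DH
open Pool.Agent.Work.MP_e17eac_co.B1
open Pool.Agent.Work.MP_e17eac_co.DH.XSWEEP (GP)

/-- Loss exponents. -/
def lD (C0 : ℕ) : ℕ → ℕ
  | 0 => 1
  | k + 1 => 2 * lD C0 k + 12 + (C0 * (lD C0 k + 1) + 1) + C0

/-- Depths of the children. -/
def ldp (C0 k : ℕ) : ℕ := C0 * (lD C0 k + 1) + 1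

/-- Quota and label exponents. -/
def lg (C0 k : ℕ) : ℕ := C0 * (ldp C0 k + lD C0 k + 1)

/-- **Iteration of the level step.** -/
def StLIter : Prop := ∃ C0 : ℕ, ∀ (J : ℕ) (η : ℝ), 0 < η → ∃ n0 : ℕ, ∀ (ι : Type) [Fintype ι]
  [DecidableEq ι] (K : KSys ι), Function.Injective K.x → GP K.x K.y → n0 ≤ Fintype.card ι →
  ∀ b : ℕ, (Fintype.card ι : ℝ) ^ η ≤ b → (Fintype.card ι : ℝ) ^ ((4 : ℝ) / 3) ≤ b * K.N →
  1 ≤ b → ∀ e : ℕ → ℕ, (∀ j, j < J → e j + ldp C0 (J - j) ≤ e (j + 1)) →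
  (∀ j, j ≤ J → b ^ (4 * (e j + ldp C0 (J - j))) ≤ K.N) →
  (∀ j, j ≤ J → b ^ (4 * e j) * b ^ lg C0 (J - j) ≤ Fintype.card ι) →
  ∀ E ⊆ range K.N, K.N ≤ b * E.card → (∀ j, j ≤ J → Light K b (e j) 12 E) →
  ∃ E' ⊆ E, ∃ kk ll : ℕ → ι → ℕ → ℕ, K.N ≤ b ^ lD C0 (J + 1) * E'.card ∧
    ∀ j, j ≤ J → LevH K b (e j) (e j + ldp C0 (J - j)) (lg C0 (J - j)) E' (kk j) (ll j)

theorem exp_mono {e dp : ℕ → ℕ} {J : ℕ} (h : ∀ j, j < J → e j + dp (J - j) ≤ e (j + 1)) :
    ∀ j j', j < j' → j' ≤ J → e j + dp (J - j) ≤ e j' := by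
  intro j j' hj
  induction j' with
  | zero => omega
  | succ k ih =>
    intro hk
    rcases Nat.lt_succ_iff_lt_or_eq.1 hj with h1 | h1
    · have h2 := ih h1 (by omega)
      have h3 := h k (by omega)
      omega
    · subst h1
      exact h j (by omega)

theorem I_LIter (hL : StLStep) : StLIter := by
  classical
  obtain ⟨C0, hL⟩ := hL
  refine ⟨C0, ?_⟩
  intro J η hη
  choose nf hnf using fun k : ℕ => hL η 12 (lD C0 k) hη
  refine ⟨(range (J + 1)).sup nf, ?_⟩
  intro ι _ _ K hx hgp hn b hb hbN hb1 e he heN hen E hE hED hlight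
  have hnk : ∀ k, k ≤ J → nf k ≤ Fintype.card ι := fun k hk =>
    le_trans (Finset.le_sup (f := nf) (mem_range.2 (by omega))) hn
  have key : ∀ k, k ≤ J + 1 → ∃ E' ⊆ E, ∃ kk ll : ℕ → ι → ℕ → ℕ,
      K.N ≤ b ^ lD C0 k * E'.card ∧
      ∀ j, j ≤ J → J < j + k →
        LevH K b (e j) (e j + ldp C0 (J - j)) (lg C0 (J - j)) E' (kk j) (ll j) := by
    intro k
    induction k with
    | zero =>
      intro _
      refine ⟨E, Subset.refl _, fun _ _ _ => 0, fun _ _ _ => 0, ?_, ?_⟩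
      · simpa [lD] using hED
      · intro j hj hj'
        omega
    | succ k ih =>
      intro hk
      obtain ⟨E1, hE1, kk, ll, h1, h2⟩ := ih (by omega)
      obtain ⟨j0, hj0⟩ : ∃ j0, j0 + k = J := ⟨J - k, by omega⟩
      have hJj : J - j0 = k := by omega
      have hLight1 : Light K b (e j0) 12 E1 := (hlight j0 (by omega)).mono hE1
      have hN1 := heN j0 (by omega)
      have hn1 := hen j0 (by omega)
      rw [hJj] at hN1 hn1
      obtain ⟨E2, kk', ll', h3, h4, h5⟩ := hnf k ι K hx hgp (hnk k (by omega)) b hb hbN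
        (e j0) (e j0 + ldp C0 k) (by unfold ldp; omega) hN1 (by
          have h6 : e j0 + ldp C0 k - e j0 = ldp C0 k := by omega
          rw [h6]
          exact hn1) E1 (hE1.trans hE) h1 hLight1
      have h6 : e j0 + ldp C0 k - e j0 = ldp C0 k := by omega
      rw [h6] at h4 h5
      refine ⟨E2, h3.1.trans hE1, Function.update kk j0 kk', Function.update ll j0 ll', ?_, ?_⟩
      · have h7 : 2 * lD C0 k + 12 + ldp C0 k + C0 = lD C0 (k + 1) := by
          simp only [lD, ldp]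
        rw [← h7]
        exact h4
      · intro j hj hjk
        by_cases hjj : j = j0
        · subst hjj
          rw [Function.update_self, Function.update_self, hJj]
          exact h5
        · rw [Function.update_of_ne hjj, Function.update_of_ne hjj]
          have hlt : j0 < j := by omega
          have h8 := exp_mono he j0 j hlt hj
          rw [hJj] at h8
          exact (h2 j hj (by omega)).fib hb1 (by omega) (h3.fine hb1 h8)
  obtain ⟨E', hE', kk, ll, h1, h2⟩ := key (J + 1) le_rfl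
  exact ⟨E', hE', kk, ll, h1, fun j hj => h2 j hj (by omega)⟩

end Pool.Agent.Work.MP_e17eac_co.HS
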