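import Pool.Agent.Work.MP_e17eac_co.HS.StB
import Pool.Agent.Work.MP_e17eac_co.Bd.B31

/-!
# HS: bodies (I_Body)

For the edge `i` (line `p`, cell `c` of the level `z`, label `w`) choose an edge `d` of `p` in the
left child and an edge `d'` in the right child whose fine labels have the smallest radii. The lines
with all three labels are close to `p` on the hull; few lines have a triple of labels with few
lines.
-/

namespace Pool.Agent.Work.MP_e17eac_co.HS

open Finset
open Pool.Agent.Work.MP_e17eac_co.DH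
open Pool.Agent.Work.MP_e17eac_co.B1

namespace XBody

/-- Three edges in different classes. -/
theorem three (A : Finset ℕ) (c : ℕ → ℕ) (h : 3 ≤ (A.image c).card) :
    ∃ k : Fin 3 → ℕ, (∀ u, k u ∈ A) ∧ c (k 0) < c (k 1) ∧ c (k 1) < c (k 2) := by
  obtain ⟨T, hT, hT3⟩ := exists_subset_card_eq h
  have hmem : ∀ u : Fin 3, ∃ a ∈ A, c a = T.orderEmbOfFin hT3 u := by
    intro u
    exact mem_image.1 (hT (orderEmbOfFin_mem T hT3 u))
  choose k hk hk2 using hmem
  refine ⟨k, hk, ?_, ?_⟩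
  · rw [hk2, hk2]
    exact (T.orderEmbOfFin hT3).strictMono (by decide)
  · rw [hk2, hk2]
    exact (T.orderEmbOfFin hT3).strictMono (by decide)

/-- Counting by fibres. -/
theorem fib {β : Type} [DecidableEq β] (s : Finset ℕ) (f : ℕ → β) (B : ℝ)
    (hB : ∀ a ∈ s.image f, ((s.filter (fun i => f i = a)).card : ℝ) ≤ B) :
    (s.card : ℝ) ≤ (s.image f).card * B := by
  rw [card_eq_sum_card_image f s, Nat.cast_sum, ← nsmul_eq_mul]
  exact sum_le_card_nsmul _ _ _ hB

/-- Extrapolation of an affine function. -/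
theorem extra (y x μ s s' T T' b : ℝ) (h0 : T ≤ s) (h1 : s < s') (h2 : s' ≤ T') (hb : 1 ≤ b)
    (h3 : T' - T ≤ b * (s' - s)) (h4 : |y + x * s| ≤ μ) (h5 : |y + x * s'| ≤ μ) :
    |y + x * T| ≤ 3 * b * μ ∧ |y + x * T'| ≤ 3 * b * μ := by
  have hμ : 0 ≤ μ := le_trans (abs_nonneg _) h4
  have h6 : |x| * (s' - s) ≤ 2 * μ := by
    have : |x| * (s' - s) = |(y + x * s') - (y + x * s)| := by
      rw [show (y + x * s') - (y + x * s) = x * (s' - s) by ring, abs_mul,
        abs_of_pos (by linarith : 0 < s' - s)]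
    rw [this]
    calc _ ≤ |y + x * s'| + |y + x * s| := abs_sub _ _
      _ ≤ 2 * μ := by linarith
  have h7 : |x| * (T' - T) ≤ 2 * b * μ := by
    calc |x| * (T' - T) ≤ |x| * (b * (s' - s)) :=
          mul_le_mul_of_nonneg_left h3 (abs_nonneg _)
      _ = b * (|x| * (s' - s)) := by ring
      _ ≤ b * (2 * μ) := mul_le_mul_of_nonneg_left h6 (by linarith)
      _ = 2 * b * μ := by ring
  have h8 : μ ≤ b * μ := le_mul_of_one_le_left hμ hb
  constructor
  · have h9 : |x| * (s - T) ≤ 2 * b * μ :=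
      le_trans (mul_le_mul_of_nonneg_left (by linarith) (abs_nonneg _)) h7
    have h10 : |x * (s - T)| = |x| * (s - T) := by
      rw [abs_mul, abs_of_nonneg (by linarith : 0 ≤ s - T)]
    calc |y + x * T| = |(y + x * s) - x * (s - T)| := by ring_nf
      _ ≤ |y + x * s| + |x * (s - T)| := abs_sub _ _
      _ ≤ 3 * b * μ := by rw [h10]; linarith
  · have h9 : |x| * (T' - s') ≤ 2 * b * μ :=
      le_trans (mul_le_mul_of_nonneg_left (by linarith) (abs_nonneg _)) h7
    have h10 : |x * (T' - s')| = |x| * (T' - s') := by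
      rw [abs_mul, abs_of_nonneg (by linarith : 0 ≤ T' - s')]
    calc |y + x * T'| = |(y + x * s') + x * (T' - s')| := by ring_nf
      _ ≤ |y + x * s'| + |x * (T' - s')| := abs_add_le _ _
      _ ≤ 3 * b * μ := by rw [h10]; linarith

variable {ι α : Type} [Fintype ι] [DecidableEq ι] [DecidableEq α]

theorem ccoarse (K : KSys ι) {b z x : ℕ} (hb : 1 ≤ b) (h : z ≤ x) {i j : ℕ}
    (hij : cell K b x i = cell K b x j) : cell K b z i = cell K b z j := by
  have h1 := (I_CELL ι K b x hb).2.2.1 z h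
  rw [h1, h1, hij]

theorem mEE {K : KSys ι} {b x : ℕ} {E : Finset ℕ} {i j : ℕ} (h : j ∈ EE K b x E i) :
    j ∈ E ∧ K.a j = K.a i ∧ cell K b x j = cell K b x i := by
  unfold EE at h
  rw [mem_filter] at h
  exact h

/-- Few edges of a line in a cell. -/
theorem light {K : KSys ι} {b M J : ℕ} {e ec : ℕ → ℕ} {D : ℝ} {L : Lb α} {E : Finset ℕ}
    (h : LS K b M J e ec D L E) {x : ℕ} (hx : x ≤ M) {i : ℕ} (hi : i ∈ E) (A : Finset ℕ)
    (hA : ∀ j ∈ A, j ∈ E ∧ K.a j = K.a i ∧ cell K b x j = cell K b x i) :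
    (A.card : ℝ) * (Fintype.card ι * (b : ℝ) ^ x) ≤ D * K.N := by
  refine le_trans (mul_le_mul_of_nonneg_right ?_ (by positivity)) ((h.hyg i hi).light false x hx)
  rw [Nat.cast_le]
  apply card_le_card
  intro j hj
  obtain ⟨h1, h2, h3⟩ := hA j hj
  rw [mem_filter, mem_range]
  exact ⟨(h.hyg j h1).lt, h2, h3⟩

/-- Few fine labels in a cell. -/
theorem few {K : KSys ι} {b M J : ℕ} {e ec : ℕ → ℕ} {D : ℝ} {L : Lb α} {E : Finset ℕ}
    (h : LS K b M J e ec D L E) {z : ℕ} (hz : Fine b J e D z) (hD : 1 ≤ D) (c : ℕ) :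
    (((E.filter (fun i => cell K b (e z) i = c)).image (L.lab (z + 1))).card : ℝ) ≤ D ^ 17 := by
  obtain ⟨hz1, _, hz3⟩ := hz
  have hb : 1 ≤ b := le_trans (by norm_num) h.lev.two
  have hb0 : (0 : ℝ) < b := by exact_mod_cast (by omega : 0 < b)
  have hle : e z ≤ e (z + 1) :=
    le_trans (h.lev.child z (by omega)).1.le (h.lev.next z (by omega))
  have hcd := (I_CELL ι K b (e (z + 1)) hb).2.2.1 (e z) hle
  have hRpos : 0 < b ^ (4 * (e (z + 1) - e z)) := Nat.pow_pos (by omega)
  set R := b ^ (4 * (e (z + 1) - e z)) with hR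
  have hsub : (E.filter (fun i => cell K b (e z) i = c)).image (L.lab (z + 1)) ⊆
      (Ico (c * R) (c * R + R)).biUnion
        (fun c' => (E.filter (fun i => cell K b (e (z + 1)) i = c')).image (L.lab (z + 1))) := by
    intro w hw
    obtain ⟨i, hi, rfl⟩ := mem_image.1 hw
    rw [mem_filter] at hi
    rw [mem_biUnion]
    refine ⟨cell K b (e (z + 1)) i, ?_, ?_⟩
    · have h1 := hcd i
      rw [hi.2] at h1
      rw [mem_Ico]
      constructor
      · exact (Nat.le_div_iff_mul_le hRpos).1 h1.le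
      · have h2 : cell K b (e (z + 1)) i < (c + 1) * R := by
          rw [← Nat.div_lt_iff_lt_mul hRpos]
          omega
        rw [add_mul, one_mul] at h2
        exact h2
    · exact mem_image_of_mem _ (mem_filter.2 ⟨hi.1, rfl⟩)
  have h1 : (((E.filter (fun i => cell K b (e z) i = c)).image (L.lab (z + 1))).card : ℝ) ≤
      R * D := by
    refine le_trans (Nat.cast_le.2 ((card_le_card hsub).trans card_biUnion_le)) ?_
    rw [Nat.cast_sum]
    refine le_trans (sum_le_card_nsmul _ _ D (fun c' _ => h.few (z + 1) hz1 c')) ?_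
    rw [Nat.card_Ico, nsmul_eq_mul, add_tsub_cancel_left]
  have h2 : (R : ℝ) ≤ D ^ 16 := by
    have h3 : (b : ℝ) ^ (e (z + 1) - e z) ≤ D ^ 4 := by
      have h4 : (b : ℝ) ^ (e (z + 1)) = (b : ℝ) ^ (e (z + 1) - e z) * (b : ℝ) ^ (e z) := by
        rw [← pow_add]
        congr 1
        omega
      rw [h4] at hz3
      exact le_of_mul_le_mul_right hz3 (by positivity)
    rw [hR]
    push_cast
    calc (b : ℝ) ^ (4 * (e (z + 1) - e z)) = ((b : ℝ) ^ (e (z + 1) - e z)) ^ 4 := by
          rw [← pow_mul]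
          congr 1
          omega
      _ ≤ (D ^ 4) ^ 4 := pow_le_pow_left₀ (by positivity) h3 4
      _ = D ^ 16 := by ring
  calc _ ≤ R * D := h1
    _ ≤ D ^ 16 * D := mul_le_mul_of_nonneg_right h2 (by linarith)
    _ = D ^ 17 := by ring

/-- Many edges with small total weight per fine cell are in three fine cells. -/
theorem side {K : KSys ι} {b M J : ℕ} {e ec : ℕ → ℕ} {D : ℝ} {L : Lb α} {E : Finset ℕ}
    (h : LS K b M J e ec D L E) {z : ℕ} (hz : Fine b J e D z) (hD : 1 ≤ D)
    (hn : (0 : ℝ) < Fintype.card ι) (A : Finset ℕ)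
    {i : ℕ} (hA : ∀ j ∈ A, j ∈ E ∧ K.a j = K.a i)
    (hbig : (K.N : ℝ) ≤ D * (Fintype.card ι * (b : ℝ) ^ (e z)) * (A.card : ℝ)) :
    ∃ d ∈ A, ∃ k : Fin 3 → ℕ, (∀ u, k u ∈ A) ∧
      (∀ u, L.rho (L.lab (z + 1) d) ≤ L.rho (L.lab (z + 1) (k u))) ∧
      cell K b (e (z + 1)) (k 0) < cell K b (e (z + 1)) (k 1) ∧
      cell K b (e (z + 1)) (k 1) < cell K b (e (z + 1)) (k 2) := by
  obtain ⟨hz1, hz2, hz3⟩ := hz
  have hb : 1 ≤ b := le_trans (by norm_num) h.lev.two
  have hb0 : (0 : ℝ) < b := by exact_mod_cast (by omega : 0 < b)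
  have hN : (0 : ℝ) < K.N := by exact_mod_cast h.npos
  have hM : e (z + 1) ≤ M := le_trans (h.lev.child (z + 1) hz1).1.le (h.lev.child (z + 1) hz1).2
  have hne : A.Nonempty := by
    rw [← card_pos]
    by_contra h0
    have h1 : A.card = 0 := by omega
    rw [h1] at hbig
    simp only [CharP.cast_eq_zero, mul_zero] at hbig
    linarith
  obtain ⟨d, hd, hdmin⟩ := exists_min_image A (fun j => L.rho (L.lab (z + 1) j)) hne
  have h3 : 3 ≤ (A.image (cell K b (e (z + 1)))).card := by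
    have hfib := fib A (cell K b (e (z + 1)))
      (D * K.N / (Fintype.card ι * (b : ℝ) ^ (e (z + 1)))) (by
        intro a ha
        obtain ⟨j, hj, rfl⟩ := mem_image.1 ha
        rw [le_div_iff₀ (by positivity)]
        apply light h hM (hA j hj).1
        intro j' hj'
        rw [mem_filter] at hj'
        exact ⟨(hA j' hj'.1).1, (hA j' hj'.1).2.trans (hA j hj).2.symm, hj'.2⟩)
    have h4 : (12 : ℝ) ≤ ((A.image (cell K b (e (z + 1)))).card : ℝ) := by
      by_contra hcon
      push Not at hcon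
      have h5 : (A.card : ℝ) < 12 * (D * K.N / (Fintype.card ι * (b : ℝ) ^ (e (z + 1)))) := by
        refine lt_of_le_of_lt hfib (mul_lt_mul_of_pos_right hcon (by positivity))
      have h6 : (K.N : ℝ) < D * (Fintype.card ι * (b : ℝ) ^ (e z)) *
          (12 * (D * K.N / (Fintype.card ι * (b : ℝ) ^ (e (z + 1))))) :=
        lt_of_le_of_lt hbig (mul_lt_mul_of_pos_left h5 (by positivity))
      have h7 : D * (Fintype.card ι * (b : ℝ) ^ (e z)) *
          (12 * (D * K.N / (Fintype.card ι * (b : ℝ) ^ (e (z + 1))))) =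
          K.N * (12 * D ^ 2 * (b : ℝ) ^ (e z)) / (b : ℝ) ^ (e (z + 1)) := by
        field_simp
      rw [h7, lt_div_iff₀ (by positivity)] at h6
      exact absurd (lt_of_mul_lt_mul_left h6 hN.le) (not_lt.2 hz2)
    have : (3 : ℝ) ≤ ((A.image (cell K b (e (z + 1)))).card : ℝ) := by linarith
    exact_mod_cast this
  obtain ⟨k, hk, hk1, hk2⟩ := three A _ h3
  exact ⟨d, hd, k, hk, fun u => hdmin _ (hk u), hk1, hk2⟩

/-- Lines with the fine label `d` are close to the line of `d` at both ends of its hull. -/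
theorem close {K : KSys ι} {b M J : ℕ} {e ec : ℕ → ℕ} {D : ℝ} {L : Lb α} {E : Finset ℕ}
    (h : LS K b M J e ec D L E) {y : ℕ} (hy : y ≤ J) {d d2 : ℕ} (hd : d ∈ E) (hd2 : d2 ∈ E)
    (hl : L.lab y d2 = L.lab y d) :
    |K.ht (K.a d2) (L.h0 (L.lab y d)) - K.ht (K.a d) (L.h0 (L.lab y d))| ≤ L.rho (L.lab y d) ∧
    |K.ht (K.a d2) (L.h1 (L.lab y d)) - K.ht (K.a d) (L.h1 (L.lab y d))| ≤
      L.rho (L.lab y d) := by
  have h1 := h.cls y hy d hd
  have h2 := h.cls y hy d2 hd2
  rw [hl] at h2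
  constructor
  · have e1 := abs_le.1 h1.1
    have e2 := abs_le.1 h2.1
    rw [abs_le]
    constructor <;> linarith [e1.1, e1.2, e2.1, e2.2]
  · have e1 := abs_le.1 h1.2
    have e2 := abs_le.1 h2.2
    rw [abs_le]
    constructor <;> linarith [e1.1, e1.2, e2.1, e2.2]

end XBody

open XBody in
open Classical in
/-- **BODIES.** -/
theorem I_Body : StBody := by
  refine ⟨36, ?_⟩
  intro ι α _ _ _ K _ b M J e ec D L E h z hz ε hε hε1
  have hb : 1 ≤ b := le_trans (by norm_num) h.lev.two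
  have hbR : (1 : ℝ) ≤ b := by exact_mod_cast hb
  have hb0 : (0 : ℝ) < b := by linarith
  have hD : 1 ≤ D := le_trans (by unfold Th; exact one_le_pow₀ hbR) h.bD
  have hD0 : 0 < D := by linarith
  have hN : (0 : ℝ) < K.N := by exact_mod_cast h.npos
  have hn : (0 : ℝ) < Fintype.card ι := by
    have : 0 < Fintype.card ι := Fintype.card_pos_iff.2 ⟨K.a 0⟩
    exact_mod_cast this
  have hz1 : z + 1 ≤ J := hz.1
  have hzJ : z ≤ J := by omega
  have hzM : e z ≤ M := le_trans (h.lev.child z hzJ).1.le (h.lev.child z hzJ).2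
  have hec : ec z ≤ e (z + 1) := h.lev.next z (by omega)
  -- the two sides
  have hl : ∀ i : ℕ, ∃ (d : ℕ) (k : Fin 3 → ℕ), i ∈ E →
      (d ∈ EE K b (e z) E i ∧ cell K b (ec z) d = L.cl (L.lab z i)) ∧
      (∀ u, k u ∈ EE K b (e z) E i) ∧
      (∀ u, L.rho (L.lab (z + 1) d) ≤ L.rho (L.lab (z + 1) (k u))) ∧
      cell K b (e (z + 1)) (k 0) < cell K b (e (z + 1)) (k 1) ∧
      cell K b (e (z + 1)) (k 1) < cell K b (e (z + 1)) (k 2) := by
    intro i
    by_cases hi : i ∈ E
    · obtain ⟨d, hd, k, hk, hk1, hk2⟩ := side h hz hD hn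
        ((EE K b (e z) E i).filter (fun i' => cell K b (ec z) i' = L.cl (L.lab z i))) (i := i)
        (fun j hj => ⟨(mEE (mem_filter.1 hj).1).1, (mEE (mem_filter.1 hj).1).2.1⟩)
        (h.twol z hzJ i hi)
      exact ⟨d, k, fun _ => ⟨mem_filter.1 hd, fun u => (mem_filter.1 (hk u)).1, hk1, hk2⟩⟩
    · exact ⟨0, fun _ => 0, fun h0 => absurd h0 hi⟩
  have hr : ∀ i : ℕ, ∃ (d : ℕ) (k : Fin 3 → ℕ), i ∈ E →
      (d ∈ EE K b (e z) E i ∧ cell K b (ec z) d = L.cr (L.lab z i)) ∧
      (∀ u, k u ∈ EE K b (e z) E i) ∧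
      (∀ u, L.rho (L.lab (z + 1) d) ≤ L.rho (L.lab (z + 1) (k u))) ∧
      cell K b (e (z + 1)) (k 0) < cell K b (e (z + 1)) (k 1) ∧
      cell K b (e (z + 1)) (k 1) < cell K b (e (z + 1)) (k 2) := by
    intro i
    by_cases hi : i ∈ E
    · obtain ⟨d, hd, k, hk, hk1, hk2⟩ := side h hz hD hn
        ((EE K b (e z) E i).filter (fun i' => cell K b (ec z) i' = L.cr (L.lab z i))) (i := i)
        (fun j hj => ⟨(mEE (mem_filter.1 hj).1).1, (mEE (mem_filter.1 hj).1).2.1⟩)
        (h.twor z hzJ i hi)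
      exact ⟨d, k, fun _ => ⟨mem_filter.1 hd, fun u => (mem_filter.1 (hk u)).1, hk1, hk2⟩⟩
    · exact ⟨0, fun _ => 0, fun h0 => absurd h0 hi⟩
  choose d k hdk using hl
  choose d' k' hdk' using hr
  -- the triples of labels
  set tr : ℕ → α × (α × α) := fun i =>
    (L.lab z i, (L.lab (z + 1) (d i), L.lab (z + 1) (d' i))) with htr
  set T : α × (α × α) → Finset ι := fun τ =>
    ((E.filter (fun i => L.lab z i = τ.1)).image K.a ∩
      ((E.filter (fun i => L.lab (z + 1) i = τ.2.1)).image K.a ∩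
      (E.filter (fun i => L.lab (z + 1) i = τ.2.2)).image K.a)) with hT
  set X : Finset ℕ := E.filter (fun i =>
    (b : ℝ) ^ (3 * e z) * ((T (tr i)).card : ℝ) < ε / D ^ 36 * Fintype.card ι) with hX
  have hXE : X ⊆ E := filter_subset _ _
  refine ⟨X, hXE, ?_, ?_⟩
  · -- few exceptions
    have hδ : 0 < ε / D ^ 36 := by positivity
    have h1 : (X.card : ℝ) ≤ (X.image tr).card *
        (ε / D ^ 36 * Fintype.card ι / (b : ℝ) ^ (3 * e z) *
          (D * K.N / (Fintype.card ι * (b : ℝ) ^ (e z)))) := by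
      apply fib
      intro τ hτ
      obtain ⟨i0, hi0, rfl⟩ := mem_image.1 hτ
      have h2 := fib (X.filter (fun i => tr i = tr i0)) K.a
        (D * K.N / (Fintype.card ι * (b : ℝ) ^ (e z))) (by
          intro a ha
          obtain ⟨j, hj, rfl⟩ := mem_image.1 ha
          rw [le_div_iff₀ (by positivity)]
          rw [mem_filter] at hj
          apply light h hzM (hXE hj.1)
          intro j' hj'
          rw [mem_filter, mem_filter] at hj'
          refine ⟨hXE hj'.1.1, hj'.2, ?_⟩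
          apply h.lcell z hzJ j' (hXE hj'.1.1) j (hXE hj.1)
          have h3 : tr j' = tr j := hj'.1.2.trans hj.2.symm
          exact congrArg Prod.fst h3)
      refine h2.trans (mul_le_mul_of_nonneg_right ?_ (by positivity))
      rw [le_div_iff₀ (by positivity)]
      have h3 : (((X.filter (fun i => tr i = tr i0)).image K.a).card : ℝ) ≤
          ((T (tr i0)).card : ℝ) := by
        rw [Nat.cast_le]
        apply card_le_card
        intro q hq
        obtain ⟨j, hj, rfl⟩ := mem_image.1 hq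
        rw [mem_filter] at hj
        have hjE := hXE hj.1
        rw [← hj.2]
        have e1 := hdk j hjE
        have e2 := hdk' j hjE
        have e3 := mEE e1.1.1
        have e4 := mEE e2.1.1
        simp only [hT, htr, mem_inter, mem_image, mem_filter]
        exact ⟨⟨j, ⟨hjE, rfl⟩, rfl⟩, ⟨d j, ⟨e3.1, rfl⟩, e3.2.1⟩, ⟨d' j, ⟨e4.1, rfl⟩, e4.2.1⟩⟩
      have h4 : (b : ℝ) ^ (3 * e z) * ((T (tr i0)).card : ℝ) < ε / D ^ 36 * Fintype.card ι := by
        rw [hX, mem_filter] at hi0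
        exact hi0.2
      calc _ ≤ ((T (tr i0)).card : ℝ) * (b : ℝ) ^ (3 * e z) :=
            mul_le_mul_of_nonneg_right h3 (by positivity)
        _ ≤ ε / D ^ 36 * Fintype.card ι := by rw [mul_comm]; exact h4.le
    have h2 : ((X.image tr).card : ℝ) ≤ (b : ℝ) ^ (4 * e z) * D ^ 35 := by
      have hsub : X.image tr ⊆ (range (b ^ (4 * e z))).biUnion (fun c =>
          ((E.filter (fun i => cell K b (e z) i = c)).image (L.lab z)) ×ˢ
          (((E.filter (fun i => cell K b (e z) i = c)).image (L.lab (z + 1))) ×ˢ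
          ((E.filter (fun i => cell K b (e z) i = c)).image (L.lab (z + 1))))) := by
        intro τ hτ
        obtain ⟨i, hi, rfl⟩ := mem_image.1 hτ
        have hiE := hXE hi
        rw [mem_biUnion]
        refine ⟨cell K b (e z) i, mem_range.2 ?_, ?_⟩
        · exact (I_CELL ι K b (e z) hb).1 i (h.hyg i hiE).lt
        · have e3 := mEE (hdk i hiE).1.1
          have e4 := mEE (hdk' i hiE).1.1
          rw [mem_product, mem_product]
          exact ⟨mem_image_of_mem _ (mem_filter.2 ⟨hiE, rfl⟩),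
            mem_image_of_mem _ (mem_filter.2 ⟨e3.1, e3.2.2⟩),
            mem_image_of_mem _ (mem_filter.2 ⟨e4.1, e4.2.2⟩)⟩
      refine le_trans (Nat.cast_le.2 ((card_le_card hsub).trans card_biUnion_le)) ?_
      rw [Nat.cast_sum]
      refine le_trans (sum_le_card_nsmul _ _ (D ^ 35) ?_) ?_
      · intro c _
        rw [card_product, card_product]
        push_cast
        have f1 := h.few z hzJ c
        have f2 := few h hz hD c
        calc _ ≤ D * (D ^ 17 * D ^ 17) := by
              apply mul_le_mul f1 _ (by positivity) (by positivity)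
              apply mul_le_mul f2 f2 (by positivity) (by positivity)
          _ = D ^ 35 := by ring
      · rw [card_range, nsmul_eq_mul]
        push_cast
        exact le_refl _
    refine h1.trans (le_trans (mul_le_mul_of_nonneg_right h2 (by positivity)) ?_)
    apply le_of_eq
    have h3 : (b : ℝ) ^ (4 * e z) = (b : ℝ) ^ (3 * e z) * (b : ℝ) ^ (e z) := by
      rw [← pow_add]
      congr 1
      omega
    rw [h3]
    field_simp
  · -- the body
    intro i hi
    rw [mem_sdiff] at hi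
    obtain ⟨hiE, hiX⟩ := hi
    obtain ⟨⟨hd1, hd2⟩, hd3, hd4, hd5⟩ := hdk i hiE
    obtain ⟨⟨hd1', hd2'⟩, hd3', hd4', hd5'⟩ := hdk' i hiE
    obtain ⟨hdE, hda, hdc⟩ := mEE hd1
    obtain ⟨hdE', hda', hdc'⟩ := mEE hd1'
    have hpos := h.pos (z + 1) hz1 (d i) hdE
    have hpos' := h.pos (z + 1) hz1 (d' i) hdE'
    refine ⟨T (tr i), max (L.rho (L.lab (z + 1) (d i))) (L.rho (L.lab (z + 1) (d' i))), ?_, ?_,
      lt_of_lt_of_le hpos (le_max_left _ _), ?_, ?_⟩
    · intro q hq
      simp only [hT, htr, mem_inter] at hq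
      exact hq.1
    · have : ¬ (b : ℝ) ^ (3 * e z) * ((T (tr i)).card : ℝ) < ε / D ^ 36 * Fintype.card ι := by
        intro h0
        exact hiX (mem_filter.2 ⟨hiE, h0⟩)
      exact not_lt.1 this
    · intro q hq
      simp only [hT, htr, mem_inter, mem_image, mem_filter] at hq
      obtain ⟨_, ⟨j1, ⟨hj1, hj1l⟩, hj1a⟩, ⟨j2, ⟨hj2, hj2l⟩, hj2a⟩⟩ := hq
      have c1 := close h hz1 hdE hj1 hj1l
      have c2 := close h hz1 hdE' hj2 hj2l
      rw [hj1a, hda] at c1
      rw [hj2a, hda'] at c2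
      -- labels
      have hlab : L.lab z (d i) = L.lab z i := h.ldet z hzJ _ hdE _ hiE hda hdc
      have hlab' : L.lab z (d' i) = L.lab z i := h.ldet z hzJ _ hdE' _ hiE hda' hdc'
      have n1 := h.nest z (z + 1) (by omega) hz1 (d i) hdE
      have n2 := h.nest z (z + 1) (by omega) hz1 (d' i) hdE'
      rw [hlab] at n1
      rw [hlab'] at n2
      obtain ⟨_, l, _, hl2, _, hl3, _, hl4⟩ := h.span (z + 1) hz1 (d i) hdE
      obtain ⟨kk, _, hk1, _, hk2, _, hk3, _⟩ := h.span (z + 1) hz1 (d' i) hdE'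
      have hgap := h.gap z hzJ i hiE l kk hl2 hk1 ((ccoarse K hb hec hl3).trans hd2)
        ((ccoarse K hb hec hk2).trans hd2')
      have hlt := h.lt z hzJ i hiE
      have hlt1 := h.lt (z + 1) hz1 (d i) hdE
      have hlt2 := h.lt (z + 1) hz1 (d' i) hdE'
      have hpos3 : 0 < K.t kk - K.t l := by
        by_contra hcon
        push Not at hcon
        have : (b : ℝ) * (K.t kk - K.t l) ≤ 0 := mul_nonpos_of_nonneg_of_nonpos hb0.le hcon
        linarith [hgap.2.2]
      have hgap2 : L.h1 (L.lab z i) - L.h0 (L.lab z i) ≤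
          b * (L.h0 (L.lab (z + 1) (d' i)) - L.h1 (L.lab (z + 1) (d i))) := by
        refine hgap.2.2.trans (mul_le_mul_of_nonneg_left ?_ hb0.le)
        linarith
      have hht : ∀ s, K.ht q s - K.ht (K.a i) s =
          (K.y q - K.y (K.a i)) + (K.x q - K.x (K.a i)) * s := by
        intro s
        unfold KSys.ht
        ring
      have hex := extra (K.y q - K.y (K.a i)) (K.x q - K.x (K.a i))
        (max (L.rho (L.lab (z + 1) (d i))) (L.rho (L.lab (z + 1) (d' i))))
        (L.h1 (L.lab (z + 1) (d i))) (L.h0 (L.lab (z + 1) (d' i)))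
        (L.h0 (L.lab z i)) (L.h1 (L.lab z i)) b (by linarith [n1.1]) (by linarith)
        (by linarith [n2.2]) hbR hgap2 (by
          rw [← hht]
          exact c1.2.trans (le_max_left _ _)) (by
          rw [← hht]
          exact c2.1.trans (le_max_right _ _))
      rw [← hht, ← hht] at hex
      exact hex
    · rcases le_total (L.rho (L.lab (z + 1) (d i))) (L.rho (L.lab (z + 1) (d' i))) with hle | hle
      · rw [max_eq_right hle]
        exact ⟨k' i, hd3', hd4', hd5'⟩
      · rw [max_eq_left hle]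
        exact ⟨k i, hd3, hd4, hd5⟩

end Pool.Agent.Work.MP_e17eac_co.HS
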