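import Pool.Agent.Work.MP_e17eac_co.HS.StC
import Pool.Agent.Work.MP_e17eac_co.Bd.B14
import Pool.Agent.Work.MP_e17eac_co.Bd.B19

/-!
# Arbitrary sets, short chain HS: proof of `StGR` (helper98)

Good pairs at the levels `m, m - 1, ..., 0` for full fibres (only constant factors are lost), then
one restriction to the chosen children at all levels, then the popular root pair.
-/

namespace Pool.Agent.Work.MP_e17eac_co.HSGR

open Finset
open Pool.Agent.Work.MP_e17eac_co.DH
open Pool.Agent.Work.MP_e17eac_co.B1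
open Pool.Agent.Work.MP_e17eac_co.HS
open Pool.Agent.Work.MP_e17eac_co.DH.XSWEEP (GP)

variable {ι : Type} [Fintype ι] [DecidableEq ι]

/-- Nested cells. -/
theorem cell_div (K : KSys ι) {b z x : ℕ} (hb : 1 ≤ b) (h : z ≤ x) (i : ℕ) :
    cell K b z i = cell K b x i / b ^ (4 * (x - z)) := by
  unfold cell
  have h1 : b ^ (4 * x) = b ^ (4 * z) * b ^ (4 * (x - z)) := by
    rw [← pow_add]
    congr 1
    omega
  rw [h1, Nat.div_div_eq_div_mul, ← mul_assoc,
    Nat.mul_div_mul_right _ _ (Nat.pow_pos (by omega))]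

theorem cell_coarse (K : KSys ι) {b z x : ℕ} (hb : 1 ≤ b) (h : z ≤ x) {i j : ℕ}
    (hij : cell K b x i = cell K b x j) : cell K b z i = cell K b z j := by
  rw [cell_div K hb h, cell_div K hb h, hij]

/-- `E'` is a union of fibres of `(a i, cell x i)` in `E`. -/
def Fib (K : KSys ι) (b x : ℕ) (E' E : Finset ℕ) : Prop :=
  E' ⊆ E ∧ ∀ i ∈ E', ∀ j ∈ E, K.a j = K.a i → cell K b x j = cell K b x i → j ∈ E'

theorem Fib.fine {K : KSys ι} {b z x : ℕ} (hb : 1 ≤ b) (hzx : z ≤ x) {E E' : Finset ℕ}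
    (h : Fib K b z E' E) : Fib K b x E' E :=
  ⟨h.1, fun i hi j hj h1 h2 => h.2 i hi j hj h1 (cell_coarse K hb hzx h2)⟩

/-- Good pairs of children with quotas, for full fibres. -/
structure Pr (K : KSys ι) (b e ec G : ℕ) (F : Finset ℕ) (U : ι → ℕ → ℕ × ℕ) : Prop where
  lt : ∀ i ∈ F, (U (K.a i) (cell K b e i)).1 < (U (K.a i) (cell K b e i)).2
  gap : ∀ i ∈ F, tb K b ec (U (K.a i) (cell K b e i)).2 - ta K b ec (U (K.a i) (cell K b e i)).1 ≤
    b * (ta K b ec (U (K.a i) (cell K b e i)).2 - tb K b ec (U (K.a i) (cell K b e i)).1)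
  quota : ∀ i ∈ F, ∀ u, (u = (U (K.a i) (cell K b e i)).1 ∨ u = (U (K.a i) (cell K b e i)).2) →
    (∃ j ∈ F, K.a j = K.a i ∧ cell K b e j = cell K b e i ∧ cell K b ec j = u) ∧
    K.N ≤ b ^ G * (Fintype.card ι * b ^ ec) *
      (F.filter (fun j => K.a j = K.a i ∧ cell K b ec j = u)).card

theorem Pr.fib {K : KSys ι} {b e ec G : ℕ} (hb : 1 ≤ b) (hec : e ≤ ec) {F F' : Finset ℕ}
    {U : ι → ℕ → ℕ × ℕ} (h : Pr K b e ec G F U) (h' : Fib K b e F' F) : Pr K b e ec G F' U := by
  refine ⟨fun i hi => h.lt i (h'.1 hi), fun i hi => h.gap i (h'.1 hi), fun i hi u hu => ?_⟩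
  obtain ⟨⟨j, hj, h1, h2, h3⟩, h4⟩ := h.quota i (h'.1 hi) u hu
  refine ⟨⟨j, h'.2 i hi j hj h1 h2, h1, h2, h3⟩, ?_⟩
  have h5 : F'.filter (fun j => K.a j = K.a i ∧ cell K b ec j = u) =
      F.filter (fun j => K.a j = K.a i ∧ cell K b ec j = u) := by
    ext l
    simp only [mem_filter]
    constructor
    · rintro ⟨h6, h7⟩
      exact ⟨h'.1 h6, h7⟩
    · rintro ⟨h6, h7, h8⟩
      refine ⟨h'.2 i hi l h6 h7 ?_, h7, h8⟩
      rw [← h2]
      exact cell_coarse K hb hec (h8.trans h3.symm)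
  rw [h5]
  exact h4

/-- Light fibres carry few elements. -/
theorem few_light {α : Type} [DecidableEq α] (F : Finset ℕ) (g : ℕ → α) (T N : ℕ)
    (h : ∀ i ∈ F, T * (F.filter (fun j => g j = g i)).card ≤ N) :
    T * F.card ≤ N * (F.image g).card := by
  rw [card_eq_sum_card_image g F, mul_sum, mul_comm N, ← smul_eq_mul (F.image g).card N]
  refine sum_le_card_nsmul _ _ _ ?_
  intro s hs
  obtain ⟨i, hi, rfl⟩ := mem_image.1 hs
  exact h i hi

/-- One level. -/
def StStep : Prop := ∃ C0 : ℕ, ∀ (η : ℝ) (D : ℕ), 0 < η → ∃ n0 : ℕ, ∀ (ι : Type) [Fintype ι]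
  [DecidableEq ι] (K : KSys ι), Function.Injective K.x → GP K.x K.y → n0 ≤ Fintype.card ι →
  ∀ b : ℕ, (Fintype.card ι : ℝ) ^ η ≤ b → (Fintype.card ι : ℝ) ^ ((4 : ℝ) / 3) ≤ b * K.N →
  ∀ e ec : ℕ, e + C0 * (D + 1) ≤ ec → b ^ (4 * ec) ≤ K.N →
  ∀ E ⊆ range K.N, K.N ≤ b ^ D * E.card →
  ∃ F U, Fib K b ec F E ∧ E.card ≤ 2 * F.card ∧ Pr K b e ec (D + 1) F U

theorem I_Step (hT2 : StT2c) (hMc : MX.StMc) (hGP : MX.StGP) : StStep := by
  classical
  obtain ⟨C, hC1, hT2⟩ := hT2
  obtain ⟨C0, hGP⟩ := hGP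
  refine ⟨C0 + 2, ?_⟩
  intro η D hη
  obtain ⟨n1, hn1⟩ := hGP η (D + 1) hη
  -- `b ≥ 4 C + 4` for large `n`
  have htend : Filter.Tendsto (fun n : ℕ => (n : ℝ) ^ η) Filter.atTop Filter.atTop :=
    (tendsto_rpow_atTop hη).comp tendsto_natCast_atTop_atTop
  obtain ⟨n2, hn2⟩ := Filter.eventually_atTop.1 (htend.eventually_ge_atTop (4 * C + 4))
  refine ⟨max n1 (max n2 1), ?_⟩
  intro ι _ _ K hx hgp hn b hb hbN e ec hec hecN E hE hED
  have hnn1 : n1 ≤ Fintype.card ι := le_trans (le_max_left _ _) hn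
  have hnn2 : n2 ≤ Fintype.card ι := le_trans ((le_max_left _ _).trans (le_max_right _ _)) hn
  have hnn3 : 1 ≤ Fintype.card ι := le_trans ((le_max_right _ _).trans (le_max_right _ _)) hn
  have hbC : 4 * C + 4 ≤ (b : ℝ) := (hn2 _ hnn2).trans hb
  have hb8 : (8 : ℝ) ≤ b := by linarith
  have hb8' : 8 ≤ b := by exact_mod_cast hb8
  have hb1 : 1 ≤ b := by omega
  have hb0 : 0 < b := by omega
  have hNpos : 0 < K.N := lt_of_lt_of_le (Nat.pow_pos hb0) hecN
  have hEpos : 0 < E.card := by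
    rcases Nat.eq_zero_or_pos E.card with h | h
    · rw [h, mul_zero] at hED
      omega
    · exact h
  set n := Fintype.card ι with hn_def
  have heec : e ≤ ec := by
    have : 0 ≤ (C0 + 2) * (D + 1) := Nat.zero_le _
    omega
  -- the heavy fibres
  set T : ℕ := b ^ (D + 1) * (n * b ^ ec) with hT
  set fb : ℕ → Finset ℕ := fun i =>
    E.filter (fun j => K.a j = K.a i ∧ cell K b ec j = cell K b ec i) with hfb
  set E1 := E.filter (fun i => K.N ≤ T * (fb i).card) with hE1
  have hE1E : E1 ⊆ E := filter_subset _ _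
  have hE1N : E1 ⊆ range K.N := hE1E.trans hE
  have hfib1 : Fib K b ec E1 E := by
    refine ⟨hE1E, ?_⟩
    intro i hi j hj h1 h2
    rw [hE1, mem_filter] at hi ⊢
    refine ⟨hj, ?_⟩
    have h3 : fb j = fb i := by
      simp only [hfb]
      rw [h1, h2]
    rw [h3]
    exact hi.2
  -- few deleted edges
  have hdel : T * (E \ E1).card ≤
      K.N * ((E \ E1).image (fun i => (cell K b ec i, K.ln false i))).card := by
    refine few_light _ _ T K.N ?_
    intro i hi
    rw [mem_sdiff] at hi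
    have h1 : ¬ K.N ≤ T * (fb i).card := by
      intro h
      exact hi.2 (mem_filter.2 ⟨hi.1, h⟩)
    refine le_trans (Nat.mul_le_mul_left _ (card_le_card ?_)) (not_le.1 h1).le
    intro j hj
    rw [mem_filter, mem_sdiff] at hj
    obtain ⟨⟨h2, -⟩, h3⟩ := hj
    rw [Prod.mk.injEq] at h3
    exact mem_filter.2 ⟨h2, h3.2, h3.1⟩
  have hT2' := ((hT2 ι K hx hgp b ec hb1).2.2.2.1 (E \ E1)
    ((sdiff_subset).trans hE) false).1
  have hdel2 : 4 * (E \ E1).card ≤ E.card := by
    have h1 : ((T * (E \ E1).card : ℕ) : ℝ) ≤ K.N * (C * n * (b : ℝ) ^ ec) := by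
      calc ((T * (E \ E1).card : ℕ) : ℝ) ≤
          ((K.N * ((E \ E1).image (fun i => (cell K b ec i, K.ln false i))).card : ℕ) : ℝ) := by
            exact_mod_cast hdel
        _ = K.N * (((E \ E1).image (fun i => (cell K b ec i, K.ln false i))).card : ℝ) := by
            push_cast
            ring
        _ ≤ K.N * (C * n * (b : ℝ) ^ ec) := mul_le_mul_of_nonneg_left hT2' (by positivity)
    have hn0 : (0 : ℝ) < n := by exact_mod_cast hnn3
    have hbr : (0 : ℝ) < b := by linarith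
    have h2 : (b : ℝ) ^ (D + 1) * ((E \ E1).card : ℝ) ≤ K.N * C := by
      have h3 : ((b : ℝ) ^ (D + 1) * ((E \ E1).card : ℝ)) * (n * (b : ℝ) ^ ec) ≤
          (K.N * C) * (n * (b : ℝ) ^ ec) := by
        rw [hT] at h1
        push_cast at h1
        nlinarith [h1]
      exact le_of_mul_le_mul_right h3 (by positivity)
    have h4 : (K.N : ℝ) ≤ (b : ℝ) ^ D * E.card := by exact_mod_cast hED
    have h5 : (b : ℝ) ^ D * ((b : ℝ) * ((E \ E1).card : ℝ)) ≤
        (b : ℝ) ^ D * (C * (E.card : ℝ)) := by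
      calc (b : ℝ) ^ D * ((b : ℝ) * ((E \ E1).card : ℝ)) =
          (b : ℝ) ^ (D + 1) * ((E \ E1).card : ℝ) := by ring
        _ ≤ K.N * C := h2
        _ ≤ ((b : ℝ) ^ D * E.card) * C := mul_le_mul_of_nonneg_right h4 (by linarith)
        _ = (b : ℝ) ^ D * (C * (E.card : ℝ)) := by ring
    have h6 : (b : ℝ) * ((E \ E1).card : ℝ) ≤ C * (E.card : ℝ) :=
      le_of_mul_le_mul_left h5 (by positivity)
    have h7 : (4 * C) * ((E \ E1).card : ℝ) ≤ C * (E.card : ℝ) := by
      refine le_trans (mul_le_mul_of_nonneg_right (by linarith) (by positivity)) h6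
    have h8 : C * (4 * ((E \ E1).card : ℝ)) ≤ C * (E.card : ℝ) := by linarith
    have h9 : 4 * ((E \ E1).card : ℝ) ≤ (E.card : ℝ) :=
      le_of_mul_le_mul_left h8 (by linarith)
    exact_mod_cast h9
  have hE1card : 3 * E.card ≤ 4 * E1.card := by
    have h1 : (E \ E1).card + E1.card = E.card := by
      rw [card_sdiff_add_card_eq_card hE1E]
    omega
  -- good pairs
  have hED1 : K.N ≤ b ^ (D + 1) * E1.card := by
    calc K.N ≤ b ^ D * E.card := hED
      _ ≤ b ^ D * (b * E1.card) := by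
        refine Nat.mul_le_mul_left _ ?_
        calc E.card ≤ 2 * E1.card := by omega
          _ ≤ b * E1.card := Nat.mul_le_mul_right _ (by omega)
      _ = b ^ (D + 1) * E1.card := by ring
  have hmul : b ^ (4 * e) * b ^ (4 * (ec - e)) = b ^ (4 * ec) := by
    rw [← pow_add]
    congr 1
    omega
  set E2 := E1.filter (fun i => MX.HasGood K (cell K b e) (cell K b ec) b E1 i) with hE2
  have hgood : b * (E1 \ E2).card ≤ E1.card := by
    have hcells : MX.IsCells K (b ^ (4 * e)) (cell K b e) :=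
      (hMc ι K (b ^ (4 * e)) (Nat.pow_pos hb0)).1
    have hcells' : MX.IsCells K (b ^ (4 * e) * b ^ (4 * (ec - e))) (cell K b ec) := by
      rw [hmul]
      exact (hMc ι K (b ^ (4 * ec)) (Nat.pow_pos hb0)).1
    have hg : b ^ (C0 * (D + 1 + 1)) ≤ b ^ (4 * (ec - e)) := by
      refine Nat.pow_le_pow_right hb0 ?_
      have h1 : (C0 + 2) * (D + 1) ≤ ec - e := by omega
      have h2 : C0 * (D + 1 + 1) ≤ 2 * (C0 * (D + 1)) := by
        have : C0 * (D + 1 + 1) ≤ C0 * (2 * (D + 1)) := Nat.mul_le_mul_left _ (by omega)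
        calc C0 * (D + 1 + 1) ≤ C0 * (2 * (D + 1)) := this
          _ = 2 * (C0 * (D + 1)) := by ring
      have h3 : C0 * (D + 1) ≤ (C0 + 2) * (D + 1) := Nat.mul_le_mul_right _ (by omega)
      omega
    refine hn1 ι K hx hgp hnn1 b hb hbN (b ^ (4 * e)) (b ^ (4 * (ec - e)))
      (Nat.one_le_pow _ _ hb0) hg (by rw [hmul]; exact hecN) (cell K b e) (cell K b ec)
      hcells hcells' (fun i j _ _ h => cell_coarse K hb1 heec h) E1 hE1N hED1 (E1 \ E2)
      sdiff_subset ?_
    intro i hi h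
    rw [mem_sdiff] at hi
    exact hi.2 (mem_filter.2 ⟨hi.1, h⟩)
  have hE2E1 : E2 ⊆ E1 := filter_subset _ _
  have hE2card : E.card ≤ 2 * E2.card := by
    have h1 : (E1 \ E2).card + E2.card = E1.card := by
      rw [card_sdiff_add_card_eq_card hE2E1]
    have h2 : 8 * (E1 \ E2).card ≤ E1.card :=
      (Nat.mul_le_mul_right _ hb8').trans hgood
    omega
  -- `E2` is a union of fibres of exponent `e` in `E1`
  have hfib2 : Fib K b e E2 E1 := by
    refine ⟨hE2E1, ?_⟩
    intro i hi j hj h1 h2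
    rw [hE2, mem_filter] at hi ⊢
    refine ⟨hj, ?_⟩
    obtain ⟨-, k, hk, l, hl, h3, h4, h5⟩ := hi
    exact ⟨k, hk, l, hl, h3.trans h1.symm, h4.trans h2.symm, h5⟩
  have hfib : Fib K b ec E2 E := by
    refine ⟨hE2E1.trans hE1E, ?_⟩
    intro i hi j hj h1 h2
    have h3 : j ∈ E1 := hfib1.2 i (hE2E1 hi) j hj h1 h2
    exact hfib2.2 i hi j h3 h1 (cell_coarse K hb1 heec h2)
  -- choice of the pairs
  have hchoice : ∀ p : ι, ∀ c : ℕ, ∃ w : ℕ × ℕ, (∃ i ∈ E2, K.a i = p ∧ cell K b e i = c) →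
      ∃ k ∈ E1, ∃ l ∈ E1, K.a k = p ∧ cell K b e k = c ∧ w = (cell K b ec k, cell K b ec l) ∧
        MX.GoodP K (cell K b e) (cell K b ec) b k l := by
    intro p c
    by_cases h : ∃ i ∈ E2, K.a i = p ∧ cell K b e i = c
    · obtain ⟨i, hi, h1, h2⟩ := h
      rw [hE2, mem_filter] at hi
      obtain ⟨-, k, hk, l, hl, h3, h4, h5⟩ := hi
      exact ⟨(cell K b ec k, cell K b ec l), fun _ => ⟨k, hk, l, hl, h3.trans h1, h4.trans h2,
        rfl, h5⟩⟩
    · exact ⟨(0, 0), fun h' => absurd h' h⟩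
  choose U hU using hchoice
  refine ⟨E2, U, hfib, hE2card, ?_, ?_, ?_⟩
  · intro i hi
    obtain ⟨k, hk, l, hl, h1, h2, h3, h4⟩ := hU (K.a i) (cell K b e i) ⟨i, hi, rfl, rfl⟩
    rw [h3]
    exact h4.2.2.1
  · intro i hi
    obtain ⟨k, hk, l, hl, h1, h2, h3, h4⟩ := hU (K.a i) (cell K b e i) ⟨i, hi, rfl, rfl⟩
    rw [h3]
    exact h4.2.2.2
  · intro i hi u hu
    obtain ⟨k, hk, l, hl, h1, h2, h3, h4⟩ := hU (K.a i) (cell K b e i) ⟨i, hi, rfl, rfl⟩
    obtain ⟨g1, g2, g3, g4⟩ := h4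
    have hrep : ∃ j ∈ E1, K.a j = K.a i ∧ cell K b e j = cell K b e i ∧ cell K b ec j = u := by
      rcases hu with rfl | rfl
      · exact ⟨k, hk, h1, h2, by rw [h3]⟩
      · exact ⟨l, hl, g1 ▸ h1, g2 ▸ h2, by rw [h3]⟩
    obtain ⟨j, hj, m1, m2, m3⟩ := hrep
    have hj2 : j ∈ E2 := hfib2.2 i hi j hj m1 m2
    refine ⟨⟨j, hj2, m1, m2, m3⟩, ?_⟩
    have h5 : K.N ≤ T * (fb j).card := (mem_filter.1 hj).2
    refine h5.trans ?_
    rw [hT]
    refine Nat.mul_le_mul_left _ (card_le_card ?_)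
    intro l' hl'
    simp only [hfb, mem_filter] at hl' ⊢
    exact ⟨hfib.2 j hj2 l' hl'.1 hl'.2.1 hl'.2.2, hl'.2.1.trans m1, hl'.2.2.trans m3⟩

/-! ### All levels -/

theorem e_mono {e ec : ℕ → ℕ} {m : ℕ} (h0 : ∀ j, j ≤ m → e j ≤ ec j)
    (h : ∀ j, j < m → ec j ≤ e (j + 1)) :
    ∀ j, j ≤ m → ∀ i, i < j → ec i ≤ e j := by
  intro j
  induction j with
  | zero => intro _ i hi; omega
  | succ j ih =>
    intro hj i hi
    have h1 := h j (by omega)
    rcases Nat.lt_or_ge i j with h2 | h2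
    · have h3 := ih (by omega) i h2
      have h4 := h0 j (by omega)
      omega
    · have : i = j := by omega
      rw [this]
      exact h1

/-- All levels, full fibres. -/
theorem levels (hS : StStep) (m G : ℕ) : ∃ c0 : ℕ, ∀ η : ℝ, 0 < η → ∃ n0 : ℕ, ∀ (ι : Type)
    [Fintype ι] [DecidableEq ι] (K : KSys ι), Function.Injective K.x → GP K.x K.y →
    n0 ≤ Fintype.card ι → ∀ b : ℕ, (Fintype.card ι : ℝ) ^ η ≤ b →
    (Fintype.card ι : ℝ) ^ ((4 : ℝ) / 3) ≤ b * K.N →
    ∀ e ec : ℕ → ℕ, (∀ j, j ≤ m → e j + c0 ≤ ec j) → (∀ j, j < m → ec j ≤ e (j + 1)) →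
    (∀ j, j ≤ m → b ^ (4 * ec j) ≤ K.N) → ∀ E ⊆ range K.N, K.N ≤ b ^ G * E.card →
    ∃ F ⊆ E, ∃ U : ℕ → ι → ℕ → ℕ × ℕ, K.N ≤ b ^ (G + 1) * F.card ∧ 2 ^ (m + 1) ≤ b ∧
      ∀ j, j ≤ m → Pr K b (e j) (ec j) (G + 2) F (U j) := by
  obtain ⟨C0, hS⟩ := hS
  refine ⟨C0 * (G + 2), fun η hη => ?_⟩
  obtain ⟨n1, hn1⟩ := hS η (G + 1) hη
  have htend : Filter.Tendsto (fun n : ℕ => (n : ℝ) ^ η) Filter.atTop Filter.atTop :=
    (tendsto_rpow_atTop hη).comp tendsto_natCast_atTop_atTop
  obtain ⟨n2, hn2⟩ := Filter.eventually_atTop.1 (htend.eventually_ge_atTop ((2 : ℝ) ^ (m + 1)))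
  refine ⟨max n1 n2, ?_⟩
  intro ι _ _ K hx hgp hn b hb hbN e ec he1 he2 hN E hE hED
  have hnn1 : n1 ≤ Fintype.card ι := le_trans (le_max_left _ _) hn
  have hnn2 : n2 ≤ Fintype.card ι := le_trans (le_max_right _ _) hn
  have hb2 : 2 ^ (m + 1) ≤ b := by
    have h1 : (2 : ℝ) ^ (m + 1) ≤ b := (hn2 _ hnn2).trans hb
    exact_mod_cast h1
  have hb1 : 1 ≤ b := le_trans Nat.one_le_two_pow hb2
  have hmono := e_mono (e := e) (ec := ec) (m := m) (fun j hj => by have := he1 j hj; omega) he2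
  have key : ∀ k, k ≤ m + 1 → ∃ F ⊆ E, ∃ U : ℕ → ι → ℕ → ℕ × ℕ, E.card ≤ 2 ^ k * F.card ∧
      ∀ j, j ≤ m → m + 1 ≤ j + k → Pr K b (e j) (ec j) (G + 2) F (U j) := by
    intro k
    induction k with
    | zero =>
      intro _
      exact ⟨E, Subset.refl _, fun _ _ _ => (0, 0), by omega, fun j hj h => by omega⟩
    | succ k ih =>
      intro hk
      obtain ⟨F, hFE, U, h1, h2⟩ := ih (by omega)
      have hFN : K.N ≤ b ^ (G + 1) * F.card := by
        calc K.N ≤ b ^ G * E.card := hED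
          _ ≤ b ^ G * (2 ^ k * F.card) := Nat.mul_le_mul_left _ h1
          _ ≤ b ^ G * (b * F.card) := by
            refine Nat.mul_le_mul_left _ (Nat.mul_le_mul_right _ ?_)
            exact (Nat.pow_le_pow_right (by omega) (by omega)).trans hb2
          _ = b ^ (G + 1) * F.card := by ring
      obtain ⟨F', U', h3, h4, h5⟩ := hn1 ι K hx hgp hnn1 b hb hbN (e (m - k)) (ec (m - k))
        (by simpa using he1 (m - k) (by omega)) (hN (m - k) (by omega)) F (hFE.trans hE) hFN
      refine ⟨F', h3.1.trans hFE, fun j => if j = m - k then U' else U j, ?_, ?_⟩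
      · calc E.card ≤ 2 ^ k * F.card := h1
          _ ≤ 2 ^ k * (2 * F'.card) := Nat.mul_le_mul_left _ h4
          _ = 2 ^ (k + 1) * F'.card := by ring
      · intro j hj hjk
        by_cases hjm : j = m - k
        · subst hjm
          simp only [if_true]
          exact h5
        · simp only [if_neg hjm]
          have h6 := h2 j hj (by omega)
          have h7 : ec (m - k) ≤ e j := hmono j hj (m - k) (by omega)
          have h8 : e j ≤ ec j := by have := he1 j hj; omega
          exact h6.fib hb1 h8 (h3.fine hb1 h7)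
  obtain ⟨F, hFE, U, h1, h2⟩ := key (m + 1) le_rfl
  refine ⟨F, hFE, U, ?_, hb2, fun j hj => h2 j hj (by omega)⟩
  calc K.N ≤ b ^ G * E.card := hED
    _ ≤ b ^ G * (2 ^ (m + 1) * F.card) := Nat.mul_le_mul_left _ h1
    _ ≤ b ^ G * (b * F.card) := Nat.mul_le_mul_left _ (Nat.mul_le_mul_right _ hb2)
    _ = b ^ (G + 1) * F.card := by ring

/-! ### Restriction to the children -/

/-- The edges which lie in the chosen children at all levels `≥ x`. -/
def Ax (K : KSys ι) (b m : ℕ) (e ec : ℕ → ℕ) (F : Finset ℕ) (U : ℕ → ι → ℕ → ℕ × ℕ) (x : ℕ) :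
    Finset ℕ :=
  F.filter (fun j => ∀ y ∈ Icc x m, cell K b (ec y) j = (U y (K.a j) (cell K b (e y) j)).1 ∨
    cell K b (ec y) j = (U y (K.a j) (cell K b (e y) j)).2)

theorem mem_Ax {K : KSys ι} {b m : ℕ} {e ec : ℕ → ℕ} {F : Finset ℕ} {U : ℕ → ι → ℕ → ℕ × ℕ}
    {x j : ℕ} : j ∈ Ax K b m e ec F U x ↔ j ∈ F ∧ ∀ y, x ≤ y → y ≤ m →
      cell K b (ec y) j = (U y (K.a j) (cell K b (e y) j)).1 ∨
      cell K b (ec y) j = (U y (K.a j) (cell K b (e y) j)).2 := by
  unfold Ax
  simp only [mem_filter, mem_Icc, and_imp]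

theorem Ax_sub {K : KSys ι} {b m : ℕ} {e ec : ℕ → ℕ} {F : Finset ℕ} {U : ℕ → ι → ℕ → ℕ × ℕ}
    {x : ℕ} : Ax K b m e ec F U x ⊆ F := filter_subset _ _

/-- Comparison of two sets of edges on fibres. -/
theorem fibre_sum {α : Type} [DecidableEq α] (F A : Finset ℕ) (g : ℕ → α) (L : ℕ)
    (h : ∀ i ∈ F, (F.filter (fun j => g j = g i)).card ≤
      L * (A.filter (fun j => g j = g i)).card) : F.card ≤ L * A.card := by
  calc F.card = ∑ s ∈ F.image g, (F.filter (fun j => g j = s)).card :=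
        card_eq_sum_card_image g F
    _ ≤ ∑ s ∈ F.image g, L * (A.filter (fun j => g j = s)).card := by
        refine sum_le_sum ?_
        intro s hs
        obtain ⟨i, hi, rfl⟩ := mem_image.1 hs
        exact h i hi
    _ = L * ∑ s ∈ F.image g, (A.filter (fun j => g j = s)).card := by rw [mul_sum]
    _ ≤ L * A.card := by
        refine Nat.mul_le_mul_left _ ?_
        rw [← card_biUnion]
        · refine card_le_card ?_
          intro j hj
          obtain ⟨s, -, hs⟩ := mem_biUnion.1 hj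
          exact (mem_filter.1 hs).1
        · intro s _ s' _ hss
          rw [Function.onFun, disjoint_left]
          intro j hj hj'
          exact hss ((mem_filter.1 hj).2.symm.trans (mem_filter.1 hj').2)

/-- Quotas of the restricted set: the chosen children of level `x` contain many edges of
`Ax (x + 1)`. -/
theorem quotas {K : KSys ι} {b m G A d : ℕ} {e ec : ℕ → ℕ} {F : Finset ℕ}
    {U : ℕ → ι → ℕ → ℕ × ℕ} (hb : 1 ≤ b) (hι : 0 < Fintype.card ι)
    (he1 : ∀ j, j ≤ m → e j ≤ ec j) (hed : ∀ j, j ≤ m → ec j ≤ e j + d)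
    (he2 : ∀ j, j < m → ec j ≤ e (j + 1))
    (hPr : ∀ j, j ≤ m → Pr K b (e j) (ec j) G F (U j))
    (hlight : ∀ j, j ≤ m → ∀ i ∈ F, (F.filter (fun l => K.a l = K.a i ∧
      cell K b (e j) l = cell K b (e j) i)).card * (Fintype.card ι * b ^ e j) ≤ b ^ A * K.N)
    (k : ℕ) : k ≤ m → ∀ i ∈ F, ∀ u, (u = (U (m - k) (K.a i) (cell K b (e (m - k)) i)).1 ∨
      u = (U (m - k) (K.a i) (cell K b (e (m - k)) i)).2) →
      K.N ≤ b ^ (G + k * (G + A + d)) * (Fintype.card ι * b ^ ec (m - k)) *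
        ((Ax K b m e ec F U (m - k + 1)).filter (fun j => K.a j = K.a i ∧
          cell K b (ec (m - k)) j = u)).card := by
  induction k with
  | zero =>
    intro _ i hi u hu
    have h1 := (hPr m le_rfl).quota i hi u hu
    have h2 : Ax K b m e ec F U (m - 0 + 1) = F := by
      ext j
      rw [mem_Ax]
      constructor
      · intro h; exact h.1
      · intro h
        exact ⟨h, fun y hy hy' => by omega⟩
    rw [h2]
    simpa using h1.2
  | succ k ih =>
    intro hk i hi u hu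
    have hx : m - k = (m - (k + 1)) + 1 := by omega
    set x := m - (k + 1) with hxdef
    rw [hx] at ih
    have ih := ih (by omega)
    obtain ⟨h0, h1⟩ := (hPr x (by omega)).quota i hi u hu
    set Fu := F.filter (fun j => K.a j = K.a i ∧ cell K b (ec x) j = u) with hFu
    set Au := (Ax K b m e ec F U (x + 1)).filter (fun j => K.a j = K.a i ∧
      cell K b (ec x) j = u) with hAu
    set n := Fintype.card ι with hn
    -- compare on fibres of exponent `e (x+1)`
    have hcmp : Fu.card ≤ b ^ (A + (G + k * (G + A + d)) + d) * Au.card := by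
      refine fibre_sum Fu Au (fun j => cell K b (e (x + 1)) j) _ ?_
      intro j hj
      rw [hFu, mem_filter] at hj
      obtain ⟨hjF, hja, hju⟩ := hj
      -- upper bound for the fibre in `F`
      have h2 := hlight (x + 1) (by omega) j hjF
      have h3 : (Fu.filter (fun l => cell K b (e (x + 1)) l = cell K b (e (x + 1)) j)).card ≤
          (F.filter (fun l => K.a l = K.a j ∧
            cell K b (e (x + 1)) l = cell K b (e (x + 1)) j)).card := by
        refine card_le_card ?_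
        intro l hl
        simp only [hFu, mem_filter] at hl ⊢
        exact ⟨hl.1.1, hl.1.2.1.trans hja.symm, hl.2⟩
      -- lower bound for the fibre in `A`
      have h4 := ih j hjF (U (x + 1) (K.a j) (cell K b (e (x + 1)) j)).1 (Or.inl rfl)
      obtain ⟨⟨r, hr, hra, hre, hru⟩, -⟩ := (hPr (x + 1) (by omega)).quota j hjF
        (U (x + 1) (K.a j) (cell K b (e (x + 1)) j)).1 (Or.inl rfl)
      have h5 : ((Ax K b m e ec F U (x + 1 + 1)).filter (fun l => K.a l = K.a j ∧
          cell K b (ec (x + 1)) l = (U (x + 1) (K.a j) (cell K b (e (x + 1)) j)).1)).card ≤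
          (Au.filter (fun l => cell K b (e (x + 1)) l = cell K b (e (x + 1)) j)).card := by
        refine card_le_card ?_
        intro l hl
        rw [mem_filter, mem_Ax] at hl
        obtain ⟨⟨hlF, hlA⟩, hla, hlu⟩ := hl
        have hle : cell K b (e (x + 1)) l = cell K b (e (x + 1)) j := by
          rw [← hre]
          exact cell_coarse K hb (he1 (x + 1) (by omega)) (hlu.trans hru.symm)
        rw [mem_filter, hAu, mem_filter, mem_Ax]
        refine ⟨⟨⟨hlF, ?_⟩, hla.trans hja, ?_⟩, hle⟩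
        · intro y hy hy'
          rcases Nat.lt_or_ge (x + 1) y with h6 | h6
          · exact hlA y (by omega) hy'
          · have : y = x + 1 := by omega
            subst this
            left
            rw [hlu, hla, hle]
        · rw [← hju]
          exact cell_coarse K hb (he2 x (by omega)) hle
      -- combine
      have h6 : b ^ ec (x + 1) ≤ b ^ e (x + 1) * b ^ d := by
        rw [← pow_add]
        exact Nat.pow_le_pow_right hb (hed (x + 1) (by omega))
      set P := (Fu.filter (fun l => cell K b (e (x + 1)) l = cell K b (e (x + 1)) j)).card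
        with hP
      set R := (Au.filter (fun l => cell K b (e (x + 1)) l = cell K b (e (x + 1)) j)).card
        with hR
      have h7 : P * (n * b ^ e (x + 1)) ≤ b ^ A * K.N :=
        (Nat.mul_le_mul_right _ h3).trans h2
      have h8 : K.N ≤ b ^ (G + k * (G + A + d)) * (n * (b ^ e (x + 1) * b ^ d)) * R := by
        refine h4.trans (Nat.mul_le_mul (Nat.mul_le_mul_left _ (Nat.mul_le_mul_left _ h6)) h5)
      have h9 : (n * b ^ e (x + 1)) * P ≤
          (n * b ^ e (x + 1)) * (b ^ (A + (G + k * (G + A + d)) + d) * R) := by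
        calc (n * b ^ e (x + 1)) * P = P * (n * b ^ e (x + 1)) := by ring
          _ ≤ b ^ A * K.N := h7
          _ ≤ b ^ A * (b ^ (G + k * (G + A + d)) * (n * (b ^ e (x + 1) * b ^ d)) * R) :=
            Nat.mul_le_mul_left _ h8
          _ = (n * b ^ e (x + 1)) * (b ^ (A + (G + k * (G + A + d)) + d) * R) := by
            rw [pow_add, pow_add]
            ring
      exact Nat.le_of_mul_le_mul_left h9 (Nat.mul_pos hι (Nat.pow_pos (by omega)))
    calc K.N ≤ b ^ G * (n * b ^ ec x) * Fu.card := h1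
      _ ≤ b ^ G * (n * b ^ ec x) * (b ^ (A + (G + k * (G + A + d)) + d) * Au.card) :=
        Nat.mul_le_mul_left _ hcmp
      _ = b ^ (G + (k + 1) * (G + A + d)) * (n * b ^ ec x) * Au.card := by
        have : G + (k + 1) * (G + A + d) = G + (A + (G + k * (G + A + d)) + d) := by ring
        rw [this, pow_add b G]
        ring

/-- The children of level `x` of the restricted set. -/
theorem chil_sub {K : KSys ι} {b m G : ℕ} {e ec : ℕ → ℕ} {F : Finset ℕ}
    {U : ℕ → ι → ℕ → ℕ × ℕ} (hb : 1 ≤ b)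
    (he1 : ∀ j, j ≤ m → e j ≤ ec j)
    (hmono : ∀ j, j ≤ m → ∀ i, i < j → ec i ≤ e j)
    (hPr : ∀ j, j ≤ m → Pr K b (e j) (ec j) G F (U j)) {i : ℕ}
    (hi : i ∈ Ax K b m e ec F U 0) {x : ℕ} (hx : x ≤ m) {u : ℕ}
    (hu : u = (U x (K.a i) (cell K b (e x) i)).1 ∨ u = (U x (K.a i) (cell K b (e x) i)).2) :
    (Ax K b m e ec F U (x + 1)).filter (fun j => K.a j = K.a i ∧ cell K b (ec x) j = u) ⊆
    (Ax K b m e ec F U 0).filter (fun j => (K.a j = K.a i ∧
      cell K b (e x) j = cell K b (e x) i) ∧ cell K b (ec x) j = u) := by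
  intro j hj
  rw [mem_filter, mem_Ax] at hj
  obtain ⟨⟨hjF, hjA⟩, hja, hju⟩ := hj
  rw [mem_Ax] at hi
  obtain ⟨hiF, hiA⟩ := hi
  obtain ⟨⟨r, hr, hra, hre, hru⟩, -⟩ := (hPr x hx).quota i hiF u hu
  have hle : cell K b (e x) j = cell K b (e x) i := by
    rw [← hre]
    exact cell_coarse K hb (he1 x hx) (hju.trans hru.symm)
  rw [mem_filter, mem_Ax]
  refine ⟨⟨hjF, ?_⟩, ⟨hja, hle⟩, hju⟩
  intro y hy hy'
  rcases Nat.lt_trichotomy y x with h1 | h1 | h1
  · have h2 : ec y ≤ e x := hmono x hx y h1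
    have h3 : cell K b (ec y) j = cell K b (ec y) i := cell_coarse K hb h2 hle
    have h4 : cell K b (e y) j = cell K b (e y) i :=
      cell_coarse K hb ((he1 y (by omega)).trans h2) hle
    rw [h3, h4, hja]
    exact hiA y hy hy'
  · subst h1
    rw [hju, hja, hle]
    exact hu
  · exact hjA y (by omega) hy'

theorem I_GR (hT2 : StT2c) (hMc : MX.StMc) (hGP : MX.StGP) : StGR := by
  classical
  have hS := I_Step hT2 hMc hGP
  intro m G f0
  obtain ⟨c0, hlev⟩ := levels hS m G
  set c := c0 + 1 with hc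
  set f := f0 + c with hf
  set S := (G + 2) + m * ((G + 2) + G + f) with hSdef
  set G' := (G + 1) + (G + S + f) + 8 * f with hG'
  refine ⟨c, f, G', by omega, by omega, by omega, ?_⟩
  intro η hη
  obtain ⟨n0, hn0⟩ := hlev η hη
  refine ⟨max n0 1, ?_⟩
  intro ι _ _ K hx hgp hn b hb hbN R M hcR hfR hRM hbM E hEG hHyg
  have hn1 : n0 ≤ Fintype.card ι := le_trans (le_max_left _ _) hn
  have hι : 0 < Fintype.card ι := le_trans (le_max_right _ _) hn
  set n := Fintype.card ι with hndef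
  have hn1r : (1 : ℝ) ≤ n := by exact_mod_cast hι
  have hb1r : (1 : ℝ) ≤ b := (Real.one_le_rpow hn1r hη.le).trans hb
  have hb1 : 1 ≤ b := by exact_mod_cast hb1r
  have hM1 : 1 ≤ M := by
    have : 0 ≤ R * m := Nat.zero_le _
    omega
  -- `b ^ (4 M) ≤ N`
  have hbMN : b ^ (4 * M) ≤ K.N := by
    have h1 : (b : ℝ) * (b : ℝ) ^ (4 * M) ≤ (b : ℝ) * K.N := by
      calc (b : ℝ) * (b : ℝ) ^ (4 * M) = (b : ℝ) ^ (4 * M + 1) := by ring
        _ ≤ (b : ℝ) ^ (8 * M) := pow_le_pow_right₀ hb1r (by omega)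
        _ ≤ n := hbM
        _ = (n : ℝ) ^ (1 : ℝ) := (Real.rpow_one _).symm
        _ ≤ (n : ℝ) ^ ((4 : ℝ) / 3) := Real.rpow_le_rpow_of_exponent_le hn1r (by norm_num)
        _ ≤ (b : ℝ) * K.N := hbN
    have h2 : (b : ℝ) ^ (4 * M) ≤ K.N := le_of_mul_le_mul_left h1 (by linarith)
    exact_mod_cast h2
  have hNp : 0 < K.N := lt_of_lt_of_le (Nat.pow_pos (by omega)) hbMN
  set e : ℕ → ℕ := fun j => R * j with he
  set ec : ℕ → ℕ := fun j => if j = 0 then f else R * j + c with hec
  have hee : ∀ j, j ≤ m → e j + c0 ≤ ec j := by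
    intro j hj
    simp only [he, hec]
    split_ifs with h
    · subst h
      omega
    · omega
  have he1 : ∀ j, j ≤ m → e j ≤ ec j := fun j hj => by have := hee j hj; omega
  have hed : ∀ j, j ≤ m → ec j ≤ e j + f := by
    intro j hj
    simp only [he, hec]
    split_ifs with h
    · omega
    · omega
  have he2 : ∀ j, j < m → ec j ≤ e (j + 1) := by
    intro j hj
    simp only [he, hec]
    have : R * (j + 1) = R * j + R := by ring
    split_ifs with h
    · omega
    · omega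
  have hecM : ∀ j, j ≤ m → ec j ≤ M := by
    intro j hj
    have h1 : R * j ≤ R * m := Nat.mul_le_mul_left _ hj
    simp only [hec]
    split_ifs with h
    · omega
    · omega
  have heM : ∀ j, j ≤ m → e j ≤ M := fun j hj => (he1 j hj).trans (hecM j hj)
  have hE : E ⊆ range K.N := fun i hi => mem_range.2 (hHyg i hi).lt
  have hEG' : K.N ≤ b ^ G * E.card := by exact_mod_cast hEG
  obtain ⟨F, hFE, U, hFN, hb2, hPr⟩ := hn0 ι K hx hgp hn1 b hb hbN e ec hee he2
    (fun j hj => (Nat.pow_le_pow_right hb1 (by have := hecM j hj; omega)).trans hbMN) E hE hEG'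
  have hmono := e_mono he1 he2
  have hlight : ∀ j, j ≤ m → ∀ i ∈ F, (F.filter (fun l => K.a l = K.a i ∧
      cell K b (e j) l = cell K b (e j) i)).card * (n * b ^ e j) ≤ b ^ G * K.N := by
    intro j hj i hi
    have h1 := (hHyg i (hFE hi)).light false (e j) (heM j hj)
    have h2 : (F.filter (fun l => K.a l = K.a i ∧
      cell K b (e j) l = cell K b (e j) i)).card ≤ ((range K.N).filter (fun l =>
        K.ln false l = K.ln false i ∧ cell K b (e j) l = cell K b (e j) i)).card := by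
      refine card_le_card ?_
      intro l hl
      rw [mem_filter] at hl ⊢
      exact ⟨hE (hFE hl.1), hl.2⟩
    have h3 : ((range K.N).filter (fun l =>
        K.ln false l = K.ln false i ∧ cell K b (e j) l = cell K b (e j) i)).card *
        (n * b ^ e j) ≤ b ^ G * K.N := by exact_mod_cast h1
    exact (Nat.mul_le_mul_right _ h2).trans h3
  have hq : ∀ x, x ≤ m → ∀ i ∈ F, ∀ u, (u = (U x (K.a i) (cell K b (e x) i)).1 ∨
      u = (U x (K.a i) (cell K b (e x) i)).2) →
      K.N ≤ b ^ S * (n * b ^ ec x) *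
        ((Ax K b m e ec F U (x + 1)).filter (fun j => K.a j = K.a i ∧
          cell K b (ec x) j = u)).card := by
    intro x hx i hi u hu
    have h1 : m - (m - x) = x := by omega
    have h2 := quotas (G := G + 2) (A := G) (d := f) hb1 hι he1 hed he2 hPr hlight (m - x)
      (by omega)
    rw [h1] at h2
    refine (h2 i hi u hu).trans ?_
    refine Nat.mul_le_mul_right _ (Nat.mul_le_mul_right _ (Nat.pow_le_pow_right hb1 ?_))
    rw [hSdef]
    exact Nat.add_le_add_left (Nat.mul_le_mul_right _ (by omega)) _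
  -- level `0`
  have hc0 : ∀ i, i < K.N → cell K b (e 0) i = 0 := by
    intro i hi
    simp only [he, cell]
    simp only [Nat.mul_zero, pow_zero, mul_one]
    exact Nat.div_eq_of_lt hi
  have hFN' : ∀ i ∈ F, i < K.N := fun i hi => mem_range.1 (hE (hFE hi))
  set A0 := Ax K b m e ec F U 0 with hA0
  have hA0F : A0 ⊆ F := Ax_sub
  have hec0 : ec 0 = f := by simp [hec]
  have he0 : e 0 = 0 := by simp [he]
  -- many edges of `A0` on every line
  have hFA : F.card ≤ b ^ (G + S + f) * A0.card := by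
    refine fibre_sum F A0 (fun j => K.a j) _ ?_
    intro i hi
    have h1 := hlight 0 (by omega) i hi
    have h2 := hq 0 (by omega) i hi _ (Or.inl rfl)
    have h3 : ((Ax K b m e ec F U (0 + 1)).filter (fun j => K.a j = K.a i ∧
          cell K b (ec 0) j = (U 0 (K.a i) (cell K b (e 0) i)).1)).card ≤
        (A0.filter (fun j => K.a j = K.a i)).card := by
      refine card_le_card ?_
      intro j hj
      rw [mem_filter, mem_Ax] at hj
      obtain ⟨⟨hjF, hjA⟩, hja, hju⟩ := hj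
      rw [mem_filter, hA0, mem_Ax]
      refine ⟨⟨hjF, ?_⟩, hja⟩
      intro y hy hy'
      rcases Nat.eq_zero_or_pos y with h | h
      · subst h
        left
        rw [hju, hja, hc0 i (hFN' i hi), hc0 j (hFN' j hjF)]
      · exact hjA y (by omega) hy'
    have h4 : (F.filter (fun j => K.a j = K.a i)).card ≤ (F.filter (fun l => K.a l = K.a i ∧
      cell K b (e 0) l = cell K b (e 0) i)).card := by
      refine card_le_card ?_
      intro j hj
      rw [mem_filter] at hj ⊢
      exact ⟨hj.1, hj.2, by rw [hc0 i (hFN' i hi), hc0 j (hFN' j hj.1)]⟩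
    rw [he0, pow_zero, mul_one] at h1
    rw [hec0] at h2
    set P := (F.filter (fun j => K.a j = K.a i)).card with hP
    set Q := (A0.filter (fun j => K.a j = K.a i)).card with hQ
    have h5 : n * P ≤ n * (b ^ (G + S + f) * Q) := by
      calc n * P = P * n := by ring
        _ ≤ b ^ G * K.N := (Nat.mul_le_mul_right _ h4).trans (by simpa [he0] using h1)
        _ ≤ b ^ G * (b ^ S * (n * b ^ f) * Q) := by
          refine Nat.mul_le_mul_left _ (h2.trans (Nat.mul_le_mul_left _ ?_))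
          simpa [hec0] using h3
        _ = n * (b ^ (G + S + f) * Q) := by
          rw [pow_add, pow_add]
          ring
    exact Nat.le_of_mul_le_mul_left h5 hι
  have hFpos : 0 < F.card := by
    rcases Nat.eq_zero_or_pos F.card with h | h
    · rw [h, mul_zero] at hFN
      omega
    · exact h
  have hA0pos : 0 < A0.card := by
    rcases Nat.eq_zero_or_pos A0.card with h | h
    · rw [h, mul_zero] at hFA
      omega
    · exact h
  -- the popular pair
  set pr : ℕ → ℕ × ℕ := fun i => U 0 (K.a i) 0 with hpr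
  set T : Finset (ℕ × ℕ) := range (b ^ (4 * f)) ×ˢ range (b ^ (4 * f)) with hT
  have hTcard : T.card = b ^ (8 * f) := by
    rw [hT, card_product, card_range, ← pow_add]
    congr 1
    omega
  have hclt : ∀ j, j < K.N → cell K b f j < b ^ (4 * f) := by
    intro j hj
    unfold cell
    rw [Nat.div_lt_iff_lt_mul hNp, mul_comm]
    exact Nat.mul_lt_mul_of_pos_left hj (Nat.pow_pos (by omega))
  have hmaps : ∀ i ∈ A0, pr i ∈ T := by
    intro i hi
    have hiF := hA0F hi
    have h0 := hc0 i (hFN' i hiF)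
    obtain ⟨⟨j1, hj1, -, -, h1⟩, -⟩ := (hPr 0 (by omega)).quota i hiF _ (Or.inl rfl)
    obtain ⟨⟨j2, hj2, -, -, h2⟩, -⟩ := (hPr 0 (by omega)).quota i hiF _ (Or.inr rfl)
    rw [h0, hec0] at h1 h2
    rw [hT, mem_product, mem_range, mem_range]
    simp only [hpr]
    rw [← h1, ← h2]
    exact ⟨hclt j1 (hFN' j1 hj1), hclt j2 (hFN' j2 hj2)⟩
  have hpop : ∃ w ∈ T, A0.card ≤ b ^ (8 * f) * (A0.filter (fun i => pr i = w)).card := by
    have hTne : T.Nonempty := by
      obtain ⟨i, hi⟩ := card_pos.1 hA0pos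
      exact ⟨_, hmaps i hi⟩
    refine exists_le_of_sum_le hTne ?_
    rw [sum_const, smul_eq_mul, ← mul_sum, ← card_eq_sum_card_fiberwise hmaps, hTcard]
  obtain ⟨w, hwT, hw⟩ := hpop
  set E' := A0.filter (fun i => pr i = w) with hE'
  have hE'A : E' ⊆ A0 := filter_subset _ _
  have hE'pos : 0 < E'.card := by
    rcases Nat.eq_zero_or_pos E'.card with h | h
    · rw [h, mul_zero] at hw
      omega
    · exact h
  -- quotas of `E'`
  have hqE : ∀ i ∈ E', ∀ x, x ≤ m → ∀ u, (u = (U x (K.a i) (cell K b (e x) i)).1 ∨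
      u = (U x (K.a i) (cell K b (e x) i)).2) →
      K.N ≤ b ^ G' * (n * b ^ e x) * (E'.filter (fun j => (K.a j = K.a i ∧
      cell K b (e x) j = cell K b (e x) i) ∧ cell K b (ec x) j = u)).card := by
    intro i hi x hx u hu
    have hiA := hE'A hi
    have h1 := hq x hx i (hA0F hiA) u hu
    have h2 : ((Ax K b m e ec F U (x + 1)).filter (fun j => K.a j = K.a i ∧
          cell K b (ec x) j = u)).card ≤ (E'.filter (fun j => (K.a j = K.a i ∧
      cell K b (e x) j = cell K b (e x) i) ∧ cell K b (ec x) j = u)).card := by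
      refine card_le_card ?_
      intro j hj
      have h3 := chil_sub hb1 he1 hmono hPr hiA hx hu hj
      rw [mem_filter] at h3 ⊢
      refine ⟨?_, h3.2⟩
      rw [hE', mem_filter]
      refine ⟨h3.1, ?_⟩
      simp only [hpr]
      rw [h3.2.1.1]
      exact (mem_filter.1 hi).2
    have h4 : b ^ ec x ≤ b ^ e x * b ^ f := by
      rw [← pow_add]
      exact Nat.pow_le_pow_right hb1 (hed x hx)
    calc K.N ≤ b ^ S * (n * b ^ ec x) * ((Ax K b m e ec F U (x + 1)).filter (fun j =>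
          K.a j = K.a i ∧ cell K b (ec x) j = u)).card := h1
      _ ≤ b ^ S * (n * (b ^ e x * b ^ f)) * (E'.filter (fun j => (K.a j = K.a i ∧
      cell K b (e x) j = cell K b (e x) i) ∧ cell K b (ec x) j = u)).card :=
        Nat.mul_le_mul (Nat.mul_le_mul_left _ (Nat.mul_le_mul_left _ h4)) h2
      _ = b ^ (S + f) * (n * b ^ e x) * (E'.filter (fun j => (K.a j = K.a i ∧
      cell K b (e x) j = cell K b (e x) i) ∧ cell K b (ec x) j = u)).card := by
        rw [pow_add]
        ring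
      _ ≤ b ^ G' * (n * b ^ e x) * (E'.filter (fun j => (K.a j = K.a i ∧
      cell K b (e x) j = cell K b (e x) i) ∧ cell K b (ec x) j = u)).card :=
        Nat.mul_le_mul_right _ (Nat.mul_le_mul_right _ (Nat.pow_le_pow_right hb1 (by omega)))
  have hEF : ∀ i ∈ E', i ∈ F := fun i hi => hA0F (hE'A hi)
  have hEw : ∀ i ∈ E', U 0 (K.a i) (cell K b (e 0) i) = w := by
    intro i hi
    rw [hc0 i (hFN' i (hEF i hi))]
    exact (mem_filter.1 hi).2
  obtain ⟨i0, hi0⟩ := card_pos.1 hE'pos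
  refine ⟨E', (hE'A.trans hA0F).trans hFE, U, w.1, w.2, ⟨?_, ?_, ?_, ?_, ?_, ?_⟩, ?_⟩
  · -- big
    have h1 : K.N ≤ b ^ G' * E'.card := by
      calc K.N ≤ b ^ (G + 1) * F.card := hFN
        _ ≤ b ^ (G + 1) * (b ^ (G + S + f) * (b ^ (8 * f) * E'.card)) :=
          Nat.mul_le_mul_left _ (hFA.trans (Nat.mul_le_mul_left _ hw))
        _ = b ^ G' * E'.card := by
          rw [hG', pow_add b (G + 1 + (G + S + f)), pow_add b (G + 1)]
          ring
    exact_mod_cast h1
  · have h1 := (hPr 0 (by omega)).lt i0 (hEF i0 hi0)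
    rw [hEw i0 hi0] at h1
    exact h1
  · intro i hi
    have h1 := (mem_Ax.1 (hE'A hi)).2 0 le_rfl (Nat.zero_le _)
    rw [hEw i hi, hec0] at h1
    exact h1
  · have h1 := (hPr 0 (by omega)).gap i0 (hEF i0 hi0)
    rw [hEw i0 hi0, hec0] at h1
    exact h1
  · intro i hi
    have h1 := hqE i hi 0 (by omega) w.1 (Or.inl (by rw [hEw i hi]))
    rw [hec0, he0, pow_zero, mul_one] at h1
    have h2 : (E'.filter (fun j => (K.a j = K.a i ∧
      cell K b 0 j = cell K b 0 i) ∧ cell K b f j = w.1)).card ≤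
      (E'.filter (fun j => K.a j = K.a i ∧ cell K b f j = w.1)).card := by
      refine card_le_card ?_
      intro j hj
      rw [mem_filter] at hj ⊢
      exact ⟨hj.1, hj.2.1.1, hj.2.2⟩
    have h3 : K.N ≤ b ^ G' * n *
        (E'.filter (fun j => K.a j = K.a i ∧ cell K b f j = w.1)).card :=
      h1.trans (Nat.mul_le_mul_left _ h2)
    exact_mod_cast h3
  · intro i hi
    have h1 := hqE i hi 0 (by omega) w.2 (Or.inr (by rw [hEw i hi]))
    rw [hec0, he0, pow_zero, mul_one] at h1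
    have h2 : (E'.filter (fun j => (K.a j = K.a i ∧
      cell K b 0 j = cell K b 0 i) ∧ cell K b f j = w.2)).card ≤
      (E'.filter (fun j => K.a j = K.a i ∧ cell K b f j = w.2)).card := by
      refine card_le_card ?_
      intro j hj
      rw [mem_filter] at hj ⊢
      exact ⟨hj.1, hj.2.1.1, hj.2.2⟩
    have h3 : K.N ≤ b ^ G' * n *
        (E'.filter (fun j => K.a j = K.a i ∧ cell K b f j = w.2)).card :=
      h1.trans (Nat.mul_le_mul_left _ h2)
    exact_mod_cast h3
  · intro x hx1 hxm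
    have hecx : ec x = R * x + c := by
      simp only [hec]
      rw [if_neg (by omega)]
    refine ⟨?_, ?_, ?_, ?_, ?_⟩
    · intro i hi
      exact (hPr x hxm).lt i (hEF i hi)
    · intro i hi
      have h1 := (mem_Ax.1 (hE'A hi)).2 x (Nat.zero_le _) hxm
      rw [hecx] at h1
      exact h1
    · intro i hi
      have h1 := (hPr x hxm).gap i (hEF i hi)
      rw [hecx] at h1
      exact h1
    · intro i hi
      have h1 := hqE i hi x hxm _ (Or.inl rfl)
      rw [hecx, ← filter_filter] at h1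
      unfold EE
      exact_mod_cast h1
    · intro i hi
      have h1 := hqE i hi x hxm _ (Or.inr rfl)
      rw [hecx, ← filter_filter] at h1
      unfold EE
      exact_mod_cast h1

end Pool.Agent.Work.MP_e17eac_co.HSGR
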