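import Pool.Agent.Work.MP_e17eac_co.HS.StB

/-!
# HS, statements, part C: existence of label systems, two-sided pairs, radii, profile

Integer level `z = 1, ..., m` = labelled level `2 z`, exponent `R z`; fine level `2 z + 1`,
exponent `R z + F`.
-/

namespace Pool.Agent.Work.MP_e17eac_co.HS

open Finset
open Pool.Agent.Work.MP_e17eac_co.DH
open Pool.Agent.Work.MP_e17eac_co.B1
open Pool.Agent.Work.MP_e17eac_co.DH.XSWEEP (GP)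

/-- The exponents of the labelled levels. -/
def ex (R F j : ℕ) : ℕ := R * (j / 2) + F * (j % 2)

/-- **Existence of label systems** (A-I, A-II bottom-up). `dp j` = depth of the children at the
level `J - j`, `GG J` = loss exponent. -/
def StLS : Prop := ∃ dp GG : ℕ → ℕ, (∀ J, 64 ≤ GG J) ∧ (∀ J j, j ≤ J → 1 ≤ dp j ∧ dp j ≤ GG J) ∧
  ∀ (J : ℕ) (η : ℝ), 0 < η → ∃ n0 : ℕ, ∀ (ι : Type) [Fintype ι] [DecidableEq ι] (K : KSys ι),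
  Function.Injective K.x → GP K.x K.y → n0 ≤ Fintype.card ι →
  ∀ b : ℕ, (Fintype.card ι : ℝ) ^ η ≤ b → (Fintype.card ι : ℝ) ^ ((4 : ℝ) / 3) ≤ b * K.N →
  ∀ (e : ℕ → ℕ) (M : ℕ), e 0 = 0 → (∀ j, j < J → e j + dp (J - j) ≤ e (j + 1)) →
  e J + GG J ≤ M → (b : ℝ) ^ (8 * M) ≤ Fintype.card ι →
  ∃ (α : Type) (_ : DecidableEq α) (L : Lb α) (E : Finset ℕ),
    LS K b M J e (fun j => e j + dp (J - j)) ((b : ℝ) ^ GG J) L E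

/-- **Two-sided pairs at all integer levels and the base interval**, for any dense set of
hygienic edges (`m = 0`: root lemma). `f0` = exponent of the old base cells. -/
def StGR : Prop := ∀ m G f0 : ℕ, ∃ c f G' : ℕ, 1 ≤ c ∧ f0 ≤ f ∧ G ≤ G' ∧
  ∀ η : ℝ, 0 < η → ∃ n0 : ℕ, ∀ (ι : Type) [Fintype ι] [DecidableEq ι] (K : KSys ι),
  Function.Injective K.x → GP K.x K.y → n0 ≤ Fintype.card ι →
  ∀ b : ℕ, (Fintype.card ι : ℝ) ^ η ≤ b → (Fintype.card ι : ℝ) ^ ((4 : ℝ) / 3) ≤ b * K.N →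
  ∀ R M : ℕ, c ≤ R → f ≤ R → R * m + R ≤ M → (b : ℝ) ^ (8 * M) ≤ Fintype.card ι →
  ∀ E : Finset ℕ, (K.N : ℝ) ≤ (b : ℝ) ^ G * E.card → (∀ i ∈ E, Hyg K b M ((b : ℝ) ^ G) i) →
  ∃ E' ⊆ E, ∃ (U : ℕ → ι → ℕ → ℕ × ℕ) (u u' : ℕ), Rt K b f u u' ((b : ℝ) ^ G') E' ∧
    ∀ x, 1 ≤ x → x ≤ m → TwoP K b (R * x) (R * x + c) ((b : ℝ) ^ G') E' (U x)

/-- The structure after RADII. `rm z p ≤ radius of p at level z ≤ rp z p`; `X4` = few exceptional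
edges; base interval `[ta u, tb u']`. -/
structure S4 {ι α : Type} [Fintype ι] [DecidableEq ι] [DecidableEq α] (K : KSys ι)
    (b M m R F : ℕ) (ec : ℕ → ℕ) (D D' ρ : ℝ) (L : Lb α) (E E4 X4 : Finset ℕ)
    (U : ℕ → ι → ℕ → ℕ × ℕ) (c f u u' : ℕ) (rm rp : ℕ → ι → ℝ) : Prop where
  ls : LS K b M (2 * m + 1) (ex R F) ec D L E
  fine : ∀ z, z ≤ m → Fine b (2 * m + 1) (ex R F) D (2 * z)
  DD : D ≤ D'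
  one : 1 ≤ ρ
  sub : E4 ⊆ E
  rt : Rt K b f u u' D' E4
  fR : f ≤ R ∧ c ≤ R ∧ F ≤ R
  tw : ∀ x, 1 ≤ x → x ≤ m → TwoP K b (R * x) (R * x + c) D' E4 (U x)
  rmp : ∀ z, 1 ≤ z → z ≤ m → ∀ i ∈ E4, 0 < rm z (K.a i)
  r1 : ∀ z, 1 ≤ z → z ≤ m → ∀ i ∈ E4, rm z (K.a i) ≤ 3 * b * L.rho (L.lab (2 * z) i)
  r2 : ∀ z, 1 ≤ z → z ≤ m → ∀ i ∈ E4, (Fintype.card ι : ℝ) ≤ D' * (b : ℝ) ^ (4 * (R * z)) *
    ((bal K (PS K b M D) (ta K b f u) (tb K b f u') (K.a i) (rm z (K.a i))).card : ℝ)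
  X4s : X4 ⊆ E4
  r1' : ∀ z, 1 ≤ z → z ≤ m → ∀ i ∈ E4 \ X4, L.rho (L.lab (2 * z) i) ≤ rp z (K.a i)
  r2' : ∀ z, 1 ≤ z → z ≤ m → ∀ i ∈ E4 \ X4, (b : ℝ) ^ (4 * (R * z)) *
    ((bal K (PS K b M D) (ta K b f u) (tb K b f u') (K.a i)
      ((b : ℝ) ^ 16 * rp z (K.a i))).card : ℝ) ≤ ρ ^ 2 * Fintype.card ι

/-- **RADII.** -/
def StRad : Prop := StLB → StP2 → StGR → ∀ m G : ℕ, 1 ≤ m → 64 ≤ G → ∃ c f G' : ℕ, G ≤ G' ∧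
  ∀ (k C4 : ℕ), ∃ CB : ℕ, ∀ η : ℝ, 0 < η → ∃ n0 : ℕ, ∀ (ι α : Type) [Fintype ι] [DecidableEq ι]
  [DecidableEq α] (K : KSys ι), Function.Injective K.x → GP K.x K.y → n0 ≤ Fintype.card ι →
  ∀ b : ℕ, (Fintype.card ι : ℝ) ^ η ≤ b → (Fintype.card ι : ℝ) ^ ((4 : ℝ) / 3) ≤ b * K.N →
  ∀ (R M F : ℕ) (ec : ℕ → ℕ) (L : Lb α) (E : Finset ℕ) (ρ : ℝ), c ≤ R → f ≤ R → F ≤ R →
  R * m + R ≤ M → (b : ℝ) ^ (8 * M) ≤ Fintype.card ι →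
  LS K b M (2 * m + 1) (ex R F) ec ((b : ℝ) ^ G) L E →
  (∀ z, z ≤ m → Fine b (2 * m + 1) (ex R F) ((b : ℝ) ^ G) (2 * z)) →
  (b : ℝ) ^ CB ≤ ρ → ρ ^ 8 ≤ (b : ℝ) ^ R → (b : ℝ) ^ (4 * ex R F (2 * m + 1)) ≤ ρ ^ (2 ^ k) →
  (b : ℝ) ^ CB * (Fintype.card ι * (b : ℝ) ^ (5 * M)) ≤ K.N →
  ∃ (E4 X4 : Finset ℕ) (U : ℕ → ι → ℕ → ℕ × ℕ) (u u' : ℕ) (rm rp : ℕ → ι → ℝ),
    S4 K b M m R F ec ((b : ℝ) ^ G) ((b : ℝ) ^ G') ρ L E E4 X4 U c f u u' rm rp ∧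
    (b : ℝ) ^ C4 * X4.card ≤ K.N

/-- **(U)**: upper bound for the hulls. -/
def StU : Prop := StLB → StPlank → ∃ C : ℕ, ∀ (ι α : Type) [Fintype ι] [DecidableEq ι]
  [DecidableEq α] (K : KSys ι), Function.Injective K.x →
  ∀ (b M m R F : ℕ) (ec : ℕ → ℕ) (D D' ρ : ℝ) (L : Lb α) (E E4 X4 : Finset ℕ)
  (U : ℕ → ι → ℕ → ℕ × ℕ) (c f u u' : ℕ) (rm rp : ℕ → ι → ℝ),
  S4 K b M m R F ec D D' ρ L E E4 X4 U c f u u' rm rp →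
  ∀ (ε : ℝ) (k : ℕ), Bg K b M (2 * m + 1) (ex R F) D' ε ρ k C → ρ ^ 8 ≤ (b : ℝ) ^ R →
  D' ^ C * (X4.card : ℝ) ≤ ε ^ C * K.N →
  ∀ x y z, 1 ≤ x → x < z → 1 ≤ y → y ≤ z → z ≤ m → 2 * z + 1 ≤ x + 2 * y →
  ∃ X ⊆ E4, (X.card : ℝ) ≤ ε * K.N ∧ ∀ i ∈ E4 \ X,
    (g1 K b (R * x) (R * x + c) (U x) i - g0 K b (R * x) (R * x + c) (U x) i) *
      rm y (K.a i) ≤ rp z (K.a i) * (tb K b f u' - ta K b f u)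

/-- **(Lo)**: lower bound for the hulls. -/
def StLo : Prop := StLB → StP2 → ∃ C : ℕ, ∀ (ι α : Type) [Fintype ι] [DecidableEq ι]
  [DecidableEq α] (K : KSys ι), Function.Injective K.x →
  ∀ (b M m R F : ℕ) (ec : ℕ → ℕ) (D D' ρ : ℝ) (L : Lb α) (E E4 X4 : Finset ℕ)
  (U : ℕ → ι → ℕ → ℕ × ℕ) (c f u u' : ℕ) (rm rp : ℕ → ι → ℝ),
  S4 K b M m R F ec D D' ρ L E E4 X4 U c f u u' rm rp →
  ∀ (ε : ℝ) (k : ℕ), Bg K b M (2 * m + 1) (ex R F) D' ε ρ k C → ρ ^ 8 ≤ (b : ℝ) ^ R →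
  D' ^ C * (X4.card : ℝ) ≤ ε ^ C * K.N →
  ∀ x y z, 1 ≤ x → x < z → 1 ≤ y → y ≤ z → z ≤ m → x + 2 * y + 1 ≤ 2 * z → z + 1 ≤ 2 * y →
  ∃ X ⊆ E4, (X.card : ℝ) ≤ ε * K.N ∧ ∀ i ∈ E4 \ X,
    rm z (K.a i) * (tb K b f u' - ta K b f u) ≤
    (g1 K b (R * x) (R * x + c) (U x) i - g0 K b (R * x) (R * x + c) (U x) i) * rp y (K.a i)

/-- **(ST)**: strips. -/
def StST : Prop := StLB → ∃ C : ℕ, ∀ (ι α : Type) [Fintype ι] [DecidableEq ι]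
  [DecidableEq α] (K : KSys ι), Function.Injective K.x →
  ∀ (b M m R F : ℕ) (ec : ℕ → ℕ) (D D' ρ : ℝ) (L : Lb α) (E E4 X4 : Finset ℕ)
  (U : ℕ → ι → ℕ → ℕ × ℕ) (c f u u' : ℕ) (rm rp : ℕ → ι → ℝ),
  S4 K b M m R F ec D D' ρ L E E4 X4 U c f u u' rm rp →
  ∀ (ε : ℝ) (k : ℕ), Bg K b M (2 * m + 1) (ex R F) D' ε ρ k C → ρ ^ 8 ≤ (b : ℝ) ^ R →
  D' ^ C * (X4.card : ℝ) ≤ ε ^ C * K.N →
  ∀ x y z, 1 ≤ x → x ≤ z → 1 ≤ y → y ≤ z → z ≤ m → z + 1 ≤ 2 * y →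
  ∃ X ⊆ E4, (X.card : ℝ) ≤ ε * K.N ∧ ∀ i ∈ E4 \ X, ∃ i1 ∈ EE K b (R * x) E4 i \ X4,
    ∃ i2 ∈ E4 \ X4, K.a i2 = K.a i ∧ cell K b f i2 ≠ cell K b f i ∧
    ε ^ C * Fintype.card ι ≤ D' ^ C * (b : ℝ) ^ (2 * (R * y) + 2 * (R * z)) *
      ((NN K E4 (L.lab (2 * z)) i1 ∩ NN K E4 (L.lab (2 * y)) i2).card : ℝ)

/-- Few hulls are long. -/
def StShort : Prop := ∃ C : ℕ, ∀ (ι α : Type) [Fintype ι] [DecidableEq ι]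
  [DecidableEq α] (K : KSys ι), Function.Injective K.x →
  ∀ (b M m R F : ℕ) (ec : ℕ → ℕ) (D D' ρ : ℝ) (L : Lb α) (E E4 X4 : Finset ℕ)
  (U : ℕ → ι → ℕ → ℕ × ℕ) (c f u u' : ℕ) (rm rp : ℕ → ι → ℝ),
  S4 K b M m R F ec D D' ρ L E E4 X4 U c f u u' rm rp →
  ∀ ε : ℝ, 0 < ε → ε ≤ 1 → ∀ x, 1 ≤ x → x ≤ m →
  ∃ X ⊆ E4, (X.card : ℝ) ≤ ε * K.N ∧ ∀ i ∈ E4 \ X,
    (g1 K b (R * x) (R * x + c) (U x) i - g0 K b (R * x) (R * x + c) (U x) i) *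
      (b : ℝ) ^ (4 * (R * x)) * ε ^ C ≤ D' ^ C * (tb K b f u' - ta K b f u)

/-- (R3): the radii of consecutive levels. -/
def StR3 : Prop := ∀ (ι α : Type) [Fintype ι] [DecidableEq ι]
  [DecidableEq α] (K : KSys ι) (b M m R F : ℕ) (ec : ℕ → ℕ) (D D' ρ : ℝ) (L : Lb α)
  (E E4 X4 : Finset ℕ) (U : ℕ → ι → ℕ → ℕ × ℕ) (c f u u' : ℕ) (rm rp : ℕ → ι → ℝ),
  S4 K b M m R F ec D D' ρ L E E4 X4 U c f u u' rm rp → D' * ρ ^ 2 < (b : ℝ) ^ (4 * R) →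
  ∀ z, 1 ≤ z → z + 1 ≤ m → ∀ i ∈ E4 \ X4, (b : ℝ) ^ 16 * rp (z + 1) (K.a i) < rm z (K.a i)

/-- **Base lower bound** for subsets `E5` and refined labels `g` at the integer level `y`: most
lines share the labels of two of their edges, one in each base cell, with many lines. -/
def StRLB : Prop := StLB → ∃ C : ℕ, ∀ (ι α γ : Type) [Fintype ι] [DecidableEq ι]
  [DecidableEq α] [DecidableEq γ] (K : KSys ι), Function.Injective K.x →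
  ∀ (b M m R F : ℕ) (ec : ℕ → ℕ) (D D' ρ : ℝ) (L : Lb α) (E E4 X4 : Finset ℕ)
  (U : ℕ → ι → ℕ → ℕ × ℕ) (c f u u' : ℕ) (rm rp : ℕ → ι → ℝ),
  S4 K b M m R F ec D D' ρ L E E4 X4 U c f u u' rm rp →
  ∀ (D1 ε : ℝ) (k : ℕ), D' ≤ D1 → Bg K b M (2 * m + 1) (ex R F) D1 ε ρ k C →
  ρ ^ 8 ≤ (b : ℝ) ^ R → ∀ y, 1 ≤ y → y ≤ m → ∀ E5 ⊆ E4, ∀ g : ℕ → γ,
  (∀ i ∈ E5, ∀ i' ∈ E5, g i = g i' → L.lab (2 * y) i = L.lab (2 * y) i') →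
  (∀ w : ℕ, (((E5.filter (fun i => cell K b (R * y) i = w)).image g).card : ℝ) ≤ D1) →
  (((E5 ×ˢ E5).filter (fun v : ℕ × ℕ => K.a v.1 = K.a v.2 ∧ cell K b f v.1 = u ∧
    cell K b f v.2 = u' ∧ D1 ^ C * (b : ℝ) ^ (4 * (R * y)) *
      ((NN K E5 g v.1 ∩ NN K E5 g v.2).card : ℝ) < ε ^ C * Fintype.card ι)).card : ℝ) *
    Fintype.card ι ≤ ε * (K.N : ℝ) ^ 2

end Pool.Agent.Work.MP_e17eac_co.HS
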