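import Pool.Agent.Work.MP_e17eac_co.HS.LIter
import Pool.Agent.Work.MP_e17eac_co.HS.StC

/-!
# Arbitrary sets, short chain HS, block HS-D: existence of label systems (helper40)
-/

namespace Pool.Agent.Work.MP_e17eac_co.HS

open Finset
open Pool.Agent.Work.MP_e17eac_co.DH
open Pool.Agent.Work.MP_e17eac_co.B1
open Pool.Agent.Work.MP_e17eac_co.DH.XSWEEP (GP)

variable {ι : Type} [Fintype ι] [DecidableEq ι]

/-! ### Hygiene -/

theorem PS_mono {K : KSys ι} {r m : ℕ} {H H' : ℝ} (h : H ≤ H') : PS K r m H ⊆ PS K r m H' := by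
  classical
  intro p hp
  unfold PS at hp ⊢
  rw [mem_filter] at hp ⊢
  exact ⟨hp.1, fun x hx => (hp.2 x hx).trans (mul_le_mul_of_nonneg_right h (by positivity))⟩

theorem PSr_mono {K : KSys ι} {r m : ℕ} {H H' : ℝ} (h : H ≤ H') (z c : ℕ) :
    PSr K r m H z c ⊆ PSr K r m H' z c := by
  classical
  intro p hp
  unfold PSr at hp ⊢
  rw [mem_filter] at hp ⊢
  exact ⟨hp.1, fun x hx hx' => (hp.2 x hx hx').trans
    (mul_le_mul_of_nonneg_right h (by positivity))⟩

theorem Hyg_mono {K : KSys ι} {r m : ℕ} {H H' : ℝ} {i : ℕ} (h : H ≤ H') (hi : Hyg K r m H i) :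
    Hyg K r m H' i where
  lt := hi.lt
  ps s := PS_mono h (hi.ps s)
  crowd x hx := (hi.crowd x hx).trans (mul_le_mul_of_nonneg_right h (by positivity))
  light s x hx := (hi.light s x hx).trans (mul_le_mul_of_nonneg_right h (by positivity))
  rel s z hz := PSr_mono h z _ (hi.rel s z hz)

/-! ### Counting integers -/

theorem card_int (S : Finset ℤ) (W : ℕ) (h : ∀ x ∈ S, ∀ y ∈ S, x - y ≤ W) : S.card ≤ W + 1 := by
  rcases S.eq_empty_or_nonempty with rfl | hS
  · simp
  · set m := S.min' hS with hm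
    have h1 : S ⊆ Icc m (m + W) := by
      intro x hx
      rw [mem_Icc]
      exact ⟨S.min'_le x hx, by have := h x hx m (S.min'_mem hS); linarith⟩
    refine (card_le_card h1).trans ?_
    rw [Int.card_Icc]
    omega

/-! ### The hull of one level -/

theorem t_le {K : KSys ι} {i j : ℕ} (h : i ≤ j) (hj : j < K.N) : K.t i ≤ K.t j := by
  rcases h.lt_or_eq with h1 | h1
  · exact (K.t_lt i j h1 hj).le
  · rw [h1]

/-- Facts on the hull of the pair chosen for one (line, cell). -/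
theorem pd_facts (hLH : MX.StLoHi) {K : KSys ι} {M : ℕ} {c cp : ℕ → ℕ} {Q : ℕ}
    {kk ll : ι → ℕ → ℕ} {p : ι} {z : ℕ} (hcp : MX.IsCells K M cp)
    (h : AS2.PD K c cp Q kk ll p z) :
    MX.lo cp (kk p z) ≤ kk p z ∧ kk p z ≤ MX.hi K cp (kk p z) ∧
    MX.hi K cp (kk p z) < MX.lo cp (ll p z) ∧ MX.lo cp (ll p z) ≤ ll p z ∧
    ll p z ≤ MX.hi K cp (ll p z) ∧ MX.hi K cp (ll p z) < K.N ∧
    cp (MX.lo cp (kk p z)) = cp (kk p z) ∧ cp (MX.hi K cp (ll p z)) = cp (ll p z) ∧
    (∀ m, m < K.N → cp m = cp (kk p z) → MX.lo cp (kk p z) ≤ m ∧ m ≤ MX.hi K cp (kk p z)) ∧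
    (∀ m, m < K.N → cp m = cp (ll p z) → MX.lo cp (ll p z) ≤ m ∧ m ≤ MX.hi K cp (ll p z)) := by
  obtain ⟨h1, h2, h3, h4, h5, h6, -, h8, -⟩ := hLH ι K M cp hcp (kk p z) h.kN
  obtain ⟨g1, g2, g3, g4, g5, g6, g7, g8, -⟩ := hLH ι K M cp hcp (ll p z) h.lN
  refine ⟨h1, h2, ?_, g1, g2, g3, h4, g5, fun m hm hc => (h6 m hm).1 hc,
    fun m hm hc => (g6 m hm).1 hc⟩
  refine (g7 _ h3).1 ?_
  rw [h5]
  exact h.lt

/-! ### The label system -/

/-- Base part of the labels. -/
abbrev BL : Type := ℕ × ((ℕ × ℕ × ℕ × Bool) × ℤ)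

noncomputable instance instDecLB : DecidableEq (BL × (ℤ × ℤ)) := Classical.decEq _

/-- Start of the hull. -/
noncomputable def bh0 (K : KSys ι) (b : ℕ) (ec : ℕ → ℕ) (w : BL) : ℝ := ta K b (ec w.1) w.2.1.2.1

/-- End of the hull. -/
noncomputable def bh1 (K : KSys ι) (b : ℕ) (ec : ℕ → ℕ) (w : BL) : ℝ := tb K b (ec w.1) w.2.1.2.2.1

/-- Radius. -/
noncomputable def brho (b : ℕ) (w : BL) : ℝ := (2 : ℝ) ^ w.2.2 / (24 * Th b)

/-- Base label of the edge `i` at the level `j`. -/
noncomputable def bl (K : KSys ι) (b : ℕ) (e ec : ℕ → ℕ) (kk ll : ℕ → ι → ℕ → ℕ) (j i : ℕ) : BL :=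
  (j, AS2.lb K (cell K b (ec j)) (kk j) (ll j) (K.a i) (cell K b (e j) i))

/-- The label system. -/
noncomputable def LL (K : KSys ι) (b : ℕ) (e ec : ℕ → ℕ) (kk ll : ℕ → ι → ℕ → ℕ) :
    Lb (BL × (ℤ × ℤ)) where
  lab j i := (bl K b e ec kk ll j i,
    (round (K.ht (K.a i) (bh0 K b ec (bl K b e ec kk ll j i)) / brho b (bl K b e ec kk ll j i)),
     round (K.ht (K.a i) (bh1 K b ec (bl K b e ec kk ll j i)) / brho b (bl K b e ec kk ll j i))))
  h0 w := bh0 K b ec w.1
  h1 w := bh1 K b ec w.1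
  rho w := brho b w.1
  c0 w := w.2.1 * brho b w.1
  c1 w := w.2.2 * brho b w.1
  cl w := w.1.2.1.2.1
  cr w := w.1.2.1.2.2.1

theorem Th_pos {b : ℕ} (hb : 0 < b) : 0 < Th b := by
  unfold Th
  have : (0 : ℝ) < b := by exact_mod_cast hb
  positivity

theorem brho_pos {b : ℕ} (hb : 0 < b) (w : BL) : 0 < brho b w := by
  unfold brho
  have := Th_pos hb
  positivity

theorem round_close (x r : ℝ) (hr : 0 < r) : |x - (round (x / r) : ℝ) * r| ≤ r / 2 := by
  have h1 := abs_sub_round (x / r)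
  have h2 : x - (round (x / r) : ℝ) * r = (x / r - round (x / r)) * r := by
    rw [sub_mul, div_mul_cancel₀ _ hr.ne']
  rw [h2, abs_mul, abs_of_pos hr]
  calc |x / r - round (x / r)| * r ≤ 1 / 2 * r := mul_le_mul_of_nonneg_right h1 hr.le
    _ = r / 2 := by ring

theorem round_diff (x y r : ℝ) (W : ℕ) (hr : 0 < r) (h : |x - y| ≤ W * r) :
    round (x / r) - round (y / r) ≤ (W + 1 : ℕ) := by
  have h1 := abs_le.1 (abs_sub_round (x / r))
  have h2 := abs_le.1 (abs_sub_round (y / r))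
  have h3 : x / r - y / r ≤ W := by
    rw [← sub_div, div_le_iff₀ hr]
    exact (abs_le.1 h).2
  have h4 : ((round (x / r) - round (y / r) : ℤ) : ℝ) ≤ ((W + 1 : ℕ) : ℝ) := by
    push_cast
    linarith [h1.1, h1.2, h2.1, h2.2]
  exact_mod_cast h4

/-- Heights of two lines with the same base label. -/
theorem bl_close (hLH : MX.StLoHi) (hCon : AS2.StCon) {K : KSys ι} {M b : ℕ}
    {c cp : ℕ → ℕ} {kk ll : ι → ℕ → ℕ} {p p' : ι} {z : ℕ} (hcp : MX.IsCells K M cp)
    (h : AS2.PD K c cp b kk ll p z) (h' : AS2.PD K c cp b kk ll p' z)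
    (hlb : AS2.lb K cp kk ll p z = AS2.lb K cp kk ll p' z) (s : ℝ)
    (hs : s = K.t (MX.lo cp (kk p z)) ∨ s = K.t (MX.hi K cp (ll p z))) :
    |K.ht p s - K.ht p' s| ≤ 4 * b * (2 : ℝ) ^ (AS2.lb K cp kk ll p z).2 := by
  obtain ⟨f1, f2, f3, f4, f5, f6, f7, f8, f9, f10⟩ := pd_facts hLH hcp h
  obtain ⟨g1, g2, g3, g4, g5, g6, g7, g8, g9, g10⟩ := pd_facts hLH hcp h'
  have e1 : cp (kk p z) = cp (kk p' z) := congrArg (fun w => w.1.2.1) hlb
  have e2 : cp (ll p z) = cp (ll p' z) := congrArg (fun w => w.1.2.2.1) hlb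
  have e3 : AS2.ty K p (AS2.j0 cp kk p z) (AS2.j1 K cp ll p z) =
      AS2.ty K p' (AS2.j0 cp kk p' z) (AS2.j1 K cp ll p' z) := congrArg (fun w => w.1.2.2.2) hlb
  have e4 : Int.log 2 (AS2.dl K cp kk ll p z) = Int.log 2 (AS2.dl K cp kk ll p' z) :=
    congrArg (fun w => w.2) hlb
  have e5 : MX.lo cp (kk p z) = MX.lo cp (kk p' z) := by
    unfold MX.lo
    rw [e1]
  have e6 : MX.hi K cp (ll p z) = MX.hi K cp (ll p' z) := by
    unfold MX.hi
    rw [e2]
  have e7 : MX.hi K cp (kk p z) = MX.hi K cp (kk p' z) := by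
    unfold MX.hi
    rw [e1]
  have e8 : MX.lo cp (ll p z) = MX.lo cp (ll p' z) := by
    unfold MX.lo
    rw [e2]
  have hg := h.good
  unfold MX.hull MX.gap at hg
  have hcon := hCon ι K p p' (MX.lo cp (kk p z)) (MX.hi K cp (ll p z)) (kk p z) (ll p z)
    (kk p' z) (ll p' z) (K.t (MX.hi K cp (kk p z))) (K.t (MX.lo cp (ll p z))) b f6 h.kN h'.kN
    f1 (by rw [e5]; exact g1) f5 (by rw [e6]; exact g5) h.ak h.al h'.ak h'.al
    (t_le f2 (by omega)) (t_le (by rw [e7]; exact g2) (by omega))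
    (K.t_lt _ _ f3 (by omega)) (t_le f4 (by omega)) (t_le (by rw [e8]; exact g4) h'.lN)
    hg (by
      have h1 := e3
      unfold AS2.j0 AS2.j1 at h1
      rw [← e5, ← e6] at h1
      exact h1) s hs
  have d1 : AS2.del K p (MX.lo cp (kk p z)) (MX.hi K cp (ll p z)) = AS2.dl K cp kk ll p z := rfl
  have d2 : AS2.del K p' (MX.lo cp (kk p z)) (MX.hi K cp (ll p z)) = AS2.dl K cp kk ll p' z := by
    rw [e5, e6]
    rfl
  rw [d1, d2] at hcon
  have d3 : AS2.dl K cp kk ll p z ≤ 2 * (2 : ℝ) ^ (AS2.lb K cp kk ll p z).2 := by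
    have h1 := (Int.lt_zpow_succ_log_self (b := 2) (by norm_num) (AS2.dl K cp kk ll p z)).le
    rw [zpow_add_one₀ (by norm_num)] at h1
    push_cast at h1
    show AS2.dl K cp kk ll p z ≤ 2 * (2 : ℝ) ^ (Int.log 2 (AS2.dl K cp kk ll p z))
    linarith
  have d4 : AS2.dl K cp kk ll p' z ≤ 2 * (2 : ℝ) ^ (AS2.lb K cp kk ll p z).2 := by
    have h1 := (Int.lt_zpow_succ_log_self (b := 2) (by norm_num) (AS2.dl K cp kk ll p' z)).le
    rw [zpow_add_one₀ (by norm_num)] at h1
    push_cast at h1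
    show AS2.dl K cp kk ll p' z ≤ 2 * (2 : ℝ) ^ (Int.log 2 (AS2.dl K cp kk ll p z))
    rw [e4]
    linarith
  refine hcon.trans ?_
  calc 2 * (b : ℝ) * max (AS2.dl K cp kk ll p z) (AS2.dl K cp kk ll p' z) ≤
      2 * (b : ℝ) * (2 * (2 : ℝ) ^ (AS2.lb K cp kk ll p z).2) :=
        mul_le_mul_of_nonneg_left (max_le d3 d4) (by positivity)
    _ = 4 * b * (2 : ℝ) ^ (AS2.lb K cp kk ll p z).2 := by ring

/-- The label system of good pairs at all levels. -/
theorem LS_of (hMc : MX.StMc) (hLH : MX.StLoHi) (hUD : AS2.StUD) (hCon : AS2.StCon)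
    (hLeq : StLeq) {K : KSys ι} {b M J G G' : ℕ} {e ec : ℕ → ℕ} {kk ll : ℕ → ι → ℕ → ℕ}
    {E : Finset ℕ} (hb : 10 ≤ b) (hlev : Lev b M J e ec) (hN : 0 < K.N)
    (hdense : (Fintype.card ι : ℝ) ^ 4 ≤ (b : ℝ) ^ G' * (K.N : ℝ) ^ 3)
    (hhyg : ∀ i ∈ E, Hyg K b M ((b : ℝ) ^ G') i) (hbig : K.N ≤ b ^ G' * E.card)
    (hG1 : G + 134 ≤ G') (hG2 : ∀ j, j ≤ J → G + (ec j - e j) ≤ G')
    (hH : ∀ j, j ≤ J → LevH K b (e j) (ec j) G E (kk j) (ll j)) :
    LS K b M J e ec ((b : ℝ) ^ G') (LL K b e ec kk ll) E := by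
  classical
  have hb0 : 0 < b := by omega
  have hb1 : 1 ≤ b := by omega
  have hbr : (1 : ℝ) ≤ b := by exact_mod_cast hb1
  have hcells : ∀ j, MX.IsCells K (b ^ (4 * ec j)) (cell K b (ec j)) := fun j =>
    (hMc ι K (b ^ (4 * ec j)) (Nat.pow_pos hb0)).1
  have hTh : 0 < Th b := Th_pos hb0
  -- facts on the pairs
  have hf : ∀ j, j ≤ J → ∀ i ∈ E, _ := fun j hj i hi => pd_facts hLH (hcells j) ((hH j hj).pd i hi)
  have hec : ∀ j, j ≤ J → e j ≤ ec j := fun j hj => (hlev.child j hj).1.le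
  -- edges of the children lie in the hull
  have hhull : ∀ j, j ≤ J → ∀ i ∈ E, ∀ m, m < K.N →
      (cell K b (ec j) m = cell K b (ec j) (kk j (K.a i) (cell K b (e j) i)) ∨
       cell K b (ec j) m = cell K b (ec j) (ll j (K.a i) (cell K b (e j) i))) →
      K.t (MX.lo (cell K b (ec j)) (kk j (K.a i) (cell K b (e j) i))) ≤ K.t m ∧
      K.t m ≤ K.t (MX.hi K (cell K b (ec j)) (ll j (K.a i) (cell K b (e j) i))) := by
    intro j hj i hi m hm hc
    obtain ⟨f1, f2, f3, f4, f5, f6, f7, f8, f9, f10⟩ := hf j hj i hi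
    rcases hc with hc | hc
    · obtain ⟨h1, h2⟩ := f9 m hm hc
      exact ⟨t_le h1 hm, t_le (by omega) f6⟩
    · obtain ⟨h1, h2⟩ := f10 m hm hc
      exact ⟨t_le (by omega) hm, t_le h2 f6⟩
  have hquota : ∀ j, j ≤ J → ∀ i ∈ E, ∀ u,
      (u = cell K b (ec j) (kk j (K.a i) (cell K b (e j) i)) ∨
       u = cell K b (ec j) (ll j (K.a i) (cell K b (e j) i))) →
      (K.N : ℝ) ≤ (b : ℝ) ^ G' * (Fintype.card ι * (b : ℝ) ^ (e j)) *
        (((EE K b (e j) E i).filter (fun i' => cell K b (ec j) i' = u)).card : ℝ) := by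
    intro j hj i hi u hu
    have h1 := (hH j hj).quota i hi u hu
    have hpd := (hH j hj).pd i hi
    have h2 : E.filter (fun k => K.a k = K.a i ∧ cell K b (ec j) k = u) ⊆
        (EE K b (e j) E i).filter (fun i' => cell K b (ec j) i' = u) := by
      intro k hk
      rw [mem_filter] at hk
      obtain ⟨h3, h4, h5⟩ := hk
      refine mem_filter.2 ⟨mem_filter.2 ⟨h3, h4, ?_⟩, h5⟩
      rcases hu with rfl | rfl
      · exact (cell_coarse K hb1 (hec j hj) h5).trans hpd.ck
      · exact (cell_coarse K hb1 (hec j hj) h5).trans hpd.cl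
    have h3 := card_le_card h2
    have h4 : K.N ≤ b ^ G' * (Fintype.card ι * b ^ (e j)) *
        ((EE K b (e j) E i).filter (fun i' => cell K b (ec j) i' = u)).card := by
      calc K.N ≤ b ^ G * (Fintype.card ι * b ^ (ec j)) *
            (E.filter (fun k => K.a k = K.a i ∧ cell K b (ec j) k = u)).card := h1
        _ ≤ b ^ G * (Fintype.card ι * b ^ (ec j)) *
            ((EE K b (e j) E i).filter (fun i' => cell K b (ec j) i' = u)).card :=
              Nat.mul_le_mul_left _ h3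
        _ = b ^ (G + (ec j - e j)) * (Fintype.card ι * b ^ (e j)) *
            ((EE K b (e j) E i).filter (fun i' => cell K b (ec j) i' = u)).card := by
              have h5 : b ^ ec j = b ^ (ec j - e j) * b ^ e j := by
                rw [← pow_add]
                congr 1
                have := hec j hj
                omega
              rw [h5, pow_add]
              ring
        _ ≤ b ^ G' * (Fintype.card ι * b ^ (e j)) *
            ((EE K b (e j) E i).filter (fun i' => cell K b (ec j) i' = u)).card :=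
              Nat.mul_le_mul_right _ (Nat.mul_le_mul_right _
                (Nat.pow_le_pow_right hb0 (hG2 j hj)))
    exact_mod_cast h4
  have hrho : ∀ w : BL, 24 * Th b * brho b w = (2 : ℝ) ^ w.2.2 := by
    intro w
    unfold brho
    field_simp
  have hdl : ∀ j, j ≤ J → ∀ i ∈ E, 12 * Th b * brho b (bl K b e ec kk ll j i) ≤
      AS2.dl K (cell K b (ec j)) (kk j) (ll j) (K.a i) (cell K b (e j) i) := by
    intro j hj i hi
    have h1 := Int.zpow_log_le_self (b := 2) (by norm_num) ((hH j hj).pos i hi)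
    have h2 := hrho (bl K b e ec kk ll j i)
    have h3 : (2 : ℝ) ^ (bl K b e ec kk ll j i).2.2 ≤
        AS2.dl K (cell K b (ec j)) (kk j) (ll j) (K.a i) (cell K b (e j) i) := by
      push_cast at h1
      exact h1
    have h4 : 0 < Th b * brho b (bl K b e ec kk ll j i) := mul_pos hTh (brho_pos hb0 _)
    nlinarith
  refine ⟨hlev, ?_, hN, hdense, hhyg, by exact_mod_cast hbig, ?_, ?_, ?_, ?_, ?_, ?_, ?_, ?_, ?_,
    ?_, ?_, ?_, ?_⟩
  · -- bD
    unfold Th
    exact pow_le_pow_right₀ hbr (by omega)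
  · -- lcell
    intro j hj i hi i' hi' h
    exact congrArg (fun w => w.1.2.1.1) h
  · -- ldet
    intro j hj i hi i' hi' h1 h2
    have h3 : bl K b e ec kk ll j i = bl K b e ec kk ll j i' := by
      unfold bl
      rw [h1, h2]
    simp only [LL, h1, h3]
  · -- few
    intro j hj c
    rcases (E.filter (fun i => cell K b (e j) i = c)).eq_empty_or_nonempty with h0 | h0
    · rw [h0]
      simp only [image_empty, card_empty, Nat.cast_zero]
      positivity
    obtain ⟨i0, hi0⟩ := h0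
    rw [mem_filter] at hi0
    obtain ⟨hi0E, hi0c⟩ := hi0
    set F := E.filter (fun i => cell K b (e j) i = c) with hF
    have hcnt : (F.image (bl K b e ec kk ll j)).card ≤ b ^ G := by
      have h1 := (hH j hj).cnt i0 hi0E
      rw [hi0c] at h1
      refine le_trans ?_ h1
      have h2 : F.image (bl K b e ec kk ll j) = (F.image (fun k =>
          AS2.lb K (cell K b (ec j)) (kk j) (ll j) (K.a k) (cell K b (e j) k))).image
          (fun w => ((j, w) : BL)) := by
        rw [image_image]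
        rfl
      rw [h2]
      exact card_image_le
    set r0 : ℕ → ℤ := fun i => ((LL K b e ec kk ll).lab j i).2.1 with hr0
    set r1 : ℕ → ℤ := fun i => ((LL K b e ec kk ll).lab j i).2.2 with hr1
    have hsub : F.image ((LL K b e ec kk ll).lab j) ⊆
        (F.image (bl K b e ec kk ll j)).biUnion (fun w => ({w} : Finset BL) ×ˢ
          (((F.filter (fun i => bl K b e ec kk ll j i = w)).image r0) ×ˢ
           ((F.filter (fun i => bl K b e ec kk ll j i = w)).image r1))) := by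
      intro w hw
      obtain ⟨i, hi, rfl⟩ := mem_image.1 hw
      rw [mem_biUnion]
      refine ⟨bl K b e ec kk ll j i, mem_image_of_mem _ hi, ?_⟩
      rw [mem_product, mem_product]
      exact ⟨mem_singleton.2 rfl, mem_image.2 ⟨i, mem_filter.2 ⟨hi, rfl⟩, rfl⟩,
        mem_image.2 ⟨i, mem_filter.2 ⟨hi, rfl⟩, rfl⟩⟩
    have hW : 96 * b ^ 65 + 1 + 1 ≤ b ^ 67 := by
      have h1 : 1 ≤ b ^ 65 := Nat.one_le_pow _ _ hb0
      calc 96 * b ^ 65 + 1 + 1 ≤ 98 * b ^ 65 := by omega
        _ ≤ (b * b) * b ^ 65 := by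
          refine Nat.mul_le_mul_right _ ?_
          nlinarith
        _ = b ^ 67 := by ring
    -- two edges of `F` with the same base label
    have hclose : ∀ i ∈ F, ∀ i' ∈ F, bl K b e ec kk ll j i = bl K b e ec kk ll j i' →
        ∀ s, (s = bh0 K b ec (bl K b e ec kk ll j i) ∨ s = bh1 K b ec (bl K b e ec kk ll j i)) →
        |K.ht (K.a i) s - K.ht (K.a i') s| ≤
          ((96 * b ^ 65 : ℕ) : ℝ) * brho b (bl K b e ec kk ll j i) := by
      intro i hi i' hi' hbb s hs
      rw [hF, mem_filter] at hi hi'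
      have hpd := (hH j hj).pd i hi.1
      have hpd' := (hH j hj).pd i' hi'.1
      rw [hi.2] at hpd
      rw [hi'.2] at hpd'
      have hlb : AS2.lb K (cell K b (ec j)) (kk j) (ll j) (K.a i) c =
          AS2.lb K (cell K b (ec j)) (kk j) (ll j) (K.a i') c := by
        have h1 := congrArg Prod.snd hbb
        unfold bl at h1
        rw [hi.2, hi'.2] at h1
        exact h1
      have h1 := bl_close hLH hCon (hcells j) hpd hpd' hlb s (by
        rcases hs with h | h
        · left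
          rw [h]
          unfold bh0 bl
          rw [hi.2]
          rfl
        · right
          rw [h]
          unfold bh1 bl
          rw [hi.2]
          rfl)
      refine h1.trans ?_
      have h2 := hrho (bl K b e ec kk ll j i)
      have h3 : (AS2.lb K (cell K b (ec j)) (kk j) (ll j) (K.a i) c).2 =
          (bl K b e ec kk ll j i).2.2 := by
        unfold bl
        rw [hi.2]
      rw [h3, ← h2]
      unfold Th
      push_cast
      have : 4 * (b : ℝ) * (24 * (b : ℝ) ^ 64 * brho b (bl K b e ec kk ll j i)) =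
        96 * (b : ℝ) ^ 65 * brho b (bl K b e ec kk ll j i) := by ring
      rw [this]
    have hr0c : ∀ w ∈ F.image (bl K b e ec kk ll j),
        ((F.filter (fun i => bl K b e ec kk ll j i = w)).image r0).card ≤ b ^ 67 := by
      intro w _
      refine (card_int _ (96 * b ^ 65 + 1) ?_).trans hW
      intro x hx y hy
      obtain ⟨i, hi, rfl⟩ := mem_image.1 hx
      obtain ⟨i', hi', rfl⟩ := mem_image.1 hy
      rw [mem_filter] at hi hi'
      have hbb : bl K b e ec kk ll j i = bl K b e ec kk ll j i' := hi.2.trans hi'.2.symm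
      have h1 := hclose i hi.1 i' hi'.1 hbb _ (Or.inl rfl)
      have h2 := round_diff _ _ _ _ (brho_pos hb0 _) h1
      rw [hr0]
      simp only [LL]
      rw [← hbb]
      exact h2
    have hr1c : ∀ w ∈ F.image (bl K b e ec kk ll j),
        ((F.filter (fun i => bl K b e ec kk ll j i = w)).image r1).card ≤ b ^ 67 := by
      intro w _
      refine (card_int _ (96 * b ^ 65 + 1) ?_).trans hW
      intro x hx y hy
      obtain ⟨i, hi, rfl⟩ := mem_image.1 hx
      obtain ⟨i', hi', rfl⟩ := mem_image.1 hy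
      rw [mem_filter] at hi hi'
      have hbb : bl K b e ec kk ll j i = bl K b e ec kk ll j i' := hi.2.trans hi'.2.symm
      have h1 := hclose i hi.1 i' hi'.1 hbb _ (Or.inr rfl)
      have h2 := round_diff _ _ _ _ (brho_pos hb0 _) h1
      rw [hr1]
      simp only [LL]
      rw [← hbb]
      exact h2
    have h1 : (F.image ((LL K b e ec kk ll).lab j)).card ≤ b ^ G' := by
      calc (F.image ((LL K b e ec kk ll).lab j)).card ≤ _ := card_le_card hsub
        _ ≤ ∑ w ∈ F.image (bl K b e ec kk ll j), (({w} : Finset BL) ×ˢ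
          (((F.filter (fun i => bl K b e ec kk ll j i = w)).image r0) ×ˢ
           ((F.filter (fun i => bl K b e ec kk ll j i = w)).image r1))).card := card_biUnion_le
        _ ≤ ∑ _w ∈ F.image (bl K b e ec kk ll j), b ^ 134 := by
          refine sum_le_sum fun w hw => ?_
          rw [card_product, card_product, card_singleton, one_mul]
          calc _ ≤ b ^ 67 * b ^ 67 := Nat.mul_le_mul (hr0c w hw) (hr1c w hw)
            _ = b ^ 134 := by rw [← pow_add]
        _ = (F.image (bl K b e ec kk ll j)).card * b ^ 134 := by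
          rw [sum_const, smul_eq_mul]
        _ ≤ b ^ G * b ^ 134 := Nat.mul_le_mul_right _ hcnt
        _ = b ^ (G + 134) := by rw [← pow_add]
        _ ≤ b ^ G' := Nat.pow_le_pow_right hb0 hG1
    exact_mod_cast h1
  · -- pos
    intro j hj i hi
    exact brho_pos hb0 _
  · -- lt
    intro j hj i hi
    obtain ⟨f1, f2, f3, f4, f5, f6, f7, f8, f9, f10⟩ := hf j hj i hi
    exact K.t_lt (MX.lo (cell K b (ec j)) (kk j (K.a i) (cell K b (e j) i)))
      (MX.hi K (cell K b (ec j)) (ll j (K.a i) (cell K b (e j) i))) (by omega) f6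
  · -- span
    intro j hj i hi
    obtain ⟨f1, f2, f3, f4, f5, f6, f7, f8, f9, f10⟩ := hf j hj i hi
    have hpd := (hH j hj).pd i hi
    refine ⟨MX.lo (cell K b (ec j)) (kk j (K.a i) (cell K b (e j) i)),
      MX.hi K (cell K b (ec j)) (ll j (K.a i) (cell K b (e j) i)), by omega, f6, ?_, ?_,
      le_rfl, le_rfl⟩
    · exact (cell_coarse K hb1 (hec j hj) f7).trans hpd.ck
    · exact (cell_coarse K hb1 (hec j hj) f8).trans hpd.cl
  · -- chil
    intro j hj i hi
    exact (hH j hj).inn i hi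
  · -- twol
    intro j hj i hi
    exact hquota j hj i hi _ (Or.inl rfl)
  · -- twor
    intro j hj i hi
    exact hquota j hj i hi _ (Or.inr rfl)
  · -- gap
    intro j hj i hi k l hk hl hkc hlc
    obtain ⟨f1, f2, f3, f4, f5, f6, f7, f8, f9, f10⟩ := hf j hj i hi
    have hpd := (hH j hj).pd i hi
    obtain ⟨h1, h2⟩ := f9 k hk hkc
    obtain ⟨h3, h4⟩ := f10 l hl hlc
    have hg := hpd.good
    unfold MX.hull MX.gap at hg
    refine ⟨t_le h1 hk, t_le h4 f6, hg.trans ?_⟩
    refine mul_le_mul_of_nonneg_left ?_ (by positivity)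
    have h5 : K.t k ≤ K.t (MX.hi K (cell K b (ec j)) (kk j (K.a i) (cell K b (e j) i))) :=
      t_le h2 (by omega)
    have h6 : K.t (MX.lo (cell K b (ec j)) (ll j (K.a i) (cell K b (e j) i))) ≤ K.t l :=
      t_le h3 hl
    linarith
  · -- cls
    intro j hj i hi
    exact ⟨round_close _ _ (brho_pos hb0 _), round_close _ _ (brho_pos hb0 _)⟩
  · -- sgn
    intro j hj i hi
    obtain ⟨f1, f2, f3, f4, f5, f6, f7, f8, f9, f10⟩ := hf j hj i hi
    have hle : MX.lo (cell K b (ec j)) (kk j (K.a i) (cell K b (e j) i)) ≤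
      MX.hi K (cell K b (ec j)) (ll j (K.a i) (cell K b (e j) i)) := by omega
    obtain ⟨-, ⟨u, u1, u2, u3⟩, -, ⟨v, v1, v2, v3⟩⟩ := hUD ι K (K.a i) _ _ hle
    have hd := hdl j hj i hi
    have hmin1 : AS2.dl K (cell K b (ec j)) (kk j) (ll j) (K.a i) (cell K b (e j) i) ≤
        AS2.up K (K.a i) (MX.lo (cell K b (ec j)) (kk j (K.a i) (cell K b (e j) i)))
          (MX.hi K (cell K b (ec j)) (ll j (K.a i) (cell K b (e j) i))) := min_le_left _ _
    have hmin2 : AS2.dl K (cell K b (ec j)) (kk j) (ll j) (K.a i) (cell K b (e j) i) ≤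
        AS2.dn K (K.a i) (MX.lo (cell K b (ec j)) (kk j (K.a i) (cell K b (e j) i)))
          (MX.hi K (cell K b (ec j)) (ll j (K.a i) (cell K b (e j) i))) := min_le_right _ _
    have hu := (hLeq ι K u (by omega)).1
    have hv := (hLeq ι K v (by omega)).1
    refine ⟨K.t u, K.t v, t_le u1 (by omega), t_le u2 f6, t_le v1 (by omega), t_le v2 f6, ?_, ?_⟩
    · rw [hu]
      show K.ht (K.a i) (K.t u) + 12 * Th b * brho b (bl K b e ec kk ll j i) ≤ K.h u
      linarith
    · rw [hv]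
      show K.h v + 12 * Th b * brho b (bl K b e ec kk ll j i) ≤ K.ht (K.a i) (K.t v)
      linarith
  · -- nest
    intro j j' hjj hj' i hi
    rcases hjj.lt_or_eq with h | rfl
    · have hj : j ≤ J := by omega
      obtain ⟨f1, f2, f3, f4, f5, f6, f7, f8, f9, f10⟩ := hf j' hj' i hi
      have hpd := (hH j' hj').pd i hi
      have hee : ec j ≤ e j' := by
        clear hf hhull hquota
        have hmono : ∀ k, j + 1 ≤ k → k ≤ J → e (j + 1) ≤ e k := by
          intro k hk
          induction k with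
          | zero => omega
          | succ k ih =>
            intro hkJ
            rcases Nat.lt_succ_iff_lt_or_eq.1 (Nat.lt_succ_of_le hk) with h1 | h1
            · have h2 := ih (by omega) (by omega)
              have h3 := (hlev.child k (by omega)).1
              have h4 := hlev.next k (by omega)
              omega
            · rw [h1]
        have h1 := hlev.next j (by omega)
        have h2 := hmono j' (by omega) hj'
        omega
      have hc1 : ∀ m, cell K b (ec j') m = cell K b (ec j')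
          (kk j' (K.a i) (cell K b (e j') i)) → cell K b (ec j) m = cell K b (ec j) i := by
        intro m hm
        refine cell_coarse K hb1 hee ?_
        exact (cell_coarse K hb1 (hec j' hj') hm).trans hpd.ck
      have hc2 : ∀ m, cell K b (ec j') m = cell K b (ec j')
          (ll j' (K.a i) (cell K b (e j') i)) → cell K b (ec j) m = cell K b (ec j) i := by
        intro m hm
        refine cell_coarse K hb1 hee ?_
        exact (cell_coarse K hb1 (hec j' hj') hm).trans hpd.cl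
      have hin := (hH j hj).inn i hi
      have r1 := (hhull j hj i hi (MX.lo (cell K b (ec j')) (kk j' (K.a i) (cell K b (e j') i)))
        (by omega) (by rw [hc1 _ f7]; exact hin)).1
      have r2 := (hhull j hj i hi (MX.hi K (cell K b (ec j')) (ll j' (K.a i) (cell K b (e j') i)))
        f6 (by rw [hc2 _ f8]; exact hin)).2
      exact ⟨r1, r2⟩
    · exact ⟨le_rfl, le_rfl⟩

/-- **Existence of label systems.** -/
theorem I_LS (hIt : StLIter) (hHyg : StHygCnt) (hMc : MX.StMc) (hLH : MX.StLoHi)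
    (hUD : AS2.StUD) (hCon : AS2.StCon) (hLeq : StLeq) : StLS := by
  classical
  obtain ⟨C0, hIt⟩ := hIt
  obtain ⟨C, hC1, hHyg⟩ := hHyg
  -- universal exponents
  obtain ⟨GG, hGG⟩ : ∃ GG : ℕ → ℕ, ∀ J, GG J = lD C0 (J + 1) +
    (∑ k ∈ range (J + 1), (lg C0 k + ldp C0 k)) + 200 := ⟨_, fun _ => rfl⟩
  have hGk : ∀ J k, k ≤ J → lg C0 k + ldp C0 k + 200 + lD C0 (J + 1) ≤ GG J := by
    intro J k hk
    rw [hGG]
    have h1 : lg C0 k + ldp C0 k ≤ ∑ k ∈ range (J + 1), (lg C0 k + ldp C0 k) :=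
      single_le_sum (f := fun k => lg C0 k + ldp C0 k) (fun _ _ => Nat.zero_le _)
        (mem_range.2 (by omega))
    omega
  have hdp1 : ∀ k, 1 ≤ ldp C0 k := fun k => by unfold ldp; omega
  refine ⟨ldp C0, GG, ?_, ?_, ?_⟩
  · intro J
    have := hGk J 0 (Nat.zero_le _)
    omega
  · intro J j hj
    have := hGk J j hj
    exact ⟨hdp1 j, by omega⟩
  intro J η hη
  obtain ⟨n1, hn1⟩ := hIt J η hη
  have htend : Filter.Tendsto (fun n : ℕ => (n : ℝ) ^ η) Filter.atTop Filter.atTop :=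
    (tendsto_rpow_atTop hη).comp tendsto_natCast_atTop_atTop
  obtain ⟨n2, hn2⟩ := Filter.eventually_atTop.1
    (htend.eventually_ge_atTop (2 * C * (1 / (8 * η) + 1) ^ 2 + 10))
  refine ⟨max n1 (max n2 2), ?_⟩
  intro ι _ _ K hx hgp hn b hb hbN e M he0 he heM hMn
  have hnn1 : n1 ≤ Fintype.card ι := (le_max_left _ _).trans hn
  have hnn2 : n2 ≤ Fintype.card ι := ((le_max_left _ _).trans (le_max_right _ _)).trans hn
  have hnn3 : 2 ≤ Fintype.card ι := ((le_max_right _ _).trans (le_max_right _ _)).trans hn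
  have hbC : 2 * C * (1 / (8 * η) + 1) ^ 2 + 10 ≤ (b : ℝ) := (hn2 _ hnn2).trans hb
  set n := Fintype.card ι with hn_def
  have hsq : 0 ≤ 2 * C * (1 / (8 * η) + 1) ^ 2 := by positivity
  have hb10r : (10 : ℝ) ≤ b := by linarith
  have hb10 : 10 ≤ b := by exact_mod_cast hb10r
  have hb0 : 0 < b := by omega
  have hb1 : 1 ≤ b := by omega
  have hM1 : 200 ≤ M := by
    have := hGk J 0 (Nat.zero_le _)
    omega
  have hnr : (1 : ℝ) < n := by
    have : (2 : ℝ) ≤ n := by exact_mod_cast hnn3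
    linarith
  -- `M` is bounded
  have hMη : (M : ℝ) ≤ 1 / (8 * η) := by
    have h1 : ((n : ℝ) ^ η) ^ (8 * M) ≤ (n : ℝ) := by
      calc ((n : ℝ) ^ η) ^ (8 * M) ≤ (b : ℝ) ^ (8 * M) :=
            pow_le_pow_left₀ (by positivity) hb _
        _ ≤ n := by exact_mod_cast hMn
    rw [← Real.rpow_natCast ((n : ℝ) ^ η), ← Real.rpow_mul (by linarith)] at h1
    have h2 : η * ((8 * M : ℕ) : ℝ) ≤ 1 := by
      by_contra hc
      rw [not_le] at hc
      have h3 := Real.rpow_lt_rpow_of_exponent_lt hnr hc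
      rw [Real.rpow_one] at h3
      linarith
    rw [le_div_iff₀ (by positivity)]
    push_cast at h2
    linarith
  -- powers of `b` and `N`
  have hN3 : (n : ℝ) ^ 4 ≤ (b : ℝ) ^ 3 * (K.N : ℝ) ^ 3 := by
    have h1 : ((n : ℝ) ^ ((4 : ℝ) / 3)) ^ 3 ≤ ((b : ℝ) * K.N) ^ 3 :=
      pow_le_pow_left₀ (by positivity) hbN 3
    have h2 : ((n : ℝ) ^ ((4 : ℝ) / 3)) ^ 3 = (n : ℝ) ^ 4 := by
      rw [← Real.rpow_natCast ((n : ℝ) ^ ((4 : ℝ) / 3)) 3, ← Real.rpow_mul (by positivity)]
      norm_num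
    rw [h2, mul_pow] at h1
    exact h1
  have hN3' : n ^ 4 ≤ b ^ 3 * K.N ^ 3 := by exact_mod_cast hN3
  have hMn' : b ^ (8 * M) ≤ n := by exact_mod_cast hMn
  have hNM : b ^ (4 * M) ≤ K.N := by
    by_contra hc
    rw [not_le] at hc
    have h1 : K.N ^ 3 < (b ^ (4 * M)) ^ 3 := Nat.pow_lt_pow_left hc (by norm_num)
    have h2 : (b ^ (8 * M)) ^ 4 ≤ n ^ 4 := Nat.pow_le_pow_left hMn' 4
    have h3 : b ^ 3 * (b ^ (4 * M)) ^ 3 ≤ (b ^ (8 * M)) ^ 4 := by
      rw [← pow_mul, ← pow_mul, ← pow_add]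
      exact Nat.pow_le_pow_right hb0 (by omega)
    have h4 : b ^ 3 * K.N ^ 3 < b ^ 3 * (b ^ (4 * M)) ^ 3 :=
      Nat.mul_lt_mul_of_pos_left h1 (Nat.pow_pos hb0)
    omega
  have hNpos : 0 < K.N := lt_of_lt_of_le (Nat.pow_pos hb0) hNM
  -- hygienic edges
  set E0 := (range K.N).filter (fun i => Hyg K b M ((b : ℝ) ^ 12) i) with hE0
  have hE0N : E0 ⊆ range K.N := filter_subset _ _
  have hE0card : K.N ≤ 2 * E0.card := by
    have h1 := hHyg ι K hx hgp b M ((b : ℝ) ^ 12) b hb1
      (one_le_pow₀ (by linarith)) (by linarith) hNM hbN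
    have h2 : ((b : ℝ) ^ 12) ^ (-((1 : ℝ) / 6)) = 1 / (b : ℝ) ^ 2 := by
      have h3 : ((b : ℝ) ^ 12) ^ ((1 : ℝ) / 6) = (b : ℝ) ^ 2 := by
        rw [← Real.rpow_natCast (b : ℝ) 12, ← Real.rpow_mul (by positivity),
          ← Real.rpow_natCast (b : ℝ) 2]
        congr 1
        norm_num
      rw [Real.rpow_neg (by positivity), h3, one_div]
    rw [h2] at h1
    have h3 : C * ((M : ℝ) + 1) ^ 2 * b * (1 / (b : ℝ) ^ 2) * K.N ≤ K.N / 2 := by
      have h4 : C * ((M : ℝ) + 1) ^ 2 * b * (1 / (b : ℝ) ^ 2) ≤ 1 / 2 := by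
        have h5 : ((M : ℝ) + 1) ^ 2 ≤ (1 / (8 * η) + 1) ^ 2 :=
          pow_le_pow_left₀ (by positivity) (by linarith) 2
        have h6 : C * ((M : ℝ) + 1) ^ 2 * b * (1 / (b : ℝ) ^ 2) = C * ((M : ℝ) + 1) ^ 2 / b := by
          field_simp
        rw [h6, div_le_iff₀ (by linarith)]
        have h7 : C * ((M : ℝ) + 1) ^ 2 ≤ C * (1 / (8 * η) + 1) ^ 2 :=
          mul_le_mul_of_nonneg_left h5 (by linarith)
        linarith
      calc C * ((M : ℝ) + 1) ^ 2 * b * (1 / (b : ℝ) ^ 2) * K.N ≤ 1 / 2 * K.N :=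
            mul_le_mul_of_nonneg_right h4 (by positivity)
        _ = K.N / 2 := by ring
    have h4 := card_filter_add_card_filter_not (s := range K.N)
      (fun i => Hyg K b M ((b : ℝ) ^ 12) i)
    rw [card_range] at h4
    have h5 : (((range K.N).filter (fun i => Hyg K b M ((b : ℝ) ^ 12) i)).card : ℝ) +
        (((range K.N).filter (fun i => ¬ Hyg K b M ((b : ℝ) ^ 12) i)).card : ℝ) = K.N := by
      exact_mod_cast h4
    have h6 : (K.N : ℝ) ≤ 2 * (E0.card : ℝ) := by
      rw [hE0]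
      have h7 := h1.trans h3
      linarith
    exact_mod_cast h6
  have hE0card' : K.N ≤ b * E0.card := hE0card.trans (Nat.mul_le_mul_right _ (by omega))
  have heJ : ∀ j, j ≤ J → e j + ldp C0 (J - j) ≤ M := by
    intro j hj
    rcases hj.lt_or_eq with h | h
    · have h1 := exp_mono he j J h le_rfl
      omega
    · subst h
      have h1 := hGk j 0 (Nat.zero_le _)
      have h2 : j - j = 0 := by omega
      rw [h2]
      omega
  have heJ' : ∀ j, j ≤ J → e j ≤ e J := by
    intro j hj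
    rcases hj.lt_or_eq with h | h
    · have h1 := exp_mono he j J h le_rfl
      omega
    · rw [h]
  have hlight : ∀ j, j ≤ J → Light K b (e j) 12 E0 := by
    intro j hj i hi
    have h1 := (mem_filter.1 hi).2.light false (e j) (by have := heJ j hj; omega)
    have h2 : fb K b (e j) (range K.N) i = (range K.N).filter (fun k => K.ln false k =
      K.ln false i ∧ cell K b (e j) k = cell K b (e j) i) := rfl
    rw [h2]
    exact_mod_cast h1
  obtain ⟨E, hE, kk, ll, hbig, hH⟩ := hn1 ι K hx hgp hnn1 b hb hbN hb1 e he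
    (fun j hj => (Nat.pow_le_pow_right hb0 (Nat.mul_le_mul_left _ (heJ j hj))).trans hNM)
    (fun j hj => by
      rw [← pow_add]
      refine (Nat.pow_le_pow_right hb0 ?_).trans hMn'
      have h1 := hGk J (J - j) (by omega)
      have h2 := heJ' j hj
      omega) E0 hE0N hE0card' hlight
  obtain ⟨G, hG⟩ : ∃ G, G = ∑ k ∈ range (J + 1), lg C0 k := ⟨_, rfl⟩
  have hGle : ∀ k, k ≤ J → lg C0 k ≤ G := by
    intro k hk
    rw [hG]
    exact single_le_sum (f := fun k => lg C0 k) (fun _ _ => Nat.zero_le _)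
      (mem_range.2 (by omega))
  have hGP : ∀ k, k ≤ J → G + ldp C0 k + 200 + lD C0 (J + 1) ≤ GG J := by
    intro k hk
    rw [hGG, sum_add_distrib, ← hG]
    have h1 : ldp C0 k ≤ ∑ k ∈ range (J + 1), ldp C0 k :=
      single_le_sum (f := fun k => ldp C0 k) (fun _ _ => Nat.zero_le _)
        (mem_range.2 (by omega))
    omega
  have hlev : Lev b M J e (fun j => e j + ldp C0 (J - j)) := by
    refine ⟨by omega, he0, ?_, ?_⟩
    · intro j hj
      have h1 := hdp1 (J - j)
      exact ⟨by show e j < e j + ldp C0 (J - j); omega, heJ j hj⟩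
    · intro j hj
      exact he j hj
  have hbr1 : (1 : ℝ) ≤ b := by linarith
  refine ⟨BL × (ℤ × ℤ), instDecLB, LL K b e (fun j => e j + ldp C0 (J - j)) kk ll, E,
    LS_of hMc hLH hUD hCon hLeq (G := G) hb10 hlev hNpos ?_ ?_ ?_ ?_ ?_ ?_⟩
  · refine hN3.trans (mul_le_mul_of_nonneg_right ?_ (by positivity))
    refine pow_le_pow_right₀ hbr1 ?_
    have := hGP 0 (Nat.zero_le _)
    omega
  · intro i hi
    refine Hyg_mono ?_ (mem_filter.1 (hE hi)).2
    refine pow_le_pow_right₀ hbr1 ?_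
    have := hGP 0 (Nat.zero_le _)
    omega
  · refine hbig.trans (Nat.mul_le_mul_right _ (Nat.pow_le_pow_right hb0 ?_))
    have := hGP 0 (Nat.zero_le _)
    omega
  · have := hGP 0 (Nat.zero_le _)
    omega
  · intro j hj
    have h1 := hGP (J - j) (by omega)
    show G + (e j + ldp C0 (J - j) - e j) ≤ GG J
    omega
  · intro j hj
    exact (hH j hj).mono hb1 (hGle (J - j) (by omega))

end Pool.Agent.Work.MP_e17eac_co.HS
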