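import Pool.Agent.Work.MP_e17eac_co.Bd.B19
import Pool.Agent.Work.MP_e17eac_co.HS.StC

/-!
# MP_e17eac_co, block HS, item Lo (helper15): lower bound for the hulls
-/

set_option autoImplicit false

namespace Pool.Agent.Work.MP_e17eac_co.HS

open Finset
open Pool.Agent.Work.MP_e17eac_co.DH
open Pool.Agent.Work.MP_e17eac_co.B1

namespace XLo

variable {ι α : Type} [Fintype ι] [DecidableEq ι] [DecidableEq α]

/-! ### Cells and times -/

theorem mem_ce {K : KSys ι} {b x c i : ℕ} : i ∈ ce K b x c ↔ i < K.N ∧ cell K b x i = c := by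
  simp [ce]

theorem cell_co (hc : StCell) (K : KSys ι) {b z x : ℕ} (hb : 1 ≤ b) (h : z ≤ x) {i j : ℕ}
    (he : cell K b x i = cell K b x j) : cell K b z i = cell K b z j := by
  obtain ⟨_, _, h3, _⟩ := hc ι K b x hb
  rw [h3 z h i, h3 z h j, he]

theorem cell_mono (K : KSys ι) (b x : ℕ) {i j : ℕ} (h : i ≤ j) : cell K b x i ≤ cell K b x j :=
  Nat.div_le_div_right (Nat.mul_le_mul_right _ h)

theorem t_mono (K : KSys ι) {i j : ℕ} (h : i ≤ j) (hj : j < K.N) : K.t i ≤ K.t j := by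
  rcases h.lt_or_eq with h1 | h1
  · exact (K.t_lt i j h1 hj).le
  · rw [h1]

theorem le_of_cell (K : KSys ι) {b x i j : ℕ} (h : cell K b x i < cell K b x j) : i ≤ j := by
  by_contra h1
  have h2 := cell_mono K b x (not_le.1 h1).le
  omega

theorem ta_le (K : KSys ι) {b x c i0 k : ℕ} (h0 : cell K b x i0 = c) (hk : k < K.N)
    (h : c ≤ cell K b x k) : ta K b x c ≤ K.t k := by
  have hne : {i | cell K b x i = c}.Nonempty := ⟨i0, h0⟩
  have h1 : cell K b x (sInf {i | cell K b x i = c}) = c := Nat.sInf_mem hne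
  unfold ta
  apply t_mono K _ hk
  rcases h.lt_or_eq with h2 | h2
  · exact le_of_cell K (b := b) (x := x) (by rw [h1]; exact h2)
  · exact Nat.sInf_le h2.symm

theorem le_tb (K : KSys ι) {b x c i0 k : ℕ} (hi : i0 < K.N) (h0 : cell K b x i0 = c)
    (hk : k < K.N) (h : cell K b x k ≤ c) : K.t k ≤ tb K b x c := by
  have hne : (ce K b x c).Nonempty := ⟨i0, mem_ce.2 ⟨hi, h0⟩⟩
  obtain ⟨j, hj, e⟩ := Finset.exists_mem_eq_sup _ hne id
  obtain ⟨hj1, hj2⟩ := mem_ce.1 hj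
  unfold tb
  rw [e]
  apply t_mono K _ hj1
  rcases h.lt_or_eq with h3 | h3
  · exact le_of_cell K (b := b) (x := x) (by show _ < cell K b x j; rw [hj2]; exact h3)
  · have h4 : id k ≤ (ce K b x c).sup id := Finset.le_sup (f := id) (mem_ce.2 ⟨hk, h3⟩)
    rw [e] at h4
    exact h4

theorem ex_ta (K : KSys ι) {b x c i0 : ℕ} (hi : i0 < K.N) (h0 : cell K b x i0 = c) :
    ∃ k, k < K.N ∧ cell K b x k = c ∧ ta K b x c = K.t k := by
  have hne : {i | cell K b x i = c}.Nonempty := ⟨i0, h0⟩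
  have h1 : cell K b x (sInf {i | cell K b x i = c}) = c := Nat.sInf_mem hne
  have h2 : sInf {i | cell K b x i = c} ≤ i0 := Nat.sInf_le h0
  exact ⟨sInf {i | cell K b x i = c}, lt_of_le_of_lt h2 hi, h1, rfl⟩

theorem ex_tb (K : KSys ι) {b x c i0 : ℕ} (hi : i0 < K.N) (h0 : cell K b x i0 = c) :
    ∃ k, k < K.N ∧ cell K b x k = c ∧ tb K b x c = K.t k := by
  have hne : (ce K b x c).Nonempty := ⟨i0, mem_ce.2 ⟨hi, h0⟩⟩
  obtain ⟨j, hj, e⟩ := Finset.exists_mem_eq_sup _ hne id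
  obtain ⟨hj1, hj2⟩ := mem_ce.1 hj
  exact ⟨j, hj1, hj2, by unfold tb; rw [e]; rfl⟩

theorem nest_ta (hc : StCell) (K : KSys ι) {b x x' i : ℕ} (hb : 1 ≤ b) (hx : x ≤ x')
    (hi : i < K.N) : ta K b x (cell K b x i) ≤ ta K b x' (cell K b x' i) := by
  obtain ⟨k, hk, hk1, hk2⟩ := ex_ta K (b := b) (x := x') hi rfl
  rw [hk2]
  exact ta_le K rfl hk (cell_co hc K hb hx hk1).ge

theorem nest_tb (hc : StCell) (K : KSys ι) {b x x' i : ℕ} (hb : 1 ≤ b) (hx : x ≤ x')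
    (hi : i < K.N) : tb K b x' (cell K b x' i) ≤ tb K b x (cell K b x i) := by
  obtain ⟨k, hk, hk1, hk2⟩ := ex_tb K (b := b) (x := x') hi rfl
  rw [hk2]
  exact le_tb K hi rfl hk (cell_co hc K hb hx hk1).le

/-! ### Hulls -/

section ls

variable {K : KSys ι} {b M J : ℕ} {e ec : ℕ → ℕ} {D : ℝ} {L : Lb α} {E : Finset ℕ}

theorem hull0 (hc : StCell) (ls : LS K b M J e ec D L E) {j x : ℕ} (hj : j ≤ J) (hx : x ≤ e j)
    {i : ℕ} (hi : i ∈ E) {c i0 : ℕ} (h0 : cell K b x i0 = c) (h : c ≤ cell K b x i) :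
    ta K b x c ≤ L.h0 (L.lab j i) := by
  obtain ⟨k, l, hk, hl, hk1, hl1, hk2, hl2⟩ := ls.span j hj i hi
  have hb : 1 ≤ b := by have := ls.lev.two; omega
  exact (ta_le K h0 hk (h.trans (cell_co hc K hb hx hk1).ge)).trans hk2

theorem hull1 (hc : StCell) (ls : LS K b M J e ec D L E) {j x : ℕ} (hj : j ≤ J) (hx : x ≤ e j)
    {i : ℕ} (hi : i ∈ E) {c i0 : ℕ} (hi0 : i0 < K.N) (h0 : cell K b x i0 = c)
    (h : cell K b x i ≤ c) : L.h1 (L.lab j i) ≤ tb K b x c := by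
  obtain ⟨k, l, hk, hl, hk1, hl1, hk2, hl2⟩ := ls.span j hj i hi
  have hb : 1 ≤ b := by have := ls.lev.two; omega
  exact hl2.trans (le_tb K hi0 h0 hl ((cell_co hc K hb hx hl1).le.trans h))

end ls

/-! ### Real inequalities -/

theorem gp {b s0 s1 s2 s3 : ℝ} (hb : 0 < b) (h03 : s0 ≤ s3) (h23 : s2 ≤ s3) (h01 : s0 < s1)
    (h : s3 - s0 ≤ b * (s2 - s1)) : 0 < s2 - s1 := by
  have h1 : 0 ≤ b * (s2 - s1) := by linarith
  have h2 : 0 ≤ s2 - s1 := nonneg_of_mul_nonneg_right h1 hb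
  have h3 : 0 < b * (s2 - s1) := by linarith
  exact pos_of_mul_pos_right h3 hb.le

theorem lin {A B a t τ Δ G ρ r : ℝ} (hΔ : Δ ≤ |τ - a|) (hG : |t - a| ≤ G) (h1 : |A + B * a| ≤ ρ)
    (h2 : |A + B * τ| ≤ r) (hD : 0 < Δ) :
    |A + B * t| * Δ ≤ ρ * Δ + G * (r + ρ) := by
  have e1 : |B| * |τ - a| ≤ r + ρ := by
    rw [← abs_mul]
    have e : B * (τ - a) = (A + B * τ) - (A + B * a) := by ring
    rw [e]
    exact (abs_sub _ _).trans (add_le_add h2 h1)
  have e2 : |A + B * t| ≤ ρ + |B| * |t - a| := by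
    have e : A + B * t = (A + B * a) + B * (t - a) := by ring
    rw [e]
    refine (abs_add_le _ _).trans ?_
    rw [abs_mul]
    linarith
  have e3 : |B| * |t - a| * Δ ≤ G * (r + ρ) := by
    have h3 : |B| * Δ ≤ r + ρ := (mul_le_mul_of_nonneg_left hΔ (abs_nonneg _)).trans e1
    calc |B| * |t - a| * Δ = |t - a| * (|B| * Δ) := by ring
      _ ≤ G * (r + ρ) := mul_le_mul hG h3 (mul_nonneg (abs_nonneg _) hD.le)
          ((abs_nonneg _).trans hG)
  calc |A + B * t| * Δ ≤ (ρ + |B| * |t - a|) * Δ := mul_le_mul_of_nonneg_right e2 hD.le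
    _ = ρ * Δ + |B| * |t - a| * Δ := by ring
    _ ≤ _ := by linarith

theorem Th_big {b : ℕ} (hb : 2 ≤ b) : 1 + (b : ℝ) + 3 * (b : ℝ) ^ 2 + 1 / 2 ≤ Th b := by
  have h1 : (2 : ℝ) ≤ b := by exact_mod_cast hb
  have h2 : (2 : ℝ) ^ 62 ≤ (b : ℝ) ^ 62 := pow_le_pow_left₀ (by norm_num) h1 62
  have h3 : (5 : ℝ) ≤ (b : ℝ) ^ 62 := le_trans (by norm_num) h2
  have h4 : 5 * (b : ℝ) ^ 2 ≤ (b : ℝ) ^ 62 * (b : ℝ) ^ 2 :=
    mul_le_mul_of_nonneg_right h3 (by positivity)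
  unfold Th
  have h5 : (b : ℝ) ^ 64 = (b : ℝ) ^ 62 * (b : ℝ) ^ 2 := by rw [← pow_add]
  rw [h5]
  nlinarith

theorem Th_ge2 {b : ℕ} (hb : 2 ≤ b) : (64 : ℝ) ≤ Th b := by
  have h1 : (2 : ℝ) ≤ b := by exact_mod_cast hb
  have h2 : (2 : ℝ) ^ 64 ≤ (b : ℝ) ^ 64 := pow_le_pow_left₀ (by norm_num) h1 64
  unfold Th
  exact le_trans (by norm_num) h2

theorem ex_even (R F x : ℕ) : ex R F (2 * x) = R * x := by
  unfold ex
  rw [Nat.mul_div_cancel_left _ (by norm_num : 0 < 2), Nat.mul_mod_right]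
  ring

omit [DecidableEq α] in
theorem sep_of {b : ℕ} {L : Lb α} {w w' : α} {s0 s1 s2 s3 : ℝ} (hb : (0 : ℝ) < b)
    (hΔ : 0 < s2 - s1) (hg : s3 - s0 ≤ b * (s2 - s1)) (hw : L.h0 w < L.h1 w)
    (hw' : L.h0 w' < L.h1 w') (h1 : s0 ≤ L.h0 w) (h2 : L.h1 w ≤ s1) (h3 : s2 ≤ L.h0 w')
    (h4 : L.h1 w' ≤ s3) : L.h1 w < L.h0 w' ∧ L.h1 w - L.h0 w ≤ b * (L.h0 w' - L.h1 w) ∧
      L.h1 w' - L.h0 w' ≤ b * (L.h0 w' - L.h1 w) := by
  have h5 : (b : ℝ) * (s2 - s1) ≤ b * (L.h0 w' - L.h1 w) :=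
    mul_le_mul_of_nonneg_left (by linarith) hb.le
  exact ⟨by linarith, by linarith, by linarith⟩

theorem fin1 {v Δ G r ρ rm I b : ℝ} (hΔ : 0 < Δ) (h : v * Δ ≤ ρ * Δ + G * (r + ρ))
    (hF : G * r < rm * I) (hrm : rm ≤ 3 * b * ρ) (hI : I ≤ b * Δ) (hG : G ≤ I) (hρ : 0 < ρ)
    (hI0 : 0 ≤ I) (hb : 0 < b) : v ≤ (1 + b + 3 * b ^ 2) * ρ := by
  refine le_of_mul_le_mul_right ?_ hΔ
  have h1 : rm * I ≤ 3 * b * ρ * (b * Δ) :=
    (mul_le_mul_of_nonneg_right hrm hI0).trans (mul_le_mul_of_nonneg_left hI (by positivity))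
  have h2 : G * ρ ≤ b * Δ * ρ := mul_le_mul_of_nonneg_right (hG.trans hI) hρ.le
  calc v * Δ ≤ ρ * Δ + G * (r + ρ) := h
    _ = ρ * Δ + (G * r + G * ρ) := by ring
    _ ≤ ρ * Δ + (3 * b * ρ * (b * Δ) + b * Δ * ρ) := by linarith
    _ = (1 + b + 3 * b ^ 2) * ρ * Δ := by ring

theorem pt (hc : StCell) {K : KSys ι} {b M m R F : ℕ} {ec : ℕ → ℕ} {D D' ρ : ℝ} {L : Lb α}
    {E E4 X4 : Finset ℕ} {U : ℕ → ι → ℕ → ℕ × ℕ} {c f u u' : ℕ} {rm rp : ℕ → ι → ℝ}
    (s4 : S4 K b M m R F ec D D' ρ L E E4 X4 U c f u u' rm rp) {x y z : ℕ} (hx : 1 ≤ x)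
    (hxz : x < z) (hy : 1 ≤ y) (hyz : y ≤ z) (hzm : z ≤ m) {i i' : ℕ} (hi : i ∈ E4)
    (hi' : i' ∈ E4) (hiX : i' ∉ X4) (ha : K.a i' = K.a i) (hf : cell K b f i' ≠ cell K b f i)
    (hF : (g1 K b (R * x) (R * x + c) (U x) i - g0 K b (R * x) (R * x + c) (U x) i) *
      rp y (K.a i) < rm z (K.a i) * (tb K b f u' - ta K b f u))
    {A : Finset ℕ} (hA : ∀ j ∈ A, j ∈ EE K b (R * x) E4 i ∧
      L.rho (L.lab (2 * z) i) ≤ L.rho (L.lab (2 * z) j)) :
    HS.Sep b L (L.lab (2 * y) i') (L.lab (2 * z) i) ∧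
    NN K E4 (L.lab (2 * y)) i' ∩ NN K E4 (L.lab (2 * z)) i ⊆
      HH K b M D L (R * x) (2 * z) A i := by
  have ls := s4.ls
  have hb2 : 2 ≤ b := ls.lev.two
  have hb1 : 1 ≤ b := by omega
  have hb : (0 : ℝ) < b := by exact_mod_cast hb1
  have ey : ex R F (2 * y) = R * y := ex_even R F y
  have ez : ex R F (2 * z) = R * z := ex_even R F z
  have exx : ex R F (2 * x) = R * x := ex_even R F x
  have Ei : i ∈ E := s4.sub hi
  have Ei' : i' ∈ E := s4.sub hi'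
  have Ni : i < K.N := (ls.hyg i Ei).lt
  have Ni' : i' < K.N := (ls.hyg i' Ei').lt
  have jx : 2 * x ≤ 2 * m + 1 := by omega
  have jy : 2 * y ≤ 2 * m + 1 := by omega
  have jz : 2 * z ≤ 2 * m + 1 := by omega
  obtain ⟨fR, cR, _⟩ := s4.fR
  have fx : f ≤ R * x := fR.trans (Nat.le_mul_of_pos_right R hx)
  have fy : f ≤ R * y := fR.trans (Nat.le_mul_of_pos_right R hy)
  have fz : f ≤ R * z := fR.trans (Nat.le_mul_of_pos_right R (by omega))
  have xz : R * x + c ≤ R * z := by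
    calc R * x + c ≤ R * x + R := by omega
      _ = R * (x + 1) := by ring
      _ ≤ R * z := Nat.mul_le_mul_left R hxz
  have fxc : f ≤ R * x + c := fx.trans (Nat.le_add_right _ _)
  have hRxz : R * x ≤ R * z := (Nat.le_add_right _ _).trans xz
  -- hulls
  have a1 : ta K b f (cell K b f i') ≤ L.h0 (L.lab (2 * y) i') :=
    hull0 hc ls jy (by rw [ey]; exact fy) Ei' rfl le_rfl
  have a2 : L.h1 (L.lab (2 * y) i') ≤ tb K b f (cell K b f i') :=
    hull1 hc ls jy (by rw [ey]; exact fy) Ei' Ni' rfl le_rfl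
  have a3 : L.h0 (L.lab (2 * y) i') < L.h1 (L.lab (2 * y) i') := ls.lt _ jy i' Ei'
  have b1 : ta K b f (cell K b f i) ≤ L.h0 (L.lab (2 * z) i) :=
    hull0 hc ls jz (by rw [ez]; exact fz) Ei rfl le_rfl
  have b2 : L.h1 (L.lab (2 * z) i) ≤ tb K b f (cell K b f i) :=
    hull1 hc ls jz (by rw [ez]; exact fz) Ei Ni rfl le_rfl
  have b3 : L.h0 (L.lab (2 * z) i) < L.h1 (L.lab (2 * z) i) := ls.lt _ jz i Ei
  -- base interval
  obtain ⟨iu, iu', hiu, hiu', Nu, Nu', hΔ, hsep, hdist⟩ : ∃ iu iu' : ℕ, cell K b f iu = u ∧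
      cell K b f iu' = u' ∧ iu < K.N ∧ iu' < K.N ∧ 0 < ta K b f u' - tb K b f u ∧
      HS.Sep b L (L.lab (2 * y) i') (L.lab (2 * z) i) ∧
      ta K b f u' - tb K b f u ≤ |L.h0 (L.lab (2 * y) i') - L.h0 (L.lab (2 * z) i)| := by
    rcases s4.rt.mem i hi with h1 | h1 <;> rcases s4.rt.mem i' hi' with h2 | h2
    · exact absurd (h2.trans h1.symm) hf
    · rw [h1] at b1 b2
      rw [h2] at a1 a2
      have h03 : ta K b f u ≤ tb K b f u' :=
        (ta_le K h1 Ni h1.ge).trans (le_tb K Ni' h2 Ni (h1.le.trans s4.rt.lt.le))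
      have hΔ : 0 < ta K b f u' - tb K b f u :=
        gp hb h03 (by linarith) (by linarith) s4.rt.gap
      refine ⟨i, i', h1, h2, Ni, Ni', hΔ, Or.inr ?_, ?_⟩
      · exact sep_of hb hΔ s4.rt.gap b3 a3 b1 b2 a1 a2
      · rw [abs_of_nonneg (by linarith)]
        linarith
    · rw [h1] at b1 b2
      rw [h2] at a1 a2
      have h03 : ta K b f u ≤ tb K b f u' :=
        (ta_le K h2 Ni' h2.ge).trans (le_tb K Ni h1 Ni' (h2.le.trans s4.rt.lt.le))
      have hΔ : 0 < ta K b f u' - tb K b f u :=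
        gp hb h03 (by linarith) (by linarith) s4.rt.gap
      refine ⟨i', i, h2, h1, Ni', Ni, hΔ, Or.inl ?_, ?_⟩
      · exact sep_of hb hΔ s4.rt.gap a3 b3 a1 a2 b1 b2
      · rw [abs_sub_comm, abs_of_nonneg (by linarith)]
        linarith
    · exact absurd (h2.trans h1.symm) hf
  refine ⟨hsep, ?_⟩
  -- the hull of the fibre
  have tw := s4.tw x hx (by omega)
  set c1 := (U x (K.a i) (cell K b (R * x) i)).1 with hc1
  set c2 := (U x (K.a i) (cell K b (R * x) i)).2 with hc2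
  have hlt : c1 < c2 := tw.lt i hi
  have hN : (0 : ℝ) < K.N := by exact_mod_cast ls.npos
  obtain ⟨i1, hi1, ci1⟩ : ∃ i1 ∈ EE K b (R * x) E4 i, cell K b (R * x + c) i1 = c1 := by
    by_contra hcon
    push Not at hcon
    have h1 := tw.ql i hi
    rw [← hc1, filter_false_of_mem (fun j hj => hcon j hj)] at h1
    simp only [card_empty, Nat.cast_zero, mul_zero] at h1
    linarith
  obtain ⟨i2, hi2, ci2⟩ : ∃ i2 ∈ EE K b (R * x) E4 i, cell K b (R * x + c) i2 = c2 := by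
    by_contra hcon
    push Not at hcon
    have h1 := tw.qr i hi
    rw [← hc2, filter_false_of_mem (fun j hj => hcon j hj)] at h1
    simp only [card_empty, Nat.cast_zero, mul_zero] at h1
    linarith
  have hEE : ∀ j ∈ EE K b (R * x) E4 i, j ∈ E4 ∧ K.a j = K.a i ∧
      cell K b (R * x) j = cell K b (R * x) i := by
    intro j hj
    have h1 := mem_filter.1 hj
    exact ⟨h1.1, h1.2.1, h1.2.2⟩
  have N1 : i1 < K.N := (ls.hyg i1 (s4.sub (hEE i1 hi1).1)).lt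
  have N2 : i2 < K.N := (ls.hyg i2 (s4.sub (hEE i2 hi2).1)).lt
  have eg0 : g0 K b (R * x) (R * x + c) (U x) i = ta K b (R * x + c) c1 := rfl
  have eg1 : g1 K b (R * x) (R * x + c) (U x) i = tb K b (R * x + c) c2 := rfl
  have hmem : ∀ j ∈ EE K b (R * x) E4 i, c1 ≤ cell K b (R * x + c) j ∧
      cell K b (R * x + c) j ≤ c2 := by
    intro j hj
    obtain ⟨k1, k2, k3⟩ := hEE j hj
    have h1 := tw.mem j k1
    rw [k2, k3, ← hc1, ← hc2] at h1
    rcases h1 with h1 | h1 <;> omega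
  have hg : ∀ j ∈ EE K b (R * x) E4 i,
      g0 K b (R * x) (R * x + c) (U x) i ≤ L.h0 (L.lab (2 * z) j) ∧
      L.h1 (L.lab (2 * z) j) ≤ g1 K b (R * x) (R * x + c) (U x) i ∧
      L.h0 (L.lab (2 * z) j) < L.h1 (L.lab (2 * z) j) := by
    intro j hj
    have k1 := s4.sub (hEE j hj).1
    rw [eg0, eg1]
    exact ⟨hull0 hc ls jz (by rw [ez]; exact xz) k1 ci1 (hmem j hj).1,
      hull1 hc ls jz (by rw [ez]; exact xz) k1 N2 ci2 (hmem j hj).2, ls.lt _ jz j k1⟩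
  have hii : i ∈ EE K b (R * x) E4 i := mem_filter.2 ⟨hi, rfl, rfl⟩
  have hcf : u ≤ cell K b f i ∧ cell K b f i ≤ u' := by
    have := s4.rt.lt
    rcases s4.rt.mem i hi with h1 | h1 <;> omega
  have hg0 : ta K b f u ≤ g0 K b (R * x) (R * x + c) (U x) i := by
    rw [eg0]
    obtain ⟨k, hk, hk1, hk2⟩ := ex_ta K N1 ci1
    rw [hk2]
    refine ta_le K hiu hk ?_
    have h1 : cell K b f k = cell K b f i1 := cell_co hc K hb1 fxc (hk1.trans ci1.symm)
    have h2 : cell K b f i1 = cell K b f i := cell_co hc K hb1 fx (hEE i1 hi1).2.2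
    rw [h1, h2]
    exact hcf.1
  have hg1 : g1 K b (R * x) (R * x + c) (U x) i ≤ tb K b f u' := by
    rw [eg1]
    obtain ⟨k, hk, hk1, hk2⟩ := ex_tb K N2 ci2
    rw [hk2]
    refine le_tb K Nu' hiu' hk ?_
    have h1 : cell K b f k = cell K b f i2 := cell_co hc K hb1 fxc (hk1.trans ci2.symm)
    have h2 : cell K b f i2 = cell K b f i := cell_co hc K hb1 fx (hEE i2 hi2).2.2
    rw [h1, h2]
    exact hcf.2
  -- the lines
  intro q hq
  obtain ⟨hq1, hq2⟩ := mem_inter.1 hq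
  obtain ⟨i4, hi4, q4⟩ := mem_image.1 hq1
  obtain ⟨i3, hi3, q3⟩ := mem_image.1 hq2
  obtain ⟨hi4E, l4⟩ := mem_filter.1 hi4
  obtain ⟨hi3E, l3⟩ := mem_filter.1 hi3
  have E3 : i3 ∈ E := s4.sub hi3E
  have hρi : 0 < L.rho (L.lab (2 * z) i) := ls.pos _ jz i Ei
  have f1 : |(K.y q - K.y (K.a i)) + (K.x q - K.x (K.a i)) * L.h0 (L.lab (2 * z) i)| ≤
      L.rho (L.lab (2 * z) i) := by
    have h1 := (ls.cls _ jz i3 E3).1
    have h2 := (ls.cls _ jz i Ei).1
    rw [l3, q3] at h1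
    have e : (K.y q - K.y (K.a i)) + (K.x q - K.x (K.a i)) * L.h0 (L.lab (2 * z) i) =
        (K.ht q (L.h0 (L.lab (2 * z) i)) - L.c0 (L.lab (2 * z) i)) -
        (K.ht (K.a i) (L.h0 (L.lab (2 * z) i)) - L.c0 (L.lab (2 * z) i)) := by
      unfold KSys.ht
      ring
    rw [e]
    exact (abs_sub _ _).trans (by linarith)
  have f2 : |(K.y q - K.y (K.a i)) + (K.x q - K.x (K.a i)) * L.h0 (L.lab (2 * y) i')| ≤
      rp y (K.a i) := by
    have h1 := (ls.cls _ jy i4 (s4.sub hi4E)).1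
    have h2 := (ls.cls _ jy i' Ei').1
    have h3 := s4.r1' y hy (by omega) i' (mem_sdiff.2 ⟨hi', hiX⟩)
    rw [l4, q4] at h1
    rw [ha] at h2 h3
    have e : (K.y q - K.y (K.a i)) + (K.x q - K.x (K.a i)) * L.h0 (L.lab (2 * y) i') =
        (K.ht q (L.h0 (L.lab (2 * y) i')) - L.c0 (L.lab (2 * y) i')) -
        (K.ht (K.a i) (L.h0 (L.lab (2 * y) i')) - L.c0 (L.lab (2 * y) i')) := by
      unfold KSys.ht
      ring
    rw [e]
    exact (abs_sub _ _).trans (by linarith)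
  have hti := hg i hii
  have main : ∀ t, g0 K b (R * x) (R * x + c) (U x) i ≤ t →
      t ≤ g1 K b (R * x) (R * x + c) (U x) i →
      |K.ht q t - K.ht (K.a i) t| ≤ (1 + b + 3 * (b : ℝ) ^ 2) * L.rho (L.lab (2 * z) i) := by
    intro t ht0 ht1
    have h1 := lin (t := t) (G := g1 K b (R * x) (R * x + c) (U x) i -
      g0 K b (R * x) (R * x + c) (U x) i) hdist
      (by rw [abs_le]; constructor <;> linarith) f1 f2 hΔ
    have e : K.ht q t - K.ht (K.a i) t =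
        (K.y q - K.y (K.a i)) + (K.x q - K.x (K.a i)) * t := by
      unfold KSys.ht
      ring
    rw [e]
    exact fin1 hΔ h1 hF (s4.r1 z (by omega) hzm i hi) s4.rt.gap (by linarith) hρi
      (by linarith) hb
  have hTh := Th_big hb2
  unfold HH
  rw [mem_filter]
  constructor
  · have h1 := (ls.hyg i3 E3).rel false (R * x) (by
      have := ls.lev.child (2 * x) jx
      rw [exx] at this
      omega)
    have h2 : cell K b (R * x) i3 = cell K b (R * x) i :=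
      cell_co hc K hb1 hRxz (by
        have := ls.lcell (2 * z) jz i3 E3 i Ei l3
        rwa [ez] at this)
    rw [h2] at h1
    have h3 : K.ln false i3 = q := q3
    rwa [h3] at h1
  · intro j hj
    obtain ⟨hjE, hjr⟩ := hA j hj
    obtain ⟨k1, k2, k3⟩ := hEE j hjE
    obtain ⟨t0, t1, t2⟩ := hg j hjE
    have hρj : 0 < L.rho (L.lab (2 * z) j) := ls.pos _ jz j (s4.sub k1)
    obtain ⟨w0, w1⟩ := ls.cls _ jz j (s4.sub k1)
    rw [k2] at w0 w1
    have m0 := main _ t0 (by linarith)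
    have m1 := main _ (by linarith) t1
    have h5 : (1 + b + 3 * (b : ℝ) ^ 2) * L.rho (L.lab (2 * z) i) ≤
        (Th b - 1 / 2) * L.rho (L.lab (2 * z) j) :=
      mul_le_mul (by linarith) hjr hρi.le (by nlinarith)
    unfold RR
    rw [mem_filter]
    refine ⟨mem_univ _, ?_, ?_⟩
    · have e : K.ht q (L.h0 (L.lab (2 * z) j)) - L.c0 (L.lab (2 * z) j) =
          (K.ht q (L.h0 (L.lab (2 * z) j)) - K.ht (K.a i) (L.h0 (L.lab (2 * z) j))) +
          (K.ht (K.a i) (L.h0 (L.lab (2 * z) j)) - L.c0 (L.lab (2 * z) j)) := by ring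
      rw [e]
      exact (abs_add_le _ _).trans (by linarith)
    · have e : K.ht q (L.h1 (L.lab (2 * z) j)) - L.c1 (L.lab (2 * z) j) =
          (K.ht q (L.h1 (L.lab (2 * z) j)) - K.ht (K.a i) (L.h1 (L.lab (2 * z) j))) +
          (K.ht (K.a i) (L.h1 (L.lab (2 * z) j)) - L.c1 (L.lab (2 * z) j)) := by ring
      rw [e]
      exact (abs_add_le _ _).trans (by linarith)

/-! ### Counting -/

theorem half {κ : Type} [DecidableEq κ] (F : Finset ℕ) (key : ℕ → κ) (v : ℕ → ℝ)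
    (G : Finset ℕ) (hG : ∀ i ∈ F, (∀ A : Finset ℕ,
      (∀ j, j ∈ A ↔ j ∈ F ∧ key j = key i ∧ v i ≤ v j) →
      (F.filter (fun j => key j = key i)).card ≤ 2 * A.card) → i ∈ G) :
    F.card ≤ 2 * (F ∩ G).card := by
  classical
  have h1 : 2 * (F \ G).card ≤ F.card := by
    rw [Finset.card_eq_sum_card_fiberwise (f := key) (s := F \ G) (t := F.image key)
      (fun i hi => mem_image_of_mem key (mem_sdiff.1 hi).1),
      Finset.card_eq_sum_card_image key F, mul_sum]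
    refine sum_le_sum fun k _ => ?_
    rcases ((F \ G).filter (fun i => key i = k)).eq_empty_or_nonempty with h0 | h0
    · rw [h0]
      simp
    · obtain ⟨i0, hi0, hmin⟩ := exists_min_image _ v h0
      obtain ⟨hi1, hi2⟩ := mem_filter.1 hi0
      obtain ⟨hi3, hi4⟩ := mem_sdiff.1 hi1
      have h2 : ¬ ∀ A : Finset ℕ, (∀ j, j ∈ A ↔ j ∈ F ∧ key j = key i0 ∧ v i0 ≤ v j) →
          (F.filter (fun j => key j = key i0)).card ≤ 2 * A.card := fun h => hi4 (hG i0 hi3 h)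
      push Not at h2
      obtain ⟨A, hA, hlt⟩ := h2
      rw [hi2] at hlt
      have h3 : ((F \ G).filter (fun i => key i = k)).card ≤ A.card := by
        refine card_le_card fun j hj => ?_
        obtain ⟨hj1, hj2⟩ := mem_filter.1 hj
        exact (hA j).2 ⟨(mem_sdiff.1 hj1).1, hj2.trans hi2.symm, hmin j hj⟩
      omega
  have h2 : F.card = (F ∩ G).card + (F \ G).card := (card_inter_add_card_sdiff F G).symm
  omega

theorem fin2 {b R x y z C1 : ℕ} {n ε1 D' ρ cc : ℝ} (hb : 2 ≤ b) (hn : 0 < n) (hε : 0 < ε1)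
    (hD : 0 < D') (hρ : 1 < ρ) (hρ8 : ρ ^ 8 ≤ (b : ℝ) ^ R) (hr : (D' / ε1) ^ C1 ≤ ρ)
    (h1 : ε1 ^ C1 * n ≤ D' ^ C1 * cc * (b : ℝ) ^ (2 * (R * y) + 2 * (R * z)))
    (h2 : cc ≤ ρ ^ 2 * (n * (b : ℝ) ^ (R * x) / (b : ℝ) ^ (4 * (R * z))))
    (h3 : x + 2 * y + 1 ≤ 2 * z) : False := by
  have hB1 : (1 : ℝ) ≤ b := by exact_mod_cast (by omega : 1 ≤ b)
  have hB : (0 : ℝ) < b := by linarith
  have hQ : (0 : ℝ) < (b : ℝ) ^ (4 * (R * z)) := by positivity
  have h2' : cc * (b : ℝ) ^ (4 * (R * z)) ≤ ρ ^ 2 * (n * (b : ℝ) ^ (R * x)) := by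
    rw [← mul_div_assoc, le_div_iff₀ hQ] at h2
    exact h2
  have hP : (0 : ℝ) < (b : ℝ) ^ (R * x + (2 * (R * y) + 2 * (R * z))) := by positivity
  have h4 : (b : ℝ) ^ R * (b : ℝ) ^ (R * x + (2 * (R * y) + 2 * (R * z))) ≤
      (b : ℝ) ^ (4 * (R * z)) := by
    rw [← pow_add]
    refine pow_le_pow_right₀ hB1 ?_
    have h5 : R * (x + 2 * y + 1) ≤ R * (2 * z) := Nat.mul_le_mul_left R h3
    have e1 : R * (x + 2 * y + 1) = R * x + 2 * (R * y) + R := by ring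
    have e2 : R * (2 * z) = 2 * (R * z) := by ring
    omega
  have h6 : ε1 ^ C1 * (b : ℝ) ^ R ≤ D' ^ C1 * ρ ^ 2 := by
    have h7 : (ε1 ^ C1 * (b : ℝ) ^ R) *
        (n * (b : ℝ) ^ (R * x + (2 * (R * y) + 2 * (R * z)))) ≤
        (D' ^ C1 * ρ ^ 2) * (n * (b : ℝ) ^ (R * x + (2 * (R * y) + 2 * (R * z)))) := by
      calc (ε1 ^ C1 * (b : ℝ) ^ R) * (n * (b : ℝ) ^ (R * x + (2 * (R * y) + 2 * (R * z))))
          = (ε1 ^ C1 * n) *
            ((b : ℝ) ^ R * (b : ℝ) ^ (R * x + (2 * (R * y) + 2 * (R * z)))) := by ring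
        _ ≤ (ε1 ^ C1 * n) * (b : ℝ) ^ (4 * (R * z)) :=
            mul_le_mul_of_nonneg_left h4 (by positivity)
        _ ≤ (D' ^ C1 * cc * (b : ℝ) ^ (2 * (R * y) + 2 * (R * z))) *
            (b : ℝ) ^ (4 * (R * z)) := mul_le_mul_of_nonneg_right h1 hQ.le
        _ = (D' ^ C1 * (b : ℝ) ^ (2 * (R * y) + 2 * (R * z))) *
            (cc * (b : ℝ) ^ (4 * (R * z))) := by ring
        _ ≤ (D' ^ C1 * (b : ℝ) ^ (2 * (R * y) + 2 * (R * z))) *
            (ρ ^ 2 * (n * (b : ℝ) ^ (R * x))) :=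
            mul_le_mul_of_nonneg_left h2' (by positivity)
        _ = _ := by rw [pow_add (b : ℝ) (R * x)]; ring
    exact le_of_mul_le_mul_right h7 (by positivity)
  have h8 : D' ^ C1 ≤ ρ * ε1 ^ C1 := by
    rw [div_pow, div_le_iff₀ (by positivity)] at hr
    exact hr
  have h9 : (b : ℝ) ^ R ≤ ρ ^ 3 := by
    have h10 : (b : ℝ) ^ R * ε1 ^ C1 ≤ ρ ^ 3 * ε1 ^ C1 := by
      calc (b : ℝ) ^ R * ε1 ^ C1 = ε1 ^ C1 * (b : ℝ) ^ R := by ring
        _ ≤ D' ^ C1 * ρ ^ 2 := h6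
        _ ≤ (ρ * ε1 ^ C1) * ρ ^ 2 := mul_le_mul_of_nonneg_right h8 (by positivity)
        _ = ρ ^ 3 * ε1 ^ C1 := by ring
    exact le_of_mul_le_mul_right h10 (by positivity)
  have h11 : ρ ^ 3 < ρ ^ 8 := pow_lt_pow_right₀ hρ (by norm_num)
  linarith

theorem bg {K : KSys ι} {b M J : ℕ} {e : ℕ → ℕ} {D D' ε ρ : ℝ} {k C C1 : ℕ}
    (h : Bg K b M J e D' ε ρ k C) (hD : 1 ≤ D) (hDD : D ≤ D') (hC : 3 * C1 ≤ C) :
    Bg K b M J e D (ε / D' ^ 2) ρ k C1 := by
  have hε := h.ep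
  have hD' : 1 ≤ D' := hD.trans hDD
  have h0 : 1 ≤ D' / ε := by rw [le_div_iff₀ hε]; linarith [h.e1]
  have h1 : (D / (ε / D' ^ 2)) ^ (C1 * (k + 1)) ≤ (D' / ε) ^ (C * (k + 1)) := by
    have h2 : D / (ε / D' ^ 2) ≤ (D' / ε) ^ 3 := by
      have e1 : D / (ε / D' ^ 2) = D * D' ^ 2 / ε := by field_simp
      rw [e1, div_pow, div_le_div_iff₀ hε (by positivity)]
      have h3 : D * D' ^ 2 ≤ D' ^ 3 := by
        have := mul_le_mul_of_nonneg_right hDD (by positivity : (0 : ℝ) ≤ D' ^ 2)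
        linarith [this, (by ring : D' * D' ^ 2 = D' ^ 3)]
      have h4 : ε ^ 3 ≤ ε := by
        calc ε ^ 3 ≤ ε ^ 1 := pow_le_pow_of_le_one hε.le h.e1 (by norm_num)
          _ = ε := pow_one ε
      exact mul_le_mul h3 h4 (by positivity) (by positivity)
    calc (D / (ε / D' ^ 2)) ^ (C1 * (k + 1)) ≤ ((D' / ε) ^ 3) ^ (C1 * (k + 1)) :=
          pow_le_pow_left₀ (by positivity) h2 _
      _ = (D' / ε) ^ (3 * C1 * (k + 1)) := by rw [← pow_mul]; ring_nf
      _ ≤ _ := pow_le_pow_right₀ h0 (Nat.mul_le_mul_right _ hC)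
  refine ⟨by positivity, ?_, h1.trans h.rho, h.it, ?_⟩
  · rw [div_le_one (by positivity)]
    exact h.e1.trans (one_le_pow₀ hD')
  · exact (mul_le_mul_of_nonneg_right h1 (by positivity)).trans h.nn

theorem fin3 {a D' ε N : ℝ} (hD : 64 ≤ D') (hε : 0 < ε) (hN : 0 < N) (h : D' ^ 3 * a ≤ ε * N) :
    2 * ((D' ^ 2 * a + D' * (ε / D' ^ 2) * N) + ε / D' ^ 2 * N) ≤ ε * N := by
  have hD0 : 0 < D' := by linarith
  have h1 : D' ^ 2 * a ≤ ε * N / D' := by
    rw [le_div_iff₀ hD0]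
    linarith [(by ring : D' ^ 2 * a * D' = D' ^ 3 * a)]
  have h2 : D' * (ε / D' ^ 2) * N = ε * N / D' := by field_simp
  have h3 : ε / D' ^ 2 * N ≤ ε * N / D' := by
    rw [div_mul_eq_mul_div]
    exact div_le_div_of_nonneg_left (by positivity) hD0 (by nlinarith)
  have h4 : ε * N / D' ≤ ε * N / 64 :=
    div_le_div_of_nonneg_left (by positivity) (by norm_num) hD
  have h5 : 0 < ε * N := by positivity
  linarith

end XLo

/-- **(Lo)**: lower bound for the hulls. -/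
theorem I_Lo (hc : B1.StCell) : StLo := by
  rintro ⟨C1, hLB⟩ ⟨C2, hP2⟩
  refine ⟨3 * (C1 + C2 + 1), ?_⟩
  intro ι α _ _ _ K hinj b M m R F ec D D' ρ L E E4 X4 U c f u u' rm rp s4 ε k hB hρ8 hX4
    x y z hx hxz hy hyz hzm h1 h2
  classical
  have ls := s4.ls
  have hb2 : 2 ≤ b := ls.lev.two
  have hb1 : 1 ≤ b := by omega
  have hbR : (1 : ℝ) ≤ b := by exact_mod_cast hb1
  have hN : (0 : ℝ) < K.N := by exact_mod_cast ls.npos
  have hn : (0 : ℝ) < Fintype.card ι := by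
    exact_mod_cast Fintype.card_pos_iff.2 ⟨K.a 0⟩
  have hD64' : 64 ≤ D := (XLo.Th_ge2 hb2).trans ls.bD
  have hD64 : 64 ≤ D' := hD64'.trans s4.DD
  have hD0 : 0 < D' := by linarith
  have hε := hB.ep
  have hε1 : 0 < ε / D' ^ 2 := by positivity
  have hBLB := XLo.bg (C1 := C1) hB (by linarith : (1 : ℝ) ≤ D') le_rfl (by omega)
  have hBP2 := XLo.bg (C1 := C2) hB (by linarith : (1 : ℝ) ≤ D) s4.DD (by omega)
  have ex0 : ex R F 0 = 0 := by simp [ex]
  have ey : ex R F (2 * y) = R * y := XLo.ex_even R F y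
  have ez : ex R F (2 * z) = R * z := XLo.ex_even R F z
  have exx : ex R F (2 * x) = R * x := XLo.ex_even R F x
  have hρ1 : 1 < ρ := by
    have k1 : 64 ≤ D' / ε := by
      rw [le_div_iff₀ hε]
      linarith [hB.e1]
    have k2 : D' / ε ≤ (D' / ε) ^ (3 * (C1 + C2 + 1) * (k + 1)) :=
      le_self_pow₀ (by linarith) (by positivity)
    linarith [hB.rho]
  have hcell0 : ∀ i ∈ E4, cell K b 0 i = 0 := fun i hi =>
    (hc ι K b 0 hb1).2.2.2.1 i (ls.hyg i (s4.sub hi)).lt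
  -- exceptional sets
  obtain ⟨XP, hXPs, hXPc, hXP⟩ := hP2 ι α K hinj b M (2 * m + 1) (ex R F) ec D L E ls
    (ε / D' ^ 2) ρ k hBP2 (2 * x) (2 * z) (by omega) (by omega)
  have hρ4 : ρ ^ 4 * (b : ℝ) ^ (ex R F 0 + ex R F (2 * z)) ≤
      (b : ℝ) ^ (2 * ex R F (2 * y)) := by
    rw [ex0, ey, ez, zero_add]
    have k1 : ρ ^ 4 ≤ (b : ℝ) ^ R :=
      (pow_le_pow_right₀ hρ1.le (by norm_num : 4 ≤ 8)).trans hρ8
    calc ρ ^ 4 * (b : ℝ) ^ (R * z) ≤ (b : ℝ) ^ R * (b : ℝ) ^ (R * z) :=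
          mul_le_mul_of_nonneg_right k1 (by positivity)
      _ = (b : ℝ) ^ (R + R * z) := by rw [pow_add]
      _ ≤ (b : ℝ) ^ (2 * (R * y)) := by
          refine pow_le_pow_right₀ hbR ?_
          have k2 : R * (z + 1) ≤ R * (2 * y) := Nat.mul_le_mul_left R h2
          have e1 : R * (z + 1) = R * z + R := by ring
          have e2 : R * (2 * y) = 2 * (R * y) := by ring
          omega
  have few : ∀ j, j ≤ 2 * m + 1 → ∀ w : ℕ, (((E4.filter (fun i =>
      cell K b (ex R F j) i = w)).image (L.lab j)).card : ℝ) ≤ D' := by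
    intro j hj w
    refine le_trans ?_ ((ls.few j hj w).trans s4.DD)
    exact_mod_cast card_le_card (image_subset_image (filter_subset_filter _ s4.sub))
  obtain ⟨B2, hB2c, hB2m⟩ : ∃ B2 : Finset (ℕ × ℕ),
      (B2.card : ℝ) * (Fintype.card ι * (b : ℝ) ^ (ex R F 0)) ≤
        ε / D' ^ 2 * (K.N : ℝ) ^ 2 ∧
      ∀ v : ℕ × ℕ, v ∈ PP K b (ex R F 0) E4 →
        HS.Sep b L (L.lab (2 * y) v.1) (L.lab (2 * z) v.2) →
        D' ^ C1 * ((NN K E4 (L.lab (2 * y)) v.1 ∩ NN K E4 (L.lab (2 * z)) v.2).card : ℝ) *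
          (b : ℝ) ^ (2 * ex R F (2 * y) + 2 * ex R F (2 * z)) <
          (ε / D' ^ 2) ^ C1 * (Fintype.card ι * (b : ℝ) ^ (ex R F 0)) → v ∈ B2 :=
    ⟨_, hLB ι α α K hinj b M (2 * m + 1) (ex R F) ec D L E ls D' (ε / D' ^ 2) ρ k s4.DD
      hBLB 0 (2 * y) (2 * z) (Nat.zero_le _) (by omega) (s4.fine y (by omega))
      (s4.fine z hzm) hρ4 E4 s4.sub (L.lab (2 * y)) (L.lab (2 * z))
      (fun i _ j _ h => h) (fun i _ j _ h => h) (few _ (by omega)) (few _ (by omega)),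
      fun v hv k1 k2 => mem_filter.2 ⟨hv, k1, k2⟩⟩
  rw [ex0, pow_zero, mul_one] at hB2c
  -- the failing edges
  set FF := E4.filter (fun i =>
    (g1 K b (R * x) (R * x + c) (U x) i - g0 K b (R * x) (R * x + c) (U x) i) *
      rp y (K.a i) < rm z (K.a i) * (tb K b f u' - ta K b f u)) with hFF
  refine ⟨FF, filter_subset _ _, ?_, ?_⟩
  swap
  · intro i hi
    obtain ⟨hi1, hi2⟩ := mem_sdiff.1 hi
    by_contra hcon
    push Not at hcon
    exact hi2 (mem_filter.2 ⟨hi1, hcon⟩)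
  have hFE : ∀ i ∈ FF, i ∈ E4 := fun i hi => (mem_filter.1 hi).1
  have hfib : ∀ i ∈ FF, ∀ j, (j ∈ E4 ∧ K.a j = K.a i ∧
      cell K b (R * x) j = cell K b (R * x) i) ↔
      (j ∈ FF ∧ (K.a j, cell K b (R * x) j) = (K.a i, cell K b (R * x) i)) := by
    intro i hi j
    constructor
    · rintro ⟨k1, k2, k3⟩
      refine ⟨mem_filter.2 ⟨k1, ?_⟩, by rw [k2, k3]⟩
      have k4 := (mem_filter.1 hi).2
      unfold g1 g0 at k4 ⊢
      rw [k2, k3]
      exact k4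
    · rintro ⟨k1, k2⟩
      exact ⟨hFE j k1, (Prod.mk.inj k2).1, (Prod.mk.inj k2).2⟩
  set G := FF.filter (fun i => ∀ A : Finset ℕ, (∀ j, j ∈ A ↔ j ∈ FF ∧
      (K.a j, cell K b (R * x) j) = (K.a i, cell K b (R * x) i) ∧
      L.rho (L.lab (2 * z) i) ≤ L.rho (L.lab (2 * z) j)) →
      (FF.filter (fun j => (K.a j, cell K b (R * x) j) = (K.a i, cell K b (R * x) i))).card ≤
        2 * A.card) with hG
  have hhalf : FF.card ≤ 2 * (FF ∩ G).card :=
    XLo.half FF (fun j => (K.a j, cell K b (R * x) j)) (fun j => L.rho (L.lab (2 * z) j)) G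
      (fun i hi k1 => mem_filter.2 ⟨hi, k1⟩)
  set F' := (FF ∩ G) \ XP with hF'
  have hF'E : ∀ i ∈ F', i ∈ E4 := fun i hi => hFE i (mem_inter.1 (mem_sdiff.1 hi).1).1
  have hc1 : (FF ∩ G).card ≤ F'.card + XP.card := card_le_card_sdiff_add_card
  set T := (E4 ×ˢ F').filter (fun v => K.a v.1 = K.a v.2 ∧ cell K b f v.1 ≠ cell K b f v.2)
    with hT
  have hTm : ∀ v ∈ T, v.1 ∈ E4 ∧ v.2 ∈ F' ∧ K.a v.1 = K.a v.2 ∧
      cell K b f v.1 ≠ cell K b f v.2 := by
    intro v hv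
    obtain ⟨k1, k2, k3⟩ := mem_filter.1 hv
    exact ⟨(mem_product.1 k1).1, (mem_product.1 k1).2, k2, k3⟩
  have hlow : ∀ i ∈ F', (K.N : ℝ) ≤
      D' * Fintype.card ι * ((T.filter (fun v => v.2 = i)).card : ℝ) := by
    intro i hi
    have hiE := hF'E i hi
    have inj : ∀ w : ℕ, w ≠ cell K b f i →
        (E4.filter (fun i' => K.a i' = K.a i ∧ cell K b f i' = w)).card ≤
        (T.filter (fun v => v.2 = i)).card := by
      intro w hw
      refine card_le_card_of_injOn (fun i' => (i', i)) ?_ ?_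
      · intro i' hi'
        obtain ⟨k1, k2, k3⟩ := mem_filter.1 (mem_coe.1 hi')
        refine mem_coe.2 (mem_filter.2 ⟨mem_filter.2 ⟨mem_product.2 ⟨k1, hi⟩, k2, ?_⟩, rfl⟩)
        change cell K b f i' ≠ cell K b f i
        rw [k3]
        exact hw
      · intro i1 _ i2 _ h
        exact (Prod.mk.inj h).1
    have hlt := s4.rt.lt
    rcases s4.rt.mem i hiE with k1 | k1
    · refine (s4.rt.qr i hiE).trans (mul_le_mul_of_nonneg_left ?_ (by positivity))
      exact_mod_cast inj u' (by rw [k1]; omega)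
    · refine (s4.rt.ql i hiE).trans (mul_le_mul_of_nonneg_left ?_ (by positivity))
      exact_mod_cast inj u (by rw [k1]; omega)
  have hT1 : (K.N : ℝ) * F'.card ≤ D' * Fintype.card ι * T.card := by
    have e1 : T.card = ∑ i ∈ F', (T.filter (fun v => v.2 = i)).card :=
      card_eq_sum_card_fiberwise (f := Prod.snd) (fun v hv => mem_coe.2 (hTm v hv).2.1)
    calc (K.N : ℝ) * F'.card = ∑ _i ∈ F', (K.N : ℝ) := by
          rw [sum_const, nsmul_eq_mul, mul_comm]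
      _ ≤ ∑ i ∈ F', D' * Fintype.card ι * ((T.filter (fun v => v.2 = i)).card : ℝ) :=
          sum_le_sum hlow
      _ = D' * Fintype.card ι * T.card := by
          rw [← mul_sum, e1]
          push_cast
          ring
  set B1 := T.filter (fun v => v.1 ∈ X4) with hB1
  have hB1c : (B1.card : ℝ) * Fintype.card ι ≤ X4.card * (D' * K.N) := by
    have e1 : B1.card = ∑ i' ∈ X4, (B1.filter (fun v => v.1 = i')).card :=
      card_eq_sum_card_fiberwise (f := Prod.fst)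
        (fun v hv => mem_coe.2 (mem_filter.1 (mem_coe.1 hv)).2)
    have k0 : ∀ i' ∈ X4, ((B1.filter (fun v => v.1 = i')).card : ℝ) * Fintype.card ι ≤
        D' * K.N := by
      intro i' hi'
      have hiE := s4.X4s hi'
      have k1 := (ls.hyg i' (s4.sub hiE)).light false 0 (Nat.zero_le _)
      rw [pow_zero, mul_one] at k1
      have k2 : (B1.filter (fun v => v.1 = i')).card ≤ ((range K.N).filter (fun j =>
          K.ln false j = K.ln false i' ∧ cell K b 0 j = cell K b 0 i')).card := by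
        refine card_le_card_of_injOn (fun v => v.2) ?_ ?_
        · intro v hv
          obtain ⟨k3, k4⟩ := mem_filter.1 (mem_coe.1 hv)
          obtain ⟨k5, _⟩ := mem_filter.1 k3
          obtain ⟨_, k6, k7, _⟩ := hTm v k5
          have k8 := hF'E _ k6
          refine mem_coe.2 (mem_filter.2 ⟨mem_range.2 (ls.hyg _ (s4.sub k8)).lt, ?_, ?_⟩)
          · change K.a v.2 = K.a i'
            rw [← k4, k7]
          · rw [hcell0 _ k8, hcell0 _ hiE]
        · intro v hv w hw h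
          have k3 := (mem_filter.1 (mem_coe.1 hv)).2
          have k4 := (mem_filter.1 (mem_coe.1 hw)).2
          exact Prod.ext (k3.trans k4.symm) h
      calc ((B1.filter (fun v => v.1 = i')).card : ℝ) * Fintype.card ι
          ≤ (((range K.N).filter (fun j => K.ln false j = K.ln false i' ∧
            cell K b 0 j = cell K b 0 i')).card : ℝ) * Fintype.card ι :=
            mul_le_mul_of_nonneg_right (by exact_mod_cast k2) hn.le
        _ ≤ D * K.N := k1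
        _ ≤ D' * K.N := mul_le_mul_of_nonneg_right s4.DD hN.le
    calc (B1.card : ℝ) * Fintype.card ι
        = ∑ i' ∈ X4, ((B1.filter (fun v => v.1 = i')).card : ℝ) * Fintype.card ι := by
          rw [← sum_mul, e1]
          push_cast
          rfl
      _ ≤ ∑ _i' ∈ X4, D' * K.N := sum_le_sum k0
      _ = X4.card * (D' * K.N) := by rw [sum_const, nsmul_eq_mul]
  have hTB : T ⊆ B1 ∪ B2 := by
    intro v hv
    obtain ⟨k1, k2, k3, k4⟩ := hTm v hv
    rw [mem_union]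
    by_cases hvX : v.1 ∈ X4
    · exact Or.inl (mem_filter.2 ⟨hv, hvX⟩)
    right
    obtain ⟨k5, k6⟩ := mem_sdiff.1 k2
    obtain ⟨k7, k8⟩ := mem_inter.1 k5
    have hiE := hFE _ k7
    set A := (EE K b (R * x) E4 v.2).filter (fun j =>
      L.rho (L.lab (2 * z) v.2) ≤ L.rho (L.lab (2 * z) j)) with hA
    have hEEm : ∀ j, j ∈ EE K b (R * x) E4 v.2 ↔ j ∈ E4 ∧ K.a j = K.a v.2 ∧
        cell K b (R * x) j = cell K b (R * x) v.2 := by
      intro j
      unfold EE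
      rw [mem_filter]
    have hAc : (EE K b (R * x) E4 v.2).card ≤ 2 * A.card := by
      have k9 := (mem_filter.1 k8).2 A (by
        intro j
        rw [hA, mem_filter, hEEm, hfib _ k7 j, and_assoc])
      have e1 : EE K b (R * x) E4 v.2 = FF.filter (fun j =>
          (K.a j, cell K b (R * x) j) = (K.a v.2, cell K b (R * x) v.2)) := by
        ext j
        rw [hEEm, hfib _ k7 j]
        constructor
        · rintro ⟨j1, j2⟩
          exact mem_filter.2 ⟨j1, j2⟩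
        · intro j1
          exact ⟨(mem_filter.1 j1).1, (mem_filter.1 j1).2⟩
      rw [e1]
      exact k9
    have hpt := XLo.pt hc s4 hx hxz hy hyz hzm hiE k1 hvX k3 k4 (mem_filter.1 k7).2
      (A := A) (fun j hj => mem_filter.1 hj)
    refine hB2m v ?_ hpt.1 ?_
    · unfold PP
      refine mem_filter.2 ⟨mem_product.2 ⟨k1, hiE⟩, k3, ?_⟩
      rw [ex0, hcell0 _ k1, hcell0 _ hiE]
    · by_contra hcon
      push Not at hcon
      rw [ex0, ey, ez, pow_zero, mul_one] at hcon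
      have hW : (K.N : ℝ) ≤ 2 * D' * (Fintype.card ι * (b : ℝ) ^ (R * x) * A.card) := by
        have k9 := (s4.tw x hx (by omega)).ql v.2 hiE
        have k10 : (((EE K b (R * x) E4 v.2).filter (fun i' => cell K b (R * x + c) i' =
            (U x (K.a v.2) (cell K b (R * x) v.2)).1)).card : ℝ) ≤ 2 * A.card := by
          have := (card_le_card (filter_subset (fun i' => cell K b (R * x + c) i' =
            (U x (K.a v.2) (cell K b (R * x) v.2)).1) (EE K b (R * x) E4 v.2))).trans hAc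
          exact_mod_cast this
        calc (K.N : ℝ) ≤ D' * (Fintype.card ι * (b : ℝ) ^ (R * x)) * (2 * A.card) :=
              k9.trans (mul_le_mul_of_nonneg_left k10 (by positivity))
          _ = _ := by ring
      have hcond : ε / D' ^ 2 * K.N ≤
          Fintype.card ι * (b : ℝ) ^ (ex R F (2 * x)) * A.card := by
        rw [exx, div_mul_eq_mul_div, div_le_iff₀ (by positivity)]
        have k9 : ε * K.N ≤ 1 * K.N := mul_le_mul_of_nonneg_right hB.e1 hN.le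
        have k10 : 0 ≤ (Fintype.card ι : ℝ) * (b : ℝ) ^ (R * x) * A.card := by positivity
        have k11 : 2 * D' * (Fintype.card ι * (b : ℝ) ^ (R * x) * A.card) ≤
            D' ^ 2 * (Fintype.card ι * (b : ℝ) ^ (R * x) * A.card) :=
          mul_le_mul_of_nonneg_right (by nlinarith) k10
        linarith
      have k9 := hXP v.2 (mem_sdiff.2 ⟨s4.sub hiE, k6⟩) A (by
        intro j hj
        obtain ⟨j1, _⟩ := mem_filter.1 hj
        obtain ⟨j2, j3, j4⟩ := (hEEm j).1 j1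
        unfold EE
        rw [exx]
        exact mem_filter.2 ⟨s4.sub j2, j3, j4⟩) hcond
      rw [exx] at k9
      unfold mm at k9
      rw [exx, ez] at k9
      have k10 : ((NN K E4 (L.lab (2 * y)) v.1 ∩ NN K E4 (L.lab (2 * z)) v.2).card : ℝ) ≤
          ((HH K b M D L (R * x) (2 * z) A v.2).card : ℝ) := by
        exact_mod_cast card_le_card hpt.2
      have k11 : (D' / (ε / D' ^ 2)) ^ C1 ≤ ρ := by
        refine le_trans (pow_le_pow_right₀ ?_ ?_) hBLB.rho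
        · rw [le_div_iff₀ hε1, one_mul]
          linarith [hBLB.e1]
        · exact Nat.le_mul_of_pos_right _ (by omega)
      exact XLo.fin2 hb2 hn hε1 hD0 hρ1 hρ8 k11 hcon (k10.trans k9) h1
  have hTc : (T.card : ℝ) ≤ B1.card + B2.card := by
    exact_mod_cast (card_le_card hTB).trans (card_union_le _ _)
  have hF'c : (F'.card : ℝ) ≤ D' ^ 2 * X4.card + D' * (ε / D' ^ 2) * K.N := by
    have k1 : (K.N : ℝ) * F'.card ≤
        K.N * (D' ^ 2 * X4.card + D' * (ε / D' ^ 2) * K.N) := by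
      calc (K.N : ℝ) * F'.card ≤ D' * Fintype.card ι * T.card := hT1
        _ ≤ D' * Fintype.card ι * (B1.card + B2.card) :=
            mul_le_mul_of_nonneg_left hTc (by positivity)
        _ = D' * (B1.card * Fintype.card ι + B2.card * Fintype.card ι) := by ring
        _ ≤ D' * (X4.card * (D' * K.N) + ε / D' ^ 2 * (K.N : ℝ) ^ 2) :=
            mul_le_mul_of_nonneg_left (add_le_add hB1c hB2c) hD0.le
        _ = _ := by ring
    exact le_of_mul_le_mul_left k1 hN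
  have hX3 : D' ^ 3 * (X4.card : ℝ) ≤ ε * K.N := by
    have k1 : D' ^ 3 ≤ D' ^ (3 * (C1 + C2 + 1)) :=
      pow_le_pow_right₀ (by linarith) (by omega)
    have k2 : ε ^ (3 * (C1 + C2 + 1)) ≤ ε := by
      calc ε ^ (3 * (C1 + C2 + 1)) ≤ ε ^ 1 :=
            pow_le_pow_of_le_one hε.le hB.e1 (by omega)
        _ = ε := pow_one ε
    calc D' ^ 3 * (X4.card : ℝ) ≤ D' ^ (3 * (C1 + C2 + 1)) * X4.card :=
          mul_le_mul_of_nonneg_right k1 (by positivity)
      _ ≤ ε ^ (3 * (C1 + C2 + 1)) * K.N := hX4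
      _ ≤ ε * K.N := mul_le_mul_of_nonneg_right k2 hN.le
  have hfin := XLo.fin3 hD64 hε hN hX3
  have k1 : (FF.card : ℝ) ≤ 2 * ((F'.card : ℝ) + XP.card) := by
    have := hhalf.trans (Nat.mul_le_mul_left 2 hc1)
    exact_mod_cast this
  linarith

end Pool.Agent.Work.MP_e17eac_co.HS
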