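import Pool.Agent.Work.MP_e17eac_co.HS.StC

/-!
# HS: the radii of consecutive levels
-/

set_option autoImplicit false

namespace Pool.Agent.Work.MP_e17eac_co.HS

open Finset
open Pool.Agent.Work.MP_e17eac_co.DH
open Pool.Agent.Work.MP_e17eac_co.B1

/-- **(R3)**: the radii of consecutive levels. -/
theorem I_R3 : StR3 := by
  intro ι α _ _ _ K b M m R F ec D D' ρ L E E4 X4 U c f u u' rm rp h hs z hz hzm i hi
  by_contra hcon
  rw [not_lt] at hcon
  have hi4 : i ∈ E4 := (mem_sdiff.mp hi).1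
  have e1 := h.r2 z hz (by omega) i hi4
  have e2 := h.r2' (z + 1) (by omega) hzm i hi
  have hb2 : 2 ≤ b := h.ls.lev.two
  have hb : (0 : ℝ) < b := by positivity
  have hn : (0 : ℝ) < Fintype.card ι := by
    have : 0 < Fintype.card ι := Fintype.card_pos_iff.mpr ⟨K.a i⟩
    exact_mod_cast this
  have hD : 0 < D' := by
    have h1 : 0 < Th b := by unfold Th; positivity
    exact h1.trans_le (h.ls.bD.trans h.DD)
  have hmono : (bal K (PS K b M D) (ta K b f u) (tb K b f u') (K.a i) (rm z (K.a i))).card ≤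
      (bal K (PS K b M D) (ta K b f u) (tb K b f u') (K.a i)
        ((b : ℝ) ^ 16 * rp (z + 1) (K.a i))).card := by
    apply card_le_card
    intro q hq
    simp only [bal, mem_filter] at hq ⊢
    exact ⟨hq.1, hq.2.1.trans hcon, hq.2.2.trans hcon⟩
  have hmono' : ((bal K (PS K b M D) (ta K b f u) (tb K b f u') (K.a i)
      (rm z (K.a i))).card : ℝ) ≤ ((bal K (PS K b M D) (ta K b f u) (tb K b f u') (K.a i)
        ((b : ℝ) ^ 16 * rp (z + 1) (K.a i))).card : ℝ) := by exact_mod_cast hmono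
  set B1' : ℝ := ((bal K (PS K b M D) (ta K b f u) (tb K b f u') (K.a i)
      (rm z (K.a i))).card : ℝ)
  set B2 : ℝ := ((bal K (PS K b M D) (ta K b f u) (tb K b f u') (K.a i)
        ((b : ℝ) ^ 16 * rp (z + 1) (K.a i))).card : ℝ)
  set n : ℝ := (Fintype.card ι : ℝ)
  have hsplit : (b : ℝ) ^ (4 * (R * (z + 1))) = (b : ℝ) ^ (4 * (R * z)) * (b : ℝ) ^ (4 * R) := by
    rw [← pow_add]; congr 1; ring
  rw [hsplit] at e2
  have hP : 0 < (b : ℝ) ^ (4 * (R * z)) := by positivity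
  have hQ : 0 < (b : ℝ) ^ (4 * R) := by positivity
  have h3 : n * (b : ℝ) ^ (4 * R) ≤ D' * ρ ^ 2 * n := by
    calc n * (b : ℝ) ^ (4 * R)
        ≤ (D' * (b : ℝ) ^ (4 * (R * z)) * B1') * (b : ℝ) ^ (4 * R) :=
          mul_le_mul_of_nonneg_right e1 hQ.le
      _ ≤ (D' * (b : ℝ) ^ (4 * (R * z)) * B2) * (b : ℝ) ^ (4 * R) := by
          apply mul_le_mul_of_nonneg_right _ hQ.le
          exact mul_le_mul_of_nonneg_left hmono' (by positivity)
      _ = D' * ((b : ℝ) ^ (4 * (R * z)) * (b : ℝ) ^ (4 * R) * B2) := by ring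
      _ ≤ D' * (ρ ^ 2 * n) := mul_le_mul_of_nonneg_left e2 hD.le
      _ = _ := by ring
  have h4 : D' * ρ ^ 2 * n < n * (b : ℝ) ^ (4 * R) := by
    rw [mul_comm n]
    exact mul_lt_mul_of_pos_right hs hn
  exact absurd h3 (not_le.mpr h4)

end Pool.Agent.Work.MP_e17eac_co.HS
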