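import Pool.Agent.Work.MP_e17eac_co.HS.StC
import Pool.Agent.Work.MP_e17eac_co.Bd.B19

/-!
# HS: base lower bound for subsets and refined labels (item RLB)
-/

set_option autoImplicit false

namespace Pool.Agent.Work.MP_e17eac_co.HS

open Finset
open Pool.Agent.Work.MP_e17eac_co.DH
open Pool.Agent.Work.MP_e17eac_co.B1

namespace XRLB

variable {ι : Type} [Fintype ι] [DecidableEq ι]

theorem t_mono (K : KSys ι) {i j : ℕ} (hij : i ≤ j) (hj : j < K.N) : K.t i ≤ K.t j := by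
  rcases hij.lt_or_eq with h | h
  · exact (K.t_lt i j h hj).le
  · rw [h]

theorem ta_le (K : KSys ι) (b x c : ℕ) {i : ℕ} (hi : i < K.N) (hc : cell K b x i = c) :
    ta K b x c ≤ K.t i := by
  unfold ta
  exact t_mono K (Nat.sInf_le hc) hi

theorem le_tb (K : KSys ι) (b x c : ℕ) {i : ℕ} (hi : i < K.N) (hc : cell K b x i = c) :
    K.t i ≤ tb K b x c := by
  have hmem : i ∈ ce K b x c := mem_filter.mpr ⟨mem_range.mpr hi, hc⟩
  obtain ⟨s, hs, hsup⟩ := exists_mem_eq_sup (ce K b x c) ⟨i, hmem⟩ id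
  unfold tb
  rw [hsup]
  have h1 : i ≤ (ce K b x c).sup id := le_sup (f := id) hmem
  rw [hsup] at h1
  exact t_mono K h1 (mem_range.mp (mem_filter.mp hs).1)

/-- The cell `c` ends before the edges of the later cells. -/
theorem tb_le (K : KSys ι) (b x c c' : ℕ) (hcc : c < c')
    (hmono : ∀ i j, i ≤ j → cell K b x i ≤ cell K b x j) {i i' : ℕ} (hi : i < K.N)
    (hc : cell K b x i = c) (hi' : i' < K.N) (hc' : cell K b x i' = c') :
    tb K b x c ≤ K.t i' := by
  have hmem : i ∈ ce K b x c := mem_filter.mpr ⟨mem_range.mpr hi, hc⟩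
  obtain ⟨s, hs, hsup⟩ := exists_mem_eq_sup (ce K b x c) ⟨i, hmem⟩ id
  unfold tb
  rw [hsup]
  have hsc : cell K b x s = c := (mem_filter.mp hs).2
  refine t_mono K ?_ hi'
  by_contra hlt
  push Not at hlt
  have := hmono i' s hlt.le
  rw [hc', hsc] at this
  omega

end XRLB

open XRLB in
/-- **Base lower bound** for subsets and refined labels. -/
theorem I_RLB (hc : B1.StCell) : StRLB := by
  rintro ⟨C, hLB⟩
  refine ⟨C, ?_⟩
  intro ι α γ _ _ _ _ K hinj b M m R F ec D D' ρ L E E4 X4 U c f u u' rm rp h D1 ε k hD1 hBg hρ8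
    y hy hym E5 hE5 g hg1 hg2
  have hb2 : 2 ≤ b := h.ls.lev.two
  have hb1 : 1 ≤ b := by omega
  have hbR : (1 : ℝ) ≤ b := by exact_mod_cast hb1
  have hexy : ex R F (2 * y) = R * y := by
    unfold ex
    have h1 : 2 * y / 2 = y := by omega
    have h2 : 2 * y % 2 = 0 := by omega
    rw [h1, h2]; ring
  have hex0 : ex R F 0 = 0 := by simp [ex]
  have h5E : E5 ⊆ E := hE5.trans h.sub
  have hlt : ∀ i ∈ E5, i < K.N := fun i hi => (h.ls.hyg i (h5E hi)).lt
  have hfR : f ≤ R * y := h.fR.1.trans (Nat.le_mul_of_pos_right _ hy)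
  -- StLB at `x = 0`, `y = z = 2y`
  have hρ1 := h.one
  have hpow : ρ ^ 4 * (b : ℝ) ^ (ex R F 0 + ex R F (2 * y)) ≤
      (b : ℝ) ^ (2 * ex R F (2 * y)) := by
    rw [hex0, hexy, zero_add, two_mul, pow_add]
    refine mul_le_mul_of_nonneg_right ?_ (by positivity)
    calc ρ ^ 4 ≤ ρ ^ 8 := pow_le_pow_right₀ hρ1 (by norm_num)
      _ ≤ (b : ℝ) ^ R := hρ8
      _ ≤ (b : ℝ) ^ (R * y) := pow_le_pow_right₀ hbR (Nat.le_mul_of_pos_right _ hy)
  have hcnt : ∀ c : ℕ, (((E5.filter (fun i => cell K b (ex R F (2 * y)) i = c)).image g).card : ℝ)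
      ≤ D1 := by
    rw [hexy]; exact hg2
  have key := hLB ι α γ K hinj b M (2 * m + 1) (ex R F) ec D L E h.ls D1 ε ρ k (h.DD.trans hD1)
    hBg 0 (2 * y) (2 * y) (Nat.zero_le _) le_rfl (h.fine y hym) (h.fine y hym) hpow E5 h5E g g
    hg1 hg1 hcnt hcnt
  rw [hex0, hexy, pow_zero, mul_one] at key
  refine le_trans (mul_le_mul_of_nonneg_right (Nat.cast_le.mpr (card_le_card ?_))
    (Nat.cast_nonneg _)) key
  intro v hv
  rw [mem_filter] at hv
  obtain ⟨hv0, hva, hvu, hvu', hvc⟩ := hv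
  obtain ⟨hv1, hv2⟩ := mem_product.mp hv0
  have hn1 := hlt _ hv1
  have hn2 := hlt _ hv2
  classical
  refine mem_filter.mpr ⟨?_, ?_, ?_⟩
  · -- same cell at exponent 0
    obtain ⟨-, -, -, h0, -⟩ := hc ι K b 0 hb1
    exact mem_filter.mpr ⟨hv0, hva, by rw [h0 _ hn1, h0 _ hn2]⟩
  · -- separated
    left
    obtain ⟨-, hmono, -⟩ := hc ι K b f hb1
    obtain ⟨-, -, hnest, -⟩ := hc ι K b (R * y) hb1
    have hle : 2 * y ≤ 2 * m + 1 := by omega
    obtain ⟨k1, l1, hk1, hl1, hk1c, hl1c, hk1t, hl1t⟩ := h.ls.span (2 * y) hle _ (h5E hv1)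
    obtain ⟨k2, l2, hk2, hl2, hk2c, hl2c, hk2t, hl2t⟩ := h.ls.span (2 * y) hle _ (h5E hv2)
    rw [hexy] at hk1c hl1c hk2c hl2c
    have hn : ∀ i j, cell K b (R * y) i = cell K b (R * y) j → cell K b f i = cell K b f j := by
      intro i j hij
      rw [hnest f hfR i, hnest f hfR j, hij]
    have c1 : cell K b f k1 = u := (hn _ _ hk1c).trans hvu
    have c2 : cell K b f l1 = u := (hn _ _ hl1c).trans hvu
    have c3 : cell K b f k2 = u' := (hn _ _ hk2c).trans hvu'
    have c4 : cell K b f l2 = u' := (hn _ _ hl2c).trans hvu'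
    have t1 := ta_le K b f u hk1 c1
    have t2 := le_tb K b f u hl1 c2
    have t3 := ta_le K b f u' hk2 c3
    have t4 := le_tb K b f u' hl2 c4
    have t5 := tb_le K b f u u' h.rt.lt hmono hn1 hvu hn2 hvu'
    have t6 := le_tb K b f u' hn2 hvu'
    have l1' := h.ls.lt (2 * y) hle _ (h5E hv1)
    have l2' := h.ls.lt (2 * y) hle _ (h5E hv2)
    have hgap := h.rt.gap
    have hpos : 0 < (b : ℝ) := by linarith
    have hg0 : 0 < ta K b f u' - tb K b f u := by
      by_contra hcon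
      push Not at hcon
      have : (b : ℝ) * (ta K b f u' - tb K b f u) ≤ 0 :=
        mul_nonpos_of_nonneg_of_nonpos hpos.le hcon
      linarith
    have hmul : (b : ℝ) * (ta K b f u' - tb K b f u) ≤
        b * (L.h0 (L.lab (2 * y) v.2) - L.h1 (L.lab (2 * y) v.1)) := by
      refine mul_le_mul_of_nonneg_left ?_ hpos.le
      linarith
    refine ⟨by linarith, by linarith, by linarith⟩
  · -- the numbers
    have e1 : 2 * (R * y) + 2 * (R * y) = 4 * (R * y) := by ring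
    rw [e1]
    calc D1 ^ C * ((NN K E5 g v.1 ∩ NN K E5 g v.2).card : ℝ) * (b : ℝ) ^ (4 * (R * y))
        = D1 ^ C * (b : ℝ) ^ (4 * (R * y)) * ((NN K E5 g v.1 ∩ NN K E5 g v.2).card : ℝ) := by
          ring
      _ < ε ^ C * Fintype.card ι := hvc

end Pool.Agent.Work.MP_e17eac_co.HS
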