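import Pool.Agent.Work.MP_e17eac_co.HS.RadA

/-!
# HS, block HS-E: RADII
-/

set_option linter.unusedSectionVars false

namespace Pool.Agent.Work.MP_e17eac_co.HS

open Finset
open Pool.Agent.Work.MP_e17eac_co.DH
open Pool.Agent.Work.MP_e17eac_co.B1
open Pool.Agent.Work.MP_e17eac_co.DH.XSWEEP (GP)
open RAD

/-- The data of the abstract radii theorem. -/
noncomputable def datR {ι α : Type} [Fintype ι] [DecidableEq ι] [DecidableEq α] (K : KSys ι)
    (b M R fs G : ℕ) (L : Lb α) (E : Finset ℕ) : HSR.Dat ι where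
  a := K.a
  E := E
  P0 := PS K b M ((b : ℝ) ^ G)
  ht := K.ht
  lo := fun i => ta K b fs (cell K b fs i)
  hi := fun i => tb K b fs (cell K b fs i)
  h0 := fun z i => L.h0 (L.lab (2 * z) i)
  h1 := fun z i => L.h1 (L.lab (2 * z) i)
  rho := fun z i => L.rho (L.lab (2 * z) i)
  Nn := fun z i => NN K E (L.lab (2 * z)) i
  Rs := fun _ _ => PS K b M ((b : ℝ) ^ G)
  n := Fintype.card ι
  N := K.N
  b := b
  Q := b
  Th := 1
  L := fun z => (Fintype.card ι : ℝ) / (b : ℝ) ^ (4 * (R * z))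
  U := fun _ => Fintype.card ι

theorem ex_even (R F z : ℕ) : ex R F (2 * z) = R * z := by
  unfold ex
  have h1 : 2 * z / 2 = z := by omega
  have h2 : 2 * z % 2 = 0 := by omega
  rw [h1, h2]
  simp

theorem on_filter {ι : Type} [DecidableEq ι] (a : ℕ → ι) (E : Finset ℕ) (g : ℕ → ℕ) (u : ℕ)
    (p : ι) : HSR.on a (E.filter (fun i => g i = u)) p =
      E.filter (fun i => a i = p ∧ g i = u) := by
  unfold HSR.on
  ext i
  simp only [mem_filter]
  tauto

section inp

variable {ι α : Type} [Fintype ι] [DecidableEq ι] [DecidableEq α] {K : KSys ι}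
  {b M m R F fs G Gb : ℕ} {ec : ℕ → ℕ} {L : Lb α} {E : Finset ℕ} {ρ : ℝ}

open Classical in
theorem inp_R {cR : ℕ → ℕ} {CL k CB : ℕ} (hm : 1 ≤ m) (hb16 : 16 ≤ b) (hmb : m ≤ b)
    (hLS : LS K b M (2 * m + 1) (ex R F) ec ((b : ℝ) ^ G) L E)
    (hFine : ∀ z, z ≤ m → Fine b (2 * m + 1) (ex R F) ((b : ℝ) ^ G) (2 * z))
    (hfs : fs ≤ R)
    (hroot : ∀ g, g ≤ Gb → ∀ E' ⊆ E, (K.N : ℝ) ≤ (b : ℝ) ^ g * (E'.card : ℝ) →
      ∃ (f u u' : ℕ), ∃ E'' ⊆ E', f ≤ fs ∧ Rt K b f u u' ((b : ℝ) ^ cR g) E'')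
    (hLB : ∀ ε : ℝ, 0 < ε → Bg K b M (2 * m + 1) (ex R F) ((b : ℝ) ^ G) ε ρ k CL →
      ∀ y, Fine b (2 * m + 1) (ex R F) ((b : ℝ) ^ G) y →
      ρ ^ 4 * (b : ℝ) ^ (ex R F 0 + ex R F y) ≤ (b : ℝ) ^ (2 * ex R F y) →
      (((PP K b (ex R F 0) E).filter (fun u : ℕ × ℕ => Sep b L (L.lab y u.1) (L.lab y u.2) ∧
        ((b : ℝ) ^ G) ^ CL * ((NN K E (L.lab y) u.1 ∩ NN K E (L.lab y) u.2).card : ℝ) *
          (b : ℝ) ^ (2 * ex R F y + 2 * ex R F y) <
        ε ^ CL * (Fintype.card ι * (b : ℝ) ^ (ex R F 0)))).card : ℝ) *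
      (Fintype.card ι * (b : ℝ) ^ (ex R F 0)) ≤ ε * (K.N : ℝ) ^ 2)
    (hCB : (b : ℝ) ^ CB ≤ ρ) (hCB1 : (G + Gb + 1) * (CL * (k + 1)) ≤ CB)
    (hρR : ρ ^ 8 ≤ (b : ℝ) ^ R) (hit : (b : ℝ) ^ (4 * ex R F (2 * m + 1)) ≤ ρ ^ (2 ^ k))
    (hNN : (b : ℝ) ^ CB * (Fintype.card ι * (b : ℝ) ^ (5 * M)) ≤ K.N) :
    HSR.Inp cR (fun g => CL * (G + g + 1)) G m Gb (datR K b M R fs G L E) := by
  have hb1 : 1 ≤ b := by omega
  have hbr : (16 : ℝ) ≤ b := by exact_mod_cast hb16
  have hbr0 : (0 : ℝ) < b := by linarith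
  have hbr1 : (1 : ℝ) ≤ b := by linarith
  have hEN : ∀ i ∈ E, i < K.N := fun i hi => (hLS.hyg i hi).lt
  have hNpos : (0 : ℝ) < K.N := by exact_mod_cast hLS.npos
  have hlev0 : ∀ z, 1 ≤ z → z ≤ m → 2 * z ≤ 2 * m + 1 := fun z _ h => by omega
  have hhull : ∀ z, 1 ≤ z → z ≤ m → ∀ i ∈ E,
      ta K b fs (cell K b fs i) ≤ L.h0 (L.lab (2 * z) i) ∧
      L.h0 (L.lab (2 * z) i) ≤ L.h1 (L.lab (2 * z) i) ∧
      L.h1 (L.lab (2 * z) i) ≤ tb K b fs (cell K b fs i) := by
    intro z hz1 hzm i hi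
    obtain ⟨p, q, hp, hq, hcp, hcq, h1, h2⟩ := hLS.span (2 * z) (hlev0 z hz1 hzm) i hi
    rw [ex_even] at hcp hcq
    have hfz : fs ≤ R * z := hfs.trans (Nat.le_mul_of_pos_right _ hz1)
    have e1 := ccoarse K hb1 hfz hcp
    have e2 := ccoarse K hb1 hfz hcq
    have e3 := ta_le K b fs hp
    have e4 := le_tb K b fs hq
    rw [e1] at e3
    rw [e2] at e4
    exact ⟨e3.trans h1, (hLS.lt (2 * z) (hlev0 z hz1 hzm) i hi).le, h2.trans e4⟩
  have hNNsub : ∀ z, 1 ≤ z → z ≤ m → ∀ i ∈ E, NN K E (L.lab (2 * z)) i ⊆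
      PS K b M ((b : ℝ) ^ G) := by
    intro z _ _ i _ q hq
    unfold NN at hq
    rw [mem_image] at hq
    obtain ⟨i', hi', rfl⟩ := hq
    exact (hLS.hyg i' (mem_filter.1 hi').1).ps false
  constructor
  · exact hbr
  · show (m : ℝ) ≤ (b : ℝ)
    exact_mod_cast hmb
  · exact hbr1
  · exact le_rfl
  · exact hNpos
  · exact le_rfl
  · exact hLS.big
  · -- degrees
    intro p
    show ((HSR.on K.a E p).card : ℝ) * (Fintype.card ι : ℝ) ≤ (b : ℝ) ^ G * (K.N : ℝ)
    rcases (HSR.on K.a E p).eq_empty_or_nonempty with h | ⟨i, hi⟩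
    · rw [h]
      simp only [card_empty, Nat.cast_zero, zero_mul]
      positivity
    · have hi' := HSR.mem_on.1 hi
      have hl := (hLS.hyg i hi'.1).light false 0 (Nat.zero_le _)
      rw [pow_zero, mul_one] at hl
      refine le_trans ?_ hl
      apply mul_le_mul_of_nonneg_right _ (Nat.cast_nonneg _)
      have : (HSR.on K.a E p) ⊆ (range K.N).filter (fun j => K.ln false j = K.ln false i ∧
          cell K b 0 j = cell K b 0 i) := by
        intro j hj
        have hj' := HSR.mem_on.1 hj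
        rw [mem_filter]
        refine ⟨mem_range.2 (hEN j hj'.1), ?_, ?_⟩
        · show K.a j = K.a i
          rw [hj'.2, hi'.2]
        · rw [czero K b (hEN j hj'.1), czero K b (hEN i hi'.1)]
      exact_mod_cast card_le_card this
  · intro p
    exact ⟨K.y p, K.x p, fun s => rfl⟩
  · exact hhull
  · intro i hi
    exact ta_le_tb K b fs (hEN i hi)
  · intro z hz1 hzm i hi
    exact hLS.pos (2 * z) (hlev0 z hz1 hzm) i hi
  · exact hNNsub
  · -- near
    intro z hz1 hzm i hi r hr s hs0 hs1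
    have hr' : r ∈ NN K E (L.lab (2 * z)) i := hr
    unfold NN at hr'
    rw [mem_image] at hr'
    obtain ⟨i', hi', rfl⟩ := hr'
    have hi'2 := mem_filter.1 hi'
    have c1 := hLS.cls (2 * z) (hlev0 z hz1 hzm) i hi
    have c2 := hLS.cls (2 * z) (hlev0 z hz1 hzm) i' hi'2.1
    rw [hi'2.2] at c2
    refine ht_bd K (s0 := L.h0 (L.lab (2 * z) i)) (e0 := L.h1 (L.lab (2 * z) i)) ?_ ?_ hs0 hs1
    · show |K.ht (K.a i') (L.h0 (L.lab (2 * z) i)) - K.ht (K.a i) (L.h0 (L.lab (2 * z) i))| ≤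
        L.rho (L.lab (2 * z) i)
      have e : K.ht (K.a i') (L.h0 (L.lab (2 * z) i)) - K.ht (K.a i) (L.h0 (L.lab (2 * z) i)) =
          (K.ht (K.a i') (L.h0 (L.lab (2 * z) i)) - L.c0 (L.lab (2 * z) i)) -
          (K.ht (K.a i) (L.h0 (L.lab (2 * z) i)) - L.c0 (L.lab (2 * z) i)) := by ring
      rw [e]
      refine (abs_sub _ _).trans ?_
      linarith [c1.1, c2.1]
    · show |K.ht (K.a i') (L.h1 (L.lab (2 * z) i)) - K.ht (K.a i) (L.h1 (L.lab (2 * z) i))| ≤
        L.rho (L.lab (2 * z) i)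
      have e : K.ht (K.a i') (L.h1 (L.lab (2 * z) i)) - K.ht (K.a i) (L.h1 (L.lab (2 * z) i)) =
          (K.ht (K.a i') (L.h1 (L.lab (2 * z) i)) - L.c1 (L.lab (2 * z) i)) -
          (K.ht (K.a i) (L.h1 (L.lab (2 * z) i)) - L.c1 (L.lab (2 * z) i)) := by ring
      rw [e]
      refine (abs_sub _ _).trans ?_
      linarith [c1.2, c2.2]
  · intro z _ _ i _ r hr _
    exact hr
  · -- root
    intro g hg E' hE' hd
    obtain ⟨f, u, u', E'', hE'', hf, hRt⟩ := hroot g hg E' hE' hd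
    have hE''E : E'' ⊆ E := hE''.trans hE'
    refine ⟨E''.filter (fun i => cell K b f i = u), E''.filter (fun i => cell K b f i = u'),
      (filter_subset _ _).trans hE'', (filter_subset _ _).trans hE'', ⟨?_, ?_⟩, ?_, ?_⟩
    · intro i hi j hj
      obtain ⟨hi1, hi2⟩ := mem_filter.1 hi
      obtain ⟨hj1, hj2⟩ := mem_filter.1 hj
      show tb K b fs (cell K b fs i) < ta K b fs (cell K b fs j)
      apply tb_lt_ta K b fs (hEN i (hE''E hi1)) (hEN j (hE''E hj1))
      by_contra hcon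
      push Not at hcon
      have e := Nat.div_le_div_right (c := b ^ (4 * (fs - f))) hcon
      rw [← cdiv K hb1 hf, ← cdiv K hb1 hf, hi2, hj2] at e
      have := hRt.lt
      omega
    · intro i hi i' hi' j hj j' hj'
      obtain ⟨hi1, hi2⟩ := mem_filter.1 hi
      obtain ⟨hi'1, hi'2⟩ := mem_filter.1 hi'
      obtain ⟨hj1, hj2⟩ := mem_filter.1 hj
      obtain ⟨hj'1, hj'2⟩ := mem_filter.1 hj'
      have e1 := ta_nest K hb1 hf (hEN i' (hE''E hi'1))
      have e2 := tb_nest K hb1 hf (hEN i (hE''E hi1))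
      have e3 := ta_nest K hb1 hf (hEN j (hE''E hj1))
      have e4 := tb_nest K hb1 hf (hEN j' (hE''E hj'1))
      rw [hi'2] at e1
      rw [hi2] at e2
      rw [hj2] at e3
      rw [hj'2] at e4
      show tb K b fs (cell K b fs j') - ta K b fs (cell K b fs i') ≤
        (b : ℝ) * (ta K b fs (cell K b fs j) - tb K b fs (cell K b fs i))
      have e5 := hRt.gap
      have e6 : (b : ℝ) * (ta K b f u' - tb K b f u) ≤
          (b : ℝ) * (ta K b fs (cell K b fs j) - tb K b fs (cell K b fs i)) :=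
        mul_le_mul_of_nonneg_left (by linarith) hbr0.le
      linarith
    · intro i hi
      have hiE'' : i ∈ E'' := by
        rcases mem_union.1 hi with h | h
        · exact (mem_filter.1 h).1
        · exact (mem_filter.1 h).1
      show (K.N : ℝ) ≤ (b : ℝ) ^ cR g * (Fintype.card ι : ℝ) *
        ((HSR.on K.a (E''.filter (fun i => cell K b f i = u)) (K.a i)).card : ℝ) ∧
        (K.N : ℝ) ≤ (b : ℝ) ^ cR g * (Fintype.card ι : ℝ) *
        ((HSR.on K.a (E''.filter (fun i => cell K b f i = u')) (K.a i)).card : ℝ)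
      rw [on_filter, on_filter]
      exact ⟨hRt.ql i hiE'', hRt.qr i hiE''⟩
    · have : E''.filter (fun i => cell K b f i = u) ∪ E''.filter (fun i => cell K b f i = u') =
          E'' := by
        ext i
        rw [mem_union, mem_filter, mem_filter]
        constructor
        · rintro (h | h)
          · exact h.1
          · exact h.1
        · intro h
          rcases hRt.mem i h with h' | h'
          · exact Or.inl ⟨h, h'⟩
          · exact Or.inr ⟨h, h'⟩
      show (K.N : ℝ) ≤ (b : ℝ) ^ cR g *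
        ((E''.filter (fun i => cell K b f i = u) ∪ E''.filter (fun i => cell K b f i = u')).card :
          ℝ)
      rw [this]
      exact hRt.big
  · -- lower bound
    intro g hg z hz1 hzm Q hQ hd
    by_contra hcon
    push Not at hcon
    set ε : ℝ := 1 / (b : ℝ) ^ (g + 1) with hε
    have hε0 : 0 < ε := by positivity
    have hBg : Bg K b M (2 * m + 1) (ex R F) ((b : ℝ) ^ G) ε ρ k CL := by
      have hpw : ((b : ℝ) ^ G / ε) ^ (CL * (k + 1)) ≤ (b : ℝ) ^ CB := by
        have e1 : (b : ℝ) ^ G / ε = (b : ℝ) ^ (G + g + 1) := by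
          rw [hε, div_div_eq_mul_div, div_one, ← pow_add]
          congr 1
        rw [e1, ← pow_mul]
        apply pow_le_pow_right₀ hbr1
        refine le_trans (Nat.mul_le_mul_right _ ?_) hCB1
        omega
      refine ⟨hε0, ?_, hpw.trans hCB, hit, ?_⟩
      · rw [hε, div_le_one (by positivity)]
        exact one_le_pow₀ hbr1
      · refine le_trans ?_ hNN
        exact mul_le_mul_of_nonneg_right hpw (by positivity)
    have hρ1 : 1 ≤ ρ := le_trans (one_le_pow₀ hbr1) hCB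
    have h4 : ρ ^ 4 * (b : ℝ) ^ (ex R F 0 + ex R F (2 * z)) ≤
        (b : ℝ) ^ (2 * ex R F (2 * z)) := by
      have e0 : ex R F 0 = 0 := by
        unfold ex
        simp
      rw [ex_even, e0, zero_add]
      have e1 : ρ ^ 4 ≤ (b : ℝ) ^ (R * z) := by
        calc ρ ^ 4 ≤ ρ ^ 8 := pow_le_pow_right₀ hρ1 (by norm_num)
          _ ≤ (b : ℝ) ^ R := hρR
          _ ≤ (b : ℝ) ^ (R * z) := pow_le_pow_right₀ hbr1 (Nat.le_mul_of_pos_right _ hz1)
      calc ρ ^ 4 * (b : ℝ) ^ (R * z) ≤ (b : ℝ) ^ (R * z) * (b : ℝ) ^ (R * z) :=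
            mul_le_mul_of_nonneg_right e1 (by positivity)
        _ = (b : ℝ) ^ (2 * (R * z)) := by rw [two_mul, pow_add]
    have hmain := hLB ε hε0 hBg (2 * z) (hFine z hzm) h4
    have hex0 : ex R F 0 = 0 := by
      unfold ex
      simp
    rw [hex0] at hmain
    rw [pow_zero, mul_one] at hmain
    have hsub : Q ⊆ (PP K b 0 E).filter (fun u : ℕ × ℕ =>
        Sep b L (L.lab (2 * z) u.1) (L.lab (2 * z) u.2) ∧
        ((b : ℝ) ^ G) ^ CL * ((NN K E (L.lab (2 * z)) u.1 ∩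
          NN K E (L.lab (2 * z)) u.2).card : ℝ) *
          (b : ℝ) ^ (2 * ex R F (2 * z) + 2 * ex R F (2 * z)) <
        ε ^ CL * (Fintype.card ι : ℝ)) := by
      intro x hx
      obtain ⟨hx1, hx2, hxa, hxs⟩ := hQ x hx
      have hx1' : x.1 ∈ E := hx1
      have hx2' : x.2 ∈ E := hx2
      have hxL := hcon x hx
      rw [mem_filter]
      refine ⟨?_, ?_, ?_⟩
      · unfold PP
        rw [mem_filter, mem_product]
        exact ⟨⟨hx1', hx2'⟩, hxa, by rw [czero K b (hEN _ hx1'), czero K b (hEN _ hx2')]⟩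
      · left
        exact hxs
      · have hxL' : (b : ℝ) ^ (CL * (G + g + 1)) *
            ((NN K E (L.lab (2 * z)) x.1 ∩ NN K E (L.lab (2 * z)) x.2).card : ℝ) <
            (Fintype.card ι : ℝ) / (b : ℝ) ^ (4 * (R * z)) := hxL
        rw [lt_div_iff₀ (by positivity)] at hxL'
        rw [ex_even]
        have e1 : 2 * (R * z) + 2 * (R * z) = 4 * (R * z) := by ring
        rw [e1]
        have e2 : (b : ℝ) ^ (CL * (G + g + 1)) = ((b : ℝ) ^ G) ^ CL * ((b : ℝ) ^ (g + 1)) ^ CL := by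
          rw [← pow_mul, ← pow_mul, ← pow_add]
          congr 1
          ring
        have hW : (0 : ℝ) < ((b : ℝ) ^ (g + 1)) ^ CL := by positivity
        have e3 : ε ^ CL = 1 / ((b : ℝ) ^ (g + 1)) ^ CL := by
          rw [hε, div_pow, one_pow]
        rw [e3, div_mul_eq_mul_div, one_mul, lt_div_iff₀ hW]
        rw [e2] at hxL'
        calc _ = ((b : ℝ) ^ G) ^ CL * ((b : ℝ) ^ (g + 1)) ^ CL *
            ((NN K E (L.lab (2 * z)) x.1 ∩ NN K E (L.lab (2 * z)) x.2).card : ℝ) *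
            (b : ℝ) ^ (4 * (R * z)) := by ring
          _ < _ := hxL'
    have hc : (Q.card : ℝ) ≤ (((PP K b 0 E).filter (fun u : ℕ × ℕ =>
        Sep b L (L.lab (2 * z) u.1) (L.lab (2 * z) u.2) ∧
        ((b : ℝ) ^ G) ^ CL * ((NN K E (L.lab (2 * z)) u.1 ∩
          NN K E (L.lab (2 * z)) u.2).card : ℝ) *
          (b : ℝ) ^ (2 * ex R F (2 * z) + 2 * ex R F (2 * z)) <
        ε ^ CL * (Fintype.card ι : ℝ))).card : ℝ) := by exact_mod_cast card_le_card hsub
    have hd' : (K.N : ℝ) ^ 2 ≤ (b : ℝ) ^ g * (Fintype.card ι : ℝ) * (Q.card : ℝ) := hd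
    have k1 : (Q.card : ℝ) * (Fintype.card ι : ℝ) ≤ ε * (K.N : ℝ) ^ 2 :=
      (mul_le_mul_of_nonneg_right hc (Nat.cast_nonneg _)).trans hmain
    have k2 : (K.N : ℝ) ^ 2 ≤ (b : ℝ) ^ g * (ε * (K.N : ℝ) ^ 2) := by
      calc (K.N : ℝ) ^ 2 ≤ (b : ℝ) ^ g * (Fintype.card ι : ℝ) * (Q.card : ℝ) := hd'
        _ = (b : ℝ) ^ g * ((Q.card : ℝ) * (Fintype.card ι : ℝ)) := by ring
        _ ≤ _ := mul_le_mul_of_nonneg_left k1 (by positivity)
    have k3 : (b : ℝ) ^ g * (ε * (K.N : ℝ) ^ 2) = (K.N : ℝ) ^ 2 / b := by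
      rw [hε, pow_succ]
      field_simp
    rw [k3] at k2
    have k4 : (K.N : ℝ) ^ 2 / b < (K.N : ℝ) ^ 2 := by
      rw [div_lt_iff₀ hbr0]
      have : (0 : ℝ) < (K.N : ℝ) ^ 2 := by positivity
      nlinarith
    linarith
  · -- p2 (trivial)
    intro g _ z _ _ Fs _ Y hY hYc
    have hYne : Y.Nonempty := by
      rw [nonempty_iff_ne_empty]
      intro h0
      have hYc' : (Fintype.card ι : ℝ) ≤ (b : ℝ) ^ g * (Y.card : ℝ) := hYc
      rw [h0] at hYc'
      simp only [card_empty, Nat.cast_zero, mul_zero] at hYc'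
      have hc0 : (Fintype.card ι : ℝ) = 0 := le_antisymm hYc' (Nat.cast_nonneg _)
      have hbig := hLS.big
      have hE0 : E.Nonempty := by
        rw [nonempty_iff_ne_empty]
        intro h
        rw [h] at hbig
        simp only [card_empty, Nat.cast_zero, mul_zero] at hbig
        linarith
      obtain ⟨i, _⟩ := hE0
      have : 0 < Fintype.card ι := Fintype.card_pos_iff.2 ⟨K.a i⟩
      have : (0 : ℝ) < (Fintype.card ι : ℝ) := by exact_mod_cast this
      linarith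
    obtain ⟨p, hp⟩ := hYne
    refine ⟨p, hp, ?_⟩
    show _ ≤ (Fintype.card ι : ℝ)
    exact_mod_cast card_le_univ _

end inp

/-- **RADII.** -/
theorem I_Rad : StRad := by
  classical
  intro hLB0 hP20 hGR m G hm hG64
  obtain ⟨CL, hLB⟩ := hLB0
  obtain ⟨C2, hP2⟩ := hP20
  have hroot0 := fun g : ℕ => hGR 0 (max g G) 0
  choose rc rf rG hr1 hr2 hr3 hroot using hroot0
  obtain ⟨Gb, C, g', hiter⟩ := HSR.iter rG (fun g => CL * (G + g + 1)) G m
  set fs : ℕ := (range (Gb + 1)).sup (fun g => max (rc g) (rf g)) with hfs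
  have hfsg : ∀ g, g ≤ Gb → rc g ≤ fs ∧ rf g ≤ fs := by
    intro g hg
    have h1 : max (rc g) (rf g) ≤ fs :=
      le_sup (f := fun g => max (rc g) (rf g)) (mem_range.2 (by omega))
    exact ⟨(le_max_left _ _).trans h1, (le_max_right _ _).trans h1⟩
  obtain ⟨c, f, G2, hc1, hff, hG2, hGRm⟩ := hGR m (max g' G) fs
  refine ⟨c, f, max G (max G2 C), le_max_left _ _, fun k C4 => ?_⟩
  set E2 : ℕ := C4 + 2 + G2 with hE2
  set CB : ℕ := (G + Gb + E2 + 1) * ((CL + C2) * (k + 1)) with hCBdef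
  refine ⟨CB, fun η hη => ?_⟩
  have hrn0 := fun g : ℕ => hroot g η hη
  choose rn hrn using hrn0
  obtain ⟨nF, hnF⟩ := hGRm η hη
  have htend : Filter.Tendsto (fun n : ℕ => (n : ℝ) ^ η) Filter.atTop Filter.atTop :=
    (tendsto_rpow_atTop hη).comp tendsto_natCast_atTop_atTop
  obtain ⟨n2, hn2⟩ := Filter.eventually_atTop.1
    (htend.eventually_ge_atTop ((16 + m : ℕ) : ℝ))
  refine ⟨max ((range (Gb + 1)).sup rn) (max nF n2), ?_⟩
  intro ι α _ _ _ K hx hgp hn b hb hbN R M F ec L E ρ hcR hfR hFR hRM hbM hLS hFine hCB hρR hit hNN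
  have hnn1 : ∀ g, g ≤ Gb → rn g ≤ Fintype.card ι := fun g hg =>
    (le_sup (f := rn) (mem_range.2 (by omega))).trans ((le_max_left _ _).trans hn)
  have hnnF : nF ≤ Fintype.card ι := ((le_max_left _ _).trans (le_max_right _ _)).trans hn
  have hnn2 : n2 ≤ Fintype.card ι := ((le_max_right _ _).trans (le_max_right _ _)).trans hn
  have hb16m : 16 + m ≤ b := by
    have := (hn2 _ hnn2).trans hb
    exact_mod_cast this
  have hb16 : 16 ≤ b := by omega
  have hmb : m ≤ b := by omega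
  have hb1 : 1 ≤ b := by omega
  have hbr : (16 : ℝ) ≤ b := by exact_mod_cast hb16
  have hbr0 : (0 : ℝ) < b := by linarith
  have hbr1 : (1 : ℝ) ≤ b := by linarith
  have hEN : ∀ i ∈ E, i < K.N := fun i hi => (hLS.hyg i hi).lt
  have hNpos : (0 : ℝ) < K.N := by exact_mod_cast hLS.npos
  have hfsR : fs ≤ R := hff.trans hfR
  have hlev0 : ∀ z, 1 ≤ z → z ≤ m → 2 * z ≤ 2 * m + 1 := fun z _ h => by omega
  have hρ1 : 1 ≤ ρ := le_trans (one_le_pow₀ hbr1) hCB
  have hG0 : (0 : ℝ) < (b : ℝ) ^ G := by positivity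
  -- the roots
  have hrootX : ∀ g, g ≤ Gb → ∀ E' ⊆ E, (K.N : ℝ) ≤ (b : ℝ) ^ g * (E'.card : ℝ) →
      ∃ (f u u' : ℕ), ∃ E'' ⊆ E', f ≤ fs ∧ Rt K b f u u' ((b : ℝ) ^ rG g) E'' := by
    intro g hg E' hE' hd
    obtain ⟨h1, h2⟩ := hfsg g hg
    obtain ⟨E'', hE'', U, u, u', hRt, -⟩ := hrn g ι K hx hgp (hnn1 g hg) b hb hbN R M
      (h1.trans hfsR) (h2.trans hfsR) (by rw [mul_zero, zero_add]; omega) hbM E'
      (hd.trans (mul_le_mul_of_nonneg_right (pow_le_pow_right₀ hbr1 (le_max_left _ _))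
        (Nat.cast_nonneg _)))
      (fun i hi => Hyg_mono (pow_le_pow_right₀ hbr1 (le_max_right _ _)) (hLS.hyg i (hE' hi)))
    exact ⟨rf g, u, u', E'', hE'', h2, hRt⟩
  have hInp : HSR.Inp rG (fun g => CL * (G + g + 1)) G m Gb (datR K b M R fs G L E) := by
    refine inp_R (k := k) (CB := CB) (ρ := ρ) hm hb16 hmb hLS hFine hfsR hrootX ?_ hCB ?_ hρR
      hit hNN
    · intro ε _ hBg y hy hpow
      exact hLB ι α α K hx b M (2 * m + 1) (ex R F) ec ((b : ℝ) ^ G) L E hLS ((b : ℝ) ^ G) ε ρ k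
        le_rfl hBg 0 y y (Nat.zero_le _) le_rfl hy hy hpow E (Subset.refl _) (L.lab y) (L.lab y)
        (fun _ _ _ _ h => h) (fun _ _ _ _ h => h)
        (fun c => hLS.few y (by have := hy.1; omega) c)
        (fun c => hLS.few y (by have := hy.1; omega) c)
    · rw [hCBdef]
      exact Nat.mul_le_mul (by omega) (Nat.mul_le_mul_right _ (Nat.le_add_right _ _))
  obtain ⟨E', hE', hd', hlow⟩ := hiter ι (datR K b M R fs G L E) m le_rfl hInp
  have hE'E : E' ⊆ E := hE'
  have hd'' : (K.N : ℝ) ≤ (b : ℝ) ^ g' * (E'.card : ℝ) := hd'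
  obtain ⟨E4, hE4, U, u, u', hRt, hTw⟩ := hnF ι K hx hgp hnnF b hb hbN R M hcR hfR hRM hbM E'
      (hd''.trans (mul_le_mul_of_nonneg_right (pow_le_pow_right₀ hbr1 (le_max_left _ _))
        (Nat.cast_nonneg _)))
      (fun i hi => Hyg_mono (pow_le_pow_right₀ hbr1 (le_max_right _ _)) (hLS.hyg i (hE'E hi)))
  have hE4E : E4 ⊆ E := hE4.trans hE'E
  have hE4ne : E4.Nonempty := by
    rw [nonempty_iff_ne_empty]
    intro h0
    have := hRt.big
    rw [h0] at this
    simp only [card_empty, Nat.cast_zero, mul_zero] at this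
    linarith
  have hE4N : (E4.card : ℝ) ≤ K.N := by
    have : E4.card ≤ K.N := by
      calc E4.card ≤ (range K.N).card := card_le_card (fun i hi => mem_range.2 (hEN i (hE4E hi)))
        _ = K.N := card_range _
    exact_mod_cast this
  -- edges in both base cells
  have hne_l : ∀ i ∈ E4, ∃ j ∈ E4, K.a j = K.a i ∧ cell K b f j = u := by
    intro i hi
    have h := hRt.ql i hi
    by_contra hcon
    push Not at hcon
    have : E4.filter (fun i' => K.a i' = K.a i ∧ cell K b f i' = u) = ∅ := by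
      rw [filter_eq_empty_iff]
      rintro j hj ⟨h1, h2⟩
      exact hcon j hj h1 h2
    rw [this] at h
    simp only [card_empty, Nat.cast_zero, mul_zero] at h
    linarith
  have hne_r : ∀ i ∈ E4, ∃ j ∈ E4, K.a j = K.a i ∧ cell K b f j = u' := by
    intro i hi
    have h := hRt.qr i hi
    by_contra hcon
    push Not at hcon
    have : E4.filter (fun i' => K.a i' = K.a i ∧ cell K b f i' = u') = ∅ := by
      rw [filter_eq_empty_iff]
      rintro j hj ⟨h1, h2⟩
      exact hcon j hj h1 h2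
    rw [this] at h
    simp only [card_empty, Nat.cast_zero, mul_zero] at h
    linarith
  obtain ⟨ie, hie⟩ := hE4ne
  obtain ⟨i0, hi0, -, hi0u⟩ := hne_l ie hie
  obtain ⟨j0, hj0, -, hj0u⟩ := hne_r ie hie
  -- the base interval contains the cells of the edges of `E4`
  have hin : ∀ i ∈ E4, ta K b f u ≤ ta K b f (cell K b f i) ∧
      tb K b f (cell K b f i) ≤ tb K b f u' := by
    intro i hi
    have hlt : tb K b f u < ta K b f u' := by
      have := tb_lt_ta K b f (hEN i0 (hE4E hi0)) (hEN j0 (hE4E hj0))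
        (by rw [hi0u, hj0u]; exact hRt.lt)
      rw [hi0u, hj0u] at this
      exact this
    have h1 : ta K b f u ≤ tb K b f u := by
      have := ta_le_tb K b f (hEN i0 (hE4E hi0))
      rw [hi0u] at this
      exact this
    have h2 : ta K b f u' ≤ tb K b f u' := by
      have := ta_le_tb K b f (hEN j0 (hE4E hj0))
      rw [hj0u] at this
      exact this
    rcases hRt.mem i hi with h | h
    · rw [h]
      exact ⟨le_rfl, by linarith⟩
    · rw [h]
      exact ⟨by linarith, le_rfl⟩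
  -- lower radii
  have hchoose : ∀ z, ∃ rm : ι → ℝ, 1 ≤ z → z ≤ m → ∀ i ∈ E', 0 < rm (K.a i) ∧
      rm (K.a i) ≤ 3 * b * L.rho (L.lab (2 * z) i) ∧
      (Fintype.card ι : ℝ) / (b : ℝ) ^ (4 * (R * z)) ≤ (b : ℝ) ^ C *
        (HSR.massE (datR K b M R fs G L E) E' (K.a i) (rm (K.a i)) : ℝ) := by
    intro z
    by_cases hz : 1 ≤ z ∧ z ≤ m
    · obtain ⟨rm, hrm⟩ := hlow z hz.1 hz.2
      exact ⟨rm, fun _ _ => hrm⟩
    · exact ⟨fun _ => 0, fun h1 h2 => absurd ⟨h1, h2⟩ hz⟩
  choose rm hrm using hchoose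
  -- quantiles
  set κ : ℝ := 1 / (b : ℝ) ^ (C4 + 2) with hκ
  have hκ0 : 0 < κ := by positivity
  have hκ1 : κ ≤ 1 := by
    rw [hκ, div_le_one (by positivity)]
    exact one_le_pow₀ hbr1
  have hq : ∀ z p, ∃ i0, p ∈ E4.image K.a → i0 ∈ HSR.on K.a E4 p ∧
      κ * ((HSR.on K.a E4 p).card : ℝ) ≤
        (((HSR.on K.a E4 p).filter (fun i => L.rho (L.lab (2 * z) i0) ≤
          L.rho (L.lab (2 * z) i))).card : ℝ) ∧
      (((HSR.on K.a E4 p).filter (fun i => L.rho (L.lab (2 * z) i0) <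
          L.rho (L.lab (2 * z) i))).card : ℝ) ≤ κ * ((HSR.on K.a E4 p).card : ℝ) := by
    intro z p
    by_cases hp : p ∈ E4.image K.a
    · have hh : (HSR.on K.a E4 p).Nonempty := by
        rw [mem_image] at hp
        obtain ⟨i, hi, hip⟩ := hp
        exact ⟨i, HSR.mem_on.2 ⟨hi, hip⟩⟩
      obtain ⟨i0, h0, h1, h2⟩ := HSR.quant (HSR.on K.a E4 p)
        (fun i => L.rho (L.lab (2 * z) i)) κ hκ0 hκ1 hh
      exact ⟨i0, fun _ => ⟨h0, h1, h2⟩⟩
    · exact ⟨0, fun h' => absurd h' hp⟩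
  choose iq hiq using hq
  set rp : ℕ → ι → ℝ := fun z p => L.rho (L.lab (2 * z) (iq z p)) with hrp
  -- exceptional edges of P2
  set ε : ℝ := 1 / (b : ℝ) ^ E2 with hε
  have hε0 : 0 < ε := by positivity
  have hBg : Bg K b M (2 * m + 1) (ex R F) ((b : ℝ) ^ G) ε ρ k C2 := by
    have hpw : ((b : ℝ) ^ G / ε) ^ (C2 * (k + 1)) ≤ (b : ℝ) ^ CB := by
      have e1 : (b : ℝ) ^ G / ε = (b : ℝ) ^ (G + E2) := by
        rw [hε, div_div_eq_mul_div, div_one, ← pow_add]
      rw [e1, ← pow_mul]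
      apply pow_le_pow_right₀ hbr1
      rw [hCBdef]
      exact Nat.mul_le_mul (by omega) (Nat.mul_le_mul_right _ (Nat.le_add_left _ _))
    refine ⟨hε0, ?_, hpw.trans hCB, hit, ?_⟩
    · rw [hε, div_le_one (by positivity)]
      exact one_le_pow₀ hbr1
    · refine le_trans ?_ hNN
      exact mul_le_mul_of_nonneg_right hpw (by positivity)
  have hex0 : ex R F 0 = 0 := by
    unfold ex
    simp
  have hXc : ∀ z, ∃ X : Finset ℕ, (X.card : ℝ) ≤ ε * K.N ∧ (1 ≤ z → z ≤ m → ∀ i ∈ E4 \ X,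
      ∀ A ⊆ E4, (∀ i' ∈ A, K.a i' = K.a i) → ε * K.N ≤ Fintype.card ι * (A.card : ℝ) →
      ((HH K b M ((b : ℝ) ^ G) L 0 (2 * z) A i).card : ℝ) ≤
        ρ ^ 2 * ((Fintype.card ι : ℝ) / (b : ℝ) ^ (4 * (R * z)))) := by
    intro z
    by_cases hz : 1 ≤ z ∧ z ≤ m
    · obtain ⟨X, -, hX, hX2⟩ := hP2 ι α K hx b M (2 * m + 1) (ex R F) ec ((b : ℝ) ^ G) L E hLS
        ε ρ k hBg 0 (2 * z) (Nat.zero_le _) (hlev0 z hz.1 hz.2)
      refine ⟨X, hX, fun _ _ i hi A hA hAa hAc => ?_⟩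
      obtain ⟨hi1, hi2⟩ := mem_sdiff.1 hi
      have h := hX2 i (mem_sdiff.2 ⟨hE4E hi1, hi2⟩) A (by
        intro i' hi'
        unfold EE
        rw [mem_filter, hex0]
        exact ⟨hE4E (hA hi'), hAa i' hi', by
          rw [czero K b (hEN _ (hE4E (hA hi'))), czero K b (hEN _ (hE4E hi1))]⟩) (by
        rw [hex0, pow_zero, mul_one]
        exact hAc)
      unfold mm at h
      rw [hex0, ex_even, pow_zero, mul_one] at h
      exact h
    · exact ⟨∅, by simp only [card_empty, Nat.cast_zero]; positivity,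
        fun h1 h2 => absurd ⟨h1, h2⟩ hz⟩
  choose XX hXX1 hXX2 using hXc
  set Bad : ℕ → Prop := fun i => (∃ z ∈ Icc 1 m, i ∈ XX z) ∨
    (∃ z ∈ Icc 1 m, rp z (K.a i) < L.rho (L.lab (2 * z) i)) with hBad
  set X4 := E4.filter Bad with hX4
  refine ⟨E4, X4, U, u, u', rm, rp, ?_, ?_⟩
  · -- the structure
    constructor
    · exact hLS
    · exact hFine
    · exact pow_le_pow_right₀ hbr1 (le_max_left _ _)
    · exact hρ1
    · exact hE4E
    · exact Rt_mono (pow_le_pow_right₀ hbr1 ((le_max_left _ _).trans (le_max_right _ _))) hRt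
    · exact ⟨hfR, hcR, hFR⟩
    · intro x hx1 hxm
      exact TwoP_mono (pow_le_pow_right₀ hbr1 ((le_max_left _ _).trans (le_max_right _ _)))
        (hTw x hx1 hxm)
    · intro z hz1 hzm i hi
      exact (hrm z hz1 hzm i (hE4 hi)).1
    · intro z hz1 hzm i hi
      exact (hrm z hz1 hzm i (hE4 hi)).2.1
    · -- lower masses
      intro z hz1 hzm i hi
      have h := (hrm z hz1 hzm i (hE4 hi)).2.2
      rw [div_le_iff₀ (by positivity)] at h
      refine h.trans ?_
      have e1 : HSR.massE (datR K b M R fs G L E) E' (K.a i) (rm z (K.a i)) ≤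
          (bal K (PS K b M ((b : ℝ) ^ G)) (ta K b f u) (tb K b f u') (K.a i)
            (rm z (K.a i))).card := by
        unfold HSR.massE bal
        apply card_le_card
        intro r hr
        rw [mem_filter] at hr ⊢
        refine ⟨hr.1, ?_, ?_⟩
        · obtain ⟨h1, h2⟩ := hr.2 i0 (hE4 hi0)
          have h1' : |K.ht r (ta K b fs (cell K b fs i0)) -
              K.ht (K.a i) (ta K b fs (cell K b fs i0))| ≤ rm z (K.a i) := h1
          have h2' : |K.ht r (tb K b fs (cell K b fs i0)) -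
              K.ht (K.a i) (tb K b fs (cell K b fs i0))| ≤ rm z (K.a i) := h2
          have n1 := ta_nest K hb1 hff (hEN i0 (hE4E hi0))
          have n2 := tb_nest K hb1 hff (hEN i0 (hE4E hi0))
          have n3 := ta_le_tb K b f (hEN i0 (hE4E hi0))
          rw [hi0u] at n1 n2 n3
          exact ht_bd K h1' h2' n1 (n3.trans n2)
        · obtain ⟨h1, h2⟩ := hr.2 j0 (hE4 hj0)
          have h1' : |K.ht r (ta K b fs (cell K b fs j0)) -
              K.ht (K.a i) (ta K b fs (cell K b fs j0))| ≤ rm z (K.a i) := h1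
          have h2' : |K.ht r (tb K b fs (cell K b fs j0)) -
              K.ht (K.a i) (tb K b fs (cell K b fs j0))| ≤ rm z (K.a i) := h2
          have n1 := ta_nest K hb1 hff (hEN j0 (hE4E hj0))
          have n2 := tb_nest K hb1 hff (hEN j0 (hE4E hj0))
          have n3 := ta_le_tb K b f (hEN j0 (hE4E hj0))
          rw [hj0u] at n1 n2 n3
          exact ht_bd K h1' h2' (n1.trans n3) n2
      have e2 : ((HSR.massE (datR K b M R fs G L E) E' (K.a i) (rm z (K.a i)) : ℕ) : ℝ) ≤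
          ((bal K (PS K b M ((b : ℝ) ^ G)) (ta K b f u) (tb K b f u') (K.a i)
            (rm z (K.a i))).card : ℝ) := by exact_mod_cast e1
      have e3 : (b : ℝ) ^ C ≤ (b : ℝ) ^ (max G (max G2 C)) :=
        pow_le_pow_right₀ hbr1 ((le_max_right _ _).trans (le_max_right _ _))
      calc (b : ℝ) ^ C * ((HSR.massE (datR K b M R fs G L E) E' (K.a i) (rm z (K.a i)) : ℕ) : ℝ) *
            (b : ℝ) ^ (4 * (R * z))
          ≤ (b : ℝ) ^ (max G (max G2 C)) *
            ((bal K (PS K b M ((b : ℝ) ^ G)) (ta K b f u) (tb K b f u') (K.a i)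
            (rm z (K.a i))).card : ℝ) * (b : ℝ) ^ (4 * (R * z)) := by
            apply mul_le_mul_of_nonneg_right _ (by positivity)
            exact mul_le_mul e3 e2 (Nat.cast_nonneg _) (by positivity)
        _ = _ := by ring
    · exact filter_subset _ _
    · intro z hz1 hzm i hi
      obtain ⟨hi1, hi2⟩ := mem_sdiff.1 hi
      have hnb : ¬ Bad i := fun h => hi2 (mem_filter.2 ⟨hi1, h⟩)
      by_contra hcon
      push Not at hcon
      exact hnb (Or.inr ⟨z, mem_Icc.2 ⟨hz1, hzm⟩, hcon⟩)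
    · -- upper masses
      intro z hz1 hzm i hi
      obtain ⟨hi1, hi2⟩ := mem_sdiff.1 hi
      have hnb : ¬ Bad i := fun h => hi2 (mem_filter.2 ⟨hi1, h⟩)
      have hiX : i ∉ XX z := fun h => hnb (Or.inl ⟨z, mem_Icc.2 ⟨hz1, hzm⟩, h⟩)
      have hpP : K.a i ∈ E4.image K.a := mem_image_of_mem _ hi1
      obtain ⟨-, hq1, -⟩ := hiq z (K.a i) hpP
      set A := (HSR.on K.a E4 (K.a i)).filter (fun i' => L.rho (L.lab (2 * z) (iq z (K.a i))) ≤
          L.rho (L.lab (2 * z) i')) with hA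
      have hAE : A ⊆ E4 := fun j hj => (HSR.mem_on.1 (mem_filter.1 hj).1).1
      have hAa : ∀ i' ∈ A, K.a i' = K.a i := fun j hj => (HSR.mem_on.1 (mem_filter.1 hj).1).2
      have hAc : ε * K.N ≤ Fintype.card ι * (A.card : ℝ) := by
        have h1 := hRt.ql i hi1
        have h2 : ((E4.filter (fun i' => K.a i' = K.a i ∧ cell K b f i' = u)).card : ℝ) ≤
            ((HSR.on K.a E4 (K.a i)).card : ℝ) := by
          have : (E4.filter (fun i' => K.a i' = K.a i ∧ cell K b f i' = u)) ⊆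
              HSR.on K.a E4 (K.a i) := by
            intro j hj
            obtain ⟨h3, h4, -⟩ := mem_filter.1 hj
            exact HSR.mem_on.2 ⟨h3, h4⟩
          exact_mod_cast card_le_card this
        have h3 : (K.N : ℝ) ≤ (b : ℝ) ^ G2 * Fintype.card ι *
            ((HSR.on K.a E4 (K.a i)).card : ℝ) :=
          h1.trans (mul_le_mul_of_nonneg_left h2 (by positivity))
        have e1 : ε * (b : ℝ) ^ G2 = κ := by
          rw [hε, hκ, hE2, pow_add]
          field_simp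
        calc ε * K.N ≤ ε * ((b : ℝ) ^ G2 * Fintype.card ι *
            ((HSR.on K.a E4 (K.a i)).card : ℝ)) := mul_le_mul_of_nonneg_left h3 hε0.le
          _ = Fintype.card ι * ((ε * (b : ℝ) ^ G2) * ((HSR.on K.a E4 (K.a i)).card : ℝ)) := by
              ring
          _ = Fintype.card ι * (κ * ((HSR.on K.a E4 (K.a i)).card : ℝ)) := by rw [e1]
          _ ≤ _ := mul_le_mul_of_nonneg_left hq1 (Nat.cast_nonneg _)
      have hHH := hXX2 z hz1 hzm i (mem_sdiff.2 ⟨hi1, hiX⟩) A hAE hAa hAc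
      have hsub : bal K (PS K b M ((b : ℝ) ^ G)) (ta K b f u) (tb K b f u') (K.a i)
          ((b : ℝ) ^ 16 * rp z (K.a i)) ⊆ HH K b M ((b : ℝ) ^ G) L 0 (2 * z) A i := by
        intro q hq
        unfold bal at hq
        obtain ⟨hq0, hq2, hq3⟩ := mem_filter.1 hq
        unfold HH
        rw [mem_filter, czero K b (hEN i (hE4E hi1))]
        refine ⟨PS_sub_PSr K hb1 M _ hq0, fun i' hi' => ?_⟩
        have hi'4 := hAE hi'
        have hi'a := hAa i' hi'
        have hi'r := (mem_filter.1 hi').2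
        have hcls := hLS.cls (2 * z) (hlev0 z hz1 hzm) i' (hE4E hi'4)
        have hpos := hLS.pos (2 * z) (hlev0 z hz1 hzm) i' (hE4E hi'4)
        have hlt := hLS.lt (2 * z) (hlev0 z hz1 hzm) i' (hE4E hi'4)
        obtain ⟨p1, p2, hp1, hp2, hc1', hc2', hs1, hs2⟩ :=
          hLS.span (2 * z) (hlev0 z hz1 hzm) i' (hE4E hi'4)
        rw [ex_even] at hc1' hc2'
        have hfz : f ≤ R * z := hfR.trans (Nat.le_mul_of_pos_right _ hz1)
        have g1 := ccoarse K hb1 hfz hc1'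
        have g2 := ccoarse K hb1 hfz hc2'
        have g3 := ta_le K b f hp1
        have g4 := le_tb K b f hp2
        rw [g1] at g3
        rw [g2] at g4
        obtain ⟨g5, g6⟩ := hin i' hi'4
        have hT : (b : ℝ) ^ 16 + 1 / 2 ≤ Th b := by
          unfold Th
          have h16 : (1 : ℝ) ≤ (b : ℝ) ^ 16 := one_le_pow₀ hbr1
          calc (b : ℝ) ^ 16 + 1 / 2 ≤ (b : ℝ) ^ 16 * 2 := by linarith
            _ ≤ (b : ℝ) ^ 16 * (b : ℝ) := by
                apply mul_le_mul_of_nonneg_left _ (by positivity)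
                linarith
            _ = (b : ℝ) ^ 17 := by ring
            _ ≤ (b : ℝ) ^ 64 := pow_le_pow_right₀ hbr1 (by norm_num)
        have key : ∀ s cc : ℝ, ta K b f u ≤ s → s ≤ tb K b f u' →
            |K.ht (K.a i') s - cc| ≤ L.rho (L.lab (2 * z) i') / 2 →
            |K.ht q s - cc| ≤ Th b * L.rho (L.lab (2 * z) i') := by
          intro s cc h1 h2 h3
          have h4 := ht_bd K hq2 hq3 h1 h2
          rw [← hi'a] at h4
          have e : K.ht q s - cc = (K.ht q s - K.ht (K.a i') s) + (K.ht (K.a i') s - cc) := by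
            ring
          rw [e]
          have h5 : (b : ℝ) ^ 16 * rp z (K.a i') ≤ (b : ℝ) ^ 16 * L.rho (L.lab (2 * z) i') := by
            apply mul_le_mul_of_nonneg_left _ (by positivity)
            rw [hi'a]
            exact hi'r
          calc |(K.ht q s - K.ht (K.a i') s) + (K.ht (K.a i') s - cc)|
              ≤ |K.ht q s - K.ht (K.a i') s| + |K.ht (K.a i') s - cc| := abs_add_le _ _
            _ ≤ (b : ℝ) ^ 16 * L.rho (L.lab (2 * z) i') + L.rho (L.lab (2 * z) i') / 2 := by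
                linarith
            _ = ((b : ℝ) ^ 16 + 1 / 2) * L.rho (L.lab (2 * z) i') := by ring
            _ ≤ _ := mul_le_mul_of_nonneg_right hT hpos.le
        unfold RR
        rw [mem_filter]
        refine ⟨mem_univ _, key _ _ ?_ ?_ hcls.1, key _ _ ?_ ?_ hcls.2⟩
        · linarith
        · linarith
        · linarith
        · linarith
      have hc := card_le_card hsub
      have hc' : ((bal K (PS K b M ((b : ℝ) ^ G)) (ta K b f u) (tb K b f u') (K.a i)
          ((b : ℝ) ^ 16 * rp z (K.a i))).card : ℝ) ≤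
          ρ ^ 2 * ((Fintype.card ι : ℝ) / (b : ℝ) ^ (4 * (R * z))) :=
        le_trans (by exact_mod_cast hc) hHH
      calc (b : ℝ) ^ (4 * (R * z)) * ((bal K (PS K b M ((b : ℝ) ^ G)) (ta K b f u)
          (tb K b f u') (K.a i) ((b : ℝ) ^ 16 * rp z (K.a i))).card : ℝ)
          ≤ (b : ℝ) ^ (4 * (R * z)) *
            (ρ ^ 2 * ((Fintype.card ι : ℝ) / (b : ℝ) ^ (4 * (R * z)))) :=
            mul_le_mul_of_nonneg_left hc' (by positivity)
        _ = ρ ^ 2 * Fintype.card ι := by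
            field_simp
  · -- few exceptional edges
    have h1 : X4.card ≤ (∑ z ∈ Icc 1 m, (XX z).card) +
        ∑ z ∈ Icc 1 m, (E4.filter (fun i => rp z (K.a i) < L.rho (L.lab (2 * z) i))).card := by
      have hsub : X4 ⊆ ((Icc 1 m).biUnion XX) ∪
          ((Icc 1 m).biUnion (fun z => E4.filter
            (fun i => rp z (K.a i) < L.rho (L.lab (2 * z) i)))) := by
        intro i hi
        obtain ⟨hi1, hi2⟩ := mem_filter.1 hi
        rcases hi2 with ⟨z, hz, h⟩ | ⟨z, hz, h⟩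
        · exact mem_union_left _ (mem_biUnion.2 ⟨z, hz, h⟩)
        · exact mem_union_right _ (mem_biUnion.2 ⟨z, hz, mem_filter.2 ⟨hi1, h⟩⟩)
      exact (card_le_card hsub).trans ((card_union_le _ _).trans
        (Nat.add_le_add card_biUnion_le card_biUnion_le))
    have h2 : ∀ z, ((E4.filter (fun i => rp z (K.a i) < L.rho (L.lab (2 * z) i))).card : ℝ) ≤
        κ * K.N := by
      intro z
      have e1 : (E4.filter (fun i => rp z (K.a i) < L.rho (L.lab (2 * z) i))).card ≤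
          ∑ p ∈ E4.image K.a, ((HSR.on K.a E4 p).filter (fun i =>
            L.rho (L.lab (2 * z) (iq z p)) < L.rho (L.lab (2 * z) i))).card := by
        refine le_trans (card_le_card ?_) card_biUnion_le
        intro i hi
        obtain ⟨hi1, hi2⟩ := mem_filter.1 hi
        exact mem_biUnion.2 ⟨K.a i, mem_image_of_mem _ hi1,
          mem_filter.2 ⟨HSR.mem_on.2 ⟨hi1, rfl⟩, hi2⟩⟩
      have e1' : ((E4.filter (fun i => rp z (K.a i) < L.rho (L.lab (2 * z) i))).card : ℝ) ≤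
          ∑ p ∈ E4.image K.a, (((HSR.on K.a E4 p).filter (fun i =>
            L.rho (L.lab (2 * z) (iq z p)) < L.rho (L.lab (2 * z) i))).card : ℝ) := by
        exact_mod_cast e1
      have e2 : (E4.card : ℝ) = ∑ p ∈ E4.image K.a, ((HSR.on K.a E4 p).card : ℝ) := by
        have := HSR.card_on K.a E4
        exact_mod_cast this
      calc _ ≤ ∑ p ∈ E4.image K.a, κ * ((HSR.on K.a E4 p).card : ℝ) :=
            e1'.trans (Finset.sum_le_sum (fun p hp => (hiq z p hp).2.2))
        _ = κ * (E4.card : ℝ) := by rw [← Finset.mul_sum, e2]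
        _ ≤ κ * K.N := mul_le_mul_of_nonneg_left hE4N hκ0.le
    have h1' : (X4.card : ℝ) ≤ (∑ z ∈ Icc 1 m, ((XX z).card : ℝ)) +
        ∑ z ∈ Icc 1 m, ((E4.filter (fun i => rp z (K.a i) < L.rho (L.lab (2 * z) i))).card :
          ℝ) := by exact_mod_cast h1
    have h3 : (X4.card : ℝ) ≤ (m : ℝ) * (ε * K.N) + (m : ℝ) * (κ * K.N) := by
      refine h1'.trans (add_le_add ?_ ?_)
      · calc (∑ z ∈ Icc 1 m, ((XX z).card : ℝ)) ≤ ∑ z ∈ Icc 1 m, ε * (K.N : ℝ) :=
            Finset.sum_le_sum (fun z _ => hXX1 z)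
          _ = _ := by
            rw [Finset.sum_const, nsmul_eq_mul, Nat.card_Icc]
            simp
      · calc (∑ z ∈ Icc 1 m, ((E4.filter (fun i => rp z (K.a i) <
            L.rho (L.lab (2 * z) i))).card : ℝ)) ≤ ∑ z ∈ Icc 1 m, κ * (K.N : ℝ) :=
            Finset.sum_le_sum (fun z _ => h2 z)
          _ = _ := by
            rw [Finset.sum_const, nsmul_eq_mul, Nat.card_Icc]
            simp
    have hεκ : ε ≤ κ := by
      rw [hε, hκ]
      apply one_div_le_one_div_of_le (by positivity)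
      exact pow_le_pow_right₀ hbr1 (by omega)
    have hmb' : (m : ℝ) ≤ b := by exact_mod_cast hmb
    have h4 : (X4.card : ℝ) ≤ 2 * b * (κ * K.N) := by
      have e1 : (m : ℝ) * (ε * K.N) ≤ b * (κ * K.N) := by
        apply mul_le_mul hmb' _ (by positivity) hbr0.le
        exact mul_le_mul_of_nonneg_right hεκ hNpos.le
      have e2 : (m : ℝ) * (κ * K.N) ≤ b * (κ * K.N) :=
        mul_le_mul_of_nonneg_right hmb' (by positivity)
      linarith
    calc (b : ℝ) ^ C4 * (X4.card : ℝ) ≤ (b : ℝ) ^ C4 * (2 * b * (κ * K.N)) :=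
          mul_le_mul_of_nonneg_left h4 (by positivity)
      _ = 2 / b * K.N := by
          rw [hκ, pow_add]
          field_simp
      _ ≤ 1 * K.N := by
          apply mul_le_mul_of_nonneg_right _ hNpos.le
          rw [div_le_one hbr0]
          linarith
      _ = K.N := one_mul _

end Pool.Agent.Work.MP_e17eac_co.HS
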