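import Pool.Agent.Work.MP_e17eac_co.HS.StC
import Pool.Agent.Work.MP_e17eac_co.Bd.B19

/-!
# HS, item ST (helper66): strips
-/

set_option autoImplicit false

namespace Pool.Agent.Work.MP_e17eac_co.HS

open Finset
open Pool.Agent.Work.MP_e17eac_co.DH
open Pool.Agent.Work.MP_e17eac_co.B1
open Pool.Agent.Work.MP_e17eac_co.DH.XSWEEP (GP)

namespace XST

variable {ι α : Type} [Fintype ι] [DecidableEq ι] [DecidableEq α]

theorem ex_even (R F y : ℕ) : ex R F (2 * y) = R * y := by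
  unfold ex
  rw [show 2 * y / 2 = y by omega, show 2 * y % 2 = 0 by omega, Nat.mul_zero, Nat.add_zero]

theorem ta_le {K : KSys ι} {b f c k : ℕ} (hk : k < K.N) (hc : cell K b f k = c) :
    ta K b f c ≤ K.t k := by
  unfold ta
  have h1 : sInf {i | cell K b f i = c} ≤ k := Nat.sInf_le hc
  rcases h1.lt_or_eq with h | h
  · exact (K.t_lt _ _ h hk).le
  · rw [h]

theorem le_tb {K : KSys ι} {b f c k : ℕ} (hk : k < K.N) (hc : cell K b f k = c) :
    K.t k ≤ tb K b f c := by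
  unfold tb
  have hmem : k ∈ ce K b f c := by
    unfold ce
    rw [mem_filter, mem_range]
    exact ⟨hk, hc⟩
  have h1 : k ≤ (ce K b f c).sup id := Finset.le_sup (f := id) hmem
  have h2 : (ce K b f c).sup id ∈ ce K b f c := by
    obtain ⟨m, hm, hm'⟩ := Finset.exists_mem_eq_sup _ ⟨k, hmem⟩ (id : ℕ → ℕ)
    rw [hm']
    exact hm
  have h3 : (ce K b f c).sup id < K.N := by
    have h4 := h2
    unfold ce at h4
    rw [mem_filter, mem_range] at h4
    exact h4.1
  rcases h1.lt_or_eq with h | h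
  · exact (K.t_lt _ _ h h3).le
  · rw [← h]

/-- hulls of labels lie in the base cells -/
theorem hull_in (hc : B1.StCell) {K : KSys ι} {b M J : ℕ} {e ec : ℕ → ℕ} {D : ℝ} {L : Lb α}
    {E : Finset ℕ} (hL : LS K b M J e ec D L E) {f j i : ℕ} (hj : j ≤ J) (hf : f ≤ e j)
    (hi : i ∈ E) : ta K b f (cell K b f i) ≤ L.h0 (L.lab j i) ∧
      L.h1 (L.lab j i) ≤ tb K b f (cell K b f i) := by
  obtain ⟨k, l, hk, hl, ck, cl, h0, h1⟩ := hL.span j hj i hi
  have hb : 1 ≤ b := le_trans (by norm_num) hL.lev.two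
  have hcc := (hc ι K b (e j) hb).2.2.1 f hf
  have e1 : cell K b f k = cell K b f i := by rw [hcc k, hcc i, ck]
  have e2 : cell K b f l = cell K b f i := by rw [hcc l, hcc i, cl]
  exact ⟨(ta_le hk e1).trans h0, h1.trans (le_tb hl e2)⟩

omit [DecidableEq α] in
/-- labels of edges in different base cells are separated -/
theorem sep {b : ℕ} {L : Lb α} {w w' : α} {ta0 tb0 ta1 tb1 : ℝ}
    (hb : 2 ≤ b) (hgap : tb1 - ta0 ≤ b * (ta1 - tb0)) (h1 : ta0 ≤ L.h0 w) (h2 : L.h1 w ≤ tb0)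
    (h3 : ta1 ≤ L.h0 w') (h4 : L.h1 w' ≤ tb1) (h5 : L.h0 w < L.h1 w) (h6 : L.h0 w' < L.h1 w')
    (h7 : ta0 < tb1) : L.h1 w < L.h0 w' ∧ L.h1 w - L.h0 w ≤ b * (L.h0 w' - L.h1 w) ∧
      L.h1 w' - L.h0 w' ≤ b * (L.h0 w' - L.h1 w) := by
  have hbR : (0 : ℝ) < b := by
    have : 0 < b := by omega
    exact_mod_cast this
  have h8 : 0 < ta1 - tb0 := by
    by_contra hcon
    have : (b : ℝ) * (ta1 - tb0) ≤ 0 := mul_nonpos_of_nonneg_of_nonpos hbR.le (not_lt.1 hcon)
    linarith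
  have h9 : (b : ℝ) * (ta1 - tb0) ≤ b * (L.h0 w' - L.h1 w) :=
    mul_le_mul_of_nonneg_left (by linarith) hbR.le
  refine ⟨by linarith, by linarith, by linarith⟩

end XST

theorem I_ST (hc : B1.StCell) : StST := by
  classical
  rintro ⟨C1, hLB⟩
  refine ⟨3 * C1 + 3, ?_⟩
  intro ι α _ _ _ K hinj b M m R F ec D D' ρ L E E4 X4 U c f u u' rm rp hS ε k hBg hρ hX4
    x y z hx hxz hy hyz hzm hzy
  have hLS := hS.ls
  have hb2 : 2 ≤ b := hLS.lev.two
  have hb1 : 1 ≤ b := by omega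
  have hbR : (1 : ℝ) ≤ b := by exact_mod_cast hb1
  have hε := hBg.ep
  have hε1 := hBg.e1
  have hNpos : (0 : ℝ) < K.N := by exact_mod_cast hLS.npos
  have hD8 : 8 ≤ D := by
    refine le_trans ?_ hLS.bD
    unfold Th
    have hb2R : (2 : ℝ) ≤ b := by exact_mod_cast hb2
    calc (8 : ℝ) ≤ 2 ^ 64 := by norm_num
      _ ≤ (b : ℝ) ^ 64 := pow_le_pow_left₀ (by norm_num) hb2R 64
  have hDD := hS.DD
  have hD'8 : 8 ≤ D' := hD8.trans hDD
  have hD'0 : 0 < D' := by linarith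
  have hD'1 : 1 ≤ D' := by linarith
  have hn0 : (0 : ℝ) ≤ Fintype.card ι := by positivity
  obtain ⟨ε1, hε1d⟩ : ∃ ε1, ε1 = ε / (8 * D') := ⟨_, rfl⟩
  have hε1p : 0 < ε1 := by
    rw [hε1d]
    positivity
  have hcmp : D' / ε1 ≤ (D' / ε) ^ 3 := by
    have h1 : D' / ε1 = 8 * D' ^ 2 / ε := by
      rw [hε1d]
      field_simp
    rw [h1, div_pow]
    calc 8 * D' ^ 2 / ε ≤ D' ^ 3 / ε := by
          refine div_le_div_of_nonneg_right ?_ hε.le
          have : D' ^ 3 = D' * D' ^ 2 := by ring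
          rw [this]
          exact mul_le_mul_of_nonneg_right hD'8 (by positivity)
      _ ≤ D' ^ 3 / ε ^ 3 := by
          refine div_le_div_of_nonneg_left (by positivity) (by positivity) ?_
          calc ε ^ 3 ≤ ε ^ 1 := pow_le_pow_of_le_one hε.le hε1 (by norm_num)
            _ = ε := pow_one ε
  have hDε : 1 ≤ D' / ε := by
    rw [le_div_iff₀ hε]
    linarith
  have hpw : (D' / ε1) ^ (C1 * (k + 1)) ≤ (D' / ε) ^ ((3 * C1 + 3) * (k + 1)) := by
    calc (D' / ε1) ^ (C1 * (k + 1)) ≤ ((D' / ε) ^ 3) ^ (C1 * (k + 1)) :=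
          pow_le_pow_left₀ (by positivity) hcmp _
      _ = (D' / ε) ^ (3 * (C1 * (k + 1))) := by rw [← pow_mul]
      _ ≤ (D' / ε) ^ ((3 * C1 + 3) * (k + 1)) := by
          refine pow_le_pow_right₀ hDε ?_
          calc 3 * (C1 * (k + 1)) = 3 * C1 * (k + 1) := by ring
            _ ≤ (3 * C1 + 3) * (k + 1) := Nat.mul_le_mul_right _ (by omega)
  have hBg1 : Bg K b M (2 * m + 1) (ex R F) D' ε1 ρ k C1 := by
    refine ⟨hε1p, ?_, hpw.trans hBg.rho, hBg.it, ?_⟩
    · rw [hε1d, div_le_one (by positivity)]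
      linarith
    · refine le_trans (mul_le_mul_of_nonneg_right hpw (by positivity)) hBg.nn
  have he0 : ex R F 0 = 0 := by simp [ex]
  have hey := XST.ex_even R F y
  have hez := XST.ex_even R F z
  have hρ4 : ρ ^ 4 * (b : ℝ) ^ (ex R F 0 + ex R F (2 * z)) ≤ (b : ℝ) ^ (2 * ex R F (2 * y)) := by
    rw [he0, hey, hez, zero_add]
    calc ρ ^ 4 * (b : ℝ) ^ (R * z) ≤ (b : ℝ) ^ R * (b : ℝ) ^ (R * z) := by
          refine mul_le_mul_of_nonneg_right ?_ (by positivity)
          exact (pow_le_pow_right₀ hS.one (by norm_num)).trans hρ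
      _ = (b : ℝ) ^ (R * (z + 1)) := by rw [← pow_add]; congr 1; ring
      _ ≤ (b : ℝ) ^ (2 * (R * y)) := by
          refine pow_le_pow_right₀ hbR ?_
          calc R * (z + 1) ≤ R * (2 * y) := Nat.mul_le_mul_left _ hzy
            _ = 2 * (R * y) := by ring
  have hfew : ∀ w, w ≤ m → ∀ c : ℕ,
      (((E4.filter (fun i => cell K b (ex R F (2 * w)) i = c)).image (L.lab (2 * w))).card : ℝ) ≤
        D' := by
    intro w hw c
    refine le_trans ?_ ((hLS.few (2 * w) (by omega) c).trans hDD)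
    exact_mod_cast card_le_card (image_subset_image (filter_subset_filter _ hS.sub))
  have hmain := hLB ι α α K hinj b M (2 * m + 1) (ex R F) ec D L E hLS D' ε1 ρ k hDD hBg1
    0 (2 * y) (2 * z) (Nat.zero_le _) (by omega) (hS.fine y (by omega)) (hS.fine z hzm) hρ4
    E4 hS.sub (L.lab (2 * y)) (L.lab (2 * z)) (fun i _ i' _ h => h) (fun i _ i' _ h => h)
    (hfew y (by omega)) (hfew z hzm)
  obtain ⟨Bad, hBad⟩ : ∃ Bad : Finset (ℕ × ℕ), Bad = (PP K b (ex R F 0) E4).filter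
    (fun v : ℕ × ℕ => Sep b L (L.lab (2 * y) v.1) (L.lab (2 * z) v.2) ∧
      D' ^ C1 * ((NN K E4 (L.lab (2 * y)) v.1 ∩ NN K E4 (L.lab (2 * z)) v.2).card : ℝ) *
        (b : ℝ) ^ (2 * ex R F (2 * y) + 2 * ex R F (2 * z)) <
        ε1 ^ C1 * (Fintype.card ι * (b : ℝ) ^ (ex R F 0))) := ⟨_, rfl⟩
  rw [← hBad] at hmain
  have hb0 : (b : ℝ) ^ (ex R F 0) = 1 := by rw [he0, pow_zero]
  rw [hb0, mul_one] at hmain hBad
  -- basic facts on the edges
  have hE : ∀ i ∈ E4, i ∈ E := fun i hi => hS.sub hi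
  have hlt : ∀ i ∈ E4, i < K.N := fun i hi => (hLS.hyg i (hE i hi)).lt
  have hcell0 : ∀ i ∈ E4, cell K b 0 i = 0 := fun i hi =>
    (hc ι K b 0 hb1).2.2.2.1 i (hlt i hi)
  obtain ⟨Bs, hBs⟩ : ∃ Bs : ℕ → Finset ℕ, ∀ i, Bs i = (E4 \ X4).filter (fun i2 =>
    K.a i2 = K.a i ∧ cell K b f i2 ≠ cell K b f i) := ⟨_, fun _ => rfl⟩
  obtain ⟨Xh, hXh⟩ : ∃ Xh : Finset ℕ, Xh = E4.filter (fun i => (K.N : ℝ) <
    2 * D' * Fintype.card ι * ((X4.filter (fun j => K.a j = K.a i)).card : ℝ)) := ⟨_, rfl⟩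
  obtain ⟨Fg, hFg⟩ : ∃ Fg : Finset ℕ, Fg = ((E4 \ X4) \ Xh).filter (fun i => ∀ i2 ∈ Bs i,
    D' ^ C1 * ((NN K E4 (L.lab (2 * y)) i2 ∩ NN K E4 (L.lab (2 * z)) i).card : ℝ) *
        (b : ℝ) ^ (2 * ex R F (2 * y) + 2 * ex R F (2 * z)) <
        ε1 ^ C1 * Fintype.card ι) := ⟨_, rfl⟩
  -- separation
  have hfe : ∀ w, 1 ≤ w → f ≤ ex R F (2 * w) := by
    intro w hw
    rw [XST.ex_even]
    exact hS.fR.1.trans (Nat.le_mul_of_pos_right _ hw)
  have hcuu := hS.rt.mem
  have hsep : ∀ i ∈ E4, ∀ i2 ∈ E4, K.a i2 = K.a i → cell K b f i2 ≠ cell K b f i →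
      Sep b L (L.lab (2 * y) i2) (L.lab (2 * z) i) := by
    intro i hi i2 hi2 _ hne
    obtain ⟨p1, p2⟩ := XST.hull_in hc hLS (j := 2 * y) (by omega) (hfe y hy) (hE i2 hi2)
    obtain ⟨q1, q2⟩ := XST.hull_in hc hLS (j := 2 * z) (by omega) (hfe z (by omega)) (hE i hi)
    have l1 := hLS.lt (2 * y) (by omega) i2 (hE i2 hi2)
    have l2 := hLS.lt (2 * z) (by omega) i (hE i hi)
    have hmono : ∀ i j, i ≤ j → cell K b f i ≤ cell K b f j := (hc ι K b f hb1).2.1
    have hgap := hS.rt.gap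
    have hltu := hS.rt.lt
    -- order of times
    have hord : ∀ j ∈ E4, ∀ j' ∈ E4, cell K b f j = u → cell K b f j' = u' →
        ta K b f u < tb K b f u' := by
      intro j hj j' hj' cj cj'
      have h1 : j < j' := by
        by_contra hcon
        have := hmono j' j (not_lt.1 hcon)
        omega
      have h2 := K.t_lt j j' h1 (hlt j' hj')
      have h3 := XST.ta_le (hlt j hj) cj
      have h4 := XST.le_tb (hlt j' hj') cj'
      linarith
    rcases hcuu i hi with ci | ci <;> rcases hcuu i2 hi2 with ci2 | ci2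
    · exact absurd (ci2.trans ci.symm) hne
    · right
      rw [ci] at q1 q2
      rw [ci2] at p1 p2
      have h := XST.sep hb2 hgap q1 q2 p1 p2 l2 l1
        (hord i hi i2 hi2 ci ci2)
      exact ⟨h.1, h.2.1, h.2.2⟩
    · left
      rw [ci] at q1 q2
      rw [ci2] at p1 p2
      exact XST.sep hb2 hgap p1 p2 q1 q2 l1 l2
        (hord i2 hi2 i hi ci2 ci)
    · exact absurd (ci2.trans ci.symm) hne
  -- many partners
  have hBcard : ∀ i ∈ E4, i ∉ Xh → (K.N : ℝ) ≤ 2 * D' * Fintype.card ι * ((Bs i).card : ℝ) := by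
    intro i hi hih
    have h1 : 2 * D' * Fintype.card ι * ((X4.filter (fun j => K.a j = K.a i)).card : ℝ) ≤
        K.N := by
      by_contra hcon
      apply hih
      rw [hXh, mem_filter]
      exact ⟨hi, not_le.1 hcon⟩
    obtain ⟨v, hv, hne⟩ : ∃ v, (K.N : ℝ) ≤ D' * Fintype.card ι *
        ((E4.filter (fun i' => K.a i' = K.a i ∧ cell K b f i' = v)).card : ℝ) ∧
        v ≠ cell K b f i := by
      have hltu := hS.rt.lt
      rcases hcuu i hi with ci | ci
      · exact ⟨u', hS.rt.qr i hi, by omega⟩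
      · exact ⟨u, hS.rt.ql i hi, by omega⟩
    have h2 : (E4.filter (fun i' => K.a i' = K.a i ∧ cell K b f i' = v)).card ≤
        (Bs i).card + (X4.filter (fun j => K.a j = K.a i)).card := by
      refine (card_le_card ?_).trans (card_union_le _ _)
      intro j hj
      rw [mem_filter] at hj
      rw [mem_union, hBs, mem_filter, mem_filter, mem_sdiff]
      by_cases hjX : j ∈ X4
      · exact Or.inr ⟨hjX, hj.2.1⟩
      · exact Or.inl ⟨⟨hj.1, hjX⟩, hj.2.1, by rw [hj.2.2]; exact hne⟩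
    have h3 : ((E4.filter (fun i' => K.a i' = K.a i ∧ cell K b f i' = v)).card : ℝ) ≤
        (Bs i).card + (X4.filter (fun j => K.a j = K.a i)).card := by exact_mod_cast h2
    have h4 := mul_le_mul_of_nonneg_left h3 (show 0 ≤ D' * Fintype.card ι by positivity)
    have h5 : D' * Fintype.card ι * (((Bs i).card : ℝ) +
        ((X4.filter (fun j => K.a j = K.a i)).card : ℝ)) =
        D' * Fintype.card ι * ((Bs i).card : ℝ) +
        D' * Fintype.card ι * ((X4.filter (fun j => K.a j = K.a i)).card : ℝ) := by ring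
    linarith
  -- few edges with only bad partners
  have hT : ∑ i ∈ Fg, (Bs i).card ≤ Bad.card := by
    rw [← card_sigma]
    refine card_le_card_of_injOn (fun v => (v.2, v.1)) ?_ ?_
    · rintro ⟨i, i2⟩ hv
      rw [mem_coe, mem_sigma] at hv
      obtain ⟨hi, hi2⟩ := hv
      simp only at hi hi2
      rw [hFg, mem_filter, mem_sdiff, mem_sdiff] at hi
      have hi2' := hi2
      rw [hBs, mem_filter, mem_sdiff] at hi2'
      rw [mem_coe, hBad, mem_filter]
      refine ⟨?_, hsep i hi.1.1.1 i2 hi2'.1.1 hi2'.2.1 hi2'.2.2, hi.2 i2 hi2⟩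
      unfold PP
      rw [mem_filter, mem_product, he0]
      exact ⟨⟨hi2'.1.1, hi.1.1.1⟩, hi2'.2.1, by
        rw [hcell0 i2 hi2'.1.1, hcell0 i hi.1.1.1]⟩
    · rintro ⟨i, i2⟩ _ ⟨j, j2⟩ _ h
      simp only [Prod.mk.injEq] at h
      obtain ⟨rfl, rfl⟩ := h
      rfl
  have hFgE : ∀ i ∈ Fg, i ∈ E4 ∧ i ∉ X4 ∧ i ∉ Xh := by
    intro i hi
    rw [hFg, mem_filter, mem_sdiff, mem_sdiff] at hi
    exact ⟨hi.1.1.1, hi.1.1.2, hi.1.2⟩
  have hFgc : (Fg.card : ℝ) ≤ ε / 4 * K.N := by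
    have h1 : (Fg.card : ℝ) * K.N ≤ 2 * D' * Fintype.card ι * (Bad.card : ℝ) := by
      calc (Fg.card : ℝ) * K.N = ∑ _i ∈ Fg, (K.N : ℝ) := by rw [sum_const, nsmul_eq_mul]
        _ ≤ ∑ i ∈ Fg, 2 * D' * Fintype.card ι * ((Bs i).card : ℝ) :=
            sum_le_sum fun i hi => hBcard i (hFgE i hi).1 (hFgE i hi).2.2
        _ = 2 * D' * Fintype.card ι * ((∑ i ∈ Fg, (Bs i).card : ℕ) : ℝ) := by
            rw [← mul_sum]
            push_cast
            rfl
        _ ≤ 2 * D' * Fintype.card ι * (Bad.card : ℝ) := by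
            refine mul_le_mul_of_nonneg_left ?_ (by positivity)
            exact_mod_cast hT
    have h2 : 2 * D' * Fintype.card ι * (Bad.card : ℝ) ≤ 2 * D' * (ε1 * (K.N : ℝ) ^ 2) := by
      calc 2 * D' * Fintype.card ι * (Bad.card : ℝ) =
            2 * D' * ((Bad.card : ℝ) * Fintype.card ι) := by ring
        _ ≤ 2 * D' * (ε1 * (K.N : ℝ) ^ 2) := mul_le_mul_of_nonneg_left hmain (by positivity)
    have h3 : 2 * D' * (ε1 * (K.N : ℝ) ^ 2) = ε / 4 * K.N * K.N := by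
      rw [hε1d]
      field_simp
      ring
    exact le_of_mul_le_mul_right ((h1.trans h2).trans h3.le) hNpos
  -- few edges on heavy lines
  have hlight : ∀ j ∈ X4, (Fintype.card ι : ℝ) *
      ((Xh.filter (fun i => K.a j = K.a i)).card : ℝ) ≤ D * K.N := by
    intro j hj
    have hjE := hE j (hS.X4s hj)
    have h1 := (hLS.hyg j hjE).light false 0 (Nat.zero_le _)
    rw [pow_zero, mul_one] at h1
    refine le_trans ?_ h1
    rw [mul_comm]
    refine mul_le_mul_of_nonneg_right ?_ hn0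
    have h2 : (Xh.filter (fun i => K.a j = K.a i)).card ≤ ((range K.N).filter (fun i =>
        K.ln false i = K.ln false j ∧ cell K b 0 i = cell K b 0 j)).card := by
      refine card_le_card ?_
      intro i hi
      rw [mem_filter, hXh, mem_filter] at hi
      rw [mem_filter, mem_range]
      exact ⟨hlt i hi.1.1, hi.2.symm, by rw [hcell0 i hi.1.1, hcell0 j (hS.X4s hj)]⟩
    exact_mod_cast h2
  have hXhc : (Xh.card : ℝ) ≤ 2 * D' * D * (X4.card : ℝ) := by
    have hsw : ∑ i ∈ Xh, (X4.filter (fun j => K.a j = K.a i)).card =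
        ∑ j ∈ X4, (Xh.filter (fun i => K.a j = K.a i)).card :=
      sum_card_bipartiteAbove_eq_sum_card_bipartiteBelow (fun i j => K.a j = K.a i)
    have h1 : (Xh.card : ℝ) * K.N ≤ 2 * D' * D * (X4.card : ℝ) * K.N := by
      calc (Xh.card : ℝ) * K.N = ∑ _i ∈ Xh, (K.N : ℝ) := by rw [sum_const, nsmul_eq_mul]
        _ ≤ ∑ i ∈ Xh, 2 * D' * Fintype.card ι *
            ((X4.filter (fun j => K.a j = K.a i)).card : ℝ) := by
            refine sum_le_sum fun i hi => ?_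
            rw [hXh, mem_filter] at hi
            exact hi.2.le
        _ = 2 * D' * Fintype.card ι *
            ((∑ i ∈ Xh, (X4.filter (fun j => K.a j = K.a i)).card : ℕ) : ℝ) := by
            rw [← mul_sum]
            push_cast
            rfl
        _ = 2 * D' * ∑ j ∈ X4, (Fintype.card ι : ℝ) *
            ((Xh.filter (fun i => K.a j = K.a i)).card : ℝ) := by
            rw [hsw, ← mul_sum]
            push_cast
            ring
        _ ≤ 2 * D' * ∑ _j ∈ X4, D * (K.N : ℝ) :=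
            mul_le_mul_of_nonneg_left (sum_le_sum hlight) (by positivity)
        _ = 2 * D' * D * (X4.card : ℝ) * K.N := by
            rw [sum_const, nsmul_eq_mul]
            ring
    exact le_of_mul_le_mul_right h1 hNpos
  have hX4b : D' ^ 3 * (X4.card : ℝ) ≤ ε * K.N := by
    calc D' ^ 3 * (X4.card : ℝ) ≤ D' ^ (3 * C1 + 3) * (X4.card : ℝ) :=
          mul_le_mul_of_nonneg_right (pow_le_pow_right₀ hD'1 (by omega)) (by positivity)
      _ ≤ ε ^ (3 * C1 + 3) * K.N := hX4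
      _ ≤ ε * K.N := by
          refine mul_le_mul_of_nonneg_right ?_ hNpos.le
          calc ε ^ (3 * C1 + 3) ≤ ε ^ 1 := pow_le_pow_of_le_one hε.le hε1 (by omega)
            _ = ε := pow_one ε
  have hX4c : 8 * D' ^ 2 * (X4.card : ℝ) ≤ ε * K.N := by
    refine le_trans (mul_le_mul_of_nonneg_right ?_ (by positivity)) hX4b
    have : D' ^ 3 = D' * D' ^ 2 := by ring
    rw [this]
    exact mul_le_mul_of_nonneg_right hD'8 (by positivity)
  refine ⟨X4 ∪ (Xh ∪ Fg), ?_, ?_, ?_⟩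
  · refine union_subset hS.X4s (union_subset ?_ fun i hi => (hFgE i hi).1)
    rw [hXh]
    exact filter_subset _ _
  · have h1 : ((X4 ∪ (Xh ∪ Fg)).card : ℝ) ≤ X4.card + (Xh.card + Fg.card) := by
      have h2 := card_union_le X4 (Xh ∪ Fg)
      have h3 := card_union_le Xh Fg
      exact_mod_cast h2.trans (Nat.add_le_add_left h3 _)
    have h2 : (X4.card : ℝ) ≤ ε / 8 * K.N := by
      have h3 : 8 * (X4.card : ℝ) ≤ 8 * D' ^ 2 * (X4.card : ℝ) := by
        refine mul_le_mul_of_nonneg_right ?_ (by positivity)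
        have : (1 : ℝ) ≤ D' ^ 2 := one_le_pow₀ hD'1
        linarith
      linarith
    have h4 : (Xh.card : ℝ) ≤ ε / 4 * K.N := by
      have h5 : 2 * D' * D * (X4.card : ℝ) ≤ 2 * D' * D' * (X4.card : ℝ) := by
        refine mul_le_mul_of_nonneg_right ?_ (by positivity)
        exact mul_le_mul_of_nonneg_left hDD (by positivity)
      have h6 : 2 * D' * D' * (X4.card : ℝ) = (8 * D' ^ 2 * (X4.card : ℝ)) / 4 := by ring
      linarith
    have h7 : 0 ≤ ε * K.N := by positivity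
    linarith
  · intro i hi
    rw [mem_sdiff, mem_union, mem_union, not_or, not_or] at hi
    obtain ⟨hi4, hiX, hih, hiF⟩ := hi
    have h1 : ¬ ∀ i2 ∈ Bs i,
        D' ^ C1 * ((NN K E4 (L.lab (2 * y)) i2 ∩ NN K E4 (L.lab (2 * z)) i).card : ℝ) *
        (b : ℝ) ^ (2 * ex R F (2 * y) + 2 * ex R F (2 * z)) <
        ε1 ^ C1 * Fintype.card ι := by
      intro hcon
      apply hiF
      rw [hFg, mem_filter, mem_sdiff, mem_sdiff]
      exact ⟨⟨⟨hi4, hiX⟩, hih⟩, hcon⟩
    push Not at h1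
    obtain ⟨i2, hi2, hge⟩ := h1
    rw [hBs, mem_filter] at hi2
    refine ⟨i, ?_, i2, hi2.1, hi2.2.1, hi2.2.2, ?_⟩
    · rw [mem_sdiff]
      refine ⟨?_, hiX⟩
      unfold EE
      rw [mem_filter]
      exact ⟨hi4, rfl, rfl⟩
    · rw [inter_comm]
      rw [hey, hez] at hge
      have h2 : ε ^ (3 * C1 + 3) * Fintype.card ι ≤ ε ^ C1 * Fintype.card ι :=
        mul_le_mul_of_nonneg_right (pow_le_pow_of_le_one hε.le hε1 (by omega)) hn0
      have h3 : ε ^ C1 * Fintype.card ι = (8 * D') ^ C1 * (ε1 ^ C1 * Fintype.card ι) := by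
        rw [← mul_assoc, ← mul_pow]
        congr 2
        rw [hε1d]
        field_simp
      have h4 : (8 * D') ^ C1 * D' ^ C1 ≤ D' ^ (3 * C1 + 3) := by
        calc (8 * D') ^ C1 * D' ^ C1 ≤ (D' ^ 2) ^ C1 * D' ^ C1 := by
              refine mul_le_mul_of_nonneg_right (pow_le_pow_left₀ (by positivity) ?_ _)
                (by positivity)
              rw [sq]
              exact mul_le_mul_of_nonneg_right hD'8 hD'0.le
          _ = D' ^ (3 * C1) := by
              rw [← pow_mul, ← pow_add]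
              congr 1
              ring
          _ ≤ D' ^ (3 * C1 + 3) := pow_le_pow_right₀ hD'1 (by omega)
      calc ε ^ (3 * C1 + 3) * Fintype.card ι ≤ (8 * D') ^ C1 * (ε1 ^ C1 * Fintype.card ι) :=
            h2.trans h3.le
        _ ≤ (8 * D') ^ C1 * (D' ^ C1 *
            ((NN K E4 (L.lab (2 * y)) i2 ∩ NN K E4 (L.lab (2 * z)) i).card : ℝ) *
              (b : ℝ) ^ (2 * (R * y) + 2 * (R * z))) :=
            mul_le_mul_of_nonneg_left hge (by positivity)
        _ = ((8 * D') ^ C1 * D' ^ C1) * ((b : ℝ) ^ (2 * (R * y) + 2 * (R * z)) *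
            ((NN K E4 (L.lab (2 * y)) i2 ∩ NN K E4 (L.lab (2 * z)) i).card : ℝ)) := by ring
        _ ≤ D' ^ (3 * C1 + 3) * ((b : ℝ) ^ (2 * (R * y) + 2 * (R * z)) *
            ((NN K E4 (L.lab (2 * y)) i2 ∩ NN K E4 (L.lab (2 * z)) i).card : ℝ)) :=
            mul_le_mul_of_nonneg_right h4 (by positivity)
        _ = _ := by ring

end Pool.Agent.Work.MP_e17eac_co.HS
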