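import Pool.Agent.Work.MP_e17eac_co.HS.StC
import Pool.Agent.Work.MP_e17eac_co.Bd.B19

/-!
# HS, item U: the upper bound for the hulls
-/

namespace Pool.Agent.Work.MP_e17eac_co.HS

open Finset
open Pool.Agent.Work.MP_e17eac_co.DH
open Pool.Agent.Work.MP_e17eac_co.B1

namespace XU

variable {ι : Type} [Fintype ι] [DecidableEq ι]

theorem t_le (K : KSys ι) {n k : ℕ} (h : n ≤ k) (hk : k < K.N) : K.t n ≤ K.t k := by
  rcases Nat.eq_or_lt_of_le h with h | h
  · rw [h]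
  · exact (K.t_lt n k h hk).le

theorem ta_le (K : KSys ι) {b x c i : ℕ} (hi : cell K b x i = c) (hN : i < K.N) :
    ta K b x c ≤ K.t i :=
  t_le K (Nat.sInf_le hi) hN

theorem le_tb (K : KSys ι) {b x c i : ℕ} (hi : cell K b x i = c) (hN : i < K.N) :
    K.t i ≤ tb K b x c := by
  have hmem : i ∈ ce K b x c := mem_filter.2 ⟨mem_range.2 hN, hi⟩
  refine t_le K (le_sup (f := id) hmem) ?_
  refine (Finset.sup_lt_iff (lt_of_le_of_lt (Nat.zero_le _) hN)).2 ?_
  intro j hj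
  exact mem_range.1 (mem_filter.1 hj).1

/-- Cells are monotone. -/
def Mono (K : KSys ι) (b x : ℕ) : Prop := ∀ i j, i ≤ j → cell K b x i ≤ cell K b x j

theorem lt_of_cell {K : KSys ι} {b x : ℕ} (hm : Mono K b x) {i j : ℕ}
    (h : cell K b x i < cell K b x j) : i < j := by
  by_contra hc
  exact absurd (hm j i (not_lt.1 hc)) (not_le.2 h)

theorem ta_le' {K : KSys ι} {b x c : ℕ} (hm : Mono K b x) {i k : ℕ}
    (hi : cell K b x i = c) (hk : k < K.N) (h : c ≤ cell K b x k) : ta K b x c ≤ K.t k := by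
  rcases Nat.eq_or_lt_of_le h with h | h
  · exact ta_le K h.symm hk
  · have hik : i < k := lt_of_cell hm (by rw [hi]; exact h)
    exact (ta_le K hi (hik.trans hk)).trans (t_le K hik.le hk)

theorem le_tb' {K : KSys ι} {b x c : ℕ} (hm : Mono K b x) {i k : ℕ}
    (hi : cell K b x i = c) (hN : i < K.N) (hk : k < K.N) (h : cell K b x k ≤ c) :
    K.t k ≤ tb K b x c := by
  rcases Nat.eq_or_lt_of_le h with h | h
  · exact le_tb K h hk
  · have hik : k < i := lt_of_cell hm (by rw [hi]; exact h)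
    exact (t_le K hik.le hN).trans (le_tb K hi hN)

theorem tb_lt_ta {K : KSys ι} {b x c c' : ℕ} (hm : Mono K b x) {i i' : ℕ}
    (hi : cell K b x i = c) (hi' : cell K b x i' = c') (hN : i < K.N) (hN' : i' < K.N)
    (h : c < c') : tb K b x c < ta K b x c' := by
  have hmem : i ∈ ce K b x c := mem_filter.2 ⟨mem_range.2 hN, hi⟩
  obtain ⟨m1, hm1, he⟩ := Finset.exists_mem_eq_sup (ce K b x c) ⟨i, hmem⟩ id
  have hm1' := mem_filter.1 hm1
  have hm2 : cell K b x (sInf {i | cell K b x i = c'}) = c' :=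
    Nat.sInf_mem (s := {i | cell K b x i = c'}) ⟨i', hi'⟩
  have hlt : m1 < sInf {i | cell K b x i = c'} :=
    lt_of_cell hm (by rw [hm1'.2, hm2]; exact h)
  have hle : sInf {i | cell K b x i = c'} ≤ i' := Nat.sInf_le hi'
  unfold tb ta
  rw [he]
  exact K.t_lt _ _ hlt (lt_of_le_of_lt hle hN')

theorem ht_sub (K : KSys ι) (p q : ι) (s : ℝ) :
    K.ht p s - K.ht q s = (K.y p - K.y q) + (K.x p - K.x q) * s := by
  unfold KSys.ht; ring

/-- An affine function bounded at two times. -/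
theorem affine_bd {A B r t1 t2 t h b l : ℝ} (hb : 0 ≤ b) (h12 : t1 < t2)
    (h1 : |A + B * t1| ≤ r) (h2 : |A + B * t2| ≤ r) (hh : h ≤ b * (t2 - t1)) (hl : t2 - t1 ≤ l)
    (ht : |t - t1| ≤ l) : |A + B * t| * h ≤ 3 * b * r * l := by
  have hr : 0 ≤ r := (abs_nonneg _).trans h1
  have hl0 : 0 ≤ l := (abs_nonneg _).trans ht
  have h21 : 0 < t2 - t1 := by linarith
  have key : (t2 - t1) * |A + B * t| ≤ (t2 - t1) * r + l * (2 * r) := by
    have e : (t2 - t1) * (A + B * t) =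
        (t2 - t1) * (A + B * t1) + (t - t1) * ((A + B * t2) - (A + B * t1)) := by ring
    have h3 : |(A + B * t2) - (A + B * t1)| ≤ 2 * r := by
      have := abs_sub (A + B * t2) (A + B * t1)
      linarith
    calc (t2 - t1) * |A + B * t| = |(t2 - t1) * (A + B * t)| := by
          rw [abs_mul, abs_of_pos h21]
      _ = |(t2 - t1) * (A + B * t1) + (t - t1) * ((A + B * t2) - (A + B * t1))| := by rw [e]
      _ ≤ |(t2 - t1) * (A + B * t1)| + |(t - t1) * ((A + B * t2) - (A + B * t1))| := abs_add_le _ _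
      _ = (t2 - t1) * |A + B * t1| + |t - t1| * |(A + B * t2) - (A + B * t1)| := by
          rw [abs_mul, abs_mul, abs_of_pos h21]
      _ ≤ (t2 - t1) * r + l * (2 * r) := by
          refine add_le_add (mul_le_mul_of_nonneg_left h1 h21.le) ?_
          exact mul_le_mul ht h3 (abs_nonneg _) hl0
  calc |A + B * t| * h ≤ |A + B * t| * (b * (t2 - t1)) :=
        mul_le_mul_of_nonneg_left hh (abs_nonneg _)
    _ = b * ((t2 - t1) * |A + B * t|) := by ring
    _ ≤ b * ((t2 - t1) * r + l * (2 * r)) := mul_le_mul_of_nonneg_left key hb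
    _ ≤ b * (l * r + l * (2 * r)) := by
        refine mul_le_mul_of_nonneg_left ?_ hb
        have := mul_le_mul_of_nonneg_right hl hr
        linarith
    _ = 3 * b * r * l := by ring

/-- Pigeonhole for the pairs. -/
theorem pigeon (F : Finset ℕ) (a : ℕ → ι) (cl : ℕ → ℕ) (A B : ℕ → Finset ℕ)
    (Bad : Finset (ℕ × ℕ)) (q l : ℝ) (hq : 0 ≤ q)
    (hA : ∀ i ∈ F, ∀ v ∈ A i, a v = a i ∧ cl v = cl i)
    (hAq : ∀ i ∈ F, q ≤ ((A i).card : ℝ)) (hBq : ∀ i ∈ F, q ≤ ((B i).card : ℝ))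
    (hBad : ∀ v ∈ Bad, ((F.filter (fun i => a i = a v.1 ∧ cl i = cl v.1)).card : ℝ) ≤ l)
    (hlt : (Bad.card : ℝ) * l < F.card * q ^ 2) :
    ∃ i ∈ F, ∃ i1 ∈ A i, ∃ i2 ∈ B i, (i1, i2) ∉ Bad := by
  classical
  by_contra hcon
  push Not at hcon
  have h1 : ∀ i ∈ F, q ^ 2 ≤
      ((Bad.filter (fun v => a i = a v.1 ∧ cl i = cl v.1)).card : ℝ) := by
    intro i hi
    have hsub : (A i) ×ˢ (B i) ⊆ Bad.filter (fun v => a i = a v.1 ∧ cl i = cl v.1) := by
      intro v hv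
      rw [mem_product] at hv
      have hA' := hA i hi v.1 hv.1
      exact mem_filter.2 ⟨hcon i hi v.1 hv.1 v.2 hv.2, hA'.1.symm, hA'.2.symm⟩
    have h := card_le_card hsub
    rw [card_product] at h
    calc q ^ 2 = q * q := by ring
      _ ≤ ((A i).card : ℝ) * ((B i).card : ℝ) :=
          mul_le_mul (hAq i hi) (hBq i hi) hq (Nat.cast_nonneg _)
      _ ≤ _ := by exact_mod_cast h
  have h2 : (F.card : ℝ) * q ^ 2 ≤
      ∑ i ∈ F, ((Bad.filter (fun v => a i = a v.1 ∧ cl i = cl v.1)).card : ℝ) := by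
    calc (F.card : ℝ) * q ^ 2 = ∑ _i ∈ F, q ^ 2 := by rw [sum_const, nsmul_eq_mul]
      _ ≤ _ := sum_le_sum h1
  have h3 : ∑ i ∈ F, ((Bad.filter (fun v => a i = a v.1 ∧ cl i = cl v.1)).card : ℝ) =
      ∑ v ∈ Bad, ((F.filter (fun i => a i = a v.1 ∧ cl i = cl v.1)).card : ℝ) := by
    have := Finset.sum_card_bipartiteAbove_eq_sum_card_bipartiteBelow
      (s := F) (t := Bad) (fun (i : ℕ) (v : ℕ × ℕ) => a i = a v.1 ∧ cl i = cl v.1)
    unfold Finset.bipartiteAbove Finset.bipartiteBelow at this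
    exact_mod_cast this
  have h4 : ∑ v ∈ Bad, ((F.filter (fun i => a i = a v.1 ∧ cl i = cl v.1)).card : ℝ) ≤
      (Bad.card : ℝ) * l := by
    calc _ ≤ ∑ _v ∈ Bad, l := sum_le_sum hBad
      _ = (Bad.card : ℝ) * l := by rw [sum_const, nsmul_eq_mul]
  linarith [h2, h3, h4]

/-- Counting over fibres. -/
theorem card_fib (P : Finset (ℕ × ℕ)) (S : Finset ℕ) (g : ℕ × ℕ → ℕ) (l : ℝ)
    (hg : ∀ v ∈ P, g v ∈ S) (hf : ∀ j ∈ S, ((P.filter (fun v => g v = j)).card : ℝ) ≤ l) :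
    (P.card : ℝ) ≤ S.card * l := by
  rw [card_eq_sum_card_fiberwise hg]
  push_cast
  calc ∑ j ∈ S, ((P.filter (fun v => g v = j)).card : ℝ) ≤ ∑ _j ∈ S, l := sum_le_sum hf
    _ = (S.card : ℝ) * l := by rw [sum_const, nsmul_eq_mul]

theorem ex_even (R F z : ℕ) : ex R F (2 * z) = R * z := by
  unfold ex
  have h1 : 2 * z / 2 = z := by omega
  have h2 : 2 * z % 2 = 0 := by omega
  rw [h1, h2]
  simp

theorem eps1_div {ε D' : ℝ} (hε : 0 < ε) (hε1 : ε ≤ 1) (hD' : 1 ≤ D') {D0 : ℝ}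
    (hDD : D0 ≤ D') : D0 / (ε / D') ^ 5 ≤ (D' / ε) ^ 6 := by
  have hD0' : 0 < D' := by linarith
  have h1 : D0 / (ε / D') ^ 5 = D0 * (D' / ε) ^ 5 := by
    rw [div_eq_mul_inv, ← inv_pow, inv_div]
  rw [h1]
  have h2 : D0 ≤ D' / ε := by
    rw [le_div_iff₀ hε]
    nlinarith
  calc D0 * (D' / ε) ^ 5 ≤ (D' / ε) * (D' / ε) ^ 5 :=
        mul_le_mul_of_nonneg_right h2 (by positivity)
    _ = (D' / ε) ^ 6 := by ring

theorem bg_of {K : KSys ι} {b M J : ℕ} {e : ℕ → ℕ} {D' ε ρ : ℝ} {k C : ℕ}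
    (h : Bg K b M J e D' ε ρ k C) (hD' : 1 ≤ D') {D0 : ℝ} (hD0 : 0 < D0) (hDD : D0 ≤ D')
    {C0 : ℕ} (hC : 6 * C0 ≤ C) : Bg K b M J e D0 ((ε / D') ^ 5) ρ k C0 := by
  have hε := h.ep
  have hε1 := h.e1
  have hD0' : 0 < D' := by linarith
  have hr : ε / D' ≤ 1 := by
    rw [div_le_one hD0']; linarith
  have hr0 : 0 < ε / D' := div_pos hε hD0'
  have hQ : 1 ≤ D' / ε := by
    rw [le_div_iff₀ hε]; linarith
  have h1 := eps1_div hε hε1 hD' hDD
  have h2 : (D0 / (ε / D') ^ 5) ^ (C0 * (k + 1)) ≤ (D' / ε) ^ (C * (k + 1)) := by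
    calc (D0 / (ε / D') ^ 5) ^ (C0 * (k + 1)) ≤ ((D' / ε) ^ 6) ^ (C0 * (k + 1)) :=
          pow_le_pow_left₀ (by positivity) h1 _
      _ = (D' / ε) ^ (6 * (C0 * (k + 1))) := by rw [← pow_mul]
      _ ≤ (D' / ε) ^ (C * (k + 1)) := by
          refine pow_le_pow_right₀ hQ ?_
          calc 6 * (C0 * (k + 1)) = (6 * C0) * (k + 1) := by ring
            _ ≤ C * (k + 1) := Nat.mul_le_mul_right _ hC
  refine ⟨by positivity, pow_le_one₀ hr0.le hr, h2.trans h.rho, h.it, ?_⟩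
  exact (mul_le_mul_of_nonneg_right h2 (by positivity)).trans h.nn


/-- The number of bad pairs. -/
theorem bad_card {K : KSys ι} {b x : ℕ} {E4 X4 XP : Finset ℕ} {BLB : Finset (ℕ × ℕ)} {l : ℝ}
    (hl0 : 0 ≤ l)
    (hl : ∀ j ∈ E4, ((E4.filter (fun i => K.a i = K.a j ∧ cell K b x i = cell K b x j)).card : ℝ)
      ≤ l) :
    ((((PP K b x E4).filter (fun v => v.1 ∈ X4 ∨ v.2 ∈ X4 ∨ v.1 ∈ XP)) ∪ BLB).card : ℝ) ≤
      (2 * X4.card + XP.card) * l + BLB.card := by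
  classical
  set P := PP K b x E4 with hP
  have hmem : ∀ v ∈ P, v.1 ∈ E4 ∧ v.2 ∈ E4 ∧ K.a v.1 = K.a v.2 ∧
      cell K b x v.1 = cell K b x v.2 := by
    intro v hv
    have h1 := mem_filter.1 hv
    have h2 := mem_product.1 h1.1
    exact ⟨h2.1, h2.2, h1.2.1, h1.2.2⟩
  -- fibres of the first projection
  have f1 : ∀ S : Finset ℕ, (((P.filter (fun v => v.1 ∈ S)).card : ℕ) : ℝ) ≤ S.card * l := by
    intro S
    refine card_fib _ S Prod.fst l (fun v hv => (mem_filter.1 hv).2) ?_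
    intro j hj
    by_cases hjE : j ∈ E4
    · refine le_trans ?_ (hl j hjE)
      have : ((P.filter (fun v => v.1 ∈ S)).filter (fun v => v.1 = j)).card ≤
          (E4.filter (fun i => K.a i = K.a j ∧ cell K b x i = cell K b x j)).card := by
        refine card_le_card_of_injOn Prod.snd ?_ ?_
        · intro v hv
          have h1 := mem_filter.1 (mem_coe.1 hv)
          have h2 := hmem v (mem_filter.1 h1.1).1
          refine mem_coe.2 (mem_filter.2 ⟨h2.2.1, ?_, ?_⟩)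
          · rw [← h1.2]; exact h2.2.2.1.symm
          · rw [← h1.2]; exact h2.2.2.2.symm
        · intro v hv v' hv' h
          have h1 := (mem_filter.1 (mem_coe.1 hv)).2
          have h2 := (mem_filter.1 (mem_coe.1 hv')).2
          exact Prod.ext (h1.trans h2.symm) h
      exact_mod_cast this
    · have : ((P.filter (fun v => v.1 ∈ S)).filter (fun v => v.1 = j)) = ∅ := by
        refine eq_empty_of_forall_notMem ?_
        intro v hv
        have h1 := mem_filter.1 hv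
        have h2 := hmem v (mem_filter.1 h1.1).1
        exact hjE (h1.2 ▸ h2.1)
      rw [this]
      simpa using hl0
  have f2 : ∀ S : Finset ℕ, (((P.filter (fun v => v.2 ∈ S)).card : ℕ) : ℝ) ≤ S.card * l := by
    intro S
    refine card_fib _ S Prod.snd l (fun v hv => (mem_filter.1 hv).2) ?_
    intro j hj
    by_cases hjE : j ∈ E4
    · refine le_trans ?_ (hl j hjE)
      have : ((P.filter (fun v => v.2 ∈ S)).filter (fun v => v.2 = j)).card ≤
          (E4.filter (fun i => K.a i = K.a j ∧ cell K b x i = cell K b x j)).card := by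
        refine card_le_card_of_injOn Prod.fst ?_ ?_
        · intro v hv
          have h1 := mem_filter.1 (mem_coe.1 hv)
          have h2 := hmem v (mem_filter.1 h1.1).1
          refine mem_coe.2 (mem_filter.2 ⟨h2.1, ?_, ?_⟩)
          · rw [← h1.2]; exact h2.2.2.1
          · rw [← h1.2]; exact h2.2.2.2
        · intro v hv v' hv' h
          have h1 := (mem_filter.1 (mem_coe.1 hv)).2
          have h2 := (mem_filter.1 (mem_coe.1 hv')).2
          exact Prod.ext h (h1.trans h2.symm)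
      exact_mod_cast this
    · have : ((P.filter (fun v => v.2 ∈ S)).filter (fun v => v.2 = j)) = ∅ := by
        refine eq_empty_of_forall_notMem ?_
        intro v hv
        have h1 := mem_filter.1 hv
        have h2 := hmem v (mem_filter.1 h1.1).1
        exact hjE (h1.2 ▸ h2.2.1)
      rw [this]
      simpa using hl0
  have hsub : (P.filter (fun v => v.1 ∈ X4 ∨ v.2 ∈ X4 ∨ v.1 ∈ XP)) ∪ BLB ⊆
      ((P.filter (fun v => v.1 ∈ X4)) ∪ (P.filter (fun v => v.2 ∈ X4))) ∪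
        ((P.filter (fun v => v.1 ∈ XP)) ∪ BLB) := by
    intro v hv
    rcases mem_union.1 hv with hv | hv
    · have h1 := mem_filter.1 hv
      rcases h1.2 with h | h | h
      · exact mem_union_left _ (mem_union_left _ (mem_filter.2 ⟨h1.1, h⟩))
      · exact mem_union_left _ (mem_union_right _ (mem_filter.2 ⟨h1.1, h⟩))
      · exact mem_union_right _ (mem_union_left _ (mem_filter.2 ⟨h1.1, h⟩))
    · exact mem_union_right _ (mem_union_right _ hv)
  have hc1 := card_le_card hsub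
  have hc2 := hc1.trans (card_union_le _ _)
  have hc3 : (((P.filter (fun v => v.1 ∈ X4 ∨ v.2 ∈ X4 ∨ v.1 ∈ XP)) ∪ BLB).card : ℝ) ≤
      (((P.filter (fun v => v.1 ∈ X4)) ∪ (P.filter (fun v => v.2 ∈ X4))).card : ℝ) +
      (((P.filter (fun v => v.1 ∈ XP)) ∪ BLB).card : ℝ) := by exact_mod_cast hc2
  have hc4 : (((P.filter (fun v => v.1 ∈ X4)) ∪ (P.filter (fun v => v.2 ∈ X4))).card : ℝ) ≤
      ((P.filter (fun v => v.1 ∈ X4)).card : ℝ) + ((P.filter (fun v => v.2 ∈ X4)).card : ℝ) := by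
    exact_mod_cast card_union_le _ _
  have hc5 : (((P.filter (fun v => v.1 ∈ XP)) ∪ BLB).card : ℝ) ≤
      ((P.filter (fun v => v.1 ∈ XP)).card : ℝ) + (BLB.card : ℝ) := by
    exact_mod_cast card_union_le _ _
  have g1 := f1 X4
  have g2 := f2 X4
  have g3 := f1 XP
  linarith

/-- The final numerical contradiction. -/
theorem num_end {n s sy sz T ρ Q D' ε1 : ℝ} {bx b4y b4z bR : ℝ} {C1 : ℕ}
    (hn : 0 < n) (hbx : 0 < bx) (hb4y : 0 < b4y) (hb4z : 0 < b4z) (hbR : 0 < bR)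
    (hε1 : 0 < ε1) (hD' : 0 < D') (hT : 0 ≤ T)
    (hlb : ε1 ^ C1 * (n * bx) ≤ D' ^ C1 * T * b4z)
    (hpl : T ^ 2 ≤ ρ ^ 6 * (n / b4y) * (n / b4z))
    (hexp : b4z * bR ^ 2 ≤ bx ^ 2 * b4y) (hρ1 : 1 ≤ ρ) (hρR : ρ ^ 8 ≤ bR)
    (hQ1 : 1 < Q) (hQ : D' / ε1 ≤ Q ^ 6) (hQρ : Q ^ (12 * C1 + 1) ≤ ρ) : False := by
  have hρ0 : 0 < ρ := by linarith
  -- square the lower bound
  have h1 : (ε1 ^ C1 * (n * bx)) ^ 2 ≤ (D' ^ C1 * T * b4z) ^ 2 :=
    pow_le_pow_left₀ (by positivity) hlb 2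
  have h2 : (D' ^ C1 * T * b4z) ^ 2 ≤ (D' ^ C1) ^ 2 * b4z ^ 2 * (ρ ^ 6 * (n / b4y) * (n / b4z)) := by
    calc (D' ^ C1 * T * b4z) ^ 2 = (D' ^ C1) ^ 2 * b4z ^ 2 * T ^ 2 := by ring
      _ ≤ _ := mul_le_mul_of_nonneg_left hpl (by positivity)
  have h3 : (D' ^ C1) ^ 2 * b4z ^ 2 * (ρ ^ 6 * (n / b4y) * (n / b4z)) =
      (D' ^ C1) ^ 2 * ρ ^ 6 * n ^ 2 * (b4z / b4y) := by
    field_simp
  have h4 : (ε1 ^ C1) ^ 2 * n ^ 2 * bx ^ 2 ≤ (D' ^ C1) ^ 2 * ρ ^ 6 * n ^ 2 * (b4z / b4y) := by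
    calc (ε1 ^ C1) ^ 2 * n ^ 2 * bx ^ 2 = (ε1 ^ C1 * (n * bx)) ^ 2 := by ring
      _ ≤ _ := (h1.trans h2).trans h3.le
  have h5 : (ε1 ^ C1) ^ 2 * (bx ^ 2 * b4y) ≤ (D' ^ C1) ^ 2 * ρ ^ 6 * b4z := by
    have h6 : (ε1 ^ C1) ^ 2 * n ^ 2 * bx ^ 2 * b4y ≤ (D' ^ C1) ^ 2 * ρ ^ 6 * n ^ 2 * b4z := by
      calc (ε1 ^ C1) ^ 2 * n ^ 2 * bx ^ 2 * b4y ≤
            (D' ^ C1) ^ 2 * ρ ^ 6 * n ^ 2 * (b4z / b4y) * b4y :=
            mul_le_mul_of_nonneg_right h4 hb4y.le
        _ = (D' ^ C1) ^ 2 * ρ ^ 6 * n ^ 2 * b4z := by field_simp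
    have h7 : n ^ 2 * ((ε1 ^ C1) ^ 2 * (bx ^ 2 * b4y)) ≤
        n ^ 2 * ((D' ^ C1) ^ 2 * ρ ^ 6 * b4z) := by
      calc n ^ 2 * ((ε1 ^ C1) ^ 2 * (bx ^ 2 * b4y)) =
            (ε1 ^ C1) ^ 2 * n ^ 2 * bx ^ 2 * b4y := by ring
        _ ≤ _ := h6
        _ = _ := by ring
    exact le_of_mul_le_mul_left h7 (by positivity)
  have h8 : (ε1 ^ C1) ^ 2 * (b4z * (ρ ^ 8) ^ 2) ≤ (D' ^ C1) ^ 2 * ρ ^ 6 * b4z := by
    refine le_trans ?_ h5
    refine mul_le_mul_of_nonneg_left ?_ (by positivity)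
    refine le_trans ?_ hexp
    exact mul_le_mul_of_nonneg_left (pow_le_pow_left₀ (by positivity) hρR 2) hb4z.le
  have h9 : (ε1 ^ C1) ^ 2 * ρ ^ 10 ≤ (D' ^ C1) ^ 2 := by
    have h10 : (ρ ^ 6 * b4z) * ((ε1 ^ C1) ^ 2 * ρ ^ 10) ≤ (ρ ^ 6 * b4z) * (D' ^ C1) ^ 2 := by
      calc (ρ ^ 6 * b4z) * ((ε1 ^ C1) ^ 2 * ρ ^ 10) =
            (ε1 ^ C1) ^ 2 * (b4z * (ρ ^ 8) ^ 2) := by ring
        _ ≤ _ := h8
        _ = _ := by ring
    exact le_of_mul_le_mul_left h10 (by positivity)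
  have h11 : ρ ≤ (D' / ε1) ^ (2 * C1) := by
    have h12 : ρ ≤ ρ ^ 10 := le_self_pow₀ hρ1 (by norm_num)
    have h13 : ρ ^ 10 ≤ (D' / ε1) ^ (2 * C1) := by
      rw [div_pow, le_div_iff₀ (by positivity)]
      calc ρ ^ 10 * ε1 ^ (2 * C1) = (ε1 ^ C1) ^ 2 * ρ ^ 10 := by
            rw [← pow_mul, mul_comm C1 2]; ring
        _ ≤ (D' ^ C1) ^ 2 := h9
        _ = D' ^ (2 * C1) := by rw [← pow_mul, mul_comm C1 2]
    exact h12.trans h13
  have h14 : ρ ≤ Q ^ (12 * C1) := by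
    calc ρ ≤ (D' / ε1) ^ (2 * C1) := h11
      _ ≤ (Q ^ 6) ^ (2 * C1) := pow_le_pow_left₀ (by positivity) hQ _
      _ = Q ^ (12 * C1) := by rw [← pow_mul]; congr 1; ring
  have h15 : Q ^ (12 * C1) < Q ^ (12 * C1 + 1) := pow_lt_pow_right₀ hQ1 (Nat.lt_succ_self _)
  linarith

/-- The numerical inequality for the pigeonhole. -/
theorem num_pig {N ns D D' ε ε1 cF cX4 cXP cBLB cBad : ℝ} (hN : 0 < N) (hns : 0 < ns)
    (hD : 1 ≤ D) (hDD : D ≤ D') (hε : 0 < ε) (hε1 : ε ≤ 1) (hε1d : ε1 = (ε / D') ^ 5)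
    (hD4 : 8 ≤ D') (hF : ε * N < cF) (h4 : cX4 ≤ ε1 * N) (hP : cXP ≤ ε1 * N)
    (hB : cBLB * ns ≤ ε1 * N ^ 2)
    (hBad : cBad ≤ (2 * cX4 + cXP) * (D * N / ns) + cBLB) :
    cBad * (D * N / ns) < cF * (N / (D' * ns)) ^ 2 := by
  have hD0 : 0 < D := by linarith
  have hD'0 : 0 < D' := by linarith
  have hε10 : 0 < ε1 := by rw [hε1d]; positivity
  have hBLB : cBLB ≤ ε1 * N ^ 2 / ns := by rw [le_div_iff₀ hns]; exact hB
  have h1 : cBad ≤ 4 * ε1 * D * N ^ 2 / ns := by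
    calc cBad ≤ (2 * cX4 + cXP) * (D * N / ns) + cBLB := hBad
      _ ≤ (3 * (ε1 * N)) * (D * N / ns) + ε1 * N ^ 2 / ns := by
          refine add_le_add (mul_le_mul_of_nonneg_right (by linarith) (by positivity)) hBLB
      _ ≤ (3 * (ε1 * N)) * (D * N / ns) + ε1 * (D * N ^ 2) / ns := by
          have : ε1 * N ^ 2 / ns ≤ ε1 * (D * N ^ 2) / ns := by
            refine div_le_div_of_nonneg_right ?_ hns.le
            refine mul_le_mul_of_nonneg_left ?_ hε10.le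
            nlinarith [sq_nonneg N]
          linarith
      _ = 4 * ε1 * D * N ^ 2 / ns := by ring
  have h2 : cBad * (D * N / ns) ≤ 4 * ε1 * D ^ 2 * N ^ 3 / ns ^ 2 := by
    calc cBad * (D * N / ns) ≤ (4 * ε1 * D * N ^ 2 / ns) * (D * N / ns) :=
          mul_le_mul_of_nonneg_right h1 (by positivity)
      _ = 4 * ε1 * D ^ 2 * N ^ 3 / ns ^ 2 := by field_simp
  have h3 : 4 * ε1 * D ^ 2 ≤ ε / D' ^ 2 / 2 := by
    have e1 : ε1 = ε ^ 5 / D' ^ 5 := by rw [hε1d, div_pow]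
    have e2 : ε ^ 5 ≤ ε := by
      calc ε ^ 5 ≤ ε ^ 1 := pow_le_pow_of_le_one hε.le hε1 (by norm_num)
        _ = ε := pow_one ε
    have e3 : D ^ 2 ≤ D' ^ 2 := pow_le_pow_left₀ hD0.le hDD 2
    calc 4 * ε1 * D ^ 2 ≤ 4 * ε1 * D' ^ 2 := mul_le_mul_of_nonneg_left e3 (by positivity)
      _ = 4 * ε ^ 5 / D' / D' ^ 2 := by rw [e1]; field_simp
      _ ≤ 4 * ε / D' / D' ^ 2 := by
          refine div_le_div_of_nonneg_right (div_le_div_of_nonneg_right ?_ hD'0.le)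
            (by positivity)
          linarith
      _ ≤ (ε / 2) / D' ^ 2 := by
          refine div_le_div_of_nonneg_right ?_ (by positivity)
          rw [div_le_iff₀ hD'0]
          nlinarith
      _ = ε / D' ^ 2 / 2 := by ring
  have h4' : cBad * (D * N / ns) ≤ (ε / D' ^ 2 / 2) * (N ^ 3 / ns ^ 2) := by
    calc cBad * (D * N / ns) ≤ 4 * ε1 * D ^ 2 * N ^ 3 / ns ^ 2 := h2
      _ = (4 * ε1 * D ^ 2) * (N ^ 3 / ns ^ 2) := by ring
      _ ≤ _ := mul_le_mul_of_nonneg_right h3 (by positivity)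
  have h5 : (ε / D' ^ 2 / 2) * (N ^ 3 / ns ^ 2) < (ε / D' ^ 2) * (N ^ 3 / ns ^ 2) := by
    have hp : 0 < (ε / D' ^ 2) * (N ^ 3 / ns ^ 2) := by positivity
    have : (ε / D' ^ 2 / 2) * (N ^ 3 / ns ^ 2) = ((ε / D' ^ 2) * (N ^ 3 / ns ^ 2)) / 2 := by ring
    rw [this]
    linarith
  have h6 : (ε / D' ^ 2) * (N ^ 3 / ns ^ 2) = (ε * N) * (N / (D' * ns)) ^ 2 := by
    field_simp
  have h7 : (ε * N) * (N / (D' * ns)) ^ 2 ≤ cF * (N / (D' * ns)) ^ 2 :=
    mul_le_mul_of_nonneg_right hF.le (by positivity)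
  linarith

end XU

theorem I_U (hc : B1.StCell) : StU := by
  classical
  intro hLB hPl
  obtain ⟨C1, hLB⟩ := hLB
  obtain ⟨C2, hPl⟩ := hPl
  refine ⟨12 * C1 + 6 * C2 + 10, ?_⟩
  intro ι α _ _ _ K hinj b M m R F ec D D' ρ L E E4 X4 U c f u u' rm rp h4 ε k hBg hρR hX4
    x y z hx1 hxz hy1 hyz hzm hxy
  set X := E4.filter (fun i => ¬ ((g1 K b (R * x) (R * x + c) (U x) i -
    g0 K b (R * x) (R * x + c) (U x) i) * rm y (K.a i) ≤
      rp z (K.a i) * (tb K b f u' - ta K b f u))) with hXdef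
  by_cases hX : (X.card : ℝ) ≤ ε * K.N
  · refine ⟨X, filter_subset _ _, hX, fun i hi => ?_⟩
    rw [mem_sdiff] at hi
    by_contra hcon
    exact hi.2 (mem_filter.2 ⟨hi.1, hcon⟩)
  exfalso
  have hXgt : ε * K.N < (X.card : ℝ) := not_le.1 hX
  -- basic facts
  have ls := h4.ls
  have hb2 : 2 ≤ b := ls.lev.two
  have hb2' : (2 : ℝ) ≤ b := by exact_mod_cast hb2
  have hb1 : (1 : ℝ) ≤ b := by linarith
  have hTh : (2 : ℝ) ^ 64 ≤ Th b := by
    unfold Th; exact pow_le_pow_left₀ (by norm_num) hb2' 64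
  have hDTh : (2 : ℝ) ^ 64 ≤ D := hTh.trans ls.bD
  have hD1 : (1 : ℝ) ≤ D := le_trans (by norm_num) hDTh
  have hDD := h4.DD
  have hD'1 : (1 : ℝ) ≤ D' := hD1.trans hDD
  have hD'8 : (8 : ℝ) ≤ D' := le_trans (by norm_num) (hDTh.trans hDD)
  have hD0 : (0 : ℝ) < D := by linarith
  have hD'0 : (0 : ℝ) < D' := by linarith
  have hNpos : 0 < K.N := ls.npos
  have hN0 : (0 : ℝ) < K.N := by exact_mod_cast hNpos
  haveI : Nonempty ι := ⟨K.a 0⟩
  have hn0 : (0 : ℝ) < Fintype.card ι := by exact_mod_cast Fintype.card_pos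
  have hε := hBg.ep
  have hε1 := hBg.e1
  have hsub := h4.sub
  have hlt : ∀ i ∈ E4, i < K.N := fun i hi => (ls.hyg i (hsub hi)).lt
  have hex : ∀ w, ex R F (2 * w) = R * w := XU.ex_even R F
  have hex0 : ex R F 0 = 0 := by simpa using hex 0
  have hxm : x ≤ m := by omega
  have hym : y ≤ m := by omega
  have hRxM : R * x ≤ M := by
    have h := ls.lev.child (2 * x) (by omega)
    rw [hex x] at h
    exact (h.1.trans_le h.2).le
  -- cells
  have hmono : ∀ w, XU.Mono K b w := fun w => (hc ι K b w (by omega)).2.1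
  have hnest : ∀ {z1 x1 i1 i2 : ℕ}, z1 ≤ x1 → cell K b x1 i1 = cell K b x1 i2 →
      cell K b z1 i1 = cell K b z1 i2 := by
    intro z1 x1 i1 i2 hle he
    have h := (hc ι K b x1 (by omega)).2.2.1 z1 hle
    rw [h i1, h i2, he]
  have hcell0 : ∀ i, i < K.N → cell K b 0 i = 0 := (hc ι K b 0 (by omega)).2.2.2.1
  -- the constants
  set ε1 : ℝ := (ε / D') ^ 5 with hε1d
  have hε10 : 0 < ε1 := by rw [hε1d]; positivity
  have hr1 : ε / D' ≤ 1 := by rw [div_le_one hD'0]; linarith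
  have hr0 : 0 < ε / D' := div_pos hε hD'0
  have hBgLB : Bg K b M (2 * m + 1) (ex R F) D' ε1 ρ k C1 :=
    XU.bg_of hBg hD'1 hD'0 le_rfl (by omega)
  have hBgPl : Bg K b M (2 * m + 1) (ex R F) D ε1 ρ k C2 :=
    XU.bg_of hBg hD'1 hD0 hDD (by omega)
  have hρ1 : 1 ≤ ρ := h4.one
  have hbR1 : (1 : ℝ) ≤ (b : ℝ) ^ R := one_le_pow₀ hb1
  -- the lower bound
  have hlb := hLB ι α α K hinj b M (2 * m + 1) (ex R F) ec D L E ls D' ε1 ρ k hDD hBgLB
    (2 * x) (2 * z) (2 * z) (by omega) le_rfl (h4.fine z hzm) (h4.fine z hzm) (by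
      rw [hex x, hex z]
      have h1 : ρ ^ 4 ≤ (b : ℝ) ^ R :=
        (pow_le_pow_right₀ hρ1 (by norm_num : 4 ≤ 8)).trans hρR
      calc ρ ^ 4 * (b : ℝ) ^ (R * x + R * z) ≤ (b : ℝ) ^ R * (b : ℝ) ^ (R * x + R * z) :=
            mul_le_mul_of_nonneg_right h1 (by positivity)
        _ = (b : ℝ) ^ (R + (R * x + R * z)) := by rw [← pow_add]
        _ ≤ (b : ℝ) ^ (2 * (R * z)) := by
            refine pow_le_pow_right₀ hb1 ?_
            have : R * (x + 1) ≤ R * z := Nat.mul_le_mul_left _ (by omega)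
            rw [Nat.mul_add] at this
            omega)
    E4 hsub (L.lab (2 * z)) (L.lab (2 * z)) (fun i _ i' _ h => h) (fun i _ i' _ h => h)
    (by
      intro w
      refine le_trans ?_ ((ls.few (2 * z) (by omega) w).trans hDD)
      exact_mod_cast card_le_card (image_subset_image (filter_subset_filter _ hsub)))
    (by
      intro w
      refine le_trans ?_ ((ls.few (2 * z) (by omega) w).trans hDD)
      exact_mod_cast card_le_card (image_subset_image (filter_subset_filter _ hsub)))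
  rw [hex x, hex z] at hlb
  obtain ⟨BLB, hBLBm, hBLBc⟩ : ∃ S : Finset (ℕ × ℕ), (∀ v ∈ PP K b (R * x) E4,
      Sep b L (L.lab (2 * z) v.1) (L.lab (2 * z) v.2) →
      D' ^ C1 * ((NN K E4 (L.lab (2 * z)) v.1 ∩ NN K E4 (L.lab (2 * z)) v.2).card : ℝ) *
        (b : ℝ) ^ (2 * (R * z) + 2 * (R * z)) < ε1 ^ C1 * (Fintype.card ι * (b : ℝ) ^ (R * x)) →
      v ∈ S) ∧ (S.card : ℝ) * (Fintype.card ι * (b : ℝ) ^ (R * x)) ≤ ε1 * (K.N : ℝ) ^ 2 :=
    ⟨_, fun v hv h1 h2 => mem_filter.2 ⟨hv, h1, h2⟩, hlb⟩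
  -- planks
  obtain ⟨XP, hXPs, hXPc, hXPm⟩ := hPl ι α K hinj b M (2 * m + 1) (ex R F) ec D L E ls ε1 ρ k
    hBgPl 0 (2 * y) (2 * z) (by omega) (by omega) (by omega) (by omega)
  -- fibres are light
  set ns : ℝ := Fintype.card ι * (b : ℝ) ^ (R * x) with hns
  have hns0 : 0 < ns := by positivity
  have hl : ∀ j ∈ E4, ((E4.filter (fun i => K.a i = K.a j ∧
      cell K b (R * x) i = cell K b (R * x) j)).card : ℝ) ≤ D * K.N / ns := by
    intro j hj
    rw [le_div_iff₀ hns0]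
    have h1 := (ls.hyg j (hsub hj)).light false (R * x) hRxM
    refine le_trans ?_ h1
    refine mul_le_mul_of_nonneg_right ?_ hns0.le
    have h2 : (E4.filter (fun i => K.a i = K.a j ∧
        cell K b (R * x) i = cell K b (R * x) j)) ⊆
        (range K.N).filter (fun i => K.ln false i = K.ln false j ∧
          cell K b (R * x) i = cell K b (R * x) j) := by
      intro i hi
      have h3 := mem_filter.1 hi
      exact mem_filter.2 ⟨mem_range.2 (hlt i h3.1), h3.2⟩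
    exact_mod_cast card_le_card h2
  -- the set X is a union of fibres
  have hXE : ∀ i ∈ X, i ∈ E4 := fun i hi => (mem_filter.1 hi).1
  set A : ℕ → Finset ℕ := fun i => (EE K b (R * x) E4 i).filter
    (fun i' => cell K b (R * x + c) i' = (U x (K.a i) (cell K b (R * x) i)).1) with hA
  set B : ℕ → Finset ℕ := fun i => (EE K b (R * x) E4 i).filter
    (fun i' => cell K b (R * x + c) i' = (U x (K.a i) (cell K b (R * x) i)).2) with hB
  have tw := h4.tw x hx1 hxm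
  have hX4c : (X4.card : ℝ) ≤ ε1 * K.N := by
    have h1 : (X4.card : ℝ) ≤ (ε / D') ^ (12 * C1 + 6 * C2 + 10) * K.N := by
      rw [div_pow, div_mul_eq_mul_div, le_div_iff₀ (by positivity)]
      calc (X4.card : ℝ) * D' ^ (12 * C1 + 6 * C2 + 10) =
            D' ^ (12 * C1 + 6 * C2 + 10) * X4.card := by ring
        _ ≤ _ := hX4
    refine h1.trans (mul_le_mul_of_nonneg_right ?_ hN0.le)
    exact pow_le_pow_of_le_one hr0.le hr1 (by omega)
  obtain ⟨i, hiX, i1, hi1, i2, hi2, hnb⟩ := XU.pigeon X K.a (fun i => cell K b (R * x) i) A B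
    (((PP K b (R * x) E4).filter (fun v => v.1 ∈ X4 ∨ v.2 ∈ X4 ∨ v.1 ∈ XP)) ∪
      BLB.filter (fun v => v.1 ∈ E4))
    (K.N / (D' * ns)) (D * K.N / ns) (by positivity)
    (by
      intro i _ v hv
      have h1 := mem_filter.1 (mem_filter.1 hv).1
      exact h1.2)
    (by
      intro i hi
      rw [div_le_iff₀ (by positivity)]
      have h1 := tw.ql i (hXE i hi)
      calc (K.N : ℝ) ≤ _ := h1
        _ = ((A i).card : ℝ) * (D' * ns) := by rw [hA, hns]; ring)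
    (by
      intro i hi
      rw [div_le_iff₀ (by positivity)]
      have h1 := tw.qr i (hXE i hi)
      calc (K.N : ℝ) ≤ _ := h1
        _ = ((B i).card : ℝ) * (D' * ns) := by rw [hB, hns]; ring)
    (by
      intro v hv
      have hv1 : v.1 ∈ E4 := by
        rcases mem_union.1 hv with hv | hv
        · exact (mem_product.1 (mem_filter.1 (mem_filter.1 hv).1).1).1
        · exact (mem_filter.1 hv).2
      refine le_trans ?_ (hl v.1 hv1)
      exact_mod_cast card_le_card (filter_subset_filter _ (filter_subset _ _)))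
    (by
      refine XU.num_pig hN0 hns0 hD1 hDD hε hε1 hε1d hD'8 hXgt hX4c hXPc
        (cBLB := ((BLB.filter (fun v => v.1 ∈ E4)).card : ℝ)) ?_ ?_
      · refine le_trans (mul_le_mul_of_nonneg_right ?_ hns0.le) hBLBc
        exact_mod_cast card_le_card (filter_subset _ _)
      · exact XU.bad_card (by positivity) hl)
  -- the good pair
  have hiE := hXE i hiX
  have hi1' := mem_filter.1 hi1
  have hi2' := mem_filter.1 hi2
  have hi1'' := mem_filter.1 hi1'.1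
  have hi2'' := mem_filter.1 hi2'.1
  have hi1E := hi1''.1
  have hi2E := hi2''.1
  have ha1 : K.a i1 = K.a i := hi1''.2.1
  have ha2 : K.a i2 = K.a i := hi2''.2.1
  have hPP : (i1, i2) ∈ PP K b (R * x) E4 :=
    mem_filter.2 ⟨mem_product.2 ⟨hi1E, hi2E⟩, ha1.trans ha2.symm,
      hi1''.2.2.trans hi2''.2.2.symm⟩
  have hn1 : i1 ∉ X4 := fun h => hnb (mem_union_left _ (mem_filter.2 ⟨hPP, Or.inl h⟩))
  have hn2 : i2 ∉ X4 := fun h =>
    hnb (mem_union_left _ (mem_filter.2 ⟨hPP, Or.inr (Or.inl h)⟩))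
  have hn3 : i1 ∉ XP := fun h =>
    hnb (mem_union_left _ (mem_filter.2 ⟨hPP, Or.inr (Or.inr h)⟩))
  have hn4 : (i1, i2) ∉ BLB := fun h =>
    hnb (mem_union_right _ (mem_filter.2 ⟨h, hi1E⟩))
  set p := K.a i with hp
  set cL := (U x p (cell K b (R * x) i)).1 with hcL
  set cR := (U x p (cell K b (R * x) i)).2 with hcR
  have hcLR : cL < cR := tw.lt i hiE
  have hgap : tb K b (R * x + c) cR - ta K b (R * x + c) cL ≤
      b * (ta K b (R * x + c) cR - tb K b (R * x + c) cL) := tw.gap i hiE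
  have hRxc : R * x + c ≤ R * z := by
    have h1 : c ≤ R := h4.fR.2.1
    have h2 : R * (x + 1) ≤ R * z := Nat.mul_le_mul_left _ (by omega)
    rw [Nat.mul_add] at h2
    omega
  -- hulls of the labels of level z
  set w1 := L.lab (2 * z) i1 with hw1
  set w2 := L.lab (2 * z) i2 with hw2
  have hspan : ∀ j ∈ E4, ta K b (R * x + c) (cell K b (R * x + c) j) ≤ L.h0 (L.lab (2 * z) j) ∧
      L.h1 (L.lab (2 * z) j) ≤ tb K b (R * x + c) (cell K b (R * x + c) j) := by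
    intro j hj
    obtain ⟨k1, l1, hk1, hl1, hck, hcl, htk, htl⟩ := ls.span (2 * z) (by omega) j (hsub hj)
    rw [hex z] at hck hcl
    exact ⟨(XU.ta_le K (hnest hRxc hck) hk1).trans htk,
      htl.trans (XU.le_tb K (hnest hRxc hcl) hl1)⟩
  have hs1 := hspan i1 hi1E
  have hs2 := hspan i2 hi2E
  rw [hi1'.2] at hs1
  rw [hi2'.2] at hs2
  have hmid : tb K b (R * x + c) cL < ta K b (R * x + c) cR :=
    XU.tb_lt_ta (hmono _) hi1'.2 hi2'.2 (hlt i1 hi1E) (hlt i2 hi2E) hcLR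
  have hl1 := ls.lt (2 * z) (by omega) i1 (hsub hi1E)
  have hl2 := ls.lt (2 * z) (by omega) i2 (hsub hi2E)
  have hb0 : (0 : ℝ) < b := by linarith
  have hSep : Sep b L w1 w2 := by
    left
    have e1 : L.h0 w2 - L.h1 w1 ≥ ta K b (R * x + c) cR - tb K b (R * x + c) cL := by
      linarith [hs1.2, hs2.1]
    have e2 := mul_le_mul_of_nonneg_left e1 hb0.le
    refine ⟨by linarith [hs1.2, hs2.1], ?_, ?_⟩
    · linarith [hs1.1, hs1.2, hs2.1, hs2.2]
    · linarith [hs1.1, hs1.2, hs2.1, hs2.2]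
  -- the lower bound for T
  set T := NN K E4 (L.lab (2 * z)) i1 ∩ NN K E4 (L.lab (2 * z)) i2 with hT
  have hTlb : ε1 ^ C1 * (Fintype.card ι * (b : ℝ) ^ (R * x)) ≤
      D' ^ C1 * (T.card : ℝ) * (b : ℝ) ^ (2 * (R * z) + 2 * (R * z)) := by
    by_contra hcon
    exact hn4 (hBLBm (i1, i2) hPP hSep (not_le.1 hcon))
  -- the base interval
  have hrt := h4.rt
  have hu : ∃ j, j < K.N ∧ cell K b f j = u := by
    have h1 := hrt.ql i hiE
    have h2 : 0 < ((E4.filter (fun i' => K.a i' = K.a i ∧ cell K b f i' = u)).card : ℝ) := by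
      by_contra hcon
      have h3 : ((E4.filter (fun i' => K.a i' = K.a i ∧ cell K b f i' = u)).card : ℝ) = 0 :=
        le_antisymm (not_lt.1 hcon) (Nat.cast_nonneg _)
      rw [h3, mul_zero] at h1
      linarith
    have h3 : 0 < (E4.filter (fun i' => K.a i' = K.a i ∧ cell K b f i' = u)).card := by
      exact_mod_cast h2
    obtain ⟨j, hj⟩ := card_pos.1 h3
    have h4' := mem_filter.1 hj
    exact ⟨j, hlt j h4'.1, h4'.2.2⟩
  have hu' : ∃ j, j < K.N ∧ cell K b f j = u' := by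
    have h1 := hrt.qr i hiE
    have h2 : 0 < ((E4.filter (fun i' => K.a i' = K.a i ∧ cell K b f i' = u')).card : ℝ) := by
      by_contra hcon
      have h3 : ((E4.filter (fun i' => K.a i' = K.a i ∧ cell K b f i' = u')).card : ℝ) = 0 :=
        le_antisymm (not_lt.1 hcon) (Nat.cast_nonneg _)
      rw [h3, mul_zero] at h1
      linarith
    have h3 : 0 < (E4.filter (fun i' => K.a i' = K.a i ∧ cell K b f i' = u')).card := by
      exact_mod_cast h2
    obtain ⟨j, hj⟩ := card_pos.1 h3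
    have h4' := mem_filter.1 hj
    exact ⟨j, hlt j h4'.1, h4'.2.2⟩
  obtain ⟨ju, hjuN, hju⟩ := hu
  obtain ⟨ju', hju'N, hju'⟩ := hu'
  set s0 := ta K b f u with hs0
  set e0 := tb K b f u' with he0
  -- hulls of labelled levels 2 v, v ≥ 1, are inside the base interval
  have hbase : ∀ v, 1 ≤ v → v ≤ m → ∀ j ∈ E4, s0 ≤ L.h0 (L.lab (2 * v) j) ∧
      L.h1 (L.lab (2 * v) j) ≤ e0 := by
    intro v hv1 hvm j hj
    obtain ⟨k1, l1, hk1, hl1, hck, hcl, htk, htl⟩ := ls.span (2 * v) (by omega) j (hsub hj)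
    rw [hex v] at hck hcl
    have hfv : f ≤ R * v := le_trans h4.fR.1 (Nat.le_mul_of_pos_right _ (by omega))
    have h1 := hnest hfv hck
    have h2 := hnest hfv hcl
    have hm := hrt.mem j hj
    have hult := hrt.lt
    have h3 : u ≤ cell K b f k1 := by
      rw [h1]; rcases hm with hm | hm <;> rw [hm]
      exact hult.le
    have h4' : cell K b f l1 ≤ u' := by
      rw [h2]; rcases hm with hm | hm <;> rw [hm]
      exact hult.le
    exact ⟨(XU.ta_le' (hmono f) hju hk1 h3).trans htk,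
      htl.trans (XU.le_tb' (hmono f) hju' hju'N hl1 h4')⟩
  -- closeness of the lines of T to p
  have hcl : ∀ j ∈ E4, ∀ j' ∈ E4, L.lab (2 * z) j' = L.lab (2 * z) j →
      |K.ht (K.a j') (L.h0 (L.lab (2 * z) j)) - K.ht (K.a j) (L.h0 (L.lab (2 * z) j))| ≤
        L.rho (L.lab (2 * z) j) ∧
      |K.ht (K.a j') (L.h1 (L.lab (2 * z) j)) - K.ht (K.a j) (L.h1 (L.lab (2 * z) j))| ≤
        L.rho (L.lab (2 * z) j) := by
    intro j hj j' hj' he
    have h1 := ls.cls (2 * z) (by omega) j (hsub hj)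
    have h2 := ls.cls (2 * z) (by omega) j' (hsub hj')
    rw [he] at h2
    constructor
    · have h3 := abs_sub_le (K.ht (K.a j') (L.h0 (L.lab (2 * z) j)))
        (L.c0 (L.lab (2 * z) j)) (K.ht (K.a j) (L.h0 (L.lab (2 * z) j)))
      have h4' : |L.c0 (L.lab (2 * z) j) - K.ht (K.a j) (L.h0 (L.lab (2 * z) j))| =
        |K.ht (K.a j) (L.h0 (L.lab (2 * z) j)) - L.c0 (L.lab (2 * z) j)| := abs_sub_comm _ _
      linarith [h1.1, h2.1]
    · have h3 := abs_sub_le (K.ht (K.a j') (L.h1 (L.lab (2 * z) j)))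
        (L.c1 (L.lab (2 * z) j)) (K.ht (K.a j) (L.h1 (L.lab (2 * z) j)))
      have h4' : |L.c1 (L.lab (2 * z) j) - K.ht (K.a j) (L.h1 (L.lab (2 * z) j))| =
        |K.ht (K.a j) (L.h1 (L.lab (2 * z) j)) - L.c1 (L.lab (2 * z) j)| := abs_sub_comm _ _
      linarith [h1.2, h2.2]
  have hrp1 : L.rho w1 ≤ rp z p := by
    have := h4.r1' z (by omega) hzm i1 (mem_sdiff.2 ⟨hi1E, hn1⟩)
    rwa [ha1] at this
  have hrp2 : L.rho w2 ≤ rp z p := by
    have := h4.r1' z (by omega) hzm i2 (mem_sdiff.2 ⟨hi2E, hn2⟩)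
    rwa [ha2] at this
  have hbz1 := hbase z (by omega) hzm i1 hi1E
  have hbz2 := hbase z (by omega) hzm i2 hi2E
  set hh := g1 K b (R * x) (R * x + c) (U x) i - g0 K b (R * x) (R * x + c) (U x) i with hhd
  have hhh : hh = tb K b (R * x + c) cR - ta K b (R * x + c) cL := rfl
  have hhpos : 0 < hh := by
    rw [hhh]; linarith [hs1.1, hs1.2, hs2.1, hs2.2]
  have hXi : rp z p * (e0 - s0) < hh * rm y p := not_le.1 (mem_filter.1 hiX).2
  -- every line of T is close to p on the base interval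
  have hTclose : ∀ q ∈ T, ∀ t, s0 ≤ t → t ≤ e0 → |K.ht q t - K.ht p t| ≤ 3 * b * rm y p := by
    intro q hq t ht0 ht1
    have hq' := mem_inter.1 hq
    obtain ⟨i3, hi3, hq3⟩ := mem_image.1 hq'.1
    obtain ⟨i4, hi4, hq4⟩ := mem_image.1 hq'.2
    have hi3' := mem_filter.1 hi3
    have hi4' := mem_filter.1 hi4
    have hc1 := (hcl i1 hi1E i3 hi3'.1 hi3'.2).1
    have hc2 := (hcl i2 hi2E i4 hi4'.1 hi4'.2).2
    rw [hq3, ha1] at hc1
    rw [hq4, ha2] at hc2
    have hA1 : |(K.y q - K.y p) + (K.x q - K.x p) * L.h0 w1| ≤ rp z p := by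
      rw [← XU.ht_sub]; exact hc1.trans hrp1
    have hA2 : |(K.y q - K.y p) + (K.x q - K.x p) * L.h1 w2| ≤ rp z p := by
      rw [← XU.ht_sub]; exact hc2.trans hrp2
    have hd : tb K b (R * x + c) cR - ta K b (R * x + c) cL ≤ b * (L.h1 w2 - L.h0 w1) := by
      refine hgap.trans (mul_le_mul_of_nonneg_left ?_ hb0.le)
      linarith [hs1.1, hs1.2, hs2.1, hs2.2]
    have h12 : L.h0 w1 < L.h1 w2 := by linarith [hs1.1, hs1.2, hs2.1, hs2.2]
    have htt : |t - L.h0 w1| ≤ e0 - s0 := by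
      rw [abs_le]
      constructor
      · linarith [hbz1.1, hbz1.2]
      · linarith [hbz1.1]
    have key := XU.affine_bd (A := K.y q - K.y p) (B := K.x q - K.x p) (r := rp z p)
      (t1 := L.h0 w1) (t2 := L.h1 w2) (t := t) (h := hh) (b := b) (l := e0 - s0) hb0.le h12
      hA1 hA2 hd (by linarith [hbz1.1, hbz2.2]) htt
    rw [← XU.ht_sub] at key
    have h5 : |K.ht q t - K.ht p t| * hh ≤ (3 * b * rm y p) * hh := by
      calc |K.ht q t - K.ht p t| * hh ≤ 3 * b * rp z p * (e0 - s0) := key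
        _ = (3 * b) * (rp z p * (e0 - s0)) := by ring
        _ ≤ (3 * b) * (hh * rm y p) := mul_le_mul_of_nonneg_left hXi.le (by positivity)
        _ = (3 * b * rm y p) * hh := by ring
    exact le_of_mul_le_mul_right h5 hhpos
  -- all edges of p
  set AA := E4.filter (fun i' => K.a i' = p) with hAA
  have hAAE : AA ⊆ EE K b (ex R F 0) E i1 := by
    intro j hj
    have h1 := mem_filter.1 hj
    refine mem_filter.2 ⟨hsub h1.1, h1.2.trans ha1.symm, ?_⟩
    rw [hex0, hcell0 j (hlt j h1.1), hcell0 i1 (hlt i1 hi1E)]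
  have hAAc : ε1 * K.N ≤ Fintype.card ι * (b : ℝ) ^ (ex R F 0) * AA.card := by
    rw [hex0, pow_zero, mul_one]
    have h1 := hrt.ql i hiE
    have h2 : ((E4.filter (fun i' => K.a i' = K.a i ∧ cell K b f i' = u)).card : ℝ) ≤
        AA.card := by
      have : (E4.filter (fun i' => K.a i' = K.a i ∧ cell K b f i' = u)) ⊆ AA := by
        intro j hj
        have h3 := mem_filter.1 hj
        exact mem_filter.2 ⟨h3.1, h3.2.1⟩
      exact_mod_cast card_le_card this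
    have h3 : (K.N : ℝ) ≤ D' * (Fintype.card ι * (AA.card : ℝ)) := by
      calc (K.N : ℝ) ≤ _ := h1
        _ ≤ D' * Fintype.card ι * (AA.card : ℝ) :=
            mul_le_mul_of_nonneg_left h2 (by positivity)
        _ = _ := by ring
    have h4' : ε1 * D' ≤ 1 := by
      have e1 : ε1 ≤ ε / D' := by
        rw [hε1d]
        calc (ε / D') ^ 5 ≤ (ε / D') ^ 1 := pow_le_pow_of_le_one hr0.le hr1 (by norm_num)
          _ = ε / D' := pow_one _
      calc ε1 * D' ≤ (ε / D') * D' := mul_le_mul_of_nonneg_right e1 hD'0.le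
        _ = ε := by field_simp
        _ ≤ 1 := hε1
    calc ε1 * K.N ≤ ε1 * (D' * (Fintype.card ι * (AA.card : ℝ))) :=
          mul_le_mul_of_nonneg_left h3 hε10.le
      _ = (ε1 * D') * (Fintype.card ι * (AA.card : ℝ)) := by ring
      _ ≤ 1 * (Fintype.card ι * (AA.card : ℝ)) :=
          mul_le_mul_of_nonneg_right h4' (by positivity)
      _ = Fintype.card ι * (AA.card : ℝ) := one_mul _
  have hplank := hXPm i1 (mem_sdiff.2 ⟨hsub hi1E, hn3⟩) AA hAAE hAAc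
  -- T is contained in the plank
  have hThb : 9 * (b : ℝ) ^ 2 + 1 / 2 ≤ Th b := by
    unfold Th
    have e1 : (16 : ℝ) * (b : ℝ) ^ 2 ≤ (b : ℝ) ^ 64 := by
      calc (16 : ℝ) * (b : ℝ) ^ 2 ≤ (b : ℝ) ^ 4 * (b : ℝ) ^ 2 := by
            refine mul_le_mul_of_nonneg_right ?_ (by positivity)
            calc (16 : ℝ) = 2 ^ 4 := by norm_num
              _ ≤ (b : ℝ) ^ 4 := pow_le_pow_left₀ (by norm_num) hb2' 4
        _ = (b : ℝ) ^ 6 := by ring
        _ ≤ (b : ℝ) ^ 64 := pow_le_pow_right₀ hb1 (by norm_num)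
    have e2 : (1 : ℝ) ≤ (b : ℝ) ^ 2 := one_le_pow₀ hb1
    linarith
  have hTsub : T ⊆ HH K b M D L (ex R F 0) (2 * y) AA i1 ∩ RR K b L (2 * z) i1 := by
    intro q hq
    have hq' := mem_inter.1 hq
    obtain ⟨i3, hi3, hq3⟩ := mem_image.1 hq'.1
    have hi3' := mem_filter.1 hi3
    refine mem_inter.2 ⟨mem_filter.2 ⟨?_, ?_⟩, ?_⟩
    · rw [hex0]
      have h1 := (ls.hyg i3 (hsub hi3'.1)).rel false 0 (Nat.zero_le _)
      rw [hcell0 i3 (hlt i3 hi3'.1)] at h1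
      rw [hcell0 i1 (hlt i1 hi1E), ← hq3]
      exact h1
    · intro j hj
      have hj' := mem_filter.1 hj
      have hby := hbase y hy1 hym j hj'.1
      have hlty := ls.lt (2 * y) (by omega) j (hsub hj'.1)
      have hposy := ls.pos (2 * y) (by omega) j (hsub hj'.1)
      have hclsy := ls.cls (2 * y) (by omega) j (hsub hj'.1)
      have hr1y := h4.r1 y hy1 hym j hj'.1
      rw [hj'.2] at hclsy hr1y
      have h9 : 3 * b * rm y p ≤ 9 * (b : ℝ) ^ 2 * L.rho (L.lab (2 * y) j) := by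
        calc 3 * b * rm y p ≤ 3 * b * (3 * b * L.rho (L.lab (2 * y) j)) :=
              mul_le_mul_of_nonneg_left hr1y (by positivity)
          _ = _ := by ring
      have hfin : 9 * (b : ℝ) ^ 2 * L.rho (L.lab (2 * y) j) + L.rho (L.lab (2 * y) j) / 2 ≤
          Th b * L.rho (L.lab (2 * y) j) := by
        have := mul_le_mul_of_nonneg_right hThb hposy.le
        linarith
      refine mem_filter.2 ⟨mem_univ _, ?_, ?_⟩
      · have h1 := hTclose q hq (L.h0 (L.lab (2 * y) j)) hby.1 (hlty.le.trans hby.2)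
        have h2 := abs_sub_le (K.ht q (L.h0 (L.lab (2 * y) j)))
          (K.ht p (L.h0 (L.lab (2 * y) j))) (L.c0 (L.lab (2 * y) j))
        linarith [hclsy.1]
      · have h1 := hTclose q hq (L.h1 (L.lab (2 * y) j)) (hby.1.trans hlty.le) hby.2
        have h2 := abs_sub_le (K.ht q (L.h1 (L.lab (2 * y) j)))
          (K.ht p (L.h1 (L.lab (2 * y) j))) (L.c1 (L.lab (2 * y) j))
        linarith [hclsy.2]
    · have hpos1 := ls.pos (2 * z) (by omega) i1 (hsub hi1E)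
      have hcls3 := ls.cls (2 * z) (by omega) i3 (hsub hi3'.1)
      rw [hi3'.2, hq3] at hcls3
      have h1 : L.rho (L.lab (2 * z) i1) / 2 ≤ Th b * L.rho (L.lab (2 * z) i1) := by
        have e1 : (1 : ℝ) / 2 ≤ Th b := le_trans (by norm_num) hTh
        have := mul_le_mul_of_nonneg_right e1 hpos1.le
        linarith
      exact mem_filter.2 ⟨mem_univ _, hcls3.1.trans h1, hcls3.2.trans h1⟩
  have hTpl : (T.card : ℝ) ^ 2 ≤ ρ ^ 6 * (Fintype.card ι / (b : ℝ) ^ (4 * (R * y))) *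
      (Fintype.card ι / (b : ℝ) ^ (4 * (R * z))) := by
    have h1 : (T.card : ℝ) ^ 2 ≤
        ((HH K b M D L (ex R F 0) (2 * y) AA i1 ∩ RR K b L (2 * z) i1).card : ℝ) ^ 2 := by
      refine pow_le_pow_left₀ (Nat.cast_nonneg _) ?_ 2
      exact_mod_cast card_le_card hTsub
    refine (h1.trans hplank).trans (le_of_eq ?_)
    unfold mm
    rw [hex0, hex y, hex z]
    simp
  -- the end
  have hQ1 : 1 < D' / ε := by
    rw [lt_div_iff₀ hε]; linarith
  refine XU.num_end (n := Fintype.card ι) (s := 1) (sy := 1) (sz := 1) (T := T.card)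
    (ρ := ρ) (Q := D' / ε) (D' := D') (ε1 := ε1) (bx := (b : ℝ) ^ (R * x))
    (b4y := (b : ℝ) ^ (4 * (R * y))) (b4z := (b : ℝ) ^ (4 * (R * z))) (bR := (b : ℝ) ^ R)
    (C1 := C1) hn0 (by positivity) (by positivity) (by positivity) (by positivity) hε10 hD'0
    (Nat.cast_nonneg _) ?_ hTpl ?_ hρ1 hρR hQ1 (XU.eps1_div hε hε1 hD'1 le_rfl) ?_
  · have e1 : 2 * (R * z) + 2 * (R * z) = 4 * (R * z) := by ring
    rw [e1] at hTlb
    exact hTlb
  · calc (b : ℝ) ^ (4 * (R * z)) * ((b : ℝ) ^ R) ^ 2 = (b : ℝ) ^ (4 * (R * z) + R * 2) := by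
          rw [← pow_mul, ← pow_add]
      _ ≤ (b : ℝ) ^ (R * x * 2 + 4 * (R * y)) := by
          refine pow_le_pow_right₀ hb1 ?_
          have h1 : R * (2 * z + 1) ≤ R * (x + 2 * y) := Nat.mul_le_mul_left _ hxy
          have h2 : R * (2 * z + 1) = 2 * (R * z) + R := by ring
          have h3 : R * (x + 2 * y) = R * x + 2 * (R * y) := by ring
          omega
      _ = ((b : ℝ) ^ (R * x)) ^ 2 * (b : ℝ) ^ (4 * (R * y)) := by
          rw [← pow_mul, ← pow_add]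
  · refine le_trans ?_ hBg.rho
    refine pow_le_pow_right₀ hQ1.le ?_
    calc 12 * C1 + 1 ≤ (12 * C1 + 6 * C2 + 10) * 1 := by omega
      _ ≤ (12 * C1 + 6 * C2 + 10) * (k + 1) := Nat.mul_le_mul_left _ (by omega)

end Pool.Agent.Work.MP_e17eac_co.HS
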