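import Pool.Agent.Work.MP_e17eac_co.Bd.B25
import Pool.Agent.Work.MP_e17eac_co.Bd.B29
import Pool.Agent.Work.MP_e17eac_co.Bd.B33
import Pool.Agent.Work.MP_e17eac_co.Bd.B34
import Pool.Agent.Work.MP_e17eac_co.HS.FinA
import Pool.Agent.Work.MP_e17eac_co.HS.FinB
import Pool.Agent.Work.MP_e17eac_co.HS.LIter
import Pool.Agent.Work.MP_e17eac_co.HS.P_LS
import Pool.Agent.Work.MP_e17eac_co.HS.P_GR
import Pool.Agent.Work.MP_e17eac_co.HS.P_Body
import Pool.Agent.Work.MP_e17eac_co.HS.P_LB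
import Pool.Agent.Work.MP_e17eac_co.HS.P_Rad
import Pool.Agent.Work.MP_e17eac_co.HS.P_U
import Pool.Agent.Work.MP_e17eac_co.HS.P_Lo
import Pool.Agent.Work.MP_e17eac_co.HS.P_ST
import Pool.Agent.Work.MP_e17eac_co.HS.P_Short
import Pool.Agent.Work.MP_e17eac_co.HS.P_R3
import Pool.Agent.Work.MP_e17eac_co.HS.P_RLB
import Pool.Agent.Work.MP_e17eac_co.HS.Final

/-!
# HS: all statements but G without hypotheses
-/

namespace Pool.Agent.Work.MP_e17eac_co.HS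

open Pool.Agent.Work.MP_e17eac_co.DH

theorem TLS : StLS := I_LS (I_LIter (I_LStep B1.TT2c MX.tMc MX.tLoHi MX.tDeyV MX.tGP AS2.tUD
  AS2.tZero AS2.tAnn AS2.tCrowd)) B1.THyg MX.tMc MX.tLoHi AS2.tUD AS2.tCon B1.bLeq

theorem TGR : StGR := HSGR.I_GR B1.TT2c MX.tMc MX.tGP

/-- The bound for sweeps, from the last step. -/
theorem stK_of (hG : StG) : FINAL.StK :=
  stK TLS TGR (I_LB B1.TCell I_Body TNest TCT TCPsum) TP2 TPlank I_Rad (I_U B1.TCell)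
    (I_Lo B1.TCell) (I_ST B1.TCell) (I_Short B1.TCell) I_R3 (I_RLB B1.TCell) hG AS2.tDeyID

end Pool.Agent.Work.MP_e17eac_co.HS
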