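import Pool.Agent.Work.MP_e17eac_co.Bd.B19
import Pool.Agent.Work.MP_e17eac_co.Bd.B12

/-!
# Arbitrary sets, short proof HS (notes 2872, 2897, 2898): definitions

Base `b` (all cells are the mass cells `B1.cell K b x`, `x` = exponent), labelled levels
`j = 0, ..., J` with exponents `e j` and children exponents `ec j`, one loss parameter `D`,
enlargement factor `Th b = b ^ 64`.
-/

namespace Pool.Agent.Work.MP_e17eac_co.HS

open Finset
open Pool.Agent.Work.MP_e17eac_co.DH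
open Pool.Agent.Work.MP_e17eac_co.B1

variable {ι α γ : Type} [Fintype ι] [DecidableEq ι] [DecidableEq α] [DecidableEq γ]

/-- The enlargement factor `Θ`. -/
def Th (b : ℕ) : ℝ := (b : ℝ) ^ 64

/-- Labels of the edges at all labelled levels; hull, radius, values of the centre at the two ends
of the hull, the two children, as functions of the label. -/
structure Lb (α : Type) where
  /-- the label of an edge (level, edge) -/
  lab : ℕ → ℕ → α
  /-- start of the hull -/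
  h0 : α → ℝ
  /-- end of the hull -/
  h1 : α → ℝ
  /-- the radius -/
  rho : α → ℝ
  /-- height of the centre at the start of the hull -/
  c0 : α → ℝ
  /-- height of the centre at the end of the hull -/
  c1 : α → ℝ
  /-- left child -/
  cl : α → ℕ
  /-- right child -/
  cr : α → ℕ

open Classical in
/-- The lines within `Θ ρ` of the centre on the hull of the label of the edge `i` (level `j`). -/
noncomputable def RR (K : KSys ι) (b : ℕ) (L : Lb α) (j i : ℕ) : Finset ι :=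
  univ.filter (fun q => |K.ht q (L.h0 (L.lab j i)) - L.c0 (L.lab j i)| ≤ Th b * L.rho (L.lab j i) ∧
    |K.ht q (L.h1 (L.lab j i)) - L.c1 (L.lab j i)| ≤ Th b * L.rho (L.lab j i))

/-- The `a`-lines of the edges of `E` with the same value of `g` as the edge `i`. -/
def NN (K : KSys ι) (E : Finset ℕ) (g : ℕ → γ) (i : ℕ) : Finset ι :=
  (E.filter (fun i' => g i' = g i)).image K.a

/-- The edges of `E` with the same `a`-line and the same cell (exponent `x`) as the edge `i`. -/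
def EE (K : KSys ι) (b x : ℕ) (E : Finset ℕ) (i : ℕ) : Finset ℕ :=
  E.filter (fun i' => K.a i' = K.a i ∧ cell K b x i' = cell K b x i)

/-- The pairs of edges of `E` with the same `a`-line in the same cell (exponent `x`). -/
def PP (K : KSys ι) (b x : ℕ) (E : Finset ℕ) : Finset (ℕ × ℕ) :=
  (E ×ˢ E).filter (fun z => K.a z.1 = K.a z.2 ∧ cell K b x z.1 = cell K b x z.2)

/-- The exponents of the labelled levels. -/
structure Lev (b M J : ℕ) (e ec : ℕ → ℕ) : Prop where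
  two : 2 ≤ b
  zero : e 0 = 0
  child : ∀ j, j ≤ J → e j < ec j ∧ ec j ≤ M
  next : ∀ j, j < J → ec j ≤ e (j + 1)

/-- **Label system** (output of A-I, A-II). -/
structure LS (K : KSys ι) (b M J : ℕ) (e ec : ℕ → ℕ) (D : ℝ) (L : Lb α) (E : Finset ℕ) :
    Prop where
  lev : Lev b M J e ec
  bD : Th b ≤ D
  npos : 0 < K.N
  dense : (Fintype.card ι : ℝ) ^ 4 ≤ D * (K.N : ℝ) ^ 3
  hyg : ∀ i ∈ E, Hyg K b M D i
  big : (K.N : ℝ) ≤ D * E.card
  lcell : ∀ j, j ≤ J → ∀ i ∈ E, ∀ i' ∈ E, L.lab j i = L.lab j i' →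
    cell K b (e j) i = cell K b (e j) i'
  ldet : ∀ j, j ≤ J → ∀ i ∈ E, ∀ i' ∈ E, K.a i = K.a i' →
    cell K b (e j) i = cell K b (e j) i' → L.lab j i = L.lab j i'
  few : ∀ j, j ≤ J → ∀ c : ℕ,
    (((E.filter (fun i => cell K b (e j) i = c)).image (L.lab j)).card : ℝ) ≤ D
  pos : ∀ j, j ≤ J → ∀ i ∈ E, 0 < L.rho (L.lab j i)
  lt : ∀ j, j ≤ J → ∀ i ∈ E, L.h0 (L.lab j i) < L.h1 (L.lab j i)
  span : ∀ j, j ≤ J → ∀ i ∈ E, ∃ k l, k < K.N ∧ l < K.N ∧
    cell K b (e j) k = cell K b (e j) i ∧ cell K b (e j) l = cell K b (e j) i ∧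
    K.t k ≤ L.h0 (L.lab j i) ∧ L.h1 (L.lab j i) ≤ K.t l
  chil : ∀ j, j ≤ J → ∀ i ∈ E, cell K b (ec j) i = L.cl (L.lab j i) ∨
    cell K b (ec j) i = L.cr (L.lab j i)
  twol : ∀ j, j ≤ J → ∀ i ∈ E, (K.N : ℝ) ≤ D * (Fintype.card ι * (b : ℝ) ^ (e j)) *
    (((EE K b (e j) E i).filter (fun i' => cell K b (ec j) i' = L.cl (L.lab j i))).card : ℝ)
  twor : ∀ j, j ≤ J → ∀ i ∈ E, (K.N : ℝ) ≤ D * (Fintype.card ι * (b : ℝ) ^ (e j)) *
    (((EE K b (e j) E i).filter (fun i' => cell K b (ec j) i' = L.cr (L.lab j i))).card : ℝ)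
  gap : ∀ j, j ≤ J → ∀ i ∈ E, ∀ k l, k < K.N → l < K.N →
    cell K b (ec j) k = L.cl (L.lab j i) → cell K b (ec j) l = L.cr (L.lab j i) →
    L.h0 (L.lab j i) ≤ K.t k ∧ K.t l ≤ L.h1 (L.lab j i) ∧
    L.h1 (L.lab j i) - L.h0 (L.lab j i) ≤ b * (K.t l - K.t k)
  cls : ∀ j, j ≤ J → ∀ i ∈ E,
    |K.ht (K.a i) (L.h0 (L.lab j i)) - L.c0 (L.lab j i)| ≤ L.rho (L.lab j i) / 2 ∧
    |K.ht (K.a i) (L.h1 (L.lab j i)) - L.c1 (L.lab j i)| ≤ L.rho (L.lab j i) / 2
  sgn : ∀ j, j ≤ J → ∀ i ∈ E, ∃ s s', L.h0 (L.lab j i) ≤ s ∧ s ≤ L.h1 (L.lab j i) ∧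
    L.h0 (L.lab j i) ≤ s' ∧ s' ≤ L.h1 (L.lab j i) ∧
    K.ht (K.a i) s + 12 * Th b * L.rho (L.lab j i) ≤ K.L s ∧
    K.L s' + 12 * Th b * L.rho (L.lab j i) ≤ K.ht (K.a i) s'
  nest : ∀ j j', j ≤ j' → j' ≤ J → ∀ i ∈ E, L.h0 (L.lab j i) ≤ L.h0 (L.lab j' i) ∧
    L.h1 (L.lab j' i) ≤ L.h1 (L.lab j i)

lemma LS.full {K : KSys ι} {b M J : ℕ} {e ec : ℕ → ℕ} {D : ℝ} {L : Lb α} {E : Finset ℕ}
    (h : LS K b M J e ec D L E) {j : ℕ} (hj : j ≤ J) {i : ℕ} (hi : i ∈ E) :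
    (K.N : ℝ) ≤ D * (Fintype.card ι * (b : ℝ) ^ (e j)) * ((EE K b (e j) E i).card : ℝ) := by
  have hD : 0 ≤ D := le_trans (by unfold Th; positivity) h.bD
  refine (h.twol j hj i hi).trans (mul_le_mul_of_nonneg_left ?_ (by positivity))
  exact_mod_cast card_le_card (filter_subset _ _)

/-- The level `z` has the fine level `z + 1`. -/
def Fine (b J : ℕ) (e : ℕ → ℕ) (D : ℝ) (z : ℕ) : Prop :=
  z + 1 ≤ J ∧ 12 * D ^ 2 * (b : ℝ) ^ (e z) ≤ (b : ℝ) ^ (e (z + 1)) ∧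
    (b : ℝ) ^ (e (z + 1)) ≤ D ^ 4 * (b : ℝ) ^ (e z)

/-- `ρ` is large with respect to the losses `D / ε` (exponent `C (k + 1)`), `k` iterations are
enough, `N` is large. -/
structure Bg (K : KSys ι) (b M J : ℕ) (e : ℕ → ℕ) (D ε ρ : ℝ) (k C : ℕ) : Prop where
  ep : 0 < ε
  e1 : ε ≤ 1
  rho : (D / ε) ^ (C * (k + 1)) ≤ ρ
  it : (b : ℝ) ^ (4 * e J) ≤ ρ ^ (2 ^ k)
  nn : (D / ε) ^ (C * (k + 1)) * (Fintype.card ι * (b : ℝ) ^ (5 * M)) ≤ K.N

/-- The mass `n b^(e x) / b^(4 e y)`. -/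
noncomputable def mm (ι : Type) [Fintype ι] (b : ℕ) (e : ℕ → ℕ) (x y : ℕ) : ℝ :=
  Fintype.card ι * (b : ℝ) ^ (e x) / (b : ℝ) ^ (4 * e y)

open Classical in
/-- The typical lines of the cell (exponent `x`) of the edge `i` which lie in the sets `RR` (level
`y`) of all edges of `A`. -/
noncomputable def HH (K : KSys ι) (b M : ℕ) (D : ℝ) (L : Lb α) (x y : ℕ) (A : Finset ℕ)
    (i : ℕ) : Finset ι :=
  (PSr K b M D x (cell K b x i)).filter (fun q => ∀ i' ∈ A, q ∈ RR K b L y i')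

/-- Two labels are separated: the gap between their hulls is at least `1/b` of their lengths. -/
def Sep (b : ℕ) (L : Lb α) (w w' : α) : Prop :=
  (L.h1 w < L.h0 w' ∧ L.h1 w - L.h0 w ≤ b * (L.h0 w' - L.h1 w) ∧
    L.h1 w' - L.h0 w' ≤ b * (L.h0 w' - L.h1 w)) ∨
  (L.h1 w' < L.h0 w ∧ L.h1 w' - L.h0 w' ≤ b * (L.h0 w - L.h1 w') ∧
    L.h1 w - L.h0 w ≤ b * (L.h0 w - L.h1 w'))

/-- The body of the edge `i` at the level `z` (fine level `z + 1`). -/
def Body (K : KSys ι) (b : ℕ) (e : ℕ → ℕ) (L : Lb α) (E : Finset ℕ) (z : ℕ) (δ : ℝ) (i : ℕ)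
    (Ψ : Finset ι) (μ : ℝ) : Prop :=
  Ψ ⊆ NN K E (L.lab z) i ∧ δ * Fintype.card ι ≤ (b : ℝ) ^ (3 * e z) * Ψ.card ∧ 0 < μ ∧
  (∀ q ∈ Ψ, |K.ht q (L.h0 (L.lab z i)) - K.ht (K.a i) (L.h0 (L.lab z i))| ≤ 3 * b * μ ∧
    |K.ht q (L.h1 (L.lab z i)) - K.ht (K.a i) (L.h1 (L.lab z i))| ≤ 3 * b * μ) ∧
  ∃ k : Fin 3 → ℕ, (∀ u, k u ∈ EE K b (e z) E i) ∧ (∀ u, μ ≤ L.rho (L.lab (z + 1) (k u))) ∧
    cell K b (e (z + 1)) (k 0) < cell K b (e (z + 1)) (k 1) ∧
    cell K b (e (z + 1)) (k 1) < cell K b (e (z + 1)) (k 2)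

/-! ### Two-sided pairs of children, base interval, masses -/

/-- Time of the first edge of the cell `c` (exponent `x`). -/
noncomputable def ta (K : KSys ι) (b x c : ℕ) : ℝ := K.t (sInf {i | cell K b x i = c})

/-- Time of the last edge of the cell `c` (exponent `x`). -/
noncomputable def tb (K : KSys ι) (b x c : ℕ) : ℝ := K.t ((ce K b x c).sup id)

/-- Two-sided good pairs of children (exponent `ec`) for all pairs (line, cell of exponent `e`)
of `E`; `U p c` is the pair of children of the line `p` in the cell `c`. -/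
structure TwoP (K : KSys ι) (b e ec : ℕ) (D : ℝ) (E : Finset ℕ) (U : ι → ℕ → ℕ × ℕ) : Prop where
  lt : ∀ i ∈ E, (U (K.a i) (cell K b e i)).1 < (U (K.a i) (cell K b e i)).2
  mem : ∀ i ∈ E, cell K b ec i = (U (K.a i) (cell K b e i)).1 ∨
    cell K b ec i = (U (K.a i) (cell K b e i)).2
  gap : ∀ i ∈ E, tb K b ec (U (K.a i) (cell K b e i)).2 - ta K b ec (U (K.a i) (cell K b e i)).1 ≤
    b * (ta K b ec (U (K.a i) (cell K b e i)).2 - tb K b ec (U (K.a i) (cell K b e i)).1)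
  ql : ∀ i ∈ E, (K.N : ℝ) ≤ D * (Fintype.card ι * (b : ℝ) ^ e) *
    (((EE K b e E i).filter (fun i' => cell K b ec i' = (U (K.a i) (cell K b e i)).1)).card : ℝ)
  qr : ∀ i ∈ E, (K.N : ℝ) ≤ D * (Fintype.card ι * (b : ℝ) ^ e) *
    (((EE K b e E i).filter (fun i' => cell K b ec i' = (U (K.a i) (cell K b e i)).2)).card : ℝ)

/-- Start of the hull of the edge `i` (for the pairs `U`). -/
noncomputable def g0 (K : KSys ι) (b e ec : ℕ) (U : ι → ℕ → ℕ × ℕ) (i : ℕ) : ℝ :=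
  ta K b ec (U (K.a i) (cell K b e i)).1

/-- End of the hull of the edge `i` (for the pairs `U`). -/
noncomputable def g1 (K : KSys ι) (b e ec : ℕ) (U : ι → ℕ → ℕ × ℕ) (i : ℕ) : ℝ :=
  tb K b ec (U (K.a i) (cell K b e i)).2

/-- The base interval: two cells `u < u'` of exponent `f`, containing all edges of `E`; every line
of `E` has many edges in both. -/
structure Rt (K : KSys ι) (b f u u' : ℕ) (D : ℝ) (E : Finset ℕ) : Prop where
  big : (K.N : ℝ) ≤ D * E.card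
  lt : u < u'
  mem : ∀ i ∈ E, cell K b f i = u ∨ cell K b f i = u'
  gap : tb K b f u' - ta K b f u ≤ b * (ta K b f u' - tb K b f u)
  ql : ∀ i ∈ E, (K.N : ℝ) ≤ D * Fintype.card ι *
    ((E.filter (fun i' => K.a i' = K.a i ∧ cell K b f i' = u)).card : ℝ)
  qr : ∀ i ∈ E, (K.N : ℝ) ≤ D * Fintype.card ι *
    ((E.filter (fun i' => K.a i' = K.a i ∧ cell K b f i' = u')).card : ℝ)

open Classical in
/-- The lines of `S` within `ρ` of `p` on the interval `[s, s']`. -/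
noncomputable def bal (K : KSys ι) (S : Finset ι) (s s' : ℝ) (p : ι) (ρ : ℝ) : Finset ι :=
  S.filter (fun q => |K.ht q s - K.ht p s| ≤ ρ ∧ |K.ht q s' - K.ht p s'| ≤ ρ)

/-! ### Half-open crossings (common tangents) -/

/-- The slope of the line through the vertices `n`, `n'` of the level. -/
noncomputable def sig (K : KSys ι) (n n' : ℕ) : ℝ := (K.h n' - K.h n) / (K.t n' - K.t n)

/-- The line through the vertices `n < n'` of the level supports the level's bottom token at `n`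
and the top token at `n'` (half-open conventions). -/
def Cr (K : KSys ι) (n n' : ℕ) : Prop :=
  n < n' ∧ n' < K.N ∧ K.x (K.b n) ≤ sig K n n' ∧ sig K n n' < K.x (K.a n) ∧
    K.x (K.b n') ≤ sig K n n' ∧ sig K n n' < K.x (K.a n')

open Classical in
/-- The half-open crossing pairs between two sets of edges. -/
noncomputable def CP (K : KSys ι) (A B : Finset ℕ) : Finset (ℕ × ℕ) :=
  (A ×ˢ B).filter (fun z => Cr K z.1 z.2)

end Pool.Agent.Work.MP_e17eac_co.HS
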