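import Pool.Agent.Work.MP_e17eac_co.HS.P_LS
import Pool.Agent.Work.MP_e17eac_co.Bd.B35
import Pool.Agent.Work.MP_e17eac_co.Bd.B33
import Pool.Agent.Work.MP_e17eac_co.Bd.B08
import Pool.Agent.Work.MP_e17eac_co.Bd.B26
import Pool.Agent.Work.MP_e17eac_co.Bd.B25
import Pool.Agent.Work.MP_e17eac_co.Bd.B15

/-!
# HS: label systems exist (no hypotheses; light imports)
-/

namespace Pool.Agent.Work.MP_e17eac_co.HS.FLS

open Pool.Agent.Work.MP_e17eac_co.DH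

theorem lsCon : AS2.StCon := AS2.I_Con AS2.I_UD

theorem lsLaC : AS2.StLaC := AS2.I_LaC lsCon AS2.I_UD MX.tLoHi

theorem lsAnn : AS2.StAnn := AS2.I_Ann MX.tMc MX.tUp MX.tLow (AS2.I_AnnG AS2.I_Gen MX.tLoHi)
  (AS2.I_AnnUB (AS2.I_TokC AS2.I_TL B1.bTouch MX.tLoHi B1.bLeq)
    (AS2.I_JmpC B1.bMono B1.bTok MX.tLoHi) (AS2.I_NJ MX.tLoHi) lsLaC (AS2.I_DeyS B1.bDey))

theorem lsZero : AS2.StZero := AS2.I_Zero MX.tMc MX.tLow lsCon MX.tLoHi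

theorem lsCrowd : AS2.StCrowd := AS2.I_Crowd MX.tT2i MX.tLoHi

/-- **Level step.** -/
theorem TLStep : StLStep := I_LStep B1.TT2c MX.tMc MX.tLoHi MX.tDeyV MX.tGP AS2.I_UD lsZero lsAnn
  lsCrowd

theorem TGPS1 : StGPS1 := I_GPS1 B1.TT2c MX.tMc MX.tGP

/-- **Label systems exist.** -/
theorem TLS : StLS := I_LS (I_LIter TLStep) B1.THyg MX.tMc MX.tLoHi AS2.I_UD lsCon B1.bLeq

end Pool.Agent.Work.MP_e17eac_co.HS.FLS
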