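import Pool.Agent.Work.MP_e17eac_co.Bd.B14
import Pool.Agent.Work.MP_e17eac_co.Bd.B19

/-!
# Arbitrary sets, short chain HS, block HS-D: good pairs at all levels (helper40)

The levels are processed from the finest to the coarsest one. All deletions at the level `e` (with
children of the level `ec`) are unions of fibres of `(a i, cell ec i)`, so the structure of the
finer levels, which is a statement on the fibres of `(a i, cell e' i)`, `ec ≤ e'`, is preserved.
-/

namespace Pool.Agent.Work.MP_e17eac_co.HS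

open Finset
open Pool.Agent.Work.MP_e17eac_co.DH
open Pool.Agent.Work.MP_e17eac_co.B1
open Pool.Agent.Work.MP_e17eac_co.DH.XSWEEP (GP)

variable {ι : Type} [Fintype ι] [DecidableEq ι]

/-- `E'` is a union of fibres of `(a i, cell x i)` in `E`. -/
def Fib (K : KSys ι) (b x : ℕ) (E' E : Finset ℕ) : Prop :=
  E' ⊆ E ∧ ∀ i ∈ E', ∀ j ∈ E, K.a j = K.a i → cell K b x j = cell K b x i → j ∈ E'

/-- The edges of `E` of the line `a i` in the cell of level `x` of `i`. -/
def fb (K : KSys ι) (b x : ℕ) (E : Finset ℕ) (i : ℕ) : Finset ℕ :=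
  E.filter (fun j => K.a j = K.a i ∧ cell K b x j = cell K b x i)

/-- Two-sided good pairs at the level `e` with children of the level `ec`: all edges of the line
`p` in the cell `c` lie in the two children `(U p c).1 < (U p c).2` of `c`, whose gap is at least
`1/b` of their hull, and both children carry their share of edges. -/
structure TwoG (K : KSys ι) (b e ec G : ℕ) (E : Finset ℕ) (U : ι → ℕ → ℕ × ℕ) : Prop where
  side : ∀ i ∈ E, cell K b ec i = (U (K.a i) (cell K b e i)).1 ∨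
    cell K b ec i = (U (K.a i) (cell K b e i)).2
  lt : ∀ i ∈ E, (U (K.a i) (cell K b e i)).1 < (U (K.a i) (cell K b e i)).2
  good : ∀ i ∈ E, ∀ k, k < K.N → ∀ l, l < K.N → cell K b ec k = (U (K.a i) (cell K b e i)).1 →
    cell K b ec l = (U (K.a i) (cell K b e i)).2 →
    cell K b e k = cell K b e i ∧ cell K b e l = cell K b e i ∧
    MX.hull K (cell K b ec) k l ≤ b * MX.gap K (cell K b ec) k l
  quota : ∀ i ∈ E, ∀ u, (u = (U (K.a i) (cell K b e i)).1 ∨ u = (U (K.a i) (cell K b e i)).2) →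
    K.N ≤ b ^ G * (Fintype.card ι * b ^ ec) *
      (E.filter (fun j => K.a j = K.a i ∧ cell K b ec j = u)).card

/-- The pairs (line, cell of level `e`) are light: the edges of one line in one cell are at most
`b ^ A` times the average. -/
def Light (K : KSys ι) (b e A : ℕ) (E : Finset ℕ) : Prop :=
  ∀ i ∈ E, (fb K b e (range K.N) i).card * (Fintype.card ι * b ^ e) ≤ b ^ A * K.N

/-- One level. -/
def StGPS1 : Prop := ∃ C0 : ℕ, ∀ (η : ℝ) (A D : ℕ), 0 < η → ∃ n0 : ℕ, ∀ (ι : Type) [Fintype ι]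
  [DecidableEq ι] (K : KSys ι), Function.Injective K.x → GP K.x K.y → n0 ≤ Fintype.card ι →
  ∀ b : ℕ, (Fintype.card ι : ℝ) ^ η ≤ b → (Fintype.card ι : ℝ) ^ ((4 : ℝ) / 3) ≤ b * K.N →
  ∀ e ec : ℕ, e + C0 * (D + 1) ≤ ec → b ^ (4 * ec) ≤ K.N →
  ∀ E ⊆ range K.N, K.N ≤ b ^ D * E.card → Light K b e A E →
  ∃ E' U, Fib K b ec E' E ∧ K.N ≤ b ^ (2 * D + A + (ec - e) + C0) * E'.card ∧
    TwoG K b e ec (D + C0) E' U

/-- Good pairs at all levels `e 0 < e 1 < … < e J`, for one set of edges. -/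
def StGPS : Prop := ∀ (η : ℝ) (A D J : ℕ), 0 < η → ∃ (dep : ℕ → ℕ) (G n0 : ℕ),
  ∀ (ι : Type) [Fintype ι]
  [DecidableEq ι] (K : KSys ι), Function.Injective K.x → GP K.x K.y → n0 ≤ Fintype.card ι →
  ∀ b : ℕ, (Fintype.card ι : ℝ) ^ η ≤ b → (Fintype.card ι : ℝ) ^ ((4 : ℝ) / 3) ≤ b * K.N →
  ∀ e : ℕ → ℕ, (∀ j, j < J → e j + dep j ≤ e (j + 1)) → b ^ (4 * (e J + dep J)) ≤ K.N →
  ∀ E ⊆ range K.N, K.N ≤ b ^ D * E.card → (∀ j, j ≤ J → Light K b (e j) A E) →
  ∃ (E' : Finset ℕ) (U : ℕ → ι → ℕ → ℕ × ℕ), E' ⊆ E ∧ K.N ≤ b ^ G * E'.card ∧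
    ∀ j, j ≤ J → TwoG K b (e j) (e j + dep j) G E' (U j)

/-- Root lemma: one pair of children of the root (or of an older window) for all lines. -/
def StROOT : Prop := ∃ C0 : ℕ, ∀ (η : ℝ) (A D : ℕ), 0 < η → ∃ n0 : ℕ, ∀ (ι : Type) [Fintype ι]
  [DecidableEq ι] (K : KSys ι), Function.Injective K.x → GP K.x K.y → n0 ≤ Fintype.card ι →
  ∀ b : ℕ, (Fintype.card ι : ℝ) ^ η ≤ b → (Fintype.card ι : ℝ) ^ ((4 : ℝ) / 3) ≤ b * K.N →
  ∀ ec : ℕ, C0 * (D + 1) ≤ ec → b ^ (4 * ec) ≤ K.N →
  ∀ E ⊆ range K.N, K.N ≤ b ^ D * E.card → Light K b 0 A E →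
  ∃ E' u u', Fib K b ec E' E ∧ K.N ≤ b ^ (2 * D + A + 9 * ec + C0) * E'.card ∧ u < u' ∧
    (∀ i ∈ E', cell K b ec i = u ∨ cell K b ec i = u') ∧
    (∀ k, k < K.N → ∀ l, l < K.N → cell K b ec k = u → cell K b ec l = u' →
      MX.hull K (cell K b ec) k l ≤ b * MX.gap K (cell K b ec) k l) ∧
    (∀ i ∈ E', ∀ w, (w = u ∨ w = u') → K.N ≤ b ^ (D + C0) * (Fintype.card ι * b ^ ec) *
      (E'.filter (fun j => K.a j = K.a i ∧ cell K b ec j = w)).card)

/-! ### Basic facts -/

/-- Nested cells. -/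
theorem cell_div (K : KSys ι) {b z x : ℕ} (hb : 1 ≤ b) (h : z ≤ x) (i : ℕ) :
    cell K b z i = cell K b x i / b ^ (4 * (x - z)) := by
  unfold cell
  have h1 : b ^ (4 * x) = b ^ (4 * z) * b ^ (4 * (x - z)) := by
    rw [← pow_add]
    congr 1
    omega
  rw [h1, Nat.div_div_eq_div_mul, ← mul_assoc,
    Nat.mul_div_mul_right _ _ (Nat.pow_pos (by omega))]

theorem cell_coarse (K : KSys ι) {b z x : ℕ} (hb : 1 ≤ b) (h : z ≤ x) {i j : ℕ}
    (hij : cell K b x i = cell K b x j) : cell K b z i = cell K b z j := by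
  rw [cell_div K hb h, cell_div K hb h, hij]

theorem Fib.refl (K : KSys ι) (b x : ℕ) (E : Finset ℕ) : Fib K b x E E :=
  ⟨Subset.refl _, fun _ _ _ hj _ _ => hj⟩

theorem Fib.trans {K : KSys ι} {b x : ℕ} {E E' E'' : Finset ℕ} (h1 : Fib K b x E' E)
    (h2 : Fib K b x E'' E') : Fib K b x E'' E :=
  ⟨h2.1.trans h1.1, fun i hi j hj h3 h4 =>
    h2.2 i hi j (h1.2 i (h2.1 hi) j hj h3 h4) h3 h4⟩

/-- A union of coarse fibres is a union of fine fibres. -/
theorem Fib.fine {K : KSys ι} {b z x : ℕ} (hb : 1 ≤ b) (hzx : z ≤ x) {E E' : Finset ℕ}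
    (h : Fib K b z E' E) : Fib K b x E' E :=
  ⟨h.1, fun i hi j hj h1 h2 => h.2 i hi j hj h1 (cell_coarse K hb hzx h2)⟩

/-- Fibres of a union of fibres. -/
theorem Fib.fb_eq {K : KSys ι} {b x : ℕ} {E E' : Finset ℕ} (h : Fib K b x E' E) {i : ℕ}
    (hi : i ∈ E') : fb K b x E' i = fb K b x E i := by
  ext j
  simp only [fb, mem_filter]
  constructor
  · rintro ⟨h1, h2⟩
    exact ⟨h.1 h1, h2⟩
  · rintro ⟨h1, h2⟩
    exact ⟨h.2 i hi j h1 h2.1 h2.2, h2⟩

/-- Two-sidedness is preserved by unions of fibres. -/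
theorem TwoG.fib {K : KSys ι} {b e ec G : ℕ} (hb : 1 ≤ b) (hec : e ≤ ec) {E E' : Finset ℕ}
    {U : ι → ℕ → ℕ × ℕ} (hE : E ⊆ range K.N) (h : TwoG K b e ec G E U) (h' : Fib K b e E' E) :
    TwoG K b e ec G E' U := by
  refine ⟨fun i hi => h.side i (h'.1 hi), fun i hi => h.lt i (h'.1 hi),
    fun i hi => h.good i (h'.1 hi), fun i hi u hu => ?_⟩
  have h1 := h.quota i (h'.1 hi) u hu
  have h2 : E'.filter (fun j => K.a j = K.a i ∧ cell K b ec j = u) =
      E.filter (fun j => K.a j = K.a i ∧ cell K b ec j = u) := by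
    ext j
    simp only [mem_filter]
    constructor
    · rintro ⟨h3, h4⟩
      exact ⟨h'.1 h3, h4⟩
    · rintro ⟨h3, h4, h5⟩
      refine ⟨h'.2 i hi j h3 h4 ?_, h4, h5⟩
      -- the cell of `j` at level `e`
      have hiN := mem_range.1 (hE (h'.1 hi))
      have hjN := mem_range.1 (hE h3)
      have hN : 0 < K.N := by omega
      -- representatives of both children
      have hrep : ∀ w, (w = (U (K.a i) (cell K b e i)).1 ∨ w = (U (K.a i) (cell K b e i)).2) →
          ∃ k, k < K.N ∧ cell K b ec k = w := by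
        intro w hw
        have h6 := h.quota i (h'.1 hi) w hw
        have h7 : 0 < (E.filter (fun j => K.a j = K.a i ∧ cell K b ec j = w)).card := by
          rcases Nat.eq_zero_or_pos
            (E.filter (fun j => K.a j = K.a i ∧ cell K b ec j = w)).card with h8 | h8
          · rw [h8, mul_zero] at h6
            omega
          · exact h8
        obtain ⟨k, hk⟩ := card_pos.1 h7
        rw [mem_filter] at hk
        exact ⟨k, mem_range.1 (hE hk.1), hk.2.2⟩
      obtain ⟨k, hk1, hk2⟩ := hrep _ (Or.inl rfl)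
      obtain ⟨l, hl1, hl2⟩ := hrep _ (Or.inr rfl)
      obtain ⟨h8, h9, -⟩ := h.good i (h'.1 hi) k hk1 l hl1 hk2 hl2
      rcases hu with rfl | rfl
      · rw [← h8]
        exact cell_coarse K hb hec (h5.trans hk2.symm)
      · rw [← h9]
        exact cell_coarse K hb hec (h5.trans hl2.symm)
  rw [h2]
  exact h1

theorem TwoG.mono {K : KSys ι} {b e ec G G' : ℕ} (hb : 1 ≤ b) (hG : G ≤ G') {E : Finset ℕ}
    {U : ι → ℕ → ℕ × ℕ} (h : TwoG K b e ec G E U) : TwoG K b e ec G' E U :=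
  ⟨h.side, h.lt, h.good, fun i hi u hu => (h.quota i hi u hu).trans
    (Nat.mul_le_mul_right _ (Nat.mul_le_mul_right _ (Nat.pow_le_pow_right (by omega) hG)))⟩

theorem Light.mono {K : KSys ι} {b e A : ℕ} {E E' : Finset ℕ} (h : Light K b e A E)
    (h' : E' ⊆ E) : Light K b e A E' := fun i hi => h i (h' hi)

/-! ### Counting -/

/-- Light fibres carry few elements. -/
theorem few_light {α : Type} [DecidableEq α] (F : Finset ℕ) (g : ℕ → α) (T N : ℕ)
    (h : ∀ i ∈ F, T * (F.filter (fun j => g j = g i)).card ≤ N) :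
    T * F.card ≤ N * (F.image g).card := by
  rw [card_eq_sum_card_image g F, mul_sum, mul_comm N, ← smul_eq_mul (F.image g).card N]
  refine sum_le_card_nsmul _ _ _ ?_
  intro s hs
  obtain ⟨i, hi, rfl⟩ := mem_image.1 hs
  exact h i hi

/-- Heavy fibres: the elements are many. -/
theorem many_heavy {α : Type} [DecidableEq α] (S : Finset α) (F : Finset ℕ) (g : ℕ → α)
    (T N : ℕ) (h : ∀ s ∈ S, N ≤ T * (F.filter (fun j => g j = s)).card) :
    N * S.card ≤ T * F.card := by
  have h1 : ∑ s ∈ S, (F.filter (fun j => g j = s)).card ≤ F.card := by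
    rw [← card_biUnion]
    · refine card_le_card ?_
      intro j hj
      obtain ⟨s, -, hs⟩ := mem_biUnion.1 hj
      exact (mem_filter.1 hs).1
    · intro s _ s' _ hss
      rw [Function.onFun, disjoint_left]
      intro j hj hj'
      exact hss ((mem_filter.1 hj).2.symm.trans (mem_filter.1 hj').2)
  calc N * S.card = ∑ s ∈ S, N := by rw [sum_const, smul_eq_mul, mul_comm]
    _ ≤ ∑ s ∈ S, T * (F.filter (fun j => g j = s)).card := sum_le_sum h
    _ = T * ∑ s ∈ S, (F.filter (fun j => g j = s)).card := by rw [mul_sum]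
    _ ≤ T * F.card := Nat.mul_le_mul_left _ h1

/-! ### One level -/

theorem I_GPS1 (hT2 : StT2c) (hMc : MX.StMc) (hGP : MX.StGP) : StGPS1 := by
  classical
  obtain ⟨C, hC1, hT2⟩ := hT2
  obtain ⟨C0, hGP⟩ := hGP
  refine ⟨C0 + 2, ?_⟩
  intro η A D hη
  obtain ⟨n1, hn1⟩ := hGP η (D + 1) hη
  -- `b ≥ 4 C + 4` for large `n`
  have htend : Filter.Tendsto (fun n : ℕ => (n : ℝ) ^ η) Filter.atTop Filter.atTop :=
    (tendsto_rpow_atTop hη).comp tendsto_natCast_atTop_atTop
  obtain ⟨n2, hn2⟩ := Filter.eventually_atTop.1 (htend.eventually_ge_atTop (4 * C + 4))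
  refine ⟨max n1 (max n2 1), ?_⟩
  intro ι _ _ K hx hgp hn b hb hbN e ec hec hecN E hE hED hlight
  have hnn1 : n1 ≤ Fintype.card ι := le_trans (le_max_left _ _) hn
  have hnn2 : n2 ≤ Fintype.card ι := le_trans ((le_max_left _ _).trans (le_max_right _ _)) hn
  have hnn3 : 1 ≤ Fintype.card ι := le_trans ((le_max_right _ _).trans (le_max_right _ _)) hn
  have hbC : 4 * C + 4 ≤ (b : ℝ) := (hn2 _ hnn2).trans hb
  have hb8 : (8 : ℝ) ≤ b := by linarith
  have hb8' : 8 ≤ b := by exact_mod_cast hb8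
  have hb1 : 1 ≤ b := by omega
  have hb0 : 0 < b := by omega
  have hNpos : 0 < K.N := lt_of_lt_of_le (Nat.pow_pos hb0) hecN
  have hEpos : 0 < E.card := by
    rcases Nat.eq_zero_or_pos E.card with h | h
    · rw [h, mul_zero] at hED
      omega
    · exact h
  set n := Fintype.card ι with hn_def
  have heec : e ≤ ec := by
    have : 0 ≤ (C0 + 2) * (D + 1) := Nat.zero_le _
    omega
  -- the heavy fibres
  set T : ℕ := b ^ (D + 1) * (n * b ^ ec) with hT
  set E1 := E.filter (fun i => K.N ≤ T * (fb K b ec E i).card) with hE1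
  have hE1E : E1 ⊆ E := filter_subset _ _
  have hE1N : E1 ⊆ range K.N := hE1E.trans hE
  have hfib1 : Fib K b ec E1 E := by
    refine ⟨hE1E, ?_⟩
    intro i hi j hj h1 h2
    rw [hE1, mem_filter] at hi ⊢
    refine ⟨hj, ?_⟩
    have h3 : fb K b ec E j = fb K b ec E i := by
      unfold fb
      rw [h1, h2]
    rw [h3]
    exact hi.2
  -- few deleted edges
  have hdel : T * (E \ E1).card ≤
      K.N * ((E \ E1).image (fun i => (cell K b ec i, K.ln false i))).card := by
    refine few_light _ _ T K.N ?_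
    intro i hi
    rw [mem_sdiff] at hi
    have h1 : ¬ K.N ≤ T * (fb K b ec E i).card := by
      intro h
      exact hi.2 (mem_filter.2 ⟨hi.1, h⟩)
    refine le_trans (Nat.mul_le_mul_left _ (card_le_card ?_)) (not_le.1 h1).le
    intro j hj
    rw [mem_filter, mem_sdiff] at hj
    obtain ⟨⟨h2, -⟩, h3⟩ := hj
    rw [Prod.mk.injEq] at h3
    exact mem_filter.2 ⟨h2, h3.2, h3.1⟩
  have hT2' := ((hT2 ι K hx hgp b ec hb1).2.2.2.1 (E \ E1)
    ((sdiff_subset).trans hE) false).1
  have hdel2 : 4 * (E \ E1).card ≤ E.card := by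
    have h1 : ((T * (E \ E1).card : ℕ) : ℝ) ≤ K.N * (C * n * (b : ℝ) ^ ec) := by
      calc ((T * (E \ E1).card : ℕ) : ℝ) ≤
          ((K.N * ((E \ E1).image (fun i => (cell K b ec i, K.ln false i))).card : ℕ) : ℝ) := by
            exact_mod_cast hdel
        _ = K.N * (((E \ E1).image (fun i => (cell K b ec i, K.ln false i))).card : ℝ) := by
            push_cast
            ring
        _ ≤ K.N * (C * n * (b : ℝ) ^ ec) := mul_le_mul_of_nonneg_left hT2' (by positivity)
    have hn0 : (0 : ℝ) < n := by exact_mod_cast hnn3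
    have hbr : (0 : ℝ) < b := by linarith
    have h2 : (b : ℝ) ^ (D + 1) * ((E \ E1).card : ℝ) ≤ K.N * C := by
      have h3 : ((b : ℝ) ^ (D + 1) * ((E \ E1).card : ℝ)) * (n * (b : ℝ) ^ ec) ≤
          (K.N * C) * (n * (b : ℝ) ^ ec) := by
        rw [hT] at h1
        push_cast at h1
        nlinarith [h1]
      exact le_of_mul_le_mul_right h3 (by positivity)
    have h4 : (K.N : ℝ) ≤ (b : ℝ) ^ D * E.card := by exact_mod_cast hED
    have h5 : (b : ℝ) ^ D * ((b : ℝ) * ((E \ E1).card : ℝ)) ≤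
        (b : ℝ) ^ D * (C * (E.card : ℝ)) := by
      calc (b : ℝ) ^ D * ((b : ℝ) * ((E \ E1).card : ℝ)) =
          (b : ℝ) ^ (D + 1) * ((E \ E1).card : ℝ) := by ring
        _ ≤ K.N * C := h2
        _ ≤ ((b : ℝ) ^ D * E.card) * C := mul_le_mul_of_nonneg_right h4 (by linarith)
        _ = (b : ℝ) ^ D * (C * (E.card : ℝ)) := by ring
    have h6 : (b : ℝ) * ((E \ E1).card : ℝ) ≤ C * (E.card : ℝ) :=
      le_of_mul_le_mul_left h5 (by positivity)
    have h7 : (4 * C) * ((E \ E1).card : ℝ) ≤ C * (E.card : ℝ) := by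
      refine le_trans (mul_le_mul_of_nonneg_right (by linarith) (by positivity)) h6
    have h8 : C * (4 * ((E \ E1).card : ℝ)) ≤ C * (E.card : ℝ) := by linarith
    have h9 : 4 * ((E \ E1).card : ℝ) ≤ (E.card : ℝ) :=
      le_of_mul_le_mul_left h8 (by linarith)
    exact_mod_cast h9
  have hE1card : 3 * E.card ≤ 4 * E1.card := by
    have h1 : (E \ E1).card + E1.card = E.card := by
      rw [card_sdiff_add_card_eq_card hE1E]
    omega
  -- good pairs
  have hED1 : K.N ≤ b ^ (D + 1) * E1.card := by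
    calc K.N ≤ b ^ D * E.card := hED
      _ ≤ b ^ D * (b * E1.card) := by
        refine Nat.mul_le_mul_left _ ?_
        calc E.card ≤ 2 * E1.card := by omega
          _ ≤ b * E1.card := Nat.mul_le_mul_right _ (by omega)
      _ = b ^ (D + 1) * E1.card := by ring
  have hmul : b ^ (4 * e) * b ^ (4 * (ec - e)) = b ^ (4 * ec) := by
    rw [← pow_add]
    congr 1
    omega
  set E2 := E1.filter (fun i => MX.HasGood K (cell K b e) (cell K b ec) b E1 i) with hE2
  have hgood : b * (E1 \ E2).card ≤ E1.card := by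
    have hcells : MX.IsCells K (b ^ (4 * e)) (cell K b e) :=
      (hMc ι K (b ^ (4 * e)) (Nat.pow_pos hb0)).1
    have hcells' : MX.IsCells K (b ^ (4 * e) * b ^ (4 * (ec - e))) (cell K b ec) := by
      rw [hmul]
      exact (hMc ι K (b ^ (4 * ec)) (Nat.pow_pos hb0)).1
    have hg : b ^ (C0 * (D + 1 + 1)) ≤ b ^ (4 * (ec - e)) := by
      refine Nat.pow_le_pow_right hb0 ?_
      have h1 : (C0 + 2) * (D + 1) ≤ ec - e := by omega
      have h2 : C0 * (D + 1 + 1) ≤ 2 * (C0 * (D + 1)) := by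
        have : C0 * (D + 1 + 1) ≤ C0 * (2 * (D + 1)) := Nat.mul_le_mul_left _ (by omega)
        calc C0 * (D + 1 + 1) ≤ C0 * (2 * (D + 1)) := this
          _ = 2 * (C0 * (D + 1)) := by ring
      have h3 : C0 * (D + 1) ≤ (C0 + 2) * (D + 1) := Nat.mul_le_mul_right _ (by omega)
      omega
    refine hn1 ι K hx hgp hnn1 b hb hbN (b ^ (4 * e)) (b ^ (4 * (ec - e)))
      (Nat.one_le_pow _ _ hb0) hg (by rw [hmul]; exact hecN) (cell K b e) (cell K b ec)
      hcells hcells' (fun i j _ _ h => cell_coarse K hb1 heec h) E1 hE1N hED1 (E1 \ E2)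
      sdiff_subset ?_
    intro i hi h
    rw [mem_sdiff] at hi
    exact hi.2 (mem_filter.2 ⟨hi.1, h⟩)
  have hE2E1 : E2 ⊆ E1 := filter_subset _ _
  have hE2card : E.card ≤ 2 * E2.card := by
    have h1 : (E1 \ E2).card + E2.card = E1.card := by
      rw [card_sdiff_add_card_eq_card hE2E1]
    have h2 : 8 * (E1 \ E2).card ≤ E1.card :=
      (Nat.mul_le_mul_right _ hb8').trans hgood
    omega
  -- choice of the pairs
  have hchoice : ∀ p : ι, ∀ c : ℕ, ∃ w : ℕ × ℕ, (∃ i ∈ E2, K.a i = p ∧ cell K b e i = c) →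
      ∃ k ∈ E1, ∃ l ∈ E1, K.a k = p ∧ cell K b e k = c ∧ w = (cell K b ec k, cell K b ec l) ∧
        MX.GoodP K (cell K b e) (cell K b ec) b k l := by
    intro p c
    by_cases h : ∃ i ∈ E2, K.a i = p ∧ cell K b e i = c
    · obtain ⟨i, hi, h1, h2⟩ := h
      rw [hE2, mem_filter] at hi
      obtain ⟨-, k, hk, l, hl, h3, h4, h5⟩ := hi
      exact ⟨(cell K b ec k, cell K b ec l), fun _ => ⟨k, hk, l, hl, h3.trans h1, h4.trans h2,
        rfl, h5⟩⟩
    · exact ⟨(0, 0), fun h' => absurd h' h⟩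
  choose U hU using hchoice
  set E' := E1.filter (fun i => (∃ i' ∈ E2, K.a i' = K.a i ∧ cell K b e i' = cell K b e i) ∧
    (cell K b ec i = (U (K.a i) (cell K b e i)).1 ∨
      cell K b ec i = (U (K.a i) (cell K b e i)).2)) with hE'
  have hE'1 : E' ⊆ E1 := filter_subset _ _
  have hfibE' : Fib K b ec E' E := by
    refine hfib1.trans ⟨hE'1, ?_⟩
    intro i hi j hj h1 h2
    rw [hE', mem_filter] at hi ⊢
    have h3 : cell K b e j = cell K b e i := cell_coarse K hb1 heec h2
    refine ⟨hj, ?_⟩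
    rw [h1, h3, h2]
    exact hi.2
  -- the fibres of the chosen children
  have hkey : ∀ p : ι, ∀ c : ℕ, (∃ i ∈ E2, K.a i = p ∧ cell K b e i = c) →
      ∀ u, (u = (U p c).1 ∨ u = (U p c).2) →
      K.N ≤ T * (E'.filter (fun j => K.a j = p ∧ cell K b ec j = u)).card ∧
      ∀ j ∈ E'.filter (fun j => K.a j = p ∧ cell K b ec j = u), cell K b e j = c := by
    intro p c hpc u hu
    obtain ⟨k, hk, l, hl, h1, h2, h3, h4⟩ := hU p c hpc
    obtain ⟨g1, g2, g3, g4⟩ := h4
    have hrep : ∃ m ∈ E1, K.a m = p ∧ cell K b e m = c ∧ cell K b ec m = u := by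
      rcases hu with rfl | rfl
      · exact ⟨k, hk, h1, h2, by rw [h3]⟩
      · exact ⟨l, hl, g1 ▸ h1, g2 ▸ h2, by rw [h3]⟩
    obtain ⟨m, hm, m1, m2, m3⟩ := hrep
    have hmE' : m ∈ E' := by
      rw [hE', mem_filter]
      refine ⟨hm, ?_, ?_⟩
      · rw [m1, m2]
        exact hpc
      · rw [m1, m2, m3]
        exact hu
    have hfe : E'.filter (fun j => K.a j = p ∧ cell K b ec j = u) = fb K b ec E m := by
      rw [← hfibE'.fb_eq hmE']
      unfold fb
      rw [m1, m3]
    constructor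
    · rw [hfe]
      exact (mem_filter.1 hm).2
    · intro j hj
      rw [mem_filter] at hj
      rw [← m2]
      exact cell_coarse K hb1 heec (hj.2.2.trans m3.symm)
  have hP : ∀ i ∈ E', ∃ i' ∈ E2, K.a i' = K.a i ∧ cell K b e i' = cell K b e i := fun i hi =>
    ((mem_filter.1 hi).2).1
  refine ⟨E', U, hfibE', ?_, ?_, ?_, ?_, ?_⟩
  · -- size
    set S := E2.image (fun i => (K.a i, cell K b e i)) with hS
    have h1 : (n * b ^ e) * E2.card ≤ (b ^ A * K.N) * S.card := by
      refine few_light E2 (fun i => (K.a i, cell K b e i)) (n * b ^ e) (b ^ A * K.N) ?_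
      intro i hi
      refine le_trans ?_ (hlight i (hE1E (hE2E1 hi)))
      rw [mul_comm (n * b ^ e)]
      refine Nat.mul_le_mul_right _ (card_le_card ?_)
      intro j hj
      rw [mem_filter, Prod.mk.injEq] at hj
      exact mem_filter.2 ⟨hE (hE1E (hE2E1 hj.1)), hj.2.1, hj.2.2⟩
    have h2 : K.N * S.card ≤ T * E'.card := by
      refine many_heavy S E' (fun i => (K.a i, cell K b e i)) T K.N ?_
      rintro ⟨p, c⟩ hs
      obtain ⟨i, hi, hi'⟩ := mem_image.1 hs
      rw [Prod.mk.injEq] at hi'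
      obtain ⟨h3, h4⟩ := hkey p c ⟨i, hi, hi'.1, hi'.2⟩ (U p c).1 (Or.inl rfl)
      refine h3.trans (Nat.mul_le_mul_left _ (card_le_card ?_))
      intro j hj
      have h5 := h4 j hj
      rw [mem_filter] at hj ⊢
      exact ⟨hj.1, by rw [hj.2.1, h5]⟩
    -- combine
    have h3 : (n * b ^ e) * (K.N * E2.card) ≤
        (n * b ^ e) * (b ^ (A + D + 1 + (ec - e)) * (K.N * E'.card)) := by
      have h4 : b ^ ec = b ^ e * b ^ (ec - e) := by
        rw [← pow_add]
        congr 1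
        omega
      calc (n * b ^ e) * (K.N * E2.card) = K.N * ((n * b ^ e) * E2.card) := by ring
        _ ≤ K.N * ((b ^ A * K.N) * S.card) := Nat.mul_le_mul_left _ h1
        _ = (b ^ A * K.N) * (K.N * S.card) := by ring
        _ ≤ (b ^ A * K.N) * (T * E'.card) := Nat.mul_le_mul_left _ h2
        _ = (n * b ^ e) * (b ^ (A + D + 1 + (ec - e)) * (K.N * E'.card)) := by
          rw [hT, h4]
          ring
    have h5 : K.N * E2.card ≤ b ^ (A + D + 1 + (ec - e)) * (K.N * E'.card) :=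
      Nat.le_of_mul_le_mul_left h3 (Nat.mul_pos (by omega) (Nat.pow_pos hb0))
    have h6 : K.N * E2.card ≤ K.N * (b ^ (A + D + 1 + (ec - e)) * E'.card) := by
      calc K.N * E2.card ≤ b ^ (A + D + 1 + (ec - e)) * (K.N * E'.card) := h5
        _ = K.N * (b ^ (A + D + 1 + (ec - e)) * E'.card) := by ring
    have h7 : E2.card ≤ b ^ (A + D + 1 + (ec - e)) * E'.card :=
      Nat.le_of_mul_le_mul_left h6 hNpos
    calc K.N ≤ b ^ D * E.card := hED
      _ ≤ b ^ D * (b * E2.card) := by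
        refine Nat.mul_le_mul_left _ (hE2card.trans (Nat.mul_le_mul_right _ (by omega)))
      _ ≤ b ^ D * (b * (b ^ (A + D + 1 + (ec - e)) * E'.card)) :=
        Nat.mul_le_mul_left _ (Nat.mul_le_mul_left _ h7)
      _ = b ^ (2 * D + A + (ec - e) + 2) * E'.card := by ring
      _ ≤ b ^ (2 * D + A + (ec - e) + (C0 + 2)) * E'.card :=
        Nat.mul_le_mul_right _ (Nat.pow_le_pow_right hb0 (by omega))
  · intro i hi
    exact ((mem_filter.1 hi).2).2
  · intro i hi
    obtain ⟨k, hk, l, hl, h1, h2, h3, h4⟩ := hU (K.a i) (cell K b e i) (hP i hi)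
    rw [h3]
    exact h4.2.2.1
  · intro i hi k' hk' l' hl' hk'' hl''
    obtain ⟨k, hk, l, hl, h1, h2, h3, h4⟩ := hU (K.a i) (cell K b e i) (hP i hi)
    rw [h3] at hk'' hl''
    obtain ⟨g1, g2, g3, g4⟩ := h4
    refine ⟨?_, ?_, ?_⟩
    · rw [← h2]
      exact cell_coarse K hb1 heec hk''
    · rw [← h2, g2]
      exact cell_coarse K hb1 heec hl''
    · have e1 : MX.hull K (cell K b ec) k' l' = MX.hull K (cell K b ec) k l := by
        unfold MX.hull MX.hi MX.lo
        rw [hk'', hl'']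
      have e2 : MX.gap K (cell K b ec) k' l' = MX.gap K (cell K b ec) k l := by
        unfold MX.gap MX.hi MX.lo
        rw [hk'', hl'']
      rw [e1, e2]
      exact g4
  · intro i hi u hu
    have h1 := (hkey (K.a i) (cell K b e i) (hP i hi) u hu).1
    refine h1.trans (Nat.mul_le_mul_right _ ?_)
    rw [hT]
    exact Nat.mul_le_mul_right _ (Nat.pow_le_pow_right hb0 (by omega))

/-! ### All levels -/

theorem e_mono {e dep : ℕ → ℕ} {J : ℕ} (h : ∀ j, j < J → e j + dep j ≤ e (j + 1)) :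
    ∀ j, j ≤ J → ∀ i, i ≤ j → e i ≤ e j := by
  intro j
  induction j with
  | zero =>
    intro _ i hi
    have : i = 0 := by omega
    rw [this]
  | succ j ih =>
    intro hj i hi
    rcases Nat.lt_or_ge i (j + 1) with h1 | h1
    · have h2 := ih (by omega) i (by omega)
      have h3 := h j (by omega)
      omega
    · have : i = j + 1 := by omega
      rw [this]

theorem I_GPS (hG : StGPS1) : StGPS := by
  obtain ⟨C0, hG⟩ := hG
  intro η A D J hη
  induction J with
  | zero =>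
    obtain ⟨n0, hn0⟩ := hG η A D hη
    refine ⟨fun _ => C0 * (D + 1), 2 * D + A + C0 * (D + 1) + C0, max n0 2, ?_⟩
    intro ι _ _ K hx hgp hn b hb hbN e _ hecN E hE hED hlight
    have hn2 : 2 ≤ Fintype.card ι := le_trans (le_max_right _ _) hn
    have hb1 : 1 ≤ b := by
      have h1 : (1 : ℝ) ≤ (Fintype.card ι : ℝ) ^ η :=
        Real.one_le_rpow (by exact_mod_cast (by omega : 1 ≤ Fintype.card ι)) hη.le
      exact_mod_cast h1.trans hb
    obtain ⟨E', U, h1, h2, h3⟩ := hn0 ι K hx hgp (le_trans (le_max_left _ _) hn) b hb hbN (e 0)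
      (e 0 + C0 * (D + 1)) le_rfl hecN E hE hED (hlight 0 le_rfl)
    refine ⟨E', fun _ => U, h1.1, ?_, ?_⟩
    · have h4 : e 0 + C0 * (D + 1) - e 0 = C0 * (D + 1) := by omega
      rw [h4] at h2
      exact h2
    · intro j hj
      have : j = 0 := by omega
      subst this
      exact h3.mono hb1 (by omega)
  | succ J ih =>
    obtain ⟨dep', G', n1, hn1⟩ := ih
    obtain ⟨n0, hn0⟩ := hG η A G' hη
    refine ⟨fun j => if j = 0 then C0 * (G' + 1) else dep' (j - 1),
      2 * G' + A + C0 * (G' + 1) + C0, max (max n0 n1) 2, ?_⟩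
    intro ι _ _ K hx hgp hn b hb hbN e hdep hecN E hE hED hlight
    have hn2 : 2 ≤ Fintype.card ι := le_trans (le_max_right _ _) hn
    have hnn0 : n0 ≤ Fintype.card ι := le_trans ((le_max_left _ _).trans (le_max_left _ _)) hn
    have hnn1 : n1 ≤ Fintype.card ι := le_trans ((le_max_right _ _).trans (le_max_left _ _)) hn
    have hb1 : 1 ≤ b := by
      have h1 : (1 : ℝ) ≤ (Fintype.card ι : ℝ) ^ η :=
        Real.one_le_rpow (by exact_mod_cast (by omega : 1 ≤ Fintype.card ι)) hη.le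
      exact_mod_cast h1.trans hb
    have hd0 : e 0 + C0 * (G' + 1) ≤ e 1 := by
      have h1 := hdep 0 (by omega)
      simpa using h1
    have hdS : ∀ j, j < J → e (j + 1) + dep' j ≤ e (j + 1 + 1) := by
      intro j hj
      have h1 := hdep (j + 1) (by omega)
      simpa using h1
    have hlast : b ^ (4 * (e (J + 1) + dep' J)) ≤ K.N := by
      simpa using hecN
    obtain ⟨E1, U1, h1, h2, h3⟩ := hn1 ι K hx hgp hnn1 b hb hbN (fun j => e (j + 1)) hdS hlast E hE
      hED (fun j hj => hlight (j + 1) (by omega))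
    have hmono : ∀ j, j ≤ J → e 1 ≤ e (j + 1) := by
      intro j hj
      have := e_mono (e := fun j => e (j + 1)) (dep := dep') hdS j hj 0 (by omega)
      simpa using this
    obtain ⟨E2, U2, h4, h5, h6⟩ := hn0 ι K hx hgp hnn0 b hb hbN (e 0)
      (e 0 + C0 * (G' + 1)) le_rfl (by
        refine le_trans (Nat.pow_le_pow_right (by omega) ?_) hlast
        have := hmono J le_rfl
        omega) E1 (h1.trans hE) h2 ((hlight 0 (by omega)).mono h1)
    refine ⟨E2, fun j => if j = 0 then U2 else U1 (j - 1), h4.1.trans h1, ?_, ?_⟩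
    · have h7 : e 0 + C0 * (G' + 1) - e 0 = C0 * (G' + 1) := by omega
      rw [h7] at h5
      exact h5
    · intro j hj
      rcases Nat.eq_zero_or_pos j with h0 | h0
      · subst h0
        simp only [if_true]
        exact h6.mono hb1 (by omega)
      · obtain ⟨i, rfl⟩ : ∃ i, j = i + 1 := ⟨j - 1, by omega⟩
        have h8 := h3 i (by omega)
        simp only [Nat.add_eq_zero_iff, one_ne_zero, and_false, if_false, Nat.add_sub_cancel]
        refine TwoG.mono hb1 (by omega) (h8.fib hb1 (by omega) (h1.trans hE) (h4.fine hb1 ?_))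
        have := hmono i (by omega)
        omega

end Pool.Agent.Work.MP_e17eac_co.HS
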