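import Pool.Agent.Work.MP_e17eac_co.HS.G_Cert

/-! HS, block G: assembly, the configuration. -/

namespace Pool.Agent.Work.MP_e17eac_co.HS

open Finset
open Pool.Agent.Work.MP_e17eac_co.DH
open Pool.Agent.Work.MP_e17eac_co.B1

section

variable {ι α : Type} [Fintype ι] [DecidableEq ι] [DecidableEq α] {K : KSys ι}
  {b M R F d : ℕ} {ec : ℕ → ℕ} {D D' ρ A : ℝ} {L : Lb α} {E E4 X4 E5 : Finset ℕ}
  {U : ℕ → ι → ℕ → ℕ × ℕ} {c f u u' : ℕ} {rm rp : ℕ → ι → ℝ}

/-- Lines with a common refined label have comparable radii. -/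
theorem rc_of (hCmp : StCmp) (hPr : StPr) (hRadC : StRadC)
    (h : PF K b M (gm d) R F ec D D' ρ A L E E4 X4 E5 U c f u u' rm rp)
    (hA : A ≤ (b : ℝ) ^ R) (hρ : D' * ρ ^ 2 < (b : ℝ) ^ (4 * R)) {i i1 v : ℕ}
    (hi : i ∈ E5) (hi1 : i1 ∈ E5) (hv : v ∈ E5) (hav : K.a v = K.a i1)
    (hgl : gl K b R d L U i = gl K b R d L U v)
    (hs : |K.ht (K.a i) (ta K b f u) - K.ht (K.a i1) (ta K b f u)| ≤
      (b : ℝ) ^ 3 * rp (gY d 5) (K.a i1))
    (he : |K.ht (K.a i) (tb K b f u') - K.ht (K.a i1) (tb K b f u')| ≤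
      (b : ℝ) ^ 3 * rp (gY d 5) (K.a i1)) : RC K d rm i1 i := by
  have hgI := gI_ge d
  have hP := hPr ι α K b M R F d ec D D' ρ A L E E4 X4 E5 U c f u u' rm rp h hA i hi
  have hPv := hPr ι α K b M R F d ec D D' ρ A L E E4 X4 E5 U c f u u' rm rp h hA v hv
  have hg : ∀ j, j ≤ d + 8 → - Real.log (hln K b R c f u u' U (8 * j + 4) i) =
      - Real.log (hln K b R c f u u' U (8 * j + 4) v) := by
    intro j hj
    have h1 : U (8 * j + 4) (K.a i) (cell K b (R * (8 * j + 4)) i) =
        U (8 * j + 4) (K.a v) (cell K b (R * (8 * j + 4)) v) := by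
      have h2 := congrFun (congrArg Prod.snd hgl) (⟨j, by omega⟩ : Fin (d + 9))
      simpa [gl] using h2
    unfold hln g0 g1
    rw [h1]
  have hP' : Pr (gI d) (d + 8) (8 * R * Real.log b) (fun k => - Real.log (rm (gY d k) (K.a i)))
      (fun j => - Real.log (hln K b R c f u u' U (8 * j + 4) v)) := by
    refine ⟨fun i' j hj hij => ?_, fun i' j hj hij => ?_, fun j hj => ?_, hP.gr⟩
    · have := hP.lo i' j hj hij
      rw [← hg j hj]
      exact this
    · have := hP.hi i' j hj hij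
      rw [← hg j hj]
      exact this
    · have := hP.sh j hj
      rw [← hg j hj]
      exact this
  rw [hav] at hPv
  have h5 : gY d 5 ≤ gm d := by unfold gY gm; omega
  have hlow : ∀ k, k ≤ 4 → rm (gY d (k + 1)) (K.a i1) ≤ rm (gY d k) (K.a i) ∧
      rm (gY d (k + 1)) (K.a i) ≤ rm (gY d k) (K.a i1) := by
    intro k hk
    obtain ⟨h1, h2⟩ := hRadC ι α K b M (gm d) R F ec D D' ρ A L E E4 X4 E5 U c f u u' rm rp h hρ
      i hi i1 hi1 (gY d 5) h5 hs he (gY d k) (by unfold gY; omega) (by unfold gY; omega)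
    have h3 := h.mono (z := gY d k + 1) (z' := gY d (k + 1)) (by omega) (by unfold gY; omega)
      (by unfold gY gm; omega) hi1
    have h4 := h.mono (z := gY d k + 1) (z' := gY d (k + 1)) (by omega) (by unfold gY; omega)
      (by unfold gY gm; omega) hi
    exact ⟨h3.trans h1, h4.trans h2⟩
  have hpos : ∀ k, k ≤ gI d → ∀ j ∈ E5, 0 < rm (gY d k) (K.a j) := fun k hk j hj =>
    h.rpos (by unfold gY; omega) (by unfold gY gm; omega) hj
  have hc := hCmp (gI d) (d + 8) (8 * R * Real.log b)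
    (fun k => - Real.log (rm (gY d k) (K.a i)))
    (fun k => - Real.log (rm (gY d k) (K.a i1)))
    (fun j => - Real.log (hln K b R c f u u' U (8 * j + 4) v)) (by omega) hP' hPv (by
      intro k hk
      obtain ⟨h1, h2⟩ := hlow k hk
      constructor
      · exact neg_le_neg (Real.log_le_log (hpos _ (by omega) i1 hi1) h1)
      · exact neg_le_neg (Real.log_le_log (hpos _ (by omega) i hi) h2))
  intro k hk
  obtain ⟨h1, h2⟩ := hc k hk
  constructor
  · exact (Real.log_le_log_iff (hpos _ (by omega) i1 hi1) (hpos _ (by omega) i hi)).1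
      (neg_le_neg_iff.1 h1)
  · exact (Real.log_le_log_iff (hpos _ (by omega) i hi) (hpos _ (by omega) i1 hi1)).1
      (neg_le_neg_iff.1 h2)

/-- Representative of the window of level `x` of `v` among the edges of `E5` at the line `p`. -/
noncomputable def rep (K : KSys ι) (b x : ℕ) (E5 : Finset ℕ) (p : ι) (v : ℕ) : ℕ :=
  sInf {w | w ∈ E5 ∧ K.a w = p ∧ cell K b x w = cell K b x v}

theorem rep_spec (K : KSys ι) (b x : ℕ) (E5 : Finset ℕ) {p : ι} {v : ℕ} (hv : v ∈ E5)
    (ha : K.a v = p) : rep K b x E5 p v ∈ E5 ∧ K.a (rep K b x E5 p v) = p ∧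
      cell K b x (rep K b x E5 p v) = cell K b x v :=
  Nat.sInf_mem (s := {w | w ∈ E5 ∧ K.a w = p ∧ cell K b x w = cell K b x v}) ⟨v, hv, ha, rfl⟩

theorem rep_eq (K : KSys ι) (b x : ℕ) (E5 : Finset ℕ) (p : ι) {v w : ℕ}
    (h : cell K b x v = cell K b x w) : rep K b x E5 p v = rep K b x E5 p w := by
  unfold rep
  rw [h]

/-- Number of representatives of a set of edges at one line. -/
theorem rep_card (h : PF K b M (gm d) R F ec D D' ρ A L E E4 X4 E5 U c f u u' rm rp) {x : ℕ}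
    (hx : R * x ≤ M) {i1 : ℕ} (T : Finset ℕ) (hT : T ⊆ E5) (ha : ∀ v ∈ T, K.a v = K.a i1) :
    (T.card : ℝ) * (Fintype.card ι * (b : ℝ) ^ (R * x)) ≤
      ((T.image (rep K b (R * x) E5 (K.a i1))).card : ℝ) * (D * K.N) := by
  have h1 : (T.card : ℝ) = ∑ w ∈ T.image (rep K b (R * x) E5 (K.a i1)),
      ((T.filter (fun v => rep K b (R * x) E5 (K.a i1) v = w)).card : ℝ) := by
    exact_mod_cast Finset.card_eq_sum_card_image (rep K b (R * x) E5 (K.a i1)) T
  rw [h1, Finset.sum_mul]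
  calc ∑ w ∈ T.image (rep K b (R * x) E5 (K.a i1)),
      ((T.filter (fun v => rep K b (R * x) E5 (K.a i1) v = w)).card : ℝ) *
        (Fintype.card ι * (b : ℝ) ^ (R * x))
      ≤ ∑ w ∈ T.image (rep K b (R * x) E5 (K.a i1)), D * K.N := by
        apply Finset.sum_le_sum
        intro w hw
        obtain ⟨v, hv, rfl⟩ := mem_image.1 hw
        have hr := rep_spec K b (R * x) E5 (hT hv) (ha v hv)
        have hl := (h.s4.hyg (h.mem4 hr.1)).light false (R * x) hx
        refine le_trans ?_ hl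
        apply mul_le_mul_of_nonneg_right _ (by positivity)
        exact_mod_cast card_le_card (fun y hy => by
          rw [mem_filter] at hy ⊢
          refine ⟨mem_range.2 (h.s4.hyg (h.mem4 (hT hy.1))).lt, ?_, ?_⟩
          · change K.a y = K.a _
            rw [ha y hy.1, hr.2.1]
          · have hy2 := (rep_spec K b (R * x) E5 (hT hy.1) (ha y hy.1)).2.2
            rw [hy.2] at hy2
            exact hy2.symm)
    _ = _ := by rw [sum_const, nsmul_eq_mul]

end

end Pool.Agent.Work.MP_e17eac_co.HS
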