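import Pool.Agent.Work.MP_e17eac_co.HS.G_Fac

/-! HS, block G: certificates for the incidences. -/

namespace Pool.Agent.Work.MP_e17eac_co.HS

open Finset
open Pool.Agent.Work.MP_e17eac_co.DH
open Pool.Agent.Work.MP_e17eac_co.B1

/-- The radii of the line of `i` and of the line of `i1` are comparable. -/
def RC {ι : Type} [Fintype ι] [DecidableEq ι] (K : KSys ι) (d : ℕ) (rm : ℕ → ι → ℝ) (i1 i : ℕ) :
    Prop :=
  ∀ k, k ≤ d + 8 → rm (gY d (k + 3)) (K.a i1) ≤ rm (gY d k) (K.a i) ∧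
    rm (gY d (k + 3)) (K.a i) ≤ rm (gY d k) (K.a i1)

theorem cert (hTwo : StTwoH) (hPr : StPr) {ι α : Type} [Fintype ι] [DecidableEq ι]
    [DecidableEq α] {K : KSys ι} {b M R F d : ℕ} {ec : ℕ → ℕ} {D D' ρ A : ℝ} {L : Lb α}
    {E E4 X4 E5 : Finset ℕ} {U : ℕ → ι → ℕ → ℕ × ℕ} {c f u u' : ℕ} {rm rp : ℕ → ι → ℝ}
    (h : PF K b M (gm d) R F ec D D' ρ A L E E4 X4 E5 U c f u u' rm rp)
    (hA : A ≤ (b : ℝ) ^ R) {i i1 : ℕ} (hi : i ∈ E5) (hi1 : i1 ∈ E5)
    (hs : |K.ht (K.a i) (ta K b f u) - K.ht (K.a i1) (ta K b f u)| ≤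
      (b : ℝ) ^ 3 * rp (gY d 5) (K.a i1))
    (he : |K.ht (K.a i) (tb K b f u') - K.ht (K.a i1) (tb K b f u')| ≤
      (b : ℝ) ^ 3 * rp (gY d 5) (K.a i1))
    (hrc : RC K d rm i1 i) (t : ℝ)
    (ht0 : g0 K b (R * (8 * (d + 1) + 4)) (R * (8 * (d + 1) + 4) + c) (U (8 * (d + 1) + 4)) i ≤ t)
    (ht1 : t ≤ g1 K b (R * (8 * (d + 1) + 4)) (R * (8 * (d + 1) + 4) + c)
      (U (8 * (d + 1) + 4)) i) :
    ∃ S : Finset ι, S ⊆ bal K (PS K b M D) (ta K b f u) (tb K b f u') (K.a i1)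
        ((b : ℝ) ^ 16 * rp (gY d 2) (K.a i1)) ∧
      (Fintype.card ι : ℝ) ≤ A * (b : ℝ) ^ (2 * (R * (gY d 5 + 1)) +
        2 * (R * (gY d (d + 7) + 1))) * (S.card : ℝ) ∧
      ∀ q ∈ S, 2 * |K.ht q t - K.ht (K.a i) t| ≤ rm (gY d (d + 3)) (K.a i1) := by
  have hgI := gI_ge d
  have hb := h.b2
  have hb1 : (1 : ℝ) ≤ b := by linarith
  have hbn : 1 ≤ b := by have := h.s4.ls.lev.two; omega
  have hx1 : 1 ≤ 8 * (d + 1) + 4 := by omega
  have e5 : gY d 5 + 1 ≤ gm d := by unfold gY gm; omega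
  have e7 : gY d (d + 7) + 1 ≤ gm d := by unfold gY gm; omega
  obtain ⟨j1, hj1, j2, hj2, ha2, hc2, hcard⟩ := h.st (8 * (d + 1) + 4) (gY d 5 + 1)
    (gY d (d + 7) + 1) hx1 (by unfold gY; omega) (by omega) (by unfold gY; omega) e7
    (by unfold gY; omega) i hi
  rw [mem_sdiff] at hj1 hj2
  have hj1E := mem_filter.1 hj1.1
  have ha1 : K.a j1 = K.a i := hj1E.2.1
  have hcx : cell K b (R * (8 * (d + 1) + 4)) j1 = cell K b (R * (8 * (d + 1) + 4)) i := hj1E.2.2
  have hfR : f ≤ R * (8 * (d + 1) + 4) :=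
    le_trans h.s4.fR.1 (Nat.le_mul_of_pos_right _ (by omega))
  have hcf : cell K b f j1 = cell K b f i := RAD.ccoarse K hbn hfR hcx
  have hne : cell K b f j1 ≠ cell K b f j2 := by
    rw [hcf]
    exact fun h' => hc2 h'.symm
  have hr1 := h.s4.r1' (gY d (d + 7) + 1) (by omega) e7 j1 (mem_sdiff.2 ⟨hj1E.1, hj1.2⟩)
  have hr2 := h.s4.r1' (gY d 5 + 1) (by omega) e5 j2 (mem_sdiff.2 hj2)
  rw [ha1] at hr1
  rw [ha2] at hr2
  have hp1 := h.rppos (z := gY d (d + 7) + 1) (by omega) e7 hi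
  have hp2 := h.rppos (z := gY d 5 + 1) (by omega) e5 hi
  have q1 := h.rpmono (z := gY d (d + 7)) (z' := gY d (d + 7) + 1) (by unfold gY; omega)
    le_rfl e7 hi
  have q2 := h.rpmono (z := gY d 5) (z' := gY d 5 + 1) (by unfold gY; omega) le_rfl e5 hi
  have q3 := h.mono (z := gY d 5) (z' := gY d (d + 7)) (by unfold gY; omega) (by unfold gY; omega)
    (by omega) hi
  have q4 := h.mono (z := gY d (d + 6)) (z' := gY d (d + 7)) (by unfold gY; omega)
    (by unfold gY; omega) (by omega) hi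
  set ρ1 := rp (gY d (d + 7) + 1) (K.a i) with hρ1
  set ρ2 := rp (gY d 5 + 1) (K.a i) with hρ2
  -- powers of b
  have p16 : (b : ℝ) * (2 : ℝ) ^ 15 ≤ (b : ℝ) ^ 16 := by
    calc (b : ℝ) * (2 : ℝ) ^ 15 ≤ b * (b : ℝ) ^ 15 :=
        mul_le_mul_of_nonneg_left (pow_le_pow_left₀ (by norm_num) hb 15) (by linarith)
      _ = (b : ℝ) ^ 16 := by ring
  have p3 : (b : ℝ) ^ 3 * (2 : ℝ) ^ 13 ≤ (b : ℝ) ^ 16 := by
    calc (b : ℝ) ^ 3 * (2 : ℝ) ^ 13 ≤ (b : ℝ) ^ 3 * (b : ℝ) ^ 13 :=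
        mul_le_mul_of_nonneg_left (pow_le_pow_left₀ (by norm_num) hb 13) (by positivity)
      _ = (b : ℝ) ^ 16 := by ring
  have hρ1' : ρ1 * (b * (2 : ℝ) ^ 15) ≤ rm (gY d (d + 7)) (K.a i) := by
    refine le_trans ?_ q1
    rw [mul_comm]
    exact mul_le_mul_of_nonneg_right p16 hp1.le
  have hρ2' : ρ2 * (b * (2 : ℝ) ^ 15) ≤ rm (gY d 5) (K.a i) := by
    refine le_trans ?_ q2
    rw [mul_comm]
    exact mul_le_mul_of_nonneg_right p16 hp2.le
  refine ⟨NN K E4 (L.lab (2 * (gY d (d + 7) + 1))) j1 ∩ NN K E4 (L.lab (2 * (gY d 5 + 1))) j2,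
    ?_, hcard, ?_⟩
  · intro q hq
    rw [mem_inter] at hq
    obtain ⟨t1, t2, -⟩ := hTwo ι α K b M (gm d) R F ec D D' ρ L E E4 X4 U c f u u' rm rp h.s4 j1
      hj1E.1 j2 hj2.1 (ha1.trans ha2.symm) hne (gY d (d + 7) + 1) (gY d 5 + 1) (by omega) e7
      (by omega) e5 q hq.1 hq.2 ρ1 ρ2 hr1 hr2
    rw [ha1] at t1 t2
    have hPS : q ∈ PS K b M D := by
      obtain ⟨j, hj, rfl⟩ := mem_image.1 hq.1
      exact (h.s4.hyg (mem_filter.1 hj).1).ps false
    -- bounds
    have r5 := (hrc 2 (by omega)).2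
    have r6 := h.rp1 (z := gY d 2) (by unfold gY; omega) (by unfold gY gm; omega) hi1
    have r7 := h.rpmono (z := gY d 2) (z' := gY d 5) (by unfold gY; omega) (by unfold gY; omega)
      (by omega) hi1
    have r8 := h.rppos (z := gY d 2) (by unfold gY; omega) (by unfold gY gm; omega) hi1
    have r9 := h.rppos (z := gY d 5) (by unfold gY; omega) (by omega) hi1
    have r10 := h.rpos (z := gY d 5) (by unfold gY; omega) (by omega) hi
    have s1 : ρ1 + b * (ρ1 + ρ2) ≤ rm (gY d 5) (K.a i) := by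
      have : ρ1 ≤ ρ1 * b := le_mul_of_one_le_right hp1.le hb1
      have h1 : ρ1 * b * (2 : ℝ) ^ 15 ≤ rm (gY d 5) (K.a i) := by
        rw [mul_assoc]; exact hρ1'.trans q3
      have h2 : ρ2 * b * (2 : ℝ) ^ 15 ≤ rm (gY d 5) (K.a i) := by
        rw [mul_assoc]; exact hρ2'
      have h3 : 0 < ρ1 * b := by positivity
      have h4 : 0 < ρ2 * b := by positivity
      norm_num at h1 h2
      linarith
    have s2 : (b : ℝ) ^ 3 * rp (gY d 5) (K.a i1) ≤ rm (gY d 2) (K.a i1) := by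
      refine le_trans ?_ r7
      apply mul_le_mul_of_nonneg_right _ r9.le
      exact pow_le_pow_right₀ hb1 (by norm_num)
    have s3 : 6 * b * rp (gY d 2) (K.a i1) ≤ (b : ℝ) ^ 16 * rp (gY d 2) (K.a i1) := by
      apply mul_le_mul_of_nonneg_right _ r8.le
      norm_num at p16
      linarith
    unfold bal
    rw [mem_filter]
    refine ⟨hPS, ?_, ?_⟩
    · have := abs_sub_le (K.ht q (ta K b f u)) (K.ht (K.a i) (ta K b f u))
        (K.ht (K.a i1) (ta K b f u))
      linarith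
    · have := abs_sub_le (K.ht q (tb K b f u')) (K.ht (K.a i) (tb K b f u'))
        (K.ht (K.a i1) (tb K b f u'))
      linarith
  · intro q hq
    rw [mem_inter] at hq
    obtain ⟨-, -, t3⟩ := hTwo ι α K b M (gm d) R F ec D D' ρ L E E4 X4 U c f u u' rm rp h.s4 j1
      hj1E.1 j2 hj2.1 (ha1.trans ha2.symm) hne (gY d (d + 7) + 1) (gY d 5 + 1) (by omega) e7
      (by omega) e5 q hq.1 hq.2 ρ1 ρ2 hr1 hr2
    have hg0 : g0 K b (R * (8 * (d + 1) + 4)) (R * (8 * (d + 1) + 4) + c) (U (8 * (d + 1) + 4)) j1 =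
        g0 K b (R * (8 * (d + 1) + 4)) (R * (8 * (d + 1) + 4) + c) (U (8 * (d + 1) + 4)) i := by
      unfold g0; rw [ha1, hcx]
    have hg1 : g1 K b (R * (8 * (d + 1) + 4)) (R * (8 * (d + 1) + 4) + c) (U (8 * (d + 1) + 4)) j1 =
        g1 K b (R * (8 * (d + 1) + 4)) (R * (8 * (d + 1) + 4) + c) (U (8 * (d + 1) + 4)) i := by
      unfold g1; rw [ha1, hcx]
    have hhl : hln K b R c f u u' U (8 * (d + 1) + 4) j1 =
        hln K b R c f u u' U (8 * (d + 1) + 4) i := by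
      unfold hln; rw [hg0, hg1]
    have t4 := t3 (8 * (d + 1) + 4) hx1 (by unfold gY; omega) t (by rw [hg0]; exact ht0)
      (by rw [hg1]; exact ht1)
    rw [ha1, hhl] at t4
    have hP := hPr ι α K b M R F d ec D D' ρ A L E E4 X4 E5 U c f u u' rm rp h hA i hi
    have hlo := hP.lo 5 (d + 1) (by omega) (by omega)
    have hsh := hP.sh (d + 1) (by omega)
    have e6 : 5 + (d + 1) = d + 6 := by omega
    rw [e6] at hlo
    have w6 := h.rpos (z := gY d (d + 6)) (by unfold gY; omega) (by unfold gY gm; omega) hi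
    have w5 := h.rpos (z := gY d 5) (by unfold gY; omega) (by omega) hi
    have hlogb : 0 ≤ Real.log b := Real.log_nonneg hb1
    have hgpos : 0 ≤ - Real.log (hln K b R c f u u' U (8 * (d + 1) + 4) i) := by
      refine le_trans ?_ hsh
      positivity
    have hhp : 0 < hln K b R c f u u' U (8 * (d + 1) + 4) i := by
      by_contra hcon
      have hbr : (1 : ℝ) < (b : ℝ) ^ R := by
        have : (1000 : ℝ) ≤ (b : ℝ) ^ R := h.Abig.trans hA
        linarith
      have hRpos : 0 < R := by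
        rcases Nat.eq_zero_or_pos R with h0 | h0
        · rw [h0] at hbr; norm_num at hbr
        · exact h0
      have hil := h.il hi
      have hm := (h.s4.tw (8 * (d + 1) + 4) hx1 (by unfold gm; omega)).mem i (h.mem4 hi)
      -- the hull contains `t`, so its length is nonnegative; it is positive by `gap`
      have hgap := (h.s4.tw (8 * (d + 1) + 4) hx1 (by unfold gm; omega)).gap i (h.mem4 hi)
      have hup := h.up (8 * (d + 1) + 4) (gY d 5) (gY d 5 + 1) hx1 (by unfold gY; omega)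
        (by unfold gY; omega) (by omega) e5 (by omega) i hi
      have hlo2 := h.lo (8 * (d + 1) + 4) (gY d 5) (gY d (d + 7) + 1) hx1 (by unfold gY; omega)
        (by unfold gY; omega) (by unfold gY; omega) e7 (by unfold gY; omega)
        (by unfold gY; omega) i hi
      have w7 := h.rpos (z := gY d (d + 7) + 1) (by omega) e7 hi
      have w8 := h.rppos (z := gY d 5) (by unfold gY; omega) (by omega) hi
      have : 0 < (g1 K b (R * (8 * (d + 1) + 4)) (R * (8 * (d + 1) + 4) + c)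
          (U (8 * (d + 1) + 4)) i - g0 K b (R * (8 * (d + 1) + 4)) (R * (8 * (d + 1) + 4) + c)
          (U (8 * (d + 1) + 4)) i) * rp (gY d 5) (K.a i) := lt_of_lt_of_le (by positivity) hlo2
      have h9 := pos_of_mul_pos_left this w8.le
      apply hcon
      unfold hln
      exact div_pos h9 hil
    have hh1 : hln K b R c f u u' U (8 * (d + 1) + 4) i ≤ 1 := by
      by_contra hcon
      push Not at hcon
      have := Real.log_pos hcon
      linarith
    have hh2 : hln K b R c f u u' U (8 * (d + 1) + 4) i * rm (gY d 5) (K.a i) ≤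
        rm (gY d (d + 6)) (K.a i) := by
      have h1 : Real.log (hln K b R c f u u' U (8 * (d + 1) + 4) i * rm (gY d 5) (K.a i)) ≤
          Real.log (rm (gY d (d + 6)) (K.a i)) := by
        rw [Real.log_mul hhp.ne' w5.ne']
        linarith
      exact (Real.log_le_log_iff (by positivity) w6).1 h1
    set hh := hln K b R c f u u' U (8 * (d + 1) + 4) i with hhdef
    have r6 := (hrc (d + 3) (by omega)).2
    have e63 : d + 3 + 3 = d + 6 := by omega
    rw [e63] at r6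
    -- final estimate
    have f1 : ρ1 * b * (2 : ℝ) ^ 15 ≤ rm (gY d (d + 6)) (K.a i) := by
      rw [mul_assoc]; exact hρ1'.trans q4
    have f2 : ρ2 * b * hh * (2 : ℝ) ^ 15 ≤ rm (gY d (d + 6)) (K.a i) := by
      calc ρ2 * b * hh * (2 : ℝ) ^ 15 = hh * (ρ2 * (b * (2 : ℝ) ^ 15)) := by ring
        _ ≤ hh * rm (gY d 5) (K.a i) := mul_le_mul_of_nonneg_left hρ2' hhp.le
        _ ≤ _ := hh2
    have f3 : ρ1 ≤ ρ1 * b := le_mul_of_one_le_right hp1.le hb1
    have f4 : b * ρ1 * hh ≤ ρ1 * b := by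
      calc b * ρ1 * hh = ρ1 * b * hh := by ring
        _ ≤ ρ1 * b * 1 := mul_le_mul_of_nonneg_left hh1 (by positivity)
        _ = ρ1 * b := by ring
    have f5 : b * (ρ1 + ρ2) * hh = b * ρ1 * hh + ρ2 * b * hh := by ring
    rw [f5] at t4
    have f6 : 0 < ρ2 * b * hh := by positivity
    have f7 : 0 < ρ1 * b := by positivity
    norm_num at f1 f2
    linarith

end Pool.Agent.Work.MP_e17eac_co.HS
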