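import Pool.Agent.Work.MP_e17eac_co.HS.StG2
import Pool.Agent.Work.MP_e17eac_co.HS.RadA

/-! HS, block G: elementary facts about `PF`. -/

namespace Pool.Agent.Work.MP_e17eac_co.HS

open Finset
open Pool.Agent.Work.MP_e17eac_co.DH
open Pool.Agent.Work.MP_e17eac_co.B1

section

variable {ι α : Type} [Fintype ι] [DecidableEq ι] [DecidableEq α] {K : KSys ι}
  {b M m R F : ℕ} {ec : ℕ → ℕ} {D D' ρ A : ℝ} {L : Lb α} {E E4 X4 E5 : Finset ℕ}
  {U : ℕ → ι → ℕ → ℕ × ℕ} {c f u u' : ℕ} {rm rp : ℕ → ι → ℝ}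

theorem PF.b2 (h : PF K b M m R F ec D D' ρ A L E E4 X4 E5 U c f u u' rm rp) : (2 : ℝ) ≤ b := by
  exact_mod_cast h.s4.ls.lev.two

theorem PF.mem4 (h : PF K b M m R F ec D D' ρ A L E E4 X4 E5 U c f u u' rm rp) {i : ℕ}
    (hi : i ∈ E5) : i ∈ E4 := (mem_sdiff.1 (h.sub hi)).1

theorem PF.memX (h : PF K b M m R F ec D D' ρ A L E E4 X4 E5 U c f u u' rm rp) {i : ℕ}
    (hi : i ∈ E5) : i ∈ E4 \ X4 := h.sub hi

theorem S4.hyg (h : S4 K b M m R F ec D D' ρ L E E4 X4 U c f u u' rm rp) {i : ℕ}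
    (hi : i ∈ E4) : Hyg K b M D i := h.ls.hyg i (h.sub hi)

theorem PF.D64 (h : PF K b M m R F ec D D' ρ A L E E4 X4 E5 U c f u u' rm rp) :
    (b : ℝ) ^ 64 ≤ D := h.s4.ls.bD

theorem PF.A64 (h : PF K b M m R F ec D D' ρ A L E E4 X4 E5 U c f u u' rm rp) :
    (b : ℝ) ^ 64 ≤ A := h.D64.trans (h.s4.DD.trans h.DA)

theorem PF.Abig (h : PF K b M m R F ec D D' ρ A L E E4 X4 E5 U c f u u' rm rp) :
    (1000 : ℝ) ≤ A := by
  refine le_trans ?_ h.A64
  calc (1000 : ℝ) ≤ 2 ^ 64 := by norm_num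
    _ ≤ (b : ℝ) ^ 64 := pow_le_pow_left₀ (by norm_num) h.b2 64

theorem PF.DA' (h : PF K b M m R F ec D D' ρ A L E E4 X4 E5 U c f u u' rm rp) : D ≤ A :=
  h.s4.DD.trans h.DA

theorem PF.rp1 (h : PF K b M m R F ec D D' ρ A L E E4 X4 E5 U c f u u' rm rp) {z : ℕ}
    (h1 : 1 ≤ z) (h2 : z ≤ m) {i : ℕ} (hi : i ∈ E5) :
    rm z (K.a i) ≤ 3 * b * rp z (K.a i) := by
  have hb := h.b2
  exact (h.s4.r1 z h1 h2 i (h.mem4 hi)).trans
    (mul_le_mul_of_nonneg_left (h.s4.r1' z h1 h2 i (h.memX hi)) (by linarith))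

theorem PF.rpos (h : PF K b M m R F ec D D' ρ A L E E4 X4 E5 U c f u u' rm rp) {z : ℕ}
    (h1 : 1 ≤ z) (h2 : z ≤ m) {i : ℕ} (hi : i ∈ E5) : 0 < rm z (K.a i) :=
  h.s4.rmp z h1 h2 i (h.mem4 hi)

theorem PF.rppos (h : PF K b M m R F ec D D' ρ A L E E4 X4 E5 U c f u u' rm rp) {z : ℕ}
    (h1 : 1 ≤ z) (h2 : z ≤ m) {i : ℕ} (hi : i ∈ E5) : 0 < rp z (K.a i) := by
  have h3 := h.rpos h1 h2 hi
  have h4 := h.rp1 h1 h2 hi
  have hb := h.b2
  by_contra hcon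
  push Not at hcon
  have : 3 * (b : ℝ) * rp z (K.a i) ≤ 0 := mul_nonpos_of_nonneg_of_nonpos (by linarith) hcon
  linarith

theorem PF.step (h : PF K b M m R F ec D D' ρ A L E E4 X4 E5 U c f u u' rm rp) {z : ℕ}
    (h1 : 1 ≤ z) (h2 : z + 1 ≤ m) {i : ℕ} (hi : i ∈ E5) :
    4 * rm (z + 1) (K.a i) ≤ rm z (K.a i) := by
  have hb := h.b2
  have h3 := h.rp1 (z := z + 1) (by omega) h2 hi
  have h4 := h.r3 z h1 h2 i hi
  have h5 := h.rppos (z := z + 1) (by omega) h2 hi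
  have h6 : 12 * (b : ℝ) ≤ (b : ℝ) ^ 16 := by
    calc 12 * (b : ℝ) ≤ (2 : ℝ) ^ 15 * b := by linarith
      _ ≤ (b : ℝ) ^ 15 * b :=
        mul_le_mul_of_nonneg_right (pow_le_pow_left₀ (by norm_num) hb 15) (by linarith)
      _ = (b : ℝ) ^ 16 := by ring
  have h7 : 12 * (b : ℝ) * rp (z + 1) (K.a i) ≤ (b : ℝ) ^ 16 * rp (z + 1) (K.a i) :=
    mul_le_mul_of_nonneg_right h6 h5.le
  linarith

theorem PF.mono (h : PF K b M m R F ec D D' ρ A L E E4 X4 E5 U c f u u' rm rp) {z z' : ℕ}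
    (h1 : 1 ≤ z) (h2 : z ≤ z') (h3 : z' ≤ m) {i : ℕ} (hi : i ∈ E5) :
    rm z' (K.a i) ≤ rm z (K.a i) := by
  induction z', h2 using Nat.le_induction with
  | base => exact le_rfl
  | succ n hn ih =>
    have h4 := h.step (z := n) (by omega) h3 hi
    have h5 := h.rpos (z := n + 1) (by omega) h3 hi
    have h6 := ih (by omega)
    linarith

theorem PF.rpmono (h : PF K b M m R F ec D D' ρ A L E E4 X4 E5 U c f u u' rm rp) {z z' : ℕ}
    (h1 : 1 ≤ z) (h2 : z + 1 ≤ z') (h3 : z' ≤ m) {i : ℕ} (hi : i ∈ E5) :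
    (b : ℝ) ^ 16 * rp z' (K.a i) ≤ rm z (K.a i) := by
  obtain ⟨y, rfl⟩ : ∃ y, z' = y + 1 := ⟨z' - 1, by omega⟩
  exact (h.r3 y (by omega) h3 i hi).le.trans (h.mono h1 (by omega) (by omega) hi)

theorem PF.il (h : PF K b M m R F ec D D' ρ A L E E4 X4 E5 U c f u u' rm rp) {i : ℕ}
    (hi : i ∈ E5) : 0 < tb K b f u' - ta K b f u := by
  have hN : 0 < K.N := h.s4.ls.npos
  have hb : 1 ≤ b := by have := h.s4.ls.lev.two; omega
  have hNr : (0 : ℝ) < K.N := by exact_mod_cast hN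
  have h1 := h.s4.rt.ql i (h.mem4 hi)
  have h2 := h.s4.rt.qr i (h.mem4 hi)
  have e1 : ∃ j ∈ E4, cell K b f j = u := by
    by_contra hcon
    push Not at hcon
    have : (E4.filter (fun i' => K.a i' = K.a i ∧ cell K b f i' = u)) = ∅ := by
      rw [filter_eq_empty_iff]
      intro j hj hj2
      exact hcon j hj hj2.2
    rw [this] at h1
    simp at h1
    linarith
  have e2 : ∃ j ∈ E4, cell K b f j = u' := by
    by_contra hcon
    push Not at hcon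
    have : (E4.filter (fun i' => K.a i' = K.a i ∧ cell K b f i' = u')) = ∅ := by
      rw [filter_eq_empty_iff]
      intro j hj hj2
      exact hcon j hj hj2.2
    rw [this] at h2
    simp at h2
    linarith
  obtain ⟨j1, hj1, hu⟩ := e1
  obtain ⟨j2, hj2, hu'⟩ := e2
  have hl1 := (h.s4.hyg hj1).lt
  have hl2 := (h.s4.hyg hj2).lt
  have h3 := RAD.tb_lt_ta K b f hl1 hl2 (by rw [hu, hu']; exact h.s4.rt.lt)
  have h4 := RAD.ta_le_tb K b f hl1
  have h5 := RAD.ta_le_tb K b f hl2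
  rw [hu] at h3 h4
  rw [hu'] at h3 h5
  linarith

/-- The normalised time lies in `[0, 1]`. -/
theorem PF.tm (h : PF K b M m R F ec D D' ρ A L E E4 X4 E5 U c f u u' rm rp) {i : ℕ}
    (hi : i ∈ E5) : ta K b f u ≤ K.t i ∧ K.t i ≤ tb K b f u' := by
  have hi4 := h.mem4 hi
  have hl := (h.s4.hyg hi4).lt
  have h1 := RAD.ta_le K b f hl
  have h2 := RAD.le_tb K b f hl
  have hil := h.il hi
  have hg := h.s4.rt.gap
  have hb := h.b2
  have h3 : 0 < ta K b f u' - tb K b f u := by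
    by_contra hcon
    push Not at hcon
    have : (b : ℝ) * (ta K b f u' - tb K b f u) ≤ 0 :=
      mul_nonpos_of_nonneg_of_nonpos (by linarith) hcon
    linarith
  have hN : 0 < K.N := h.s4.ls.npos
  have hNr : (0 : ℝ) < K.N := by exact_mod_cast hN
  rcases h.s4.rt.mem i hi4 with hc | hc
  · rw [hc] at h1 h2
    refine ⟨h1, ?_⟩
    have h6 := h.s4.rt.qr i hi4
    have e2 : ∃ j ∈ E4, cell K b f j = u' := by
      by_contra hcon
      push Not at hcon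
      have : (E4.filter (fun i' => K.a i' = K.a i ∧ cell K b f i' = u')) = ∅ := by
        rw [filter_eq_empty_iff]
        intro j hj hj2
        exact hcon j hj hj2.2
      rw [this] at h6
      simp at h6
      linarith
    obtain ⟨j2, hj2, hu'⟩ := e2
    have h5 := RAD.ta_le_tb K b f (h.s4.hyg hj2).lt
    rw [hu'] at h5
    linarith
  · rw [hc] at h1 h2
    refine ⟨?_, h2⟩
    have h6 := h.s4.rt.ql i hi4
    have e2 : ∃ j ∈ E4, cell K b f j = u := by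
      by_contra hcon
      push Not at hcon
      have : (E4.filter (fun i' => K.a i' = K.a i ∧ cell K b f i' = u)) = ∅ := by
        rw [filter_eq_empty_iff]
        intro j hj hj2
        exact hcon j hj hj2.2
      rw [this] at h6
      simp at h6
      linarith
    obtain ⟨j2, hj2, hu'⟩ := e2
    have h5 := RAD.ta_le_tb K b f (h.s4.hyg hj2).lt
    rw [hu'] at h5
    linarith

theorem PF.rho1 (h : PF K b M m R F ec D D' ρ A L E E4 X4 E5 U c f u u' rm rp) : 1 ≤ ρ :=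
  h.s4.one

end

theorem gI_ge (d : ℕ) : 20 * d + 100 ≤ gI d := by
  unfold gI
  nlinarith

end Pool.Agent.Work.MP_e17eac_co.HS
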