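import Pool.Agent.Work.MP_e17eac_co.HS.G_Main

/-! HS, block G: final assembly. -/

namespace Pool.Agent.Work.MP_e17eac_co.HS

open Finset
open Pool.Agent.Work.MP_e17eac_co.DH
open Pool.Agent.Work.MP_e17eac_co.B1

section

variable {ι α : Type} [Fintype ι] [DecidableEq ι] [DecidableEq α] {K : KSys ι}
  {b M R F d : ℕ} {ec : ℕ → ℕ} {D D' ρ A : ℝ} {L : Lb α} {E E4 X4 E5 : Finset ℕ}
  {U : ℕ → ι → ℕ → ℕ × ℕ} {c f u u' : ℕ} {rm rp : ℕ → ι → ℝ}

theorem PF.M_ge (h : PF K b M (gm d) R F ec D D' ρ A L E E4 X4 E5 U c f u u' rm rp) {x : ℕ}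
    (hx : x ≤ gm d) : R * x ≤ M := by
  have h1 := (h.s4.ls.lev.child (2 * x) (by omega))
  unfold ex at h1
  have e1 : 2 * x / 2 = x := by omega
  have e2 : 2 * x % 2 = 0 := by omega
  rw [e1, e2] at h1
  omega

/-- Upper bound for the masses. -/
theorem mass_hi' (h : PF K b M (gm d) R F ec D D' ρ A L E E4 X4 E5 U c f u u' rm rp)
    (hAρ : A ^ 10 ≤ ρ) {i i1 : ℕ} (hi : i ∈ E5) (hi1 : i1 ∈ E5) (hrc : RC K d rm i1 i) (k : ℕ)
    (hk : k ≤ d) :
    (CFG.mass (PS K b M D) (fun p => K.ht p (ta K b f u)) (fun p => K.ht p (tb K b f u')) (K.a i)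
      (rm (gY d (k + 3)) (K.a i1)) : ℝ) * ((b : ℝ) ^ (8 * R)) ^ (2 * k) ≤
      Fintype.card ι / (b : ℝ) ^ (4 * (R * gY d 3)) * ((b : ℝ) ^ (8 * R)) ^ 12 := by
  have hgI := gI_ge d
  have hb := h.b2
  have hb1 : (1 : ℝ) ≤ b := by linarith
  have hb0 : (0 : ℝ) < b := by linarith
  obtain ⟨hl1, hl2⟩ := loss h hAρ
  have hk1 : 1 ≤ gY d k := by unfold gY; omega
  have hk2 : gY d k ≤ gm d := by unfold gY gm; omega
  have h1 := (hrc k (by omega)).1
  have h2 := h.rp1 hk1 hk2 hi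
  have h3 := h.rppos hk1 hk2 hi
  have h4 : 3 * (b : ℝ) * rp (gY d k) (K.a i) ≤ (b : ℝ) ^ 16 * rp (gY d k) (K.a i) := by
    apply mul_le_mul_of_nonneg_right _ h3.le
    calc 3 * (b : ℝ) ≤ (2 : ℝ) ^ 15 * b := by linarith
      _ ≤ (b : ℝ) ^ 15 * b :=
        mul_le_mul_of_nonneg_right (pow_le_pow_left₀ (by norm_num) hb 15) hb0.le
      _ = _ := by ring
  have h5 : (CFG.mass (PS K b M D) (fun p => K.ht p (ta K b f u))
      (fun p => K.ht p (tb K b f u')) (K.a i) (rm (gY d (k + 3)) (K.a i1)) : ℝ) ≤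
      ((bal K (PS K b M D) (ta K b f u) (tb K b f u') (K.a i)
        ((b : ℝ) ^ 16 * rp (gY d k) (K.a i))).card : ℝ) := by
    exact_mod_cast (mass_le_bal K _ _ _ _ _).trans
      (bal_mono K _ _ _ _ (h1.trans (h2.trans h4)))
  have h6 := h.s4.r2' (gY d k) hk1 hk2 i (h.memX hi)
  set W := (CFG.mass (PS K b M D) (fun p => K.ht p (ta K b f u))
      (fun p => K.ht p (tb K b f u')) (K.a i) (rm (gY d (k + 3)) (K.a i1)) : ℝ) with hW
  set BL := ((bal K (PS K b M D) (ta K b f u) (tb K b f u') (K.a i)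
        ((b : ℝ) ^ 16 * rp (gY d k) (K.a i))).card : ℝ) with hBL
  have hn : (0 : ℝ) ≤ Fintype.card ι := Nat.cast_nonneg _
  rw [div_mul_eq_mul_div, le_div_iff₀ (by positivity)]
  have e1 : ((b : ℝ) ^ (8 * R)) ^ (2 * k) * (b : ℝ) ^ (4 * (R * gY d 3)) =
      (b : ℝ) ^ (4 * (R * gY d k)) * (b : ℝ) ^ (48 * R) := by
    rw [← pow_mul, ← pow_add, ← pow_add]
    congr 1
    unfold gY
    ring
  have e2 : ρ ^ 2 * (b : ℝ) ^ (48 * R) ≤ ((b : ℝ) ^ (8 * R)) ^ 12 := by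
    have h7 : ρ ^ 2 ≤ (b : ℝ) ^ R := by
      refine le_trans ?_ hl1
      apply le_mul_of_one_le_left (by positivity)
      exact one_le_pow₀ (by linarith [h.Abig])
    calc ρ ^ 2 * (b : ℝ) ^ (48 * R) ≤ (b : ℝ) ^ R * (b : ℝ) ^ (48 * R) :=
          mul_le_mul_of_nonneg_right h7 (by positivity)
      _ = (b : ℝ) ^ (49 * R) := by rw [← pow_add]; congr 1; ring
      _ ≤ (b : ℝ) ^ (8 * R * 12) := pow_le_pow_right₀ hb1 (by omega)
      _ = _ := by rw [pow_mul]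
  calc W * ((b : ℝ) ^ (8 * R)) ^ (2 * k) * (b : ℝ) ^ (4 * (R * gY d 3))
      = W * ((b : ℝ) ^ (4 * (R * gY d k)) * (b : ℝ) ^ (48 * R)) := by rw [← e1]; ring
    _ ≤ BL * ((b : ℝ) ^ (4 * (R * gY d k)) * (b : ℝ) ^ (48 * R)) :=
        mul_le_mul_of_nonneg_right h5 (by positivity)
    _ = ((b : ℝ) ^ (4 * (R * gY d k)) * BL) * (b : ℝ) ^ (48 * R) := by ring
    _ ≤ (ρ ^ 2 * Fintype.card ι) * (b : ℝ) ^ (48 * R) :=
        mul_le_mul_of_nonneg_right h6 (by positivity)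
    _ = Fintype.card ι * (ρ ^ 2 * (b : ℝ) ^ (48 * R)) := by ring
    _ ≤ _ := mul_le_mul_of_nonneg_left e2 hn

/-- Lower bound for the masses. -/
theorem mass_lo' (h : PF K b M (gm d) R F ec D D' ρ A L E E4 X4 E5 U c f u u' rm rp)
    (hAρ : A ^ 10 ≤ ρ) {i i1 : ℕ} (hi : i ∈ E5) (hi1 : i1 ∈ E5) (hrc : RC K d rm i1 i) :
    Fintype.card ι / (b : ℝ) ^ (4 * (R * gY d 3)) ≤ ((b : ℝ) ^ (8 * R)) ^ (2 * d + 12) *
    (CFG.mass (PS K b M D) (fun p => K.ht p (ta K b f u)) (fun p => K.ht p (tb K b f u')) (K.a i)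
      (rm (gY d (d + 3)) (K.a i1) / 2) : ℝ) := by
  have hgI := gI_ge d
  have hb := h.b2
  have hb1 : (1 : ℝ) ≤ b := by linarith
  have hb0 : (0 : ℝ) < b := by linarith
  obtain ⟨hl1, hl2⟩ := loss h hAρ
  have hk1 : 1 ≤ gY d (d + 7) := by unfold gY; omega
  have hk2 : gY d (d + 7) ≤ gm d := by unfold gY gm; omega
  have h1 := (hrc (d + 3) (by omega)).2
  have e33 : d + 3 + 3 = d + 6 := by omega
  rw [e33] at h1
  have h2 : 4 * rm (gY d (d + 7)) (K.a i) ≤ rm (gY d (d + 6)) (K.a i) := by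
    have h3 := h.step (z := gY d (d + 6)) (by unfold gY; omega) (by unfold gY gm; omega) hi
    have h4 := h.mono (z := gY d (d + 6) + 1) (z' := gY d (d + 7)) (by omega)
      (by unfold gY; omega) hk2 hi
    linarith
  have h3 := h.rpos hk1 hk2 hi
  have h4 : rm (gY d (d + 7)) (K.a i) < rm (gY d (d + 3)) (K.a i1) / 2 := by linarith
  have h5 : ((bal K (PS K b M D) (ta K b f u) (tb K b f u') (K.a i)
        (rm (gY d (d + 7)) (K.a i))).card : ℝ) ≤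
      (CFG.mass (PS K b M D) (fun p => K.ht p (ta K b f u))
      (fun p => K.ht p (tb K b f u')) (K.a i) (rm (gY d (d + 3)) (K.a i1) / 2) : ℝ) := by
    exact_mod_cast bal_le_mass K _ _ _ _ h4
  have h6 := h.s4.r2 (gY d (d + 7)) hk1 hk2 i (h.mem4 hi)
  set W := (CFG.mass (PS K b M D) (fun p => K.ht p (ta K b f u))
      (fun p => K.ht p (tb K b f u')) (K.a i) (rm (gY d (d + 3)) (K.a i1) / 2) : ℝ) with hW
  have hD' : D' ≤ (b : ℝ) ^ R := by
    have hA := h.Abig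
    calc D' ≤ A := h.DA
      _ ≤ A ^ 10 := le_self_pow₀ (by linarith) (by norm_num)
      _ ≤ A ^ 10 * ρ ^ 2 := le_mul_of_one_le_right (by positivity) (one_le_pow₀ h.rho1)
      _ ≤ _ := hl1
  rw [div_le_iff₀ (by positivity)]
  calc (Fintype.card ι : ℝ) ≤ D' * (b : ℝ) ^ (4 * (R * gY d (d + 7))) * _ := h6
    _ ≤ (b : ℝ) ^ R * (b : ℝ) ^ (4 * (R * gY d (d + 7))) * W := by
        apply mul_le_mul (mul_le_mul_of_nonneg_right hD' (by positivity)) h5
          (Nat.cast_nonneg _) (by positivity)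
    _ ≤ (b : ℝ) ^ (8 * R * (2 * d + 12) + 4 * (R * gY d 3)) * W := by
        apply mul_le_mul_of_nonneg_right _ (Nat.cast_nonneg _)
        rw [← pow_add]
        apply pow_le_pow_right₀ hb1
        unfold gY
        nlinarith
    _ = _ := by rw [pow_add, pow_mul]; ring

/-- Number of lines of the universe against the certificates. -/
theorem un_card (h : PF K b M (gm d) R F ec D D' ρ A L E E4 X4 E5 U c f u u' rm rp)
    (hAρ : A ^ 10 ≤ ρ) {i1 : ℕ} (hi1 : i1 ∈ E5) :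
    ((bal K (PS K b M D) (ta K b f u) (tb K b f u') (K.a i1)
        ((b : ℝ) ^ 16 * rp (gY d 2) (K.a i1))).card : ℝ) ≤
      Fintype.card ι / (A * (b : ℝ) ^ (2 * (R * (gY d 5 + 1)) + 2 * (R * (gY d (d + 7) + 1)))) *
        ((b : ℝ) ^ (8 * R)) ^ (d + 12) := by
  have hgI := gI_ge d
  have hb := h.b2
  have hb1 : (1 : ℝ) ≤ b := by linarith
  have hb0 : (0 : ℝ) < b := by linarith
  have hA := h.Abig
  have hA0 : 0 < A := by linarith
  obtain ⟨hl1, hl2⟩ := loss h hAρ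
  have h6 := h.s4.r2' (gY d 2) (by unfold gY; omega) (by unfold gY gm; omega) i1 (h.memX hi1)
  set BL := ((bal K (PS K b M D) (ta K b f u) (tb K b f u') (K.a i1)
        ((b : ℝ) ^ 16 * rp (gY d 2) (K.a i1))).card : ℝ) with hBL
  have hn : (0 : ℝ) ≤ Fintype.card ι := Nat.cast_nonneg _
  rw [div_mul_eq_mul_div, le_div_iff₀ (by positivity)]
  have h7 : ρ ^ 2 * A ≤ (b : ℝ) ^ R := by
    calc ρ ^ 2 * A = A * ρ ^ 2 := by ring
      _ ≤ A ^ 10 * ρ ^ 2 :=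
        mul_le_mul_of_nonneg_right (le_self_pow₀ (by linarith) (by norm_num)) (by positivity)
      _ ≤ _ := hl1
  have h8 : (b : ℝ) ^ (4 * (R * gY d 2)) *
      (BL * (A * (b : ℝ) ^ (2 * (R * (gY d 5 + 1)) + 2 * (R * (gY d (d + 7) + 1))))) ≤
      (b : ℝ) ^ (4 * (R * gY d 2)) *
        (Fintype.card ι * ((b : ℝ) ^ (8 * R)) ^ (d + 12)) := by
    calc (b : ℝ) ^ (4 * (R * gY d 2)) *
      (BL * (A * (b : ℝ) ^ (2 * (R * (gY d 5 + 1)) + 2 * (R * (gY d (d + 7) + 1)))))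
        = ((b : ℝ) ^ (4 * (R * gY d 2)) * BL) *
          (A * (b : ℝ) ^ (2 * (R * (gY d 5 + 1)) + 2 * (R * (gY d (d + 7) + 1)))) := by ring
      _ ≤ (ρ ^ 2 * Fintype.card ι) *
          (A * (b : ℝ) ^ (2 * (R * (gY d 5 + 1)) + 2 * (R * (gY d (d + 7) + 1)))) :=
          mul_le_mul_of_nonneg_right h6 (by positivity)
      _ = Fintype.card ι * ((ρ ^ 2 * A) *
          (b : ℝ) ^ (2 * (R * (gY d 5 + 1)) + 2 * (R * (gY d (d + 7) + 1)))) := by ring
      _ ≤ Fintype.card ι * ((b : ℝ) ^ R *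
          (b : ℝ) ^ (2 * (R * (gY d 5 + 1)) + 2 * (R * (gY d (d + 7) + 1)))) := by
          apply mul_le_mul_of_nonneg_left _ hn
          exact mul_le_mul_of_nonneg_right h7 (by positivity)
      _ ≤ Fintype.card ι * (b : ℝ) ^ (4 * (R * gY d 2) + 8 * R * (d + 12)) := by
          apply mul_le_mul_of_nonneg_left _ hn
          rw [← pow_add]
          apply pow_le_pow_right₀ hb1
          unfold gY
          nlinarith
      _ = _ := by rw [pow_add, pow_mul (b : ℝ) (8 * R) (d + 12)]; ring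
  exact le_of_mul_le_mul_left h8 (by positivity)

end

end Pool.Agent.Work.MP_e17eac_co.HS
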