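import Pool.Agent.Work.MP_e17eac_co.HS.G_Asm
import Pool.Agent.Work.MP_e17eac_co.Bd.B29

/-! HS, block G: the configuration. -/

namespace Pool.Agent.Work.MP_e17eac_co.HS

open Finset
open Pool.Agent.Work.MP_e17eac_co.DH
open Pool.Agent.Work.MP_e17eac_co.B1

section

variable {ι α : Type} [Fintype ι] [DecidableEq ι] [DecidableEq α] {K : KSys ι}
  {b M R F d : ℕ} {ec : ℕ → ℕ} {D D' ρ A : ℝ} {L : Lb α} {E E4 X4 E5 : Finset ℕ}
  {U : ℕ → ι → ℕ → ℕ × ℕ} {c f u u' : ℕ} {rm rp : ℕ → ι → ℝ}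

theorem val_ht (K : KSys ι) (s e t : ℝ) (hse : 0 < e - s) (p : ι) :
    CFG.val (fun p => K.ht p s) (fun p => K.ht p e) ((t - s) / (e - s)) p = K.ht p t := by
  have hne : e - s ≠ 0 := hse.ne'
  unfold CFG.val KSys.ht
  field_simp
  ring

theorem mass_le_bal (K : KSys ι) (S : Finset ι) (s e : ℝ) (p : ι) (ρ : ℝ) :
    CFG.mass S (fun p => K.ht p s) (fun p => K.ht p e) p ρ ≤ (bal K S s e p ρ).card := by
  unfold CFG.mass bal
  apply card_le_card
  intro q hq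
  rw [mem_filter] at hq ⊢
  unfold CFG.d0 at hq
  exact ⟨hq.1, ((le_max_left _ _).trans_lt hq.2).le, ((le_max_right _ _).trans_lt hq.2).le⟩

theorem bal_le_mass (K : KSys ι) (S : Finset ι) (s e : ℝ) (p : ι) {ρ ρ' : ℝ} (h : ρ < ρ') :
    (bal K S s e p ρ).card ≤ CFG.mass S (fun p => K.ht p s) (fun p => K.ht p e) p ρ' := by
  unfold CFG.mass bal
  apply card_le_card
  intro q hq
  rw [mem_filter] at hq ⊢
  unfold CFG.d0
  exact ⟨hq.1, lt_of_le_of_lt (max_le hq.2.1 hq.2.2) h⟩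

theorem bal_mono (K : KSys ι) (S : Finset ι) (s e : ℝ) (p : ι) {ρ ρ' : ℝ} (h : ρ ≤ ρ') :
    (bal K S s e p ρ).card ≤ (bal K S s e p ρ').card := by
  unfold bal
  apply card_le_card
  intro q hq
  rw [mem_filter] at hq ⊢
  exact ⟨hq.1, hq.2.1.trans h, hq.2.2.trans h⟩

/-- The edge lies in its hulls. -/
theorem in_hull (h : PF K b M (gm d) R F ec D D' ρ A L E E4 X4 E5 U c f u u' rm rp) {x : ℕ}
    (h1 : 1 ≤ x) (h2 : x ≤ gm d) {v : ℕ} (hv : v ∈ E5) :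
    g0 K b (R * x) (R * x + c) (U x) v ≤ K.t v ∧ K.t v ≤ g1 K b (R * x) (R * x + c) (U x) v := by
  have hv4 := h.mem4 hv
  have hT := h.s4.tw x h1 h2
  have hl := (h.s4.hyg hv4).lt
  have hN : 0 < K.N := h.s4.ls.npos
  have hNr : (0 : ℝ) < K.N := by exact_mod_cast hN
  have h3 := RAD.ta_le K b (R * x + c) hl
  have h4 := RAD.le_tb K b (R * x + c) hl
  have hlt := hT.lt v hv4
  have e1 : ∃ j ∈ E4, cell K b (R * x + c) j = (U x (K.a v) (cell K b (R * x) v)).1 := by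
    have h5 := hT.ql v hv4
    by_contra hcon
    push Not at hcon
    have : ((EE K b (R * x) E4 v).filter (fun i' => cell K b (R * x + c) i' =
        (U x (K.a v) (cell K b (R * x) v)).1)) = ∅ := by
      rw [filter_eq_empty_iff]
      intro j hj hj2
      exact hcon j (mem_filter.1 hj).1 hj2
    rw [this] at h5
    simp at h5
    linarith
  have e2 : ∃ j ∈ E4, cell K b (R * x + c) j = (U x (K.a v) (cell K b (R * x) v)).2 := by
    have h5 := hT.qr v hv4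
    by_contra hcon
    push Not at hcon
    have : ((EE K b (R * x) E4 v).filter (fun i' => cell K b (R * x + c) i' =
        (U x (K.a v) (cell K b (R * x) v)).2)) = ∅ := by
      rw [filter_eq_empty_iff]
      intro j hj hj2
      exact hcon j (mem_filter.1 hj).1 hj2
    rw [this] at h5
    simp at h5
    linarith
  obtain ⟨j1, hj1, hc1⟩ := e1
  obtain ⟨j2, hj2, hc2⟩ := e2
  have hl1 := (h.s4.hyg hj1).lt
  have hl2 := (h.s4.hyg hj2).lt
  have h6 := RAD.tb_lt_ta K b (R * x + c) hl1 hl2 (by rw [hc1, hc2]; exact hlt)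
  have h7 := RAD.ta_le_tb K b (R * x + c) hl1
  have h8 := RAD.ta_le_tb K b (R * x + c) hl2
  rw [hc1] at h6 h7
  rw [hc2] at h6 h8
  unfold g0 g1
  rcases hT.mem v hv4 with hc | hc
  · rw [hc] at h3 h4
    exact ⟨h3, by linarith⟩
  · rw [hc] at h3 h4
    exact ⟨by linarith, h4⟩

/-- Powers of `b ^ R`: the loss bookkeeping. -/
theorem loss (h : PF K b M (gm d) R F ec D D' ρ A L E E4 X4 E5 U c f u u' rm rp)
    (hAρ : A ^ 10 ≤ ρ) : A ^ 10 * ρ ^ 2 ≤ (b : ℝ) ^ R ∧ 1000 ≤ (b : ℝ) ^ R := by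
  have hA := h.Abig
  have h1 := h.rho1
  have h2 : A ^ 10 * ρ ^ 2 ≤ (b : ℝ) ^ R := by
    calc A ^ 10 * ρ ^ 2 ≤ ρ * ρ ^ 2 := mul_le_mul_of_nonneg_right hAρ (by positivity)
      _ = ρ ^ 3 := by ring
      _ ≤ ρ ^ 8 := pow_le_pow_right₀ h1 (by norm_num)
      _ ≤ _ := h.rR
  refine ⟨h2, le_trans ?_ h2⟩
  have h3 : (1 : ℝ) ≤ A ^ 9 := one_le_pow₀ (by linarith)
  have h4 : (1 : ℝ) ≤ ρ ^ 2 := one_le_pow₀ h1
  calc (1000 : ℝ) ≤ A * (A ^ 9 * ρ ^ 2) := by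
        have : 1 ≤ A ^ 9 * ρ ^ 2 := one_le_mul_of_one_le_of_one_le h3 h4
        nlinarith
    _ = _ := by ring

end

end Pool.Agent.Work.MP_e17eac_co.HS
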