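import Pool.Agent.Work.MP_e17eac_co.HS.GPS
import Pool.Agent.Work.MP_e17eac_co.Bd.B14

/-!
# Arbitrary sets, short chain HS, block HS-D: the level step with labels (helper40)

Bottom-up level step: good pairs, positive radii, few labels per cell; all deletions are unions of
fibres of `(a i, cell ec i)`.
-/

namespace Pool.Agent.Work.MP_e17eac_co.HS

open Finset
open Pool.Agent.Work.MP_e17eac_co.DH
open Pool.Agent.Work.MP_e17eac_co.B1
open Pool.Agent.Work.MP_e17eac_co.DH.XSWEEP (GP)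

variable {ι : Type} [Fintype ι] [DecidableEq ι]

/-- Data of one level: good pairs with quota, positive radii, at most `b ^ G` labels per cell. -/
structure LevH (K : KSys ι) (b e ec G : ℕ) (E : Finset ℕ) (kk ll : ι → ℕ → ℕ) : Prop where
  pd : ∀ n ∈ E, AS2.PD K (cell K b e) (cell K b ec) b kk ll (K.a n) (cell K b e n)
  pos : ∀ n ∈ E, 0 < AS2.dl K (cell K b ec) kk ll (K.a n) (cell K b e n)
  inn : ∀ n ∈ E, cell K b ec n = cell K b ec (kk (K.a n) (cell K b e n)) ∨
    cell K b ec n = cell K b ec (ll (K.a n) (cell K b e n))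
  quota : ∀ n ∈ E, ∀ u, (u = cell K b ec (kk (K.a n) (cell K b e n)) ∨
    u = cell K b ec (ll (K.a n) (cell K b e n))) →
    K.N ≤ b ^ G * (Fintype.card ι * b ^ ec) *
      (E.filter (fun j => K.a j = K.a n ∧ cell K b ec j = u)).card
  cnt : ∀ n ∈ E, ((E.filter (fun k => cell K b e k = cell K b e n)).image
    (fun k => AS2.lb K (cell K b ec) kk ll (K.a k) (cell K b e k))).card ≤ b ^ G

/-- **Level step** (bottom-up form). -/
def StLStep : Prop := ∃ C0 : ℕ, ∀ (η : ℝ) (A D : ℕ), 0 < η → ∃ n0 : ℕ, ∀ (ι : Type) [Fintype ι]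
  [DecidableEq ι] (K : KSys ι), Function.Injective K.x → GP K.x K.y → n0 ≤ Fintype.card ι →
  ∀ b : ℕ, (Fintype.card ι : ℝ) ^ η ≤ b → (Fintype.card ι : ℝ) ^ ((4 : ℝ) / 3) ≤ b * K.N →
  ∀ e ec : ℕ, e + C0 * (D + 1) ≤ ec → b ^ (4 * ec) ≤ K.N →
  b ^ (4 * e) * b ^ (C0 * ((ec - e) + D + 1)) ≤ Fintype.card ι →
  ∀ E ⊆ range K.N, K.N ≤ b ^ D * E.card → Light K b e A E →
  ∃ E' kk ll, Fib K b ec E' E ∧ K.N ≤ b ^ (2 * D + A + (ec - e) + C0) * E'.card ∧
    LevH K b e ec (C0 * ((ec - e) + D + 1)) E' kk ll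

/-! ### Preservation -/

theorem LevH.fib {K : KSys ι} {b e ec G : ℕ} (hb : 1 ≤ b) (hec : e ≤ ec) {E E' : Finset ℕ}
    {kk ll : ι → ℕ → ℕ} (h : LevH K b e ec G E kk ll)
    (h' : Fib K b e E' E) : LevH K b e ec G E' kk ll := by
  refine ⟨fun i hi => h.pd i (h'.1 hi), fun i hi => h.pos i (h'.1 hi),
    fun i hi => h.inn i (h'.1 hi), fun i hi u hu => ?_, fun i hi => ?_⟩
  · have h1 := h.quota i (h'.1 hi) u hu
    have hpd := h.pd i (h'.1 hi)
    have h2 : E'.filter (fun j => K.a j = K.a i ∧ cell K b ec j = u) =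
        E.filter (fun j => K.a j = K.a i ∧ cell K b ec j = u) := by
      ext j
      simp only [mem_filter]
      constructor
      · rintro ⟨h3, h4⟩
        exact ⟨h'.1 h3, h4⟩
      · rintro ⟨h3, h4, h5⟩
        refine ⟨h'.2 i hi j h3 h4 ?_, h4, h5⟩
        rcases hu with rfl | rfl
        · exact (cell_coarse K hb hec h5).trans hpd.ck
        · exact (cell_coarse K hb hec h5).trans hpd.cl
    rw [h2]
    exact h1
  · refine le_trans (card_le_card (image_subset_image ?_)) (h.cnt i (h'.1 hi))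
    intro k hk
    rw [mem_filter] at hk ⊢
    exact ⟨h'.1 hk.1, hk.2⟩

theorem LevH.mono {K : KSys ι} {b e ec G G' : ℕ} (hb : 1 ≤ b) (hG : G ≤ G') {E : Finset ℕ}
    {kk ll : ι → ℕ → ℕ} (h : LevH K b e ec G E kk ll) : LevH K b e ec G' E kk ll :=
  ⟨h.pd, h.pos, h.inn, fun i hi u hu => (h.quota i hi u hu).trans
    (Nat.mul_le_mul_right _ (Nat.mul_le_mul_right _ (Nat.pow_le_pow_right (by omega) hG))),
    fun i hi => (h.cnt i hi).trans (Nat.pow_le_pow_right (by omega) hG)⟩

/-! ### Popular dyadic class of the fibre sizes -/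

/-- A popular dyadic class of the sizes of the fibres of `g` on `F` (with `L` classes). -/
theorem dyadic {α : Type} [DecidableEq α] (F : Finset ℕ) (g : ℕ → α) (L : ℕ)
    (hL : ∀ i ∈ F, Nat.log 2 (F.filter (fun j => g j = g i)).card < L) (hF : F.Nonempty) :
    ∃ v, ∃ F' ⊆ F, F' = F.filter (fun i => Nat.log 2 (F.filter (fun j => g j = g i)).card = v) ∧
      F.card ≤ L * F'.card := by
  classical
  set s : ℕ → ℕ := fun i => Nat.log 2 (F.filter (fun j => g j = g i)).card with hs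
  have hLpos : 0 < L := by
    obtain ⟨i, hi⟩ := hF
    exact lt_of_le_of_lt (Nat.zero_le _) (hL i hi)
  have h1 : F.card = ∑ v ∈ range L, (F.filter (fun i => s i = v)).card :=
    card_eq_sum_card_fiberwise (fun i hi => mem_coe.2 (mem_range.2 (hL i (mem_coe.1 hi))))
  obtain ⟨v, hv, hmax⟩ := exists_max_image (range L) (fun v => (F.filter (fun i => s i = v)).card)
    ⟨0, mem_range.2 hLpos⟩
  refine ⟨v, F.filter (fun i => s i = v), filter_subset _ _, rfl, ?_⟩
  calc F.card = ∑ v ∈ range L, (F.filter (fun i => s i = v)).card := h1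
    _ ≤ ∑ _w ∈ range L, (F.filter (fun i => s i = v)).card := sum_le_sum fun w hw => hmax w hw
    _ = L * (F.filter (fun i => s i = v)).card := by rw [sum_const, card_range, smul_eq_mul]

/-- Sets with fibre sizes in one dyadic class are regular. -/
theorem regF_of_dyadic {α : Type} [DecidableEq α] (F : Finset ℕ) (g : ℕ → α) (v : ℕ) (Q : ℝ)
    (hQ : 2 ≤ Q) (h : ∀ i ∈ F, Nat.log 2 (F.filter (fun j => g j = g i)).card = v) :
    RegF Q F g := by
  have hlow : ∀ i ∈ F, 2 ^ v ≤ (F.filter (fun j => g j = g i)).card := by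
    intro i hi
    rw [← h i hi]
    refine Nat.pow_log_le_self 2 ?_
    rw [Ne, card_eq_zero]
    exact Finset.ne_empty_of_mem (mem_filter.2 ⟨hi, rfl⟩)
  have hup : ∀ i ∈ F, (F.filter (fun j => g j = g i)).card < 2 ^ (v + 1) := by
    intro i hi
    rw [← h i hi]
    exact Nat.lt_pow_succ_log_self (by norm_num) _
  have h1 : F.card ≤ 2 ^ (v + 1) * (F.image g).card := by
    rw [card_eq_sum_card_image g F, mul_comm, ← smul_eq_mul (F.image g).card]
    refine sum_le_card_nsmul _ _ _ ?_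
    intro s hs
    obtain ⟨i, hi, rfl⟩ := mem_image.1 hs
    exact (hup i hi).le
  have h2 : 2 ^ v * (F.image g).card ≤ F.card := by
    rw [card_eq_sum_card_image g F, mul_comm, ← smul_eq_mul (F.image g).card]
    refine card_nsmul_le_sum _ _ _ ?_
    intro s hs
    obtain ⟨i, hi, rfl⟩ := mem_image.1 hs
    exact hlow i hi
  have h1' : (F.card : ℝ) ≤ 2 ^ (v + 1) * ((F.image g).card : ℝ) := by exact_mod_cast h1
  have h2' : (2 : ℝ) ^ v * ((F.image g).card : ℝ) ≤ (F.card : ℝ) := by exact_mod_cast h2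
  intro n hn
  have h3 : (2 : ℝ) ^ v ≤ ((F.filter (fun j => g j = g n)).card : ℝ) := by
    exact_mod_cast hlow n hn
  have h4 : ((F.filter (fun j => g j = g n)).card : ℝ) ≤ 2 ^ (v + 1) := by
    exact_mod_cast (hup n hn).le
  have h5 : (0 : ℝ) ≤ ((F.image g).card : ℝ) := by positivity
  unfold im
  constructor
  · calc (F.card : ℝ) ≤ 2 ^ (v + 1) * ((F.image g).card : ℝ) := h1'
      _ = 2 * (2 ^ v) * ((F.image g).card : ℝ) := by ring
      _ ≤ Q * ((F.filter (fun j => g j = g n)).card : ℝ) * ((F.image g).card : ℝ) := by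
        refine mul_le_mul_of_nonneg_right ?_ h5
        exact mul_le_mul hQ h3 (by positivity) (by linarith)
  · calc ((F.filter (fun j => g j = g n)).card : ℝ) * ((F.image g).card : ℝ) ≤
        2 ^ (v + 1) * ((F.image g).card : ℝ) := mul_le_mul_of_nonneg_right h4 h5
      _ = 2 * (2 ^ v * ((F.image g).card : ℝ)) := by ring
      _ ≤ Q * (F.card : ℝ) := mul_le_mul hQ h2' (by positivity) (by linarith)

/-- Radii are nonnegative. -/
theorem dl_nonneg (hUD : AS2.StUD) (hLH : MX.StLoHi) {K : KSys ι} {M : ℕ} {c cp : ℕ → ℕ} {Q : ℕ}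
    {kk ll : ι → ℕ → ℕ} {p : ι} {z : ℕ} (hcp : MX.IsCells K M cp)
    (h : AS2.PD K c cp Q kk ll p z) : 0 ≤ AS2.dl K cp kk ll p z := by
  obtain ⟨h1, h2, -, -, -⟩ := hLH ι K M cp hcp (kk p z) h.kN
  obtain ⟨g1, g2, g3, g4, g5, g6, g7, g8, -⟩ := hLH ι K M cp hcp (ll p z) h.lN
  have hlt : kk p z < ll p z := by
    by_contra hc
    have := hcp.mono (ll p z) (kk p z) (not_lt.1 hc) h.kN
    have := h.lt
    omega
  have hle : MX.lo cp (kk p z) ≤ MX.hi K cp (ll p z) := by omega
  obtain ⟨k1, -, k3, -⟩ := hUD ι K p _ _ hle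
  have e1 : K.h (kk p z) = K.ht p (K.t (kk p z)) := by
    unfold KSys.h
    rw [h.ak]
  have e2 := k1 (kk p z) h1 (by omega)
  have e3 := k3 (kk p z) h1 (by omega)
  unfold AS2.dl AS2.del AS2.j0 AS2.j1
  refine le_min ?_ ?_
  · linarith
  · linarith

/-- `log₂ N` is small. -/
theorem log_small (η : ℝ) (hη : 0 < η) : ∃ n0 : ℕ, ∀ n : ℕ, n0 ≤ n → ∀ N : ℕ,
    N ^ 3 ≤ 4096 * n ^ 4 → ((Nat.log 2 N + 1 : ℕ) : ℝ) ≤ (n : ℝ) ^ η := by
  -- `log n ≤ n ^ η / 100` for large `n`
  have h1 := (isLittleO_log_rpow_atTop hη).bound (show (0 : ℝ) < 1 / 100 by norm_num)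
  have h2 : Filter.Tendsto (fun n : ℕ => (n : ℝ) ^ η) Filter.atTop Filter.atTop :=
    (tendsto_rpow_atTop hη).comp tendsto_natCast_atTop_atTop
  have h3 := h2.eventually_ge_atTop (100 : ℝ)
  have h4 := (tendsto_natCast_atTop_atTop (R := ℝ)).eventually h1
  obtain ⟨n0, hn0⟩ := Filter.eventually_atTop.1 (h3.and h4)
  refine ⟨max n0 1, ?_⟩
  intro n hn N hN
  have hnn : n0 ≤ n := le_trans (le_max_left _ _) hn
  have hn1 : 1 ≤ n := le_trans (le_max_right _ _) hn
  obtain ⟨h5, h6⟩ := hn0 n hnn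
  have hnr : (1 : ℝ) ≤ n := by exact_mod_cast hn1
  have hlogn : 0 ≤ Real.log n := Real.log_nonneg hnr
  rw [Real.norm_of_nonneg hlogn, Real.norm_of_nonneg (by positivity)] at h6
  rcases Nat.eq_zero_or_pos N with h0 | h0
  · rw [h0]
    simp only [Nat.log_zero_right, zero_add, Nat.cast_one]
    linarith
  · -- `2 ^ log₂ N ≤ N ≤ 16 n ^ 2`
    have h7 : 2 ^ (Nat.log 2 N) ≤ N := Nat.pow_log_le_self 2 (by omega)
    have h8 : N ≤ 16 * n ^ 2 := by
      by_contra hc
      rw [not_le] at hc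
      have h9 : (16 * n ^ 2) ^ 3 < N ^ 3 := Nat.pow_lt_pow_left hc (by norm_num)
      have h10 : 4096 * n ^ 4 ≤ (16 * n ^ 2) ^ 3 := by
        have : n ^ 4 ≤ n ^ 6 := Nat.pow_le_pow_right hn1 (by norm_num)
        calc 4096 * n ^ 4 ≤ 4096 * n ^ 6 := Nat.mul_le_mul_left _ this
          _ = (16 * n ^ 2) ^ 3 := by ring
      omega
    have h11 : ((2 : ℝ)) ^ (Nat.log 2 N) ≤ 16 * (n : ℝ) ^ 2 := by
      exact_mod_cast h7.trans h8
    have h12 := Real.log_le_log (by positivity) h11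
    rw [Real.log_pow, Real.log_mul (by norm_num) (by positivity), Real.log_pow] at h12
    have h13 : Real.log 16 ≤ 4 * Real.log 2 := by
      rw [show (16 : ℝ) = 2 ^ 4 by norm_num, Real.log_pow]
      norm_num
    have h14 : (1 : ℝ) / 2 ≤ Real.log 2 := by
      have := Real.log_two_gt_d9
      linarith
    have h15 : (Nat.log 2 N : ℝ) * (1 / 2) ≤ (Nat.log 2 N : ℝ) * Real.log 2 :=
      mul_le_mul_of_nonneg_left h14 (by positivity)
    have h16 : Real.log 2 ≤ 1 := by
      have := Real.log_two_lt_d9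
      linarith
    push_cast at h12 ⊢
    nlinarith [h12, h13, h14, h15, h6, h5]

/-- **The level step.** -/
theorem I_LStep (hT2 : StT2c) (hMc : MX.StMc) (hLH : MX.StLoHi) (hDey : MX.StDeyV)
    (hGP : MX.StGP) (hUD : AS2.StUD) (hZero : AS2.StZero) (hAnn : AS2.StAnn)
    (hCr : AS2.StCrowd) : StLStep := by
  classical
  obtain ⟨C, hC1, hT2⟩ := hT2
  obtain ⟨C1, hGP⟩ := hGP
  obtain ⟨C2, hZero⟩ := hZero
  obtain ⟨C3, hAnn⟩ := hAnn
  obtain ⟨Q0, hCr⟩ := hCr
  obtain ⟨C0, hC0⟩ : ∃ C0 : ℕ, C0 = 20 * (C1 + C2 + C3 + 20) := ⟨_, rfl⟩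
  refine ⟨C0, ?_⟩
  intro η A D hη
  obtain ⟨n1, hn1⟩ := hGP η (D + 2) hη
  obtain ⟨n2, hn2⟩ := hZero η (D + 4) hη
  obtain ⟨n3, hn3⟩ := hAnn η (D + 2) hη
  obtain ⟨n4, hn4⟩ := log_small η hη
  -- `b` is large for large `n`
  have htend : Filter.Tendsto (fun n : ℕ => (n : ℝ) ^ η) Filter.atTop Filter.atTop :=
    (tendsto_rpow_atTop hη).comp tendsto_natCast_atTop_atTop
  obtain ⟨n5, hn5⟩ := Filter.eventually_atTop.1
    (htend.eventually_ge_atTop (max (4 * C + 32) (Q0 : ℝ)))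
  refine ⟨max (max n1 n2) (max (max n3 n4) (max n5 1)), ?_⟩
  intro ι _ _ K hx hgp hn b hb hbN e ec hec hecN hsize E hE hED hlight
  have hnn1 : n1 ≤ Fintype.card ι := le_trans ((le_max_left _ _).trans (le_max_left _ _)) hn
  have hnn2 : n2 ≤ Fintype.card ι := le_trans ((le_max_right _ _).trans (le_max_left _ _)) hn
  have hnn3 : n3 ≤ Fintype.card ι :=
    le_trans ((le_max_left _ _).trans ((le_max_left _ _).trans (le_max_right _ _))) hn
  have hnn4 : n4 ≤ Fintype.card ι :=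
    le_trans ((le_max_right _ _).trans ((le_max_left _ _).trans (le_max_right _ _))) hn
  have hnn5 : n5 ≤ Fintype.card ι :=
    le_trans ((le_max_left _ _).trans ((le_max_right _ _).trans (le_max_right _ _))) hn
  have hnn6 : 1 ≤ Fintype.card ι :=
    le_trans ((le_max_right _ _).trans ((le_max_right _ _).trans (le_max_right _ _))) hn
  have hbC' : max (4 * C + 32) (Q0 : ℝ) ≤ (b : ℝ) := (hn5 _ hnn5).trans hb
  have hbC : 4 * C + 32 ≤ (b : ℝ) := (le_max_left _ _).trans hbC'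
  have hbQ0 : Q0 ≤ b := by exact_mod_cast (le_max_right _ _).trans hbC'
  have hb32 : (32 : ℝ) ≤ b := by linarith
  have hb32' : 32 ≤ b := by exact_mod_cast hb32
  have hb1 : 1 ≤ b := by omega
  have hb0 : 0 < b := by omega
  have hbr : (0 : ℝ) < b := by linarith
  have hNpos : 0 < K.N := lt_of_lt_of_le (Nat.pow_pos hb0) hecN
  have hEpos : 0 < E.card := by
    rcases Nat.eq_zero_or_pos E.card with h | h
    · rw [h, mul_zero] at hED
      omega
    · exact h
  set n := Fintype.card ι with hn_def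
  have heec : e ≤ ec := by
    have : 0 ≤ C0 * (D + 1) := Nat.zero_le _
    omega
  -- the heavy fibres
  set T : ℕ := b ^ (D + 1) * (n * b ^ ec) with hT
  set E1 := E.filter (fun i => K.N ≤ T * (fb K b ec E i).card) with hE1
  have hE1E : E1 ⊆ E := filter_subset _ _
  have hE1N : E1 ⊆ range K.N := hE1E.trans hE
  have hfib1 : Fib K b ec E1 E := by
    refine ⟨hE1E, ?_⟩
    intro i hi j hj h1 h2
    rw [hE1, mem_filter] at hi ⊢
    refine ⟨hj, ?_⟩
    have h3 : fb K b ec E j = fb K b ec E i := by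
      unfold fb
      rw [h1, h2]
    rw [h3]
    exact hi.2
  -- few deleted edges
  have hdel : T * (E \ E1).card ≤
      K.N * ((E \ E1).image (fun i => (cell K b ec i, K.ln false i))).card := by
    refine few_light _ _ T K.N ?_
    intro i hi
    rw [mem_sdiff] at hi
    have h1 : ¬ K.N ≤ T * (fb K b ec E i).card := by
      intro h
      exact hi.2 (mem_filter.2 ⟨hi.1, h⟩)
    refine le_trans (Nat.mul_le_mul_left _ (card_le_card ?_)) (not_le.1 h1).le
    intro j hj
    rw [mem_filter, mem_sdiff] at hj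
    obtain ⟨⟨h2, -⟩, h3⟩ := hj
    rw [Prod.mk.injEq] at h3
    exact mem_filter.2 ⟨h2, h3.2, h3.1⟩
  have hT2' := ((hT2 ι K hx hgp b ec hb1).2.2.2.1 (E \ E1)
    ((sdiff_subset).trans hE) false).1
  have hdel2 : 4 * (E \ E1).card ≤ E.card := by
    have h1 : ((T * (E \ E1).card : ℕ) : ℝ) ≤ K.N * (C * n * (b : ℝ) ^ ec) := by
      calc ((T * (E \ E1).card : ℕ) : ℝ) ≤
          ((K.N * ((E \ E1).image (fun i => (cell K b ec i, K.ln false i))).card : ℕ) : ℝ) := by
            exact_mod_cast hdel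
        _ = K.N * (((E \ E1).image (fun i => (cell K b ec i, K.ln false i))).card : ℝ) := by
            push_cast
            ring
        _ ≤ K.N * (C * n * (b : ℝ) ^ ec) := mul_le_mul_of_nonneg_left hT2' (by positivity)
    have hn0 : (0 : ℝ) < n := by exact_mod_cast hnn6
    have h2 : (b : ℝ) ^ (D + 1) * ((E \ E1).card : ℝ) ≤ K.N * C := by
      have h3 : ((b : ℝ) ^ (D + 1) * ((E \ E1).card : ℝ)) * (n * (b : ℝ) ^ ec) ≤
          (K.N * C) * (n * (b : ℝ) ^ ec) := by
        rw [hT] at h1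
        push_cast at h1
        nlinarith [h1]
      exact le_of_mul_le_mul_right h3 (by positivity)
    have h4 : (K.N : ℝ) ≤ (b : ℝ) ^ D * E.card := by exact_mod_cast hED
    have h5 : (b : ℝ) ^ D * ((b : ℝ) * ((E \ E1).card : ℝ)) ≤
        (b : ℝ) ^ D * (C * (E.card : ℝ)) := by
      calc (b : ℝ) ^ D * ((b : ℝ) * ((E \ E1).card : ℝ)) =
          (b : ℝ) ^ (D + 1) * ((E \ E1).card : ℝ) := by ring
        _ ≤ K.N * C := h2
        _ ≤ ((b : ℝ) ^ D * E.card) * C := mul_le_mul_of_nonneg_right h4 (by linarith)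
        _ = (b : ℝ) ^ D * (C * (E.card : ℝ)) := by ring
    have h6 : (b : ℝ) * ((E \ E1).card : ℝ) ≤ C * (E.card : ℝ) :=
      le_of_mul_le_mul_left h5 (by positivity)
    have h7 : (4 * C) * ((E \ E1).card : ℝ) ≤ C * (E.card : ℝ) := by
      refine le_trans (mul_le_mul_of_nonneg_right (by linarith) (by positivity)) h6
    have h8 : C * (4 * ((E \ E1).card : ℝ)) ≤ C * (E.card : ℝ) := by linarith
    have h9 : 4 * ((E \ E1).card : ℝ) ≤ (E.card : ℝ) :=
      le_of_mul_le_mul_left h8 (by linarith)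
    exact_mod_cast h9
  have hE1card : 3 * E.card ≤ 4 * E1.card := by
    have h1 : (E \ E1).card + E1.card = E.card := by
      rw [card_sdiff_add_card_eq_card hE1E]
    omega
  have hE1ne : E1.Nonempty := card_pos.1 (by omega)
  -- a popular dyadic size
  have hN3 : K.N ^ 3 ≤ 4096 * n ^ 4 := by
    have h1 := ((hDey ι K hx 0 K.N le_rfl (range K.N) (by
      intro i hi
      rw [mem_Ico]
      exact ⟨Nat.zero_le _, mem_range.1 hi⟩)).2.2.1 false)
    rw [card_range] at h1
    have h2 : (MX.vi K 0 K.N).card ≤ n := card_le_univ _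
    have h3 : ((range K.N).image (K.ln false)).card ≤ n := card_le_univ _
    calc K.N ^ 3 ≤ 4096 * (((range K.N).image (K.ln false)).card * (MX.vi K 0 K.N).card ^ 3) := h1
      _ ≤ 4096 * (n * n ^ 3) := by
        exact Nat.mul_le_mul_left _ (Nat.mul_le_mul h3 (Nat.pow_le_pow_left h2 3))
      _ = 4096 * n ^ 4 := by ring
  have hLb : Nat.log 2 K.N + 1 ≤ b := by
    have h1 := (hn4 n hnn4 K.N hN3).trans hb
    exact_mod_cast h1
  obtain ⟨v, E1r, hE1rsub, hE1rdef, hE1rcard⟩ := dyadic E1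
    (fun i => (cell K b ec i, K.a i)) (Nat.log 2 K.N + 1) (by
      intro i _
      refine Nat.lt_succ_of_le (Nat.log_mono_right ?_)
      refine (card_le_card ((filter_subset _ _).trans hE1N)).trans ?_
      rw [card_range]) hE1ne
  have hE1rN : E1r ⊆ range K.N := hE1rsub.trans hE1N
  have hE1r4 : E1.card ≤ b * E1r.card := hE1rcard.trans (Nat.mul_le_mul_right _ hLb)
  have hfib1r : Fib K b ec E1r E1 := by
    refine ⟨hE1rsub, ?_⟩
    intro i hi j hj h1 h2
    rw [hE1rdef, mem_filter] at hi ⊢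
    refine ⟨hj, ?_⟩
    rw [← hi.2]
    simp only [h1, h2]
  have hfibr : Fib K b ec E1r E := hfib1.trans hfib1r
  have hreg : ∀ Q : ℝ, 2 ≤ Q → RegF Q E1r (fun i => (cell K b ec i, K.a i)) := by
    intro Q hQ
    refine regF_of_dyadic E1r _ v Q hQ ?_
    intro i hi
    have h1 : E1r.filter (fun j => (cell K b ec j, K.a j) = (cell K b ec i, K.a i)) =
        E1.filter (fun j => (cell K b ec j, K.a j) = (cell K b ec i, K.a i)) := by
      ext j
      simp only [mem_filter]
      constructor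
      · rintro ⟨h2, h3⟩
        exact ⟨hE1rsub h2, h3⟩
      · rintro ⟨h2, h3⟩
        rw [Prod.mk.injEq] at h3
        exact ⟨hfib1r.2 i hi j h2 h3.2 h3.1, Prod.ext h3.1 h3.2⟩
    show Nat.log 2 (E1r.filter (fun j => (cell K b ec j, K.a j) = (cell K b ec i, K.a i))).card = v
    rw [h1]
    rw [hE1rdef, mem_filter] at hi
    exact hi.2
  have hE1rpos : 0 < E1r.card := by
    rcases Nat.eq_zero_or_pos E1r.card with h | h
    · rw [h, mul_zero] at hE1r4
      have := card_pos.2 hE1ne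
      omega
    · exact h
  -- density of `E1r`
  have hEr : E.card ≤ 2 * (b * E1r.card) := by omega
  have hED1 : K.N ≤ b ^ (D + 2) * E1r.card := by
    calc K.N ≤ b ^ D * E.card := hED
      _ ≤ b ^ D * (2 * (b * E1r.card)) := Nat.mul_le_mul_left _ hEr
      _ ≤ b ^ D * (b * (b * E1r.card)) :=
        Nat.mul_le_mul_left _ (Nat.mul_le_mul_right _ (by omega))
      _ = b ^ (D + 2) * E1r.card := by ring
  have hmul : b ^ (4 * e) * b ^ (4 * (ec - e)) = b ^ (4 * ec) := by
    rw [← pow_add]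
    congr 1
    omega
  have hcells : MX.IsCells K (b ^ (4 * e)) (cell K b e) :=
    (hMc ι K (b ^ (4 * e)) (Nat.pow_pos hb0)).1
  have hcells' : MX.IsCells K (b ^ (4 * ec)) (cell K b ec) :=
    (hMc ι K (b ^ (4 * ec)) (Nat.pow_pos hb0)).1
  have hmce : MX.mc K (b ^ (4 * e)) = cell K b e := rfl
  have hmcec : MX.mc K (b ^ (4 * e) * b ^ (4 * (ec - e))) = cell K b ec := by
    rw [hmul]
    rfl
  have hCD : C0 * (D + 1) ≤ ec - e := by omega
  set E2 := E1r.filter (fun i => MX.HasGood K (cell K b e) (cell K b ec) b E1r i) with hE2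
  have hgood : b * (E1r \ E2).card ≤ E1r.card := by
    have hg : b ^ (C1 * (D + 2 + 1)) ≤ b ^ (4 * (ec - e)) := by
      refine Nat.pow_le_pow_right hb0 ?_
      have h2 : C1 * (D + 2 + 1) ≤ C0 * (D + 1) := by
        have h3 : C1 * (D + 2 + 1) ≤ C1 * (3 * (D + 1)) := Nat.mul_le_mul_left _ (by omega)
        have h4 : 3 * C1 ≤ C0 := by omega
        calc C1 * (D + 2 + 1) ≤ C1 * (3 * (D + 1)) := h3
          _ = (3 * C1) * (D + 1) := by ring
          _ ≤ C0 * (D + 1) := Nat.mul_le_mul_right _ h4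
      omega
    refine hn1 ι K hx hgp hnn1 b hb hbN (b ^ (4 * e)) (b ^ (4 * (ec - e)))
      (Nat.one_le_pow _ _ hb0) hg (by rw [hmul]; exact hecN) (cell K b e) (cell K b ec)
      hcells (by rw [hmul]; exact hcells') (fun i j _ _ h => cell_coarse K hb1 heec h) E1r hE1rN
      hED1 (E1r \ E2) sdiff_subset ?_
    intro i hi h
    rw [mem_sdiff] at hi
    exact hi.2 (mem_filter.2 ⟨hi.1, h⟩)
  have hE2E1 : E2 ⊆ E1r := filter_subset _ _
  -- choice of the pairs
  have hchoice : ∀ p : ι, ∀ c : ℕ, ∃ w : ℕ × ℕ, (∃ i ∈ E2, K.a i = p ∧ cell K b e i = c) →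
      w.1 ∈ E1r ∧ w.2 ∈ E1r ∧ K.a w.1 = p ∧ cell K b e w.1 = c ∧
        MX.GoodP K (cell K b e) (cell K b ec) b w.1 w.2 := by
    intro p c
    by_cases h : ∃ i ∈ E2, K.a i = p ∧ cell K b e i = c
    · obtain ⟨i, hi, h1, h2⟩ := h
      rw [hE2, mem_filter] at hi
      obtain ⟨-, k, hk, l, hl, h3, h4, h5⟩ := hi
      exact ⟨(k, l), fun _ => ⟨hk, hl, h3.trans h1, h4.trans h2, h5⟩⟩
    · exact ⟨(0, 0), fun h' => absurd h' h⟩
  choose U hU using hchoice
  set kk : ι → ℕ → ℕ := fun p c => (U p c).1 with hkk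
  set ll : ι → ℕ → ℕ := fun p c => (U p c).2 with hll
  have hPD : ∀ p c, (∃ i ∈ E2, K.a i = p ∧ cell K b e i = c) →
      AS2.PD K (cell K b e) (cell K b ec) b kk ll p c := by
    intro p c h
    obtain ⟨h1, h2, h3, h4, h5, h6, h7, h8⟩ := hU p c h
    exact ⟨mem_range.1 (hE1rN h1), mem_range.1 (hE1rN h2), h3, h5 ▸ h3, h4, h6 ▸ h4, h7, h8⟩
  have hin : ∀ n ∈ E2, ∃ i ∈ E2, K.a i = K.a n ∧ cell K b e i = cell K b e n :=
    fun n hn => ⟨n, hn, rfl, rfl⟩
  -- zero radii
  set F0 := E2.filter (fun i => AS2.dl K (cell K b ec) kk ll (K.a i) (cell K b e i) = 0) with hF0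
  have hC3e : b ^ (4 * e) * b ^ (C3 * (4 * (ec - e) + (D + 2) + 1)) ≤ Fintype.card ι ∧
      b ^ (4 * e) * b ^ (C2 * (4 * (ec - e) + (D + 4) + 1)) ≤ Fintype.card ι := by
    have key : ∀ c d : ℕ, c ≤ C1 + C2 + C3 + 20 → d ≤ 4 →
        c * (4 * (ec - e) + (D + d) + 1) ≤ C0 * ((ec - e) + D + 1) := by
      intro c d hc hd
      calc c * (4 * (ec - e) + (D + d) + 1) ≤ (C1 + C2 + C3 + 20) * (5 * ((ec - e) + D + 1)) :=
            Nat.mul_le_mul hc (by omega)
        _ = (5 * (C1 + C2 + C3 + 20)) * ((ec - e) + D + 1) := by ring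
        _ ≤ C0 * ((ec - e) + D + 1) := Nat.mul_le_mul_right _ (by omega)
    constructor
    · refine le_trans (Nat.mul_le_mul_left _ (Nat.pow_le_pow_right hb0
        (key C3 2 (by omega) (by omega)))) hsize
    · refine le_trans (Nat.mul_le_mul_left _ (Nat.pow_le_pow_right hb0
        (key C2 4 (by omega) (by omega)))) hsize
  have hzero : b ^ (D + 4) * F0.card ≤ K.N := by
    refine hn2 ι K hx hgp hnn2 b hb hbN (b ^ (4 * e)) (4 * (ec - e)) (Nat.one_le_pow _ _ hb0)
      hC3e.2 F0 ((filter_subset _ _).trans (hE2E1.trans hE1rN)) kk ll ?_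
    intro i hi
    rw [hF0, mem_filter] at hi
    rw [hmcec, hmce]
    refine ⟨hPD _ _ (hin i hi.1), ?_⟩
    unfold AS2.dln
    rw [hmcec, hmce]
    exact hi.2
  -- few labels
  set E2p := E2.filter (fun i => 0 < AS2.dl K (cell K b ec) kk ll (K.a i) (cell K b e i)) with hE2p
  set lbf : ℕ → (ℕ × ℕ × ℕ × Bool) × ℤ :=
    fun i => AS2.lb K (cell K b ec) kk ll (K.a i) (cell K b e i) with hlbf
  set QG : ℝ := (b : ℝ) ^ (C3 * (4 * (ec - e) + (D + 2) + 1)) *
    ((b ^ (4 * e) : ℕ) : ℝ) ^ ((3 : ℝ) / 4) with hQG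
  have hB34 : ((b ^ (4 * e) : ℕ) : ℝ) ^ ((3 : ℝ) / 4) = (b : ℝ) ^ (3 * e) := by
    push_cast
    rw [← Real.rpow_natCast (b : ℝ) (4 * e), ← Real.rpow_mul hbr.le,
      ← Real.rpow_natCast (b : ℝ) (3 * e)]
    congr 1
    push_cast
    ring
  set F1 := E2p.filter (fun i => QG *
    (((E2p.filter (fun k => lbf k = lbf i)).image K.a).card : ℝ) ≤ n) with hF1
  have hann : b * F1.card ≤ E1r.card := by
    refine hn3 ι K hx hgp hnn3 b hb hbN (b ^ (4 * e)) (4 * (ec - e)) (Nat.one_le_pow _ _ hb0)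
      hC3e.1 E1r hE1rN hED1 ?_ kk ll F1 ((filter_subset _ _).trans ((filter_subset _ _).trans
      hE2E1)) ?_ ?_
    · rw [hmcec]
      exact hreg b (by linarith)
    · intro i hi
      rw [hF1, mem_filter, hE2p, mem_filter] at hi
      rw [hmcec, hmce]
      obtain ⟨h1, h2, -⟩ := hU _ _ (hin i hi.1.1)
      refine ⟨hPD _ _ (hin i hi.1.1), h1, h2, ?_⟩
      unfold AS2.dln
      rw [hmcec, hmce]
      exact hi.1.2
    · intro i hi
      have h1 := (mem_filter.1 hi).2
      refine le_trans ?_ h1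
      rw [hQG]
      refine mul_le_mul_of_nonneg_left ?_ (by positivity)
      have h2 : AS2.lbn K (b ^ (4 * e)) (4 * (ec - e)) b kk ll = lbf := by
        funext k
        unfold AS2.lbn
        rw [hmcec, hmce]
      rw [h2]
      exact_mod_cast card_le_card (image_subset_image (filter_subset_filter _ (filter_subset _ _)))
  -- crowded cells
  set F2 := (range K.N).filter (fun i => (b : ℝ) ^ (D + 4) * n <
    ((MX.vf K (cell K b e) (cell K b e i)).card : ℝ) *
      ((b ^ (4 * e) : ℕ) : ℝ) ^ ((3 : ℝ) / 4)) with hF2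
  have hcr : b ^ (D + 4) * F2.card ≤ K.N := by
    have h1 := hCr ι K hx hgp b (D + 4) (b ^ (4 * e)) hbQ0 (by omega) (Nat.one_le_pow _ _ hb0)
      (le_trans (Nat.pow_le_pow_right hb0 (by omega)) hecN) (cell K b e) hcells
    convert h1 using 2
  -- what remains
  set E3 := (E2p \ F1) \ F2 with hE3
  have hE3card : E1r.card ≤ 2 * E3.card := by
    have h1 : E1r ⊆ E3 ∪ ((E1r \ E2) ∪ (F0 ∪ (F1 ∪ F2))) := by
      intro i hi
      by_cases h2 : i ∈ E2
      · by_cases h3 : i ∈ F0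
        · simp only [mem_union]
          tauto
        · have h4 : i ∈ E2p := by
            rw [hE2p, mem_filter]
            refine ⟨h2, lt_of_le_of_ne (dl_nonneg hUD hLH hcells' (hPD _ _ (hin i h2))) ?_⟩
            intro h5
            exact h3 (mem_filter.2 ⟨h2, h5.symm⟩)
          by_cases h5 : i ∈ F1
          · simp only [mem_union]
            tauto
          · by_cases h6 : i ∈ F2
            · simp only [mem_union]
              tauto
            · simp only [mem_union]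
              left
              exact mem_sdiff.2 ⟨mem_sdiff.2 ⟨h4, h5⟩, h6⟩
      · simp only [mem_union]
        right
        left
        exact mem_sdiff.2 ⟨hi, h2⟩
    have h2 := (card_le_card h1).trans (card_union_le _ _)
    have h3 := card_union_le (E1r \ E2) (F0 ∪ (F1 ∪ F2))
    have h4 := card_union_le F0 (F1 ∪ F2)
    have h5 := card_union_le F1 F2
    have h6 : 32 * (E1r \ E2).card ≤ E1r.card := (Nat.mul_le_mul_right _ hb32').trans hgood
    have h7 : 32 * F1.card ≤ E1r.card := (Nat.mul_le_mul_right _ hb32').trans hann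
    have h8 : ∀ F : Finset ℕ, b ^ (D + 4) * F.card ≤ K.N → 32 * F.card ≤ E1r.card := by
      intro F hF
      have h9 : b ^ (D + 2) * (b ^ 2 * F.card) ≤ b ^ (D + 2) * E1r.card := by
        calc b ^ (D + 2) * (b ^ 2 * F.card) = b ^ (D + 4) * F.card := by ring
          _ ≤ K.N := hF
          _ ≤ b ^ (D + 2) * E1r.card := hED1
      have h10 := Nat.le_of_mul_le_mul_left h9 (Nat.pow_pos hb0)
      refine le_trans (Nat.mul_le_mul_right _ ?_) h10
      calc 32 ≤ b := hb32'
        _ = b ^ 1 := (pow_one b).symm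
        _ ≤ b ^ 2 := Nat.pow_le_pow_right hb0 (by norm_num)
    have h9 := h8 F0 hzero
    have h10 := h8 F2 hcr
    omega
  have hE3E2p : E3 ⊆ E2p := (sdiff_subset).trans sdiff_subset
  have hE3E2 : E3 ⊆ E2 := hE3E2p.trans (filter_subset _ _)
  set E' := E1r.filter (fun i => (∃ i' ∈ E3, K.a i' = K.a i ∧ cell K b e i' = cell K b e i) ∧
    (cell K b ec i = cell K b ec (kk (K.a i) (cell K b e i)) ∨
      cell K b ec i = cell K b ec (ll (K.a i) (cell K b e i)))) with hE'
  have hE'1 : E' ⊆ E1r := filter_subset _ _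
  have hfibE' : Fib K b ec E' E := by
    refine hfibr.trans ⟨hE'1, ?_⟩
    intro i hi j hj h1 h2
    rw [hE', mem_filter] at hi ⊢
    have h3 : cell K b e j = cell K b e i := cell_coarse K hb1 heec h2
    refine ⟨hj, ?_⟩
    rw [h1, h3, h2]
    exact hi.2
  -- the fibres of the chosen children
  have hkey : ∀ p : ι, ∀ c : ℕ, (∃ i ∈ E3, K.a i = p ∧ cell K b e i = c) →
      ∀ u, (u = cell K b ec (kk p c) ∨ u = cell K b ec (ll p c)) →
      K.N ≤ T * (E'.filter (fun j => K.a j = p ∧ cell K b ec j = u)).card ∧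
      ∀ j ∈ E'.filter (fun j => K.a j = p ∧ cell K b ec j = u), cell K b e j = c := by
    intro p c hpc u hu
    have hpc2 : ∃ i ∈ E2, K.a i = p ∧ cell K b e i = c := by
      obtain ⟨i, hi, h⟩ := hpc
      exact ⟨i, hE3E2 hi, h⟩
    obtain ⟨g1, g2, g3, g4, g5, g6, g7, g8⟩ := hU p c hpc2
    have hrep : ∃ m ∈ E1r, K.a m = p ∧ cell K b e m = c ∧ cell K b ec m = u := by
      rcases hu with rfl | rfl
      · exact ⟨kk p c, g1, g3, g4, rfl⟩
      · exact ⟨ll p c, g2, g5 ▸ g3, g6 ▸ g4, rfl⟩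
    obtain ⟨m, hm, m1, m2, m3⟩ := hrep
    have hmE' : m ∈ E' := by
      rw [hE', mem_filter]
      refine ⟨hm, ?_, ?_⟩
      · rw [m1, m2]
        exact hpc
      · rw [m1, m2, m3]
        exact hu
    have hfe : E'.filter (fun j => K.a j = p ∧ cell K b ec j = u) = fb K b ec E m := by
      rw [← hfibE'.fb_eq hmE']
      unfold fb
      rw [m1, m3]
    constructor
    · rw [hfe]
      exact (mem_filter.1 (hE1rsub hm)).2
    · intro j hj
      rw [mem_filter] at hj
      rw [← m2]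
      exact cell_coarse K hb1 heec (hj.2.2.trans m3.symm)
  have hP : ∀ i ∈ E', ∃ i' ∈ E3, K.a i' = K.a i ∧ cell K b e i' = cell K b e i := fun i hi =>
    ((mem_filter.1 hi).2).1
  refine ⟨E', kk, ll, hfibE', ?_, ?_, ?_, ?_, ?_, ?_⟩
  · -- size
    set S := E3.image (fun i => (K.a i, cell K b e i)) with hS
    have h1 : (n * b ^ e) * E3.card ≤ (b ^ A * K.N) * S.card := by
      refine few_light E3 (fun i => (K.a i, cell K b e i)) (n * b ^ e) (b ^ A * K.N) ?_
      intro i hi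
      refine le_trans ?_ (hlight i (hE1E (hE1rsub (hE2E1 (hE3E2 hi)))))
      rw [mul_comm (n * b ^ e)]
      refine Nat.mul_le_mul_right _ (card_le_card ?_)
      intro j hj
      rw [mem_filter, Prod.mk.injEq] at hj
      exact mem_filter.2 ⟨hE1rN (hE2E1 (hE3E2 hj.1)), hj.2.1, hj.2.2⟩
    have h2 : K.N * S.card ≤ T * E'.card := by
      refine many_heavy S E' (fun i => (K.a i, cell K b e i)) T K.N ?_
      rintro ⟨p, c⟩ hs
      obtain ⟨i, hi, hi'⟩ := mem_image.1 hs
      rw [Prod.mk.injEq] at hi'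
      obtain ⟨h3, h4⟩ := hkey p c ⟨i, hi, hi'.1, hi'.2⟩ (cell K b ec (kk p c)) (Or.inl rfl)
      refine h3.trans (Nat.mul_le_mul_left _ (card_le_card ?_))
      intro j hj
      have h5 := h4 j hj
      rw [mem_filter] at hj ⊢
      exact ⟨hj.1, by rw [hj.2.1, h5]⟩
    -- combine
    have h3 : (n * b ^ e) * (K.N * E3.card) ≤
        (n * b ^ e) * (b ^ (A + D + 1 + (ec - e)) * (K.N * E'.card)) := by
      have h4 : b ^ ec = b ^ e * b ^ (ec - e) := by
        rw [← pow_add]
        congr 1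
        omega
      calc (n * b ^ e) * (K.N * E3.card) = K.N * ((n * b ^ e) * E3.card) := by ring
        _ ≤ K.N * ((b ^ A * K.N) * S.card) := Nat.mul_le_mul_left _ h1
        _ = (b ^ A * K.N) * (K.N * S.card) := by ring
        _ ≤ (b ^ A * K.N) * (T * E'.card) := Nat.mul_le_mul_left _ h2
        _ = (n * b ^ e) * (b ^ (A + D + 1 + (ec - e)) * (K.N * E'.card)) := by
          rw [hT, h4]
          ring
    have h5 : K.N * E3.card ≤ b ^ (A + D + 1 + (ec - e)) * (K.N * E'.card) :=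
      Nat.le_of_mul_le_mul_left h3 (Nat.mul_pos (by omega) (Nat.pow_pos hb0))
    have h6 : K.N * E3.card ≤ K.N * (b ^ (A + D + 1 + (ec - e)) * E'.card) := by
      calc K.N * E3.card ≤ b ^ (A + D + 1 + (ec - e)) * (K.N * E'.card) := h5
        _ = K.N * (b ^ (A + D + 1 + (ec - e)) * E'.card) := by ring
    have h7 : E3.card ≤ b ^ (A + D + 1 + (ec - e)) * E'.card :=
      Nat.le_of_mul_le_mul_left h6 hNpos
    calc K.N ≤ b ^ (D + 2) * E1r.card := hED1
      _ ≤ b ^ (D + 2) * (b * E3.card) := by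
        refine Nat.mul_le_mul_left _ (hE3card.trans (Nat.mul_le_mul_right _ (by omega)))
      _ ≤ b ^ (D + 2) * (b * (b ^ (A + D + 1 + (ec - e)) * E'.card)) :=
        Nat.mul_le_mul_left _ (Nat.mul_le_mul_left _ h7)
      _ = b ^ (2 * D + A + (ec - e) + 4) * E'.card := by ring
      _ ≤ b ^ (2 * D + A + (ec - e) + C0) * E'.card :=
        Nat.mul_le_mul_right _ (Nat.pow_le_pow_right hb0 (by omega))
  · intro i hi
    obtain ⟨i', hi', h1, h2⟩ := hP i hi
    exact hPD _ _ ⟨i', hE3E2 hi', h1, h2⟩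
  · intro i hi
    obtain ⟨i', hi', h1, h2⟩ := hP i hi
    have h3 := (mem_filter.1 (hE3E2p hi')).2
    rw [h1, h2] at h3
    exact h3
  · intro i hi
    exact ((mem_filter.1 hi).2).2
  · intro i hi u hu
    have h1 := (hkey (K.a i) (cell K b e i) (hP i hi) u hu).1
    refine h1.trans (Nat.mul_le_mul_right _ ?_)
    rw [hT]
    refine Nat.mul_le_mul_right _ (Nat.pow_le_pow_right hb0 ?_)
    have h2 : 1 ≤ C0 := by omega
    have h3 : 1 * ((ec - e) + D + 1) ≤ C0 * ((ec - e) + D + 1) := Nat.mul_le_mul_right _ h2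
    omega
  · -- number of labels
    intro i hi
    obtain ⟨i', hi', hi1, hi2⟩ := hP i hi
    set c := cell K b e i with hc
    set Lc := (E'.filter (fun k => cell K b e k = c)).image lbf with hLc
    -- every label comes from an edge of `E3`
    have hL3 : ∀ w ∈ Lc, ∃ k ∈ E3, lbf k = w ∧ cell K b e k = c := by
      intro w hw
      obtain ⟨k, hk, rfl⟩ := mem_image.1 hw
      rw [mem_filter] at hk
      obtain ⟨k', hk', h1, h2⟩ := hP k hk.1
      refine ⟨k', hk', ?_, h2.trans hk.2⟩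
      rw [hlbf]
      simp only [h1, h2]
    -- the lines of a label
    have hbig : ∀ w ∈ Lc, (n : ℝ) ≤ QG *
        (((E2p.filter (fun k => lbf k = w)).image K.a).card : ℝ) := by
      intro w hw
      obtain ⟨k, hk, rfl, -⟩ := hL3 w hw
      have h1 : k ∉ F1 := (mem_sdiff.1 (mem_sdiff.1 hk).1).2
      by_contra h2
      exact h1 (mem_filter.2 ⟨hE3E2p hk, (not_le.1 h2).le⟩)
    -- the label determines the cell
    have hlbc : ∀ k, (lbf k).1.1 = cell K b e k := fun k => rfl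
    have hsum : ∑ w ∈ Lc, ((E2p.filter (fun k => lbf k = w)).image K.a).card ≤
        (MX.vf K (cell K b e) c).card := by
      rw [← card_biUnion]
      · refine card_le_card ?_
        intro p hp
        obtain ⟨w, hw, hp⟩ := mem_biUnion.1 hp
        obtain ⟨k, hk, rfl⟩ := mem_image.1 hp
        rw [mem_filter] at hk
        obtain ⟨k', -, h1, h2⟩ := hL3 w hw
        have h3 : cell K b e k = c := by
          rw [← hlbc k, hk.2, ← h1, hlbc k', h2]
        unfold MX.vf KSys.lines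
        exact mem_union_left _ (mem_image_of_mem _ (mem_filter.2
          ⟨hE1rN (hE2E1 ((filter_subset _ _) hk.1)), h3⟩))
      · intro w hw w' hw' hne
        rw [Function.onFun, disjoint_left]
        intro p hp hp'
        obtain ⟨k, hk, h1⟩ := mem_image.1 hp
        obtain ⟨k', hk', h1'⟩ := mem_image.1 hp'
        rw [mem_filter] at hk hk'
        obtain ⟨m, -, h2, h3⟩ := hL3 w (mem_coe.1 hw)
        obtain ⟨m', -, h2', h3'⟩ := hL3 w' (mem_coe.1 hw')
        have e1 : cell K b e k = c := by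
          rw [← hlbc k, hk.2, ← h2, hlbc m, h3]
        have e2 : cell K b e k' = c := by
          rw [← hlbc k', hk'.2, ← h2', hlbc m', h3']
        apply hne
        rw [← hk.2, ← hk'.2, hlbf]
        simp only [h1, h1', e1, e2]
    -- the cell is not crowded
    have hncr : ((MX.vf K (cell K b e) c).card : ℝ) * (b : ℝ) ^ (3 * e) ≤
        (b : ℝ) ^ (D + 4) * n := by
      have h1 : i' ∉ F2 := (mem_sdiff.1 hi').2
      by_contra h2
      rw [not_le] at h2
      refine h1 (mem_filter.2 ⟨hE1rN (hE2E1 (hE3E2 hi')), ?_⟩)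
      rw [hB34, hi2]
      exact h2
    have hn0 : (0 : ℝ) < n := by exact_mod_cast hnn6
    have h1 : (Lc.card : ℝ) * n ≤ QG * ((MX.vf K (cell K b e) c).card : ℝ) := by
      calc (Lc.card : ℝ) * n = ∑ w ∈ Lc, (n : ℝ) := by rw [sum_const, nsmul_eq_mul]
        _ ≤ ∑ w ∈ Lc, QG * (((E2p.filter (fun k => lbf k = w)).image K.a).card : ℝ) :=
          sum_le_sum hbig
        _ = QG * ∑ w ∈ Lc, (((E2p.filter (fun k => lbf k = w)).image K.a).card : ℝ) := by
          rw [mul_sum]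
        _ ≤ QG * ((MX.vf K (cell K b e) c).card : ℝ) := by
          refine mul_le_mul_of_nonneg_left ?_ (by positivity)
          exact_mod_cast hsum
    have h2 : (Lc.card : ℝ) * n ≤ (b : ℝ) ^ (C3 * (4 * (ec - e) + (D + 2) + 1) + (D + 4)) * n := by
      calc (Lc.card : ℝ) * n ≤ QG * ((MX.vf K (cell K b e) c).card : ℝ) := h1
        _ = (b : ℝ) ^ (C3 * (4 * (ec - e) + (D + 2) + 1)) *
            (((MX.vf K (cell K b e) c).card : ℝ) * (b : ℝ) ^ (3 * e)) := by
          rw [hQG, hB34]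
          ring
        _ ≤ (b : ℝ) ^ (C3 * (4 * (ec - e) + (D + 2) + 1)) * ((b : ℝ) ^ (D + 4) * n) :=
          mul_le_mul_of_nonneg_left hncr (by positivity)
        _ = (b : ℝ) ^ (C3 * (4 * (ec - e) + (D + 2) + 1) + (D + 4)) * n := by
          rw [pow_add]
          ring
    have h3 : (Lc.card : ℝ) ≤ (b : ℝ) ^ (C3 * (4 * (ec - e) + (D + 2) + 1) + (D + 4)) :=
      le_of_mul_le_mul_right h2 hn0
    have h4 : Lc.card ≤ b ^ (C3 * (4 * (ec - e) + (D + 2) + 1) + (D + 4)) := by exact_mod_cast h3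
    refine h4.trans (Nat.pow_le_pow_right hb0 ?_)
    calc C3 * (4 * (ec - e) + (D + 2) + 1) + (D + 4) ≤
        C3 * (5 * ((ec - e) + D + 1)) + 5 * ((ec - e) + D + 1) := by
          refine Nat.add_le_add (Nat.mul_le_mul_left _ ?_) (by omega)
          omega
      _ = (5 * C3 + 5) * ((ec - e) + D + 1) := by ring
      _ ≤ C0 * ((ec - e) + D + 1) := Nat.mul_le_mul_right _ (by omega)

end Pool.Agent.Work.MP_e17eac_co.HS
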