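import Pool.Agent.Work.MP_e17eac_co.HS.PM

/-!
# Arbitrary sets, route HS (note 2872): NEST, abstract form
-/

namespace Pool.Agent.Work.MP_e17eac_co.HSB

open Finset

variable {ι γ δ : Type*} [DecidableEq ι] [DecidableEq γ] [DecidableEq δ]

/-- The edges of the line `p` whose set `R` contains at least `h0` lines with the label `w`. -/
noncomputable def Tn (E : Finset ℕ) (a : ℕ → ι) (lab : ℕ → γ) (R : γ → Finset ι)
    (Nw : δ → Finset ι) (h0 : ℝ) (z : ι × δ) : Finset ℕ :=
  E.filter (fun e => a e = z.1 ∧ h0 ≤ ((Nw z.2 ∩ R (lab e)).card : ℝ))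

/-- The pairs (line, label) with many edges. -/
noncomputable def Yn (E : Finset ℕ) (a : ℕ → ι) (lab : ℕ → γ) (R : γ → Finset ι) (lab' : ℕ → δ)
    (Nw : δ → Finset ι) (h0 τ δ0 : ℝ) : Finset (ι × δ) :=
  (E.image (fun i => (a i, lab' i))).filter (fun z =>
    δ0 ≤ ((E.filter (fun i => a i = z.1 ∧ lab' i = z.2)).card : ℝ) ∧
    τ ≤ ((Tn E a lab R Nw h0 z).card : ℝ))

/-- The pairs of `Yn` with line in `G` and label in `WW`. -/
noncomputable def Zn (E : Finset ℕ) (a : ℕ → ι) (lab : ℕ → γ) (R : γ → Finset ι) (lab' : ℕ → δ)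
    (Nw : δ → Finset ι) (h0 τ δ0 : ℝ) (G : Finset ι) (WW : Finset δ) : Finset (ι × δ) :=
  (Yn E a lab R lab' Nw h0 τ δ0).filter (fun z => z.1 ∈ G ∧ z.2 ∈ WW)

section

variable {E : Finset ℕ} {a b : ℕ → ι} {P0 : Finset ι} {lab : ℕ → γ} {Lb : Finset γ}
  {R : γ → Finset ι} {T d v A A' : ℝ} {lab' : ℕ → δ} {Lb' : Finset δ} {R' : δ → Finset ι}
  {T' d' v' B B' : ℝ}

/-- `≤ T` labels `w` with `p` in `R w`. -/
theorem ALS.lab_le (h : ALS E a b P0 lab Lb R T d v A A') {p : ι} (hp : p ∈ P0)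
    {S : Finset γ} (hS : ∀ w ∈ S, w ∈ Lb ∧ p ∈ R w) : (S.card : ℝ) ≤ T := by
  refine le_trans ?_ (h.tame p hp)
  exact_mod_cast card_le_card (fun w hw => mem_filter.2 (hS w hw))

/-- **NEST**, the induction. -/
theorem ALS.nest_ind (h : ALS E a b P0 lab Lb R T d v A A')
    (hs : ∀ i ∈ E, ∀ w ∈ Lb, a i ∈ R w → b i ∈ R w) (hA : 0 ≤ A) {β θ τ : ℝ} (hβ : 0 < β)
    (hθ : 0 ≤ θ) (hd : 0 ≤ d) (hT : 0 ≤ T) (hτ0 : 0 < τ)
    (hc : A * T ^ 2 * v ^ 2 / β + A' ≤ θ ^ 3)
    {β' θ' : ℝ} (h' : ALS E a b P0 lab' Lb' R' T' d' v' B B') (hB : 0 ≤ B) (hβ' : 0 < β')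
    (hT' : 0 ≤ T') (hθ' : 0 ≤ θ') (hc' : B * T' ^ 2 * v' ^ 2 / β' + B' ≤ θ' ^ 3)
    {Nw : δ → Finset ι} (hN1 : ∀ w, Nw w ⊆ R' w ∩ P0) (hN2 : ∀ i ∈ E, a i ∈ Nw (lab' i))
    {h0 δ0 V : ℝ} (hh0 : 0 < h0) (hδ0 : 0 < δ0)
    (hV : ∀ w, ((Nw w).card : ℝ) ≤ V)
    {g ε lam : ℕ → ℝ} (hg : ∀ k, β * g (k + 1) ≤ g k ^ 2) (hg0 : ∀ k, 0 ≤ g k)
    (hε0 : ∀ k, 0 ≤ ε k) (hl0 : ∀ k, 0 < lam k)
    (hε : ∀ k, T' * θ + d * T * ε k ≤ τ * ε (k + 1))
    (hl : ∀ k, d * (T * V / h0) * lam k ≤ τ * lam (k + 1))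
    (hε1 : θ' ≤ δ0 * ε 0) (hbase : β' * g 0 < lam 0 ^ 2)
    (k : ℕ) : ∀ G, Adm E a b P0 G → (G.card : ℝ) ≤ g k → ∀ WW : Finset δ,
      ((Zn E a lab R lab' Nw h0 τ δ0 G WW).card : ℝ) ≤ ε k * G.card + lam k * WW.card := by
  classical
  have hYm : ∀ z ∈ Yn E a lab R lab' Nw h0 τ δ0, z.1 ∈ Nw z.2 ∧ z.2 ∈ Lb' := by
    intro z hz
    obtain ⟨i, hi, rfl⟩ := mem_image.1 (mem_filter.1 hz).1
    exact ⟨hN2 i hi, h'.labE i hi⟩
  have hNP : ∀ w, Nw w ⊆ P0 := fun w r hr => (mem_inter.1 (hN1 w hr)).2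
  induction k with
  | zero =>
    intro G hG hGg WW
    set S := Zn E a lab R lab' Nw h0 τ δ0 G WW with hS
    have hSm : ∀ z ∈ S, z ∈ Yn E a lab R lab' Nw h0 τ δ0 ∧ z.1 ∈ G ∧ z.2 ∈ WW :=
      fun z hz => mem_filter.1 hz
    set S1 := S.filter (fun z => lam 0 ≤ ((Nw z.2 ∩ G).card : ℝ)) with hS1
    set S2 := S.filter (fun z => ¬ lam 0 ≤ ((Nw z.2 ∩ G).card : ℝ)) with hS2
    have hcov : (S.card : ℝ) = S1.card + S2.card := by
      have := card_filter_add_card_filter_not (s := S)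
        (fun z => lam 0 ≤ ((Nw z.2 ∩ G).card : ℝ))
      exact_mod_cast this.symm
    set U := E.filter (fun i => (a i, lab' i) ∈ S1) with hU
    have h1 : δ0 * S1.card ≤ (U.card : ℝ) := by
      have e1 : U.card = ∑ z ∈ S1, (U.filter (fun i => (a i, lab' i) = z)).card :=
        card_eq_sum_card_fiberwise (fun i hi => (mem_filter.1 hi).2)
      rw [e1]
      push_cast
      calc δ0 * S1.card = ∑ _z ∈ S1, δ0 := by rw [sum_const, nsmul_eq_mul]; ring
        _ ≤ _ := by
          apply sum_le_sum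
          intro z hz
          have hz1 := (mem_filter.1 (hSm z (mem_filter.1 hz).1).1).2.1
          refine hz1.trans ?_
          exact_mod_cast card_le_card (fun i hi => by
            have hi' := mem_filter.1 hi
            have e2 : (a i, lab' i) = z := Prod.ext hi'.2.1 hi'.2.2
            exact mem_filter.2 ⟨mem_filter.2 ⟨hi'.1, e2 ▸ hz⟩, e2⟩)
    have h2 : U ⊆ bad E a lab' R' β' G := by
      intro i hi
      have hi' := mem_filter.1 hi
      have hz := mem_filter.1 hi'.2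
      have hz' := hSm _ hz.1
      refine mem_filter.2 ⟨hi'.1, hz'.2.1, ?_⟩
      have h3 : (Nw (lab' i) ∩ G).card ≤ (G ∩ R' (lab' i)).card := by
        apply card_le_card
        intro r hr
        rw [mem_inter] at hr ⊢
        exact ⟨hr.2, (mem_inter.1 (hN1 _ hr.1)).1⟩
      have h4 : lam 0 ≤ ((G ∩ R' (lab' i)).card : ℝ) := hz.2.trans (by exact_mod_cast h3)
      calc β' * (G.card : ℝ) ≤ β' * g 0 := mul_le_mul_of_nonneg_left hGg hβ'.le
        _ < lam 0 ^ 2 := hbase
        _ ≤ _ := pow_le_pow_left₀ (hl0 0).le h4 2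
    have h5 : (U.card : ℝ) ≤ ((bad E a lab' R' β' G).card : ℝ) := by exact_mod_cast card_le_card h2
    have h6 := h'.pm hB hβ' hθ' hc' hG
    have hfin : δ0 * S1.card ≤ δ0 * (ε 0 * G.card) := by
      calc δ0 * S1.card ≤ θ' * G.card := by linarith
        _ ≤ δ0 * ε 0 * G.card := mul_le_mul_of_nonneg_right hε1 (Nat.cast_nonneg _)
        _ = _ := by ring
    have hS1c := le_of_mul_le_mul_left hfin hδ0
    have hS2c : (S2.card : ℝ) ≤ lam 0 * WW.card := by
      have e1 : S2.card = ∑ w ∈ WW, (S2.filter (fun z => z.2 = w)).card :=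
        card_eq_sum_card_fiberwise (fun z hz => (hSm z (mem_filter.1 hz).1).2.2)
      rw [e1]
      push_cast
      calc ∑ w ∈ WW, ((S2.filter (fun z => z.2 = w)).card : ℝ) ≤ ∑ _w ∈ WW, lam 0 := by
            apply sum_le_sum
            intro w _
            rcases Finset.eq_empty_or_nonempty (S2.filter (fun z => z.2 = w)) with he | ⟨z0, hz0⟩
            · rw [he, card_empty, Nat.cast_zero]; exact (hl0 0).le
            have hz1 := mem_filter.1 hz0
            have hz2 := (mem_filter.1 hz1.1).2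
            rw [hz1.2, not_le] at hz2
            refine le_trans ?_ hz2.le
            have : (S2.filter (fun z => z.2 = w)).card ≤ (Nw w ∩ G).card := by
              apply card_le_card_of_injOn (fun z => z.1)
              · intro z hz
                have hz3 := mem_filter.1 (mem_coe.1 hz)
                have hz4 := hSm z (mem_filter.1 hz3.1).1
                refine mem_coe.2 (mem_inter.2 ⟨?_, hz4.2.1⟩)
                rw [← hz3.2]; exact (hYm z hz4.1).1
              · rintro ⟨p1, w1⟩ hq ⟨p2, w2⟩ hq' hee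
                have hq1 := (mem_filter.1 (mem_coe.1 hq)).2
                have hq2 := (mem_filter.1 (mem_coe.1 hq')).2
                simp only at hq1 hq2 hee
                rw [hq1, hq2, hee]
            exact_mod_cast this
        _ = lam 0 * WW.card := by rw [sum_const, nsmul_eq_mul]; ring
    linarith
  | succ k ih =>
    intro G hG hGk WW
    set S := Zn E a lab R lab' Nw h0 τ δ0 G WW with hS
    have hSm : ∀ z ∈ S, z ∈ Yn E a lab R lab' Nw h0 τ δ0 ∧ z.1 ∈ G ∧ z.2 ∈ WW :=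
      fun z hz => mem_filter.1 hz
    -- the incidences
    set Pi := (S ×ˢ E).filter (fun q => q.2 ∈ Tn E a lab R Nw h0 q.1) with hPi
    have hPi1 : τ * S.card ≤ (Pi.card : ℝ) := by
      have e1 : Pi.card = ∑ z ∈ S, (Pi.filter (fun q => q.1 = z)).card :=
        card_eq_sum_card_fiberwise (fun q hq => (mem_product.1 (mem_filter.1 hq).1).1)
      rw [e1]
      push_cast
      calc τ * S.card = ∑ _z ∈ S, τ := by rw [sum_const, nsmul_eq_mul]; ring
        _ ≤ _ := by
          apply sum_le_sum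
          intro z hz
          refine ((mem_filter.1 (hSm z hz).1).2.2).trans ?_
          have : (Tn E a lab R Nw h0 z).card ≤ (Pi.filter (fun q => q.1 = z)).card := by
            apply card_le_card_of_injOn (fun e => (z, e))
            · intro e he
              exact mem_coe.2 (mem_filter.2 ⟨mem_filter.2 ⟨mem_product.2 ⟨hz,
                (mem_filter.1 (mem_coe.1 he)).1⟩, he⟩, rfl⟩)
            · intro e _ e' _ hee
              exact (Prod.mk.inj hee).2
          exact_mod_cast this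
    have hPim : ∀ q ∈ Pi, q.1 ∈ S ∧ q.2 ∈ E ∧ a q.2 = q.1.1 ∧
        h0 ≤ ((Nw q.1.2 ∩ R (lab q.2)).card : ℝ) := by
      intro q hq
      have hq' := mem_filter.1 hq
      have h2 := mem_filter.1 hq'.2
      exact ⟨(mem_product.1 hq'.1).1, h2.1, h2.2.1, h2.2.2⟩
    set F := bad E a lab R β G with hF
    set P1 := Pi.filter (fun q => q.2 ∈ F) with hP1
    set P2 := Pi.filter (fun q => q.2 ∉ F) with hP2
    have hcov : (Pi.card : ℝ) = P1.card + P2.card := by
      have := card_filter_add_card_filter_not (s := Pi) (fun q => q.2 ∈ F)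
      exact_mod_cast this.symm
    -- part 1
    have hFc : (F.card : ℝ) ≤ θ * G.card := h.pm hA hβ hθ hc hG
    have hp1 : (P1.card : ℝ) ≤ T' * (θ * G.card) := by
      refine (card_pairs_le' (F := F) (m := T') (fun q hq => (mem_filter.1 hq).2) ?_).trans
        (mul_le_mul_of_nonneg_left hFc hT')
      intro e he
      have he' := mem_filter.1 he
      have e3 : (((P1.filter (fun q => q.2 = e)).image Prod.fst).card) =
          ((((P1.filter (fun q => q.2 = e)).image Prod.fst).image Prod.snd).card) := by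
        symm
        apply card_image_of_injOn
        rintro ⟨p1, w1⟩ hz ⟨p2, w2⟩ hz' hww
        obtain ⟨q, hq, hq1⟩ := mem_image.1 (mem_coe.1 hz)
        obtain ⟨q', hq', hq1'⟩ := mem_image.1 (mem_coe.1 hz')
        have h1 := (hPim q (mem_filter.1 (mem_filter.1 hq).1).1).2.2.1
        have h2 := (hPim q' (mem_filter.1 (mem_filter.1 hq').1).1).2.2.1
        rw [(mem_filter.1 hq).2, hq1] at h1
        rw [(mem_filter.1 hq').2, hq1'] at h2
        simp only at h1 h2 hww
        rw [← h1, ← h2, hww]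
      rw [e3]
      refine h'.lab_le (p := a e) (hG.1 he'.2.1) ?_
      intro w hw
      obtain ⟨z, hz, rfl⟩ := mem_image.1 hw
      obtain ⟨q, hq, rfl⟩ := mem_image.1 hz
      have hq1 := mem_filter.1 hq
      have hq2 := hPim _ (mem_filter.1 hq1.1).1
      have hq3 := hYm _ (hSm _ hq2.1).1
      refine ⟨hq3.2, ?_⟩
      rw [← hq1.2, hq2.2.2.1]
      exact (mem_inter.1 (hN1 _ hq3.1)).1
    -- part 2
    set S' := Lb.filter (fun u => ((G ∩ R u).card : ℝ) ≤ g k) with hS'
    set WU : γ → Finset δ := fun u => WW.filter (fun w =>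
      h0 ≤ ((Nw w ∩ R u).card : ℝ)) with hWU
    have hp2 : (P2.card : ℝ) ≤ d * ∑ u ∈ S', ((Zn E a lab R lab' Nw h0 τ δ0 (G ∩ R u)
        (WU u)).card : ℝ) := by
      apply card_pairs_le (E := E) (a := a) (lab := lab) h.light (fun z : ι × δ => z.1)
      intro q hq
      have hq1 := mem_filter.1 hq
      have hq2 := hPim q hq1.1
      have hq3 := hSm _ hq2.1
      refine ⟨hq2.2.1, hq2.2.2.1, mem_filter.2 ⟨h.labE _ hq2.2.1, ?_⟩, mem_filter.2 ⟨hq3.1,
        mem_inter.2 ⟨hq3.2.1, ?_⟩, mem_filter.2 ⟨hq3.2.2, hq2.2.2.2⟩⟩⟩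
      · have he2 : ¬ (β * (G.card : ℝ) < ((G ∩ R (lab q.2)).card : ℝ) ^ 2) := by
          intro hlt
          exact hq1.2 (mem_filter.2 ⟨hq2.2.1, by rw [hq2.2.2.1]; exact hq3.2.1, hlt⟩)
        rw [not_lt] at he2
        have h3 : ((G ∩ R (lab q.2)).card : ℝ) ^ 2 ≤ g k ^ 2 :=
          he2.trans ((mul_le_mul_of_nonneg_left hGk hβ.le).trans (hg k))
        exact le_of_pow_le_pow_left₀ (by norm_num) (hg0 k) h3
      · rw [← hq2.2.2.1]; exact h.mem _ hq2.2.1
    have hHH : ∀ w, ((Lb.filter (fun u => h0 ≤ ((Nw w ∩ R u).card : ℝ))).card : ℝ) ≤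
        T * V / h0 := by
      intro w
      rw [le_div_iff₀ hh0]
      calc ((Lb.filter (fun u => h0 ≤ ((Nw w ∩ R u).card : ℝ))).card : ℝ) * h0
          = ∑ _u ∈ Lb.filter (fun u => h0 ≤ ((Nw w ∩ R u).card : ℝ)), h0 := by
            rw [sum_const, nsmul_eq_mul]
        _ ≤ ∑ u ∈ Lb.filter (fun u => h0 ≤ ((Nw w ∩ R u).card : ℝ)),
              ((Nw w ∩ R u).card : ℝ) := sum_le_sum (fun u hu => (mem_filter.1 hu).2)
        _ ≤ ∑ u ∈ Lb, ((Nw w ∩ R u).card : ℝ) :=
            sum_le_sum_of_subset_of_nonneg (filter_subset _ _) (fun _ _ _ => Nat.cast_nonneg _)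
        _ ≤ T * (Nw w).card := h.sum_le (hNP w)
        _ ≤ T * V := mul_le_mul_of_nonneg_left (hV w) hT
    have hWUs : ∑ u ∈ S', ((WU u).card : ℝ) ≤ T * V / h0 * WW.card := by
      calc ∑ u ∈ S', ((WU u).card : ℝ) ≤ ∑ u ∈ Lb, ((WU u).card : ℝ) :=
            sum_le_sum_of_subset_of_nonneg (filter_subset _ _) (fun _ _ _ => Nat.cast_nonneg _)
        _ = ∑ w ∈ WW, ((Lb.filter (fun u => h0 ≤ ((Nw w ∩ R u).card : ℝ))).card : ℝ) := by
            have := Finset.sum_card_bipartiteAbove_eq_sum_card_bipartiteBelow (s := Lb) (t := WW)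
              (fun u w => h0 ≤ ((Nw w ∩ R u).card : ℝ))
            simp only [Finset.bipartiteAbove, Finset.bipartiteBelow] at this
            exact_mod_cast this
        _ ≤ ∑ _w ∈ WW, T * V / h0 := sum_le_sum (fun w _ => hHH w)
        _ = _ := by rw [sum_const, nsmul_eq_mul]; ring
    have hp3 : (P2.card : ℝ) ≤ d * (ε k * (T * G.card) + lam k * (T * V / h0 * WW.card)) := by
      refine hp2.trans (mul_le_mul_of_nonneg_left ?_ hd)
      calc ∑ u ∈ S', ((Zn E a lab R lab' Nw h0 τ δ0 (G ∩ R u) (WU u)).card : ℝ)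
          ≤ ∑ u ∈ S', (ε k * ((G ∩ R u).card : ℝ) + lam k * ((WU u).card : ℝ)) := by
            apply sum_le_sum
            intro u hu
            have hu' := mem_filter.1 hu
            exact ih (G ∩ R u) (adm_inter hs hG hu'.1) hu'.2 (WU u)
        _ = ε k * ∑ u ∈ S', ((G ∩ R u).card : ℝ) + lam k * ∑ u ∈ S', ((WU u).card : ℝ) := by
            rw [sum_add_distrib, mul_sum, mul_sum]
        _ ≤ ε k * (T * G.card) + lam k * (T * V / h0 * WW.card) := by
            apply add_le_add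
            · apply mul_le_mul_of_nonneg_left _ (hε0 k)
              exact (sum_le_sum_of_subset_of_nonneg (filter_subset _ _)
                (fun _ _ _ => Nat.cast_nonneg _)).trans (h.sum_le hG.1)
            · exact mul_le_mul_of_nonneg_left hWUs (hl0 k).le
    have hfin : τ * S.card ≤ τ * (ε (k + 1) * G.card + lam (k + 1) * WW.card) := by
      calc τ * S.card ≤ T' * (θ * G.card) +
            d * (ε k * (T * G.card) + lam k * (T * V / h0 * WW.card)) := by linarith
        _ = (T' * θ + d * T * ε k) * G.card + (d * (T * V / h0) * lam k) * WW.card := by ring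
        _ ≤ τ * ε (k + 1) * G.card + τ * lam (k + 1) * WW.card :=
            add_le_add (mul_le_mul_of_nonneg_right (hε k) (Nat.cast_nonneg _))
              (mul_le_mul_of_nonneg_right (hl k) (Nat.cast_nonneg _))
        _ = τ * (ε (k + 1) * G.card + lam (k + 1) * WW.card) := by ring
    exact le_of_mul_le_mul_left hfin hτ0

/-- **NEST**: number of pairs of edges on the same line such that the set `R` of the second
contains at least `h0` lines with the label of the first. -/
theorem ALS.nest (h : ALS E a b P0 lab Lb R T d v A A')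
    (hs : ∀ i ∈ E, ∀ w ∈ Lb, a i ∈ R w → b i ∈ R w) (hA : 0 ≤ A) {β θ τ : ℝ} (hβ : 0 < β)
    (hθ : 0 ≤ θ) (hd : 0 ≤ d) (hT : 0 ≤ T) (hτ0 : 0 < τ)
    (hc : A * T ^ 2 * v ^ 2 / β + A' ≤ θ ^ 3)
    {β' θ' : ℝ} (h' : ALS E a b P0 lab' Lb' R' T' d' v' B B') (hB : 0 ≤ B) (hβ' : 0 < β')
    (hT' : 0 ≤ T') (hd' : 0 ≤ d') (hθ' : 0 ≤ θ')
    (hc' : B * T' ^ 2 * v' ^ 2 / β' + B' ≤ θ' ^ 3)
    {Nw : δ → Finset ι} (hN1 : ∀ w, Nw w ⊆ R' w ∩ P0) (hN2 : ∀ i ∈ E, a i ∈ Nw (lab' i))
    {h0 δ0 V : ℝ} (hh0 : 0 < h0) (hδ0 : 0 < δ0)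
    (hV : ∀ w, ((Nw w).card : ℝ) ≤ V)
    {g ε lam : ℕ → ℝ} (hg : ∀ k, β * g (k + 1) ≤ g k ^ 2) (hg0 : ∀ k, 0 ≤ g k)
    (hε0 : ∀ k, 0 ≤ ε k) (hl0 : ∀ k, 0 < lam k)
    (hε : ∀ k, T' * θ + d * T * ε k ≤ τ * ε (k + 1))
    (hl : ∀ k, d * (T * V / h0) * lam k ≤ τ * lam (k + 1))
    (hε1 : θ' ≤ δ0 * ε 0) (hbase : β' * g 0 < lam 0 ^ 2)
    {m : ℝ} (hm0 : 0 ≤ m) (hm : ∀ p, ((E.filter (fun i => a i = p)).card : ℝ) ≤ m)
    {k : ℕ} (hk : (P0.card : ℝ) ≤ g k) :
    (((E ×ˢ E).filter (fun u : ℕ × ℕ => a u.1 = a u.2 ∧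
      h0 ≤ ((Nw (lab' u.1) ∩ R (lab u.2)).card : ℝ))).card : ℝ) ≤
    τ * E.card + δ0 * (T' * P0.card) * m + (ε k + lam k * (T' / h0)) * P0.card * d' * m := by
  classical
  set X := (E ×ˢ E).filter (fun u : ℕ × ℕ => a u.1 = a u.2 ∧
      h0 ≤ ((Nw (lab' u.1) ∩ R (lab u.2)).card : ℝ)) with hX
  set Y := Yn E a lab R lab' Nw h0 τ δ0 with hY
  have hYm : ∀ z ∈ Y, z.1 ∈ Nw z.2 ∧ z.2 ∈ Lb' := by
    intro z hz
    obtain ⟨i, hi, rfl⟩ := mem_image.1 (mem_filter.1 hz).1
    exact ⟨hN2 i hi, h'.labE i hi⟩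
  have hNP : ∀ w, Nw w ⊆ P0 := fun w r hr => (mem_inter.1 (hN1 w hr)).2
  -- the number of pairs in Y
  set WW := Lb'.filter (fun w => h0 ≤ ((Nw w).card : ℝ)) with hWW
  have hWWc : (WW.card : ℝ) ≤ T' / h0 * P0.card := by
    rw [div_mul_eq_mul_div, le_div_iff₀ hh0]
    calc (WW.card : ℝ) * h0 = ∑ _w ∈ WW, h0 := by rw [sum_const, nsmul_eq_mul]
      _ ≤ ∑ w ∈ WW, ((P0 ∩ R' w).card : ℝ) := by
          apply sum_le_sum
          intro w hw
          refine ((mem_filter.1 hw).2).trans ?_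
          exact_mod_cast card_le_card (fun r hr => by
            have := mem_inter.1 (hN1 w hr)
            exact mem_inter.2 ⟨this.2, this.1⟩)
      _ ≤ ∑ w ∈ Lb', ((P0 ∩ R' w).card : ℝ) :=
          sum_le_sum_of_subset_of_nonneg (filter_subset _ _) (fun _ _ _ => Nat.cast_nonneg _)
      _ ≤ T' * P0.card := h'.sum_le (Subset.refl _)
  have hYc : (Y.card : ℝ) ≤ (ε k + lam k * (T' / h0)) * P0.card := by
    have h1 := h.nest_ind hs hA hβ hθ hd hT hτ0 hc h' hB hβ' hT' hθ' hc' hN1 hN2 hh0 hδ0 hV hg hg0 hε0 hl0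
      hε hl hε1 hbase k P0 h.adm_top hk WW
    have h2 : Zn E a lab R lab' Nw h0 τ δ0 P0 WW = Y := by
      rw [Zn, filter_eq_self]
      intro z hz
      have h3 := hYm z hz
      refine ⟨hNP _ h3.1, mem_filter.2 ⟨h3.2, ?_⟩⟩
      have h4 := (mem_filter.1 hz).2.2
      have h5 : 0 < (Tn E a lab R Nw h0 z).card := by exact_mod_cast lt_of_lt_of_le hτ0 h4
      obtain ⟨e, he⟩ := card_pos.1 h5
      refine ((mem_filter.1 he).2.2).trans ?_
      exact_mod_cast card_le_card inter_subset_left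
    rw [h2] at h1
    have h3 := mul_le_mul_of_nonneg_left hWWc (hl0 k).le
    linarith
  -- fibres over the first edge
  set fib : ℕ → ℝ := fun i => ((Tn E a lab R Nw h0 (a i, lab' i)).card : ℝ) with hfib
  have hXs : (X.card : ℝ) ≤ ∑ i ∈ E, fib i := by
    have e1 : X.card = ∑ i ∈ E, (X.filter (fun u => u.1 = i)).card :=
      card_eq_sum_card_fiberwise (fun u hu => (mem_product.1 (mem_filter.1 hu).1).1)
    rw [e1]
    push_cast
    apply sum_le_sum
    intro i _
    have : (X.filter (fun u => u.1 = i)).card ≤ (Tn E a lab R Nw h0 (a i, lab' i)).card := by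
      apply card_le_card_of_injOn (fun u => u.2)
      · intro u hu
        have hu1 := mem_filter.1 (mem_coe.1 hu)
        have hu2 := mem_filter.1 hu1.1
        refine mem_coe.2 (mem_filter.2 ⟨(mem_product.1 hu2.1).2, ?_, ?_⟩)
        · rw [← hu2.2.1, hu1.2]
        · rw [← hu1.2]; exact hu2.2.2
      · rintro ⟨p1, w1⟩ hq ⟨p2, w2⟩ hq' hee
        have hq1 := (mem_filter.1 (mem_coe.1 hq)).2
        have hq2 := (mem_filter.1 (mem_coe.1 hq')).2
        simp only at hq1 hq2 hee
        rw [hq1, hq2, hee]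
    change ((X.filter (fun u => u.1 = i)).card : ℝ) ≤
      ((Tn E a lab R Nw h0 (a i, lab' i)).card : ℝ)
    exact_mod_cast this
  have hfm : ∀ i, fib i ≤ m := by
    intro i
    refine le_trans ?_ (hm (a i))
    change ((Tn E a lab R Nw h0 (a i, lab' i)).card : ℝ) ≤ _
    exact_mod_cast card_le_card (fun e he => by
      have he' := mem_filter.1 he
      exact mem_filter.2 ⟨he'.1, he'.2.1⟩)
  set E1 := E.filter (fun i => ((E.filter (fun i' => a i' = a i ∧ lab' i' = lab' i)).card : ℝ) < δ0)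
    with hE1
  set E2 := E.filter (fun i => (a i, lab' i) ∈ Y) with hE2
  have hE1c : (E1.card : ℝ) ≤ δ0 * (T' * P0.card) := by
    have e1 : E1.card = ∑ z ∈ (E1.image (fun i => (a i, lab' i))),
        (E1.filter (fun i => (a i, lab' i) = z)).card :=
      card_eq_sum_card_fiberwise (fun i hi => mem_image_of_mem _ hi)
    have e2 : ((E1.image (fun i => (a i, lab' i))).card : ℝ) ≤ T' * P0.card := by
      have e3 : (E1.image (fun i => (a i, lab' i))).card =
          ∑ p ∈ P0, ((E1.image (fun i => (a i, lab' i))).filter (fun z => z.1 = p)).card := by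
        apply card_eq_sum_card_fiberwise
        intro z hz
        obtain ⟨i, hi, rfl⟩ := mem_image.1 (mem_coe.1 hz)
        exact h.aP i (mem_filter.1 hi).1
      rw [e3]
      push_cast
      calc ∑ p ∈ P0, (((E1.image (fun i => (a i, lab' i))).filter (fun z => z.1 = p)).card : ℝ)
          ≤ ∑ _p ∈ P0, T' := by
            apply sum_le_sum
            intro p hp
            have e4 : ((E1.image (fun i => (a i, lab' i))).filter (fun z => z.1 = p)).card =
                (((E1.image (fun i => (a i, lab' i))).filter (fun z => z.1 = p)).image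
                  Prod.snd).card := by
              symm
              apply card_image_of_injOn
              rintro ⟨p1, w1⟩ hq ⟨p2, w2⟩ hq' hee
              have hq1 := (mem_filter.1 (mem_coe.1 hq)).2
              have hq2 := (mem_filter.1 (mem_coe.1 hq')).2
              simp only at hq1 hq2 hee
              rw [hq1, hq2, hee]
            rw [e4]
            refine h'.lab_le hp ?_
            intro w hw
            obtain ⟨z, hz, rfl⟩ := mem_image.1 hw
            have hz1 := mem_filter.1 hz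
            obtain ⟨i, hi, rfl⟩ := mem_image.1 hz1.1
            have hiE := (mem_filter.1 hi).1
            exact ⟨h'.labE i hiE, by rw [← hz1.2]; exact h'.mem i hiE⟩
        _ = T' * P0.card := by rw [sum_const, nsmul_eq_mul]; ring
    rw [e1]
    push_cast
    calc ∑ z ∈ (E1.image (fun i => (a i, lab' i))),
          ((E1.filter (fun i => (a i, lab' i) = z)).card : ℝ)
        ≤ ∑ _z ∈ (E1.image (fun i => (a i, lab' i))), δ0 := by
          apply sum_le_sum
          intro z hz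
          obtain ⟨i, hi, rfl⟩ := mem_image.1 hz
          refine le_trans ?_ (mem_filter.1 hi).2.le
          exact_mod_cast card_le_card (fun i' hi' => by
            have h1 := mem_filter.1 hi'
            have h2 := Prod.mk.inj h1.2
            exact mem_filter.2 ⟨(mem_filter.1 h1.1).1, h2.1, h2.2⟩)
      _ = δ0 * (E1.image (fun i => (a i, lab' i))).card := by rw [sum_const, nsmul_eq_mul]; ring
      _ ≤ δ0 * (T' * P0.card) := mul_le_mul_of_nonneg_left e2 hδ0.le
  have hE2c : (E2.card : ℝ) ≤ d' * Y.card := by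
    have e1 : E2.card = ∑ z ∈ Y, (E2.filter (fun i => (a i, lab' i) = z)).card :=
      card_eq_sum_card_fiberwise (fun i hi => (mem_filter.1 hi).2)
    rw [e1]
    push_cast
    calc ∑ z ∈ Y, ((E2.filter (fun i => (a i, lab' i) = z)).card : ℝ) ≤ ∑ _z ∈ Y, d' := by
          apply sum_le_sum
          intro z _
          refine le_trans ?_ (h'.light z.1 z.2)
          exact_mod_cast card_le_card (fun i' hi' => by
            have h1 := mem_filter.1 hi'
            have h2 : (a i', lab' i') = (z.1, z.2) := h1.2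
            have h3 := Prod.mk.inj h2
            exact mem_filter.2 ⟨(mem_filter.1 h1.1).1, h3.1, h3.2⟩)
      _ = d' * Y.card := by rw [sum_const, nsmul_eq_mul]; ring
  have hsplit : ∑ i ∈ E, fib i ≤ τ * E.card + m * E1.card + m * E2.card := by
    have e1 : ∀ i ∈ E, fib i ≤ τ + (if i ∈ E1 then m else 0) + (if i ∈ E2 then m else 0) := by
      intro i hi
      by_cases h1 : i ∈ E1
      · rw [if_pos h1]
        have := hfm i
        split_ifs <;> linarith
      · rw [if_neg h1]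
        by_cases h2 : i ∈ E2
        · rw [if_pos h2]; have := hfm i; linarith
        · rw [if_neg h2]
          by_contra hcon
          apply h2
          refine mem_filter.2 ⟨hi, mem_filter.2 ⟨mem_image_of_mem _ hi, ?_, ?_⟩⟩
          · by_contra h3
            rw [not_le] at h3
            exact h1 (mem_filter.2 ⟨hi, h3⟩)
          · simp only [hfib] at hcon
            linarith [not_le.1 hcon]
    calc ∑ i ∈ E, fib i ≤ ∑ i ∈ E, (τ + (if i ∈ E1 then m else 0) + (if i ∈ E2 then m else 0)) :=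
          sum_le_sum e1
      _ = τ * E.card + m * E1.card + m * E2.card := by
          rw [sum_add_distrib, sum_add_distrib, sum_const, nsmul_eq_mul]
          rw [← sum_filter, ← sum_filter, sum_const, sum_const, nsmul_eq_mul, nsmul_eq_mul]
          have f1 : E.filter (fun i => i ∈ E1) = E1 := by
            rw [filter_mem_eq_inter]; exact inter_eq_right.2 (filter_subset _ _)
          have f2 : E.filter (fun i => i ∈ E2) = E2 := by
            rw [filter_mem_eq_inter]; exact inter_eq_right.2 (filter_subset _ _)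
          rw [f1, f2]
          ring
  have hm1 := mul_le_mul_of_nonneg_left hE1c hm0
  have hm2 := mul_le_mul_of_nonneg_left (hE2c.trans (mul_le_mul_of_nonneg_left hYc hd')) hm0
  calc (X.card : ℝ) ≤ τ * E.card + m * E1.card + m * E2.card := hXs.trans hsplit
    _ ≤ τ * E.card + m * (δ0 * (T' * P0.card)) +
        m * (d' * ((ε k + lam k * (T' / h0)) * P0.card)) := by linarith
    _ = _ := by ring

end

end Pool.Agent.Work.MP_e17eac_co.HSB
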