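import Mathlib

/-!
# Arbitrary sets, route HS (note 2872): abstract form of PM, P2, PLANKS

`ALS`: the edges `E` (lines `a`, `b`) of one window with the labels of one level, every label `w`
has a set `R w` of lines. All statements are proved by induction over all *admissible* sets of
lines, without tuples.
-/

namespace Pool.Agent.Work.MP_e17eac_co.HSB

open Finset

variable {ι γ δ κ : Type*} [DecidableEq ι] [DecidableEq γ] [DecidableEq δ] [DecidableEq κ]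

/-- Abstract label system of one window and one level. `T`: tameness, `d`: edges per
(line, label), `v`: tokens per label, `A`, `A'`: constants of the crossing lemma. -/
structure ALS (E : Finset ℕ) (a b : ℕ → ι) (P0 : Finset ι) (lab : ℕ → γ) (Lb : Finset γ)
    (R : γ → Finset ι) (T d v A A' : ℝ) : Prop where
  labE : ∀ i ∈ E, lab i ∈ Lb
  mem : ∀ i ∈ E, a i ∈ R (lab i)
  aP : ∀ i ∈ E, a i ∈ P0
  bP : ∀ i ∈ E, b i ∈ P0
  tame : ∀ r ∈ P0, ((Lb.filter (fun w => r ∈ R w)).card : ℝ) ≤ T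
  light : ∀ p w, ((E.filter (fun i => a i = p ∧ lab i = w)).card : ℝ) ≤ d
  cross : ∀ F ⊆ E, ∀ G ⊆ P0, (∀ i ∈ F, a i ∈ G ∧ b i ∈ G) →
    (F.card : ℝ) ^ 3 ≤ A * (G.card : ℝ) ^ 2 * (((F.image lab).card : ℝ) * v) ^ 2 +
      A' * (G.card : ℝ) ^ 3

/-- Admissible sets of lines. -/
def Adm (E : Finset ℕ) (a b : ℕ → ι) (P0 G : Finset ι) : Prop :=
  G ⊆ P0 ∧ ∀ i ∈ E, a i ∈ G → b i ∈ G

/-- The bad edges of `G`. -/
noncomputable def bad (E : Finset ℕ) (a : ℕ → ι) (lab : ℕ → γ) (R : γ → Finset ι) (β : ℝ)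
    (G : Finset ι) : Finset ℕ :=
  E.filter (fun i => a i ∈ G ∧ β * (G.card : ℝ) < ((G ∩ R (lab i)).card : ℝ) ^ 2)

/-- Counting pairs (object, edge of the line of the object) by the label of the edge. -/
theorem card_pairs_le {Pi : Finset (κ × ℕ)} {E : Finset ℕ} {a : ℕ → ι} {lab : ℕ → γ} {d : ℝ}
    (hlight : ∀ p w, ((E.filter (fun i => a i = p ∧ lab i = w)).card : ℝ) ≤ d)
    (f : κ → ι) (S : Finset γ) (Z : γ → Finset κ)
    (h : ∀ q ∈ Pi, q.2 ∈ E ∧ a q.2 = f q.1 ∧ lab q.2 ∈ S ∧ q.1 ∈ Z (lab q.2)) :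
    (Pi.card : ℝ) ≤ d * ∑ u ∈ S, ((Z u).card : ℝ) := by
  have h1 : Pi.card = ∑ u ∈ S, (Pi.filter (fun q => lab q.2 = u)).card :=
    card_eq_sum_card_fiberwise (fun q hq => (h q hq).2.2.1)
  have h2 : ∀ u, ((Pi.filter (fun q => lab q.2 = u)).card : ℝ) ≤ d * (Z u).card := by
    intro u
    have h3 : (Pi.filter (fun q => lab q.2 = u)).card =
        ∑ z ∈ Z u, ((Pi.filter (fun q => lab q.2 = u)).filter (fun q => q.1 = z)).card := by
      apply card_eq_sum_card_fiberwise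
      intro q hq
      have hq' := mem_filter.1 hq
      have := (h q hq'.1).2.2.2
      rw [hq'.2] at this
      exact this
    rw [h3]
    push_cast
    calc ∑ z ∈ Z u, (((Pi.filter (fun q => lab q.2 = u)).filter (fun q => q.1 = z)).card : ℝ)
        ≤ ∑ _z ∈ Z u, d := by
          apply sum_le_sum
          intro z _
          refine le_trans ?_ (hlight (f z) u)
          have : ((Pi.filter (fun q => lab q.2 = u)).filter (fun q => q.1 = z)).card ≤
              (E.filter (fun i => a i = f z ∧ lab i = u)).card := by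
            apply card_le_card_of_injOn (fun q => q.2)
            · intro q hq
              have hq1 := mem_filter.1 (mem_coe.1 hq)
              have hq2 := mem_filter.1 hq1.1
              have hq3 := h q hq2.1
              exact mem_coe.2 (mem_filter.2 ⟨hq3.1, by rw [hq3.2.1, hq1.2], hq2.2⟩)
            · rintro ⟨z1, e1⟩ hq ⟨z2, e2⟩ hq' hee
              have hq1 := (mem_filter.1 (mem_coe.1 hq)).2
              have hq2 := (mem_filter.1 (mem_coe.1 hq')).2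
              simp only at hq1 hq2 hee
              rw [hq1, hq2, hee]
          exact_mod_cast this
      _ = d * (Z u).card := by rw [sum_const, nsmul_eq_mul]; ring
  rw [h1]
  push_cast
  rw [mul_sum]
  exact sum_le_sum (fun u _ => h2 u)

/-- Counting pairs (object, edge) by the edge. -/
theorem card_pairs_le' {Pi : Finset (κ × ℕ)} {F : Finset ℕ} {m : ℝ}
    (h : ∀ q ∈ Pi, q.2 ∈ F)
    (hm : ∀ e ∈ F, (((Pi.filter (fun q => q.2 = e)).image Prod.fst).card : ℝ) ≤ m) :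
    (Pi.card : ℝ) ≤ m * F.card := by
  have h1 : Pi.card = ∑ e ∈ F, (Pi.filter (fun q => q.2 = e)).card :=
    card_eq_sum_card_fiberwise h
  rw [h1]
  push_cast
  calc ∑ e ∈ F, ((Pi.filter (fun q => q.2 = e)).card : ℝ) ≤ ∑ _e ∈ F, m := by
        apply sum_le_sum
        intro e he
        refine le_trans ?_ (hm e he)
        have : (Pi.filter (fun q => q.2 = e)).card =
            ((Pi.filter (fun q => q.2 = e)).image Prod.fst).card := by
          symm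
          apply card_image_of_injOn
          rintro ⟨z1, e1⟩ hq ⟨z2, e2⟩ hq' hee
          have hq1 := (mem_filter.1 (mem_coe.1 hq)).2
          have hq2 := (mem_filter.1 (mem_coe.1 hq')).2
          simp only at hq1 hq2 hee
          rw [hq1, hq2, hee]
        exact_mod_cast this.le
    _ = m * F.card := by rw [sum_const, nsmul_eq_mul]; ring

section

variable {E : Finset ℕ} {a b : ℕ → ι} {P0 : Finset ι} {lab : ℕ → γ} {Lb : Finset γ}
  {R : γ → Finset ι} {T d v A A' : ℝ}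

theorem ALS.adm_top (h : ALS E a b P0 lab Lb R T d v A A') : Adm E a b P0 P0 :=
  ⟨Subset.refl _, fun i hi _ => h.bP i hi⟩

omit [DecidableEq γ] in
theorem adm_inter (hs : ∀ i ∈ E, ∀ w ∈ Lb, a i ∈ R w → b i ∈ R w) {G : Finset ι}
    (hG : Adm E a b P0 G) {w : γ} (hw : w ∈ Lb) : Adm E a b P0 (G ∩ R w) := by
  refine ⟨fun r hr => hG.1 (mem_inter.1 hr).1, fun i hi hai => ?_⟩
  rw [mem_inter] at hai ⊢
  exact ⟨hG.2 i hi hai.1, hs i hi w hw hai.2⟩

/-- Double counting: the sets `G ∩ R w` cover `G` at most `T` times. -/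
theorem ALS.sum_le (h : ALS E a b P0 lab Lb R T d v A A') {G : Finset ι} (hG : G ⊆ P0) :
    ∑ w ∈ Lb, ((G ∩ R w).card : ℝ) ≤ T * G.card := by
  have e1 : ∑ w ∈ Lb, ((G ∩ R w).card : ℝ) = ∑ r ∈ G, ((Lb.filter (fun w => r ∈ R w)).card : ℝ) := by
    have := Finset.sum_card_bipartiteAbove_eq_sum_card_bipartiteBelow (s := Lb) (t := G)
      (fun w r => r ∈ R w)
    simp only [Finset.bipartiteAbove, Finset.bipartiteBelow] at this
    have e2 : ∀ w, G ∩ R w = G.filter (fun r => r ∈ R w) := by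
      intro w; ext r; simp [mem_filter, mem_inter]
    simp only [e2]
    exact_mod_cast this
  rw [e1]
  calc ∑ r ∈ G, ((Lb.filter (fun w => r ∈ R w)).card : ℝ) ≤ ∑ _r ∈ G, T :=
        sum_le_sum (fun r hr => h.tame r (hG hr))
    _ = T * G.card := by rw [sum_const, nsmul_eq_mul]; ring

/-- **PM** (product form of (P2)). -/
theorem ALS.pm (h : ALS E a b P0 lab Lb R T d v A A') (hA : 0 ≤ A) {β θ : ℝ} (hβ : 0 < β)
    (hθ : 0 ≤ θ) (hc : A * T ^ 2 * v ^ 2 / β + A' ≤ θ ^ 3) {G : Finset ι}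
    (hG : Adm E a b P0 G) : ((bad E a lab R β G).card : ℝ) ≤ θ * G.card := by
  classical
  set g : ℝ := (G.card : ℝ) with hg
  have hg0 : 0 ≤ g := Nat.cast_nonneg _
  set F := bad E a lab R β G with hF
  set HH := Lb.filter (fun w => β * g < ((G ∩ R w).card : ℝ) ^ 2) with hHH
  have hFE : F ⊆ E := filter_subset _ _
  have hFG : ∀ i ∈ F, a i ∈ G ∧ b i ∈ G := by
    intro i hi
    have hi' := (mem_filter.1 hi)
    exact ⟨hi'.2.1, hG.2 i hi'.1 hi'.2.1⟩
  have himg : (F.image lab).card ≤ HH.card := by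
    apply card_le_card
    intro w hw
    obtain ⟨i, hi, rfl⟩ := mem_image.1 hw
    have hi' := (mem_filter.1 hi)
    exact mem_filter.2 ⟨h.labE i hi'.1, hi'.2.2⟩
  have h1 : (HH.card : ℝ) * Real.sqrt (β * g) ≤ T * g := by
    calc (HH.card : ℝ) * Real.sqrt (β * g) = ∑ _w ∈ HH, Real.sqrt (β * g) := by
          rw [sum_const, nsmul_eq_mul]
      _ ≤ ∑ w ∈ HH, ((G ∩ R w).card : ℝ) := by
          apply sum_le_sum
          intro w hw
          rw [← Real.sqrt_sq (Nat.cast_nonneg ((G ∩ R w).card) : (0 : ℝ) ≤ _)]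
          exact Real.sqrt_le_sqrt (mem_filter.1 hw).2.le
      _ ≤ ∑ w ∈ Lb, ((G ∩ R w).card : ℝ) :=
          sum_le_sum_of_subset_of_nonneg (filter_subset _ _) (fun _ _ _ => Nat.cast_nonneg _)
      _ ≤ T * g := h.sum_le hG.1
  have h2 : (HH.card : ℝ) ^ 2 * (β * g) ≤ (T * g) ^ 2 := by
    calc (HH.card : ℝ) ^ 2 * (β * g) = ((HH.card : ℝ) * Real.sqrt (β * g)) ^ 2 := by
          rw [mul_pow, Real.sq_sqrt (by positivity)]
      _ ≤ (T * g) ^ 2 := pow_le_pow_left₀ (by positivity) h1 2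
  have h3 := h.cross F hFE G hG.1 hFG
  rw [← hg] at h3
  have h4 : (((F.image lab).card : ℝ) * v) ^ 2 ≤ (HH.card : ℝ) ^ 2 * v ^ 2 := by
    rw [mul_pow]
    apply mul_le_mul_of_nonneg_right _ (sq_nonneg v)
    exact pow_le_pow_left₀ (Nat.cast_nonneg _) (by exact_mod_cast himg) 2
  have h5 : g ^ 2 * (HH.card : ℝ) ^ 2 ≤ T ^ 2 * g ^ 3 / β := by
    rw [le_div_iff₀ hβ]
    nlinarith [mul_le_mul_of_nonneg_left h2 hg0]
  have h6 : (F.card : ℝ) ^ 3 ≤ (θ * g) ^ 3 := by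
    calc (F.card : ℝ) ^ 3 ≤ A * g ^ 2 * (((F.image lab).card : ℝ) * v) ^ 2 + A' * g ^ 3 := h3
      _ ≤ A * g ^ 2 * ((HH.card : ℝ) ^ 2 * v ^ 2) + A' * g ^ 3 := by
          have := mul_le_mul_of_nonneg_left h4 (by positivity : 0 ≤ A * g ^ 2)
          linarith
      _ = A * v ^ 2 * (g ^ 2 * (HH.card : ℝ) ^ 2) + A' * g ^ 3 := by ring
      _ ≤ A * v ^ 2 * (T ^ 2 * g ^ 3 / β) + A' * g ^ 3 := by
          have := mul_le_mul_of_nonneg_left h5 (by positivity : 0 ≤ A * v ^ 2)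
          linarith
      _ = (A * T ^ 2 * v ^ 2 / β + A') * g ^ 3 := by ring
      _ ≤ θ ^ 3 * g ^ 3 := mul_le_mul_of_nonneg_right hc (by positivity)
      _ = (θ * g) ^ 3 := by ring
  exact le_of_pow_le_pow_left₀ (by norm_num) (by positivity) h6

/-- The edges `i` of `Y` with `a i ∈ G` and `I i ⊆ G`. -/
def AG (a : ℕ → ι) (Y : Finset ℕ) (I : ℕ → Finset ι) (G : Finset ι) : Finset ℕ :=
  Y.filter (fun i => a i ∈ G ∧ I i ⊆ G)

/-- **Engine**: from small admissible sets to all admissible sets. -/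
theorem ALS.engine (h : ALS E a b P0 lab Lb R T d v A A')
    (hs : ∀ i ∈ E, ∀ w ∈ Lb, a i ∈ R w → b i ∈ R w) (hA : 0 ≤ A) {β θ τ m : ℝ}
    (hβ : 0 < β) (hθ : 0 ≤ θ) (hd : 0 ≤ d) (hτ0 : 0 < τ) (hm0 : 0 ≤ m)
    (hc : A * T ^ 2 * v ^ 2 / β + A' ≤ θ ^ 3)
    {Y : Finset ℕ} (hm : ∀ p, ((Y.filter (fun i => a i = p)).card : ℝ) ≤ m)
    {I : ℕ → Finset ι} {Tp : ℕ → Finset ℕ}
    (hTE : ∀ i ∈ Y, ∀ e ∈ Tp i, e ∈ E ∧ a e = a i) (hτ : ∀ i ∈ Y, τ ≤ ((Tp i).card : ℝ))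
    (hI : ∀ i ∈ Y, ∀ e ∈ Tp i, I i ⊆ R (lab e))
    {g ε : ℕ → ℝ} (hg : ∀ k, β * g (k + 1) ≤ g k ^ 2) (hg0 : ∀ k, 0 ≤ g k)
    (hε0 : ∀ k, 0 ≤ ε k)
    (hε : ∀ k, m * θ + d * T * ε k ≤ τ * ε (k + 1))
    (hbase : ∀ G, Adm E a b P0 G → (G.card : ℝ) ≤ g 0 → ((AG a Y I G).card : ℝ) ≤ ε 0 * G.card)
    (k : ℕ) : ∀ G, Adm E a b P0 G → (G.card : ℝ) ≤ g k →
      ((AG a Y I G).card : ℝ) ≤ ε k * G.card := by
  classical
  induction k with
  | zero => exact hbase
  | succ k ih =>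
    intro G hG hGk
    set S := AG a Y I G with hS
    have hSY : ∀ i ∈ S, i ∈ Y ∧ a i ∈ G ∧ I i ⊆ G := fun i hi => mem_filter.1 hi
    set Pi := (S ×ˢ E).filter (fun q => q.2 ∈ Tp q.1) with hPi
    have hPi1 : τ * S.card ≤ (Pi.card : ℝ) := by
      have e1 : Pi.card = ∑ i ∈ S, (Pi.filter (fun q => q.1 = i)).card :=
        card_eq_sum_card_fiberwise (fun q hq => (mem_product.1 (mem_filter.1 hq).1).1)
      rw [e1]
      push_cast
      calc τ * S.card = ∑ _i ∈ S, τ := by rw [sum_const, nsmul_eq_mul]; ring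
        _ ≤ _ := by
          apply sum_le_sum
          intro i hi
          refine (hτ i (hSY i hi).1).trans ?_
          have : (Tp i).card ≤ (Pi.filter (fun q => q.1 = i)).card := by
            apply card_le_card_of_injOn (fun e => (i, e))
            · intro e he
              have he' := hTE i (hSY i hi).1 e he
              exact mem_coe.2 (mem_filter.2 ⟨mem_filter.2 ⟨mem_product.2 ⟨hi, he'.1⟩, he⟩, rfl⟩)
            · intro e _ e' _ hee
              exact (Prod.mk.inj hee).2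
          exact_mod_cast this
    have hPim : ∀ q ∈ Pi, q.1 ∈ S ∧ q.2 ∈ E ∧ a q.2 = a q.1 ∧ q.2 ∈ Tp q.1 := by
      intro q hq
      have hq' := mem_filter.1 hq
      have h2 := mem_product.1 hq'.1
      exact ⟨h2.1, h2.2, (hTE q.1 (hSY q.1 h2.1).1 q.2 hq'.2).2, hq'.2⟩
    set F := bad E a lab R β G with hF
    have hFc : (F.card : ℝ) ≤ θ * G.card := h.pm hA hβ hθ hc hG
    set P1 := Pi.filter (fun q => q.2 ∈ F) with hP1
    set P2 := Pi.filter (fun q => q.2 ∉ F) with hP2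
    have hcov : (Pi.card : ℝ) = P1.card + P2.card := by
      have := card_filter_add_card_filter_not (s := Pi) (fun q => q.2 ∈ F)
      exact_mod_cast this.symm
    have hp1 : (P1.card : ℝ) ≤ m * (θ * G.card) := by
      refine (card_pairs_le' (F := F) (m := m) (fun q hq => (mem_filter.1 hq).2) ?_).trans
        (mul_le_mul_of_nonneg_left hFc hm0)
      intro e _
      refine le_trans ?_ (hm (a e))
      exact_mod_cast card_le_card (fun i hi => by
        obtain ⟨q, hq, rfl⟩ := mem_image.1 hi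
        have hq1 := mem_filter.1 hq
        have hq2 := hPim q (mem_filter.1 hq1.1).1
        exact mem_filter.2 ⟨(hSY _ hq2.1).1, by rw [← hq2.2.2.1, hq1.2]⟩)
    set S' := Lb.filter (fun w => ((G ∩ R w).card : ℝ) ≤ g k) with hS'
    have hp2 : (P2.card : ℝ) ≤ d * ∑ w ∈ S', ((AG a Y I (G ∩ R w)).card : ℝ) := by
      apply card_pairs_le (E := E) (a := a) (lab := lab) h.light a
      intro q hq
      have hq1 := mem_filter.1 hq
      have hq2 := hPim q hq1.1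
      have hq3 := hSY _ hq2.1
      refine ⟨hq2.2.1, hq2.2.2.1, mem_filter.2 ⟨h.labE _ hq2.2.1, ?_⟩, mem_filter.2 ⟨hq3.1,
        mem_inter.2 ⟨hq3.2.1, ?_⟩, subset_inter hq3.2.2 (hI _ hq3.1 _ hq2.2.2.2)⟩⟩
      · have he2 : ¬ (β * (G.card : ℝ) < ((G ∩ R (lab q.2)).card : ℝ) ^ 2) := by
          intro hlt
          exact hq1.2 (mem_filter.2 ⟨hq2.2.1, by rw [hq2.2.2.1]; exact hq3.2.1, hlt⟩)
        rw [not_lt] at he2
        have h3 : ((G ∩ R (lab q.2)).card : ℝ) ^ 2 ≤ g k ^ 2 :=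
          he2.trans ((mul_le_mul_of_nonneg_left hGk hβ.le).trans (hg k))
        exact le_of_pow_le_pow_left₀ (by norm_num) (hg0 k) h3
      · rw [← hq2.2.2.1]; exact h.mem _ hq2.2.1
    have hp3 : (P2.card : ℝ) ≤ d * (ε k * (T * G.card)) := by
      refine hp2.trans (mul_le_mul_of_nonneg_left ?_ hd)
      calc ∑ w ∈ S', ((AG a Y I (G ∩ R w)).card : ℝ) ≤ ∑ w ∈ S', ε k * ((G ∩ R w).card : ℝ) := by
            apply sum_le_sum
            intro w hw
            have hw' := mem_filter.1 hw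
            exact ih (G ∩ R w) (adm_inter hs hG hw'.1) hw'.2
        _ = ε k * ∑ w ∈ S', ((G ∩ R w).card : ℝ) := by rw [mul_sum]
        _ ≤ ε k * (T * G.card) := by
            apply mul_le_mul_of_nonneg_left _ (hε0 k)
            exact (sum_le_sum_of_subset_of_nonneg (filter_subset _ _)
              (fun _ _ _ => Nat.cast_nonneg _)).trans (h.sum_le hG.1)
    have hfin : τ * S.card ≤ τ * (ε (k + 1) * G.card) := by
      calc τ * S.card ≤ m * (θ * G.card) + d * (ε k * (T * G.card)) := by linarith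
        _ = (m * θ + d * T * ε k) * G.card := by ring
        _ ≤ τ * ε (k + 1) * G.card := mul_le_mul_of_nonneg_right (hε k) (Nat.cast_nonneg _)
        _ = τ * (ε (k + 1) * G.card) := by ring
    exact le_of_mul_le_mul_left hfin hτ0

/-- **P2**, set form: every edge `i` of `Y` has `≥ τ` edges `Tp i` on its line with more than
`g 0` lines in all their sets `R (lab e)`. Then `Y` is small. -/
theorem ALS.p2 (h : ALS E a b P0 lab Lb R T d v A A')
    (hs : ∀ i ∈ E, ∀ w ∈ Lb, a i ∈ R w → b i ∈ R w) (hA : 0 ≤ A) {β θ τ m : ℝ}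
    (hβ : 0 < β) (hθ : 0 ≤ θ) (hd : 0 ≤ d) (hτ0 : 0 < τ) (hm0 : 0 ≤ m)
    (hc : A * T ^ 2 * v ^ 2 / β + A' ≤ θ ^ 3)
    {Y : Finset ℕ} (hYE : Y ⊆ E) (hm : ∀ p, ((Y.filter (fun i => a i = p)).card : ℝ) ≤ m)
    {Tp : ℕ → Finset ℕ}
    (hTE : ∀ i ∈ Y, ∀ e ∈ Tp i, e ∈ E ∧ a e = a i) (hτ : ∀ i ∈ Y, τ ≤ ((Tp i).card : ℝ))
    {g ε : ℕ → ℝ} (hg : ∀ k, β * g (k + 1) ≤ g k ^ 2) (hg0 : ∀ k, 0 ≤ g k)
    (hε0 : ∀ k, 0 ≤ ε k) (hε : ∀ k, m * θ + d * T * ε k ≤ τ * ε (k + 1))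
    (hbig : ∀ i ∈ Y, g 0 < ((P0.filter (fun r => ∀ e ∈ Tp i, r ∈ R (lab e))).card : ℝ))
    {k : ℕ} (hk : (P0.card : ℝ) ≤ g k) : (Y.card : ℝ) ≤ ε k * P0.card := by
  classical
  set I : ℕ → Finset ι := fun i => P0.filter (fun r => ∀ e ∈ Tp i, r ∈ R (lab e)) with hI
  have h1 := h.engine hs hA hβ hθ hd hτ0 hm0 hc hm hTE hτ (I := I)
    (fun i _ e he r hr => (mem_filter.1 hr).2 e he) hg hg0 hε0 hε
    (fun G _ hG0 => by
      have : AG a Y I G = ∅ := by
        rw [AG, filter_eq_empty_iff]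
        rintro i hi ⟨_, hIG⟩
        have h2 : ((I i).card : ℝ) ≤ G.card := by exact_mod_cast card_le_card hIG
        linarith [hbig i hi]
      rw [this, card_empty, Nat.cast_zero]
      exact mul_nonneg (hε0 0) (Nat.cast_nonneg _)) k P0 h.adm_top hk
  refine le_trans ?_ h1
  apply le_of_eq
  congr 1
  congr 1
  symm
  rw [AG, filter_eq_self]
  intro i hi
  exact ⟨h.aP i (hYE hi), filter_subset _ _⟩

/-- **PLANKS**, set form: labels `lab` (sets `R`) and labels `lab'` (sets `R'`). -/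
theorem ALS.planks (h : ALS E a b P0 lab Lb R T d v A A')
    (hs : ∀ i ∈ E, ∀ w ∈ Lb, a i ∈ R w → b i ∈ R w) (hA : 0 ≤ A) {β θ τ m : ℝ}
    (hβ : 0 < β) (hθ : 0 ≤ θ) (hd : 0 ≤ d) (hτ0 : 0 < τ) (hm0 : 0 ≤ m)
    (hc : A * T ^ 2 * v ^ 2 / β + A' ≤ θ ^ 3)
    {lab' : ℕ → δ} {Lb' : Finset δ} {R' : δ → Finset ι} {T' d' v' B B' β' θ' : ℝ}
    (h' : ALS E a b P0 lab' Lb' R' T' d' v' B B') (hB : 0 ≤ B) (hβ' : 0 < β') (hθ' : 0 ≤ θ')
    (hc' : B * T' ^ 2 * v' ^ 2 / β' + B' ≤ θ' ^ 3)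
    {Y : Finset ℕ} (hYE : Y ⊆ E) (hm : ∀ p, ((Y.filter (fun i => a i = p)).card : ℝ) ≤ m)
    {Tp : ℕ → Finset ℕ}
    (hTE : ∀ i ∈ Y, ∀ e ∈ Tp i, e ∈ E ∧ a e = a i) (hτ : ∀ i ∈ Y, τ ≤ ((Tp i).card : ℝ))
    {g ε : ℕ → ℝ} (hg : ∀ k, β * g (k + 1) ≤ g k ^ 2) (hg0 : ∀ k, 0 ≤ g k)
    (hε0 : ∀ k, 0 ≤ ε k) (hε : ∀ k, m * θ + d * T * ε k ≤ τ * ε (k + 1)) (hε1 : θ' ≤ ε 0)
    {G0 : ℝ} (hG1 : β' * g 0 ≤ G0)
    (hbig : ∀ i ∈ Y,
      G0 < ((P0.filter (fun r => (∀ e ∈ Tp i, r ∈ R (lab e)) ∧ r ∈ R' (lab' i))).card : ℝ) ^ 2)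
    {k : ℕ} (hk : (P0.card : ℝ) ≤ g k) : (Y.card : ℝ) ≤ ε k * P0.card := by
  classical
  set I : ℕ → Finset ι := fun i => P0.filter (fun r => ∀ e ∈ Tp i, r ∈ R (lab e)) with hI
  have h1 := h.engine hs hA hβ hθ hd hτ0 hm0 hc hm hTE hτ (I := I)
    (fun i _ e he r hr => (mem_filter.1 hr).2 e he) hg hg0 hε0 hε
    (fun G hG hGg => by
      set S := AG a Y I G with hS
      have hUF : S ⊆ bad E a lab' R' β' G := by
        intro i hi
        have h2 := mem_filter.1 hi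
        refine mem_filter.2 ⟨hYE h2.1, h2.2.1, ?_⟩
        have h4 : (P0.filter (fun r => (∀ e ∈ Tp i, r ∈ R (lab e)) ∧ r ∈ R' (lab' i))) ⊆
            G ∩ R' (lab' i) := by
          intro r hr
          have hr' := mem_filter.1 hr
          exact mem_inter.2 ⟨h2.2.2 (mem_filter.2 ⟨hr'.1, hr'.2.1⟩), hr'.2.2⟩
        calc β' * (G.card : ℝ) ≤ β' * g 0 := mul_le_mul_of_nonneg_left hGg hβ'.le
          _ ≤ G0 := hG1
          _ < _ := hbig i h2.1
          _ ≤ _ := pow_le_pow_left₀ (Nat.cast_nonneg _) (by exact_mod_cast card_le_card h4) 2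
      have hUc : (S.card : ℝ) ≤ ((bad E a lab' R' β' G).card : ℝ) := by
        exact_mod_cast card_le_card hUF
      exact hUc.trans ((h'.pm hB hβ' hθ' hc' hG).trans
        (mul_le_mul_of_nonneg_right hε1 (Nat.cast_nonneg _)))) k P0 h.adm_top hk
  refine le_trans ?_ h1
  apply le_of_eq
  congr 1
  congr 1
  symm
  rw [AG, filter_eq_self]
  intro i hi
  exact ⟨h.aP i (hYE hi), filter_subset _ _⟩

end

end Pool.Agent.Work.MP_e17eac_co.HSB
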