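import Pool.Agent.Work.MP_e17eac_co.HS.P_Inst

/-!
# HS: P2, PLANKS in hereditary form
-/

namespace Pool.Agent.Work.MP_e17eac_co.HS

open Finset
open Pool.Agent.Work.MP_e17eac_co.DH
open Pool.Agent.Work.MP_e17eac_co.B1
open Pool.Agent.Work.MP_e17eac_co.HSB

namespace XB

variable {ι α : Type} [Fintype ι] [DecidableEq ι] [DecidableEq α]
  {K : KSys ι} {b M J : ℕ} {e ec : ℕ → ℕ} {D : ℝ} {L : Lb α} {E : Finset ℕ}

/-! ### Cut edges -/

open Classical in
/-- The edges of `E` cut by a set `RR` of level `z`. -/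
noncomputable def cutE (K : KSys ι) (b : ℕ) (L : Lb α) (E : Finset ℕ) (z : ℕ) : Finset ℕ :=
  E.filter (fun n => ∃ i ∈ E, ¬ (K.a n ∈ RR K b L z i ↔ K.b n ∈ RR K b L z i))

lemma cutE_le (hCut : StCut) (h : LS K b M J e ec D L E) {z : ℕ} (hz : z ≤ J) :
    ((cutE K b L E z).card : ℝ) ≤ 16 * D * (Fintype.card ι * (b : ℝ) ^ (4 * M)) := by
  classical
  have hb1 : 1 ≤ b := by have := h.lev.two; omega
  set G : α → Finset ℕ := fun u => (range K.N).filter
    (fun n => ¬ (K.a n ∈ RL K b L u ↔ K.b n ∈ RL K b L u)) with hG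
  have h1 : cutE K b L E z ⊆ (E.image (L.lab z)).biUnion G := by
    intro n hn
    obtain ⟨hn1, i, hi, hn2⟩ := mem_filter.1 hn
    exact mem_biUnion.2 ⟨L.lab z i, mem_image_of_mem _ hi,
      mem_filter.2 ⟨mem_range.2 (h.hyg n hn1).lt, hn2⟩⟩
  have h2 : ((cutE K b L E z).card : ℝ) ≤ ∑ u ∈ E.image (L.lab z), ((G u).card : ℝ) := by
    exact_mod_cast (card_le_card h1).trans card_biUnion_le
  have h3 : ∑ u ∈ E.image (L.lab z), ((G u).card : ℝ) ≤
      ((E.image (L.lab z)).card : ℝ) * (16 * Fintype.card ι) := by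
    calc ∑ u ∈ E.image (L.lab z), ((G u).card : ℝ)
        ≤ ∑ _u ∈ E.image (L.lab z), (16 * (Fintype.card ι : ℝ)) := by
          apply sum_le_sum
          intro u hu
          obtain ⟨i, hi, rfl⟩ := mem_image.1 hu
          have h4 := hCut ι α K b L z i
          have h5 : (G (L.lab z i)).card ≤ 16 * Fintype.card ι := by
            refine le_trans (card_le_card ?_) h4
            intro n hn
            have hn' := mem_filter.1 hn
            exact mem_filter.2 ⟨hn'.1, hn'.2⟩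
          exact_mod_cast h5
      _ = _ := by rw [sum_const, nsmul_eq_mul]
  have h4 : ((E.image (L.lab z)).card : ℝ) ≤ (b : ℝ) ^ (4 * e z) * D := by
    have h5 : E.image (L.lab z) ⊆ (range (b ^ (4 * e z))).biUnion
        (fun c => (E.filter (fun i => cell K b (e z) i = c)).image (L.lab z)) := by
      intro u hu
      obtain ⟨i, hi, rfl⟩ := mem_image.1 hu
      obtain ⟨hlt, -⟩ := I_CELL ι K b (e z) hb1
      exact mem_biUnion.2 ⟨cell K b (e z) i, mem_range.2 (hlt i (h.hyg i hi).lt),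
        mem_image.2 ⟨i, mem_filter.2 ⟨hi, rfl⟩, rfl⟩⟩
    have h6 : ((E.image (L.lab z)).card : ℝ) ≤ ∑ c ∈ range (b ^ (4 * e z)),
        (((E.filter (fun i => cell K b (e z) i = c)).image (L.lab z)).card : ℝ) := by
      exact_mod_cast (card_le_card h5).trans card_biUnion_le
    refine h6.trans ?_
    calc ∑ c ∈ range (b ^ (4 * e z)),
          (((E.filter (fun i => cell K b (e z) i = c)).image (L.lab z)).card : ℝ)
        ≤ ∑ _c ∈ range (b ^ (4 * e z)), D := sum_le_sum (fun c _ => h.few z hz c)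
      _ = (b : ℝ) ^ (4 * e z) * D := by
          rw [sum_const, nsmul_eq_mul, card_range]; push_cast; ring
  have h5 : (b : ℝ) ^ (4 * e z) ≤ (b : ℝ) ^ (4 * M) :=
    pow_le_pow_right₀ (by exact_mod_cast hb1) (by have := e_le_M h.lev hz; omega)
  have hD := D_one h
  have hn := n_pos h
  calc ((cutE K b L E z).card : ℝ) ≤ ((E.image (L.lab z)).card : ℝ) * (16 * Fintype.card ι) :=
        h2.trans h3
    _ ≤ ((b : ℝ) ^ (4 * e z) * D) * (16 * Fintype.card ι) :=
        mul_le_mul_of_nonneg_right h4 (by positivity)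
    _ ≤ ((b : ℝ) ^ (4 * M) * D) * (16 * Fintype.card ι) :=
        mul_le_mul_of_nonneg_right (mul_le_mul_of_nonneg_right h5 (by linarith)) (by positivity)
    _ = _ := by ring

/-- Uncut edges. -/
lemma uncut {E' : Finset ℕ} {z : ℕ} (hE' : E' ⊆ E \ cutE K b L E z) {x w : ℕ} :
    ∀ i ∈ E'.filter (fun i => cell K b x i = w),
      ∀ u ∈ (E.filter (fun i => cell K b x i = w)).image (L.lab z),
      K.a i ∈ RL K b L u → K.b i ∈ RL K b L u := by
  intro i hi u hu ha
  obtain ⟨i0, hi0, rfl⟩ := mem_image.1 hu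
  have h1 := mem_sdiff.1 (hE' (mem_filter.1 hi).1)
  by_contra hc
  apply h1.2
  refine mem_filter.2 ⟨h1.1, i0, (mem_filter.1 hi0).1, ?_⟩
  intro hiff
  exact hc (hiff.1 ha)

/-! ### Sums over windows -/

lemma sum_ps (h : LS K b M J e ec D L E) {x : ℕ} (hx : x ≤ J) {X : Finset ℕ} (hX : X ⊆ E) :
    ∑ w ∈ X.image (cell K b (e x)), ((PSr K b M D (e x) w).card : ℝ) ≤
      D * (Fintype.card ι * (b : ℝ) ^ (e x)) := by
  have hb1 : 1 ≤ b := by have := h.lev.two; omega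
  have hBp := b_pos h (e x)
  have hD := D_one h
  have hn := n_pos h
  have h1 : ((X.image (cell K b (e x))).card : ℝ) ≤ ((b : ℝ) ^ (e x)) ^ 4 := by
    obtain ⟨hlt, -⟩ := I_CELL ι K b (e x) hb1
    have : (X.image (cell K b (e x))).card ≤ b ^ (4 * e x) := by
      refine le_trans (card_le_card (t := range (b ^ (4 * e x))) ?_) (card_range _).le
      intro w hw
      obtain ⟨i, hi, rfl⟩ := mem_image.1 hw
      exact mem_range.2 (hlt i (h.hyg i (hX hi)).lt)
    rw [← pow_mul, mul_comm (e x) 4]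
    exact_mod_cast this
  calc ∑ w ∈ X.image (cell K b (e x)), ((PSr K b M D (e x) w).card : ℝ)
      ≤ ∑ _w ∈ X.image (cell K b (e x)), D * Fintype.card ι / ((b : ℝ) ^ (e x)) ^ 3 := by
        apply sum_le_sum
        intro w hw
        obtain ⟨i, hi, rfl⟩ := mem_image.1 hw
        refine le_trans ?_ (vis_le h hx (hX hi))
        exact_mod_cast card_le_card (filter_subset _ _)
    _ = ((X.image (cell K b (e x))).card : ℝ) * (D * Fintype.card ι / ((b : ℝ) ^ (e x)) ^ 3) := by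
        rw [sum_const, nsmul_eq_mul]
    _ ≤ ((b : ℝ) ^ (e x)) ^ 4 * (D * Fintype.card ι / ((b : ℝ) ^ (e x)) ^ 3) :=
        mul_le_mul_of_nonneg_right h1 (by positivity)
    _ = D * (Fintype.card ι * (b : ℝ) ^ (e x)) := by field_simp

lemma sum_win (h : LS K b M J e ec D L E) {x : ℕ} (hx : x ≤ J) {X : Finset ℕ} (hX : X ⊆ E)
    {c : ℝ} (hc : 0 ≤ c) (hw : ∀ w, ((X.filter (fun i => cell K b (e x) i = w)).card : ℝ) ≤
      c * (PSr K b M D (e x) w).card) :
    (X.card : ℝ) ≤ c * (D * (Fintype.card ι * (b : ℝ) ^ (e x))) := by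
  have h1 : X.card = ∑ w ∈ X.image (cell K b (e x)),
      (X.filter (fun i => cell K b (e x) i = w)).card :=
    card_eq_sum_card_fiberwise (fun i hi => mem_image_of_mem _ hi)
  rw [h1]
  push_cast
  calc ∑ w ∈ X.image (cell K b (e x)), ((X.filter (fun i => cell K b (e x) i = w)).card : ℝ)
      ≤ ∑ w ∈ X.image (cell K b (e x)), c * ((PSr K b M D (e x) w).card : ℝ) :=
        sum_le_sum (fun w _ => hw w)
    _ = c * ∑ w ∈ X.image (cell K b (e x)), ((PSr K b M D (e x) w).card : ℝ) := by rw [mul_sum]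
    _ ≤ _ := mul_le_mul_of_nonneg_left (sum_ps h hx hX) hc

/-- Edges per line in a window. -/
lemma line_le (h : LS K b M J e ec D L E) {x : ℕ} (hx : x ≤ J) {Y : Finset ℕ} (hY : Y ⊆ E)
    {w : ℕ} (hw : ∀ i ∈ Y, cell K b (e x) i = w) (p : ι) :
    ((Y.filter (fun i => K.a i = p)).card : ℝ) ≤
      D * (K.N / (Fintype.card ι * (b : ℝ) ^ (e x))) := by
  have hBp := b_pos h (e x)
  have hD := D_one h
  have hn := n_pos h
  rcases Finset.eq_empty_or_nonempty (Y.filter (fun i => K.a i = p)) with he | ⟨i0, hi0⟩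
  · rw [he, card_empty, Nat.cast_zero]
    positivity
  have h0 := mem_filter.1 hi0
  rw [← mul_div_assoc]
  refine le_trans ?_ (light_le h hx (hY h0.1))
  exact_mod_cast card_le_card (fun i hi => by
    have hi1 := mem_filter.1 hi
    exact mem_filter.2 ⟨mem_range.2 (h.hyg i (hY hi1.1)).lt, by rw [hi1.2, h0.2],
      by rw [hw i hi1.1, hw i0 h0.1]⟩)

/-- Few edges `F` => few edges `i` with many edges of `F` on their line in their window. -/
lemma many_le (h : LS K b M J e ec D L E) {x : ℕ} (hx : x ≤ J) {F : Finset ℕ}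
    (τ : ℝ) : (((E.filter (fun i => τ ≤ ((EE K b (e x) F i).card : ℝ))).card : ℝ)) * τ ≤
      F.card * (D * (K.N / (Fintype.card ι * (b : ℝ) ^ (e x)))) := by
  set X := E.filter (fun i => τ ≤ ((EE K b (e x) F i).card : ℝ)) with hX
  calc (X.card : ℝ) * τ = ∑ _i ∈ X, τ := by rw [sum_const, nsmul_eq_mul]
    _ ≤ ∑ i ∈ X, ((EE K b (e x) F i).card : ℝ) := sum_le_sum (fun i hi => (mem_filter.1 hi).2)
    _ = ∑ j ∈ F, ((X.filter (fun i => K.a j = K.a i ∧
          cell K b (e x) j = cell K b (e x) i)).card : ℝ) := by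
        have := Finset.sum_card_bipartiteAbove_eq_sum_card_bipartiteBelow (s := X) (t := F)
          (fun i j => K.a j = K.a i ∧ cell K b (e x) j = cell K b (e x) i)
        simp only [Finset.bipartiteAbove, Finset.bipartiteBelow] at this
        exact_mod_cast this
    _ ≤ ∑ _j ∈ F, D * (K.N / (Fintype.card ι * (b : ℝ) ^ (e x))) := by
        apply sum_le_sum
        intro j hj
        have h1 := line_le h hx (Y := (E.filter (fun i => cell K b (e x) i = cell K b (e x) j)))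
          (filter_subset _ _) (fun i hi => (mem_filter.1 hi).2) (K.a j)
        refine le_trans ?_ h1
        exact_mod_cast card_le_card (fun i hi => by
          have hi1 := mem_filter.1 hi
          exact mem_filter.2 ⟨mem_filter.2 ⟨(mem_filter.1 hi1.1).1, hi1.2.2.symm⟩, hi1.2.1.symm⟩)
    _ = _ := by rw [sum_const, nsmul_eq_mul]

/-! ### Numbers -/

/-- Consequences of `Bg` (`y = D / ε`, `P = y ^ (k + 1)`). -/
structure Nm (D ε ρ nB N y P : ℝ) (k : ℕ) : Prop where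
  hD : (2 : ℝ) ^ 64 ≤ D
  ep : 0 < ε
  e1 : ε ≤ 1
  Dy : D ≤ y
  ey : ε * y = D
  Py : y ^ k * y = P
  yP : y ≤ P
  rho : P ^ 200 ≤ ρ
  nn : P ^ 200 * nB ≤ N

lemma nm (h : LS K b M J e ec D L E) {ε ρ : ℝ} {k : ℕ} (hB : Bg K b M J e D ε ρ k 200) :
    Nm D ε ρ (Fintype.card ι * (b : ℝ) ^ (5 * M)) K.N (D / ε) ((D / ε) ^ (k + 1)) k := by
  have hD := D_one h
  have hy : 1 ≤ D / ε := by
    rw [le_div_iff₀ hB.ep]; linarith [hB.e1]
  have hP : (D / ε) ^ (200 * (k + 1)) = ((D / ε) ^ (k + 1)) ^ 200 := by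
    rw [← pow_mul, mul_comm]
  refine ⟨D_big h, hB.ep, hB.e1, ?_, ?_, ?_, ?_, ?_, ?_⟩
  · rw [le_div_iff₀ hB.ep]; nlinarith [hB.e1]
  · field_simp [hB.ep.ne']
  · rw [pow_succ]
  · calc D / ε = (D / ε) ^ 1 := by rw [pow_one]
      _ ≤ (D / ε) ^ (k + 1) := pow_le_pow_right₀ hy (by omega)
  · rw [← hP]; exact hB.rho
  · rw [← hP]; exact hB.nn

namespace Nm

variable {ε ρ nB N y P : ℝ} {k : ℕ} {D : ℝ}

lemma D1 (h : Nm D ε ρ nB N y P k) : 1 ≤ D := by
  have := h.hD; norm_num at this; linarith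

lemma y64 (h : Nm D ε ρ nB N y P k) : (2 : ℝ) ^ 64 ≤ y := h.hD.trans h.Dy

lemma y1 (h : Nm D ε ρ nB N y P k) : 1 ≤ y := h.D1.trans h.Dy

lemma P1 (h : Nm D ε ρ nB N y P k) : 1 ≤ P := h.y1.trans h.yP

lemma yk1 (h : Nm D ε ρ nB N y P k) : 1 ≤ y ^ k := one_le_pow₀ h.y1

lemma ykP (h : Nm D ε ρ nB N y P k) : y ^ k ≤ P := by
  rw [← h.Py]
  exact le_mul_of_one_le_right (by linarith [h.yk1]) h.y1

lemma pw (h : Nm D ε ρ nB N y P k) {a c : ℕ} (hac : a ≤ c) : P ^ a ≤ P ^ c :=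
  pow_le_pow_right₀ h.P1 hac

/-- `y ^ a ≤ P ^ a`. -/
lemma yPa (h : Nm D ε ρ nB N y P k) (a : ℕ) : y ^ a ≤ P ^ a :=
  pow_le_pow_left₀ (by linarith [h.y1]) h.yP a

lemma DPa (h : Nm D ε ρ nB N y P k) (a : ℕ) : D ^ a ≤ P ^ a :=
  pow_le_pow_left₀ (by linarith [h.D1]) (h.Dy.trans h.yP) a

lemma rho1 (h : Nm D ε ρ nB N y P k) : 1 ≤ ρ := (one_le_pow₀ h.P1).trans h.rho

end Nm

end XB

end Pool.Agent.Work.MP_e17eac_co.HS
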