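import Pool.Agent.Work.MP_e17eac_co.HS.StB
import Pool.Agent.Work.MP_e17eac_co.Bd.B08
import Pool.Agent.Work.MP_e17eac_co.Bd.B31

/-!
# HS: closure of the sets `RR` and their multiplicity
-/

namespace Pool.Agent.Work.MP_e17eac_co.HS

open Finset
open Pool.Agent.Work.MP_e17eac_co.DH
open Pool.Agent.Work.MP_e17eac_co.B1

namespace XB

variable {ι α : Type} [Fintype ι] [DecidableEq ι] [DecidableEq α]

open Classical in
/-- The set of lines of a label. -/
noncomputable def RL (K : KSys ι) (b : ℕ) (L : Lb α) (u : α) : Finset ι :=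
  univ.filter (fun q => |K.ht q (L.h0 u) - L.c0 u| ≤ Th b * L.rho u ∧
    |K.ht q (L.h1 u) - L.c1 u| ≤ Th b * L.rho u)

omit [DecidableEq α] in
lemma RR_eq (K : KSys ι) (b : ℕ) (L : Lb α) (j i : ℕ) : RR K b L j i = RL K b L (L.lab j i) := rfl

lemma e_mono {b M J : ℕ} {e ec : ℕ → ℕ} (h : Lev b M J e ec) {j j' : ℕ} (hj : j ≤ j')
    (hJ : j' ≤ J) : e j ≤ e j' := by
  induction j', hj using Nat.le_induction with
  | base => exact le_rfl
  | succ k hk ih =>
    have h1 := h.child k (by omega)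
    have h2 := h.next k (by omega)
    have := ih (by omega)
    omega

lemma e_le_M {b M J : ℕ} {e ec : ℕ → ℕ} (h : Lev b M J e ec) {j : ℕ} (hj : j ≤ J) :
    e j ≤ M := by
  have := h.child j hj
  omega

lemma Th_one {b : ℕ} (hb : 2 ≤ b) : (2 : ℝ) ^ 64 ≤ Th b := by
  unfold Th
  exact pow_le_pow_left₀ (by norm_num) (by exact_mod_cast hb) 64

/-- Lines which are not visited keep their side. -/
theorem unvis (K : KSys ι) {p q : ℕ} (hq : q ≤ K.N) {i : ι} (hi : i ∉ K.lines (Ico p q)) :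
    ∀ n, p ≤ n → n ≤ q → (i ∈ K.S n ↔ i ∈ K.S p) := by
  intro n hpn
  induction n, hpn using Nat.le_induction with
  | base => intro _; rfl
  | succ n hpn ih =>
    intro hn
    rw [← ih (by omega), K.S_succ n (by omega), mem_insert, mem_erase]
    have h1 : i ≠ K.b n := fun h => hi (by
      rw [KSys.lines, mem_union]
      exact Or.inr (mem_image.2 ⟨n, mem_Ico.2 ⟨hpn, by omega⟩, h.symm⟩))
    have h2 : i ≠ K.a n := fun h => hi (by
      rw [KSys.lines, mem_union]
      exact Or.inl (mem_image.2 ⟨n, mem_Ico.2 ⟨hpn, by omega⟩, h.symm⟩))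
    simp only [h1, h2, false_or, ne_eq, not_false_eq_true, true_and]

lemma lines_mono (K : KSys ι) {E F : Finset ℕ} (h : E ⊆ F) : K.lines E ⊆ K.lines F :=
  union_subset_union (image_subset_image h) (image_subset_image h)

/-- A line strictly below the level at `s` and strictly above it at `s'`, both times between the
edges `k` and `l`, is visited by the edges `k, ..., l`. -/
theorem visited (K : KSys ι) {k l : ℕ} (hl : l < K.N) {q : ι} {s s' : ℝ}
    (h1 : K.t k ≤ s) (h2 : s ≤ K.t l) (h3 : K.t k ≤ s') (h4 : s' ≤ K.t l)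
    (hb : K.ht q s < K.L s) (ha : K.L s' < K.ht q s') (hk : k < K.N) :
    q ∈ K.lines (Ico k (l + 1)) := by
  obtain ⟨hV, hlt, -, -⟩ := I_IDX ι K
  by_contra hq
  have key : ∀ u, K.t k ≤ u → u ≤ K.t l → k ≤ K.idx u ∧ K.idx u ≤ l + 1 := by
    intro u hu1 hu2
    constructor
    · by_contra hc
      push Not at hc
      have : ¬ (K.idx u < K.idx u) := lt_irrefl _
      apply this
      rw [hlt]
      exact ⟨hc.trans hk, lt_of_lt_of_le (K.t_lt _ _ hc hk) hu1⟩
    · by_contra hc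
      push Not at hc
      have h5 : l < K.idx u := by omega
      rw [hlt] at h5
      linarith [h5.2]
  have k1 := key s h1 h2
  have k2 := key s' h3 h4
  have u1 := unvis K (by omega : l + 1 ≤ K.N) hq _ k1.1 k1.2
  have u2 := unvis K (by omega : l + 1 ≤ K.N) hq _ k2.1 k2.2
  have m1 : q ∈ K.S (K.idx s) := by
    by_contra hc
    have hv := hV s
    have := K.above _ hv.1 s hv.2.1 hv.2.2 q hc
    unfold KSys.ht at hb
    linarith
  have m2 : q ∉ K.S (K.idx s') := by
    intro hc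
    have hv := hV s'
    have := K.below _ hv.1 s' hv.2.1 hv.2.2 q hc
    unfold KSys.ht at ha
    linarith
  exact m2 (u2.2 (u1.1 m1))

lemma abs_interp {A B u0 u1 δ w : ℝ} (hδ : 0 < δ) (h0 : |A| ≤ w) (h1 : |B| ≤ w)
    (hu0 : 0 ≤ u0) (hu1 : 0 ≤ u1) (hs : u0 + u1 = δ) : |(A * u1 + B * u0) / δ| ≤ w := by
  rw [abs_div, abs_of_pos hδ, div_le_iff₀ hδ]
  calc |A * u1 + B * u0| ≤ |A * u1| + |B * u0| := abs_add_le _ _
    _ = |A| * u1 + |B| * u0 := by rw [abs_mul, abs_mul, abs_of_nonneg hu1, abs_of_nonneg hu0]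
    _ ≤ w * u1 + w * u0 :=
        add_le_add (mul_le_mul_of_nonneg_right h0 hu1) (mul_le_mul_of_nonneg_right h1 hu0)
    _ = w * δ := by rw [← hs]; ring

/-- Two lines which are close at both ends of an interval are close in the interval. -/
lemma ht_interp (K : KSys ι) {p q : ι} {x0 x1 s w : ℝ} (hx : x0 < x1) (h0 : x0 ≤ s) (h1 : s ≤ x1)
    (hp : |K.ht q x0 - K.ht p x0| ≤ w) (hq : |K.ht q x1 - K.ht p x1| ≤ w) :
    |K.ht q s - K.ht p s| ≤ w := by
  have hδ : 0 < x1 - x0 := by linarith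
  have h := abs_interp (δ := x1 - x0) (u0 := s - x0) (u1 := x1 - s) hδ hp hq (by linarith)
    (by linarith) (by ring)
  have e : ((K.ht q x0 - K.ht p x0) * (x1 - s) + (K.ht q x1 - K.ht p x1) * (s - x0)) / (x1 - x0) =
      K.ht q s - K.ht p s := by
    unfold KSys.ht
    field_simp
    ring
  rwa [e] at h

end XB

open XB

theorem I_Clo : StClo := by
  intro ι α _ _ _ K b M J e ec D L E h j hj i hi q hq
  obtain ⟨hq0, hq1⟩ := (mem_filter.1 hq).2
  obtain ⟨hc0, hc1⟩ := h.cls j hj i hi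
  obtain ⟨s, s', hs1, hs2, hs3, hs4, hs5, hs6⟩ := h.sgn j hj i hi
  obtain ⟨k, l, hk, hl, hck, hcl, hk0, hl0⟩ := h.span j hj i hi
  have hρ := h.pos j hj i hi
  have hlt := h.lt j hj i hi
  have hTh := Th_one h.lev.two
  set u := L.lab j i with hu
  have hTρ : L.rho u / 2 < Th b * L.rho u := by nlinarith
  have w0 : |K.ht q (L.h0 u) - K.ht (K.a i) (L.h0 u)| ≤ Th b * L.rho u + L.rho u / 2 := by
    have := abs_sub_le (K.ht q (L.h0 u)) (L.c0 u) (K.ht (K.a i) (L.h0 u))
    rw [abs_sub_comm (L.c0 u)] at this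
    linarith
  have w1 : |K.ht q (L.h1 u) - K.ht (K.a i) (L.h1 u)| ≤ Th b * L.rho u + L.rho u / 2 := by
    have := abs_sub_le (K.ht q (L.h1 u)) (L.c1 u) (K.ht (K.a i) (L.h1 u))
    rw [abs_sub_comm (L.c1 u)] at this
    linarith
  have v1 := abs_le.1 (ht_interp K hlt hs1 hs2 w0 w1)
  have v2 := abs_le.1 (ht_interp K hlt hs3 hs4 w0 w1)
  have hTpos : 0 < Th b * L.rho u := by
    apply mul_pos _ hρ
    linarith [pow_pos (show (0 : ℝ) < 2 by norm_num) 64]
  have hvis := visited K hl (q := q) (s := s) (s' := s') (by linarith) (by linarith)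
    (by linarith) (by linarith) (by linarith [v1.2]) (by linarith [v2.1]) hk
  have hsub : Ico k (l + 1) ⊆ ce K b (e j) (cell K b (e j) i) := by
    intro n hn
    rw [mem_Ico] at hn
    obtain ⟨-, hmono, -⟩ := I_CELL ι K b (e j) (by have := h.lev.two; omega)
    refine mem_filter.2 ⟨mem_range.2 (by omega), le_antisymm ?_ ?_⟩
    · rw [← hcl]; exact hmono _ _ (by omega)
    · rw [← hck]; exact hmono _ _ hn.1
  exact lines_mono K hsub hvis

theorem I_Cov : StCov := by
  classical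
  intro ι α _ _ _ K b M J e ec D L E h x z hxz hz w q hq
  obtain ⟨hq1, hq2⟩ := mem_filter.1 hq
  have hem := e_mono h.lev hxz hz
  have hW := hq2 (e z) hem (e_le_M h.lev hz)
  have hb1 : 1 ≤ b := by have := h.lev.two; omega
  have hbR : (0 : ℝ) < b := by exact_mod_cast hb1
  have hD : 0 ≤ D := by
    have := Th_one h.lev.two
    have := h.bD
    linarith [pow_pos (show (0 : ℝ) < 2 by norm_num) 64]
  set F := E.filter (fun i => cell K b (e x) i = w ∧ q ∈ RR K b L z i) with hF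
  set CC := (range (b ^ (4 * e z))).filter
    (fun v => v / b ^ (4 * (e z - e x)) = w ∧ q ∈ vis K b (e z) v) with hCC
  have hWr : (CC.card : ℝ) ≤ D * (b : ℝ) ^ (e z - e x) := hW
  have hFc : ∀ i ∈ F, cell K b (e z) i ∈ CC := by
    intro i hi
    have hi' := mem_filter.1 hi
    have hiN := (h.hyg i hi'.1).lt
    obtain ⟨hlt, -, -, -⟩ := I_CELL ι K b (e z) hb1
    obtain ⟨-, -, hn, -⟩ := I_CELL ι K b (e z) hb1
    refine mem_filter.2 ⟨mem_range.2 (hlt i hiN), ?_, ?_⟩
    · rw [← hn (e x) hem i]; exact hi'.2.1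
    · exact I_Clo ι α K b M J e ec D L E h z hz i hi'.1 hi'.2.2
  have h1 : ((F.image (L.lab z)).card : ℝ) ≤ CC.card * D := by
    have h2 : F.image (L.lab z) ⊆ CC.biUnion (fun v =>
        (E.filter (fun i => cell K b (e z) i = v)).image (L.lab z)) := by
      intro u hu
      obtain ⟨i, hi, rfl⟩ := mem_image.1 hu
      exact mem_biUnion.2 ⟨_, hFc i hi, mem_image.2 ⟨i, mem_filter.2 ⟨(mem_filter.1 hi).1, rfl⟩,
        rfl⟩⟩
    have h3 : ((F.image (L.lab z)).card : ℝ) ≤ ∑ v ∈ CC,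
        (((E.filter (fun i => cell K b (e z) i = v)).image (L.lab z)).card : ℝ) := by
      exact_mod_cast (card_le_card h2).trans card_biUnion_le
    refine h3.trans ?_
    calc ∑ v ∈ CC, (((E.filter (fun i => cell K b (e z) i = v)).image (L.lab z)).card : ℝ)
        ≤ ∑ _v ∈ CC, D := sum_le_sum (fun v _ => h.few z hz v)
      _ = CC.card * D := by rw [sum_const, nsmul_eq_mul]
  have h4 : (b : ℝ) ^ (e z - e x) * (b : ℝ) ^ (e x) = (b : ℝ) ^ (e z) := by
    rw [← pow_add]; congr 1; omega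
  calc ((F.image (L.lab z)).card : ℝ) * (b : ℝ) ^ (e x)
      ≤ (CC.card * D) * (b : ℝ) ^ (e x) := mul_le_mul_of_nonneg_right h1 (by positivity)
    _ ≤ ((D * (b : ℝ) ^ (e z - e x)) * D) * (b : ℝ) ^ (e x) := by
        apply mul_le_mul_of_nonneg_right _ (by positivity)
        exact mul_le_mul_of_nonneg_right hWr hD
    _ = D ^ 2 * ((b : ℝ) ^ (e z - e x) * (b : ℝ) ^ (e x)) := by ring
    _ = D ^ 2 * (b : ℝ) ^ (e z) := by rw [h4]

end Pool.Agent.Work.MP_e17eac_co.HS
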