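import Pool.Agent.Work.MP_e17eac_co.HS.Nest
import Pool.Agent.Work.MP_e17eac_co.HS.P_Clo

/-!
# HS: the label systems as instances of the abstract structure `ALS`; the PM lemma
-/

namespace Pool.Agent.Work.MP_e17eac_co.HS

open Finset
open Pool.Agent.Work.MP_e17eac_co.DH
open Pool.Agent.Work.MP_e17eac_co.B1
open Pool.Agent.Work.MP_e17eac_co.HSB

namespace XB

variable {ι α : Type} [Fintype ι] [DecidableEq ι] [DecidableEq α]
  {K : KSys ι} {b M J : ℕ} {e ec : ℕ → ℕ} {D : ℝ} {L : Lb α} {E : Finset ℕ}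

lemma D_big (h : LS K b M J e ec D L E) : (2 : ℝ) ^ 64 ≤ D := (Th_one h.lev.two).trans h.bD

lemma D_one (h : LS K b M J e ec D L E) : (1 : ℝ) ≤ D := by
  have := D_big h
  norm_num at this
  linarith

lemma n_pos (_h : LS K b M J e ec D L E) : (0 : ℝ) < Fintype.card ι := by
  have : 0 < Fintype.card ι := Fintype.card_pos_iff.2 ⟨K.a 0⟩
  exact_mod_cast this

lemma b_pos (h : LS K b M J e ec D L E) (x : ℕ) : (0 : ℝ) < (b : ℝ) ^ x := by
  have := h.lev.two
  have : (0 : ℝ) < b := by exact_mod_cast (by omega : 0 < b)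
  positivity

lemma a_mem (h : LS K b M J e ec D L E) {z : ℕ} (hz : z ≤ J) {i : ℕ} (hi : i ∈ E) :
    K.a i ∈ RR K b L z i := by
  obtain ⟨h0, h1⟩ := h.cls z hz i hi
  have hρ := h.pos z hz i hi
  have hTh := Th_one h.lev.two
  have : L.rho (L.lab z i) / 2 ≤ Th b * L.rho (L.lab z i) := by nlinarith
  exact mem_filter.2 ⟨mem_univ _, h0.trans this, h1.trans this⟩

lemma light_le (h : LS K b M J e ec D L E) {x : ℕ} (hx : x ≤ J) {i : ℕ} (hi : i ∈ E) :
    ((((range K.N).filter (fun j => K.a j = K.a i ∧ cell K b (e x) j = cell K b (e x) i)).card : ℝ))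
      ≤ D * K.N / (Fintype.card ι * (b : ℝ) ^ (e x)) := by
  have h1 := (h.hyg i hi).light false (e x) (e_le_M h.lev hx)
  rw [le_div_iff₀ (mul_pos (n_pos h) (b_pos h _))]
  exact h1

lemma vis_le (h : LS K b M J e ec D L E) {x : ℕ} (hx : x ≤ J) {i : ℕ} (hi : i ∈ E) :
    ((vis K b (e x) (cell K b (e x) i)).card : ℝ) ≤ D * Fintype.card ι / ((b : ℝ) ^ (e x)) ^ 3 := by
  have h1 := (h.hyg i hi).crowd (e x) (e_le_M h.lev hx)
  rw [le_div_iff₀ (pow_pos (b_pos h _) 3), ← pow_mul, mul_comm (e x) 3]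
  exact h1

/-- The labels of one level in one window. -/
theorem als (hDey : StDey) (hTok : StCellTok) (hinj : Function.Injective K.x)
    (h : LS K b M J e ec D L E) {x z : ℕ} (hxz : x ≤ z) (hz : z ≤ J) (w : ℕ) {E' : Finset ℕ}
    (hE' : E' ⊆ E) :
    ALS (E'.filter (fun i => cell K b (e x) i = w)) K.a K.b (PSr K b M D (e x) w) (L.lab z)
      ((E.filter (fun i => cell K b (e x) i = w)).image (L.lab z)) (RL K b L)
      (D ^ 2 * (b : ℝ) ^ (e z) / (b : ℝ) ^ (e x)) (D * K.N / (Fintype.card ι * (b : ℝ) ^ (e z)))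
      (D * Fintype.card ι / ((b : ℝ) ^ (e z)) ^ 3) 2048 4096 where
  labE i hi := by
    have hi' := mem_filter.1 hi
    exact mem_image.2 ⟨i, mem_filter.2 ⟨hE' hi'.1, hi'.2⟩, rfl⟩
  mem i hi := a_mem h hz (hE' (mem_filter.1 hi).1)
  aP i hi := by
    have hi' := mem_filter.1 hi
    have := (h.hyg i (hE' hi'.1)).rel false (e x) (e_le_M h.lev (hxz.trans hz))
    rw [hi'.2] at this
    exact this
  bP i hi := by
    have hi' := mem_filter.1 hi
    have := (h.hyg i (hE' hi'.1)).rel true (e x) (e_le_M h.lev (hxz.trans hz))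
    rw [hi'.2] at this
    exact this
  tame r hr := by
    rw [le_div_iff₀ (b_pos h _)]
    refine le_trans ?_ (I_Cov ι α K b M J e ec D L E h x z hxz hz w r hr)
    apply mul_le_mul_of_nonneg_right _ (b_pos h _).le
    exact_mod_cast card_le_card (fun u hu => by
      obtain ⟨hu1, hu2⟩ := mem_filter.1 hu
      obtain ⟨i, hi, rfl⟩ := mem_image.1 hu1
      have hi' := mem_filter.1 hi
      exact mem_image.2 ⟨i, mem_filter.2 ⟨hi'.1, hi'.2, hu2⟩, rfl⟩)
  light p u := by
    have hpos : 0 ≤ D * K.N / (Fintype.card ι * (b : ℝ) ^ (e z)) :=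
      div_nonneg (mul_nonneg (by linarith [D_one h]) (Nat.cast_nonneg _))
        (mul_pos (n_pos h) (b_pos h _)).le
    rcases Finset.eq_empty_or_nonempty ((E'.filter (fun i => cell K b (e x) i = w)).filter
      (fun i => K.a i = p ∧ L.lab z i = u)) with he | ⟨i0, hi0⟩
    · rw [he, card_empty, Nat.cast_zero]; exact hpos
    have h0 := mem_filter.1 hi0
    have h1 := hE' (mem_filter.1 h0.1).1
    refine le_trans ?_ (light_le h hz h1)
    exact_mod_cast card_le_card (fun i hi => by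
      have hi1 := mem_filter.1 hi
      have hi2 := hE' (mem_filter.1 hi1.1).1
      refine mem_filter.2 ⟨mem_range.2 (h.hyg i hi2).lt, ?_, ?_⟩
      · rw [hi1.2.1, h0.2.1]
      · exact h.lcell z hz i hi2 i0 h1 (by rw [hi1.2.2, h0.2.2]))
  cross F hF G _ hG := by
    have hFE : ∀ i ∈ F, i ∈ E := fun i hi => hE' (mem_filter.1 (hF hi)).1
    have hFN : ∀ i ∈ F, i < K.N := fun i hi => (h.hyg i (hFE i hi)).lt
    set v : ℝ := D * Fintype.card ι / ((b : ℝ) ^ (e z)) ^ 3 with hv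
    have hv0 : 0 ≤ v := div_nonneg (mul_nonneg (by linarith [D_one h]) (Nat.cast_nonneg _))
      (pow_pos (b_pos h _) 3).le
    have hb1 : 1 ≤ b := by have := h.lev.two; omega
    have htok : ∀ s, ((F.image (K.tok s)).card : ℝ) ≤ ((F.image (L.lab z)).card : ℝ) * v := by
      intro s
      have h1 : F.image (K.tok s) ⊆ (F.image (L.lab z)).biUnion
          (fun u => (F.filter (fun i => L.lab z i = u)).image (K.tok s)) := by
        intro τ hτ
        obtain ⟨i, hi, rfl⟩ := mem_image.1 hτ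
        exact mem_biUnion.2 ⟨_, mem_image_of_mem _ hi, mem_image.2 ⟨i, mem_filter.2 ⟨hi, rfl⟩,
          rfl⟩⟩
      have h2 : ((F.image (K.tok s)).card : ℝ) ≤ ∑ u ∈ F.image (L.lab z),
          (((F.filter (fun i => L.lab z i = u)).image (K.tok s)).card : ℝ) := by
        exact_mod_cast (card_le_card h1).trans card_biUnion_le
      refine h2.trans ?_
      calc ∑ u ∈ F.image (L.lab z), (((F.filter (fun i => L.lab z i = u)).image (K.tok s)).card : ℝ)
          ≤ ∑ _u ∈ F.image (L.lab z), v := by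
            apply sum_le_sum
            intro u hu
            obtain ⟨i0, hi0, rfl⟩ := mem_image.1 hu
            refine le_trans ?_ (vis_le h hz (hFE i0 hi0))
            have := (hTok ι K b (e z) (cell K b (e z) i0) hb1
              (F.filter (fun i => L.lab z i = L.lab z i0)) (fun i hi => by
                have hi' := mem_filter.1 hi
                exact mem_filter.2 ⟨mem_range.2 (hFN i hi'.1),
                  h.lcell z hz i (hFE i hi'.1) i0 (hFE i0 hi0) hi'.2⟩)).2.2 s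
            exact_mod_cast this
        _ = _ := by rw [sum_const, nsmul_eq_mul]
    have hg0 : (0 : ℝ) ≤ G.card := Nat.cast_nonneg _
    have ha : (F.image K.a).card ≤ G.card := card_le_card (fun r hr => by
      obtain ⟨i, hi, rfl⟩ := mem_image.1 hr
      exact (hG i hi).1)
    have hb : (F.image K.b).card ≤ G.card := card_le_card (fun r hr => by
      obtain ⟨i, hi, rfl⟩ := mem_image.1 hr
      exact (hG i hi).2)
    by_cases hc : 16 * G.card ≤ F.card
    · have h1 := hDey ι K hinj F hFN (by omega) (by omega)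
      have h2 : (F.card : ℝ) ^ 3 ≤ 2048 * (((F.image K.a).card : ℝ) * ((F.image K.b).card : ℝ) *
          (((F.image K.tokB).card : ℝ) * ((F.image K.tokT).card : ℝ))) := by exact_mod_cast h1
      have hB := htok false
      have hT := htok true
      change ((F.image K.tokB).card : ℝ) ≤ _ at hB
      change ((F.image K.tokT).card : ℝ) ≤ _ at hT
      have haR : ((F.image K.a).card : ℝ) ≤ G.card := by exact_mod_cast ha
      have hbR : ((F.image K.b).card : ℝ) ≤ G.card := by exact_mod_cast hb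
      have h3 : ((F.image K.a).card : ℝ) * ((F.image K.b).card : ℝ) ≤ (G.card : ℝ) ^ 2 := by
        rw [sq]; exact mul_le_mul haR hbR (Nat.cast_nonneg _) hg0
      have h4 : ((F.image K.tokB).card : ℝ) * ((F.image K.tokT).card : ℝ) ≤
          (((F.image (L.lab z)).card : ℝ) * v) ^ 2 := by
        rw [sq]; exact mul_le_mul hB hT (Nat.cast_nonneg _) (mul_nonneg (Nat.cast_nonneg _) hv0)
      have h5 := mul_le_mul h3 h4 (by positivity) (by positivity)
      have h6 : 0 ≤ 4096 * (G.card : ℝ) ^ 3 := by positivity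
      nlinarith
    · have h1 : (F.card : ℝ) ≤ 16 * G.card := by
        have : F.card ≤ 16 * G.card := by omega
        exact_mod_cast this
      have h2 : (F.card : ℝ) ^ 3 ≤ (16 * (G.card : ℝ)) ^ 3 :=
        pow_le_pow_left₀ (Nat.cast_nonneg _) h1 3
      have h3 : 0 ≤ 2048 * (G.card : ℝ) ^ 2 * (((F.image (L.lab z)).card : ℝ) * v) ^ 2 := by
        positivity
      nlinarith

/-- The numerical condition of the PM lemma. -/
lemma num_hc {D κ n N X Z : ℝ} (hD : 2 ^ 64 ≤ D) (hκ : 0 < κ) (hn : 0 < n) (hN : 0 < N)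
    (hX : 0 < X) (hZ : 0 < Z) (hdense : n ^ 4 ≤ D * N ^ 3) (hbig : D ^ 2 * (n * X) ≤ κ * N) :
    2048 * (D ^ 2 * Z / X) ^ 2 * (D * n / Z ^ 3) ^ 2 / (D ^ 8 * (n * X / Z ^ 4) / κ ^ 3) + 4096 ≤
      (κ * (N / (n * X))) ^ 3 := by
  have hD0 : 0 < D := lt_of_lt_of_le (by positivity) hD
  have hθ : D ^ 2 ≤ κ * (N / (n * X)) := by
    rw [← mul_div_assoc, le_div_iff₀ (mul_pos hn hX)]
    exact hbig
  have h1 : 2048 * (D ^ 2 * Z / X) ^ 2 * (D * n / Z ^ 3) ^ 2 / (D ^ 8 * (n * X / Z ^ 4) / κ ^ 3) =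
      2048 * κ ^ 3 * n / (D ^ 2 * X ^ 3) := by
    field_simp
  have h2 : 2048 * κ ^ 3 * n / (D ^ 2 * X ^ 3) ≤ (κ * (N / (n * X))) ^ 3 / 2 := by
    have e : (κ * (N / (n * X))) ^ 3 / 2 = κ ^ 3 * N ^ 3 / (2 * n ^ 3 * X ^ 3) := by
      field_simp
    rw [e, div_le_div_iff₀ (by positivity) (by positivity)]
    have h3 : 4096 * n ^ 4 ≤ D ^ 2 * N ^ 3 := by
      have h4 : (4096 : ℝ) ≤ D := by norm_num at hD; linarith
      have h5 : 4096 * (D * N ^ 3) ≤ D * (D * N ^ 3) :=
        mul_le_mul_of_nonneg_right h4 (by positivity)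
      nlinarith
    have h6 := mul_le_mul_of_nonneg_left h3 (show 0 ≤ κ ^ 3 * X ^ 3 by positivity)
    nlinarith
  have h3 : (4096 : ℝ) ≤ (κ * (N / (n * X))) ^ 3 / 2 := by
    have h4 : (2 : ℝ) ^ 128 ≤ κ * (N / (n * X)) := by
      refine le_trans ?_ hθ
      have := pow_le_pow_left₀ (by norm_num) hD 2
      norm_num at this ⊢
      linarith
    have h5 : (8192 : ℝ) ≤ (κ * (N / (n * X))) ^ 3 := by
      have := pow_le_pow_left₀ (by norm_num) h4 3
      refine le_trans ?_ this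
      norm_num
    linarith
  rw [h1]
  linarith

end XB

open XB

theorem I_PM (hDey : StDey) (hTok : StCellTok) : StPM := by
  refine ⟨8, ?_⟩
  intro ι α _ _ _ K hinj b M J e ec D L E h x z hxz hz w E' hE' G hG hsym κ g hκ hκ1 hg hc1 hc2
  have hn := n_pos h
  have hN : (0 : ℝ) < K.N := by exact_mod_cast h.npos
  have hX := b_pos h (e x)
  have hZ := b_pos h (e z)
  have hD1 := D_one h
  have hD2 : D ^ 2 * (Fintype.card ι * (b : ℝ) ^ (e x)) ≤ κ * K.N := by
    refine le_trans (mul_le_mul_of_nonneg_right ?_ (mul_pos hn hX).le) hc2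
    exact pow_le_pow_right₀ hD1 (by norm_num)
  have hA := als hDey hTok hinj h hxz hz w hE'
  have hnum := num_hc (D_big h) hκ hn hN hX hZ h.dense hD2
  have hβ : 0 < D ^ 8 * (Fintype.card ι * (b : ℝ) ^ (e x) / ((b : ℝ) ^ (e z)) ^ 4) / κ ^ 3 := by
    positivity
  have hθ : 0 ≤ κ * (K.N / (Fintype.card ι * (b : ℝ) ^ (e x))) := by positivity
  have h1 := hA.pm (by norm_num) hβ hθ hnum (G := G)
    ⟨hG, fun i hi ha => by
      have hi' := mem_filter.1 hi
      exact (hsym i hi'.1 hi'.2).1 ha⟩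
  have h2 : E'.filter (fun i => cell K b (e x) i = w ∧ K.a i ∈ G ∧
      g < ((G ∩ RR K b L z i).card : ℝ)) ⊆
      bad (E'.filter (fun i => cell K b (e x) i = w)) K.a (L.lab z) (RL K b L)
        (D ^ 8 * (Fintype.card ι * (b : ℝ) ^ (e x) / ((b : ℝ) ^ (e z)) ^ 4) / κ ^ 3) G := by
    intro i hi
    have hi' := mem_filter.1 hi
    refine mem_filter.2 ⟨mem_filter.2 ⟨hi'.1, hi'.2.1⟩, hi'.2.2.1, ?_⟩
    have h3 : D ^ 8 * (Fintype.card ι * (b : ℝ) ^ (e x) / ((b : ℝ) ^ (e z)) ^ 4) / κ ^ 3 *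
        (G.card : ℝ) ≤ g ^ 2 := by
      have e1 : D ^ 8 * (Fintype.card ι * (b : ℝ) ^ (e x) / ((b : ℝ) ^ (e z)) ^ 4) / κ ^ 3 *
          (G.card : ℝ) = (D ^ 8 * (G.card : ℝ) * (Fintype.card ι * (b : ℝ) ^ (e x))) /
            (κ ^ 3 * ((b : ℝ) ^ (e z)) ^ 4) := by
        field_simp
      rw [e1, div_le_iff₀ (by positivity)]
      refine hc1.trans (le_of_eq ?_)
      rw [← pow_mul, mul_comm (e z) 4]
      ring
    calc _ ≤ g ^ 2 := h3
      _ < ((G ∩ RR K b L z i).card : ℝ) ^ 2 := pow_lt_pow_left₀ hi'.2.2.2 hg.le (by norm_num)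
      _ = _ := rfl
  have h3 : ((E'.filter (fun i => cell K b (e x) i = w ∧ K.a i ∈ G ∧
      g < ((G ∩ RR K b L z i).card : ℝ))).card : ℝ) ≤
      κ * (K.N / (Fintype.card ι * (b : ℝ) ^ (e x))) * G.card :=
    le_trans (by exact_mod_cast card_le_card h2) h1
  have h4 := mul_le_mul_of_nonneg_right h3 (mul_pos hn hX).le
  refine h4.trans (le_of_eq ?_)
  field_simp

end Pool.Agent.Work.MP_e17eac_co.HS
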