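import Pool.Agent.Work.MP_e17eac_co.HS.StB
import Pool.Agent.Work.MP_e17eac_co.Bd.B19

/-!
# HS: the lower bound for strips
-/

namespace Pool.Agent.Work.MP_e17eac_co.HS

open Finset
open Pool.Agent.Work.MP_e17eac_co.DH
open Pool.Agent.Work.MP_e17eac_co.B1

namespace XLB

variable {ι α γ : Type} [Fintype ι] [DecidableEq ι] [DecidableEq α] [DecidableEq γ]
variable {K : KSys ι} {b M J : ℕ} {e ec : ℕ → ℕ} {D : ℝ} {L : Lb α} {E : Finset ℕ}

theorem e_mono (h : Lev b M J e ec) {j j' : ℕ} (hjj : j ≤ j') (hJ : j' ≤ J) : e j ≤ e j' := by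
  induction j', hjj using Nat.le_induction with
  | base => exact le_rfl
  | succ j' h1 ih =>
    have h2 := h.next j' (by omega)
    have h3 := (h.child j' (by omega)).1
    have h4 := ih (by omega)
    omega

theorem e_le (h : Lev b M J e ec) {j : ℕ} (hj : j ≤ J) : e j ≤ M :=
  (h.child j hj).1.le.trans (h.child j hj).2

theorem D_ge (h : LS K b M J e ec D L E) : (2 : ℝ) ^ 64 ≤ D := by
  have h2 : (2 : ℝ) ≤ b := by exact_mod_cast h.lev.two
  exact (pow_le_pow_left₀ (by norm_num) h2 64).trans h.bD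

theorem b_pos (h : LS K b M J e ec D L E) : (0 : ℝ) < b := by
  have h2 : (2 : ℝ) ≤ b := by exact_mod_cast h.lev.two
  linarith

theorem n_pos (K : KSys ι) : (0 : ℝ) < Fintype.card ι := by
  have : 0 < Fintype.card ι := Fintype.card_pos_iff.2 ⟨K.a 0⟩
  exact_mod_cast this

theorem EE_le (h : LS K b M J e ec D L E) {j : ℕ} (hj : j ≤ J) {i : ℕ} (hi : i ∈ E) :
    ((EE K b (e j) E i).card : ℝ) * (Fintype.card ι * (b : ℝ) ^ (e j)) ≤ D * K.N := by
  have h1 := (h.hyg i hi).light false (e j) (e_le h.lev hj)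
  refine le_trans (mul_le_mul_of_nonneg_right ?_ (by positivity)) h1
  have : (EE K b (e j) E i).card ≤ ((range K.N).filter (fun j' => K.ln false j' = K.ln false i ∧
      cell K b (e j) j' = cell K b (e j) i)).card := by
    apply card_le_card
    intro u hu
    rw [EE, mem_filter] at hu
    rw [mem_filter, mem_range]
    exact ⟨(h.hyg u hu.1).lt, hu.2⟩
  exact_mod_cast this

theorem cntX (h : LS K b M J e ec D L E) {x : ℕ} (hx : x ≤ J) {X : Finset ℕ} (hX : X ⊆ E) :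
    (((PP K b (e x) E).filter (fun u => u.1 ∈ X)).card : ℝ) *
      (Fintype.card ι * (b : ℝ) ^ (e x)) ≤ X.card * (D * K.N) := by
  have h1 : ((PP K b (e x) E).filter (fun u => u.1 ∈ X)).card ≤
      ∑ i ∈ X, (EE K b (e x) E i).card := by
    have hm : Set.MapsTo Prod.fst (((PP K b (e x) E).filter (fun u => u.1 ∈ X) :
        Finset (ℕ × ℕ)) : Set (ℕ × ℕ)) (X : Set ℕ) := by
      intro u hu
      rw [mem_coe, mem_filter] at hu
      exact hu.2
    rw [card_eq_sum_card_fiberwise hm]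
    apply sum_le_sum
    intro i hi
    apply card_le_card_of_injOn Prod.snd
    · intro u hu
      rw [mem_coe, mem_filter, mem_filter, PP, mem_filter, mem_product] at hu
      obtain ⟨⟨⟨⟨h1, h2⟩, h3, h4⟩, h5⟩, h6⟩ := hu
      rw [mem_coe, EE, mem_filter, ← h6]
      exact ⟨h2, h3.symm, h4.symm⟩
    · intro u hu v hv huv
      rw [mem_coe, mem_filter] at hu hv
      exact Prod.ext (hu.2.trans hv.2.symm) huv
  calc (((PP K b (e x) E).filter (fun u => u.1 ∈ X)).card : ℝ) *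
        (Fintype.card ι * (b : ℝ) ^ (e x))
      ≤ ((∑ i ∈ X, (EE K b (e x) E i).card : ℕ) : ℝ) * (Fintype.card ι * (b : ℝ) ^ (e x)) :=
        mul_le_mul_of_nonneg_right (by exact_mod_cast h1) (by positivity)
    _ = ∑ i ∈ X, ((EE K b (e x) E i).card : ℝ) * (Fintype.card ι * (b : ℝ) ^ (e x)) := by
        push_cast
        rw [sum_mul]
    _ ≤ ∑ i ∈ X, D * K.N := sum_le_sum (fun i hi => EE_le h hx (hX hi))
    _ = X.card * (D * K.N) := by rw [sum_const, nsmul_eq_mul]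

theorem cntX2 (h : LS K b M J e ec D L E) {x : ℕ} (hx : x ≤ J) {X : Finset ℕ} (hX : X ⊆ E) :
    (((PP K b (e x) E).filter (fun u => u.2 ∈ X)).card : ℝ) *
      (Fintype.card ι * (b : ℝ) ^ (e x)) ≤ X.card * (D * K.N) := by
  refine le_trans (mul_le_mul_of_nonneg_right ?_ (by positivity)) (cntX h hx hX)
  have : ((PP K b (e x) E).filter (fun u => u.2 ∈ X)).card ≤
      ((PP K b (e x) E).filter (fun u => u.1 ∈ X)).card := by
    apply card_le_card_of_injOn Prod.swap
    · intro u hu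
      rw [mem_coe, mem_filter, PP, mem_filter, mem_product] at hu ⊢
      obtain ⟨⟨⟨h1, h2⟩, h3, h4⟩, h5⟩ := hu
      exact ⟨⟨⟨h2, h1⟩, h3.symm, h4.symm⟩, h5⟩
    · intro u _ v _ huv
      exact Prod.swap_injective huv
  exact_mod_cast this

theorem coarse (hC : StCell) (K : KSys ι) {b : ℕ} (hb : 1 ≤ b) {x z i j : ℕ} (hxz : x ≤ z)
    (h : cell K b z i = cell K b z j) : cell K b x i = cell K b x j := by
  have := (hC ι K b z hb).2.2.1 x hxz
  rw [this i, this j, h]

theorem cntN (hC : StCell) (h : LS K b M J e ec D L E) {x z : ℕ} (hxz : x ≤ z) (hz : z + 1 ≤ J)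
    (hF : (b : ℝ) ^ (e (z + 1)) ≤ D ^ 4 * (b : ℝ) ^ (e z)) (P : ℕ → ℕ → Prop)
    [DecidableRel P]
    (hP : ∀ i l l', l ∈ E → l' ∈ E → K.a l' = K.a l →
      cell K b (e (z + 1)) l' = cell K b (e (z + 1)) l → P i l → P i l') :
    (((PP K b (e x) E).filter (fun u => ∃ l ∈ EE K b (e z) E u.2, P u.1 l)).card : ℝ) ≤
      D ^ 6 * (((PP K b (e x) E).filter (fun u => P u.1 u.2)).card : ℝ) := by
  classical
  have hb1 : 1 ≤ b := by have := h.lev.two; omega
  set Bad := (PP K b (e x) E).filter (fun u => ∃ l ∈ EE K b (e z) E u.2, P u.1 l) with hBad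
  set N1 := (PP K b (e x) E).filter (fun u => P u.1 u.2) with hN1
  have hex : ∀ u ∈ Bad, ∃ l, l ∈ EE K b (e z) E u.2 ∧ P u.1 l := by
    intro u hu
    rw [hBad, mem_filter] at hu
    exact hu.2
  choose! l hl hPl using hex
  set T := Bad.sigma (fun u => EE K b (e (z + 1)) E (l u)) with hT
  have hlE : ∀ u ∈ Bad, l u ∈ E := fun u hu => (mem_filter.1 (hl u hu)).1
  have lower : (Bad.card : ℝ) * K.N ≤
      D * (Fintype.card ι * (b : ℝ) ^ (e (z + 1))) * (T.card : ℝ) := by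
    rw [hT, card_sigma]
    push_cast
    rw [mul_sum]
    calc (Bad.card : ℝ) * K.N = ∑ u ∈ Bad, (K.N : ℝ) := by rw [sum_const, nsmul_eq_mul]
      _ ≤ _ := sum_le_sum (fun u hu => h.full hz (hlE u hu))
  have upper : (T.card : ℝ) * (Fintype.card ι * (b : ℝ) ^ (e z)) ≤ N1.card * (D * K.N) := by
    have h1 : T.card ≤ ∑ v ∈ N1, (EE K b (e z) E v.2).card := by
      have hmap : ∀ w ∈ T, (w.1.1, w.2) ∈ N1 := by
        intro w hw
        rw [hT, mem_sigma] at hw
        obtain ⟨w1, w2⟩ := hw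
        have a1 := hl w.1 w1
        have a2 := hPl w.1 w1
        have a3 := w1
        rw [hBad, mem_filter, PP, mem_filter, mem_product] at a3
        obtain ⟨⟨⟨a4, a5⟩, a6, a7⟩, -⟩ := a3
        rw [EE, mem_filter] at a1 w2
        rw [hN1, mem_filter, PP, mem_filter, mem_product]
        have c1 : cell K b (e x) (l w.1) = cell K b (e x) w.1.2 :=
          coarse hC K hb1 (e_mono h.lev hxz (by omega)) a1.2.2
        have c2 : cell K b (e x) w.2 = cell K b (e x) (l w.1) :=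
          coarse hC K hb1 (e_mono h.lev (by omega) hz) w2.2.2
        refine ⟨⟨⟨a4, w2.1⟩, ?_, ?_⟩, ?_⟩
        · change K.a w.1.1 = K.a w.2
          rw [a6, w2.2.1, a1.2.1]
        · change cell K b (e x) w.1.1 = cell K b (e x) w.2
          rw [a7, c2, c1]
        · exact hP _ _ _ a1.1 w2.1 w2.2.1 w2.2.2 a2
      rw [card_eq_sum_card_fiberwise (f := fun w : (_ : ℕ × ℕ) × ℕ => (w.1.1, w.2)) (t := N1)
        hmap]
      apply sum_le_sum
      intro v hv
      apply card_le_card_of_injOn (fun w => w.1.2)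
      · intro w hw
        rw [mem_coe, mem_filter] at hw
        obtain ⟨w1, w2⟩ := hw
        rw [hT, mem_sigma] at w1
        have a1 := hl w.1 w1.1
        have a3 := w1.1
        rw [hBad, mem_filter, PP, mem_filter, mem_product] at a3
        have w3 := w1.2
        rw [EE, mem_filter] at a1 w3
        have e2 : w.2 = v.2 := congrArg Prod.snd w2
        rw [mem_coe, EE, mem_filter, ← e2]
        have c2 : cell K b (e z) w.2 = cell K b (e z) (l w.1) :=
          coarse hC K hb1 (e_mono h.lev (by omega) hz) w3.2.2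
        exact ⟨a3.1.1.2, by rw [w3.2.1, a1.2.1], by rw [c2, a1.2.2]⟩
      · intro w hw w' hw' hww
        rw [mem_coe, mem_filter] at hw hw'
        have e1 : (w.1.1, w.2) = (w'.1.1, w'.2) := hw.2.trans hw'.2.symm
        rw [Prod.mk.injEq] at e1
        obtain ⟨e2, e3⟩ := e1
        obtain ⟨⟨w11, w12⟩, w2⟩ := w
        obtain ⟨⟨w11', w12'⟩, w2'⟩ := w'
        simp only at e2 e3 hww
        subst e2 e3 hww
        rfl
    calc (T.card : ℝ) * (Fintype.card ι * (b : ℝ) ^ (e z))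
        ≤ ((∑ v ∈ N1, (EE K b (e z) E v.2).card : ℕ) : ℝ) *
          (Fintype.card ι * (b : ℝ) ^ (e z)) :=
          mul_le_mul_of_nonneg_right (by exact_mod_cast h1) (by positivity)
      _ = ∑ v ∈ N1, ((EE K b (e z) E v.2).card : ℝ) * (Fintype.card ι * (b : ℝ) ^ (e z)) := by
          push_cast
          rw [sum_mul]
      _ ≤ ∑ v ∈ N1, D * K.N := sum_le_sum (fun v hv => EE_le h (by omega) (by
          rw [hN1, mem_filter, PP, mem_filter, mem_product] at hv
          exact hv.1.1.2))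
      _ = N1.card * (D * K.N) := by rw [sum_const, nsmul_eq_mul]
  have hN : (0 : ℝ) < K.N := by exact_mod_cast h.npos
  have hn := n_pos K
  have hbz : (0 : ℝ) < (b : ℝ) ^ (e z) := pow_pos (b_pos h) _
  have hD : (0 : ℝ) < D := lt_of_lt_of_le (by norm_num) (D_ge h)
  have step1 : (Bad.card : ℝ) * K.N * (Fintype.card ι * (b : ℝ) ^ (e z)) ≤
      D ^ 6 * (Fintype.card ι * (b : ℝ) ^ (e z)) * N1.card * K.N := by
    calc (Bad.card : ℝ) * K.N * (Fintype.card ι * (b : ℝ) ^ (e z))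
        ≤ D * (Fintype.card ι * (b : ℝ) ^ (e (z + 1))) * (T.card : ℝ) *
          (Fintype.card ι * (b : ℝ) ^ (e z)) := mul_le_mul_of_nonneg_right lower (by positivity)
      _ = D * (Fintype.card ι * (b : ℝ) ^ (e (z + 1))) *
          ((T.card : ℝ) * (Fintype.card ι * (b : ℝ) ^ (e z))) := by ring
      _ ≤ D * (Fintype.card ι * (b : ℝ) ^ (e (z + 1))) * (N1.card * (D * K.N)) :=
          mul_le_mul_of_nonneg_left upper (by positivity)
      _ ≤ D * (Fintype.card ι * (D ^ 4 * (b : ℝ) ^ (e z))) * (N1.card * (D * K.N)) := by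
          apply mul_le_mul_of_nonneg_right _ (by positivity)
          apply mul_le_mul_of_nonneg_left _ hD.le
          exact mul_le_mul_of_nonneg_left hF hn.le
      _ = _ := by ring
  have step2 : (Bad.card : ℝ) * (K.N * (Fintype.card ι * (b : ℝ) ^ (e z))) ≤
      (D ^ 6 * N1.card) * (K.N * (Fintype.card ι * (b : ℝ) ^ (e z))) := by
    calc _ = (Bad.card : ℝ) * K.N * (Fintype.card ι * (b : ℝ) ^ (e z)) := by ring
      _ ≤ _ := step1
      _ = _ := by ring
  exact le_of_mul_le_mul_right step2 (by positivity)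

/-- the crossing pairs between two cells, in one of the two orders -/
noncomputable def FF (K : KSys ι) (b ey ez : ℕ) : Bool → ℕ × ℕ → Finset (ℕ × ℕ)
  | true, v => CP K (ce K b ey v.1) (ce K b ez v.2)
  | false, v => CP K (ce K b ez v.2) (ce K b ey v.1)

theorem cntC (hC : StCell) (hCP : StCPsum) (h : LS K b M J e ec D L E) {x y z : ℕ}
    (hxy : x ≤ y) (hyz : y ≤ z) (hz : z ≤ J) {E' : Finset ℕ} (hE' : E' ⊆ E) {gy gz : ℕ → γ}
    {D1 : ℝ} (hgy : ∀ i ∈ E', ∀ i' ∈ E', gy i = gy i' → L.lab y i = L.lab y i')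
    (hgz : ∀ i ∈ E', ∀ i' ∈ E', gz i = gz i' → L.lab z i = L.lab z i')
    (ny : ∀ c : ℕ, (((E'.filter (fun i => cell K b (e y) i = c)).image gy).card : ℝ) ≤ D1)
    (nz : ∀ c : ℕ, (((E'.filter (fun i => cell K b (e z) i = c)).image gz).card : ℝ) ≤ D1)
    (s : Bool) {t g : ℝ} (ht : 0 < t) (hg : 0 ≤ g) {Bad : Finset (ℕ × ℕ)}
    (hB0 : Bad ⊆ PP K b (e x) E')
    (hB1 : ∀ u ∈ Bad, t ≤ ((FF K b (e y) (e z) s
      (cell K b (e y) u.1, cell K b (e z) u.2)).card : ℝ))
    (hB2 : ∀ u ∈ Bad, ((NN K E' gy u.1 ∩ NN K E' gz u.2).card : ℝ) ≤ g) :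
    (Bad.card : ℝ) * (Fintype.card ι * (b : ℝ) ^ (e y)) * (Fintype.card ι * (b : ℝ) ^ (e z)) *
      (t * (b : ℝ) ^ (2 * e x)) ≤
      D1 ^ 2 * g * (D * K.N) ^ 2 * (D ^ 2 * (Fintype.card ι : ℝ) ^ 2) := by
  classical
  have hb1 : 1 ≤ b := by have := h.lev.two; omega
  have hN : (0 : ℝ) < K.N := by exact_mod_cast h.npos
  have hn := n_pos K
  have hb := b_pos h
  have hD : (0 : ℝ) < D := lt_of_lt_of_le (by norm_num) (D_ge h)
  have hD1 : (0 : ℝ) ≤ D1 := le_trans (Nat.cast_nonneg _) (ny 0)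
  have hBm : ∀ u ∈ Bad, u.1 ∈ E' ∧ u.2 ∈ E' ∧ K.a u.1 = K.a u.2 ∧
      cell K b (e x) u.1 = cell K b (e x) u.2 := by
    intro u hu
    have := hB0 hu
    rw [PP, mem_filter, mem_product] at this
    exact ⟨this.1.1, this.1.2, this.2.1, this.2.2⟩
  set Λ := Bad.image (fun u => (gy u.1, gz u.2)) with hΛ
  set PC := Bad.image (fun u => (cell K b (e y) u.1, cell K b (e z) u.2)) with hPC
  set W := Bad.image (fun u => cell K b (e x) u.1) with hW
  -- fibres
  have fib : ∀ v ∈ Λ, ((Bad.filter (fun u => (gy u.1, gz u.2) = v)).card : ℝ) *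
      ((Fintype.card ι * (b : ℝ) ^ (e y)) * (Fintype.card ι * (b : ℝ) ^ (e z))) ≤
      g * (D * K.N) ^ 2 := by
    intro v hv
    rw [hΛ, mem_image] at hv
    obtain ⟨u0, hu0, rfl⟩ := hv
    set A : ι → Finset ℕ := fun p => E'.filter (fun i => K.a i = p ∧ gy i = gy u0.1) with hA
    set B : ι → Finset ℕ := fun p => E'.filter (fun i => K.a i = p ∧ gz i = gz u0.2) with hB
    have hAle : ∀ p, ((A p).card : ℝ) * (Fintype.card ι * (b : ℝ) ^ (e y)) ≤ D * K.N := by
      intro p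
      rcases (A p).eq_empty_or_nonempty with h0 | ⟨i1, hi1⟩
      · rw [h0, card_empty]
        simp only [Nat.cast_zero, zero_mul]
        positivity
      · have hi1' := hi1
        rw [hA, mem_filter] at hi1'
        refine le_trans (mul_le_mul_of_nonneg_right ?_ (by positivity))
          (EE_le h (hyz.trans hz) (hE' hi1'.1))
        have : (A p).card ≤ (EE K b (e y) E i1).card := by
          apply card_le_card
          intro i hi
          rw [hA, mem_filter] at hi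
          rw [EE, mem_filter]
          refine ⟨hE' hi.1, by rw [hi.2.1, hi1'.2.1], ?_⟩
          exact h.lcell y (hyz.trans hz) i (hE' hi.1) i1 (hE' hi1'.1)
            (hgy i hi.1 i1 hi1'.1 (by rw [hi.2.2, hi1'.2.2]))
        exact_mod_cast this
    have hBle : ∀ p, ((B p).card : ℝ) * (Fintype.card ι * (b : ℝ) ^ (e z)) ≤ D * K.N := by
      intro p
      rcases (B p).eq_empty_or_nonempty with h0 | ⟨i1, hi1⟩
      · rw [h0, card_empty]
        simp only [Nat.cast_zero, zero_mul]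
        positivity
      · have hi1' := hi1
        rw [hB, mem_filter] at hi1'
        refine le_trans (mul_le_mul_of_nonneg_right ?_ (by positivity))
          (EE_le h hz (hE' hi1'.1))
        have : (B p).card ≤ (EE K b (e z) E i1).card := by
          apply card_le_card
          intro i hi
          rw [hB, mem_filter] at hi
          rw [EE, mem_filter]
          refine ⟨hE' hi.1, by rw [hi.2.1, hi1'.2.1], ?_⟩
          exact h.lcell z hz i (hE' hi.1) i1 (hE' hi1'.1)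
            (hgz i hi.1 i1 hi1'.1 (by rw [hi.2.2, hi1'.2.2]))
        exact_mod_cast this
    have hsub : Bad.filter (fun u => (gy u.1, gz u.2) = (gy u0.1, gz u0.2)) ⊆
        (NN K E' gy u0.1 ∩ NN K E' gz u0.2).biUnion (fun p => A p ×ˢ B p) := by
      intro u hu
      rw [mem_filter] at hu
      obtain ⟨h1, h2⟩ := hu
      obtain ⟨m1, m2, m3, m4⟩ := hBm u h1
      simp only [Prod.mk.injEq] at h2
      rw [mem_biUnion]
      refine ⟨K.a u.1, ?_, ?_⟩
      · rw [mem_inter, NN, NN, mem_image, mem_image]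
        exact ⟨⟨u.1, mem_filter.2 ⟨m1, h2.1⟩, rfl⟩, ⟨u.2, mem_filter.2 ⟨m2, h2.2⟩, m3.symm⟩⟩
      · rw [mem_product]
        exact ⟨mem_filter.2 ⟨m1, rfl, h2.1⟩, mem_filter.2 ⟨m2, m3.symm, h2.2⟩⟩
    have h1 : (Bad.filter (fun u => (gy u.1, gz u.2) = (gy u0.1, gz u0.2))).card ≤
        ∑ p ∈ NN K E' gy u0.1 ∩ NN K E' gz u0.2, (A p).card * (B p).card := by
      refine (card_le_card hsub).trans (card_biUnion_le.trans ?_)
      exact sum_le_sum (fun p _ => by rw [card_product])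
    calc ((Bad.filter (fun u => (gy u.1, gz u.2) = (gy u0.1, gz u0.2))).card : ℝ) *
          ((Fintype.card ι * (b : ℝ) ^ (e y)) * (Fintype.card ι * (b : ℝ) ^ (e z)))
        ≤ ((∑ p ∈ NN K E' gy u0.1 ∩ NN K E' gz u0.2, (A p).card * (B p).card : ℕ) : ℝ) *
          ((Fintype.card ι * (b : ℝ) ^ (e y)) * (Fintype.card ι * (b : ℝ) ^ (e z))) :=
          mul_le_mul_of_nonneg_right (by exact_mod_cast h1) (by positivity)
      _ = ∑ p ∈ NN K E' gy u0.1 ∩ NN K E' gz u0.2,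
          (((A p).card : ℝ) * (Fintype.card ι * (b : ℝ) ^ (e y))) *
          (((B p).card : ℝ) * (Fintype.card ι * (b : ℝ) ^ (e z))) := by
          push_cast
          rw [sum_mul]
          exact sum_congr rfl (fun p _ => by ring)
      _ ≤ ∑ p ∈ NN K E' gy u0.1 ∩ NN K E' gz u0.2, (D * K.N) * (D * K.N) :=
          sum_le_sum (fun p _ => mul_le_mul (hAle p) (hBle p) (by positivity) (by positivity))
      _ = ((NN K E' gy u0.1 ∩ NN K E' gz u0.2).card : ℝ) * (D * K.N) ^ 2 := by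
          rw [sum_const, nsmul_eq_mul, sq]
      _ ≤ g * (D * K.N) ^ 2 := mul_le_mul_of_nonneg_right (hB2 u0 hu0) (by positivity)
  have c1 : (Bad.card : ℝ) *
      ((Fintype.card ι * (b : ℝ) ^ (e y)) * (Fintype.card ι * (b : ℝ) ^ (e z))) ≤
      Λ.card * (g * (D * K.N) ^ 2) := by
    have : Bad.card = ∑ v ∈ Λ, (Bad.filter (fun u => (gy u.1, gz u.2) = v)).card :=
      card_eq_sum_card_image _ _
    rw [this]
    push_cast
    rw [sum_mul]
    calc _ ≤ ∑ v ∈ Λ, g * (D * K.N) ^ 2 := sum_le_sum fib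
      _ = _ := by rw [sum_const, nsmul_eq_mul]
  have c2 : (Λ.card : ℝ) ≤ PC.card * D1 ^ 2 := by
    have hsub : Λ ⊆ PC.biUnion (fun v => ((E'.filter (fun i => cell K b (e y) i = v.1)).image gy) ×ˢ
        ((E'.filter (fun i => cell K b (e z) i = v.2)).image gz)) := by
      intro w hw
      rw [hΛ, mem_image] at hw
      obtain ⟨u, hu, rfl⟩ := hw
      obtain ⟨m1, m2, m3, m4⟩ := hBm u hu
      rw [mem_biUnion]
      refine ⟨(cell K b (e y) u.1, cell K b (e z) u.2), mem_image_of_mem _ hu, ?_⟩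
      rw [mem_product]
      exact ⟨mem_image_of_mem _ (mem_filter.2 ⟨m1, rfl⟩),
        mem_image_of_mem _ (mem_filter.2 ⟨m2, rfl⟩)⟩
    have h1 := (card_le_card hsub).trans card_biUnion_le
    calc (Λ.card : ℝ) ≤ ((∑ v ∈ PC, (((E'.filter (fun i => cell K b (e y) i = v.1)).image gy) ×ˢ
        ((E'.filter (fun i => cell K b (e z) i = v.2)).image gz)).card : ℕ) : ℝ) := by
          exact_mod_cast h1
      _ = ∑ v ∈ PC, (((E'.filter (fun i => cell K b (e y) i = v.1)).image gy).card : ℝ) *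
          (((E'.filter (fun i => cell K b (e z) i = v.2)).image gz).card : ℝ) := by
          push_cast
          exact sum_congr rfl (fun v _ => by rw [card_product]; push_cast; rfl)
      _ ≤ ∑ v ∈ PC, D1 * D1 :=
          sum_le_sum (fun v _ => mul_le_mul (ny _) (nz _) (Nat.cast_nonneg _) hD1)
      _ = PC.card * D1 ^ 2 := by rw [sum_const, nsmul_eq_mul, sq]
  -- cell pairs
  have hFF : ∀ v : ℕ × ℕ, ∀ q ∈ FF K b (e y) (e z) s v,
      (s = true → cell K b (e y) q.1 = v.1 ∧ cell K b (e z) q.2 = v.2) ∧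
      (s = false → cell K b (e y) q.2 = v.1 ∧ cell K b (e z) q.1 = v.2) := by
    intro v q hq
    cases s with
    | true =>
      change q ∈ CP K (ce K b (e y) v.1) (ce K b (e z) v.2) at hq
      rw [CP, mem_filter, mem_product, ce, ce, mem_filter, mem_filter] at hq
      exact ⟨fun _ => ⟨hq.1.1.2, hq.1.2.2⟩, fun h => by simp at h⟩
    | false =>
      change q ∈ CP K (ce K b (e z) v.2) (ce K b (e y) v.1) at hq
      rw [CP, mem_filter, mem_product, ce, ce, mem_filter, mem_filter] at hq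
      exact ⟨fun h => by simp at h, fun _ => ⟨hq.1.2.2, hq.1.1.2⟩⟩
  have hdisj : (PC : Set (ℕ × ℕ)).PairwiseDisjoint (FF K b (e y) (e z) s) := by
    intro v _ v' _ hvv
    change Disjoint _ _
    rw [disjoint_left]
    intro q hq hq'
    apply hvv
    have k1 := hFF v q hq
    have k2 := hFF v' q hq'
    cases s with
    | true =>
      exact Prod.ext ((k1.1 rfl).1.symm.trans (k2.1 rfl).1)
        ((k1.1 rfl).2.symm.trans (k2.1 rfl).2)
    | false =>
      exact Prod.ext ((k1.2 rfl).1.symm.trans (k2.2 rfl).1)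
        ((k1.2 rfl).2.symm.trans (k2.2 rfl).2)
  have hexy : e x ≤ e y := e_mono h.lev hxy (hyz.trans hz)
  have hexz : e x ≤ e z := e_mono h.lev (hxy.trans hyz) hz
  have hsubW : PC.biUnion (FF K b (e y) (e z) s) ⊆
      W.biUnion (fun w => CP K (ce K b (e x) w) (ce K b (e x) w)) := by
    intro q hq
    rw [mem_biUnion] at hq
    obtain ⟨v, hv, hq⟩ := hq
    rw [hPC, mem_image] at hv
    obtain ⟨u, hu, rfl⟩ := hv
    obtain ⟨m1, m2, m3, m4⟩ := hBm u hu
    rw [mem_biUnion]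
    refine ⟨cell K b (e x) u.1, mem_image_of_mem _ hu, ?_⟩
    cases s with
    | true =>
      change q ∈ CP K (ce K b (e y) (cell K b (e y) u.1)) (ce K b (e z) (cell K b (e z) u.2))
        at hq
      rw [CP, mem_filter, mem_product, ce, ce, mem_filter, mem_filter] at hq
      obtain ⟨⟨⟨q1, q2⟩, q3, q4⟩, q5⟩ := hq
      rw [CP, mem_filter, mem_product, ce, mem_filter, mem_filter]
      exact ⟨⟨⟨q1, coarse hC K hb1 hexy q2⟩, q3, (coarse hC K hb1 hexz q4).trans m4.symm⟩, q5⟩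
    | false =>
      change q ∈ CP K (ce K b (e z) (cell K b (e z) u.2)) (ce K b (e y) (cell K b (e y) u.1))
        at hq
      rw [CP, mem_filter, mem_product, ce, ce, mem_filter, mem_filter] at hq
      obtain ⟨⟨⟨q1, q2⟩, q3, q4⟩, q5⟩ := hq
      rw [CP, mem_filter, mem_product, ce, mem_filter, mem_filter]
      exact ⟨⟨⟨q1, (coarse hC K hb1 hexz q2).trans m4.symm⟩, q3, coarse hC K hb1 hexy q4⟩, q5⟩
  have c3 : (PC.card : ℝ) * t ≤ ∑ w ∈ W, ((vis K b (e x) w).card : ℝ) ^ 2 := by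
    calc (PC.card : ℝ) * t = ∑ v ∈ PC, t := by rw [sum_const, nsmul_eq_mul]
      _ ≤ ∑ v ∈ PC, ((FF K b (e y) (e z) s v).card : ℝ) := by
          apply sum_le_sum
          intro v hv
          rw [hPC, mem_image] at hv
          obtain ⟨u, hu, rfl⟩ := hv
          exact hB1 u hu
      _ = ((PC.biUnion (FF K b (e y) (e z) s)).card : ℝ) := by
          rw [card_biUnion hdisj]
          push_cast
          rfl
      _ ≤ ((∑ w ∈ W, (CP K (ce K b (e x) w) (ce K b (e x) w)).card : ℕ) : ℝ) := by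
          exact_mod_cast (card_le_card hsubW).trans card_biUnion_le
      _ ≤ ∑ w ∈ W, ((vis K b (e x) w).card : ℝ) ^ 2 := by
          push_cast
          apply sum_le_sum
          intro w _
          exact_mod_cast hCP ι K b (e x) w hb1
  have c4 : (W.card : ℝ) ≤ (b : ℝ) ^ (4 * e x) := by
    have : W.card ≤ b ^ (4 * e x) := by
      rw [← card_range (b ^ (4 * e x))]
      apply card_le_card
      intro w hw
      rw [hW, mem_image] at hw
      obtain ⟨u, hu, rfl⟩ := hw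
      rw [mem_range]
      exact (hC ι K b (e x) hb1).1 _ (h.hyg u.1 (hE' (hBm u hu).1)).lt
    exact_mod_cast this
  have c5 : (PC.card : ℝ) * (t * (b : ℝ) ^ (2 * e x)) ≤ D ^ 2 * (Fintype.card ι : ℝ) ^ 2 := by
    have hbx : (0 : ℝ) < (b : ℝ) ^ (4 * e x) := pow_pos hb _
    have : (PC.card : ℝ) * (t * (b : ℝ) ^ (2 * e x)) * (b : ℝ) ^ (4 * e x) ≤
        D ^ 2 * (Fintype.card ι : ℝ) ^ 2 * (b : ℝ) ^ (4 * e x) := by
      calc (PC.card : ℝ) * (t * (b : ℝ) ^ (2 * e x)) * (b : ℝ) ^ (4 * e x)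
          = ((PC.card : ℝ) * t) * (b : ℝ) ^ (6 * e x) := by
            have : (b : ℝ) ^ (6 * e x) = (b : ℝ) ^ (2 * e x) * (b : ℝ) ^ (4 * e x) := by
              rw [← pow_add]; congr 1; ring
            rw [this]; ring
        _ ≤ (∑ w ∈ W, ((vis K b (e x) w).card : ℝ) ^ 2) * (b : ℝ) ^ (6 * e x) :=
            mul_le_mul_of_nonneg_right c3 (by positivity)
        _ = ∑ w ∈ W, (((vis K b (e x) w).card : ℝ) * (b : ℝ) ^ (3 * e x)) ^ 2 := by
            rw [sum_mul]
            refine sum_congr rfl (fun w _ => ?_)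
            rw [mul_pow, ← pow_mul]
            congr 2
            ring
        _ ≤ ∑ w ∈ W, (D * Fintype.card ι) ^ 2 := by
            apply sum_le_sum
            intro w hw
            rw [hW, mem_image] at hw
            obtain ⟨u, hu, rfl⟩ := hw
            apply pow_le_pow_left₀ (by positivity)
            exact (h.hyg u.1 (hE' (hBm u hu).1)).crowd (e x)
              (e_le h.lev (hxy.trans (hyz.trans hz)))
        _ = W.card * (D * Fintype.card ι) ^ 2 := by rw [sum_const, nsmul_eq_mul]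
        _ ≤ (b : ℝ) ^ (4 * e x) * (D * Fintype.card ι) ^ 2 :=
            mul_le_mul_of_nonneg_right c4 (by positivity)
        _ = _ := by ring
    exact le_of_mul_le_mul_right this hbx
  calc (Bad.card : ℝ) * (Fintype.card ι * (b : ℝ) ^ (e y)) *
        (Fintype.card ι * (b : ℝ) ^ (e z)) * (t * (b : ℝ) ^ (2 * e x))
      = ((Bad.card : ℝ) *
        ((Fintype.card ι * (b : ℝ) ^ (e y)) * (Fintype.card ι * (b : ℝ) ^ (e z)))) *
        (t * (b : ℝ) ^ (2 * e x)) := by ring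
    _ ≤ (Λ.card * (g * (D * K.N) ^ 2)) * (t * (b : ℝ) ^ (2 * e x)) :=
        mul_le_mul_of_nonneg_right c1 (by positivity)
    _ ≤ ((PC.card * D1 ^ 2) * (g * (D * K.N) ^ 2)) * (t * (b : ℝ) ^ (2 * e x)) := by
        apply mul_le_mul_of_nonneg_right _ (by positivity)
        exact mul_le_mul_of_nonneg_right c2 (by positivity)
    _ = (D1 ^ 2 * g * (D * K.N) ^ 2) * (PC.card * (t * (b : ℝ) ^ (2 * e x))) := by ring
    _ ≤ (D1 ^ 2 * g * (D * K.N) ^ 2) * (D ^ 2 * (Fintype.card ι : ℝ) ^ 2) :=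
        mul_le_mul_of_nonneg_left c5 (by positivity)

theorem RR_congr (h : LS K b M J e ec D L E) {j l l' : ℕ} (hj : j ≤ J) (hl : l ∈ E)
    (hl' : l' ∈ E) (ha : K.a l' = K.a l) (hc : cell K b (e j) l' = cell K b (e j) l) :
    RR K b L j l' = RR K b L j l := by
  have := h.ldet j hj l' hl' l hl ha hc
  unfold RR
  rw [this]

/-- the term `C` of the final count -/
theorem termC {n N s D D1 ε δ t g bey bez bex Bd : ℝ} {CB C : ℕ} (hn : 0 < n) (hN : 0 < N)
    (hbx : 0 < bex) (hby : 0 < bey) (hbz : 0 < bez) (hD : (2 : ℝ) ^ 64 ≤ D) (hD1 : D ≤ D1)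
    (he : 0 < ε) (he1 : ε ≤ 1) (hδ : δ = ε / (8 * D ^ 2) / D ^ CB) (hC : 2 * CB + 12 ≤ C)
    (hs : s = n * bex) (hBd : 0 ≤ Bd)
    (ht : t = (δ * n / bey ^ 3) * (δ * n / bez ^ 3))
    (hg : g = ε ^ C * (n * bex) / (D1 ^ C * (bey ^ 2 * bez ^ 2)))
    (h : Bd * (n * bey) * (n * bez) * (t * bex ^ 2) ≤
      D1 ^ 2 * g * (D * N) ^ 2 * (D ^ 2 * n ^ 2)) :
    Bd * s ≤ ε / 4 * N ^ 2 := by
  have hD0 : 0 < D := lt_of_lt_of_le (by norm_num) hD
  have hD10 : 0 < D1 := lt_of_lt_of_le hD0 hD1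
  have hδ0 : 0 < δ := by rw [hδ]; positivity
  have e1 : Bd * (n * bey) * (n * bez) * (t * bex ^ 2) =
      (Bd * s * δ ^ 2) * (n ^ 3 * bex / (bey ^ 2 * bez ^ 2)) := by
    rw [ht, hs]
    field_simp
  have e2 : D1 ^ 2 * g * (D * N) ^ 2 * (D ^ 2 * n ^ 2) =
      (D1 ^ 2 * D ^ 4 * (ε ^ C / D1 ^ C) * N ^ 2) * (n ^ 3 * bex / (bey ^ 2 * bez ^ 2)) := by
    rw [hg]
    field_simp
  rw [e1, e2] at h
  have h2 : Bd * s * δ ^ 2 ≤ D1 ^ 2 * D ^ 4 * (ε ^ C / D1 ^ C) * N ^ 2 :=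
    le_of_mul_le_mul_right h (by positivity)
  have h3 : D1 ^ 2 * D ^ 4 * (ε ^ C / D1 ^ C) ≤ ε / 4 * δ ^ 2 := by
    have hδ2 : δ ^ 2 = ε ^ 2 / (64 * (D ^ 4 * D ^ (2 * CB))) := by
      rw [hδ, div_div, div_pow]
      congr 1
      ring
    rw [hδ2, mul_div_assoc', div_le_iff₀ (by positivity)]
    have k1 : D1 ^ 2 * D ^ 4 * ε ^ C * (256 * (D ^ 4 * D ^ (2 * CB))) ≤ ε ^ 3 * D1 ^ C := by
      calc D1 ^ 2 * D ^ 4 * ε ^ C * (256 * (D ^ 4 * D ^ (2 * CB)))
          ≤ D1 ^ 2 * D1 ^ 4 * ε ^ 3 * (D1 * (D1 ^ 4 * D1 ^ (2 * CB))) := by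
            have hεC : ε ^ C ≤ ε ^ 3 := pow_le_pow_of_le_one he.le he1 (by omega)
            have h256 : (256 : ℝ) ≤ D1 := le_trans (by norm_num) (hD.trans hD1)
            have q0 : D ^ 4 ≤ D1 ^ 4 := pow_le_pow_left₀ hD0.le hD1 4
            have q00 : D ^ (2 * CB) ≤ D1 ^ (2 * CB) := pow_le_pow_left₀ hD0.le hD1 _
            have q1 : D1 ^ 2 * D ^ 4 * ε ^ C ≤ D1 ^ 2 * D1 ^ 4 * ε ^ 3 :=
              mul_le_mul (mul_le_mul_of_nonneg_left q0 (by positivity)) hεC (by positivity)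
                (by positivity)
            have q2 : 256 * (D ^ 4 * D ^ (2 * CB)) ≤ D1 * (D1 ^ 4 * D1 ^ (2 * CB)) :=
              mul_le_mul h256 (mul_le_mul q0 q00 (by positivity) (by positivity))
                (by positivity) (by positivity)
            exact mul_le_mul q1 q2 (by positivity) (by positivity)
        _ = ε ^ 3 * D1 ^ (2 * CB + 11) := by ring
        _ ≤ ε ^ 3 * D1 ^ C := by
            apply mul_le_mul_of_nonneg_left _ (by positivity)
            apply pow_le_pow_right₀ _ (by omega)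
            refine le_trans ?_ (hD.trans hD1)
            norm_num
    calc D1 ^ 2 * D ^ 4 * ε ^ C
        = (D1 ^ 2 * D ^ 4 * ε ^ C * (256 * (D ^ 4 * D ^ (2 * CB)))) /
          (256 * (D ^ 4 * D ^ (2 * CB))) := by
          rw [mul_div_assoc, div_self (by positivity), mul_one]
      _ ≤ (ε ^ 3 * D1 ^ C) / (256 * (D ^ 4 * D ^ (2 * CB))) :=
          div_le_div_of_nonneg_right k1 (by positivity)
      _ = ε / 4 * (ε ^ 2 / (64 * (D ^ 4 * D ^ (2 * CB)))) * D1 ^ C := by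
          field_simp
          norm_num
  have h4 : Bd * s * δ ^ 2 ≤ (ε / 4 * N ^ 2) * δ ^ 2 := by
    calc Bd * s * δ ^ 2 ≤ D1 ^ 2 * D ^ 4 * (ε ^ C / D1 ^ C) * N ^ 2 := h2
      _ ≤ (ε / 4 * δ ^ 2) * N ^ 2 := mul_le_mul_of_nonneg_right h3 (by positivity)
      _ = _ := by ring
  exact le_of_mul_le_mul_right h4 (by positivity)

/-- largeness for the smaller `ε` -/
theorem bg {D1 ε ρ : ℝ} {k CB CN C : ℕ} (h : LS K b M J e ec D L E) (hD1 : D ≤ D1)
    (hBg : Bg K b M J e D1 ε ρ k C) (hC : (CB + 10) * CN ≤ C) :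
    Bg K b M J e D (ε / (8 * D ^ 2) / D ^ CB / (8 * D ^ 6)) ρ k CN := by
  have hD := D_ge h
  have hD0 : 0 < D := lt_of_lt_of_le (by norm_num) hD
  have hD10 : 0 < D1 := lt_of_lt_of_le hD0 hD1
  have he := hBg.ep
  have he1 := hBg.e1
  have h1D : 1 ≤ D := le_trans (by norm_num) hD
  have h1D1 : 1 ≤ D1 := h1D.trans hD1
  have key : D / (ε / (8 * D ^ 2) / D ^ CB / (8 * D ^ 6)) ≤ (D1 / ε) ^ (CB + 10) := by
    have e1 : D / (ε / (8 * D ^ 2) / D ^ CB / (8 * D ^ 6)) = 64 * D ^ (CB + 9) / ε := by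
      field_simp
      ring
    rw [e1, div_pow]
    have e2 : 64 * D ^ (CB + 9) ≤ D1 ^ (CB + 10) := by
      calc 64 * D ^ (CB + 9) ≤ D * D ^ (CB + 9) := by
            apply mul_le_mul_of_nonneg_right _ (by positivity)
            refine le_trans ?_ hD
            norm_num
        _ = D ^ (CB + 10) := by ring
        _ ≤ D1 ^ (CB + 10) := pow_le_pow_left₀ hD0.le hD1 _
    have e3 : ε ^ (CB + 10) ≤ ε := by
      calc ε ^ (CB + 10) ≤ ε ^ 1 := pow_le_pow_of_le_one he.le he1 (by omega)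
        _ = ε := pow_one _
    exact div_le_div₀ (by positivity) e2 (by positivity) e3
  have hr1 : 1 ≤ D1 / ε := by
    rw [le_div_iff₀ he]
    linarith
  have key2 : (D / (ε / (8 * D ^ 2) / D ^ CB / (8 * D ^ 6))) ^ (CN * (k + 1)) ≤
      (D1 / ε) ^ (C * (k + 1)) := by
    calc (D / (ε / (8 * D ^ 2) / D ^ CB / (8 * D ^ 6))) ^ (CN * (k + 1))
        ≤ ((D1 / ε) ^ (CB + 10)) ^ (CN * (k + 1)) := pow_le_pow_left₀ (by positivity) key _
      _ = (D1 / ε) ^ ((CB + 10) * CN * (k + 1)) := by rw [← pow_mul]; congr 1; ring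
      _ ≤ (D1 / ε) ^ (C * (k + 1)) :=
          pow_le_pow_right₀ hr1 (Nat.mul_le_mul_right _ hC)
  refine ⟨by positivity, ?_, key2.trans hBg.rho, hBg.it, ?_⟩
  · rw [div_div, div_div, div_le_one (by positivity)]
    have : (1 : ℝ) ≤ 8 * D ^ 2 * (D ^ CB * (8 * D ^ 6)) := by
      have a1 : (1 : ℝ) ≤ D ^ 2 := one_le_pow₀ h1D
      have a2 : (1 : ℝ) ≤ D ^ CB := one_le_pow₀ h1D
      have a3 : (1 : ℝ) ≤ D ^ 6 := one_le_pow₀ h1D
      have b1 : (1 : ℝ) ≤ 8 * D ^ 2 := by linarith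
      have b2 : (1 : ℝ) ≤ 8 * D ^ 6 := by linarith
      exact one_le_mul_of_one_le_of_one_le b1 (one_le_mul_of_one_le_of_one_le a2 b2)
    linarith
  · refine le_trans (mul_le_mul_of_nonneg_right key2 (by positivity)) hBg.nn

end XLB

open XLB in
theorem I_LB (hC : StCell) (hBody : StBody) (hNest : StNest) (hCT : StCT) (hCP : StCPsum) :
    StLB := by
  classical
  obtain ⟨CB, hBody⟩ := hBody
  obtain ⟨CN, hNest⟩ := hNest
  refine ⟨(CB + 10) * CN + 2 * CB + 12, ?_⟩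
  intro ι α γ _ _ _ _ K hx b M J e ec D L E h D1 ε ρ k hD1 hBg x y z hxy hyz hFy hFz hρ E' hE'
    gy gz hgy hgz ny nz
  set C := (CB + 10) * CN + 2 * CB + 12 with hCdef
  have hb1 : 1 ≤ b := by have := h.lev.two; omega
  have hb1' : (1 : ℝ) ≤ b := by exact_mod_cast hb1
  have hN : (0 : ℝ) < K.N := by exact_mod_cast h.npos
  have hn := n_pos K
  have hb := b_pos h
  have hD := D_ge h
  have hD0 : 0 < D := lt_of_lt_of_le (by norm_num) hD
  have hD10 : 0 < D1 := lt_of_lt_of_le hD0 hD1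
  have h1D : 1 ≤ D := le_trans (by norm_num) hD
  have he := hBg.ep
  have he1 := hBg.e1
  obtain ⟨ε1, hε1⟩ : ∃ ε1, ε1 = ε / (8 * D ^ 2) := ⟨_, rfl⟩
  obtain ⟨δ, hδ⟩ : ∃ δ, δ = ε1 / D ^ CB := ⟨_, rfl⟩
  obtain ⟨ε2, hε2⟩ : ∃ ε2, ε2 = δ / (8 * D ^ 6) := ⟨_, rfl⟩
  have hε10 : 0 < ε1 := by rw [hε1]; positivity
  have hδ0 : 0 < δ := by rw [hδ]; positivity
  have hε20 : 0 < ε2 := by rw [hε2]; positivity
  have hε1D : ε1 * D ≤ ε / 8 := by
    rw [hε1, div_mul_eq_mul_div, div_le_div_iff₀ (by positivity) (by norm_num)]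
    have : D ≤ D ^ 2 := by nlinarith
    nlinarith
  have hε1le : ε1 ≤ ε / 8 := by nlinarith
  have hδle : δ ≤ ε1 := by
    rw [hδ]
    exact div_le_self hε10.le (one_le_pow₀ h1D)
  have hε2le : ε2 ≤ δ := by
    rw [hε2]
    apply div_le_self hδ0.le
    have : (1 : ℝ) ≤ D ^ 6 := one_le_pow₀ h1D
    linarith
  have hε2D : D ^ 6 * ε2 = δ / 8 := by
    rw [hε2]
    field_simp
  have hyJ : y + 1 ≤ J := hFy.1
  have hzJ : z + 1 ≤ J := hFz.1
  obtain ⟨Xy, hXy, hXyc, hXyB⟩ := hBody ι α K hx b M J e ec D L E h y hFy ε1 hε10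
    (by linarith)
  obtain ⟨Xz, hXz, hXzc, hXzB⟩ := hBody ι α K hx b M J e ec D L E h z hFz ε1 hε10
    (by linarith)
  rw [← hδ] at hXyB hXzB
  have hBg2 : Bg K b M J e D ε2 ρ k CN := by
    have := bg (CB := CB) h hD1 hBg (by omega : (CB + 10) * CN ≤ C)
    rwa [← hε1, ← hδ, ← hε2] at this
  -- the sets
  obtain ⟨s, hs⟩ : ∃ s : ℝ, s = Fintype.card ι * (b : ℝ) ^ (e x) := ⟨_, rfl⟩
  have hs0 : 0 < s := by rw [hs]; positivity
  set P1 : ℕ → ℕ → Prop := fun i l => ε2 * Fintype.card ι ≤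
    (b : ℝ) ^ (3 * e y) * ((NN K E (L.lab y) i ∩ RR K b L (z + 1) l).card : ℝ) with hP1
  set P2 : ℕ → ℕ → Prop := fun i l => ε2 * Fintype.card ι ≤
    (b : ℝ) ^ (3 * e z) * ((NN K E (L.lab z) i ∩ RR K b L (y + 1) l).card : ℝ) with hP2
  obtain ⟨t, ht⟩ : ∃ t : ℝ, t = (δ * Fintype.card ι / ((b : ℝ) ^ (e y)) ^ 3) *
    (δ * Fintype.card ι / ((b : ℝ) ^ (e z)) ^ 3) := ⟨_, rfl⟩
  obtain ⟨g, hg⟩ : ∃ g : ℝ, g = ε ^ C * (Fintype.card ι * (b : ℝ) ^ (e x)) /
    (D1 ^ C * (((b : ℝ) ^ (e y)) ^ 2 * ((b : ℝ) ^ (e z)) ^ 2)) := ⟨_, rfl⟩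
  have ht0 : 0 < t := by rw [ht]; positivity
  have hg0 : 0 < g := by rw [hg]; positivity
  set A1 := (PP K b (e x) E).filter (fun u => u.1 ∈ Xy) with hA1
  set A2 := (PP K b (e x) E).filter (fun u => u.2 ∈ Xz) with hA2
  set B1 := (PP K b (e x) E).filter (fun u => ∃ l ∈ EE K b (e z) E u.2, P1 u.1 l) with hB1
  set B2 := (PP K b (e x) E).filter (fun u => ∃ l ∈ EE K b (e y) E u.1, P2 u.2 l) with hB2
  set C1 := (PP K b (e x) E').filter (fun u =>
    t ≤ ((FF K b (e y) (e z) true (cell K b (e y) u.1, cell K b (e z) u.2)).card : ℝ) ∧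
    ((NN K E' gy u.1 ∩ NN K E' gz u.2).card : ℝ) ≤ g) with hC1
  set C2 := (PP K b (e x) E').filter (fun u =>
    t ≤ ((FF K b (e y) (e z) false (cell K b (e y) u.1, cell K b (e z) u.2)).card : ℝ) ∧
    ((NN K E' gy u.1 ∩ NN K E' gz u.2).card : ℝ) ≤ g) with hC2
  -- estimates
  have bA1 : (A1.card : ℝ) * s ≤ ε / 8 * K.N ^ 2 := by
    rw [hs]
    refine (cntX h (by omega) hXy).trans ?_
    calc (Xy.card : ℝ) * (D * K.N) ≤ (ε1 * K.N) * (D * K.N) :=
          mul_le_mul_of_nonneg_right hXyc (by positivity)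
      _ = (ε1 * D) * K.N ^ 2 := by ring
      _ ≤ _ := mul_le_mul_of_nonneg_right hε1D (by positivity)
  have bA2 : (A2.card : ℝ) * s ≤ ε / 8 * K.N ^ 2 := by
    rw [hs]
    refine (cntX2 h (by omega) hXz).trans ?_
    calc (Xz.card : ℝ) * (D * K.N) ≤ (ε1 * K.N) * (D * K.N) :=
          mul_le_mul_of_nonneg_right hXzc (by positivity)
      _ = (ε1 * D) * K.N ^ 2 := by ring
      _ ≤ _ := mul_le_mul_of_nonneg_right hε1D (by positivity)
  have hexy : e x ≤ e y := e_mono h.lev hxy (by omega)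
  have heyz : e y ≤ e z := e_mono h.lev hyz (by omega)
  have hρ0 : 0 ≤ ρ := le_trans (by positivity) hBg.rho
  have bB1 : (B1.card : ℝ) * s ≤ ε / 8 * K.N ^ 2 := by
    have n1 := hNest ι α K hx b M J e ec D L E h ε2 ρ k hBg2 x (z + 1) y (by omega) hzJ hxy
      (by omega) (by
        calc ρ ^ 4 * (b : ℝ) ^ (e x + e y) ≤ ρ ^ 4 * (b : ℝ) ^ (e x + e z) := by
              apply mul_le_mul_of_nonneg_left _ (by positivity)
              exact pow_le_pow_right₀ hb1' (by omega)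
          _ ≤ (b : ℝ) ^ (2 * e y) := hρ
          _ ≤ (b : ℝ) ^ (2 * e (z + 1)) := by
              apply pow_le_pow_right₀ hb1'
              have := e_mono h.lev (show y ≤ z + 1 by omega) hzJ
              omega)
    have n2 := cntN hC h (hxy.trans hyz) hzJ hFz.2.2 P1 (by
      intro i l l' hl hl' ha hc hp
      rw [hP1] at hp ⊢
      have := RR_congr h hzJ hl hl' ha hc
      simp only at hp ⊢
      rw [this]
      exact hp)
    have n3 : (((PP K b (e x) E).filter (fun u => P1 u.1 u.2)).card : ℝ) * s ≤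
        ε2 * (K.N : ℝ) ^ 2 := by
      rw [hs]
      convert n1 using 3
    calc (B1.card : ℝ) * s ≤
        (D ^ 6 * (((PP K b (e x) E).filter (fun u => P1 u.1 u.2)).card : ℝ)) * s :=
          mul_le_mul_of_nonneg_right n2 hs0.le
      _ = D ^ 6 * ((((PP K b (e x) E).filter (fun u => P1 u.1 u.2)).card : ℝ) * s) := by ring
      _ ≤ D ^ 6 * (ε2 * (K.N : ℝ) ^ 2) := mul_le_mul_of_nonneg_left n3 (by positivity)
      _ = (D ^ 6 * ε2) * (K.N : ℝ) ^ 2 := by ring
      _ ≤ ε / 8 * K.N ^ 2 := by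
          rw [hε2D]
          exact mul_le_mul_of_nonneg_right (by linarith) (by positivity)
  have bB2 : (B2.card : ℝ) * s ≤ ε / 8 * K.N ^ 2 := by
    have n1 := hNest ι α K hx b M J e ec D L E h ε2 ρ k hBg2 x (y + 1) z (by omega) hyJ
      (hxy.trans hyz) (by omega) (by
        calc ρ ^ 4 * (b : ℝ) ^ (e x + e z) ≤ (b : ℝ) ^ (2 * e y) := hρ
          _ ≤ (b : ℝ) ^ (2 * e (y + 1)) := by
              apply pow_le_pow_right₀ hb1'
              have := e_mono h.lev (show y ≤ y + 1 by omega) hyJ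
              omega)
    have n2 := cntN hC h hxy hyJ hFy.2.2 P2 (by
      intro i l l' hl hl' ha hc hp
      rw [hP2] at hp ⊢
      have := RR_congr h hyJ hl hl' ha hc
      simp only at hp ⊢
      rw [this]
      exact hp)
    have n3 : (((PP K b (e x) E).filter (fun u => P2 u.1 u.2)).card : ℝ) * s ≤
        ε2 * (K.N : ℝ) ^ 2 := by
      rw [hs]
      convert n1 using 3
    have n4 : (B2.card : ℝ) ≤
        (((PP K b (e x) E).filter (fun u => ∃ l ∈ EE K b (e y) E u.2, P2 u.1 l)).card : ℝ) := by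
      have : B2.card ≤
          ((PP K b (e x) E).filter (fun u => ∃ l ∈ EE K b (e y) E u.2, P2 u.1 l)).card := by
        apply card_le_card_of_injOn Prod.swap
        · intro u hu
          rw [hB2, mem_coe, mem_filter, PP, mem_filter, mem_product] at hu
          rw [mem_coe, mem_filter, PP, mem_filter, mem_product]
          obtain ⟨⟨⟨h1, h2⟩, h3, h4⟩, h5⟩ := hu
          exact ⟨⟨⟨h2, h1⟩, h3.symm, h4.symm⟩, h5⟩
        · intro u _ v _ huv
          exact Prod.swap_injective huv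
      exact_mod_cast this
    calc (B2.card : ℝ) * s ≤
        (D ^ 6 * (((PP K b (e x) E).filter (fun u => P2 u.1 u.2)).card : ℝ)) * s :=
          mul_le_mul_of_nonneg_right (n4.trans n2) hs0.le
      _ = D ^ 6 * ((((PP K b (e x) E).filter (fun u => P2 u.1 u.2)).card : ℝ) * s) := by ring
      _ ≤ D ^ 6 * (ε2 * (K.N : ℝ) ^ 2) := mul_le_mul_of_nonneg_left n3 (by positivity)
      _ = (D ^ 6 * ε2) * (K.N : ℝ) ^ 2 := by ring
      _ ≤ ε / 8 * K.N ^ 2 := by
          rw [hε2D]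
          exact mul_le_mul_of_nonneg_right (by linarith) (by positivity)
  have hδ' : δ = ε / (8 * D ^ 2) / D ^ CB := by rw [hδ, hε1]
  have bC : ∀ q : Bool, ∀ Bad : Finset (ℕ × ℕ), Bad = (PP K b (e x) E').filter (fun u =>
      t ≤ ((FF K b (e y) (e z) q (cell K b (e y) u.1, cell K b (e z) u.2)).card : ℝ) ∧
      ((NN K E' gy u.1 ∩ NN K E' gz u.2).card : ℝ) ≤ g) →
      (Bad.card : ℝ) * s ≤ ε / 4 * K.N ^ 2 := by
    intro q Bad hBad
    have n1 := cntC hC hCP h hxy hyz (by omega) hE' hgy hgz ny nz q ht0 hg0.le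
      (Bad := Bad) (by rw [hBad]; exact filter_subset _ _)
      (by intro u hu; rw [hBad, mem_filter] at hu; exact hu.2.1)
      (by intro u hu; rw [hBad, mem_filter] at hu; exact hu.2.2)
    refine termC (CB := CB) (C := C) hn hN (show 0 < (b : ℝ) ^ (e x) by positivity)
      (show 0 < (b : ℝ) ^ (e y) by positivity) (show 0 < (b : ℝ) ^ (e z) by positivity) hD hD1
      he he1 hδ' (by omega) hs (Nat.cast_nonneg _) ht hg ?_
    have e1 : ((b : ℝ) ^ (e x)) ^ 2 = (b : ℝ) ^ (2 * e x) := by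
      rw [← pow_mul]; congr 1; ring
    rw [e1]
    exact n1
  have bC1 := bC true C1 hC1
  have bC2 := bC false C2 hC2
  -- covering
  set S := (PP K b (e x) E').filter (fun u : ℕ × ℕ => Sep b L (L.lab y u.1) (L.lab z u.2) ∧
    D1 ^ C * ((NN K E' gy u.1 ∩ NN K E' gz u.2).card : ℝ) * (b : ℝ) ^ (2 * e y + 2 * e z) <
      ε ^ C * (Fintype.card ι * (b : ℝ) ^ (e x))) with hS
  have hcov : S ⊆ A1 ∪ A2 ∪ (B1 ∪ B2) ∪ (C1 ∪ C2) := by
    intro u hu
    rw [hS, mem_filter] at hu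
    obtain ⟨hu1, hu2, hu3⟩ := hu
    have hu1' := hu1
    rw [PP, mem_filter, mem_product] at hu1
    obtain ⟨⟨m1, m2⟩, m3, m4⟩ := hu1
    have hPE : u ∈ PP K b (e x) E := by
      rw [PP, mem_filter, mem_product]
      exact ⟨⟨hE' m1, hE' m2⟩, m3, m4⟩
    by_cases hy1 : u.1 ∈ Xy
    · simp only [mem_union]
      exact Or.inl (Or.inl (Or.inl (mem_filter.2 ⟨hPE, hy1⟩)))
    by_cases hz1 : u.2 ∈ Xz
    · simp only [mem_union]
      exact Or.inl (Or.inl (Or.inr (mem_filter.2 ⟨hPE, hz1⟩)))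
    obtain ⟨Ψ, μ, b1⟩ := hXyB u.1 (mem_sdiff.2 ⟨hE' m1, hy1⟩)
    obtain ⟨Ψ', μ', b2⟩ := hXzB u.2 (mem_sdiff.2 ⟨hE' m2, hz1⟩)
    have hge : t ≤ (Ψ.card : ℝ) * (Ψ'.card : ℝ) := by
      rw [ht]
      apply mul_le_mul
      · rw [div_le_iff₀ (by positivity)]
        have := b1.2.1
        rw [← pow_mul]
        calc δ * (Fintype.card ι : ℝ) ≤ (b : ℝ) ^ (3 * e y) * Ψ.card := this
          _ = Ψ.card * (b : ℝ) ^ (e y * 3) := by rw [mul_comm, mul_comm 3]
      · rw [div_le_iff₀ (by positivity)]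
        have := b2.2.1
        rw [← pow_mul]
        calc δ * (Fintype.card ι : ℝ) ≤ (b : ℝ) ^ (3 * e z) * Ψ'.card := this
          _ = Ψ'.card * (b : ℝ) ^ (e z * 3) := by rw [mul_comm, mul_comm 3]
      · positivity
      · positivity
    have hgle : ((NN K E' gy u.1 ∩ NN K E' gz u.2).card : ℝ) ≤ g := by
      rw [hg, le_div_iff₀ (by positivity)]
      have e1 : ((b : ℝ) ^ (e y)) ^ 2 * ((b : ℝ) ^ (e z)) ^ 2 =
          (b : ℝ) ^ (2 * e y + 2 * e z) := by
        rw [← pow_mul, ← pow_mul, ← pow_add]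
        congr 1
        ring
      rw [e1]
      linarith
    rcases hCT ι α K hx b M J e ec D L E h y z hyJ hzJ u.1 (hE' m1) u.2 (hE' m2) m3 δ Ψ Ψ'
      μ μ' b1 b2 hu2 with h1 | h1 | ⟨l, hl, h1⟩ | ⟨l, hl, h1⟩
    · simp only [mem_union]
      refine Or.inr (Or.inl (mem_filter.2 ⟨hu1', ?_, hgle⟩))
      refine hge.trans ?_
      exact_mod_cast h1
    · simp only [mem_union]
      refine Or.inr (Or.inr (mem_filter.2 ⟨hu1', ?_, hgle⟩))
      refine hge.trans ?_
      exact_mod_cast h1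
    · simp only [mem_union]
      refine Or.inl (Or.inr (Or.inl (mem_filter.2 ⟨hPE, l, hl, ?_⟩)))
      change ε2 * Fintype.card ι ≤
        (b : ℝ) ^ (3 * e y) * ((NN K E (L.lab y) u.1 ∩ RR K b L (z + 1) l).card : ℝ)
      calc ε2 * (Fintype.card ι : ℝ) ≤ δ * Fintype.card ι :=
            mul_le_mul_of_nonneg_right hε2le hn.le
        _ ≤ (b : ℝ) ^ (3 * e y) * Ψ.card := b1.2.1
        _ ≤ _ := by
            apply mul_le_mul_of_nonneg_left _ (by positivity)
            exact_mod_cast card_le_card (subset_inter b1.1 h1)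
    · simp only [mem_union]
      refine Or.inl (Or.inr (Or.inr (mem_filter.2 ⟨hPE, l, hl, ?_⟩)))
      change ε2 * Fintype.card ι ≤
        (b : ℝ) ^ (3 * e z) * ((NN K E (L.lab z) u.2 ∩ RR K b L (y + 1) l).card : ℝ)
      calc ε2 * (Fintype.card ι : ℝ) ≤ δ * Fintype.card ι :=
            mul_le_mul_of_nonneg_right hε2le hn.le
        _ ≤ (b : ℝ) ^ (3 * e z) * Ψ'.card := b2.2.1
        _ ≤ _ := by
            apply mul_le_mul_of_nonneg_left _ (by positivity)
            exact_mod_cast card_le_card (subset_inter b2.1 h1)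
  have hcard : (S.card : ℝ) ≤ (A1.card : ℝ) + A2.card + (B1.card + B2.card) +
      (C1.card + C2.card) := by
    have h1 := card_le_card hcov
    have h2 := card_union_le (A1 ∪ A2 ∪ (B1 ∪ B2)) (C1 ∪ C2)
    have h3 := card_union_le (A1 ∪ A2) (B1 ∪ B2)
    have h4 := card_union_le A1 A2
    have h5 := card_union_le B1 B2
    have h6 := card_union_le C1 C2
    have : S.card ≤ A1.card + A2.card + (B1.card + B2.card) + (C1.card + C2.card) := by omega
    exact_mod_cast this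
  rw [← hs]
  calc (S.card : ℝ) * s ≤ ((A1.card : ℝ) + A2.card + (B1.card + B2.card) +
        (C1.card + C2.card)) * s := mul_le_mul_of_nonneg_right hcard hs0.le
    _ = (A1.card : ℝ) * s + A2.card * s + (B1.card * s + B2.card * s) +
        (C1.card * s + C2.card * s) := by ring
    _ ≤ ε / 8 * K.N ^ 2 + ε / 8 * K.N ^ 2 + (ε / 8 * K.N ^ 2 + ε / 8 * K.N ^ 2) +
        (ε / 4 * K.N ^ 2 + ε / 4 * K.N ^ 2) := by linarith
    _ = ε * (K.N : ℝ) ^ 2 := by ring

end Pool.Agent.Work.MP_e17eac_co.HS
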