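import Pool.Agent.Work.MP_e17eac_co.HS.P_P2

/-!
# HS: NEST
-/

namespace Pool.Agent.Work.MP_e17eac_co.HS

open Finset
open Pool.Agent.Work.MP_e17eac_co.DH
open Pool.Agent.Work.MP_e17eac_co.B1
open Pool.Agent.Work.MP_e17eac_co.HSB

namespace XB

variable {ι α : Type} [Fintype ι] [DecidableEq ι] [DecidableEq α]
  {K : KSys ι} {b M J : ℕ} {e ec : ℕ → ℕ} {D : ℝ} {L : Lb α} {E : Finset ℕ}

namespace Nm

variable {ε ρ nB N y P : ℝ} {k : ℕ} {D : ℝ}

lemma P8 (h : Nm D ε ρ nB N y P k) : (8 : ℝ) ≤ P := by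
  have := h.y64.trans h.yP
  norm_num at this; linarith

lemma DP (h : Nm D ε ρ nB N y P k) : D ≤ P := h.Dy.trans h.yP

lemma D8 (h : Nm D ε ρ nB N y P k) : (8 : ℝ) ≤ D := by
  have := h.hD
  norm_num at this; linarith

lemma r9 (h : Nm D ε ρ nB N y P k) (j : ℕ) :
    1 / P ^ 22 + D ^ 3 * (1 / P ^ 17 * (y ^ 9) ^ j) ≤
      1 / y ^ 5 * (1 / P ^ 17 * (y ^ 9) ^ (j + 1)) := by
  have hy1 := h.y1
  have hy0 : 0 < y := by linarith
  have hP1 := h.P1
  have hP0 : 0 < P := by linarith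
  have hD1 := h.D1
  have hq : 1 ≤ (y ^ 9) ^ j := one_le_pow₀ (one_le_pow₀ hy1)
  have h1 : 1 / P ^ 22 ≤ 1 / P ^ 17 :=
    one_div_le_one_div_of_le (by positivity) (pow_le_pow_right₀ hP1 (by norm_num))
  have e1 : 1 / y ^ 5 * (1 / P ^ 17 * (y ^ 9) ^ (j + 1)) = 1 / P ^ 17 * (y ^ 4 * (y ^ 9) ^ j) := by
    rw [pow_succ (y ^ 9) j]; field_simp
  rw [e1]
  have h2 : 2 * D ^ 3 ≤ y ^ 4 := by
    have h3 : D ^ 3 ≤ y ^ 3 := pow_le_pow_left₀ (by linarith) h.Dy 3
    have h4 : (2 : ℝ) ≤ y := by have := h.y64; norm_num at this; linarith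
    calc 2 * D ^ 3 ≤ y * y ^ 3 := mul_le_mul h4 h3 (by positivity) hy0.le
      _ = y ^ 4 := by ring
  have h3 : 1 ≤ D ^ 3 * (y ^ 9) ^ j := one_le_mul_of_one_le_of_one_le (one_le_pow₀ hD1) hq
  have h4 : 2 * D ^ 3 * (y ^ 9) ^ j ≤ y ^ 4 * (y ^ 9) ^ j :=
    mul_le_mul_of_nonneg_right h2 (by positivity)
  have hp : 0 ≤ 1 / P ^ 17 := by positivity
  calc 1 / P ^ 22 + D ^ 3 * (1 / P ^ 17 * (y ^ 9) ^ j)
      ≤ 1 / P ^ 17 * 1 + 1 / P ^ 17 * (D ^ 3 * (y ^ 9) ^ j) := by linarith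
    _ = 1 / P ^ 17 * (1 + D ^ 3 * (y ^ 9) ^ j) := by ring
    _ ≤ 1 / P ^ 17 * (y ^ 4 * (y ^ 9) ^ j) := mul_le_mul_of_nonneg_left (by linarith) hp

lemma r10 (h : Nm D ε ρ nB N y P k) : D ^ 3 * y ≤ 1 / y ^ 5 * y ^ 10 := by
  have hy1 := h.y1
  have hy0 : 0 < y := by linarith
  have e1 : 1 / y ^ 5 * y ^ 10 = y ^ 5 := by field_simp
  rw [e1]
  have h3 : D ^ 3 ≤ y ^ 3 := pow_le_pow_left₀ (by linarith [h.D1]) h.Dy 3
  calc D ^ 3 * y ≤ y ^ 3 * y := mul_le_mul_of_nonneg_right h3 hy0.le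
    _ = y ^ 4 := by ring
    _ ≤ y ^ 5 := pow_le_pow_right₀ hy1 (by norm_num)

lemma e1' (h : Nm D ε ρ nB N y P k) : 1 / P ^ 22 ≤ 1 / y ^ 5 * (D ^ 2 * (1 / P ^ 17)) := by
  have hy1 := h.y1
  have hy0 : 0 < y := by linarith
  have hP1 := h.P1
  have hP0 : 0 < P := by linarith
  have hD1 := h.D1
  have h1 : 1 / P ^ 5 ≤ 1 / y ^ 5 := one_div_le_one_div_of_le (by positivity) (h.yPa 5)
  have h2 : 1 ≤ D ^ 2 := one_le_pow₀ hD1
  calc 1 / P ^ 22 = 1 / P ^ 5 * (1 * (1 / P ^ 17)) := by field_simp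
    _ ≤ 1 / y ^ 5 * (D ^ 2 * (1 / P ^ 17)) :=
        mul_le_mul h1 (mul_le_mul_of_nonneg_right h2 (by positivity)) (by positivity)
          (by positivity)

lemma fin2 (h : Nm D ε ρ nB N y P k) :
    1 / y ^ 5 + 1 / y ^ 5 * D ^ 4 + D ^ 5 * (1 / P ^ 17 * (y ^ 9) ^ k) +
      D ^ 5 * (1 / P ^ 17 * (y ^ 10) ^ k) ≤ ε / 2 := by
  have hy1 := h.y1
  have hy0 : 0 < y := by linarith
  have hP1 := h.P1
  have hP0 : 0 < P := by linarith
  have hD1 := h.D1
  have hD8 := h.D8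
  have hP8 := h.P8
  have hε := h.ep
  have hεP := h.epsP
  have hyk := h.ykP
  have hyk1 := h.yk1
  -- first part
  have h1 : 1 / y ^ 5 + 1 / y ^ 5 * D ^ 4 ≤ ε / 4 := by
    have e1 : 1 / y ^ 5 + 1 / y ^ 5 * D ^ 4 = (1 + D ^ 4) / y ^ 5 := by ring
    rw [e1, div_le_iff₀ (by positivity)]
    have h2 : (1 : ℝ) ≤ D ^ 4 := one_le_pow₀ hD1
    have h3 : D ^ 4 ≤ y ^ 4 := pow_le_pow_left₀ (by linarith) h.Dy 4
    have h4 : ε / 4 * y ^ 5 = D * y ^ 4 / 4 := by
      calc ε / 4 * y ^ 5 = (ε * y) * y ^ 4 / 4 := by ring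
        _ = D * y ^ 4 / 4 := by rw [h.ey]
    rw [h4]
    have h5 : 8 * y ^ 4 ≤ D * y ^ 4 := mul_le_mul_of_nonneg_right hD8 (by positivity)
    linarith
  have hbnd : ∀ a : ℕ, a ≤ 10 → D ^ 5 * (1 / P ^ 17 * (y ^ a) ^ k) ≤ ε / 8 := by
    intro a ha
    have h2 : (y ^ a) ^ k ≤ P ^ 10 := by
      rw [← pow_mul, mul_comm, pow_mul]
      calc (y ^ k) ^ a ≤ P ^ a := pow_le_pow_left₀ (by linarith) hyk a
        _ ≤ P ^ 10 := pow_le_pow_right₀ hP1 ha
    have h3 : D ^ 5 * (1 / P ^ 17 * (y ^ a) ^ k) ≤ P ^ 5 * (1 / P ^ 17 * P ^ 10) := by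
      apply mul_le_mul (h.DPa 5) (mul_le_mul_of_nonneg_left h2 (by positivity)) (by positivity)
        (by positivity)
    refine h3.trans ?_
    have e1 : P ^ 5 * (1 / P ^ 17 * P ^ 10) = 1 / P ^ 2 := by field_simp
    rw [e1, div_le_iff₀ (by positivity)]
    have h4 : 8 ≤ P * (ε * P) := by
      calc (8 : ℝ) = 8 * 1 := by ring
        _ ≤ P * (ε * P) := mul_le_mul hP8 hεP (by norm_num) hP0.le
    calc (1 : ℝ) = 8 / 8 := by norm_num
      _ ≤ P * (ε * P) / 8 := by linarith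
      _ = ε / 8 * P ^ 2 := by ring
  have h5 := hbnd 9 (by norm_num)
  have h6 := hbnd 10 (by norm_num)
  linarith

lemma base (h : Nm D ε ρ nB N y P k) {n X Y Z : ℝ} (hn : 0 < n) (hX : 0 < X) (hY : 0 < Y)
    (hZ : 0 < Z) (hxyz : ρ ^ 4 * (X * Z) ≤ Y ^ 2) :
    D ^ 8 * (n * X / Z ^ 4) / (1 / P ^ 22) ^ 3 *
      (D ^ 8 * (n * X / Y ^ 4) / (1 / P ^ 22) ^ 3 * ρ) < (ε * n / Z ^ 3 * (1 / P ^ 17)) ^ 2 := by
  have hP1 := h.P1
  have hP0 : 0 < P := by linarith
  have hD1 := h.D1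
  have hD0 : 0 < D := by linarith
  have hρ1 := h.rho1
  have hρ0 : 0 < ρ := by linarith
  have hεP := h.epsP
  have hP8 := h.P8
  have hε := h.ep
  have h1 : ρ ^ 8 * (X * Z) ^ 2 ≤ Y ^ 4 := by
    have := pow_le_pow_left₀ (by positivity) hxyz 2
    calc ρ ^ 8 * (X * Z) ^ 2 = (ρ ^ 4 * (X * Z)) ^ 2 := by ring
      _ ≤ (Y ^ 2) ^ 2 := this
      _ = Y ^ 4 := by ring
  have e1 : D ^ 8 * (n * X / Z ^ 4) / (1 / P ^ 22) ^ 3 *
      (D ^ 8 * (n * X / Y ^ 4) / (1 / P ^ 22) ^ 3 * ρ) =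
      D ^ 16 * P ^ 132 * ρ * n ^ 2 * X ^ 2 / (Z ^ 4 * Y ^ 4) := by
    field_simp
  have e2 : (ε * n / Z ^ 3 * (1 / P ^ 17)) ^ 2 = ε ^ 2 * n ^ 2 / (Z ^ 6 * P ^ 34) := by
    field_simp
  rw [e1, e2, div_lt_div_iff₀ (by positivity) (by positivity)]
  -- D^16 P^166 < ε^2 ρ^7
  have h2 : D ^ 16 * P ^ 166 < ε ^ 2 * ρ ^ 7 := by
    have h3 : D ^ 16 * P ^ 168 ≤ P ^ 184 := by
      calc D ^ 16 * P ^ 168 ≤ P ^ 16 * P ^ 168 :=
            mul_le_mul_of_nonneg_right (h.DPa 16) (by positivity)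
        _ = P ^ 184 := by ring
    have h4 : P ^ 184 < P ^ 200 := pow_lt_pow_right₀ (by linarith) (by norm_num)
    have h5 : ρ ≤ ρ ^ 7 := by
      calc ρ = ρ ^ 1 := (pow_one ρ).symm
        _ ≤ ρ ^ 7 := pow_le_pow_right₀ hρ1 (by norm_num)
    have h6 : D ^ 16 * P ^ 168 < ρ ^ 7 := by
      linarith [h.rho]
    have h7 : 1 ≤ (ε * P) ^ 2 := one_le_pow₀ hεP
    have h8 : D ^ 16 * P ^ 168 < (ε * P) ^ 2 * ρ ^ 7 :=
      lt_of_lt_of_le h6 (le_mul_of_one_le_left (by positivity) h7)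
    have h9 : (D ^ 16 * P ^ 166) * P ^ 2 < (ε ^ 2 * ρ ^ 7) * P ^ 2 := by
      calc (D ^ 16 * P ^ 166) * P ^ 2 = D ^ 16 * P ^ 168 := by ring
        _ < (ε * P) ^ 2 * ρ ^ 7 := h8
        _ = (ε ^ 2 * ρ ^ 7) * P ^ 2 := by ring
    exact lt_of_mul_lt_mul_right h9 (by positivity)
  calc D ^ 16 * P ^ 132 * ρ * n ^ 2 * X ^ 2 * (Z ^ 6 * P ^ 34)
      = (D ^ 16 * P ^ 166) * (ρ * n ^ 2 * X ^ 2 * Z ^ 6) := by ring
    _ < (ε ^ 2 * ρ ^ 7) * (ρ * n ^ 2 * X ^ 2 * Z ^ 6) :=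
        mul_lt_mul_of_pos_right h2 (by positivity)
    _ = ε ^ 2 * n ^ 2 * Z ^ 4 * (ρ ^ 8 * (X * Z) ^ 2) := by ring
    _ ≤ ε ^ 2 * n ^ 2 * Z ^ 4 * Y ^ 4 := mul_le_mul_of_nonneg_left h1 (by positivity)
    _ = ε ^ 2 * n ^ 2 * (Z ^ 4 * Y ^ 4) := by ring

end Nm

/-- The `a`-lines with the label `u` in the window `w`. -/
def Nwin (K : KSys ι) (b x : ℕ) (L : Lb α) (E : Finset ℕ) (z w : ℕ) (u : α) : Finset ι :=
  ((E.filter (fun i => cell K b x i = w)).filter (fun i => L.lab z i = u)).image K.a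

lemma Nwin_sub (h : LS K b M J e ec D L E) {x z : ℕ} (hxz : x ≤ z) (hz : z ≤ J) (w : ℕ) (u : α) :
    Nwin K b (e x) L E z w u ⊆ RL K b L u ∩ PSr K b M D (e x) w := by
  intro r hr
  obtain ⟨i, hi, rfl⟩ := mem_image.1 hr
  have hi1 := mem_filter.1 hi
  have hi2 := mem_filter.1 hi1.1
  refine mem_inter.2 ⟨?_, ?_⟩
  · rw [← hi1.2]; exact a_mem h hz hi2.1
  · have := (h.hyg i hi2.1).rel false (e x) (e_le_M h.lev (hxz.trans hz))
    rw [hi2.2] at this
    exact this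

lemma Nwin_card (h : LS K b M J e ec D L E) {x z : ℕ} (hz : z ≤ J) (w : ℕ) (u : α) :
    ((Nwin K b (e x) L E z w u).card : ℝ) ≤ D * Fintype.card ι / ((b : ℝ) ^ (e z)) ^ 3 := by
  have hD := D_one h
  have hn := n_pos h
  have hb := b_pos h (e z)
  rcases Finset.eq_empty_or_nonempty ((E.filter (fun i => cell K b (e x) i = w)).filter
    (fun i => L.lab z i = u)) with he | ⟨i0, hi0⟩
  · rw [Nwin, he, image_empty, card_empty, Nat.cast_zero]
    positivity
  · have h0 := mem_filter.1 hi0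
    have h1 := (mem_filter.1 h0.1).1
    refine le_trans ?_ (vis_le h hz h1)
    exact_mod_cast card_le_card (fun r hr => by
      obtain ⟨i, hi, rfl⟩ := mem_image.1 hr
      have hi1 := mem_filter.1 hi
      have hi2 := (mem_filter.1 hi1.1).1
      have h3 : i ∈ ce K b (e z) (cell K b (e z) i0) :=
        mem_filter.2 ⟨mem_range.2 (h.hyg i hi2).lt,
          h.lcell z hz i hi2 i0 h1 (by rw [hi1.2, h0.2])⟩
      exact mem_union_left _ (mem_image_of_mem _ h3))

lemma NN_eq (h : LS K b M J e ec D L E) {x z : ℕ} (hxz : x ≤ z) (hz : z ≤ J) {i : ℕ}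
    (hi : i ∈ E) : NN K E (L.lab z) i ⊆ Nwin K b (e x) L E z (cell K b (e x) i) (L.lab z i) := by
  have hb1 : 1 ≤ b := by have := h.lev.two; omega
  intro r hr
  obtain ⟨i', hi', rfl⟩ := mem_image.1 hr
  have h1 := mem_filter.1 hi'
  refine mem_image.2 ⟨i', mem_filter.2 ⟨mem_filter.2 ⟨h1.1, ?_⟩, h1.2⟩, rfl⟩
  obtain ⟨-, -, hnest, -⟩ := I_CELL ι K b (e z) hb1
  have hem := e_mono h.lev hxz hz
  rw [hnest (e x) hem i', hnest (e x) hem i, h.lcell z hz i' h1.1 i hi h1.2]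

/-- Pairs of edges with one edge in `F`. -/
lemma pairs_F (h : LS K b M J e ec D L E) {x : ℕ} (hx : x ≤ J) {F : Finset ℕ} :
    ((((PP K b (e x) E).filter (fun u => u.1 ∈ F ∨ u.2 ∈ F)).card : ℝ)) ≤
      2 * F.card * (D * (K.N / (Fintype.card ι * (b : ℝ) ^ (e x)))) := by
  classical
  have key : ∀ j ∈ F, ((EE K b (e x) E j).card : ℝ) ≤
      D * (K.N / (Fintype.card ι * (b : ℝ) ^ (e x))) := by
    intro j _
    have h1 := line_le h hx (Y := (E.filter (fun i => cell K b (e x) i = cell K b (e x) j)))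
      (filter_subset _ _) (fun i hi => (mem_filter.1 hi).2) (K.a j)
    refine le_trans ?_ h1
    exact_mod_cast card_le_card (fun i hi => by
      have hi1 := mem_filter.1 hi
      exact mem_filter.2 ⟨mem_filter.2 ⟨hi1.1, hi1.2.2⟩, hi1.2.1⟩)
  set c := D * (K.N / (Fintype.card ι * (b : ℝ) ^ (e x))) with hc
  set A1 := (PP K b (e x) E).filter (fun u => u.1 ∈ F) with hA1
  set A2 := (PP K b (e x) E).filter (fun u => u.2 ∈ F) with hA2
  have h1 : (A1.card : ℝ) ≤ F.card * c := by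
    have e1 : A1.card = ∑ j ∈ F, (A1.filter (fun u => u.1 = j)).card :=
      card_eq_sum_card_fiberwise (fun u hu => (mem_filter.1 hu).2)
    rw [e1]
    push_cast
    calc ∑ j ∈ F, ((A1.filter (fun u => u.1 = j)).card : ℝ) ≤ ∑ _j ∈ F, c := by
          apply sum_le_sum
          intro j hj
          refine le_trans ?_ (key j hj)
          have : (A1.filter (fun u => u.1 = j)).card ≤ (EE K b (e x) E j).card := by
            apply card_le_card_of_injOn (fun u => u.2)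
            · intro u hu
              have hu1 := mem_filter.1 (mem_coe.1 hu)
              have hu2 := mem_filter.1 (mem_filter.1 hu1.1).1
              have hu3 := mem_product.1 hu2.1
              refine mem_coe.2 (mem_filter.2 ⟨hu3.2, ?_, ?_⟩)
              · rw [← hu1.2]; exact hu2.2.1.symm
              · rw [← hu1.2]; exact hu2.2.2.symm
            · rintro ⟨p1, w1⟩ hq ⟨p2, w2⟩ hq' hee
              have hq1 := (mem_filter.1 (mem_coe.1 hq)).2
              have hq2 := (mem_filter.1 (mem_coe.1 hq')).2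
              simp only at hq1 hq2 hee
              rw [hq1, hq2, hee]
          exact_mod_cast this
      _ = F.card * c := by rw [sum_const, nsmul_eq_mul]
  have h2 : (A2.card : ℝ) ≤ F.card * c := by
    have e1 : A2.card = ∑ j ∈ F, (A2.filter (fun u => u.2 = j)).card :=
      card_eq_sum_card_fiberwise (fun u hu => (mem_filter.1 hu).2)
    rw [e1]
    push_cast
    calc ∑ j ∈ F, ((A2.filter (fun u => u.2 = j)).card : ℝ) ≤ ∑ _j ∈ F, c := by
          apply sum_le_sum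
          intro j hj
          refine le_trans ?_ (key j hj)
          have : (A2.filter (fun u => u.2 = j)).card ≤ (EE K b (e x) E j).card := by
            apply card_le_card_of_injOn (fun u => u.1)
            · intro u hu
              have hu1 := mem_filter.1 (mem_coe.1 hu)
              have hu2 := mem_filter.1 (mem_filter.1 hu1.1).1
              have hu3 := mem_product.1 hu2.1
              refine mem_coe.2 (mem_filter.2 ⟨hu3.1, ?_, ?_⟩)
              · rw [← hu1.2]; exact hu2.2.1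
              · rw [← hu1.2]; exact hu2.2.2
            · rintro ⟨p1, w1⟩ hq ⟨p2, w2⟩ hq' hee
              have hq1 := (mem_filter.1 (mem_coe.1 hq)).2
              have hq2 := (mem_filter.1 (mem_coe.1 hq')).2
              simp only at hq1 hq2 hee
              rw [hq1, hq2, hee]
          exact_mod_cast this
      _ = F.card * c := by rw [sum_const, nsmul_eq_mul]
  have h3 : (PP K b (e x) E).filter (fun u => u.1 ∈ F ∨ u.2 ∈ F) ⊆ A1 ∪ A2 := by
    intro u hu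
    obtain ⟨hu1, hu2⟩ := mem_filter.1 hu
    rcases hu2 with hu2 | hu2
    · exact mem_union_left _ (mem_filter.2 ⟨hu1, hu2⟩)
    · exact mem_union_right _ (mem_filter.2 ⟨hu1, hu2⟩)
  have h4 : ((((PP K b (e x) E).filter (fun u => u.1 ∈ F ∨ u.2 ∈ F)).card : ℝ)) ≤
      A1.card + A2.card := by
    exact_mod_cast (card_le_card h3).trans (card_union_le _ _)
  linarith

end XB

open XB

theorem I_Nest (hDey : StDey) (hTok : StCellTok) (hCut : StCut) : StNest := by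
  classical
  refine ⟨200, ?_⟩
  intro ι α _ _ _ K hinj b M J e ec D L E h ε ρ k hB x y z hxy hy hxz hz hxyz
  have hNm := nm h hB
  have hn := n_pos h
  have hN : (0 : ℝ) < K.N := by exact_mod_cast h.npos
  have hD1 := D_one h
  have hb1 : 1 ≤ b := by have := h.lev.two; omega
  have hbR : (1 : ℝ) ≤ b := by exact_mod_cast hb1
  have hxJ := hxy.trans hy
  set n : ℝ := (Fintype.card ι : ℝ) with hnd
  set X : ℝ := (b : ℝ) ^ (e x) with hX
  set Y : ℝ := (b : ℝ) ^ (e y) with hY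
  set Z : ℝ := (b : ℝ) ^ (e z) with hZ
  set P : ℝ := (D / ε) ^ (k + 1) with hP
  set yy : ℝ := D / ε with hyy
  have hX0 : 0 < X := b_pos h _
  have hX1 : 1 ≤ X := b_one h _
  have hY0 : 0 < Y := b_pos h _
  have hZ0 : 0 < Z := b_pos h _
  have hP1 := hNm.P1
  have hP0 : 0 < P := by linarith
  have hy1 := hNm.y1
  have hy0 : 0 < yy := by linarith
  have hρ1 := hNm.rho1
  have hε := hB.ep
  set u : ℝ := K.N / (n * X) with hu
  have hu0 : 0 < u := by positivity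
  have hnX : n * X ≤ n * (b : ℝ) ^ (5 * M) := by
    apply mul_le_mul_of_nonneg_left _ hn.le
    exact pow_le_pow_right₀ hbR (by have := e_le_M h.lev hxJ; omega)
  have hnX0 : 0 ≤ n * X := by positivity
  set κ : ℝ := 1 / P ^ 22 with hκ
  have hκ0 : 0 < κ := by positivity
  have hκ1 : κ ≤ 1 := by
    rw [hκ, div_le_one (by positivity)]; exact one_le_pow₀ hP1
  have hκN : D ^ 2 * (n * X) ≤ κ * K.N := by
    rw [hκ, one_div, inv_mul_eq_div, le_div_iff₀ (by positivity)]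
    calc D ^ 2 * (n * X) * P ^ 22 = (D ^ 2 * P ^ 22) * (n * X) := by ring
      _ ≤ (P ^ 2 * P ^ 22) * (n * X) :=
          mul_le_mul_of_nonneg_right (mul_le_mul_of_nonneg_right (hNm.DPa 2) (by positivity)) hnX0
      _ = P ^ 24 * (n * X) := by ring
      _ ≤ K.N := hNm.nnle hnX hnX0 (by norm_num)
  have hnum := num_hc hNm.hD hκ0 hn hN hX0 hY0 h.dense hκN
  have hnum' := num_hc hNm.hD hκ0 hn hN hX0 hZ0 h.dense hκN
  set β : ℝ := D ^ 8 * (n * X / Y ^ 4) / κ ^ 3 with hβ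
  have hβ0 : 0 < β := by positivity
  set β' : ℝ := D ^ 8 * (n * X / Z ^ 4) / κ ^ 3 with hβ'
  have hβ'0 : 0 < β' := by positivity
  -- the cut edges
  set F := cutE K b L E y ∪ cutE K b L E z with hF
  have hFE : F ⊆ E := union_subset (filter_subset _ _) (filter_subset _ _)
  have hFc : (F.card : ℝ) ≤ 32 * D * (n * (b : ℝ) ^ (4 * M)) := by
    have h1 : (F.card : ℝ) ≤ (cutE K b L E y).card + (cutE K b L E z).card := by
      exact_mod_cast card_union_le _ _
    have h2 := cutE_le hCut h hy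
    have h3 := cutE_le hCut h hz
    linarith
  have hnB : n * (b : ℝ) ^ (4 * M) ≤ n * (b : ℝ) ^ (5 * M) := by
    apply mul_le_mul_of_nonneg_left _ hn.le
    exact pow_le_pow_right₀ hbR (by omega)
  have hF3 := hNm.cutN hnB (by positivity) hFc
  obtain ⟨hF1, hF2⟩ := hNm.cutN1 (Nat.cast_nonneg _) hF3
  set E' := E \ F with hE'
  have hE'E : E' ⊆ E := sdiff_subset
  have hE'y : E' ⊆ E \ cutE K b L E y := sdiff_subset_sdiff (Subset.refl _) subset_union_left
  have hE'N : (E'.card : ℝ) ≤ K.N := by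
    have : E'.card ≤ K.N := by
      refine le_trans (card_le_card (t := range K.N) ?_) (card_range _).le
      intro i hi
      exact mem_range.2 (h.hyg i (hE'E hi)).lt
    exact_mod_cast this
  set h0 : ℝ := ε * n / Z ^ 3 with hh0
  have hh00 : 0 < h0 := by positivity
  set S := (PP K b (e x) E).filter (fun v : ℕ × ℕ => ε * n ≤
    (b : ℝ) ^ (3 * e z) * ((NN K E (L.lab z) v.1 ∩ RR K b L y v.2).card : ℝ)) with hS
  set SF := (PP K b (e x) E).filter (fun v : ℕ × ℕ => v.1 ∈ F ∨ v.2 ∈ F) with hSF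
  set S' := (PP K b (e x) E').filter (fun v : ℕ × ℕ => h0 ≤
    ((Nwin K b (e x) L E z (cell K b (e x) v.1) (L.lab z v.1) ∩
      RL K b L (L.lab y v.2)).card : ℝ)) with hS'
  have hcov : S ⊆ SF ∪ S' := by
    intro v hv
    obtain ⟨hv1, hv2⟩ := mem_filter.1 hv
    obtain ⟨hv3, hv4⟩ := mem_filter.1 hv1
    obtain ⟨hv5, hv6⟩ := mem_product.1 hv3
    by_cases hvF : v.1 ∈ F ∨ v.2 ∈ F
    · exact mem_union_left _ (mem_filter.2 ⟨hv1, hvF⟩)
    · rw [not_or] at hvF
      refine mem_union_right _ (mem_filter.2 ⟨mem_filter.2 ⟨mem_product.2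
        ⟨mem_sdiff.2 ⟨hv5, hvF.1⟩, mem_sdiff.2 ⟨hv6, hvF.2⟩⟩, hv4⟩, ?_⟩)
      rw [hh0, div_le_iff₀ (by positivity)]
      refine hv2.trans ?_
      have h1 : (NN K E (L.lab z) v.1 ∩ RR K b L y v.2).card ≤
          (Nwin K b (e x) L E z (cell K b (e x) v.1) (L.lab z v.1) ∩
            RL K b L (L.lab y v.2)).card :=
        card_le_card (inter_subset_inter_right (NN_eq h hxz hz hv5))
      have h2 : (b : ℝ) ^ (3 * e z) = Z ^ 3 := by rw [hZ, ← pow_mul, mul_comm (e z) 3]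
      rw [h2, mul_comm]
      exact mul_le_mul_of_nonneg_right (by exact_mod_cast h1) (by positivity)
  have hSc : (S.card : ℝ) ≤ SF.card + S'.card := by
    exact_mod_cast (card_le_card hcov).trans (card_union_le _ _)
  have hSFc : (SF.card : ℝ) ≤ 2 * F.card * (D * u) := pairs_F h hxJ
  -- the pairs of uncut edges
  set W := E'.image (cell K b (e x)) with hW
  set T' : ℝ := D ^ 2 * Z / X with hT'
  set m : ℝ := D * u with hm
  set d' : ℝ := D * K.N / (n * Z) with hd'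
  set τ : ℝ := 1 / yy ^ 5 * u with hτ
  set δ0 : ℝ := 1 / yy ^ 5 * (K.N / (n * Z)) with hδ0
  set εk : ℕ → ℝ := fun j => T' * (1 / P ^ 17 * (yy ^ 9) ^ j) with hεk
  set lam : ℕ → ℝ := fun j => h0 * (1 / P ^ 17) * (yy ^ 10) ^ j with hlam
  have hT'0 : 0 < T' := by positivity
  have hm0 : 0 < m := by positivity
  have hd'0 : 0 < d' := by positivity
  have hτ0 : 0 < τ := by positivity
  have hδ00 : 0 < δ0 := by positivity
  have hwin : ∀ w, ((S'.filter (fun v => cell K b (e x) v.1 = w)).card : ℝ) ≤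
      τ * (E'.filter (fun i => cell K b (e x) i = w)).card +
      (δ0 * T' * m + (εk k + lam k * (T' / h0)) * d' * m) * (PSr K b M D (e x) w).card := by
    intro w
    have hA := als hDey hTok hinj h hxy hy w (E' := E') hE'E
    have hA' := als hDey hTok hinj h hxz hz w (E' := E') hE'E
    have hg : ∀ j, β * (β * ρ ^ (2 ^ (j + 1))) ≤ (β * ρ ^ (2 ^ j)) ^ 2 := by
      intro j
      apply le_of_eq
      rw [pow_succ 2 j, pow_mul]
      ring
    have hN1 : ∀ v : α, Nwin K b (e x) L E z w v ⊆ RL K b L v ∩ PSr K b M D (e x) w :=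
      Nwin_sub h hxz hz w
    have hN2 : ∀ i ∈ E'.filter (fun i => cell K b (e x) i = w),
        K.a i ∈ Nwin K b (e x) L E z w (L.lab z i) := by
      intro i hi
      have hi' := mem_filter.1 hi
      exact mem_image.2 ⟨i, mem_filter.2 ⟨mem_filter.2 ⟨hE'E hi'.1, hi'.2⟩, rfl⟩, rfl⟩
    have hVb : ∀ v : α, ((Nwin K b (e x) L E z w v).card : ℝ) ≤ D * n / Z ^ 3 :=
      Nwin_card h hz w
    have hrec1 : ∀ j, T' * (κ * u) + D * ↑K.N / (n * Y) * (D ^ 2 * Y / X) * εk j ≤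
        τ * εk (j + 1) := by
      intro j
      have h2 := hNm.r9 j
      have e1 : T' * (κ * u) + D * ↑K.N / (n * Y) * (D ^ 2 * Y / X) * εk j =
          T' * u * (1 / P ^ 22 + D ^ 3 * (1 / P ^ 17 * (yy ^ 9) ^ j)) := by
        simp only [hεk]
        rw [hu, hκ]; field_simp
      have e2 : τ * εk (j + 1) = T' * u * (1 / yy ^ 5 * (1 / P ^ 17 * (yy ^ 9) ^ (j + 1))) := by
        simp only [hεk]
        rw [hτ]; ring
      rw [e1, e2]
      exact mul_le_mul_of_nonneg_left h2 (by positivity)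
    have hrec2 : ∀ j, D * ↑K.N / (n * Y) * ((D ^ 2 * Y / X) * (D * n / Z ^ 3) / h0) * lam j ≤
        τ * lam (j + 1) := by
      intro j
      have h2 := hNm.r10
      have hyD : D * n / Z ^ 3 / h0 = yy := by rw [hh0, hyy]; field_simp
      have e1 : D * ↑K.N / (n * Y) * ((D ^ 2 * Y / X) * (D * n / Z ^ 3) / h0) * lam j =
          u * lam j * (D ^ 3 * yy) := by
        rw [mul_div_assoc (D ^ 2 * Y / X), hyD, hu]; field_simp
      have e2 : τ * lam (j + 1) = u * lam j * (1 / yy ^ 5 * yy ^ 10) := by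
        simp only [hlam]
        rw [hτ, pow_succ (yy ^ 10) j]; ring
      rw [e1, e2]
      exact mul_le_mul_of_nonneg_left h2 (by simp only [hlam]; positivity)
    have hrec3 : κ * u ≤ δ0 * εk 0 := by
      have h2 := hNm.e1'
      have e2 : δ0 * εk 0 = u * (1 / yy ^ 5 * (D ^ 2 * (1 / P ^ 17))) := by
        simp only [hεk, pow_zero]
        rw [hδ0, hT', hu]; field_simp
      rw [e2, mul_comm κ u]
      exact mul_le_mul_of_nonneg_left h2 hu0.le
    have hbase : β' * (β * ρ ^ (2 ^ 0)) < lam 0 ^ 2 := by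
      have h2 := hNm.base hn hX0 hY0 hZ0 (by
        have e1 : (b : ℝ) ^ (e x + e z) = X * Z := by rw [pow_add]
        have e2 : (b : ℝ) ^ (2 * e y) = Y ^ 2 := by rw [hY, ← pow_mul, mul_comm (e y) 2]
        rw [← e1, ← e2]; exact hxyz)
      simp only [hlam, pow_zero, pow_one, mul_one]
      exact h2
    have hres := hA.nest (uncut hE'y) (by norm_num) hβ0 (θ := κ * u) (by positivity)
      (by positivity) (by positivity) hτ0 hnum hA' (by norm_num) hβ'0 hT'0.le hd'0.le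
      (θ' := κ * u) (by positivity) hnum' (Nw := Nwin K b (e x) L E z w) hN1 hN2 hh00 hδ00 hVb
      (g := fun j => β * ρ ^ (2 ^ j)) (ε := εk) (lam := lam) hg (fun j => by positivity)
      (fun j => by simp only [hεk]; positivity) (fun j => by simp only [hlam]; positivity)
      hrec1 hrec2 hrec3 hbase hm0.le
      (fun p => line_le h hxJ ((filter_subset _ _).trans hE'E)
        (fun i hi => (mem_filter.1 hi).2) p) (k := k) (by
        refine (ps_le w (e x)).trans ?_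
        refine n_le_gk hD1 hn hX1 hY0 hκ0 hκ1 (b4 := (b : ℝ) ^ (4 * e J)) ?_ hB.it
        rw [hY, ← pow_mul, mul_comm (e y) 4]
        exact pow_le_pow_right₀ hbR (by have := e_mono h.lev hy le_rfl; omega))
    have hsub : S'.filter (fun v => cell K b (e x) v.1 = w) ⊆
        (((E'.filter (fun i => cell K b (e x) i = w)) ×ˢ
          (E'.filter (fun i => cell K b (e x) i = w))).filter (fun v : ℕ × ℕ =>
          K.a v.1 = K.a v.2 ∧ h0 ≤ ((Nwin K b (e x) L E z w (L.lab z v.1) ∩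
            RL K b L (L.lab y v.2)).card : ℝ))) := by
      intro v hv
      obtain ⟨hv1, hv2⟩ := mem_filter.1 hv
      obtain ⟨hv3, hv4⟩ := mem_filter.1 hv1
      obtain ⟨hv5, hv6, hv7⟩ := mem_filter.1 hv3
      obtain ⟨hv8, hv9⟩ := mem_product.1 hv5
      rw [hv2] at hv4
      exact mem_filter.2 ⟨mem_product.2 ⟨mem_filter.2 ⟨hv8, hv2⟩,
        mem_filter.2 ⟨hv9, by rw [← hv7]; exact hv2⟩⟩, hv6, hv4⟩
    have hc1 : ((S'.filter (fun v => cell K b (e x) v.1 = w)).card : ℝ) ≤ _ :=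
      le_trans (by exact_mod_cast card_le_card hsub) hres
    refine hc1.trans (le_of_eq ?_)
    ring
  have hS'c : (S'.card : ℝ) ≤ τ * K.N +
      (δ0 * T' * m + (εk k + lam k * (T' / h0)) * d' * m) * (D * (n * X)) := by
    have e1 : S'.card = ∑ w ∈ W, (S'.filter (fun v => cell K b (e x) v.1 = w)).card :=
      card_eq_sum_card_fiberwise (fun v hv => mem_image_of_mem _
        (mem_product.1 (mem_filter.1 (mem_filter.1 hv).1).1).1)
    have e2 : E'.card = ∑ w ∈ W, (E'.filter (fun i => cell K b (e x) i = w)).card :=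
      card_eq_sum_card_fiberwise (fun v hv => mem_image_of_mem _ hv)
    have hps := sum_ps h hxJ hE'E
    set c := δ0 * T' * m + (εk k + lam k * (T' / h0)) * d' * m with hc
    have hc0 : 0 ≤ c := by
      simp only [hc, hεk, hlam]
      positivity
    rw [e1]
    push_cast
    calc ∑ w ∈ W, ((S'.filter (fun v => cell K b (e x) v.1 = w)).card : ℝ)
        ≤ ∑ w ∈ W, (τ * (E'.filter (fun i => cell K b (e x) i = w)).card +
            c * (PSr K b M D (e x) w).card) := sum_le_sum (fun w _ => hwin w)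
      _ = τ * E'.card + c * ∑ w ∈ W, ((PSr K b M D (e x) w).card : ℝ) := by
          rw [sum_add_distrib, ← mul_sum, ← mul_sum, e2]
          push_cast
          rfl
      _ ≤ τ * K.N + c * (D * (n * X)) :=
          add_le_add (mul_le_mul_of_nonneg_left hE'N hτ0.le) (mul_le_mul_of_nonneg_left hps hc0)
  have hfin := hNm.fin2
  have hS'f : (S'.card : ℝ) * (n * X) ≤ ε / 2 * (K.N : ℝ) ^ 2 := by
    have h1 := mul_le_mul_of_nonneg_right hS'c hnX0
    have e1 : (τ * K.N + (δ0 * T' * m + (εk k + lam k * (T' / h0)) * d' * m) *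
        (D * (n * X))) * (n * X) = (1 / yy ^ 5 + 1 / yy ^ 5 * D ^ 4 +
        D ^ 5 * (1 / P ^ 17 * (yy ^ 9) ^ k) + D ^ 5 * (1 / P ^ 17 * (yy ^ 10) ^ k)) *
        (K.N : ℝ) ^ 2 := by
      simp only [hεk, hlam]
      rw [hτ, hδ0, hT', hm, hd', hu]
      field_simp
      ring
    rw [e1] at h1
    exact h1.trans (mul_le_mul_of_nonneg_right hfin (by positivity))
  have hSFf : (SF.card : ℝ) * (n * X) ≤ ε / 2 * (K.N : ℝ) ^ 2 := by
    have h1 := mul_le_mul_of_nonneg_right hSFc hnX0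
    have e1 : 2 * F.card * (D * u) * (n * X) = (2 * D * F.card) * K.N := by
      rw [hu]; field_simp
    rw [e1] at h1
    have h2 : 2 * D * F.card ≤ ε / 2 * K.N := by
      have e2 : F.card * (2 * D / ε) * ε = 2 * D * F.card := by field_simp
      have h3 := mul_le_mul_of_nonneg_right hF2 hε.le
      rw [e2] at h3
      have h4 : ε / 4 * K.N * ε ≤ ε / 4 * K.N * 1 :=
        mul_le_mul_of_nonneg_left hB.e1 (by positivity)
      have : 0 ≤ ε * K.N := by positivity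
      linarith
    calc (SF.card : ℝ) * (n * X) ≤ (2 * D * F.card) * K.N := h1
      _ ≤ (ε / 2 * K.N) * K.N := mul_le_mul_of_nonneg_right h2 hN.le
      _ = _ := by ring
  have h1 := mul_le_mul_of_nonneg_right hSc hnX0
  calc (S.card : ℝ) * (n * X) ≤ (SF.card + S'.card) * (n * X) := h1
    _ ≤ ε * (K.N : ℝ) ^ 2 := by rw [add_mul]; linarith

end Pool.Agent.Work.MP_e17eac_co.HS
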