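import Pool.Agent.Work.MP_e17eac_co.HS.P_B

/-!
# HS: P2 and PLANKS in hereditary form
-/

namespace Pool.Agent.Work.MP_e17eac_co.HS

open Finset
open Pool.Agent.Work.MP_e17eac_co.DH
open Pool.Agent.Work.MP_e17eac_co.B1
open Pool.Agent.Work.MP_e17eac_co.HSB

namespace XB

variable {ι α : Type} [Fintype ι] [DecidableEq ι] [DecidableEq α]
  {K : KSys ι} {b M J : ℕ} {e ec : ℕ → ℕ} {D : ℝ} {L : Lb α} {E : Finset ℕ}

namespace Nm

variable {ε ρ nB N y P : ℝ} {k : ℕ} {D : ℝ}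

/-- `P`-powers against `N`. -/
lemma nnle (h : Nm D ε ρ nB N y P k) {n X : ℝ} (hnX : n * X ≤ nB) (hn0 : 0 ≤ n * X) {a : ℕ}
    (ha : a ≤ 200) : P ^ a * (n * X) ≤ N := by
  have h1 : 0 ≤ P := by linarith [h.P1]
  calc P ^ a * (n * X) ≤ P ^ 200 * nB :=
        mul_le_mul (h.pw ha) hnX hn0 (pow_nonneg h1 _)
    _ ≤ N := h.nn

lemma recur (h : Nm D ε ρ nB N y P k) (j : ℕ) :
    D + D ^ 3 * (y ^ 4) ^ j ≤ ε / 2 * (y ^ 4) ^ (j + 1) := by
  have hD1 := h.D1
  have hD64 := h.hD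
  have hy1 := h.y1
  have hq : 1 ≤ (y ^ 4) ^ j := one_le_pow₀ (one_le_pow₀ hy1)
  have h1 : ε / 2 * y ^ 4 = D * y ^ 3 / 2 := by
    have := h.ey
    calc ε / 2 * y ^ 4 = (ε * y) * y ^ 3 / 2 := by ring
      _ = D * y ^ 3 / 2 := by rw [this]
  have h2 : 2 * D ^ 3 ≤ ε / 2 * y ^ 4 := by
    rw [h1]
    have h3 : D ^ 3 ≤ y ^ 3 := pow_le_pow_left₀ (by linarith) h.Dy 3
    have h4 : (4 : ℝ) ≤ D := by norm_num at hD64; linarith
    have h5 : 0 ≤ D ^ 3 := by positivity
    nlinarith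
  have h6 : D ≤ D ^ 3 * (y ^ 4) ^ j := by
    have h7 : D ≤ D ^ 3 := by nlinarith [sq_nonneg D, sq_nonneg (D - 1)]
    calc D ≤ D ^ 3 := h7
      _ = D ^ 3 * 1 := by ring
      _ ≤ _ := mul_le_mul_of_nonneg_left hq (by positivity)
  calc D + D ^ 3 * (y ^ 4) ^ j ≤ 2 * D ^ 3 * (y ^ 4) ^ j := by linarith
    _ ≤ (ε / 2 * y ^ 4) * (y ^ 4) ^ j := mul_le_mul_of_nonneg_right h2 (by linarith)
    _ = ε / 2 * (y ^ 4) ^ (j + 1) := by rw [pow_succ]; ring

/-- `(1 / P^8) y^(4k) D ≤ ε / 4`. -/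
lemma fin1 (h : Nm D ε ρ nB N y P k) : 1 / P ^ 8 * (y ^ 4) ^ k * D ≤ ε / 4 := by
  have hP1 := h.P1
  have hP0 : 0 < P := by linarith
  have hD1 := h.D1
  have hD64 := h.hD
  have h1 : (y ^ 4) ^ k ≤ P ^ 4 := by
    rw [← pow_mul, mul_comm, pow_mul]
    exact pow_le_pow_left₀ (by linarith [h.yk1]) h.ykP 4
  have h2 : (4 : ℝ) ≤ P := by
    have := h.y64.trans h.yP
    norm_num at this; linarith
  have h3 : D ≤ ε * P := by rw [← h.ey]; exact mul_le_mul_of_nonneg_left h.yP h.ep.le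
  have h4 : D ≤ P := h.Dy.trans h.yP
  have h5 : 1 / P ^ 8 * (y ^ 4) ^ k * D ≤ 1 / P ^ 8 * P ^ 4 * (ε * P) := by
    have hp : 0 ≤ 1 / P ^ 8 := by positivity
    have := mul_le_mul_of_nonneg_left h1 hp
    exact mul_le_mul this h3 (by linarith) (by positivity)
  refine h5.trans ?_
  have e : 1 / P ^ 8 * P ^ 4 * (ε * P) = ε / P ^ 3 := by field_simp
  rw [e]
  apply div_le_div_of_nonneg_left h.ep.le (by norm_num)
  calc (4 : ℝ) ≤ P := h2
    _ = P ^ 1 := (pow_one P).symm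
    _ ≤ P ^ 3 := pow_le_pow_right₀ hP1 (by norm_num)

/-- `D^8 P^24 ≤ ρ`. -/
lemma rho8 (h : Nm D ε ρ nB N y P k) : D ^ 8 / (1 / P ^ 8) ^ 3 ≤ ρ := by
  have hP1 := h.P1
  have hP0 : 0 < P := by linarith
  have e : D ^ 8 / (1 / P ^ 8) ^ 3 = D ^ 8 * P ^ 24 := by field_simp
  rw [e]
  calc D ^ 8 * P ^ 24 ≤ P ^ 8 * P ^ 24 := mul_le_mul_of_nonneg_right (h.DPa 8) (by positivity)
    _ = P ^ 32 := by ring
    _ ≤ P ^ 200 := h.pw (by norm_num)
    _ ≤ ρ := h.rho

/-- Few cut edges. -/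
lemma cutN (h : Nm D ε ρ nB N y P k) {n B F : ℝ} (hnB : n * B ≤ nB) (hn0 : 0 ≤ n * B)
    (hF : F ≤ 32 * D * (n * B)) : F * P ^ 3 ≤ N := by
  have hP1 := h.P1
  have hP0 : 0 < P := by linarith
  have h2 : (32 : ℝ) ≤ P := by
    have := h.y64.trans h.yP
    norm_num at this; linarith
  have h4 : D ≤ P := h.Dy.trans h.yP
  have h5 : 32 * D ≤ P * P := mul_le_mul h2 h4 (by linarith [h.D1]) hP0.le
  calc F * P ^ 3 ≤ (32 * D * (n * B)) * P ^ 3 := mul_le_mul_of_nonneg_right hF (by positivity)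
    _ ≤ ((P * P) * (n * B)) * P ^ 3 :=
        mul_le_mul_of_nonneg_right (mul_le_mul_of_nonneg_right h5 hn0) (by positivity)
    _ = P ^ 5 * (n * B) := by ring
    _ ≤ N := h.nnle hnB hn0 (by norm_num)

lemma epsP (h : Nm D ε ρ nB N y P k) : 1 ≤ ε * P := by
  have h1 : D ≤ ε * P := by rw [← h.ey]; exact mul_le_mul_of_nonneg_left h.yP h.ep.le
  linarith [h.D1]

/-- Few cut edges, part 2. -/
lemma cutN1 (h : Nm D ε ρ nB N y P k) {F : ℝ} (hF0 : 0 ≤ F) (hF : F * P ^ 3 ≤ N) :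
    F ≤ ε / 4 * N ∧ F * (2 * D / ε) ≤ ε / 4 * N := by
  have hP1 := h.P1
  have hP0 : 0 < P := by linarith
  have hε := h.ep
  have hεP := h.epsP
  have h2 : (8 : ℝ) ≤ P := by
    have := h.y64.trans h.yP
    norm_num at this; linarith
  constructor
  · have h3 : 4 * F ≤ ε * (F * P ^ 3) := by
      have h4 : F * 4 ≤ F * (ε * P * P ^ 2) := by
        apply mul_le_mul_of_nonneg_left _ hF0
        have h5 : (4 : ℝ) ≤ P ^ 2 := by nlinarith
        have h6 := mul_le_mul hεP h5 (by norm_num) (by linarith)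
        linarith
      calc 4 * F = F * 4 := by ring
        _ ≤ F * (ε * P * P ^ 2) := h4
        _ = ε * (F * P ^ 3) := by ring
    have h4 := mul_le_mul_of_nonneg_left hF hε.le
    linarith
  · have h3 : 2 * D / ε ≤ 2 * P := by
      have : D / ε = y := by rw [← h.ey]; field_simp
      have h4 : 2 * D / ε = 2 * y := by rw [mul_div_assoc, this]
      rw [h4]; linarith [h.yP]
    have h4 : F * (2 * D / ε) ≤ F * (2 * P) := mul_le_mul_of_nonneg_left h3 hF0
    have h5 : F * (8 * P) ≤ ε * (F * P ^ 3) := by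
      have h6 : F * (8 * P) ≤ F * (ε * P * P ^ 2) := by
        apply mul_le_mul_of_nonneg_left _ hF0
        have h7 : 8 * P ≤ P ^ 2 := by nlinarith
        have h8 := mul_le_mul hεP h7 (by positivity) (by linarith)
        linarith
      calc F * (8 * P) ≤ F * (ε * P * P ^ 2) := h6
        _ = ε * (F * P ^ 3) := by ring
    have h6 := mul_le_mul_of_nonneg_left hF hε.le
    linarith

end Nm

/-- The bound `n ≤ β ρ^(2^k)`. -/
lemma n_le_gk {D n X Y κ ρ b4 : ℝ} {k : ℕ} (hD : 1 ≤ D) (hn : 0 < n) (hX : 1 ≤ X) (hY : 0 < Y)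
    (hκ : 0 < κ) (hκ1 : κ ≤ 1) (hb : Y ^ 4 ≤ b4) (hit : b4 ≤ ρ ^ (2 ^ k)) :
    n ≤ D ^ 8 * (n * X / Y ^ 4) / κ ^ 3 * ρ ^ (2 ^ k) := by
  have h1 : Y ^ 4 ≤ ρ ^ (2 ^ k) := hb.trans hit
  have h2 : n / Y ^ 4 ≤ D ^ 8 * (n * X / Y ^ 4) / κ ^ 3 := by
    rw [le_div_iff₀ (by positivity)]
    have h3 : n / Y ^ 4 * κ ^ 3 ≤ n / Y ^ 4 * 1 :=
      mul_le_mul_of_nonneg_left (pow_le_one₀ hκ.le hκ1) (by positivity)
    have h4 : n / Y ^ 4 * 1 ≤ n * X / Y ^ 4 := by
      rw [mul_one]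
      apply div_le_div_of_nonneg_right _ (by positivity)
      exact le_mul_of_one_le_right hn.le hX
    have h5 : n * X / Y ^ 4 ≤ D ^ 8 * (n * X / Y ^ 4) :=
      le_mul_of_one_le_left (by positivity) (one_le_pow₀ hD)
    linarith
  calc n = n / Y ^ 4 * Y ^ 4 := by field_simp
    _ ≤ D ^ 8 * (n * X / Y ^ 4) / κ ^ 3 * ρ ^ (2 ^ k) :=
        mul_le_mul h2 h1 (by positivity) (by positivity)

lemma b_one (h : LS K b M J e ec D L E) (x : ℕ) : (1 : ℝ) ≤ (b : ℝ) ^ x := by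
  have h2 := h.lev.two
  have : (1 : ℝ) ≤ b := by exact_mod_cast (by omega : 1 ≤ b)
  exact one_le_pow₀ this

lemma ps_le (w x : ℕ) : ((PSr K b M D x w).card : ℝ) ≤ Fintype.card ι := by
  exact_mod_cast card_le_univ _

/-- Deleting the cut edges from a large set of edges on a line. -/
lemma del_cut (h : LS K b M J e ec D L E) {ε : ℝ} {x : ℕ} {F : Finset ℕ} {i : ℕ}
    (hi : ¬ (ε * (K.N / (Fintype.card ι * (b : ℝ) ^ (e x))) / 2 ≤
      ((EE K b (e x) F i).card : ℝ)))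
    {A : Finset ℕ} (hA : A ⊆ EE K b (e x) E i)
    (hAc : ε * K.N ≤ Fintype.card ι * (b : ℝ) ^ (e x) * A.card) :
    A \ F ⊆ EE K b (e x) (E \ F) i ∧
      ε * (K.N / (Fintype.card ι * (b : ℝ) ^ (e x))) / 2 ≤ ((A \ F).card : ℝ) := by
  have hpos := mul_pos (n_pos h) (b_pos h (e x))
  constructor
  · intro j hj
    have hj' := mem_sdiff.1 hj
    have h1 := mem_filter.1 (hA hj'.1)
    exact mem_filter.2 ⟨mem_sdiff.2 ⟨h1.1, hj'.2⟩, h1.2⟩
  · rw [not_le] at hi
    have h1 : ε * (K.N / (Fintype.card ι * (b : ℝ) ^ (e x))) ≤ (A.card : ℝ) := by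
      rw [← mul_div_assoc, div_le_iff₀ hpos]
      linarith
    have h2 : A ⊆ (A \ F) ∪ EE K b (e x) F i := by
      intro j hj
      by_cases hF : j ∈ F
      · exact mem_union_right _ (mem_filter.2 ⟨hF, (mem_filter.1 (hA hj)).2⟩)
      · exact mem_union_left _ (mem_sdiff.2 ⟨hj, hF⟩)
    have h3 : (A.card : ℝ) ≤ ((A \ F).card : ℝ) + ((EE K b (e x) F i).card : ℝ) := by
      exact_mod_cast (card_le_card h2).trans (card_union_le _ _)
    linarith

end XB

open XB

theorem I_P2 (hDey : StDey) (hTok : StCellTok) (hCut : StCut) : StP2 := by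
  classical
  refine ⟨200, ?_⟩
  intro ι α _ _ _ K hinj b M J e ec D L E h ε ρ k hB x y hxy hy
  have hNm := nm h hB
  have hn := n_pos h
  have hN : (0 : ℝ) < K.N := by exact_mod_cast h.npos
  have hD1 := D_one h
  have hb1 : 1 ≤ b := by have := h.lev.two; omega
  have hbR : (1 : ℝ) ≤ b := by exact_mod_cast hb1
  have hxJ := hxy.trans hy
  set n : ℝ := (Fintype.card ι : ℝ) with hnd
  set X : ℝ := (b : ℝ) ^ (e x) with hX
  set Y : ℝ := (b : ℝ) ^ (e y) with hY
  set P : ℝ := (D / ε) ^ (k + 1) with hP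
  set yy : ℝ := D / ε with hyy
  have hX0 : 0 < X := b_pos h _
  have hX1 : 1 ≤ X := b_one h _
  have hY0 : 0 < Y := b_pos h _
  have hP1 := hNm.P1
  have hP0 : 0 < P := by linarith
  have hy1 := hNm.y1
  have hρ1 := hNm.rho1
  set u : ℝ := K.N / (n * X) with hu
  have hu0 : 0 < u := by positivity
  have hnX : n * X ≤ n * (b : ℝ) ^ (5 * M) := by
    apply mul_le_mul_of_nonneg_left _ hn.le
    exact pow_le_pow_right₀ hbR (by have := e_le_M h.lev hxJ; omega)
  have hnX0 : 0 ≤ n * X := by positivity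
  set κ : ℝ := 1 / P ^ 8 with hκ
  have hκ0 : 0 < κ := by positivity
  have hκ1 : κ ≤ 1 := by
    rw [hκ, div_le_one (by positivity)]; exact one_le_pow₀ hP1
  have hκN : D ^ 2 * (n * X) ≤ κ * K.N := by
    rw [hκ, one_div, inv_mul_eq_div, le_div_iff₀ (by positivity)]
    calc D ^ 2 * (n * X) * P ^ 8 = (D ^ 2 * P ^ 8) * (n * X) := by ring
      _ ≤ (P ^ 2 * P ^ 8) * (n * X) :=
          mul_le_mul_of_nonneg_right (mul_le_mul_of_nonneg_right (hNm.DPa 2) (by positivity)) hnX0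
      _ = P ^ 10 * (n * X) := by ring
      _ ≤ K.N := hNm.nnle hnX hnX0 (by norm_num)
  have hnum := num_hc hNm.hD hκ0 hn hN hX0 hY0 h.dense hκN
  set β : ℝ := D ^ 8 * (n * X / Y ^ 4) / κ ^ 3 with hβ
  have hβ0 : 0 < β := by positivity
  -- the exceptional edges
  set F := cutE K b L E y with hF
  have hFE : F ⊆ E := filter_subset _ _
  have hFc : (F.card : ℝ) ≤ 32 * D * (n * (b : ℝ) ^ (4 * M)) := by
    refine (cutE_le hCut h hy).trans ?_
    apply mul_le_mul_of_nonneg_right _ (by positivity)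
    linarith
  have hnB : n * (b : ℝ) ^ (4 * M) ≤ n * (b : ℝ) ^ (5 * M) := by
    apply mul_le_mul_of_nonneg_left _ hn.le
    exact pow_le_pow_right₀ hbR (by omega)
  have hF3 := hNm.cutN hnB (by positivity) hFc
  obtain ⟨hF1, hF2⟩ := hNm.cutN1 (Nat.cast_nonneg _) hF3
  set τ : ℝ := ε * u / 2 with hτ
  have hε := hB.ep
  have hτ0 : 0 < τ := by positivity
  set E' := E \ F with hE'
  set X1 := E.filter (fun i => τ ≤ ((EE K b (e x) F i).card : ℝ)) with hX1d
  have hX1c : (X1.card : ℝ) ≤ ε / 4 * K.N := by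
    have h1 := many_le h hxJ (F := F) τ
    have h2 : (X1.card : ℝ) * τ ≤ F.card * (D * u) := h1
    have h3 : (X1.card : ℝ) ≤ F.card * (2 * D / ε) := by
      have e1 : F.card * (D * u) = (F.card * (2 * D / ε)) * τ := by
        rw [hτ]; field_simp
      rw [e1] at h2
      exact le_of_mul_le_mul_right h2 hτ0
    linarith
  set X2 := E'.filter (fun i => ∃ A ⊆ EE K b (e x) E' i, τ ≤ (A.card : ℝ) ∧
    ρ ^ 2 * mm ι b e x y < ((HH K b M D L (e x) y A i).card : ℝ)) with hX2d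
  have hmm : mm ι b e x y = n * X / Y ^ 4 := by
    unfold mm
    rw [hY, ← pow_mul, mul_comm (e y) 4]
  -- the count of X2
  have hT : ∀ i, ∃ A, i ∈ X2 → (A ⊆ EE K b (e x) E' i ∧ τ ≤ (A.card : ℝ) ∧
      ρ ^ 2 * mm ι b e x y < ((HH K b M D L (e x) y A i).card : ℝ)) := by
    intro i
    by_cases hi : i ∈ X2
    · obtain ⟨A, hA1, hA2⟩ := (mem_filter.1 hi).2
      exact ⟨A, fun _ => ⟨hA1, hA2⟩⟩
    · exact ⟨∅, fun h => absurd h hi⟩
  choose Tp hTp using hT
  have hX2E : X2 ⊆ E := (filter_subset _ _).trans sdiff_subset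
  have hX2c : (X2.card : ℝ) ≤ ε / 4 * K.N := by
    have hc0 : 0 ≤ κ * u * (yy ^ 4) ^ k := by positivity
    have h1 : (X2.card : ℝ) ≤ (κ * u * (yy ^ 4) ^ k) * (D * (n * X)) := by
      apply sum_win h hxJ hX2E hc0
      intro w
      have hA := als hDey hTok hinj h hxy hy w (E' := E') sdiff_subset
      have hYE : X2.filter (fun i => cell K b (e x) i = w) ⊆
          E'.filter (fun i => cell K b (e x) i = w) := filter_subset_filter _ (filter_subset _ _)
      have hg : ∀ j, β * (β * ρ ^ (2 ^ (j + 1))) ≤ (β * ρ ^ (2 ^ j)) ^ 2 := by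
        intro j
        apply le_of_eq
        rw [pow_succ 2 j, pow_mul]
        ring
      refine hA.p2 (uncut (Subset.refl _)) (by norm_num) hβ0 (θ := κ * u) (by positivity)
        (by positivity) hτ0 (m := D * u) (by positivity) hnum hYE ?_ (Tp := Tp) ?_ ?_
        (g := fun j => β * ρ ^ (2 ^ j)) (ε := fun j => κ * u * (yy ^ 4) ^ j) hg
        (fun j => by positivity) (fun j => by positivity) ?_ ?_ (k := k) ?_
      · intro p
        exact line_le h hxJ ((filter_subset _ _).trans hX2E) (fun i hi => (mem_filter.1 hi).2) p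
      · intro i hi e' he'
        have hi' := mem_filter.1 hi
        have h2 := mem_filter.1 ((hTp i hi'.1).1 he')
        exact ⟨mem_filter.2 ⟨h2.1, by rw [h2.2.2, hi'.2]⟩, h2.2.1⟩
      · intro i hi
        exact (hTp i (mem_filter.1 hi).1).2.1
      · intro j
        have h2 := hNm.recur j
        have e1 : D * u * (κ * u) + D * ↑K.N / (n * Y) * (D ^ 2 * Y / X) *
            (κ * u * (yy ^ 4) ^ j) = κ * u ^ 2 * (D + D ^ 3 * (yy ^ 4) ^ j) := by
          rw [hu]; field_simp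
        have e2 : τ * (κ * u * (yy ^ 4) ^ (j + 1)) =
            κ * u ^ 2 * (ε / 2 * (yy ^ 4) ^ (j + 1)) := by
          rw [hτ]; ring
        rw [e1, e2]
        exact mul_le_mul_of_nonneg_left h2 (by positivity)
      · intro i hi
        have hi' := mem_filter.1 hi
        have h2 := (hTp i hi'.1).2.2
        have h3 : β * ρ ^ (2 ^ 0) ≤ ρ ^ 2 * mm ι b e x y := by
          rw [hmm, hβ]
          have h4 := hNm.rho8
          have e1 : D ^ 8 * (n * X / Y ^ 4) / κ ^ 3 * ρ ^ (2 ^ 0) =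
              (D ^ 8 / κ ^ 3) * (n * X / Y ^ 4) * ρ := by
            rw [pow_zero, pow_one]; ring
          rw [e1]
          calc (D ^ 8 / κ ^ 3) * (n * X / Y ^ 4) * ρ ≤ ρ * (n * X / Y ^ 4) * ρ :=
                mul_le_mul_of_nonneg_right (mul_le_mul_of_nonneg_right h4 (by positivity))
                  (by linarith)
            _ = _ := by ring
        refine lt_of_le_of_lt h3 (lt_of_lt_of_le h2 ?_)
        have h4 : HH K b M D L (e x) y (Tp i) i ⊆ (PSr K b M D (e x) w).filter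
            (fun r => ∀ e' ∈ Tp i, r ∈ RL K b L (L.lab y e')) := by
          intro r hr
          have hr' := mem_filter.1 hr
          rw [hi'.2] at hr'
          exact mem_filter.2 hr'
        exact_mod_cast card_le_card h4
      · refine (ps_le w (e x)).trans ?_
        refine n_le_gk hD1 hn hX1 hY0 hκ0 hκ1 (b4 := (b : ℝ) ^ (4 * e J)) ?_ hB.it
        rw [hY, ← pow_mul, mul_comm (e y) 4]
        exact pow_le_pow_right₀ hbR (by have := e_mono h.lev hy le_rfl; omega)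
    have h2 := hNm.fin1
    have e1 : (κ * u * (yy ^ 4) ^ k) * (D * (n * X)) = (1 / P ^ 8 * (yy ^ 4) ^ k * D) * K.N := by
      rw [hu, hκ]; field_simp
    rw [e1] at h1
    exact h1.trans (mul_le_mul_of_nonneg_right h2 hN.le)
  refine ⟨F ∪ X1 ∪ X2, ?_, ?_, ?_⟩
  · exact union_subset (union_subset hFE (filter_subset _ _)) hX2E
  · have h1 : ((F ∪ X1 ∪ X2).card : ℝ) ≤ F.card + X1.card + X2.card := by
      have h1 := card_union_le (F ∪ X1) X2
      have h2 := card_union_le F X1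
      exact_mod_cast h1.trans (Nat.add_le_add_right h2 _)
    have : 0 ≤ ε * K.N := by positivity
    linarith
  · intro i hi A hA hAc
    obtain ⟨hiE, hiX⟩ := mem_sdiff.1 hi
    rw [mem_union, mem_union, not_or, not_or] at hiX
    obtain ⟨⟨hi1, hi2⟩, hi3⟩ := hiX
    have hi2' : ¬ (τ ≤ ((EE K b (e x) F i).card : ℝ)) := fun h2 => hi2 (mem_filter.2 ⟨hiE, h2⟩)
    obtain ⟨hA1, hA2⟩ := del_cut h hi2' hA hAc
    have hiE' : i ∈ E' := mem_sdiff.2 ⟨hiE, hi1⟩
    have h4 : ((HH K b M D L (e x) y (A \ F) i).card : ℝ) ≤ ρ ^ 2 * mm ι b e x y := by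
      by_contra hc
      rw [not_le] at hc
      exact hi3 (mem_filter.2 ⟨hiE', A \ F, hA1, hA2, hc⟩)
    refine le_trans ?_ h4
    have h5 : HH K b M D L (e x) y A i ⊆ HH K b M D L (e x) y (A \ F) i := by
      intro r hr
      have hr' := mem_filter.1 hr
      exact mem_filter.2 ⟨hr'.1, fun i' hi' => hr'.2 i' (sdiff_subset hi')⟩
    exact_mod_cast card_le_card h5

theorem I_Plank (hDey : StDey) (hTok : StCellTok) (hCut : StCut) : StPlank := by
  classical
  refine ⟨200, ?_⟩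
  intro ι α _ _ _ K hinj b M J e ec D L E h ε ρ k hB x y z hxy hy hxz hz
  have hNm := nm h hB
  have hn := n_pos h
  have hN : (0 : ℝ) < K.N := by exact_mod_cast h.npos
  have hD1 := D_one h
  have hb1 : 1 ≤ b := by have := h.lev.two; omega
  have hbR : (1 : ℝ) ≤ b := by exact_mod_cast hb1
  have hxJ := hxy.trans hy
  set n : ℝ := (Fintype.card ι : ℝ) with hnd
  set X : ℝ := (b : ℝ) ^ (e x) with hX
  set Y : ℝ := (b : ℝ) ^ (e y) with hY
  set Z : ℝ := (b : ℝ) ^ (e z) with hZ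
  set P : ℝ := (D / ε) ^ (k + 1) with hP
  set yy : ℝ := D / ε with hyy
  have hX0 : 0 < X := b_pos h _
  have hX1 : 1 ≤ X := b_one h _
  have hY0 : 0 < Y := b_pos h _
  have hZ0 : 0 < Z := b_pos h _
  have hP1 := hNm.P1
  have hP0 : 0 < P := by linarith
  have hy1 := hNm.y1
  have hρ1 := hNm.rho1
  set u : ℝ := K.N / (n * X) with hu
  have hu0 : 0 < u := by positivity
  have hnX : n * X ≤ n * (b : ℝ) ^ (5 * M) := by
    apply mul_le_mul_of_nonneg_left _ hn.le
    exact pow_le_pow_right₀ hbR (by have := e_le_M h.lev hxJ; omega)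
  have hnX0 : 0 ≤ n * X := by positivity
  set κ : ℝ := 1 / P ^ 8 with hκ
  have hκ0 : 0 < κ := by positivity
  have hκ1 : κ ≤ 1 := by
    rw [hκ, div_le_one (by positivity)]; exact one_le_pow₀ hP1
  have hκN : D ^ 2 * (n * X) ≤ κ * K.N := by
    rw [hκ, one_div, inv_mul_eq_div, le_div_iff₀ (by positivity)]
    calc D ^ 2 * (n * X) * P ^ 8 = (D ^ 2 * P ^ 8) * (n * X) := by ring
      _ ≤ (P ^ 2 * P ^ 8) * (n * X) :=
          mul_le_mul_of_nonneg_right (mul_le_mul_of_nonneg_right (hNm.DPa 2) (by positivity)) hnX0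
      _ = P ^ 10 * (n * X) := by ring
      _ ≤ K.N := hNm.nnle hnX hnX0 (by norm_num)
  have hnum := num_hc hNm.hD hκ0 hn hN hX0 hY0 h.dense hκN
  have hnum' := num_hc hNm.hD hκ0 hn hN hX0 hZ0 h.dense hκN
  set β : ℝ := D ^ 8 * (n * X / Y ^ 4) / κ ^ 3 with hβ
  have hβ0 : 0 < β := by positivity
  set β' : ℝ := D ^ 8 * (n * X / Z ^ 4) / κ ^ 3 with hβ'
  have hβ'0 : 0 < β' := by positivity
  -- the exceptional edges
  set F := cutE K b L E y ∪ cutE K b L E z with hF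
  have hFE : F ⊆ E := union_subset (filter_subset _ _) (filter_subset _ _)
  have hFc : (F.card : ℝ) ≤ 32 * D * (n * (b : ℝ) ^ (4 * M)) := by
    have h1 : (F.card : ℝ) ≤ (cutE K b L E y).card + (cutE K b L E z).card := by
      exact_mod_cast card_union_le _ _
    have h2 := cutE_le hCut h hy
    have h3 := cutE_le hCut h hz
    linarith
  have hnB : n * (b : ℝ) ^ (4 * M) ≤ n * (b : ℝ) ^ (5 * M) := by
    apply mul_le_mul_of_nonneg_left _ hn.le
    exact pow_le_pow_right₀ hbR (by omega)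
  have hF3 := hNm.cutN hnB (by positivity) hFc
  obtain ⟨hF1, hF2⟩ := hNm.cutN1 (Nat.cast_nonneg _) hF3
  set τ : ℝ := ε * u / 2 with hτ
  have hε := hB.ep
  have hτ0 : 0 < τ := by positivity
  set E' := E \ F with hE'
  have hE'y : E' ⊆ E \ cutE K b L E y := sdiff_subset_sdiff (Subset.refl _) subset_union_left
  set X1 := E.filter (fun i => τ ≤ ((EE K b (e x) F i).card : ℝ)) with hX1d
  have hX1c : (X1.card : ℝ) ≤ ε / 4 * K.N := by
    have h1 := many_le h hxJ (F := F) τ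
    have h2 : (X1.card : ℝ) * τ ≤ F.card * (D * u) := h1
    have h3 : (X1.card : ℝ) ≤ F.card * (2 * D / ε) := by
      have e1 : F.card * (D * u) = (F.card * (2 * D / ε)) * τ := by
        rw [hτ]; field_simp
      rw [e1] at h2
      exact le_of_mul_le_mul_right h2 hτ0
    linarith
  set X2 := E'.filter (fun i => ∃ A ⊆ EE K b (e x) E' i, τ ≤ (A.card : ℝ) ∧
    ρ ^ 6 * mm ι b e x y * mm ι b e x z <
      ((HH K b M D L (e x) y A i ∩ RR K b L z i).card : ℝ) ^ 2) with hX2d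
  have hmmy : mm ι b e x y = n * X / Y ^ 4 := by
    unfold mm
    rw [hY, ← pow_mul, mul_comm (e y) 4]
  have hmmz : mm ι b e x z = n * X / Z ^ 4 := by
    unfold mm
    rw [hZ, ← pow_mul, mul_comm (e z) 4]
  -- the count of X2
  have hT : ∀ i, ∃ A, i ∈ X2 → (A ⊆ EE K b (e x) E' i ∧ τ ≤ (A.card : ℝ) ∧
      ρ ^ 6 * mm ι b e x y * mm ι b e x z <
        ((HH K b M D L (e x) y A i ∩ RR K b L z i).card : ℝ) ^ 2) := by
    intro i
    by_cases hi : i ∈ X2
    · obtain ⟨A, hA1, hA2⟩ := (mem_filter.1 hi).2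
      exact ⟨A, fun _ => ⟨hA1, hA2⟩⟩
    · exact ⟨∅, fun h => absurd h hi⟩
  choose Tp hTp using hT
  have hX2E : X2 ⊆ E := (filter_subset _ _).trans sdiff_subset
  have hX2c : (X2.card : ℝ) ≤ ε / 4 * K.N := by
    have hc0 : 0 ≤ κ * u * (yy ^ 4) ^ k := by positivity
    have h1 : (X2.card : ℝ) ≤ (κ * u * (yy ^ 4) ^ k) * (D * (n * X)) := by
      apply sum_win h hxJ hX2E hc0
      intro w
      have hA := als hDey hTok hinj h hxy hy w (E' := E') sdiff_subset
      have hA' := als hDey hTok hinj h hxz hz w (E' := E') sdiff_subset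
      have hYE : X2.filter (fun i => cell K b (e x) i = w) ⊆
          E'.filter (fun i => cell K b (e x) i = w) := filter_subset_filter _ (filter_subset _ _)
      have hg : ∀ j, β * (β * ρ ^ (2 ^ (j + 1))) ≤ (β * ρ ^ (2 ^ j)) ^ 2 := by
        intro j
        apply le_of_eq
        rw [pow_succ 2 j, pow_mul]
        ring
      refine hA.planks (uncut hE'y) (by norm_num) hβ0 (θ := κ * u) (by positivity)
        (by positivity) hτ0 (m := D * u) (by positivity) hnum hA' (by norm_num) hβ'0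
        (θ' := κ * u) (by positivity) hnum' hYE ?_ (Tp := Tp) ?_ ?_
        (g := fun j => β * ρ ^ (2 ^ j)) (ε := fun j => κ * u * (yy ^ 4) ^ j) hg
        (fun j => by positivity) (fun j => by positivity) ?_ ?_
        (G0 := ρ ^ 6 * mm ι b e x y * mm ι b e x z) ?_ ?_ (k := k) ?_
      · intro p
        exact line_le h hxJ ((filter_subset _ _).trans hX2E) (fun i hi => (mem_filter.1 hi).2) p
      · intro i hi e' he'
        have hi' := mem_filter.1 hi
        have h2 := mem_filter.1 ((hTp i hi'.1).1 he')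
        exact ⟨mem_filter.2 ⟨h2.1, by rw [h2.2.2, hi'.2]⟩, h2.2.1⟩
      · intro i hi
        exact (hTp i (mem_filter.1 hi).1).2.1
      · intro j
        have h2 := hNm.recur j
        have e1 : D * u * (κ * u) + D * ↑K.N / (n * Y) * (D ^ 2 * Y / X) *
            (κ * u * (yy ^ 4) ^ j) = κ * u ^ 2 * (D + D ^ 3 * (yy ^ 4) ^ j) := by
          rw [hu]; field_simp
        have e2 : τ * (κ * u * (yy ^ 4) ^ (j + 1)) =
            κ * u ^ 2 * (ε / 2 * (yy ^ 4) ^ (j + 1)) := by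
          rw [hτ]; ring
        rw [e1, e2]
        exact mul_le_mul_of_nonneg_left h2 (by positivity)
      · simp
      · -- β' * g 0 ≤ ρ^6 mm mm
        have h4 := hNm.rho8
        rw [hmmy, hmmz]
        have e1 : β' * (β * ρ ^ (2 ^ 0)) = (D ^ 8 / κ ^ 3) * (D ^ 8 / κ ^ 3) * ρ *
            (n * X / Y ^ 4) * (n * X / Z ^ 4) := by
          rw [pow_zero, pow_one, hβ, hβ']; ring
        rw [e1]
        have h5 : 0 ≤ D ^ 8 / κ ^ 3 := by positivity
        have h6 : (D ^ 8 / κ ^ 3) * (D ^ 8 / κ ^ 3) * ρ ≤ ρ ^ 6 := by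
          calc (D ^ 8 / κ ^ 3) * (D ^ 8 / κ ^ 3) * ρ ≤ ρ * ρ * ρ :=
                mul_le_mul_of_nonneg_right (mul_le_mul h4 h4 h5 (by linarith)) (by linarith)
            _ = ρ ^ 3 := by ring
            _ ≤ ρ ^ 6 := pow_le_pow_right₀ hρ1 (by norm_num)
        apply mul_le_mul_of_nonneg_right _ (by positivity)
        exact mul_le_mul_of_nonneg_right h6 (by positivity)
      · intro i hi
        have hi' := mem_filter.1 hi
        have h2 := (hTp i hi'.1).2.2
        refine lt_of_lt_of_le h2 ?_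
        have h4 : HH K b M D L (e x) y (Tp i) i ∩ RR K b L z i ⊆ (PSr K b M D (e x) w).filter
            (fun r => (∀ e' ∈ Tp i, r ∈ RL K b L (L.lab y e')) ∧ r ∈ RL K b L (L.lab z i)) := by
          intro r hr
          have hr0 := mem_inter.1 hr
          have hr' := mem_filter.1 hr0.1
          rw [hi'.2] at hr'
          exact mem_filter.2 ⟨hr'.1, hr'.2, hr0.2⟩
        exact pow_le_pow_left₀ (Nat.cast_nonneg _) (by exact_mod_cast card_le_card h4) 2
      · refine (ps_le w (e x)).trans ?_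
        refine n_le_gk hD1 hn hX1 hY0 hκ0 hκ1 (b4 := (b : ℝ) ^ (4 * e J)) ?_ hB.it
        rw [hY, ← pow_mul, mul_comm (e y) 4]
        exact pow_le_pow_right₀ hbR (by have := e_mono h.lev hy le_rfl; omega)
    have h2 := hNm.fin1
    have e1 : (κ * u * (yy ^ 4) ^ k) * (D * (n * X)) = (1 / P ^ 8 * (yy ^ 4) ^ k * D) * K.N := by
      rw [hu, hκ]; field_simp
    rw [e1] at h1
    exact h1.trans (mul_le_mul_of_nonneg_right h2 hN.le)
  refine ⟨F ∪ X1 ∪ X2, ?_, ?_, ?_⟩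
  · exact union_subset (union_subset hFE (filter_subset _ _)) hX2E
  · have h1 : ((F ∪ X1 ∪ X2).card : ℝ) ≤ F.card + X1.card + X2.card := by
      have h1 := card_union_le (F ∪ X1) X2
      have h2 := card_union_le F X1
      exact_mod_cast h1.trans (Nat.add_le_add_right h2 _)
    have : 0 ≤ ε * K.N := by positivity
    linarith
  · intro i hi A hA hAc
    obtain ⟨hiE, hiX⟩ := mem_sdiff.1 hi
    rw [mem_union, mem_union, not_or, not_or] at hiX
    obtain ⟨⟨hi1, hi2⟩, hi3⟩ := hiX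
    have hi2' : ¬ (τ ≤ ((EE K b (e x) F i).card : ℝ)) := fun h2 => hi2 (mem_filter.2 ⟨hiE, h2⟩)
    obtain ⟨hA1, hA2⟩ := del_cut h hi2' hA hAc
    have hiE' : i ∈ E' := mem_sdiff.2 ⟨hiE, hi1⟩
    have h4 : ((HH K b M D L (e x) y (A \ F) i ∩ RR K b L z i).card : ℝ) ^ 2 ≤
        ρ ^ 6 * mm ι b e x y * mm ι b e x z := by
      by_contra hc
      rw [not_le] at hc
      exact hi3 (mem_filter.2 ⟨hiE', A \ F, hA1, hA2, hc⟩)
    refine le_trans ?_ h4
    have h5 : HH K b M D L (e x) y A i ∩ RR K b L z i ⊆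
        HH K b M D L (e x) y (A \ F) i ∩ RR K b L z i := by
      apply inter_subset_inter_right
      intro r hr
      have hr' := mem_filter.1 hr
      exact mem_filter.2 ⟨hr'.1, fun i' hi' => hr'.2 i' (sdiff_subset hi')⟩
    exact pow_le_pow_left₀ (Nat.cast_nonneg _) (by exact_mod_cast card_le_card h5) 2

end Pool.Agent.Work.MP_e17eac_co.HS
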