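import Pool.Agent.Work.MP_e17eac_co.HS.Defs

/-!
# HS, statements, part B: PM lemma, P2, planks, nesting, bodies, lower bound
-/

namespace Pool.Agent.Work.MP_e17eac_co.HS

open Finset
open Pool.Agent.Work.MP_e17eac_co.DH
open Pool.Agent.Work.MP_e17eac_co.B1

/-- Closure: the lines of `RR` are visited in the cell. -/
def StClo : Prop := ∀ (ι α : Type) [Fintype ι] [DecidableEq ι] [DecidableEq α] (K : KSys ι)
  (b M J : ℕ) (e ec : ℕ → ℕ) (D : ℝ) (L : Lb α) (E : Finset ℕ), LS K b M J e ec D L E →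
  ∀ j, j ≤ J → ∀ i ∈ E, RR K b L j i ⊆ vis K b (e j) (cell K b (e j) i)

/-- A line of `PSr` lies in few sets `RR`. -/
def StCov : Prop := ∀ (ι α : Type) [Fintype ι] [DecidableEq ι] [DecidableEq α] (K : KSys ι)
  (b M J : ℕ) (e ec : ℕ → ℕ) (D : ℝ) (L : Lb α) (E : Finset ℕ), LS K b M J e ec D L E →
  ∀ x z, x ≤ z → z ≤ J → ∀ w : ℕ, ∀ q ∈ PSr K b M D (e x) w,
  ((((E.filter (fun i => cell K b (e x) i = w ∧ q ∈ RR K b L z i)).image (L.lab z)).card : ℝ) *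
    (b : ℝ) ^ (e x) ≤ D ^ 2 * (b : ℝ) ^ (e z))

/-- **PM lemma** (for sets `E'` of edges not cut by `G`). -/
def StPM : Prop := ∃ C : ℕ, ∀ (ι α : Type) [Fintype ι] [DecidableEq ι] [DecidableEq α]
  (K : KSys ι), Function.Injective K.x → ∀ (b M J : ℕ) (e ec : ℕ → ℕ) (D : ℝ) (L : Lb α)
  (E : Finset ℕ), LS K b M J e ec D L E → ∀ x z, x ≤ z → z ≤ J → ∀ w : ℕ,
  ∀ E' ⊆ E, ∀ G ⊆ PSr K b M D (e x) w,
  (∀ i ∈ E', cell K b (e x) i = w → (K.a i ∈ G ↔ K.b i ∈ G)) →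
  ∀ κ g : ℝ, 0 < κ → κ ≤ 1 → 0 < g →
  D ^ C * (G.card : ℝ) * (Fintype.card ι * (b : ℝ) ^ (e x)) ≤
    κ ^ 3 * g ^ 2 * (b : ℝ) ^ (4 * e z) →
  D ^ C * (Fintype.card ι * (b : ℝ) ^ (e x)) ≤ κ * K.N →
  ((E'.filter (fun i => cell K b (e x) i = w ∧ K.a i ∈ G ∧
    g < ((G ∩ RR K b L z i).card : ℝ))).card : ℝ) * (Fintype.card ι * (b : ℝ) ^ (e x)) ≤
    κ * G.card * K.N

/-- **P2** (hereditary form, relative to the cells of the level `x`). -/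
def StP2 : Prop := ∃ C : ℕ, ∀ (ι α : Type) [Fintype ι] [DecidableEq ι] [DecidableEq α]
  (K : KSys ι), Function.Injective K.x → ∀ (b M J : ℕ) (e ec : ℕ → ℕ) (D : ℝ) (L : Lb α)
  (E : Finset ℕ), LS K b M J e ec D L E → ∀ (ε ρ : ℝ) (k : ℕ), Bg K b M J e D ε ρ k C →
  ∀ x y, x ≤ y → y ≤ J → ∃ X ⊆ E, (X.card : ℝ) ≤ ε * K.N ∧ ∀ i ∈ E \ X,
  ∀ A ⊆ EE K b (e x) E i, ε * K.N ≤ Fintype.card ι * (b : ℝ) ^ (e x) * A.card →
  ((HH K b M D L (e x) y A i).card : ℝ) ≤ ρ ^ 2 * mm ι b e x y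

/-- **PLANKS** (relative to the cells of the level `x`). -/
def StPlank : Prop := ∃ C : ℕ, ∀ (ι α : Type) [Fintype ι] [DecidableEq ι] [DecidableEq α]
  (K : KSys ι), Function.Injective K.x → ∀ (b M J : ℕ) (e ec : ℕ → ℕ) (D : ℝ) (L : Lb α)
  (E : Finset ℕ), LS K b M J e ec D L E → ∀ (ε ρ : ℝ) (k : ℕ), Bg K b M J e D ε ρ k C →
  ∀ x y z, x ≤ y → y ≤ J → x ≤ z → z ≤ J → ∃ X ⊆ E, (X.card : ℝ) ≤ ε * K.N ∧ ∀ i ∈ E \ X,
  ∀ A ⊆ EE K b (e x) E i, ε * K.N ≤ Fintype.card ι * (b : ℝ) ^ (e x) * A.card →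
  ((HH K b M D L (e x) y A i ∩ RR K b L z i).card : ℝ) ^ 2 ≤ ρ ^ 6 * mm ι b e x y * mm ι b e x z

/-- **NEST**: the lines of a label of level `z` are not in a set `RR` of level `y` if
`b ^ (e x + e z) << b ^ (2 e y)`. -/
def StNest : Prop := ∃ C : ℕ, ∀ (ι α : Type) [Fintype ι] [DecidableEq ι] [DecidableEq α]
  (K : KSys ι), Function.Injective K.x → ∀ (b M J : ℕ) (e ec : ℕ → ℕ) (D : ℝ) (L : Lb α)
  (E : Finset ℕ), LS K b M J e ec D L E → ∀ (ε ρ : ℝ) (k : ℕ), Bg K b M J e D ε ρ k C →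
  ∀ x y z, x ≤ y → y ≤ J → x ≤ z → z ≤ J → ρ ^ 4 * (b : ℝ) ^ (e x + e z) ≤ (b : ℝ) ^ (2 * e y) →
  (((PP K b (e x) E).filter (fun u : ℕ × ℕ => ε * Fintype.card ι ≤
    (b : ℝ) ^ (3 * e z) * ((NN K E (L.lab z) u.1 ∩ RR K b L y u.2).card : ℝ))).card : ℝ) *
    (Fintype.card ι * (b : ℝ) ^ (e x)) ≤ ε * (K.N : ℝ) ^ 2

/-- **BODIES.** -/
def StBody : Prop := ∃ C : ℕ, ∀ (ι α : Type) [Fintype ι] [DecidableEq ι] [DecidableEq α]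
  (K : KSys ι), Function.Injective K.x → ∀ (b M J : ℕ) (e ec : ℕ → ℕ) (D : ℝ) (L : Lb α)
  (E : Finset ℕ), LS K b M J e ec D L E → ∀ z, Fine b J e D z → ∀ ε : ℝ, 0 < ε → ε ≤ 1 →
  ∃ X ⊆ E, (X.card : ℝ) ≤ ε * K.N ∧ ∀ i ∈ E \ X, ∃ Ψ μ, Body K b e L E z (ε / D ^ C) i Ψ μ

/-- Uniqueness of common tangents. -/
def StUniq : Prop := ∀ (ι : Type) [Fintype ι] [DecidableEq ι] (K : KSys ι) (n n' k k' : ℕ),
  Cr K n n' → Cr K k k' → K.tokB n = K.tokB k → K.tokT n' = K.tokT k' → n = k ∧ n' = k'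

/-- Few edges are cut by a set `RR` (note 2872, (S3)). -/
def StCut : Prop := ∀ (ι α : Type) [Fintype ι] [DecidableEq ι] [DecidableEq α] (K : KSys ι)
  (b : ℕ) (L : Lb α) (j i : ℕ), ((range K.N).filter (fun n =>
    ¬ (K.a n ∈ RR K b L j i ↔ K.b n ∈ RR K b L j i))).card ≤ 16 * Fintype.card ι

/-- Common tangents within a cell. -/
def StCPsum : Prop := ∀ (ι : Type) [Fintype ι] [DecidableEq ι] (K : KSys ι) (b x w : ℕ),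
  1 ≤ b → (CP K (ce K b x w) (ce K b x w)).card ≤ (vis K b x w).card ^ 2

/-- **COMMON TANGENTS** for bodies: many common tangents or nested. -/
def StCT : Prop := ∀ (ι α : Type) [Fintype ι] [DecidableEq ι] [DecidableEq α]
  (K : KSys ι), Function.Injective K.x → ∀ (b M J : ℕ) (e ec : ℕ → ℕ) (D : ℝ) (L : Lb α)
  (E : Finset ℕ), LS K b M J e ec D L E → ∀ y z, y + 1 ≤ J → z + 1 ≤ J → ∀ i ∈ E, ∀ i' ∈ E,
  K.a i = K.a i' → ∀ (δ : ℝ) (Ψ Ψ' : Finset ι) (μ μ' : ℝ), Body K b e L E y δ i Ψ μ →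
  Body K b e L E z δ i' Ψ' μ' → Sep b L (L.lab y i) (L.lab z i') →
  (Ψ.card * Ψ'.card ≤ (CP K (ce K b (e y) (cell K b (e y) i))
    (ce K b (e z) (cell K b (e z) i'))).card) ∨
  (Ψ.card * Ψ'.card ≤ (CP K (ce K b (e z) (cell K b (e z) i'))
    (ce K b (e y) (cell K b (e y) i))).card) ∨
  (∃ l ∈ EE K b (e z) E i', Ψ ⊆ RR K b L (z + 1) l) ∨
  (∃ l ∈ EE K b (e y) E i, Ψ' ⊆ RR K b L (y + 1) l)

open Classical in
/-- **LOWER BOUND** for strips, for any subset `E'` of the edges and refined labels `gy`, `gz` (at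
most `D1` values per cell). -/
def StLB : Prop := ∃ C : ℕ, ∀ (ι α γ : Type) [Fintype ι] [DecidableEq ι] [DecidableEq α]
  [DecidableEq γ] (K : KSys ι), Function.Injective K.x → ∀ (b M J : ℕ) (e ec : ℕ → ℕ) (D : ℝ)
  (L : Lb α) (E : Finset ℕ), LS K b M J e ec D L E → ∀ (D1 ε ρ : ℝ) (k : ℕ), D ≤ D1 →
  Bg K b M J e D1 ε ρ k C → ∀ x y z, x ≤ y → y ≤ z → Fine b J e D y → Fine b J e D z →
  ρ ^ 4 * (b : ℝ) ^ (e x + e z) ≤ (b : ℝ) ^ (2 * e y) →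
  ∀ E' ⊆ E, ∀ gy gz : ℕ → γ,
  (∀ i ∈ E', ∀ i' ∈ E', gy i = gy i' → L.lab y i = L.lab y i') →
  (∀ i ∈ E', ∀ i' ∈ E', gz i = gz i' → L.lab z i = L.lab z i') →
  (∀ c : ℕ, (((E'.filter (fun i => cell K b (e y) i = c)).image gy).card : ℝ) ≤ D1) →
  (∀ c : ℕ, (((E'.filter (fun i => cell K b (e z) i = c)).image gz).card : ℝ) ≤ D1) →
  (((PP K b (e x) E').filter (fun u : ℕ × ℕ => Sep b L (L.lab y u.1) (L.lab z u.2) ∧
    D1 ^ C * ((NN K E' gy u.1 ∩ NN K E' gz u.2).card : ℝ) * (b : ℝ) ^ (2 * e y + 2 * e z) <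
      ε ^ C * (Fintype.card ι * (b : ℝ) ^ (e x)))).card : ℝ) *
    (Fintype.card ι * (b : ℝ) ^ (e x)) ≤ ε * (K.N : ℝ) ^ 2

end Pool.Agent.Work.MP_e17eac_co.HS
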