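import Pool.Agent.Work.MP_e17eac_co.HS.StC

/-!
# HS, statements, part G: from the profile to the configuration
-/

namespace Pool.Agent.Work.MP_e17eac_co.HS

open Finset
open Pool.Agent.Work.MP_e17eac_co.DH
open Pool.Agent.Work.MP_e17eac_co.B1

/-- The facts after (U), (Lo), (ST), (Short), (R3), (RLB) for all edges of `E5`. `A` = losses. -/
structure PF {ι α : Type} [Fintype ι] [DecidableEq ι] [DecidableEq α] (K : KSys ι)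
    (b M m R F : ℕ) (ec : ℕ → ℕ) (D D' ρ A : ℝ) (L : Lb α) (E E4 X4 E5 : Finset ℕ)
    (U : ℕ → ι → ℕ → ℕ × ℕ) (c f u u' : ℕ) (rm rp : ℕ → ι → ℝ) : Prop where
  s4 : S4 K b M m R F ec D D' ρ L E E4 X4 U c f u u' rm rp
  inj : Function.Injective K.x
  DA : D' ≤ A
  cA : (b : ℝ) ^ (8 * c * m) * D ≤ A
  rR : ρ ^ 8 ≤ (b : ℝ) ^ R
  sub : E5 ⊆ E4 \ X4
  most : 1000 * D' ^ 4 * ((E4 \ E5).card : ℝ) ≤ K.N
  up : ∀ x y z, 1 ≤ x → x < z → 1 ≤ y → y ≤ z → z ≤ m → 2 * z + 1 ≤ x + 2 * y → ∀ i ∈ E5,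
    (g1 K b (R * x) (R * x + c) (U x) i - g0 K b (R * x) (R * x + c) (U x) i) *
      rm y (K.a i) ≤ rp z (K.a i) * (tb K b f u' - ta K b f u)
  lo : ∀ x y z, 1 ≤ x → x < z → 1 ≤ y → y ≤ z → z ≤ m → x + 2 * y + 1 ≤ 2 * z →
    z + 1 ≤ 2 * y → ∀ i ∈ E5, rm z (K.a i) * (tb K b f u' - ta K b f u) ≤
    (g1 K b (R * x) (R * x + c) (U x) i - g0 K b (R * x) (R * x + c) (U x) i) * rp y (K.a i)
  st : ∀ x y z, 1 ≤ x → x ≤ z → 1 ≤ y → y ≤ z → z ≤ m → z + 1 ≤ 2 * y → ∀ i ∈ E5,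
    ∃ i1 ∈ EE K b (R * x) E4 i \ X4, ∃ i2 ∈ E4 \ X4, K.a i2 = K.a i ∧
    cell K b f i2 ≠ cell K b f i ∧ (Fintype.card ι : ℝ) ≤
    A * (b : ℝ) ^ (2 * (R * y) + 2 * (R * z)) *
      ((NN K E4 (L.lab (2 * z)) i1 ∩ NN K E4 (L.lab (2 * y)) i2).card : ℝ)
  short : ∀ x, 1 ≤ x → x ≤ m → ∀ i ∈ E5,
    (g1 K b (R * x) (R * x + c) (U x) i - g0 K b (R * x) (R * x + c) (U x) i) *
      (b : ℝ) ^ (4 * (R * x)) ≤ A * (tb K b f u' - ta K b f u)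
  r3 : ∀ z, 1 ≤ z → z + 1 ≤ m → ∀ i ∈ E5, (b : ℝ) ^ 16 * rp (z + 1) (K.a i) < rm z (K.a i)
  rlb : ∀ (γ : Type) [DecidableEq γ] (y : ℕ), 1 ≤ y → y ≤ m → ∀ g : ℕ → γ,
    (∀ i ∈ E5, ∀ i' ∈ E5, g i = g i' → L.lab (2 * y) i = L.lab (2 * y) i') →
    (∀ w : ℕ, (((E5.filter (fun i => cell K b (R * y) i = w)).image g).card : ℝ) ≤
      (b : ℝ) ^ (8 * c * m) * D) →
    1000 * D' ^ 4 * (((E5 ×ˢ E5).filter (fun v : ℕ × ℕ => K.a v.1 = K.a v.2 ∧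
      cell K b f v.1 = u ∧ cell K b f v.2 = u' ∧ A * (b : ℝ) ^ (4 * (R * y)) *
        ((NN K E5 g v.1 ∩ NN K E5 g v.2).card : ℝ) < Fintype.card ι)).card : ℝ) *
      Fintype.card ι ≤ (K.N : ℝ) ^ 2

/-- **From the profile to a contradiction.** -/
def StG : Prop := ∃ m C : ℕ, 1 ≤ m ∧ ∀ (ι α : Type) [Fintype ι] [DecidableEq ι] [DecidableEq α]
  (K : KSys ι) (b M R F : ℕ) (ec : ℕ → ℕ) (D D' ρ A : ℝ) (L : Lb α) (E E4 X4 E5 : Finset ℕ)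
  (U : ℕ → ι → ℕ → ℕ × ℕ) (c f u u' : ℕ) (rm rp : ℕ → ι → ℝ), A ^ C ≤ ρ →
  ¬ PF K b M m R F ec D D' ρ A L E E4 X4 E5 U c f u u' rm rp

end Pool.Agent.Work.MP_e17eac_co.HS
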