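import Pool.Agent.Work.MP_e17eac_co.HS.StG
import Pool.Agent.Work.MP_e17eac_co.Bd.B04

/-!
# HS, block G (from the profile to the configuration): items

Radius levels `gY d i` (steps of 4 levels), hull levels `8 j + 4`, unit `q = b ^ (8 R)`.
-/

namespace Pool.Agent.Work.MP_e17eac_co.HS

open Finset
open Pool.Agent.Work.MP_e17eac_co.DH
open Pool.Agent.Work.MP_e17eac_co.B1

/-- Number of radius indices. -/
def gI (d : ℕ) : ℕ := (d + 10) ^ 2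

/-- The radius level of index `i`. -/
def gY (d i : ℕ) : ℕ := 4 * gI d + 4 + 4 * i

/-- The number of integer levels. -/
def gm (d : ℕ) : ℕ := 8 * gI d + 8

/-- Normalised length of the hull of level `x` of the edge `i`. -/
noncomputable def hln {ι : Type} [Fintype ι] [DecidableEq ι] (K : KSys ι) (b R c f u u' : ℕ)
    (U : ℕ → ι → ℕ → ℕ × ℕ) (x i : ℕ) : ℝ :=
  (g1 K b (R * x) (R * x + c) (U x) i - g0 K b (R * x) (R * x + c) (U x) i) /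
    (tb K b f u' - ta K b f u)

/-- The profile inequalities: `w i = - log` of the radius of index `i`, `g j = - log` of the hull
length of level `8 j + 4`. -/
structure Pr (I J : ℕ) (lq : ℝ) (w g : ℕ → ℝ) : Prop where
  lo : ∀ i j, j ≤ J → i + j ≤ I → w (i + j) - w i ≤ g j
  hi : ∀ i j, j ≤ J → i + j + 1 ≤ I → g j ≤ w (i + j + 1) - w i
  sh : ∀ j, j ≤ J → (4 * (j : ℝ) + 1) * lq ≤ g j
  gr : ∀ i, i + 1 ≤ I → w i + 2 ≤ w (i + 1)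

/-- Linear profile. -/
def StLin : Prop := ∀ (I J : ℕ) (lq : ℝ) (w g : ℕ → ℝ), 3 ≤ J → (J + 2) ^ 2 ≤ I → 0 < lq →
  Pr I J lq w g → ∃ θ : ℝ, 2 * lq ≤ θ ∧ ∀ i j, j ≤ J → i + j ≤ I →
    θ * ((j : ℝ) - 2) ≤ w (i + j) - w i ∧ w (i + j) - w i ≤ θ * ((j : ℝ) + 2)

/-- Comparison of two profiles with the same hulls. -/
def StCmp : Prop := ∀ (I J : ℕ) (lq : ℝ) (w w' g : ℕ → ℝ), J + 6 ≤ I → Pr I J lq w g →
  Pr I J lq w' g → (∀ i, i ≤ 4 → w i ≤ w' (i + 1) ∧ w' i ≤ w (i + 1)) →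
  ∀ i, i ≤ J → w i ≤ w' (i + 3) ∧ w' i ≤ w (i + 3)

/-- The profile inequalities hold at all edges of `E5`. -/
def StPr : Prop := ∀ (ι α : Type) [Fintype ι] [DecidableEq ι] [DecidableEq α]
  (K : KSys ι) (b M R F d : ℕ) (ec : ℕ → ℕ) (D D' ρ A : ℝ) (L : Lb α) (E E4 X4 E5 : Finset ℕ)
  (U : ℕ → ι → ℕ → ℕ × ℕ) (c f u u' : ℕ) (rm rp : ℕ → ι → ℝ),
  PF K b M (gm d) R F ec D D' ρ A L E E4 X4 E5 U c f u u' rm rp → A ≤ (b : ℝ) ^ R →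
  ∀ i ∈ E5, Pr (gI d) (d + 8) (8 * R * Real.log b)
    (fun k => - Real.log (rm (gY d k) (K.a i)))
    (fun j => - Real.log (hln K b R c f u u' U (8 * j + 4) i))

/-- A line with the labels of two edges of `p`, one in each base cell, is close to `p`. -/
def StTwoH : Prop := ∀ (ι α : Type) [Fintype ι] [DecidableEq ι] [DecidableEq α]
  (K : KSys ι) (b M m R F : ℕ) (ec : ℕ → ℕ) (D D' ρ : ℝ) (L : Lb α) (E E4 X4 : Finset ℕ)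
  (U : ℕ → ι → ℕ → ℕ × ℕ) (c f u u' : ℕ) (rm rp : ℕ → ι → ℝ),
  S4 K b M m R F ec D D' ρ L E E4 X4 U c f u u' rm rp →
  ∀ i1 ∈ E4, ∀ i2 ∈ E4, K.a i1 = K.a i2 → cell K b f i1 ≠ cell K b f i2 →
  ∀ z1 z2, 1 ≤ z1 → z1 ≤ m → 1 ≤ z2 → z2 ≤ m →
  ∀ q ∈ NN K E4 (L.lab (2 * z1)) i1, q ∈ NN K E4 (L.lab (2 * z2)) i2 →
  ∀ ρ1 ρ2 : ℝ, L.rho (L.lab (2 * z1) i1) ≤ ρ1 → L.rho (L.lab (2 * z2) i2) ≤ ρ2 →
  |K.ht q (ta K b f u) - K.ht (K.a i1) (ta K b f u)| ≤ ρ1 + b * (ρ1 + ρ2) ∧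
  |K.ht q (tb K b f u') - K.ht (K.a i1) (tb K b f u')| ≤ ρ1 + b * (ρ1 + ρ2) ∧
  ∀ x, 1 ≤ x → x + 1 ≤ z1 → ∀ t, g0 K b (R * x) (R * x + c) (U x) i1 ≤ t →
    t ≤ g1 K b (R * x) (R * x + c) (U x) i1 →
    |K.ht q t - K.ht (K.a i1) t| ≤ ρ1 + b * (ρ1 + ρ2) * hln K b R c f u u' U x i1

/-- Comparison of the radii of two close lines at coarse levels. -/
def StRadC : Prop := ∀ (ι α : Type) [Fintype ι] [DecidableEq ι] [DecidableEq α]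
  (K : KSys ι) (b M m R F : ℕ) (ec : ℕ → ℕ) (D D' ρ A : ℝ) (L : Lb α) (E E4 X4 E5 : Finset ℕ)
  (U : ℕ → ι → ℕ → ℕ × ℕ) (c f u u' : ℕ) (rm rp : ℕ → ι → ℝ),
  PF K b M m R F ec D D' ρ A L E E4 X4 E5 U c f u u' rm rp → D' * ρ ^ 2 < (b : ℝ) ^ (4 * R) →
  ∀ i ∈ E5, ∀ i1 ∈ E5, ∀ y, y ≤ m →
  |K.ht (K.a i) (ta K b f u) - K.ht (K.a i1) (ta K b f u)| ≤ (b : ℝ) ^ 3 * rp y (K.a i1) →
  |K.ht (K.a i) (tb K b f u') - K.ht (K.a i1) (tb K b f u')| ≤ (b : ℝ) ^ 3 * rp y (K.a i1) →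
  ∀ z, 1 ≤ z → z + 2 ≤ y → rm (z + 1) (K.a i1) ≤ rm z (K.a i) ∧
    rm (z + 1) (K.a i) ≤ rm z (K.a i1)

/-- The refined label at the radius level of index 5: the label and the pairs of children at the
levels `8 j + 4`. -/
def gl {ι α : Type} [Fintype ι] [DecidableEq ι] (K : KSys ι) (b R d : ℕ) (L : Lb α)
    (U : ℕ → ι → ℕ → ℕ × ℕ) (i : ℕ) : α × (Fin (d + 9) → ℕ × ℕ) :=
  (L.lab (2 * gY d 5) i, fun j => U (8 * j + 4) (K.a i) (cell K b (R * (8 * j + 4)) i))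

/-- The edges of `E5` at the line of `i1` whose refined label is also a refined label of `p`. -/
def com {ι α : Type} [Fintype ι] [DecidableEq ι] [DecidableEq α] (K : KSys ι) (b R d : ℕ)
    (L : Lb α) (U : ℕ → ι → ℕ → ℕ × ℕ) (E5 : Finset ℕ) (i1 : ℕ) (p : ι) : Finset ℕ :=
  E5.filter (fun v => K.a v = K.a i1 ∧ ∃ i ∈ E5, K.a i = p ∧ gl K b R d L U i = gl K b R d L U v)

/-- Choice of the line `K.a i1` and of the lines `BB` around it. -/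
def StPick : Prop := ∀ (ι α : Type) [Fintype ι] [DecidableEq ι] [DecidableEq α]
  (K : KSys ι) (b M R F d : ℕ) (ec : ℕ → ℕ) (D D' ρ A : ℝ) (L : Lb α) (E E4 X4 E5 : Finset ℕ)
  (U : ℕ → ι → ℕ → ℕ × ℕ) (c f u u' : ℕ) (rm rp : ℕ → ι → ℝ),
  PF K b M (gm d) R F ec D D' ρ A L E E4 X4 E5 U c f u u' rm rp →
  ∃ i1 ∈ E5, ∃ BB : Finset ι,
    (∀ p ∈ BB, |K.ht p (ta K b f u) - K.ht (K.a i1) (ta K b f u)| ≤
        (b : ℝ) ^ 3 * rp (gY d 5) (K.a i1) ∧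
      |K.ht p (tb K b f u') - K.ht (K.a i1) (tb K b f u')| ≤
        (b : ℝ) ^ 3 * rp (gY d 5) (K.a i1) ∧
      (K.N : ℝ) ≤ 2 * ρ * A ^ 3 * Fintype.card ι * ((com K b R d L U E5 i1 p).card : ℝ)) ∧
    (Fintype.card ι : ℝ) ≤ 4 * A ^ 7 * (b : ℝ) ^ (4 * (R * gY d 5)) * BB.card

/-- Few windows of one line meet a short interval. `T` = edges of one line, at most one in every
cell of level `x'`. -/
def StRegA : Prop := ∀ (ι α : Type) [Fintype ι] [DecidableEq ι] [DecidableEq α]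
  (K : KSys ι) (b M m R F : ℕ) (ec : ℕ → ℕ) (D D' ρ : ℝ) (L : Lb α) (E E4 X4 : Finset ℕ)
  (U : ℕ → ι → ℕ → ℕ × ℕ) (c f u u' : ℕ) (rm rp : ℕ → ι → ℝ),
  S4 K b M m R F ec D D' ρ L E E4 X4 U c f u u' rm rp →
  ∀ T ⊆ E4, (∀ v ∈ T, ∀ v' ∈ T, K.a v = K.a v') → ∀ x x', 1 ≤ x → x ≤ x' → x' ≤ m →
  (∀ v ∈ T, ∀ v' ∈ T, cell K b (R * x') v = cell K b (R * x') v' → v = v') →
  (T.card : ℝ) ≤ D * (b : ℝ) ^ (R * x') ∧
  ∀ s δ : ℝ, (∀ v ∈ T, δ ≤ hln K b R c f u u' U x v) →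
  ((T.filter (fun v => |(K.t v - ta K b f u) / (tb K b f u' - ta K b f u) - s| ≤ δ)).card : ℝ) ≤
    4 * D * (b : ℝ) ^ (R * (x' - x))

end Pool.Agent.Work.MP_e17eac_co.HS
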